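import Pool.Agent.CBD.BLT

/-!
# CBD module BAC: the action on the hyperbolic plane

PROOFS.  For g in OJ let t' = √3 (g20 x + g21 y) + g22 t.  By col, with z = t/√3, x'^2 + y'^2 - t'^2 =
x^2 + y^2 - 3 z^2 = -1 for the image (x', y', t'/√3) of (x, y, z).  t' > 0 because by row (2,2)
3 (g20^2 + g21^2) = g22^2 - 1, so |√3 (g20 x + g21 y)| ≤ √(g22^2 - 1) √(t^2 - 1) < g22 t.  So
t' = √(1 + x'^2 + y'^2), `actH_t`.  Then (x, y, t/√3) transforms linearly by g, which gives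
`actH_mul`, `actH_one`, `cc_actH` (cc = -(x x' + y y' - 3 z z'), col), `lo_actH`
(lo (nv u) p = u0 x + u1 y - 3 u2 z).  Surjective: actH g (actH g⁻¹ p) = p.
-/

namespace Pool.CBD

open Real Set

private theorem colr {g : GL3} (hg : g ∈ OJ) (i j : Fin 3) :
    (g.1 0 i : ℝ) * g.1 0 j + (g.1 1 i : ℝ) * g.1 1 j - 3 * ((g.1 2 i : ℝ) * g.1 2 j) =
      (if i = j then (if i = 2 then -3 else 1) else 0) := by
  have h := col hg i j
  have h' : (((g.1 0 i * g.1 0 j + g.1 1 i * g.1 1 j - 3 * (g.1 2 i * g.1 2 j) : ℤ)) : ℝ) =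
      (((if i = j then (if i = 2 then -3 else 1) else 0 : ℤ)) : ℝ) := by rw [h]
  push_cast at h'
  rw [h']
  

private theorem rowr {g : GL3} (hg : g ∈ OJ) (i j : Fin 3) :
    3 * ((g.1 i 0 : ℝ) * g.1 j 0) + 3 * ((g.1 i 1 : ℝ) * g.1 j 1) - (g.1 i 2 : ℝ) * g.1 j 2 =
      (if i = j then (if i = 2 then -1 else 3) else 0) := by
  have h := row hg i j
  have h' : (((3 * (g.1 i 0 * g.1 j 0) + 3 * (g.1 i 1 * g.1 j 1) - g.1 i 2 * g.1 j 2 : ℤ)) : ℝ) =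
      (((if i = j then (if i = 2 then -1 else 3) else 0 : ℤ)) : ℝ) := by rw [h]
  push_cast at h'
  rw [h']

private theorem s3 : (√3 : ℝ) ^ 2 = 3 := Real.sq_sqrt (by norm_num)

private theorem s3pos : (0 : ℝ) < √3 := Real.sqrt_pos.mpr (by norm_num)

private theorem t_div (p : Hyp) : 3 * (p.t / √3) ^ 2 = p.t ^ 2 := by
  rw [div_pow, s3]; field_simp

private theorem t_div' (p : Hyp) : √3 * (p.t / √3) = p.t := by
  field_simp

private theorem t_pos_aux {g : GL3} (hg : g ∈ OJ) (p : Hyp) :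
    0 < √3 * ((g.1 2 0 : ℝ) * p.x + (g.1 2 1 : ℝ) * p.y) + (g.1 2 2 : ℝ) * p.t := by
  have hr := rowr hg 2 2
  simp only [if_true] at hr
  have hg22 : (0 : ℝ) < g.1 2 2 := by exact_mod_cast g22_pos hg
  have hp := p.h
  have hpp := p.pos
  set a := (g.1 2 0 : ℝ)
  set b := (g.1 2 1 : ℝ)
  set c := (g.1 2 2 : ℝ)
  have hs := s3
  set s := √3
  have hlt : (s * (a * p.x + b * p.y)) ^ 2 < (c * p.t) ^ 2 := by
    have e1 : (s * (a * p.x + b * p.y)) ^ 2 = 3 * (a * p.x + b * p.y) ^ 2 := by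
      rw [mul_pow, hs]
    have e2 : (a * p.x + b * p.y) ^ 2 ≤ (a ^ 2 + b ^ 2) * (p.x ^ 2 + p.y ^ 2) := by
      nlinarith [sq_nonneg (a * p.y - b * p.x)]
    have e3 : 3 * (a ^ 2 + b ^ 2) = c ^ 2 - 1 := by nlinarith
    have e4 : p.x ^ 2 + p.y ^ 2 = p.t ^ 2 - 1 := by linarith
    rw [e1]
    have e5 : 3 * ((a ^ 2 + b ^ 2) * (p.x ^ 2 + p.y ^ 2)) = (c ^ 2 - 1) * (p.t ^ 2 - 1) := by
      rw [← mul_assoc, e3, e4]
    have ht1 : 1 ≤ p.t ^ 2 := by nlinarith [sq_nonneg p.x, sq_nonneg p.y]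
    have hc1 : 1 ≤ c ^ 2 := by nlinarith [sq_nonneg a, sq_nonneg b]
    nlinarith
  have habs := abs_lt_of_sq_lt_sq hlt (by positivity)
  have := (abs_lt.mp habs).1
  linarith

theorem actH_t {g : GL3} (hg : g ∈ OJ) (p : Hyp) :
    (actH g p).t = √3 * ((g.1 2 0 : ℝ) * p.x + (g.1 2 1 : ℝ) * p.y) + (g.1 2 2 : ℝ) * p.t := by
  rw [Hyp.t_eq]
  have hpos := t_pos_aux hg p
  rw [show √3 * ((g.1 2 0 : ℝ) * p.x + (g.1 2 1 : ℝ) * p.y) + (g.1 2 2 : ℝ) * p.t =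
    √((√3 * ((g.1 2 0 : ℝ) * p.x + (g.1 2 1 : ℝ) * p.y) + (g.1 2 2 : ℝ) * p.t) ^ 2) from
    (Real.sqrt_sq hpos.le).symm]
  congr 1
  have c00 := colr hg 0 0
  have c11 := colr hg 1 1
  have c22 := colr hg 2 2
  have c01 := colr hg 0 1
  have c02 := colr hg 0 2
  have c12 := colr hg 1 2
  simp at c00 c11 c22 c01 c02 c12
  have hp := p.h
  have hz := t_div p
  have hz' := t_div' p
  have hs := s3
  change 1 + ((g.1 0 0 : ℝ) * p.x + (g.1 0 1 : ℝ) * p.y + (g.1 0 2 : ℝ) * (p.t / √3)) ^ 2 +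
    ((g.1 1 0 : ℝ) * p.x + (g.1 1 1 : ℝ) * p.y + (g.1 1 2 : ℝ) * (p.t / √3)) ^ 2 = _
  generalize (g.1 0 0 : ℝ) = g00 at *
  generalize (g.1 0 1 : ℝ) = g01 at *
  generalize (g.1 0 2 : ℝ) = g02 at *
  generalize (g.1 1 0 : ℝ) = g10 at *
  generalize (g.1 1 1 : ℝ) = g11 at *
  generalize (g.1 1 2 : ℝ) = g12 at *
  generalize (g.1 2 0 : ℝ) = g20 at *
  generalize (g.1 2 1 : ℝ) = g21 at *
  generalize (g.1 2 2 : ℝ) = g22 at *
  rw [← hz'] at hp ⊢
  set s := √3 with hsd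
  set z := p.t / s with hzd
  generalize p.x = x at *
  generalize p.y = y at *
  rw [hz']
  rw [hz'] at hp
  have e1 : (s * (g20 * x + g21 * y) + g22 * p.t) ^ 2 = 3 * (g20 * x + g21 * y + g22 * z) ^ 2 := by
    rw [← hz', ← hs]; ring
  rw [e1]
  rw [← hz] at hp
  linear_combination (-1 : ℝ) * hp + x ^ 2 * c00 + y ^ 2 * c11 + z ^ 2 * c22 + 2 * x * y * c01 +
    2 * x * z * c02 + 2 * y * z * c12

private theorem actH_x (g : GL3) (p : Hyp) :
    (actH g p).x = (g.1 0 0 : ℝ) * p.x + (g.1 0 1 : ℝ) * p.y + (g.1 0 2 : ℝ) * (p.t / √3) := rfl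

private theorem actH_y (g : GL3) (p : Hyp) :
    (actH g p).y = (g.1 1 0 : ℝ) * p.x + (g.1 1 1 : ℝ) * p.y + (g.1 1 2 : ℝ) * (p.t / √3) := rfl

private theorem actH_z {g : GL3} (hg : g ∈ OJ) (p : Hyp) :
    (actH g p).t / √3 = (g.1 2 0 : ℝ) * p.x + (g.1 2 1 : ℝ) * p.y + (g.1 2 2 : ℝ) * (p.t / √3) := by
  have h := s3pos
  rw [actH_t hg]
  field_simp

theorem actH_one (p : Hyp) : actH 1 p = p := by
  apply Hyp.ext'
  · rw [actH_x]
    simp
  · rw [actH_y]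
    simp

theorem actH_mul {g h : GL3} (hg : g ∈ OJ) (hh : h ∈ OJ) (p : Hyp) :
    actH (g * h) p = actH g (actH h p) := by
  have hm : ∀ i j, (g * h).1 i j = g.1 i 0 * h.1 0 j + g.1 i 1 * h.1 1 j + g.1 i 2 * h.1 2 j := by
    intro i j
    rw [Units.val_mul, Matrix.mul_apply, Fin.sum_univ_three]
  apply Hyp.ext'
  · rw [actH_x, actH_x, actH_z hh, actH_x, actH_y, hm, hm, hm]
    push_cast
    ring
  · rw [actH_y, actH_y, actH_z hh, actH_x, actH_y, hm, hm, hm]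
    push_cast
    ring

private theorem cc_z (p q : Hyp) :
    Hyp.cc p q = 3 * ((p.t / √3) * (q.t / √3)) - p.x * q.x - p.y * q.y := by
  have e : 3 * ((p.t / √3) * (q.t / √3)) = p.t * q.t := by
    have := s3
    have h := s3pos
    field_simp
    rw [this]
    ring
  rw [e]
  rfl

theorem cc_actH {g : GL3} (hg : g ∈ OJ) (p q : Hyp) : Hyp.cc (actH g p) (actH g q) = Hyp.cc p q := by
  rw [cc_z, cc_z, actH_z hg, actH_z hg, actH_x, actH_x, actH_y, actH_y]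
  have c00 := colr hg 0 0
  have c11 := colr hg 1 1
  have c22 := colr hg 2 2
  have c01 := colr hg 0 1
  have c02 := colr hg 0 2
  have c12 := colr hg 1 2
  simp at c00 c11 c22 c01 c02 c12
  generalize (g.1 0 0 : ℝ) = g00 at *
  generalize (g.1 0 1 : ℝ) = g01 at *
  generalize (g.1 0 2 : ℝ) = g02 at *
  generalize (g.1 1 0 : ℝ) = g10 at *
  generalize (g.1 1 1 : ℝ) = g11 at *
  generalize (g.1 1 2 : ℝ) = g12 at *
  generalize (g.1 2 0 : ℝ) = g20 at *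
  generalize (g.1 2 1 : ℝ) = g21 at *
  generalize (g.1 2 2 : ℝ) = g22 at *
  generalize p.t / √3 = z
  generalize q.t / √3 = z'
  generalize p.x = x
  generalize p.y = y
  generalize q.x = x'
  generalize q.y = y'
  linear_combination (-(x * x')) * c00 - y * y' * c11 - z * z' * c22 - (x * y' + y * x') * c01 -
    (x * z' + z * x') * c02 - (y * z' + z * y') * c12

theorem dist_actH {g : GL3} (hg : g ∈ OJ) (p q : Hyp) : dist (actH g p) (actH g q) = dist p q := by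
  rw [Hyp.dist_def, Hyp.dist_def, cc_actH hg]

theorem lo_actH {g : GL3} (hg : g ∈ OJ) (u : Fin 3 → ℤ) (p : Hyp) :
    lo (nv (g.1.mulVec u)) (actH g p) = lo (nv u) p := by
  have hlo : ∀ (w : Fin 3 → ℤ) (q : Hyp), lo (nv w) q =
      (w 0 : ℝ) * q.x + (w 1 : ℝ) * q.y - 3 * ((w 2 : ℝ) * (q.t / √3)) := by
    intro w q
    have e : 3 * ((w 2 : ℝ) * (q.t / √3)) = √3 * (w 2 : ℝ) * q.t := by
      have := s3
      have h := s3pos
      field_simp
      rw [this]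
      ring
    rw [e]
    simp [lo, nv]
  have hm : ∀ i, g.1.mulVec u i = g.1 i 0 * u 0 + g.1 i 1 * u 1 + g.1 i 2 * u 2 := by
    intro i
    simp [Matrix.mulVec, dotProduct, Fin.sum_univ_three]
  rw [hlo, hlo, actH_z hg, actH_x, actH_y, hm, hm, hm]
  have c00 := colr hg 0 0
  have c11 := colr hg 1 1
  have c22 := colr hg 2 2
  have c01 := colr hg 0 1
  have c02 := colr hg 0 2
  have c12 := colr hg 1 2
  simp at c00 c11 c22 c01 c02 c12
  push_cast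
  generalize (g.1 0 0 : ℝ) = g00 at *
  generalize (g.1 0 1 : ℝ) = g01 at *
  generalize (g.1 0 2 : ℝ) = g02 at *
  generalize (g.1 1 0 : ℝ) = g10 at *
  generalize (g.1 1 1 : ℝ) = g11 at *
  generalize (g.1 1 2 : ℝ) = g12 at *
  generalize (g.1 2 0 : ℝ) = g20 at *
  generalize (g.1 2 1 : ℝ) = g21 at *
  generalize (g.1 2 2 : ℝ) = g22 at *
  generalize p.t / √3 = z
  generalize p.x = x
  generalize p.y = y
  generalize (u 0 : ℝ) = x'
  generalize (u 1 : ℝ) = y'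
  generalize (u 2 : ℝ) = z'
  linear_combination (x * x') * c00 + y * y' * c11 + z * z' * c22 + (x * y' + y * x') * c01 +
    (x * z' + z * x') * c02 + (y * z' + z * y') * c12

theorem actH_surj {g : GL3} (hg : g ∈ OJ) : Function.Surjective (actH g) := by
  intro p
  refine ⟨actH g⁻¹ p, ?_⟩
  rw [← actH_mul hg (inv_mem hg), mul_inv_cancel, actH_one]

theorem cosh_dist_h0 {g : GL3} (hg : g ∈ OJ) :
    Real.cosh (dist (Hyp.of 0 0) (actH g (Hyp.of 0 0))) = (g.1 2 2 : ℝ) := by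
  have h1 : (Hyp.of 0 0).x = 0 := rfl
  have h2 : (Hyp.of 0 0).y = 0 := rfl
  have h3 : (Hyp.of 0 0).t = 1 := by
    rw [Hyp.t_eq, h1, h2]
    simp
  rw [Hyp.cosh_dist, Hyp.cc, actH_t hg, h1, h2, h3]
  ring

theorem actH_fin (p : Hyp) (R : ℝ) : {g : GL3 | g ∈ OJ ∧ dist p (actH g p) ≤ R}.Finite := by
  apply (OJ_fin (Real.cosh (2 * dist (Hyp.of 0 0) p + R))).subset
  rintro g ⟨hg, hd⟩
  refine ⟨hg, ?_⟩
  rw [← cosh_dist_h0 hg, Real.cosh_le_cosh]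
  have h1 : dist (Hyp.of 0 0) (actH g (Hyp.of 0 0)) ≤
      dist (Hyp.of 0 0) p + dist p (actH g p) + dist (actH g p) (actH g (Hyp.of 0 0)) :=
    dist_triangle4 _ _ _ _
  rw [dist_actH hg, dist_comm p (Hyp.of 0 0)] at h1
  have h2 : (0 : ℝ) ≤ dist (Hyp.of 0 0) (actH g (Hyp.of 0 0)) := dist_nonneg
  have h3 : (0 : ℝ) ≤ dist (Hyp.of 0 0) p := dist_nonneg
  have h4 : (0 : ℝ) ≤ dist p (actH g p) := dist_nonneg
  rw [abs_of_nonneg h2, abs_of_nonneg (by linarith)]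
  linarith

end Pool.CBD
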