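import Mathlib

/-!
# CBD module OFG: finite generation from a cocompact action on a connected space

PROOF.  S = {g | dist x0 (g • x0) ≤ 2 R + 1}, finite by hfin.  H = closure S.  The sets
A = ⋃_{g ∈ H} ball (g • x0) (R + 1/2), B = ⋃_{g ∉ H} ball (g • x0) (R + 1/2) are open and cover X.
They are disjoint: a common point gives dist (g • x0) (g' • x0) < 2R + 1 with g ∈ H, g' ∉ H, so
g⁻¹ g' ∈ S and g' ∈ H.  X is preconnected and x0 ∈ A (R ≥ 0: from hcov applied to any point), so
B is empty, so H = ⊤.
-/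

namespace Pool.CBD

open Real Set

theorem fg_of_action {G X : Type*} [Group G] [MetricSpace X] [MulAction G X]
    [PreconnectedSpace X] (hiso : ∀ (g : G) (x y : X), dist (g • x) (g • y) = dist x y)
    (x0 : X) (R : ℝ) (hcov : ∀ x : X, ∃ g : G, dist (g • x0) x ≤ R)
    (hfin : ∀ r : ℝ, {g : G | dist x0 (g • x0) ≤ r}.Finite) :
    ∃ S : Finset G, Subgroup.closure (S : Set G) = ⊤ := by
  have hR : 0 ≤ R := by
    obtain ⟨g, hg⟩ := hcov x0
    exact le_trans dist_nonneg hg
  set S : Finset G := (hfin (2 * R + 1)).toFinset with hS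
  refine ⟨S, ?_⟩
  set H : Subgroup G := Subgroup.closure (S : Set G) with hH
  have key : ∀ g h : G, h ∈ H → dist (h • x0) (g • x0) ≤ 2 * R + 1 → g ∈ H := by
    intro g h hh hd
    have h1 : h⁻¹ * g ∈ H := by
      apply Subgroup.subset_closure
      rw [hS, Set.Finite.coe_toFinset]
      change dist x0 ((h⁻¹ * g) • x0) ≤ 2 * R + 1
      have h2 := hiso h⁻¹ (h • x0) (g • x0)
      rw [inv_smul_smul, smul_smul] at h2
      rw [h2]
      exact hd
    have h3 := H.mul_mem hh h1
    rwa [mul_inv_cancel_left] at h3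
  set A : Set X := ⋃ g ∈ H, Metric.ball (g • x0) (R + 1 / 2) with hA
  have hAo : IsOpen A := isOpen_biUnion fun g _ => Metric.isOpen_ball
  have hAc : IsClosed A := by
    have hB : Aᶜ = ⋃ g ∈ {g : G | g ∉ H}, Metric.ball (g • x0) (R + 1 / 2) := by
      ext x
      rw [Set.mem_compl_iff, hA]
      simp only [Set.mem_iUnion, Metric.mem_ball, exists_prop, Set.mem_ofPred_eq]
      constructor
      · intro hx
        obtain ⟨g, hg⟩ := hcov x
        refine ⟨g, fun hgH => hx ⟨g, hgH, ?_⟩, ?_⟩
        · rw [dist_comm]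
          linarith
        · rw [dist_comm]
          linarith
      · rintro ⟨g, hgH, hg⟩ ⟨h, hhH, hh⟩
        refine hgH (key g h hhH ?_)
        have := dist_triangle_left (h • x0) (g • x0) x
        linarith
    rw [← isOpen_compl_iff, hB]
    exact isOpen_biUnion fun g _ => Metric.isOpen_ball
  have hAne : A.Nonempty := by
    refine ⟨x0, ?_⟩
    rw [hA]
    simp only [Set.mem_iUnion, Metric.mem_ball, exists_prop]
    refine ⟨1, H.one_mem, ?_⟩
    rw [one_smul, dist_self]
    linarith
  have hAu : A = Set.univ := by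
    rcases isClopen_iff.1 ⟨hAc, hAo⟩ with h | h
    · exact absurd h hAne.ne_empty
    · exact h
  rw [eq_top_iff]
  intro g _
  have hg : g • x0 ∈ A := by rw [hAu]; exact Set.mem_univ _
  rw [hA] at hg
  simp only [Set.mem_iUnion, Metric.mem_ball, exists_prop] at hg
  obtain ⟨h, hhH, hh⟩ := hg
  refine key g h hhH ?_
  rw [dist_comm]
  linarith

end Pool.CBD
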