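import Pool.Agent.CBD.BDS
import Pool.Agent.CBD.OFG

/-!
# CBD module BCC: the congruence subgroup acts cocompactly

PROOF.  Gam is the kernel of the homomorphism OJ → GL3(ZMod 12), a finite group, so Gam has finite index
in OJ: there is a finite set S ⊂ OJ such that every g in OJ is of the form s * k, s in S, k in Gam
(choose one preimage for every element of the image of the reduction map; if g and s have the same
reduction then s⁻¹ g is in cong).  For h take g = s k from `descent_t`: actH k h =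
actH s⁻¹ (actH g h), and dist h0 (actH s⁻¹ q) ≤ dist h0 (actH s⁻¹ h0) + dist h0 q, with
cosh (dist h0 q) = q.t ≤ 2 for q = actH g h.  So R = max over S of dist h0 (actH s⁻¹ h0) + arcosh 2.
-/

namespace Pool.CBD

open Real Set

theorem Gam_cocpt : ∃ R : ℝ, ∀ h : Hyp, ∃ k ∈ Gam, dist (Hyp.of 0 0) (actH k h) ≤ R := by
  classical
  set φ : GL3 →* (Matrix (Fin 3) (Fin 3) (ZMod 12))ˣ :=
    Units.map ((Int.castRingHom (ZMod 12)).mapMatrix :
      Matrix (Fin 3) (Fin 3) ℤ →+* Matrix (Fin 3) (Fin 3) (ZMod 12)).toMonoidHom with hφ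
  have hcong : cong = MonoidHom.ker φ := rfl
  have hchoose : ∀ m : (Matrix (Fin 3) (Fin 3) (ZMod 12))ˣ, ∃ s : GL3, s ∈ OJ ∧
      ((∃ g ∈ OJ, φ g = m) → φ s = m) := by
    intro m
    by_cases hm : ∃ g ∈ OJ, φ g = m
    · obtain ⟨g, hg, hgm⟩ := hm
      exact ⟨g, hg, fun _ => hgm⟩
    · exact ⟨1, OJ.one_mem, fun h => absurd h hm⟩
  choose s hs hsm using hchoose
  haveI : Finite (Matrix (Fin 3) (Fin 3) (ZMod 12)) := by
    unfold Matrix
    infer_instance
  haveI : Finite (Matrix (Fin 3) (Fin 3) (ZMod 12))ˣ :=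
    Finite.of_injective (fun u => (u : Matrix (Fin 3) (Fin 3) (ZMod 12))) Units.val_injective
  obtain ⟨B, hB⟩ := (Set.finite_range
    (fun m => dist (Hyp.of 0 0) (actH (s m)⁻¹ (Hyp.of 0 0)))).bddAbove
  refine ⟨B + Real.arcosh 2, fun h => ?_⟩
  obtain ⟨g, hg, hgt⟩ := descent_t h
  have hsg : φ (s (φ g)) = φ g := hsm _ ⟨g, hg, rfl⟩
  have hsi : (s (φ g))⁻¹ ∈ OJ := OJ.inv_mem (hs _)
  refine ⟨(s (φ g))⁻¹ * g, ?_, ?_⟩
  · refine Subgroup.mem_inf.mpr ⟨OJ.mul_mem hsi hg, ?_⟩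
    rw [hcong, MonoidHom.mem_ker, map_mul, map_inv, hsg, inv_mul_cancel]
  · rw [actH_mul hsi hg]
    have h1 : dist (Hyp.of 0 0) (actH (s (φ g))⁻¹ (Hyp.of 0 0)) ≤ B := hB ⟨φ g, rfl⟩
    have h2 : dist (actH (s (φ g))⁻¹ (Hyp.of 0 0)) (actH (s (φ g))⁻¹ (actH g h)) =
        dist (Hyp.of 0 0) (actH g h) := dist_actH hsi _ _
    have h3 : dist (Hyp.of 0 0) (actH g h) ≤ Real.arcosh 2 := by
      rw [Hyp.dist_def, Real.arcosh_le_arcosh (lt_of_lt_of_le one_pos (Hyp.one_le_cc _ _))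
        (by norm_num)]
      have : Hyp.cc (Hyp.of 0 0) (actH g h) = (actH g h).t := by
        unfold Hyp.cc Hyp.of
        simp
      rw [this]
      exact hgt
    have h4 := dist_triangle (Hyp.of 0 0) (actH (s (φ g))⁻¹ (Hyp.of 0 0))
      (actH (s (φ g))⁻¹ (actH g h))
    linarith

theorem Gam_fg : ∃ S : Finset Gam, Subgroup.closure (S : Set Gam) = ⊤ := by
  have hOJ : ∀ g : Gam, g.1 ∈ OJ := fun g => (Subgroup.mem_inf.mp g.2).1
  letI act : MulAction Gam Hyp :=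
    { smul := fun g p => actH g.1 p
      one_smul := fun p => actH_one p
      mul_smul := fun g h p => actH_mul (hOJ g) (hOJ h) p }
  have hsmul : ∀ (g : Gam) (p : Hyp), g • p = actH g.1 p := fun _ _ => rfl
  haveI : PreconnectedSpace Hyp := by
    constructor
    have h1 : (Set.univ : Set Hyp) = (fun u : ℝ × ℝ => Hyp.of u.1 u.2) '' Set.univ := by
      symm
      rw [Set.eq_univ_iff_forall]
      intro p
      exact ⟨(p.x, p.y), trivial, Hyp.ext' rfl rfl⟩
    rw [h1]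
    exact isPreconnected_univ.image _ Hyp.continuous_of.continuousOn
  obtain ⟨R, hR⟩ := Gam_cocpt
  refine fg_of_action (X := Hyp) (fun g x y => ?_) (Hyp.of 0 0) R (fun x => ?_) (fun r => ?_)
  · rw [hsmul, hsmul]
    exact dist_actH (hOJ g) x y
  · obtain ⟨k, hk, hkR⟩ := hR x
    refine ⟨⟨k, hk⟩⁻¹, ?_⟩
    have h1 : dist ((⟨k, hk⟩ : Gam)⁻¹ • Hyp.of 0 0) x =
        dist (Hyp.of 0 0) ((⟨k, hk⟩ : Gam) • x) := by
      have := dist_actH (hOJ (⟨k, hk⟩ : Gam)) ((⟨k, hk⟩ : Gam)⁻¹ • Hyp.of 0 0) x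
      rw [← hsmul, ← hsmul, smul_inv_smul] at this
      exact this.symm
    rw [h1, hsmul]
    exact hkR
  · have h1 := actH_fin (Hyp.of 0 0) r
    have h2 := h1.preimage (f := (Subtype.val : Gam → GL3)) Subtype.val_injective.injOn
    refine h2.subset ?_
    intro g hg
    exact ⟨hOJ g, hg⟩

end Pool.CBD
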