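import Pool.Agent.CBD.BRF
import Pool.Agent.CBD.BAC

/-!
# CBD module BDS: descent to a compact region

Let J0 p = 2√3 t - x - y (minus the form with (1,1,2)).
PROOF of `exists_minJ`.  For g in OJ, J0 (actH g h) = - bj((1,1,2), g (x,y,z)) = -bj(v, (x,y,z)) with
v = g⁻¹ (1,1,2), an integral vector with bj v v = -10, v2 > 0, so v0^2 + v1^2 < 3 v2^2 and
J0 (actH g h) = √3 v2 t - v0 x - v1 y ≥ √3 v2 (t - √(x^2+y^2)); so for given M only finitely many v
have value ≤ M, hence the set of values ≤ M is finite and the infimum over g is attained.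
PROOF of `descent`: at a minimum h' = actH g h, for each reflection r of BRF with root rho and
c = 2 b(h', rho)/b(rho, rho): J0 (r h') = J0 h' + c b(x0, rho), x0 = (1,1,2), b(x0, rho) = 1, 1, 3, 3 > 0,
so c ≥ 0: x ≥ 0, y ≥ 0, -3x + 3z ≥ 0, -x - 2y + 3z ≥ 0 with z = t/√3.  (actH r h' has coordinates given
by the same formulas as mulVec, with z in place of v 2.)
`descent_t`: with 0 ≤ x ≤ z, 0 ≤ y, 2y ≤ 3z - x: x^2 + y^2 ≤ x^2 + (3z-x)^2/4 ≤ (9/4) z^2 (convex in x,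
values 9/4 at x = 0 and 2 at x = z), and x^2 + y^2 = 3z^2 - 1, so z^2 ≤ 4/3, t^2 = 3 z^2 ≤ 4.
-/

namespace Pool.CBD

open Real Set

noncomputable def J0 (p : Hyp) : ℝ := 2 * √3 * p.t - p.x - p.y

namespace BDSaux

theorem s3 : √3 * √3 = (3 : ℝ) := Real.mul_self_sqrt (by norm_num)

theorem s3pos : (0 : ℝ) < √3 := Real.sqrt_pos.mpr (by norm_num)

theorem div_s3 (t : ℝ) : t / √3 = √3 * t / 3 := by
  rw [div_eq_div_iff s3pos.ne' (by norm_num)]
  linear_combination (-t) * s3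

def av (g : GL3) (j : Fin 3) : ℤ := 6 * g.1 2 j - g.1 0 j - g.1 1 j

theorem actH_x (g : GL3) (p : Hyp) : (actH g p).x =
    (g.1 0 0 : ℝ) * p.x + (g.1 0 1 : ℝ) * p.y + (g.1 0 2 : ℝ) * (p.t / √3) := rfl

theorem actH_y (g : GL3) (p : Hyp) : (actH g p).y =
    (g.1 1 0 : ℝ) * p.x + (g.1 1 1 : ℝ) * p.y + (g.1 1 2 : ℝ) * (p.t / √3) := rfl

theorem J0_act {g : GL3} (hg : g ∈ OJ) (h : Hyp) :
    J0 (actH g h) = (av g 0 : ℝ) * h.x + (av g 1 : ℝ) * h.y + (av g 2 : ℝ) * (√3 * h.t / 3) := by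
  unfold J0
  rw [actH_t hg, actH_x, actH_y, div_s3]
  unfold av
  push_cast
  linear_combination (2 * ((g.1 2 0 : ℝ) * h.x + (g.1 2 1 : ℝ) * h.y)) * s3

theorem av_norm {g : GL3} (hg : g ∈ OJ) :
    av g 2 ^ 2 = 3 * av g 0 ^ 2 + 3 * av g 1 ^ 2 + 30 := by
  have h00 := row hg 0 0
  have h11 := row hg 1 1
  have h22 := row hg 2 2
  have h01 := row hg 0 1
  have h02 := row hg 0 2
  have h12 := row hg 1 2
  simp only [if_true, if_neg (by decide : ¬ (0 : Fin 3) = 2), if_neg (by decide : ¬ (1 : Fin 3) = 2),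
    if_neg (by decide : ¬ (0 : Fin 3) = 1)] at h00 h11 h22 h01 h02 h12
  unfold av
  linear_combination (-1) * h00 - h11 - 36 * h22 - 2 * h01 + 12 * h02 + 12 * h12

theorem av_pos {g : GL3} (hg : g ∈ OJ) : 0 < av g 2 := by
  have h1 := (abs_le.mp (entry_le hg 0 2)).2
  have h2 := (abs_le.mp (entry_le hg 1 2)).2
  have h3 := g22_pos hg
  unfold av
  linarith

theorem av_bound {g : GL3} (hg : g ∈ OJ) (h : Hyp) :
    (av g 2 : ℝ) ≤ 2 * √3 * h.t * J0 (actH g h) := by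
  rw [J0_act hg h]
  have hn : (av g 2 : ℝ) ^ 2 = 3 * (av g 0 : ℝ) ^ 2 + 3 * (av g 1 : ℝ) ^ 2 + 30 := by
    exact_mod_cast av_norm hg
  have hp : (0 : ℝ) < (av g 2 : ℝ) := by exact_mod_cast av_pos hg
  set a := (av g 0 : ℝ)
  set b := (av g 1 : ℝ)
  set c := (av g 2 : ℝ)
  have ht := h.h
  have htp := h.pos
  -- √3 (a x + b y) ≥ - c √(x^2+y^2)
  have hs := s3
  have hsp := s3pos
  -- let L = √3 (a x + b y); L^2 ≤ 3 (a^2+b^2)(x^2+y^2) ≤ c^2 (t^2 - 1)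
  have hL : (√3 * (a * h.x + b * h.y)) ^ 2 ≤ c ^ 2 * (h.t ^ 2 - 1) := by
    have e : (√3 * (a * h.x + b * h.y)) ^ 2 = 3 * (a * h.x + b * h.y) ^ 2 := by
      rw [mul_pow, sq (√3), hs]
    rw [e, ht, hn]
    nlinarith [sq_nonneg (a * h.y - b * h.x), sq_nonneg h.x, sq_nonneg h.y]
  -- c t + L > 0 and (c t + L)(c t - L) ≥ c^2
  set L := √3 * (a * h.x + b * h.y) with hLdef
  have h1 : c ^ 2 ≤ (c * h.t + L) * (c * h.t - L) := by nlinarith
  have hc2 : 0 < c ^ 2 := by positivity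
  have habs : |L| ≤ c * h.t := by
    apply abs_le_of_sq_le_sq _ (by positivity)
    nlinarith
  have h2 := (abs_le.mp habs).1
  have h3 := (abs_le.mp habs).2
  have h4 : 0 < c * h.t := by positivity
  have h5 : c ^ 2 ≤ (c * h.t + L) * (2 * (c * h.t)) := by
    refine le_trans h1 ?_
    apply mul_le_mul_of_nonneg_left _ (by linarith)
    linarith
  have h6 : c ≤ (c * h.t + L) * (2 * h.t) := by
    have : c * c ≤ c * ((c * h.t + L) * (2 * h.t)) := by nlinarith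
    exact le_of_mul_le_mul_left this hp
  calc c ≤ (c * h.t + L) * (2 * h.t) := h6
    _ = 2 * √3 * h.t * (a * h.x + b * h.y + c * (√3 * h.t / 3)) := by
      rw [hLdef]
      linear_combination (-(2 * h.t * h.t * c / 3)) * hs

theorem ent {g : GL3} {f : (Fin 3 → ℤ) → (Fin 3 → ℤ)} (hf : ∀ v, g.1.mulVec v = f v) (i j : Fin 3) :
    g.1 i j = f (Pi.single j 1) i := by
  rw [← hf, Matrix.mulVec_single_one]
  rfl

end BDSaux

open BDSaux

theorem exists_minJ (h : Hyp) : ∃ g ∈ OJ, ∀ g' ∈ OJ, J0 (actH g h) ≤ J0 (actH g' h) := by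
  set f : (ℤ × ℤ × ℤ) → ℝ := fun a => (a.1 : ℝ) * h.x + (a.2.1 : ℝ) * h.y + (a.2.2 : ℝ) * (√3 * h.t / 3)
    with hf
  set S : Set (ℤ × ℤ × ℤ) := {a | ∃ g ∈ OJ, a = (av g 0, av g 1, av g 2) ∧
    J0 (actH g h) ≤ J0 (actH 1 h)} with hS
  obtain ⟨N, hN⟩ := exists_int_gt (2 * √3 * h.t * J0 (actH 1 h))
  have hfin : S.Finite := by
    apply Set.Finite.subset (Set.finite_Icc ((-N, -N, -N) : ℤ × ℤ × ℤ) (N, N, N))
    rintro a ⟨g, hg, rfl, hJ⟩
    have h1 := av_bound hg h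
    have h2 : (av g 2 : ℝ) < (N : ℝ) := by
      refine lt_of_le_of_lt (le_trans h1 ?_) hN
      apply mul_le_mul_of_nonneg_left hJ
      have := h.pos
      have := s3pos
      positivity
    have h3 : av g 2 < N := by exact_mod_cast h2
    have h4 := av_pos hg
    have h5 := av_norm hg
    have h6 : |av g 0| ≤ N := by
      apply abs_le_of_sq_le_sq _ (by linarith)
      nlinarith [sq_nonneg (av g 1), sq_nonneg (av g 0)]
    have h7 : |av g 1| ≤ N := by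
      apply abs_le_of_sq_le_sq _ (by linarith)
      nlinarith [sq_nonneg (av g 1), sq_nonneg (av g 0)]
    have h8 := abs_le.mp h6
    have h9 := abs_le.mp h7
    refine ⟨⟨h8.1, h9.1, by linarith⟩, ⟨h8.2, h9.2, by linarith⟩⟩
  have hne : S.Nonempty := ⟨_, 1, OJ.one_mem, rfl, le_refl _⟩
  obtain ⟨a, ⟨g, hg, rfl, hJ⟩, hmin⟩ := Set.exists_min_image S f hfin hne
  refine ⟨g, hg, fun g' hg' => ?_⟩
  by_cases hc : J0 (actH g' h) ≤ J0 (actH 1 h)
  · have := hmin _ ⟨g', hg', rfl, hc⟩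
    rw [J0_act hg h, J0_act hg' h]
    exact this
  · push Not at hc
    exact hJ.trans hc.le

theorem descent (h : Hyp) : ∃ g ∈ OJ, 0 ≤ (actH g h).x ∧ 0 ≤ (actH g h).y ∧
    (actH g h).x ≤ (actH g h).t / √3 ∧ (actH g h).x + 2 * (actH g h).y ≤ √3 * (actH g h).t := by
  obtain ⟨g, hg, hmin⟩ := exists_minJ h
  refine ⟨g, hg, ?_⟩
  have key : ∀ r ∈ OJ, J0 (actH g h) ≤ J0 (actH r (actH g h)) := by
    intro r hr
    rw [← actH_mul hr hg]
    exact hmin _ (OJ.mul_mem hr hg)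
  set p := actH g h with hp
  have hs := s3
  have hsp := s3pos
  obtain ⟨r1, hr1, f1⟩ := refl1
  obtain ⟨r2, hr2, f2⟩ := refl2
  obtain ⟨r3, hr3, f3⟩ := refl3
  obtain ⟨r4, hr4, f4⟩ := refl4
  have k1 := key r1 hr1
  have k2 := key r2 hr2
  have k3 := key r3 hr3
  have k4 := key r4 hr4
  rw [J0_act hr1] at k1
  rw [J0_act hr2] at k2
  rw [J0_act hr3] at k3
  rw [J0_act hr4] at k4
  simp [av, ent f1, J0] at k1
  simp [av, ent f2, J0] at k2
  simp [av, ent f3, J0] at k3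
  simp [av, ent f4, J0] at k4
  refine ⟨?_, ?_, ?_, ?_⟩
  · nlinarith
  · nlinarith
  · rw [div_s3]
    nlinarith
  · nlinarith

theorem descent_t (h : Hyp) : ∃ g ∈ OJ, (actH g h).t ≤ 2 := by
  obtain ⟨g, hg, h1, h2, h3, h4⟩ := descent h
  refine ⟨g, hg, ?_⟩
  set p := actH g h
  have hs := s3
  have hsp := s3pos
  have ht := p.h
  have htp := p.pos
  rw [div_s3] at h3
  have h5 : 0 ≤ √3 * p.t - p.x - 2 * p.y := by linarith
  have h6 : (2 * p.y) ^ 2 ≤ (√3 * p.t - p.x) ^ 2 := by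
    apply pow_le_pow_left₀ (by linarith)
    linarith
  have h7 : p.x * (5 * p.x - 2 * (√3 * p.t)) ≤ 0 := by
    apply mul_nonpos_of_nonneg_of_nonpos h1
    nlinarith
  have h8 : p.t ^ 2 ≤ 4 := by nlinarith
  nlinarith

end Pool.CBD
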