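import Pool.Agent.CBD.Lat

/-!
# CBD module BLT: identities for the integral isometries

PROOFS.  With J = diag(1,1,-3): the first condition in OJ for basis vectors says gᵀ J g = J
(`col`).  Hence g⁻¹ = J⁻¹ gᵀ J and g (J⁻¹ gᵀ J) = 1, i.e. g J⁻¹ gᵀ = J⁻¹: multiplied by 3:
`row`.  (`row` for i = j = 2: 3 g20^2 + 3 g21^2 - g22^2 = -1.)
`g22_pos`: g.mulVec ve2 has third coordinate g22 (bj ve2 ve2 = -3 < 0).
`entry_le`: from row (2,2) |g20|, |g21| ≤ g22; from col (j,j): g0j^2 + g1j^2 = 3 g2j^2 + bj(ej,ej) ≤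
3 g22^2 + 1 ≤ 4 g22^2, so |gij| ≤ 2 g22.
`OJ_fin`: finitely many integral matrices with bounded entries.
-/

namespace Pool.CBD

open Real Set

theorem col {g : GL3} (hg : g ∈ OJ) (i j : Fin 3) :
    g.1 0 i * g.1 0 j + g.1 1 i * g.1 1 j - 3 * (g.1 2 i * g.1 2 j) =
      (if i = j then (if i = 2 then -3 else 1) else 0) := by
  have h := hg.1 (Pi.single i 1) (Pi.single j 1)
  unfold bj at h
  have h1 : ∀ k l : Fin 3, g.1.mulVec (Pi.single l 1) k = g.1 k l := by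
    intro k l
    simp [Matrix.mulVec_single]
  rw [h1, h1, h1, h1, h1, h1] at h
  rw [h]
  fin_cases i <;> fin_cases j <;> simp

theorem row {g : GL3} (hg : g ∈ OJ) (i j : Fin 3) :
    3 * (g.1 i 0 * g.1 j 0) + 3 * (g.1 i 1 * g.1 j 1) - g.1 i 2 * g.1 j 2 =
      (if i = j then (if i = 2 then -1 else 3) else 0) := by
  set M : Matrix (Fin 3) (Fin 3) ℤ := g.1 with hM
  set N : Matrix (Fin 3) (Fin 3) ℤ := (g⁻¹ : GL3).1 with hN
  have h1 : M * N = 1 := by
    rw [hM, hN]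
    exact g.mul_inv
  let J : Matrix (Fin 3) (Fin 3) ℤ := Matrix.diagonal ![1, 1, -3]
  let J' : Matrix (Fin 3) (Fin 3) ℤ := Matrix.diagonal ![3, 3, -1]
  have hJJ : J' * J = (3 : ℤ) • (1 : Matrix (Fin 3) (Fin 3) ℤ) := by
    ext a b
    fin_cases a <;> fin_cases b <;> simp [J, J', Matrix.one_apply]
  have hJJ' : J * J' = (3 : ℤ) • (1 : Matrix (Fin 3) (Fin 3) ℤ) := by
    ext a b
    fin_cases a <;> fin_cases b <;> simp [J, J', Matrix.one_apply]
  have h2 : M.transpose * J * M = J := by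
    ext a b
    have h := col hg a b
    rw [← hM] at h
    rw [Matrix.mul_apply, Fin.sum_univ_three]
    simp only [J, Matrix.mul_diagonal, Matrix.transpose_apply]
    have h3 : (Matrix.diagonal ![(1 : ℤ), 1, -3] : Matrix (Fin 3) (Fin 3) ℤ) a b =
        (if a = b then (if a = 2 then -3 else 1) else 0) := by
      fin_cases a <;> fin_cases b <;> simp
    rw [h3, ← h]
    simp
    ring
  have h4 : M.transpose * J = J * N := by
    calc M.transpose * J = M.transpose * J * (M * N) := by rw [h1, mul_one]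
      _ = M.transpose * J * M * N := by rw [mul_assoc, mul_assoc, mul_assoc]
      _ = J * N := by rw [h2]
  have h5 : (3 : ℤ) • (M * J' * M.transpose) = (3 : ℤ) • J' := by
    calc (3 : ℤ) • (M * J' * M.transpose) = M * J' * M.transpose * (J * J') := by
          rw [hJJ', mul_smul_comm, mul_one]
      _ = M * J' * (M.transpose * J) * J' := by simp only [mul_assoc]
      _ = M * (J' * J) * N * J' := by rw [h4]; simp only [mul_assoc]
      _ = (3 : ℤ) • (M * N * J') := by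
          rw [hJJ, mul_smul_comm, mul_one, smul_mul_assoc, smul_mul_assoc]
      _ = (3 : ℤ) • J' := by rw [h1, one_mul]
  have h6 := congrFun (congrFun h5 i) j
  rw [Matrix.smul_apply, Matrix.smul_apply, smul_eq_mul, smul_eq_mul] at h6
  have h7 : (M * J' * M.transpose) i j = J' i j := by linarith
  rw [Matrix.mul_apply, Fin.sum_univ_three] at h7
  simp only [J', Matrix.mul_diagonal, Matrix.transpose_apply] at h7
  have h8 : (Matrix.diagonal ![(3 : ℤ), 3, -1] : Matrix (Fin 3) (Fin 3) ℤ) i j =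
      (if i = j then (if i = 2 then -1 else 3) else 0) := by
    fin_cases i <;> fin_cases j <;> simp
  rw [h8] at h7
  rw [← h7]
  simp
  ring

theorem g22_pos {g : GL3} (hg : g ∈ OJ) : 0 < g.1 2 2 := by
  have h := hg.2 ve2 (by simp [bj, ve2]) (by simp [ve2])
  have h1 : g.1.mulVec ve2 2 = g.1 2 2 := by
    rw [Matrix.mulVec, dotProduct, Fin.sum_univ_three]
    simp [ve2]
  rwa [h1] at h

private theorem blt_two {g : GL3} (hg : g ∈ OJ) (j : Fin 3) : (g.1 2 j) ^ 2 ≤ (g.1 2 2) ^ 2 := by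
  have h := row hg 2 2
  rw [if_pos rfl, if_pos rfl] at h
  fin_cases j
  · show (g.1 2 0) ^ 2 ≤ (g.1 2 2) ^ 2
    nlinarith [sq_nonneg (g.1 2 0), sq_nonneg (g.1 2 1)]
  · show (g.1 2 1) ^ 2 ≤ (g.1 2 2) ^ 2
    nlinarith [sq_nonneg (g.1 2 0), sq_nonneg (g.1 2 1)]
  · exact le_rfl

theorem entry_le {g : GL3} (hg : g ∈ OJ) (i j : Fin 3) : |g.1 i j| ≤ 2 * g.1 2 2 := by
  have hp := g22_pos hg
  have h2 := blt_two hg j
  have hc := col hg j j
  rw [if_pos rfl] at hc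
  have hc' : (g.1 0 j) ^ 2 + (g.1 1 j) ^ 2 ≤ 3 * (g.1 2 j) ^ 2 + 1 := by
    have : (if j = 2 then (-3 : ℤ) else 1) ≤ 1 := by
      split_ifs <;> norm_num
    nlinarith
  apply abs_le_of_sq_le_sq _ (by linarith)
  have h3 : (1 : ℤ) ≤ (g.1 2 2) ^ 2 := by nlinarith
  fin_cases i
  · show (g.1 0 j) ^ 2 ≤ _
    nlinarith [sq_nonneg (g.1 0 j), sq_nonneg (g.1 1 j)]
  · show (g.1 1 j) ^ 2 ≤ _
    nlinarith [sq_nonneg (g.1 0 j), sq_nonneg (g.1 1 j)]
  · show (g.1 2 j) ^ 2 ≤ _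
    nlinarith

theorem OJ_fin (R : ℝ) : {g : GL3 | g ∈ OJ ∧ ((g.1 2 2 : ℤ) : ℝ) ≤ R}.Finite := by
  let N : ℤ := 2 * ⌊R⌋
  have hfin : (Set.Icc (fun _ _ => -N) (fun _ _ => N) : Set (Fin 3 → Fin 3 → ℤ)).Finite :=
    Set.finite_Icc _ _
  apply Set.Finite.subset (hfin.preimage (f := fun g : GL3 => (fun i j => g.1 i j)) ?_)
  · rintro g ⟨hg, hR⟩
    have h1 : g.1 2 2 ≤ ⌊R⌋ := Int.le_floor.2 hR
    have h2 : ∀ i j, |g.1 i j| ≤ N := fun i j => (entry_le hg i j).trans (by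
      show 2 * g.1 2 2 ≤ 2 * ⌊R⌋
      linarith)
    refine ⟨fun i j => (abs_le.1 (h2 i j)).1, fun i j => (abs_le.1 (h2 i j)).2⟩
  · intro g _ h _ e
    apply Units.ext
    ext i j
    exact congrFun (congrFun e i) j

end Pool.CBD
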