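import Pool.Agent.CBD.BLT

/-!
# CBD module BNN: the walls of a block are pairwise far

PROOFS.  `Gam_mod`: kernel of reduction: every entry of mat g - 1 is divisible by 12.
`NN_mod`: u = g ve1 is congruent to ve1 modulo 12.  `U1_mod` similarly.
`no_iso`: x^2 + y^2 = 3 z^2 over ℤ forces x = y = z = 0 (mod 3: x and y are divisible by 3, then z;
infinite descent on |x| + |y| + |z|).
`NN_far`: bj u u' ≡ bj ve1 ve1 = 1 mod 12; if |bj u u'| < 3 then bj u u' = 1, so n = u - u' has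
bj n n = 1 - 2 + 1 = 0, n0^2 + n1^2 = 3 n2^2, n = 0.
`NN_one`: u = u'... for u in NN different from na0: |u 1| = |bj u ve1| ≥ 3.
-/

namespace Pool.CBD

open Real Set

theorem Gam_mod (g : Gam) (i j : Fin 3) : (12 : ℤ) ∣ mat g i j - (1 : Matrix (Fin 3) (Fin 3) ℤ) i j := by
  have h1 : g.1 ∈ cong := g.2.2
  unfold cong at h1
  rw [MonoidHom.mem_ker] at h1
  have h2 := congrArg (fun M : (Matrix (Fin 3) (Fin 3) (ZMod 12))ˣ => M.1 i j) h1
  have h3 : ((mat g i j : ℤ) : ZMod 12) = (1 : Matrix (Fin 3) (Fin 3) (ZMod 12)) i j := by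
    simpa [mat] using h2
  have h4 : (((1 : Matrix (Fin 3) (Fin 3) ℤ) i j : ℤ) : ZMod 12) =
      (1 : Matrix (Fin 3) (Fin 3) (ZMod 12)) i j := by
    by_cases hij : i = j
    · subst hij; simp
    · simp [hij]
  have h5 : ((mat g i j - (1 : Matrix (Fin 3) (Fin 3) ℤ) i j : ℤ) : ZMod 12) = 0 := by
    rw [Int.cast_sub, h3, h4, sub_self]
  exact (ZMod.intCast_zmod_eq_zero_iff_dvd _ 12).mp h5

private theorem bnn_mulVec (g : Gam) (v : Fin 3 → ℤ) (i : Fin 3) :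
    (12 : ℤ) ∣ (mat g).mulVec v i - v i := by
  have e : (mat g).mulVec v i - v i = (mat g - 1).mulVec v i := by
    rw [Matrix.sub_mulVec, Matrix.one_mulVec]
    rfl
  rw [e]
  unfold Matrix.mulVec dotProduct
  refine Finset.dvd_sum fun j _ => Dvd.dvd.mul_right ?_ _
  exact Gam_mod g i j

theorem NN_mod (u : NN) : (12 : ℤ) ∣ u.1 0 ∧ (12 : ℤ) ∣ u.1 1 - 1 ∧ (12 : ℤ) ∣ u.1 2 := by
  obtain ⟨g, hg⟩ := u.2
  rw [← hg]
  have h0 := bnn_mulVec g ve1 0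
  have h1 := bnn_mulVec g ve1 1
  have h2 := bnn_mulVec g ve1 2
  have e0 : ve1 0 = 0 := rfl
  have e1 : ve1 1 = 1 := rfl
  have e2 : ve1 2 = 0 := rfl
  rw [e0, sub_zero] at h0
  rw [e1] at h1
  rw [e2, sub_zero] at h2
  exact ⟨h0, h1, h2⟩

theorem NN_norm (u : NN) : bj u.1 u.1 = 1 := by
  obtain ⟨g, hg⟩ := u.2
  rw [← hg]
  have := g.2.1.1 ve1 ve1
  unfold mat
  rw [this]
  rfl

theorem U1_mod {u : Fin 3 → ℤ} (hu : u ∈ U1) :
    (12 : ℤ) ∣ u 0 - 3 ∧ (12 : ℤ) ∣ u 1 ∧ (12 : ℤ) ∣ u 2 - 1 := by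
  obtain ⟨g, hg⟩ := hu
  rw [← hg]
  have h0 := bnn_mulVec g vf 0
  have h1 := bnn_mulVec g vf 1
  have h2 := bnn_mulVec g vf 2
  have e0 : vf 0 = 3 := rfl
  have e1 : vf 1 = 0 := rfl
  have e2 : vf 2 = 1 := rfl
  rw [e0] at h0
  rw [e1, sub_zero] at h1
  rw [e2] at h2
  exact ⟨h0, h1, h2⟩

theorem U1_norm {u : Fin 3 → ℤ} (hu : u ∈ U1) : bj u u = 6 := by
  obtain ⟨g, hg⟩ := hu
  rw [← hg]
  have := g.2.1.1 vf vf
  unfold mat
  rw [this]
  rfl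

private theorem bnn_three {x y : ℤ} (h : (3 : ℤ) ∣ x ^ 2 + y ^ 2) : (3 : ℤ) ∣ x ∧ (3 : ℤ) ∣ y := by
  have key : ∀ a b : ZMod 3, a ^ 2 + b ^ 2 = 0 → a = 0 ∧ b = 0 := by decide
  have h1 : ((x ^ 2 + y ^ 2 : ℤ) : ZMod 3) = 0 := (ZMod.intCast_zmod_eq_zero_iff_dvd _ 3).mpr h
  push_cast at h1
  obtain ⟨h2, h3⟩ := key _ _ h1
  exact ⟨(ZMod.intCast_zmod_eq_zero_iff_dvd _ 3).mp h2, (ZMod.intCast_zmod_eq_zero_iff_dvd _ 3).mp h3⟩

theorem no_iso {x y z : ℤ} (h : x ^ 2 + y ^ 2 = 3 * z ^ 2) : x = 0 ∧ y = 0 ∧ z = 0 := by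
  have key : ∀ n : ℕ, ∀ x y z : ℤ, z.natAbs ≤ n → x ^ 2 + y ^ 2 = 3 * z ^ 2 → z = 0 := by
    intro n
    induction n using Nat.strong_induction_on with
    | _ n ih =>
      intro x y z hz h
      by_contra hne
      obtain ⟨⟨a, ha⟩, ⟨b, hb⟩⟩ := bnn_three (x := x) (y := y) ⟨z ^ 2, h⟩
      have h2 : z ^ 2 = 3 * (a ^ 2 + b ^ 2) := by
        rw [ha, hb] at h
        nlinarith
      have h3 : (3 : ℤ) ∣ z := by
        have : (3 : ℤ) ∣ z ^ 2 := ⟨_, h2⟩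
        exact Int.Prime.dvd_pow' (by norm_num) this
      obtain ⟨c, hc⟩ := h3
      have h4 : a ^ 2 + b ^ 2 = 3 * c ^ 2 := by
        rw [hc] at h2
        nlinarith
      have hc0 : c ≠ 0 := by
        rintro rfl
        exact hne (by rw [hc, mul_zero])
      have hlt : c.natAbs < n := by
        rw [hc, Int.natAbs_mul] at hz
        have : 0 < c.natAbs := Int.natAbs_pos.mpr hc0
        have h33 : (3 : ℤ).natAbs = 3 := rfl
        rw [h33] at hz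
        omega
      exact hc0 (ih _ hlt a b c le_rfl h4)
  have hz := key _ x y z le_rfl h
  subst hz
  have hx : x ^ 2 = 0 := by nlinarith [sq_nonneg x, sq_nonneg y]
  have hy : y ^ 2 = 0 := by nlinarith [sq_nonneg x, sq_nonneg y]
  exact ⟨pow_eq_zero_iff (two_ne_zero) |>.mp hx, pow_eq_zero_iff (two_ne_zero) |>.mp hy, rfl⟩

theorem NN_far {u u' : NN} (h : u ≠ u') : 3 ≤ |bj u.1 u'.1| := by
  by_contra hlt
  push Not at hlt
  obtain ⟨⟨a, ha⟩, ⟨b, hb⟩, ⟨c, hc⟩⟩ := NN_mod u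
  obtain ⟨⟨a', ha'⟩, ⟨b', hb'⟩, ⟨c', hc'⟩⟩ := NN_mod u'
  have hu := NN_norm u
  have hu' := NN_norm u'
  have hb1 : u.1 1 = 12 * b + 1 := by linarith
  have hb1' : u'.1 1 = 12 * b' + 1 := by linarith
  have e : bj u.1 u'.1 = 12 * (12 * a * a' + 12 * b * b' + b + b' - 36 * c * c') + 1 := by
    unfold bj
    rw [ha, hb1, hc, ha', hb1', hc']
    ring
  have habs := abs_lt.mp hlt
  have h1 : bj u.1 u'.1 = 1 := by
    rw [e] at habs ⊢
    generalize (12 * a * a' + 12 * b * b' + b + b' - 36 * c * c') = w at habs ⊢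
    omega
  have h0 : (u.1 0 - u'.1 0) ^ 2 + (u.1 1 - u'.1 1) ^ 2 = 3 * (u.1 2 - u'.1 2) ^ 2 := by
    unfold bj at h1 hu hu'
    nlinarith
  obtain ⟨z0, z1, z2⟩ := no_iso h0
  apply h
  apply Subtype.ext
  funext i
  fin_cases i
  · simpa [sub_eq_zero] using z0
  · simpa [sub_eq_zero] using z1
  · simpa [sub_eq_zero] using z2

theorem NN_far_base {u : NN} (h : u ≠ na0) : 3 ≤ |u.1 1| := by
  have := NN_far h
  have e : bj u.1 na0.1 = u.1 1 := by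
    have e0 : na0.1 0 = 0 := rfl
    have e1 : na0.1 1 = 1 := rfl
    have e2 : na0.1 2 = 0 := rfl
    unfold bj
    rw [e0, e1, e2]
    ring
  rwa [e] at this

end Pool.CBD
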