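import Mathlib

/-!
# CBD module BPE: the Pell type equation 3 a^2 - c^2 = 2

Claim: if 3a^2 - c^2 = 2 with a ≡ 1 mod 4 and c ≡ 1 mod 12 then a > 0.
PROOF.  First, for A > 0, C ≥ 1... all solutions with A > 0 and C > 0 are obtained from (1, 1) by the map
(A, C) ↦ (2A + C, 3A + 2C) (descent: for a solution with A > 1 the pair (2A - C, 2C - 3A) is a smaller
positive solution: C < √3 A < 2A, and 2C > 3A iff 4(3A^2 - 2) > 9A^2 iff 3A^2 > 8 iff A ≥ 2).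
Let s(C) = the residue: every such (A, C) satisfies: C odd, C not divisible by 3, and A*C ≡ 1 mod 4 if
C ≡ 1 mod 3, and A*C ≡ 3 mod 4 if C ≡ 2 mod 3; moreover A is odd.  Check by induction: modulo 12 the
orbit of (1,1) under (A, C) ↦ (2A + C, 3A + 2C) is (1,1), (3,5), (11,7), (5,11)... the finite check:
(1,1) → (3,5) → (11,19) = (11,7) → (41,71) = (5,11) → (153,265) = (9,1) → ... (decide modulo 12:
prove by induction that the pair modulo 12 lies in an explicit finite list closed under the map, all of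
whose members have the property: C odd, 3 ∤ C, and A*C ≡ 1 mod 4 ↔ C ≡ 1 mod 3).
Now let (a, c) be as in the claim and suppose a < 0; A = -a > 0, C = |c|.  If c > 0: C = c ≡ 1 mod 3, so
A C ≡ 1 mod 4, with C ≡ 1 mod 4 gives A ≡ 1, a ≡ -1 mod 4, contradiction.  If c < 0: C = -c ≡ 2 mod 3,
C ≡ 3 mod 4, A C ≡ 3 mod 4 so A ≡ 1 mod 4, a ≡ -1 mod 4, contradiction.
-/

namespace Pool.CBD

open Real Set

private def PellP (A C : ℤ) : Prop :=
    (A % 12 = 1 ∧ C % 12 = 1) ∨ (A % 12 = 3 ∧ C % 12 = 5) ∨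
    (A % 12 = 11 ∧ C % 12 = 7) ∨ (A % 12 = 5 ∧ C % 12 = 11) ∨ (A % 12 = 9 ∧ C % 12 = 1) ∨
    (A % 12 = 7 ∧ C % 12 = 5) ∨ (A % 12 = 7 ∧ C % 12 = 7) ∨ (A % 12 = 9 ∧ C % 12 = 11) ∨
    (A % 12 = 5 ∧ C % 12 = 1) ∨ (A % 12 = 11 ∧ C % 12 = 5) ∨ (A % 12 = 3 ∧ C % 12 = 7) ∨ (A % 12 = 1 ∧ C % 12 = 11)

private theorem pell_sel0 {A C : ℤ} (h1 : A % 12 = 1) (h2 : C % 12 = 1) : PellP A C :=
  Or.inl ⟨h1, h2⟩

private theorem pell_sel1 {A C : ℤ} (h1 : A % 12 = 3) (h2 : C % 12 = 5) : PellP A C :=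
  Or.inr (Or.inl ⟨h1, h2⟩)

private theorem pell_sel2 {A C : ℤ} (h1 : A % 12 = 11) (h2 : C % 12 = 7) : PellP A C :=
  Or.inr (Or.inr (Or.inl ⟨h1, h2⟩))

private theorem pell_sel3 {A C : ℤ} (h1 : A % 12 = 5) (h2 : C % 12 = 11) : PellP A C :=
  Or.inr (Or.inr (Or.inr (Or.inl ⟨h1, h2⟩)))

private theorem pell_sel4 {A C : ℤ} (h1 : A % 12 = 9) (h2 : C % 12 = 1) : PellP A C :=
  Or.inr (Or.inr (Or.inr (Or.inr (Or.inl ⟨h1, h2⟩))))

private theorem pell_sel5 {A C : ℤ} (h1 : A % 12 = 7) (h2 : C % 12 = 5) : PellP A C :=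
  Or.inr (Or.inr (Or.inr (Or.inr (Or.inr (Or.inl ⟨h1, h2⟩)))))

private theorem pell_sel6 {A C : ℤ} (h1 : A % 12 = 7) (h2 : C % 12 = 7) : PellP A C :=
  Or.inr (Or.inr (Or.inr (Or.inr (Or.inr (Or.inr (Or.inl ⟨h1, h2⟩))))))

private theorem pell_sel7 {A C : ℤ} (h1 : A % 12 = 9) (h2 : C % 12 = 11) : PellP A C :=
  Or.inr (Or.inr (Or.inr (Or.inr (Or.inr (Or.inr (Or.inr (Or.inl ⟨h1, h2⟩)))))))

private theorem pell_sel8 {A C : ℤ} (h1 : A % 12 = 5) (h2 : C % 12 = 1) : PellP A C :=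
  Or.inr (Or.inr (Or.inr (Or.inr (Or.inr (Or.inr (Or.inr (Or.inr (Or.inl ⟨h1, h2⟩))))))))

private theorem pell_sel9 {A C : ℤ} (h1 : A % 12 = 11) (h2 : C % 12 = 5) : PellP A C :=
  Or.inr (Or.inr (Or.inr (Or.inr (Or.inr (Or.inr (Or.inr (Or.inr (Or.inr (Or.inl ⟨h1, h2⟩)))))))))

private theorem pell_sel10 {A C : ℤ} (h1 : A % 12 = 3) (h2 : C % 12 = 7) : PellP A C :=
  Or.inr (Or.inr (Or.inr (Or.inr (Or.inr (Or.inr (Or.inr (Or.inr (Or.inr (Or.inr (Or.inl ⟨h1, h2⟩))))))))))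

private theorem pell_sel11 {A C : ℤ} (h1 : A % 12 = 1) (h2 : C % 12 = 11) : PellP A C :=
  Or.inr (Or.inr (Or.inr (Or.inr (Or.inr (Or.inr (Or.inr (Or.inr (Or.inr (Or.inr (Or.inr (⟨h1, h2⟩)))))))))))

private theorem pell_aux (n : ℕ) : ∀ A C : ℤ, A ≤ n → 0 < A → 0 < C → 3 * A ^ 2 - C ^ 2 = 2 →
    PellP A C := by
  induction n with
  | zero => intro A C h1 h2; exfalso; push_cast at h1; omega
  | succ n ih =>
    intro A C hA hA0 hC0 h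
    by_cases hA1 : A = 1
    · subst hA1
      have hC : C = 1 := by nlinarith
      subst hC
      exact pell_sel0 (by norm_num) (by norm_num)
    · have hA2 : 2 ≤ A := by omega
      have h1 : A < C := by nlinarith
      have h2 : C < 2 * A := by nlinarith
      have h3 : 3 * A < 2 * C := by nlinarith
      have hh := ih (2 * A - C) (2 * C - 3 * A) (by push_cast at hA; omega) (by omega) (by omega)
        (by linear_combination h)
      clear ih h hA hA0 hC0 hA1 hA2 h1 h2 h3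
      rcases hh with ⟨e1, e2⟩ | ⟨e1, e2⟩ | ⟨e1, e2⟩ | ⟨e1, e2⟩ | ⟨e1, e2⟩ | ⟨e1, e2⟩ | ⟨e1, e2⟩ | ⟨e1, e2⟩ | ⟨e1, e2⟩ | ⟨e1, e2⟩ | ⟨e1, e2⟩ | ⟨e1, e2⟩
      · exact pell_sel1 (by omega) (by omega)
      · exact pell_sel2 (by omega) (by omega)
      · exact pell_sel3 (by omega) (by omega)
      · exact pell_sel4 (by omega) (by omega)
      · exact pell_sel5 (by omega) (by omega)
      · exact pell_sel6 (by omega) (by omega)
      · exact pell_sel7 (by omega) (by omega)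
      · exact pell_sel8 (by omega) (by omega)
      · exact pell_sel9 (by omega) (by omega)
      · exact pell_sel10 (by omega) (by omega)
      · exact pell_sel11 (by omega) (by omega)
      · exact pell_sel0 (by omega) (by omega)

theorem pell_pos {a c : ℤ} (h : 3 * a ^ 2 - c ^ 2 = 2) (ha : (4 : ℤ) ∣ a - 1)
    (hc : (12 : ℤ) ∣ c - 1) : 0 < a := by
  by_contra hcon
  have ha0 : a ≠ 0 := by
    rintro rfl
    omega
  have hneg : 0 < -a := by omega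
  rcases lt_trichotomy c 0 with h0 | h0 | h0
  · have hh := pell_aux (-a).toNat (-a) (-c) (by omega) hneg (by omega) (by linear_combination h)
    clear h
    rcases hh with ⟨e1, e2⟩ | ⟨e1, e2⟩ | ⟨e1, e2⟩ | ⟨e1, e2⟩ | ⟨e1, e2⟩ | ⟨e1, e2⟩ | ⟨e1, e2⟩ | ⟨e1, e2⟩ | ⟨e1, e2⟩ | ⟨e1, e2⟩ | ⟨e1, e2⟩ | ⟨e1, e2⟩ <;> omega
  · omega
  · have hh := pell_aux (-a).toNat (-a) c (by omega) hneg h0 (by linear_combination h)
    clear h
    rcases hh with ⟨e1, e2⟩ | ⟨e1, e2⟩ | ⟨e1, e2⟩ | ⟨e1, e2⟩ | ⟨e1, e2⟩ | ⟨e1, e2⟩ | ⟨e1, e2⟩ | ⟨e1, e2⟩ | ⟨e1, e2⟩ | ⟨e1, e2⟩ | ⟨e1, e2⟩ | ⟨e1, e2⟩ <;> omega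

end Pool.CBD
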