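import Pool.Agent.CBD.BLT

/-!
# CBD module BRF: four integral reflections

PROOF.  For a root rho in the list, v ↦ v - (2 bj v rho / bj rho rho) rho is given by the integral matrix
  (1,0,0): (-v0, v1, v2);   (0,1,0): (v0, -v1, v2);
  (-3,0,-1) (norm 6): (-2 v0 + 3 v2, v1, -v0 + 2 v2);
  (-1,-2,-1) (norm 2): (-2 v1 + 3 v2, -2 v0 - 3 v1 + 6 v2, -v0 - 2 v1 + 4 v2).
Each matrix is its own inverse, preserves bj (direct computation) and the forward cone: for the third,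
v0^2 + v1^2 < 3 v2^2, v2 > 0, so v0 < 2 v2; for the fourth, v0 + 2 v1 ≤ √5 √(v0^2 + v1^2) <
√15 v2 < 4 v2.
-/

namespace Pool.CBD

open Real Set

private theorem mkOJ (M : Matrix (Fin 3) (Fin 3) ℤ) (hM : M * M = 1)
    (f : (Fin 3 → ℤ) → (Fin 3 → ℤ)) (hf : ∀ v, M.mulVec v = f v)
    (h1 : ∀ u v, bj (f u) (f v) = bj u v)
    (h2 : ∀ v, bj v v < 0 → 0 < v 2 → 0 < f v 2) :
    ∃ g ∈ OJ, ∀ v : Fin 3 → ℤ, g.1.mulVec v = f v := by
  refine ⟨⟨M, M, hM, hM⟩, ⟨?_, ?_⟩, hf⟩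
  · intro u v
    change bj (M.mulVec u) (M.mulVec v) = _
    rw [hf, hf, h1]
  · intro v hv hv2
    change 0 < M.mulVec v 2
    rw [hf]
    exact h2 v hv hv2

theorem refl1 : ∃ g ∈ OJ, ∀ v : Fin 3 → ℤ, g.1.mulVec v = ![-v 0, v 1, v 2] := by
  apply mkOJ !![-1, 0, 0; 0, 1, 0; 0, 0, 1]
  · decide
  · intro v
    funext i
    fin_cases i <;> simp [Matrix.mulVec, dotProduct, Fin.sum_univ_three]
  · intro u v
    simp [bj]
  · intro v _ h
    simpa using h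

theorem refl2 : ∃ g ∈ OJ, ∀ v : Fin 3 → ℤ, g.1.mulVec v = ![v 0, -v 1, v 2] := by
  apply mkOJ !![1, 0, 0; 0, -1, 0; 0, 0, 1]
  · decide
  · intro v
    funext i
    fin_cases i <;> simp [Matrix.mulVec, dotProduct, Fin.sum_univ_three]
  · intro u v
    simp [bj]
  · intro v _ h
    simpa using h

theorem refl3 : ∃ g ∈ OJ, ∀ v : Fin 3 → ℤ,
    g.1.mulVec v = ![-2 * v 0 + 3 * v 2, v 1, -v 0 + 2 * v 2] := by
  apply mkOJ !![-2, 0, 3; 0, 1, 0; -1, 0, 2]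
  · decide
  · intro v
    funext i
    fin_cases i <;> simp [Matrix.mulVec, dotProduct, Fin.sum_univ_three]
  · intro u v
    simp [bj]
    ring
  · intro v hv h
    simp only [bj] at hv
    change 0 < -v 0 + 2 * v 2
    by_contra hcon
    have h3 : 2 * v 2 ≤ v 0 := by linarith
    nlinarith [mul_self_nonneg (v 1)]

theorem refl4 : ∃ g ∈ OJ, ∀ v : Fin 3 → ℤ,
    g.1.mulVec v = ![-2 * v 1 + 3 * v 2, -2 * v 0 - 3 * v 1 + 6 * v 2, -v 0 - 2 * v 1 + 4 * v 2] := by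
  apply mkOJ !![0, -2, 3; -2, -3, 6; -1, -2, 4]
  · decide
  · intro v
    funext i
    fin_cases i <;> simp [Matrix.mulVec, dotProduct, Fin.sum_univ_three] <;> ring
  · intro u v
    simp [bj]
    ring
  · intro v hv h
    simp only [bj] at hv
    change 0 < -v 0 - 2 * v 1 + 4 * v 2
    by_contra hcon
    have h3 : 4 * v 2 ≤ v 0 + 2 * v 1 := by linarith
    have h4 : (4 * v 2) ^ 2 ≤ (v 0 + 2 * v 1) ^ 2 := by nlinarith
    nlinarith [sq_nonneg (2 * v 0 - v 1)]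

end Pool.CBD
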