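import Pool.Agent.CBD.BST

/-!
# CBD module BSC: the stabiliser of the base wall is infinite cyclic

PROOF.  On the stabiliser the map g ↦ a(g) = arsinh (√3 q) (translation length, `stab_form`) is an
injective homomorphism to (ℝ, +) (by `stab_actH` applied to products, or addition formulas), with image a
subgroup having finitely many elements in every bounded interval (q is an integer) so the image is
cyclic (`AddSubgroup.cyclic_of_isolated_zero` or `AddSubgroup.dense_or_cyclic`), not trivial because it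
contains the element of p + q√3 = (2 + √3)^12: p = 3650401, q = 2107560 (p - 1 = 12 * 304200,
q = 12 * 175630; p^2 - 3 q^2 = 1), by `stab_of`.  Take the generator gam with positive translation
length L (equivalently q > 0).
-/

namespace Pool.CBD

open Real Set

/-- The translation length along the base wall. -/
private noncomputable def ell (g : Gam) : ℝ := Real.arsinh (√3 * ((mat g 2 0 : ℤ) : ℝ))

private theorem bsc_cosh {g : Gam} (hg : g • na0 = na0) :
    Real.cosh (ell g) = ((mat g 0 0 : ℤ) : ℝ) := by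
  obtain ⟨p, q, hm, hpq, hp, -, -⟩ := stab_form hg
  unfold ell
  rw [hm]
  have hp' : (0 : ℝ) < (p : ℝ) := by exact_mod_cast hp
  have hpq' : (p : ℝ) ^ 2 - 3 * (q : ℝ) ^ 2 = 1 := by exact_mod_cast hpq
  have h3 : (√3 : ℝ) ^ 2 = 3 := Real.sq_sqrt (by norm_num)
  change Real.cosh (Real.arsinh (√3 * (q : ℝ))) = (p : ℝ)
  rw [Real.cosh_arsinh, mul_pow, h3, show (1 : ℝ) + 3 * (q : ℝ) ^ 2 = (p : ℝ) ^ 2 by linarith,
    Real.sqrt_sq hp'.le]

private theorem bsc_mul {g h : Gam} (hg : g • na0 = na0) (hh : h • na0 = na0) :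
    ell (g * h) = ell g + ell h := by
  apply Real.sinh_injective
  rw [Real.sinh_add, bsc_cosh hg, bsc_cosh hh]
  obtain ⟨p, q, hm, -⟩ := stab_form hg
  obtain ⟨p', q', hm', -⟩ := stab_form hh
  unfold ell
  rw [Real.sinh_arsinh, Real.sinh_arsinh, Real.sinh_arsinh, mat_mul, hm, hm']
  have e : (!![p, 0, 3 * q; 0, 1, 0; q, 0, p] * !![p', 0, 3 * q'; 0, 1, 0; q', 0, p'] :
      Matrix (Fin 3) (Fin 3) ℤ) 2 0 = q * p' + p * q' := by
    simp [Matrix.mul_apply, Fin.sum_univ_three]
  rw [e]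
  change √3 * ((q * p' + p * q' : ℤ) : ℝ) = √3 * (q : ℝ) * (p' : ℝ) + (p : ℝ) * (√3 * (q' : ℝ))
  push_cast
  ring

private noncomputable def ellHom : (MulAction.stabilizer Gam na0) →* Multiplicative ℝ :=
  MonoidHom.mk' (fun g => Multiplicative.ofAdd (ell g.1)) (by
    intro a b
    rw [← ofAdd_add, Subgroup.coe_mul,
      bsc_mul (MulAction.mem_stabilizer_iff.mp a.2) (MulAction.mem_stabilizer_iff.mp b.2)])

private theorem bsc_mem_zpow {g : Gam} (hg : g • na0 = na0) (i : ℤ) : (g ^ i) • na0 = na0 :=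
  MulAction.mem_stabilizer_iff.mp
    (Subgroup.zpow_mem _ (MulAction.mem_stabilizer_iff.mpr hg) i)

private theorem bsc_zpow {g : Gam} (hg : g • na0 = na0) (i : ℤ) : ell (g ^ i) = i * ell g := by
  have h := map_zpow ellHom ⟨g, MulAction.mem_stabilizer_iff.mpr hg⟩ i
  have h2 := congrArg Multiplicative.toAdd h
  rw [toAdd_zpow, zsmul_eq_mul] at h2
  exact h2

private theorem bsc_eq_one {g : Gam} (hg : g • na0 = na0) (h : mat g 2 0 = 0) : g = 1 := by
  obtain ⟨p, q, hm, hpq, hp, -, -⟩ := stab_form hg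
  have hq : q = 0 := by
    rw [hm] at h
    exact h
  have hp1 : p = 1 := by
    rw [hq] at hpq
    nlinarith
  rw [hq, hp1] at hm
  apply Subtype.ext
  apply Units.ext
  change mat g = 1
  rw [hm]
  ext i j
  fin_cases i <;> fin_cases j <;> simp

theorem exists_gam : ∃ (gam : Gam) (L : ℝ), 0 < L ∧ gam • na0 = na0 ∧ 0 < mat gam 2 0 ∧
    (∀ g : Gam, g • na0 = na0 → ∃ i : ℤ, g = gam ^ i) ∧
    ∀ (i : ℤ) (s : ℝ), actH (gam ^ i : Gam).1 (Hyp.of (Real.sinh s) 0) =
      Hyp.of (Real.sinh (s + i * L)) 0 := by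
  classical
  have h3 : (0 : ℝ) < √3 := Real.sqrt_pos.mpr (by norm_num)
  have hex : ∃ m : ℕ, ∃ g : Gam, g • na0 = na0 ∧ 0 < mat g 2 0 ∧ mat g 2 0 = (m : ℤ) := by
    obtain ⟨g, hm, hg⟩ := stab_of (p := 3650401) (q := 2107560) (by norm_num) (by norm_num)
      (by norm_num) (by norm_num)
    refine ⟨2107560, g, hg, ?_, ?_⟩ <;> rw [hm]
    · change (0 : ℤ) < 2107560
      norm_num
    · rfl
  obtain ⟨gam, hgam, hq0, hqm⟩ := Nat.find_spec hex
  have hmin : ∀ g : Gam, g • na0 = na0 → 0 < mat g 2 0 → mat gam 2 0 ≤ mat g 2 0 := by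
    intro g hg hgq
    rw [hqm]
    have h1 : mat g 2 0 = ((mat g 2 0).toNat : ℤ) := (Int.toNat_of_nonneg hgq.le).symm
    have h2 := Nat.find_min' hex ⟨g, hg, hgq, h1⟩
    rw [h1]
    exact_mod_cast h2
  have hL : 0 < ell gam := by
    unfold ell
    rw [Real.arsinh_pos_iff]
    have : (0 : ℝ) < ((mat gam 2 0 : ℤ) : ℝ) := by exact_mod_cast hq0
    positivity
  refine ⟨gam, ell gam, hL, hgam, hq0, ?_, ?_⟩
  · intro g hg
    refine ⟨⌊ell g / ell gam⌋, ?_⟩
    set i := ⌊ell g / ell gam⌋ with hi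
    have hs : (g * gam ^ (-i)) • na0 = na0 := by
      rw [mul_smul, bsc_mem_zpow hgam, hg]
    have he : ell (g * gam ^ (-i)) = ell g - i * ell gam := by
      rw [bsc_mul hg (bsc_mem_zpow hgam _), bsc_zpow hgam]
      push_cast
      ring
    have h1 : 0 ≤ ell (g * gam ^ (-i)) := by
      rw [he]
      have := Int.floor_le (ell g / ell gam)
      rw [le_div_iff₀ hL, ← hi] at this
      linarith
    have h2 : ell (g * gam ^ (-i)) < ell gam := by
      rw [he]
      have := Int.lt_floor_add_one (ell g / ell gam)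
      rw [div_lt_iff₀ hL, ← hi] at this
      linarith
    have h4 : 0 ≤ mat (g * gam ^ (-i)) 2 0 := by
      have h5 : 0 ≤ √3 * ((mat (g * gam ^ (-i)) 2 0 : ℤ) : ℝ) := Real.arsinh_nonneg_iff.mp h1
      have h6 := nonneg_of_mul_nonneg_right h5 h3
      exact_mod_cast h6
    have h5 : mat (g * gam ^ (-i)) 2 0 < mat gam 2 0 := by
      unfold ell at h2
      rw [Real.arsinh_lt_arsinh] at h2
      have h6 := lt_of_mul_lt_mul_left h2 h3.le
      exact_mod_cast h6
    have h6 : mat (g * gam ^ (-i)) 2 0 = 0 := by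
      by_contra h
      have := hmin _ hs (lt_of_le_of_ne h4 (Ne.symm h))
      omega
    have h7 := bsc_eq_one hs h6
    rw [zpow_neg, mul_inv_eq_one] at h7
    exact h7
  · intro i s
    obtain ⟨p, q, hm, hpq, hp, -, -⟩ := stab_form (bsc_mem_zpow hgam i)
    rw [stab_actH hm hp hpq]
    have h1 : ell (gam ^ i) = Real.arsinh (√3 * (q : ℝ)) := by
      unfold ell
      rw [hm]
      rfl
    rw [← h1, bsc_zpow hgam]

end Pool.CBD
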