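import Pool.Agent.CBD.BNN
import Pool.Agent.CBD.BAC

/-!
# CBD module BST: the stabiliser of the base wall

PROOFS.  `stab_form`: g ve1 = ve1 gives the middle column (0,1,0); col (j,1) gives g1j = 0 for j = 0, 2.
With p = g00, q = g20, r = g02, s = g22: p^2 - 3q^2 = 1, r^2 - 3 s^2 = -3, p r = 3 q s, s > 0.
So r = 3 r' (3 divides r), 3 r'^2 - s^2 = -1, p r' = q s.  Then p^2 r'^2 = q^2 s^2, with
q^2 = (p^2-1)/3, r'^2 = (s^2-1)/3: p^2 (s^2 - 1) = (p^2 - 1) s^2, so p^2 = s^2, p = ± s; p ≡ 1 mod 12 and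
s ≡ 1 mod 12 and s > 0 exclude p = -s (p = -s would give -s ≡ 1, s ≡ 1, 12 | 2).  So p = s, r' = q.
`stab_actH`: with p = cosh a, √3 q = sinh a, the point (sinh s, 0, cosh s) is sent to
(p sinh s + √3 q cosh s, 0, ..) = sinh (s + a).
`stab_of`: conversely the matrix built from p, q (p^2 - 3q^2 = 1, 0 < p, 12 | p - 1, 12 | q) is in Gam
(inverse: q replaced by -q).
-/

namespace Pool.CBD

open Real Set

theorem stab_form {g : Gam} (hg : g • na0 = na0) : ∃ p q : ℤ, mat g = !![p, 0, 3 * q; 0, 1, 0; q, 0, p] ∧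
    p ^ 2 - 3 * q ^ 2 = 1 ∧ 0 < p ∧ (12 : ℤ) ∣ p - 1 ∧ (12 : ℤ) ∣ q := by
  have h0 : (mat g).mulVec ve1 = ve1 := by
    rw [← show (g • na0).1 = (mat g).mulVec ve1 from smul_NN g na0, hg]
    rfl
  have hO : g.1 ∈ OJ := g.2.1
  have e01 : mat g 0 1 = 0 := by
    have := congrFun h0 0
    simpa [Matrix.mulVec, dotProduct, Fin.sum_univ_three, ve1] using this
  have e11 : mat g 1 1 = 1 := by
    have := congrFun h0 1
    simpa [Matrix.mulVec, dotProduct, Fin.sum_univ_three, ve1] using this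
  have e21 : mat g 2 1 = 0 := by
    have := congrFun h0 2
    simpa [Matrix.mulVec, dotProduct, Fin.sum_univ_three, ve1] using this
  have colm : ∀ i j, mat g 0 i * mat g 0 j + mat g 1 i * mat g 1 j - 3 * (mat g 2 i * mat g 2 j) =
      (if i = j then (if i = 2 then -3 else 1) else 0) := fun i j => col hO i j
  have c01 : mat g 0 0 * mat g 0 1 + mat g 1 0 * mat g 1 1 - 3 * (mat g 2 0 * mat g 2 1) = 0 := by
    simpa using colm 0 1
  have c21 : mat g 0 2 * mat g 0 1 + mat g 1 2 * mat g 1 1 - 3 * (mat g 2 2 * mat g 2 1) = 0 := by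
    simpa using colm 2 1
  have c00 : mat g 0 0 * mat g 0 0 + mat g 1 0 * mat g 1 0 - 3 * (mat g 2 0 * mat g 2 0) = 1 := by
    simpa using colm 0 0
  have c22 : mat g 0 2 * mat g 0 2 + mat g 1 2 * mat g 1 2 - 3 * (mat g 2 2 * mat g 2 2) = -3 := by
    simpa using colm 2 2
  have c02 : mat g 0 0 * mat g 0 2 + mat g 1 0 * mat g 1 2 - 3 * (mat g 2 0 * mat g 2 2) = 0 := by
    simpa using colm 0 2
  have hs : 0 < mat g 2 2 := g22_pos hO
  have m00 : (12 : ℤ) ∣ mat g 0 0 - 1 := by simpa using Gam_mod g 0 0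
  have m20 : (12 : ℤ) ∣ mat g 2 0 := by simpa using Gam_mod g 2 0
  have m02 : (12 : ℤ) ∣ mat g 0 2 := by simpa using Gam_mod g 0 2
  have m22 : (12 : ℤ) ∣ mat g 2 2 - 1 := by simpa using Gam_mod g 2 2
  rw [e01, e11, e21] at c01 c21
  have e10 : mat g 1 0 = 0 := by linarith
  have e12 : mat g 1 2 = 0 := by linarith
  rw [e10] at c00
  rw [e12] at c22
  rw [e10, e12] at c02
  obtain ⟨r'', hr''⟩ := m02
  have hr : mat g 0 2 = 3 * (4 * r'') := by rw [hr'']; ring
  generalize hr' : 4 * r'' = r' at hr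
  generalize hp : mat g 0 0 = p at *
  generalize hq : mat g 2 0 = q at *
  generalize hs' : mat g 2 2 = s at *
  rw [hr] at c22 c02
  have k1 : p * r' = q * s := by linarith
  have k2 : 3 * r' ^ 2 = s ^ 2 - 1 := by linarith
  have k3 : 3 * q ^ 2 = p ^ 2 - 1 := by linarith
  have k4 : p ^ 2 = s ^ 2 := by
    have : p ^ 2 * (3 * r' ^ 2) = (3 * q ^ 2) * s ^ 2 := by
      have : (p * r') ^ 2 = (q * s) ^ 2 := by rw [k1]
      linear_combination 3 * this
    rw [k2, k3] at this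
    linarith
  have k5 : p = s := by
    rcases sq_eq_sq_iff_eq_or_eq_neg.mp k4 with h | h
    · exact h
    · exfalso
      omega
  subst k5
  have k6 : r' = q := by
    have : p * r' = p * q := by linarith
    exact mul_left_cancel₀ (by omega) this
  refine ⟨p, q, ?_, by linarith, hs, m00, m20⟩
  ext i j
  fin_cases i <;> fin_cases j
  · exact hp
  · exact e01
  · change mat g 0 2 = 3 * q
    rw [hr, k6]
  · exact e10
  · exact e11
  · exact e12
  · exact hq
  · exact e21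
  · exact hs'

theorem stab_of {p q : ℤ} (h : p ^ 2 - 3 * q ^ 2 = 1) (hp : 0 < p) (h1 : (12 : ℤ) ∣ p - 1)
    (h2 : (12 : ℤ) ∣ q) : ∃ g : Gam, mat g = !![p, 0, 3 * q; 0, 1, 0; q, 0, p] ∧ g • na0 = na0 := by
  have hpp : p * p + 3 * q * -q = 1 := by linarith
  have hpp' : q * (3 * -q) + p * p = 1 := by linarith
  let u : GL3 :=
    { val := !![p, 0, 3 * q; 0, 1, 0; q, 0, p]
      inv := !![p, 0, 3 * (-q); 0, 1, 0; -q, 0, p]
      val_inv := by
        ext i j
        fin_cases i <;> fin_cases j <;> simp [Matrix.mul_apply, Fin.sum_univ_three] <;> linarith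
      inv_val := by
        ext i j
        fin_cases i <;> fin_cases j <;> simp [Matrix.mul_apply, Fin.sum_univ_three] <;> linarith }
  have hv : ∀ v : Fin 3 → ℤ, u.1.mulVec v = ![p * v 0 + 3 * q * v 2, v 1, q * v 0 + p * v 2] := by
    intro v
    ext i
    fin_cases i <;> simp [u, Matrix.mulVec, dotProduct, Fin.sum_univ_three]
  have hO : u ∈ OJ := by
    refine ⟨fun a b => ?_, fun v hv1 hv2 => ?_⟩
    · rw [hv, hv]
      unfold bj
      simp only [Matrix.cons_val_zero, Matrix.cons_val_one, Matrix.cons_val]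
      linear_combination (a 0 * b 0 - 3 * a 2 * b 2) * h
    · rw [hv]
      simp only [Matrix.cons_val]
      unfold bj at hv1
      have hb : v 0 * v 0 < 3 * (v 2 * v 2) := by nlinarith [mul_self_nonneg (v 1)]
      have hc : (q * v 0) ^ 2 < (p * v 2) ^ 2 := by
        have e1 : 3 * (q * v 0) ^ 2 = (p ^ 2 - 1) * (v 0 * v 0) := by
          linear_combination (- (v 0 * v 0)) * h
        have e2 : (p ^ 2 - 1) * (v 0 * v 0) ≤ p ^ 2 * (v 0 * v 0) := by
          nlinarith [mul_self_nonneg (v 0)]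
        have e3 : p ^ 2 * (v 0 * v 0) < p ^ 2 * (3 * (v 2 * v 2)) :=
          mul_lt_mul_of_pos_left hb (by positivity)
        have e4 : p ^ 2 * (3 * (v 2 * v 2)) = 3 * (p * v 2) ^ 2 := by ring
        linarith
      have hd := abs_lt_of_sq_lt_sq hc (by positivity)
      have := (abs_lt.mp hd).1
      linarith
  have hC : u ∈ cong := by
    unfold cong
    rw [MonoidHom.mem_ker]
    have z1 : ((p : ℤ) : ZMod 12) = 1 := by
      have := (ZMod.intCast_zmod_eq_zero_iff_dvd (p - 1) 12).mpr h1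
      push_cast at this
      linear_combination this
    have z2 : ((q : ℤ) : ZMod 12) = 0 := (ZMod.intCast_zmod_eq_zero_iff_dvd q 12).mpr h2
    ext i j
    have z3 : (((3 : ℤ) * q : ℤ) : ZMod 12) = 0 := by push_cast; rw [z2]; ring
    fin_cases i <;> fin_cases j
    · change ((p : ℤ) : ZMod 12) = 1
      exact z1
    · change ((0 : ℤ) : ZMod 12) = 0
      exact Int.cast_zero
    · change (((3 : ℤ) * q : ℤ) : ZMod 12) = 0
      exact z3
    · change ((0 : ℤ) : ZMod 12) = 0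
      exact Int.cast_zero
    · change ((1 : ℤ) : ZMod 12) = 1
      exact Int.cast_one
    · change ((0 : ℤ) : ZMod 12) = 0
      exact Int.cast_zero
    · change ((q : ℤ) : ZMod 12) = 0
      exact z2
    · change ((0 : ℤ) : ZMod 12) = 0
      exact Int.cast_zero
    · change ((p : ℤ) : ZMod 12) = 1
      exact z1
  refine ⟨⟨u, hO, hC⟩, rfl, ?_⟩
  apply Subtype.ext
  rw [smul_NN]
  change u.1.mulVec ve1 = ve1
  rw [hv]
  ext i
  fin_cases i <;> simp [ve1]

theorem stab_actH {g : Gam} {p q : ℤ} (hg : mat g = !![p, 0, 3 * q; 0, 1, 0; q, 0, p]) (hp : 0 < p)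
    (h : p ^ 2 - 3 * q ^ 2 = 1) (s : ℝ) :
    actH g.1 (Hyp.of (Real.sinh s) 0) = Hyp.of (Real.sinh (s + Real.arsinh (√3 * q))) 0 := by
  have h3 : (0 : ℝ) < √3 := Real.sqrt_pos.mpr (by norm_num)
  have h33 : √3 * √3 = 3 := Real.mul_self_sqrt (by norm_num)
  have ht : (Hyp.of (Real.sinh s) 0).t = Real.cosh s := by
    change √(1 + Real.sinh s ^ 2 + 0 ^ 2) = Real.cosh s
    rw [show 1 + Real.sinh s ^ 2 + 0 ^ 2 = Real.cosh s ^ 2 by rw [Real.cosh_sq]; ring]
    exact Real.sqrt_sq (Real.cosh_pos s).le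
  have hc : Real.cosh (Real.arsinh (√3 * q)) = p := by
    rw [Real.cosh_arsinh]
    have : 1 + (√3 * (q : ℝ)) ^ 2 = (p : ℝ) ^ 2 := by
      have h' : (p : ℝ) ^ 2 - 3 * (q : ℝ) ^ 2 = 1 := by exact_mod_cast h
      rw [mul_pow, sq √3, h33]
      linarith
    rw [this]
    exact Real.sqrt_sq (by exact_mod_cast hp.le)
  have hE : ∀ i j, g.1.1 i j = (!![p, 0, 3 * q; 0, 1, 0; q, 0, p] : Matrix (Fin 3) (Fin 3) ℤ) i j := by
    intro i j
    rw [← hg]
    rfl
  unfold actH
  rw [ht]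
  have hx : (Hyp.of (Real.sinh s) 0).x = Real.sinh s := rfl
  have hy : (Hyp.of (Real.sinh s) 0).y = 0 := rfl
  rw [hx, hy]
  congr 1
  · rw [Real.sinh_add, hc, Real.sinh_arsinh]
    have e1 : g.1.1 0 0 = p := hE 0 0
    have e2 : g.1.1 0 1 = 0 := hE 0 1
    have e3 : g.1.1 0 2 = 3 * q := hE 0 2
    rw [e1, e2, e3]
    push_cast
    have : 3 * (q : ℝ) * (Real.cosh s / √3) = Real.cosh s * (√3 * q) := by
      rw [mul_div_assoc', div_eq_iff h3.ne']
      linear_combination (- (q : ℝ) * Real.cosh s) * h33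
    rw [this]
    ring
  · have e1 : g.1.1 1 0 = 0 := hE 1 0
    have e2 : g.1.1 1 1 = 1 := hE 1 1
    have e3 : g.1.1 1 2 = 0 := hE 1 2
    rw [e1, e2, e3]
    push_cast
    ring

end Pool.CBD
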