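import Pool.Agent.CBD.BTF

/-!
# CBD module BTA: tau is a homomorphism

PROOF.  tau (g h) = ∑ᶠ (ind (b(g h e2, u)) - ind (b(g e2, u))) + ∑ᶠ (ind (b(g e2, u)) - ind (b(e2, u)))
(finite supports, `tau_supp'`, `finsum_add_distrib`).  In the first sum replace u by g u (a bijection of
U1, `finsum_comp_equiv`): b(g h e2, g u) = b(h e2, u), b(g e2, g u) = b(e2, u).
-/

namespace Pool.CBD

open Real Set

private theorem mulVec_mul (g h : Gam) (v : Fin 3 → ℤ) :
    (mat (g * h)).mulVec v = (mat g).mulVec ((mat h).mulVec v) := by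
  rw [mat_mul, Matrix.mulVec_mulVec]

private theorem mem_U1 (g : Gam) {u : Fin 3 → ℤ} (hu : u ∈ U1) : (mat g).mulVec u ∈ U1 := by
  obtain ⟨k, hk⟩ := hu
  exact ⟨g * k, by rw [mulVec_mul, hk]⟩

private theorem inv_mulVec (g : Gam) (v : Fin 3 → ℤ) :
    (mat g⁻¹).mulVec ((mat g).mulVec v) = v := by
  rw [← mulVec_mul, inv_mul_cancel, mat_one, Matrix.one_mulVec]

private theorem mulVec_inv (g : Gam) (v : Fin 3 → ℤ) :
    (mat g).mulVec ((mat g⁻¹).mulVec v) = v := by
  rw [← mulVec_mul, mul_inv_cancel, mat_one, Matrix.one_mulVec]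

private def eqU (g : Gam) : U1 ≃ U1 where
  toFun u := ⟨(mat g).mulVec u.1, mem_U1 g u.2⟩
  invFun u := ⟨(mat g⁻¹).mulVec u.1, mem_U1 g⁻¹ u.2⟩
  left_inv u := Subtype.ext (inv_mulVec g u.1)
  right_inv u := Subtype.ext (mulVec_inv g u.1)

private theorem bj_mat (g : Gam) (u v : Fin 3 → ℤ) :
    bj ((mat g).mulVec u) ((mat g).mulVec v) = bj u v := g.2.1.1 u v

theorem tau_mul (g h : Gam) : tau (g * h) = tau g + tau h := by
  have h1 : tau (g * h) = ∑ᶠ u : U1,
      ((indp (bj ((mat (g * h)).mulVec ve2) u.1) - indp (bj ((mat g).mulVec ve2) u.1)) +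
        (indp (bj ((mat g).mulVec ve2) u.1) - indp (bj ve2 u.1))) := by
    unfold tau
    refine finsum_congr fun u => ?_
    ring
  rw [h1, finsum_add_distrib (tau_supp' (g * h) g) (tau_supp g)]
  have h2 : ∑ᶠ u : U1,
      (indp (bj ((mat (g * h)).mulVec ve2) u.1) - indp (bj ((mat g).mulVec ve2) u.1)) =
        tau h := by
    rw [← finsum_comp_equiv (eqU g)]
    unfold tau
    refine finsum_congr fun u => ?_
    have e1 : ((eqU g u).1 : Fin 3 → ℤ) = (mat g).mulVec u.1 := rfl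
    rw [e1, mulVec_mul, bj_mat, bj_mat]
  rw [h2]
  unfold tau
  ring

end Pool.CBD
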