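import Pool.Agent.CBD.BNN

/-!
# CBD module BTF: finitely many lines of U1 separate two points

PROOF.  Let v, w be forward vectors of norm -3 (v = g ve2, w = ve2).  If u in U1 has
indp (bj v u) ≠ indp (bj w u), then bj v u and bj w u do not have the same strict sign, so there is a
real point h = v + s w, s ≥ 0 or h = v or h = w (a nonnegative combination, in the forward cone) with
b(h, u) = 0; explicitly |bj w u| ≤ |bj v u - bj w u|, etc.  A direct way: w = ve2: bj w u = -3 u2,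
bj v u = v0 u0 + v1 u1 - 3 v2 u2.  If u2 > 0: then bj w u < 0, so bj v u > 0 (if the indicators differ):
3 v2 u2 < v0 u0 + v1 u1 ≤ √(v0^2+v1^2) √(u0^2+u1^2) = √(3 v2^2 - 3) √(6 + 3 u2^2), so
9 v2^2 u2^2 < (3 v2^2 - 3)(6 + 3 u2^2) = 18 v2^2 + 9 v2^2 u2^2 - 18 - 9 u2^2, so 9 u2^2 < 18 v2^2 - 18:
u2^2 < 2 v2^2.  If u2 < 0: bj w u > 0 so bj v u ≤ 0, same estimate (≤).  u2 = 0 is excluded (mod 12).
So u2 is bounded, u0^2 + u1^2 = 6 + 3 u2^2 is bounded: finitely many integral vectors.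
-/

namespace Pool.CBD

open Real Set

private theorem fw_norm (g : Gam) :
    (mat g).mulVec ve2 0 ^ 2 + (mat g).mulVec ve2 1 ^ 2 = 3 * (mat g).mulVec ve2 2 ^ 2 - 3 ∧
      0 < (mat g).mulVec ve2 2 := by
  have hg : g.1 ∈ OJ := g.2.1
  have h1 : bj ((mat g).mulVec ve2) ((mat g).mulVec ve2) = bj ve2 ve2 := hg.1 ve2 ve2
  have h2 : bj ve2 ve2 = -3 := by simp [bj, ve2]
  have h3 : 0 < (mat g).mulVec ve2 2 := hg.2 ve2 (by rw [h2]; norm_num) (by simp [ve2])
  refine ⟨?_, h3⟩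
  rw [h2] at h1
  unfold bj at h1
  linarith [h1, sq ((mat g).mulVec ve2 0), sq ((mat g).mulVec ve2 1), sq ((mat g).mulVec ve2 2)]

private theorem sep_bound (v u : Fin 3 → ℤ) (hv : v 0 ^ 2 + v 1 ^ 2 = 3 * v 2 ^ 2 - 3)
    (hv2 : 0 < v 2) (hu : u 0 ^ 2 + u 1 ^ 2 - 3 * u 2 ^ 2 = 6) (hu2 : u 2 ≠ 0)
    (h : indp (bj v u) - indp (bj ve2 u) ≠ 0) : u 2 ^ 2 ≤ 2 * v 2 ^ 2 := by
  have hb : bj ve2 u = -3 * u 2 := by simp [bj, ve2]
  have hc : (v 0 * u 0 + v 1 * u 1) ^ 2 ≤ (v 0 ^ 2 + v 1 ^ 2) * (u 0 ^ 2 + u 1 ^ 2) := by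
    nlinarith [sq_nonneg (v 0 * u 1 - v 1 * u 0)]
  have hkey : (3 * (v 2 * u 2)) ^ 2 ≤ (v 0 * u 0 + v 1 * u 1) ^ 2 := by
    have hbv : bj v u = v 0 * u 0 + v 1 * u 1 - 3 * (v 2 * u 2) := rfl
    rcases lt_or_gt_of_ne hu2 with h2 | h2
    · have e1 : indp (bj ve2 u) = 1 := by
        unfold indp
        rw [if_pos]
        rw [hb]; linarith
      have e2 : ¬ 0 < bj v u := by
        intro h3
        apply h
        rw [e1]
        unfold indp
        rw [if_pos h3]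
        norm_num
      rw [hbv] at e2
      have h4 : v 2 * u 2 < 0 := mul_neg_of_pos_of_neg hv2 h2
      nlinarith
    · have e1 : indp (bj ve2 u) = 0 := by
        unfold indp
        rw [if_neg]
        rw [hb]; linarith
      have e2 : 0 < bj v u := by
        by_contra h3
        apply h
        rw [e1]
        unfold indp
        rw [if_neg h3]
        norm_num
      rw [hbv] at e2
      have h4 : 0 < v 2 * u 2 := mul_pos hv2 h2
      nlinarith
  have h5 : u 0 ^ 2 + u 1 ^ 2 = 6 + 3 * u 2 ^ 2 := by linarith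
  rw [hv, h5] at hc
  nlinarith

theorem tau_supp (g : Gam) :
    {u : U1 | indp (bj ((mat g).mulVec ve2) u.1) - indp (bj ve2 u.1) ≠ 0}.Finite := by
  obtain ⟨hv, hv2⟩ := fw_norm g
  set v := (mat g).mulVec ve2 with hvdef
  have hfin : ({u : Fin 3 → ℤ | ∀ i, u i ∈ Set.Icc (-(6 + 6 * v 2 ^ 2)) (6 + 6 * v 2 ^ 2)}).Finite :=
    Set.Finite.pi' (fun _ => Set.finite_Icc _ _)
  refine (hfin.preimage Subtype.val_injective.injOn).subset ?_
  intro u hu
  have hn := U1_norm u.2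
  have hm := (U1_mod u.2).2.2
  have hn' : u.1 0 ^ 2 + u.1 1 ^ 2 - 3 * u.1 2 ^ 2 = 6 := by
    unfold bj at hn
    linarith [sq (u.1 0), sq (u.1 1), sq (u.1 2)]
  have hu2 : u.1 2 ≠ 0 := by
    intro h0
    rw [h0] at hm
    omega
  have hb := sep_bound v u.1 hv hv2 hn' hu2 hu
  have habs : ∀ x : ℤ, |x| ≤ x ^ 2 := by
    intro x
    rw [← sq_abs]
    nlinarith [abs_nonneg x, Int.one_le_abs (z := x), sq_nonneg (|x|), (show |x| = 0 ∨ 1 ≤ |x| by
      rcases eq_or_ne x 0 with h | h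
      · left; simp [h]
      · right; exact Int.one_le_abs h)]
  have habs' : ∀ x : ℤ, x ^ 2 ≤ 6 + 6 * v 2 ^ 2 → x ∈ Set.Icc (-(6 + 6 * v 2 ^ 2)) (6 + 6 * v 2 ^ 2) := by
    intro x hx
    have h1 := habs x
    have h2 := abs_le.mp (le_trans h1 hx)
    exact ⟨h2.1, h2.2⟩
  intro i
  have h0 := sq_nonneg (u.1 0)
  have h1 := sq_nonneg (u.1 1)
  have h2 := sq_nonneg (v 2)
  fin_cases i
  · apply habs'
    change u.1 0 ^ 2 ≤ _
    linarith
  · apply habs'
    change u.1 1 ^ 2 ≤ _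
    linarith
  · apply habs'
    change u.1 2 ^ 2 ≤ _
    linarith

theorem tau_supp' (g h : Gam) :
    {u : U1 | indp (bj ((mat g).mulVec ve2) u.1) - indp (bj ((mat h).mulVec ve2) u.1) ≠ 0}.Finite := by
  refine ((tau_supp g).union (tau_supp h)).subset ?_
  intro u hu
  by_contra hc
  simp only [Set.mem_union, Set.mem_setOf_eq, not_or, not_not] at hc
  apply hu
  have h1 := hc.1
  have h2 := hc.2
  change indp (bj ((mat g).mulVec ve2) u.1) - indp (bj ((mat h).mulVec ve2) u.1) = 0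
  linarith

end Pool.CBD
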