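import Pool.Agent.CBD.BTF
import Pool.Agent.CBD.BPE
import Pool.Agent.CBD.BST

/-!
# CBD module BTP: tau is positive on the positive generator

PROOF.  Let g be in the stabiliser with mat g = !![p,0,3q;0,1,0;q,0,p], q > 0, p > 0 (`stab_form`).
v = g ve2 = (3q, 0, p).  Let u = (u0,u1,u2) in U1 with indp (bj v u) ≠ indp (bj ve2 u).
bj ve2 u = -3 u2, bj v u = 3 (q u0 - p u2).  The signs: either -3u2 ≤ 0 < 3(q u0 - p u2) or
3 (q u0 - p u2) ≤ 0 < -3 u2.
Claim u1 = 0: in the first case q u0 > p u2 ≥ 0, so q^2 u0^2 > p^2 u2^2 = (1 + 3q^2) u2^2 ≥ 3 q^2 u2^2,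
u0^2 > 3 u2^2; in the second case q u0 ≤ p u2 < 0, the same with ≥.  So u1^2 = 6 - (u0^2 - 3 u2^2) ≤ 6
and 12 | u1, so u1 = 0.  Then u0^2 - 3 u2^2 = 6, u0 = 3a (3 divides u0^2; also 12 | u0 - 3 gives
4 | a - 1), 3a^2 - u2^2 = 2, 12 | u2 - 1, so a > 0 by `pell_pos`, u0 > 0, which excludes the second
case (there q u0 < 0).  So every nonzero term of the sum is +1.
The term of u = vf = (3,0,1) is +1: bj ve2 vf = -3 ≤ 0 and bj v vf = 3(3q - p) > 0 since 9 q^2 > 1 + 3 q^2.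
So tau g ≥ 1 (`finsum` over finite support: tau_supp).
-/

namespace Pool.CBD

open Real Set

theorem tau_pos {g : Gam} (hg : g • na0 = na0) (h : 0 < mat g 2 0) : 0 < tau g := by
  obtain ⟨p, q, hm, hpell, hp, hp12, hq12⟩ := stab_form hg
  have hq : 0 < q := by
    rw [hm] at h
    exact h
  have hv : (mat g).mulVec ve2 = ![3 * q, 0, p] := by
    rw [hm]
    funext i
    fin_cases i <;> simp [Matrix.mulVec, dotProduct, Fin.sum_univ_three, ve2]
  have hbv : ∀ u : Fin 3 → ℤ, bj ((mat g).mulVec ve2) u = 3 * (q * u 0 - p * u 2) := by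
    intro u
    rw [hv]
    unfold bj
    have e0 : (![3 * q, 0, p] : Fin 3 → ℤ) 0 = 3 * q := rfl
    have e1 : (![3 * q, 0, p] : Fin 3 → ℤ) 1 = 0 := rfl
    have e2 : (![3 * q, 0, p] : Fin 3 → ℤ) 2 = p := rfl
    rw [e0, e1, e2]
    ring
  have hbe : ∀ u : Fin 3 → ℤ, bj ve2 u = -(3 * u 2) := by
    intro u
    unfold bj
    have e0 : ve2 0 = 0 := rfl
    have e1 : ve2 1 = 0 := rfl
    have e2 : ve2 2 = 1 := rfl
    rw [e0, e1, e2]
    ring
  have hnonneg : ∀ u : U1, 0 ≤ indp (bj ((mat g).mulVec ve2) u.1) - indp (bj ve2 u.1) := by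
    rintro ⟨u, hu⟩
    rw [hbv, hbe]
    by_contra hneg
    have h1 : 0 < -(3 * u 2) ∧ 3 * (q * u 0 - p * u 2) ≤ 0 := by
      unfold indp at hneg
      split_ifs at hneg with h1 h2 h2
      · exact absurd (by norm_num) hneg
      · exact absurd (by norm_num) hneg
      · exact ⟨h2, not_lt.mp h1⟩
      · exact absurd (by norm_num) hneg
    obtain ⟨h1, h2⟩ := h1
    have hu2 : u 2 < 0 := by linarith
    have hle : q * u 0 ≤ p * u 2 := by linarith
    have hpu : p * u 2 < 0 := mul_neg_of_pos_of_neg hp hu2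
    have hsq : (p * u 2) ^ 2 ≤ (q * u 0) ^ 2 := by nlinarith
    have h3 : q ^ 2 * (3 * u 2 ^ 2) < q ^ 2 * u 0 ^ 2 := by
      have : (p * u 2) ^ 2 = (1 + 3 * q ^ 2) * u 2 ^ 2 := by
        rw [mul_pow]
        have : p ^ 2 = 1 + 3 * q ^ 2 := by linarith
        rw [this]
      rw [this] at hsq
      have : 0 < u 2 ^ 2 := by nlinarith
      nlinarith
    have h4 : 3 * u 2 ^ 2 < u 0 ^ 2 := lt_of_mul_lt_mul_left h3 (sq_nonneg q)
    have hn := U1_norm hu
    obtain ⟨⟨a0, hu0⟩, ⟨b0, hu1⟩, ⟨c0, hu2'⟩⟩ := U1_mod hu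
    unfold bj at hn
    have hb0 : b0 = 0 := by
      by_contra hb
      have : 1 ≤ b0 ^ 2 := by
        have : 0 < b0 ^ 2 := by positivity
        linarith
      rw [hu1] at hn
      nlinarith
    rw [hb0, mul_zero] at hu1
    have ha : u 0 = 3 * (4 * a0 + 1) := by linarith
    have hpe : 3 * (4 * a0 + 1) ^ 2 - (u 2) ^ 2 = 2 := by
      rw [hu1, ha] at hn
      nlinarith
    have := pell_pos hpe ⟨a0, by ring⟩ ⟨c0, hu2'⟩
    have hu0neg : u 0 < 0 := by
      by_contra hh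
      have : 0 ≤ q * u 0 := mul_nonneg hq.le (not_lt.mp hh)
      linarith
    linarith
  have hvf : vf ∈ U1 := ⟨1, by rw [mat_one, Matrix.one_mulVec]⟩
  have hone : indp (bj ((mat g).mulVec ve2) (⟨vf, hvf⟩ : U1).1) - indp (bj ve2 (⟨vf, hvf⟩ : U1).1) = 1 := by
    rw [hbv, hbe]
    have e0 : vf 0 = 3 := rfl
    have e2 : vf 2 = 1 := rfl
    change indp (3 * (q * vf 0 - p * vf 2)) - indp (-(3 * vf 2)) = 1
    rw [e0, e2]
    have hpq : p < 3 * q := by nlinarith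
    unfold indp
    rw [if_pos (by linarith), if_neg (by norm_num)]
    norm_num
  have hfin := tau_supp g
  have := single_le_finsum (f := fun u : U1 => indp (bj ((mat g).mulVec ve2) u.1) - indp (bj ve2 u.1))
    ⟨vf, hvf⟩ hfin hnonneg
  unfold tau
  have h5 : (1 : ℤ) ≤ ∑ᶠ u : U1, (indp (bj ((mat g).mulVec ve2) u.1) - indp (bj ve2 u.1)) := by
    rw [← hone]
    exact this
  linarith

end Pool.CBD
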