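import Pool.Agent.CBD.RAY

/-!
# CBD module BTW: a point between two points sees them in opposite directions

PROOF.  Let a = dist x.h m.h, b = dist m.h y.h, c = dist x.h y.h ≤ a + b, p = m.v - x.v,
q = y.v - m.v.  dist x y^2 = c^2 + (p+q)^2 ≤ (a+b)^2 + (p+q)^2 ≤ (√(a^2+p^2) + √(b^2+q^2))^2
(Minkowski), and the hypothesis says that both inequalities are equalities.  Hence c = a + b, and
a b + p q = √(a^2+p^2) √(b^2+q^2), i.e. (a, p) and (b, q) are nonnegatively proportional: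
√(b^2+q^2) (a, p) = √(a^2+p^2) (b, q), that is dist m y * a = dist x m * b and
dist m y * p = dist x m * q.
From c = a + b and `c1c2_mul`: cosh (a+b) = cosh a cosh b - (inner product of the c-vectors), so the
inner product of the vectors (c1 m.h x.h, c2 m.h x.h) and (c1 m.h y.h, c2 m.h y.h), whose norms
are sinh a and sinh b (`c1c2_sq`), is - sinh a sinh b.  Hence sinh b * c_i(x) = - sinh a * c_i(y),
and multiplying by the factors kd: b * lg_i x = - a * lg_i y for i = 0, 1 (if a = 0 or b = 0 the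
corresponding vectors vanish).  Combine with dist m y * a = dist x m * b (cases a = 0, b = 0
separately) and the vertical components lg_2 x = - p, lg_2 y = q.
-/

namespace Pool.CBD

open Real Set

private theorem BTW_sq0 {u v : ℝ} (h : u ^ 2 + v ^ 2 = 0) : u = 0 ∧ v = 0 := by
  have hu := sq_nonneg u
  have hv := sq_nonneg v
  constructor
  · exact pow_eq_zero_iff (two_ne_zero) |>.mp (by linarith)
  · exact pow_eq_zero_iff (two_ne_zero) |>.mp (by linarith)

private theorem BTW_alg {a b c p q A B : ℝ} (ha : 0 ≤ a) (hb : 0 ≤ b) (hc0 : 0 ≤ c)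
    (hc : c ≤ a + b) (hA : A ^ 2 = a ^ 2 + p ^ 2) (hB : B ^ 2 = b ^ 2 + q ^ 2) (hA0 : 0 ≤ A)
    (hB0 : 0 ≤ B) (h : (A + B) ^ 2 = c ^ 2 + (p + q) ^ 2) :
    c = a + b ∧ A * b = B * a ∧ A * q = B * p := by
  have h1 : (a * b + p * q) ^ 2 ≤ (A * B) ^ 2 := by
    rw [mul_pow, hA, hB]
    nlinarith [sq_nonneg (a * q - b * p)]
  have h2 : a * b + p * q ≤ A * B := le_trans (le_abs_self _)
    (abs_le_of_sq_le_sq h1 (mul_nonneg hA0 hB0))
  have h3 : c ^ 2 ≤ (a + b) ^ 2 := pow_le_pow_left₀ hc0 hc 2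
  have h4 : (a + b) ^ 2 ≤ c ^ 2 := by nlinarith
  have h5 : c = a + b := by
    have := (pow_left_inj₀ hc0 (add_nonneg ha hb) two_ne_zero).mp (le_antisymm h3 h4)
    exact this
  have h6 : a * b + p * q = A * B := by nlinarith
  have h7 : (A * b - B * a) ^ 2 + (A * q - B * p) ^ 2 = 0 := by
    have e : (A * b - B * a) ^ 2 + (A * q - B * p) ^ 2 =
      A ^ 2 * (b ^ 2 + q ^ 2) + B ^ 2 * (a ^ 2 + p ^ 2) - 2 * (A * B) * (a * b + p * q) := by
      ring
    rw [e, h6, ← hA, ← hB]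
    ring
  obtain ⟨h8, h9⟩ := BTW_sq0 h7
  exact ⟨h5, by linarith, by linarith⟩

private theorem BTW_comp {a b A B u v : ℝ} (ha : 0 ≤ a) (hb : 0 ≤ b) (hAB : A * b = B * a)
    (hu : a = 0 → u = 0) (hv : b = 0 → v = 0)
    (huv : Real.sinh b * u = -(Real.sinh a * v)) : B * (kd a * u) + A * (kd b * v) = 0 := by
  rcases eq_or_lt_of_le ha with ha0 | ha0
  · rw [hu ha0.symm]
    have h1 : A * b = 0 := by rw [hAB, ← ha0, mul_zero]
    rcases mul_eq_zero.mp h1 with h2 | h2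
    · rw [h2]; ring
    · rw [hv h2]; ring
  · rcases eq_or_lt_of_le hb with hb0 | hb0
    · rw [hv hb0.symm]
      have h1 : B * a = 0 := by rw [← hAB, ← hb0, mul_zero]
      rcases mul_eq_zero.mp h1 with h2 | h2
      · rw [h2]; ring
      · exact absurd h2 ha0.ne'
    · have hsa : Real.sinh a ≠ 0 := (Real.sinh_pos_iff.mpr ha0).ne'
      have hsb : Real.sinh b ≠ 0 := (Real.sinh_pos_iff.mpr hb0).ne'
      unfold kd
      rw [if_neg ha0.ne', if_neg hb0.ne']
      have h1 : B * (a / Real.sinh a * u) + A * (b / Real.sinh b * v) =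
          (B * a * (Real.sinh b * u) + A * b * (Real.sinh a * v)) /
            (Real.sinh a * Real.sinh b) := by
        field_simp
      rw [h1, hAB, huv]
      ring

theorem between_lg {x m y : Blk} (h : dist x m + dist m y = dist x y) :
    dist m y • lg m x + dist m x • lg m y = 0 := by
  have hA := Blk.dist_sq m x
  have hB := Blk.dist_sq m y
  have hD := Blk.dist_sq x y
  have hc : dist x.h y.h ≤ dist m.h x.h + dist m.h y.h := by
    rw [dist_comm m.h x.h]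
    exact dist_triangle _ _ _
  rw [← h, dist_comm x m] at hD
  obtain ⟨h1, h2, h3⟩ := BTW_alg (a := dist m.h x.h) (b := dist m.h y.h) (c := dist x.h y.h)
    (p := m.v - x.v) (q := y.v - m.v) (A := dist m x) (B := dist m y) dist_nonneg dist_nonneg
    dist_nonneg hc hA (by rw [hB]; ring) dist_nonneg dist_nonneg (by rw [hD]; ring)
  have hcx := Hyp.cosh_dist m.h x.h
  have hcy := Hyp.cosh_dist m.h y.h
  have hcxy := Hyp.cosh_dist x.h y.h
  rw [h1, Real.cosh_add, hcx, hcy] at hcxy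
  have hsx : Real.sinh (dist m.h x.h) ^ 2 = Hyp.cc m.h x.h ^ 2 - 1 := by
    rw [← hcx, Real.cosh_sq]; ring
  have hsy : Real.sinh (dist m.h y.h) ^ 2 = Hyp.cc m.h y.h ^ 2 - 1 := by
    rw [← hcy, Real.cosh_sq]; ring
  have hm := Hyp.c1c2_mul m.h x.h y.h
  have hqx := Hyp.c1c2_sq m.h x.h
  have hqy := Hyp.c1c2_sq m.h y.h
  rw [← hsx] at hqx
  rw [← hsy] at hqy
  have hin : Hyp.c1 m.h x.h * Hyp.c1 m.h y.h + Hyp.c2 m.h x.h * Hyp.c2 m.h y.h =
      -(Real.sinh (dist m.h x.h) * Real.sinh (dist m.h y.h)) := by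
    rw [hm]; linarith
  obtain ⟨sa, hsa⟩ : ∃ sa, sa = Real.sinh (dist m.h x.h) := ⟨_, rfl⟩
  obtain ⟨sb, hsb⟩ : ∃ sb, sb = Real.sinh (dist m.h y.h) := ⟨_, rfl⟩
  rw [← hsa, ← hsb] at hin
  rw [← hsa] at hqx
  rw [← hsb] at hqy
  have hz : (sb * Hyp.c1 m.h x.h + sa * Hyp.c1 m.h y.h) ^ 2 +
      (sb * Hyp.c2 m.h x.h + sa * Hyp.c2 m.h y.h) ^ 2 = 0 := by
    linear_combination sb ^ 2 * hqx + sa ^ 2 * hqy + 2 * sa * sb * hin
  obtain ⟨hz1, hz2⟩ := BTW_sq0 hz
  have hx0 : dist m.h x.h = 0 → Hyp.c1 m.h x.h = 0 ∧ Hyp.c2 m.h x.h = 0 := by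
    intro h0
    rw [hsa, h0, Real.sinh_zero] at hqx
    exact BTW_sq0 (by rw [hqx]; norm_num)
  have hy0 : dist m.h y.h = 0 → Hyp.c1 m.h y.h = 0 ∧ Hyp.c2 m.h y.h = 0 := by
    intro h0
    rw [hsb, h0, Real.sinh_zero] at hqy
    exact BTW_sq0 (by rw [hqy]; norm_num)
  rw [hsa, hsb] at hz1 hz2
  have f0 : dist m y * (kd (dist m.h x.h) * Hyp.c1 m.h x.h) +
      dist m x * (kd (dist m.h y.h) * Hyp.c1 m.h y.h) = 0 :=
    BTW_comp dist_nonneg dist_nonneg h2 (fun h0 => (hx0 h0).1) (fun h0 => (hy0 h0).1)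
      (by linarith)
  have f1 : dist m y * (kd (dist m.h x.h) * Hyp.c2 m.h x.h) +
      dist m x * (kd (dist m.h y.h) * Hyp.c2 m.h y.h) = 0 :=
    BTW_comp dist_nonneg dist_nonneg h2 (fun h0 => (hx0 h0).2) (fun h0 => (hy0 h0).2)
      (by linarith)
  have f2 : dist m y * (x.v - m.v) + dist m x * (y.v - m.v) = 0 := by
    linarith
  ext i
  fin_cases i
  · simpa [lg] using f0
  · simpa [lg] using f1
  · simpa [lg] using f2

/-- Geodesics of the block are unique: the point at ratio t between m and b. -/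
theorem between_eq {m b z : Blk} {t : ℝ} (ht : 0 ≤ t) (ht1 : t ≤ 1)
    (h1 : dist m z = t * dist m b) (h2 : dist z b = (1 - t) * dist m b) :
    z = ex m (t • lg m b) := by
  have hu : ‖lg m z‖ = t * dist m b := by rw [norm_lg, h1]
  have hv : ‖lg m b‖ = dist m b := norm_lg m b
  have hw : ‖lg m z - lg m b‖ ≤ (1 - t) * dist m b := (hinge m z b).trans h2.le
  have hD : 0 ≤ dist m b := dist_nonneg
  have e1 : ‖lg m z - lg m b‖ ^ 2 = ‖lg m z‖ ^ 2 - 2 * inner ℝ (lg m z) (lg m b) +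
      ‖lg m b‖ ^ 2 := norm_sub_sq_real _ _
  have e2 : ‖lg m z - lg m b‖ ^ 2 ≤ ((1 - t) * dist m b) ^ 2 :=
    pow_le_pow_left₀ (norm_nonneg _) hw 2
  rw [e1, hu, hv] at e2
  have e3 : t * dist m b ^ 2 ≤ inner ℝ (lg m z) (lg m b) := by nlinarith
  have e4 : ‖lg m z - t • lg m b‖ ^ 2 = ‖lg m z‖ ^ 2 - 2 * inner ℝ (lg m z) (t • lg m b) +
      ‖t • lg m b‖ ^ 2 := norm_sub_sq_real _ _
  rw [inner_smul_right, norm_smul, hu, hv, Real.norm_of_nonneg ht] at e4
  have e5 : ‖lg m z - t • lg m b‖ ^ 2 ≤ 0 := by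
    rw [e4]
    have := mul_le_mul_of_nonneg_left e3 ht
    nlinarith
  have e6 : ‖lg m z - t • lg m b‖ = 0 := by
    have := sq_nonneg ‖lg m z - t • lg m b‖
    exact pow_eq_zero_iff (two_ne_zero) |>.mp (le_antisymm e5 this)
  have e7 : lg m z = t • lg m b := sub_eq_zero.mp (norm_eq_zero.mp e6)
  rw [← e7, ex_lg]

end Pool.CBD
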