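import Pool.Agent.CBD.CGP

/-!
# CBD module CBA: the charts behind a wall, basic properties

`Beh0 d`: the word of d ends with the letter a0, that is, the way from the base block to the block of d
begins by crossing the base wall.  `Beh c d`: the block of d is behind the base wall of the chart c.

PROOFS.  By definition Beh (g c) (g d) ↔ Beh c d for g in GG (`beh_map`; gof (g c) = g * gof c), so
everything can be checked for c = base, where Beh base d ↔ Beh0 d (gof base = 1).
`not_beh_mul`: base.mul k has the empty word.  `beh_flip`: base.flip has the word [a0] (r a0 = 1,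
the base chart has k = 1, so k a0 = a0 and the word is empty: second case of flip).
`beh_mul_right`: the word does not change.
`beh_flip_right`: for c = base: let d = ⟨w, k⟩.  If d.flip is the tail: w = a :: l: both words end with the
same letter unless l = [], and then w = [a] with k a0 = a0, d.flip = ⟨[], ..⟩; Beh0 d.flip is false, so
Beh0 d is true and a = a0; then d = ⟨[a0], k⟩ = base.flip.mul k (base.flip = ⟨[a0], 1⟩ since
sg ((r a0)⁻¹ 1) = 1) and k a0 = a0.  If d.flip = ⟨k a0 :: w, ..⟩: same last letter unless w = [];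
then Beh0 d is false so Beh0 d.flip is true, k a0 = a0 and d = base.mul k.
-/

namespace Pool.CBD

open Real Set

variable {K N : Type} [Group K] [MulAction K N] {D : Dat K N}

def Beh0 (d : Ch D) : Prop := ∃ l, d.w = l ++ [D.a0]

/-- The block of the chart d is behind the base wall of the chart c. -/
def Beh (c d : Ch D) : Prop := Beh0 ((gof c)⁻¹.1 d)

private lemma gof_inv_self (c : Ch D) : (gof c)⁻¹.1 c = Ch.base D := by
  change (gof c).1.symm c = Ch.base D
  rw [Equiv.symm_apply_eq, gof_base]

private lemma gof_inv_app (c d : Ch D) : (gof c).1 ((gof c)⁻¹.1 d) = d := by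
  change (gof c).1 ((gof c).1.symm d) = d
  rw [Equiv.apply_symm_apply]

private lemma beh0_iff (d : Ch D) : Beh0 d ↔ d.w.getLast? = some D.a0 := by
  rw [List.getLast?_eq_some_iff]
  rfl

theorem beh_map (g : GG D) (c d : Ch D) : Beh (g.1 c) (g.1 d) ↔ Beh c d := by
  have h1 : gof (g.1 c) = g * gof c := by
    apply GG.ext_at (c := Ch.base D)
    rw [gof_base]
    change g.1 c = g.1 ((gof c).1 (Ch.base D))
    rw [gof_base]
  have h2 : (gof (g.1 c))⁻¹.1 (g.1 d) = (gof c)⁻¹.1 d := by
    rw [h1, mul_inv_rev]
    change (gof c)⁻¹.1 (g.1.symm (g.1 d)) = (gof c)⁻¹.1 d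
    rw [Equiv.symm_apply_apply]
  unfold Beh
  rw [h2]

theorem not_beh_mul (c : Ch D) (k : K) : ¬ Beh c (c.mul k) := by
  unfold Beh
  rw [(gof c)⁻¹.2.1, gof_inv_self, beh0_iff]
  intro h
  have h1 : ([] : List N).getLast? = some D.a0 := h
  simp at h1

private lemma base_neg : ¬ ((Ch.base D).k • D.a0 = D.a0 ∧ (Ch.base D).w ≠ []) := by
  rintro ⟨-, h⟩
  exact h rfl

private lemma base_flip_w : (Ch.base D).flip.w = [D.a0] := by
  rw [Ch.flip_of_neg base_neg]
  change [(1 : K) • D.a0] = [D.a0]
  rw [one_smul]

private lemma base_flip_k : (Ch.base D).flip.k = 1 := by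
  rw [Ch.flip_of_neg base_neg]
  change D.sg ((D.r ((1 : K) • D.a0))⁻¹ * 1) = 1
  rw [one_smul, D.r_a0, inv_one, mul_one, D.sg_one]

theorem beh_flip (c : Ch D) : Beh c c.flip := by
  unfold Beh
  rw [(gof c)⁻¹.2.2, gof_inv_self, beh0_iff, base_flip_w]
  rfl

theorem beh_mul_right (c d : Ch D) (k : K) : Beh c (d.mul k) ↔ Beh c d := by
  unfold Beh
  rw [(gof c)⁻¹.2.1, beh0_iff, beh0_iff, Ch.mul_w]

private lemma beh0_flip (d : Ch D) (h : ¬ (Beh0 d.flip ↔ Beh0 d)) :
    ∃ k : K, k • D.a0 = D.a0 ∧ (d = (Ch.base D).mul k ∨ d = (Ch.base D).flip.mul k) := by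
  rw [beh0_iff, beh0_iff] at h
  by_cases hp : d.k • D.a0 = D.a0 ∧ d.w ≠ []
  · obtain ⟨h1, h2⟩ := hp
    rw [Ch.flip_of_pos h1 h2] at h
    obtain ⟨w, k, ok⟩ := d
    refine ⟨k, h1, Or.inr ?_⟩
    match w, ok, h2, h with
    | [a], ok, h2, h =>
      have h3 : a = D.a0 := by
        by_contra hne
        apply h
        constructor
        · intro h4
          have h5 : ([] : List N).getLast? = some D.a0 := h4
          simp at h5
        · intro h4
          have h5 : some a = some D.a0 := h4
          exact absurd (Option.some.inj h5) hne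
      subst h3
      ext1
      · rw [Ch.mul_w, base_flip_w]
      · rw [Ch.mul_k, base_flip_k, one_mul]
    | a :: b :: l, ok, h2, h =>
      exfalso
      apply h
      change (b :: l).getLast? = some D.a0 ↔ (a :: b :: l).getLast? = some D.a0
      rw [List.getLast?_cons_cons]
  · rw [Ch.flip_of_neg hp] at h
    obtain ⟨w, k, ok⟩ := d
    match w, ok, hp, h with
    | [], ok, hp, h =>
      have h3 : k • D.a0 = D.a0 := by
        by_contra hne
        apply h
        constructor
        · intro h4
          have h5 : some (k • D.a0) = some D.a0 := h4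
          exact absurd (Option.some.inj h5) hne
        · intro h4
          have h5 : ([] : List N).getLast? = some D.a0 := h4
          simp at h5
      refine ⟨k, h3, Or.inl ?_⟩
      ext1
      · rfl
      · change k = 1 * k
        rw [one_mul]
    | b :: l, ok, hp, h =>
      exfalso
      apply h
      change (k • D.a0 :: b :: l).getLast? = some D.a0 ↔ (b :: l).getLast? = some D.a0
      rw [List.getLast?_cons_cons]

theorem beh_flip_right {c d : Ch D} (h : ¬ (Beh c d.flip ↔ Beh c d)) :
    ∃ k : K, k • D.a0 = D.a0 ∧ (d = c.mul k ∨ d = c.flip.mul k) := by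
  unfold Beh at h
  rw [(gof c)⁻¹.2.2] at h
  obtain ⟨k, hk, h1⟩ := beh0_flip _ h
  refine ⟨k, hk, ?_⟩
  rcases h1 with h1 | h1
  · left
    rw [← gof_inv_app c d, h1, (gof c).2.1, gof_base]
  · right
    rw [← gof_inv_app c d, h1, (gof c).2.1, (gof c).2.2, gof_base]

end Pool.CBD
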