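import Pool.Agent.CBD.CBA

/-!
# CBD module CBH: the charts behind a wall, the tree structure

PROOFS.  All by `Ch.conn` (a property of d which holds at one chart and is stable under the right action
and flip holds everywhere), using only the properties of module CBA.
`beh_flip_left`: property (Beh c.flip d ↔ ¬ Beh c d).  At d = c: Beh c.flip c (as c = c.flip.flip,
`beh_flip`), ¬ Beh c c.  Stable under the right action.  Under flip: if both `Beh c d.flip ↔ Beh c d` and
`Beh c.flip d.flip ↔ Beh c.flip d` hold, fine.  Otherwise d = c.mul k or c.flip.mul k with k a0 = a0 (note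
c.flip.flip = c), then d.flip = c.flip.mul (sg k) or c.mul (sg k), and both sides are known from
`beh_flip`, `not_beh_mul`, `beh_mul_right`.
`beh_mul_left`: same method: property (Beh (c.mul k) d ↔ Beh c d), start at d = c; the exceptional
charts for c.mul k and for c are the same ((c.mul k).flip = c.flip.mul (sg k)).
`tri`: property ((∃ k, d = c.mul k) ∨ ∃ k, Beh (c.mul k) d).  Flip: if d = c.mul k then d.flip is behind
c.mul k.  If Beh (c.mul k) d and not Beh (c.mul k) d.flip, then by `beh_flip_right` d = (c.mul k).flip.mul j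
(the other case contradicts not_beh_mul), and d.flip = c.mul (k * sg j).
`beh_unique`: property (∀ k k', Beh (c.mul k) d → Beh (c.mul k') d → k a0 = k' a0), start at d = c
(vacuous).  Flip: assume it for d and Beh (c.mul k) d.flip, Beh (c.mul k') d.flip.  If both hold for d,
done.  If not Beh (c.mul k) d: `beh_flip_right` gives d = (c.mul k).mul j, j a0 = a0 (the other case gives
Beh (c.mul k) d).  So d is in the block of c, not Beh (c.mul k') d, so also d = (c.mul k').mul j', hence
k j = k' j' and k a0 = k' a0.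
`Ch.ind`: write d = ⟨w, k⟩, induction on w.  w = []: d = base.mul k.  w = a :: l: d1 = ⟨a :: l, 1⟩ =
(⟨l, r a⟩).flip (`Ch.cons_eq_flip`), d = d1.mul k, d1.flip = ⟨l, r a⟩ has P by induction, and Beh d1 base,
that is (beh_flip_left) ¬ Beh ⟨l, r a⟩ base: prove by induction on l that Beh ⟨a :: l, 1⟩ base for every
valid a :: l: if l = [] then ⟨[], r a⟩ = base.mul (r a) and ¬ Beh (base.mul (r a)) base by not_beh_mul;
if l = b :: l', Beh ⟨l, 1⟩ base by induction, and if Beh (⟨l, 1⟩.mul (r a)) base then `beh_unique` gives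
a0 = r a • a0 = a, contradicting validity.
-/

namespace Pool.CBD

open Real Set

variable {K N : Type} [Group K] [MulAction K N] {D : Dat K N}

private lemma f1 (c : Ch D) (k : K) : Beh c.flip (c.mul k) := by
  rw [beh_mul_right]
  have h := beh_flip c.flip
  rwa [Ch.flip_flip] at h

private lemma f3 (c : Ch D) (k : K) : ¬ Beh c.flip (c.flip.mul k) := not_beh_mul c.flip k

private lemma f4 (c : Ch D) (k : K) : Beh c (c.flip.mul k) := by
  rw [beh_mul_right]
  exact beh_flip c

private lemma g1 (c : Ch D) (k j : K) : ¬ Beh (c.mul k) (c.mul j) := by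
  have h : c.mul j = (c.mul k).mul (k⁻¹ * j) := by
    rw [Ch.mul_mul, mul_inv_cancel_left]
  rw [h]
  exact not_beh_mul _ _

private lemma g0 (c : Ch D) (k : K) : ¬ Beh (c.mul k) c := by
  have h := g1 c k 1
  rwa [Ch.mul_one] at h

private lemma g2 (c : Ch D) {k : K} (hk : k • D.a0 = D.a0) (j : K) :
    Beh (c.mul k) (c.flip.mul j) := by
  have h : c.flip.mul j = (c.mul k).flip.mul ((D.sg k)⁻¹ * j) := by
    rw [Ch.flip_mul c hk, Ch.mul_mul, mul_inv_cancel_left]
  rw [h]
  exact f4 _ _

theorem beh_flip_left (c d : Ch D) : Beh c.flip d ↔ ¬ Beh c d := by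
  refine Ch.conn (c0 := c) {d : Ch D | Beh c.flip d ↔ ¬ Beh c d} ?_ ?_ ?_ d
  · change Beh c.flip c ↔ ¬ Beh c c
    have h1 := f1 c 1
    have h2 := not_beh_mul c 1
    rw [Ch.mul_one] at h1 h2
    exact ⟨fun _ => h2, fun _ => h1⟩
  · intro d hd k
    change Beh c.flip (d.mul k) ↔ ¬ Beh c (d.mul k)
    rw [beh_mul_right, beh_mul_right]
    exact hd
  · intro d hd
    change Beh c.flip d ↔ ¬ Beh c d at hd
    change Beh c.flip d.flip ↔ ¬ Beh c d.flip
    have main : ∀ k : K, k • D.a0 = D.a0 → (d = c.mul k ∨ d = c.flip.mul k) →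
        (Beh c.flip d.flip ↔ ¬ Beh c d.flip) := by
      intro k hk h
      rcases h with rfl | rfl
      · rw [Ch.flip_mul c hk]
        exact ⟨fun h => absurd h (f3 c _), fun h => absurd (f4 c _) h⟩
      · rw [Ch.flip_mul _ hk, Ch.flip_flip]
        exact ⟨fun _ => not_beh_mul c _, fun _ => f1 c _⟩
    by_cases hA : Beh c d.flip ↔ Beh c d
    · by_cases hB : Beh c.flip d.flip ↔ Beh c.flip d
      · rw [hA, hB]
        exact hd
      · obtain ⟨k, hk, h⟩ := beh_flip_right hB
        rw [Ch.flip_flip] at h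
        exact main k hk h.symm
    · obtain ⟨k, hk, h⟩ := beh_flip_right hA
      exact main k hk h

theorem beh_mul_left (c d : Ch D) {k : K} (hk : k • D.a0 = D.a0) :
    Beh (c.mul k) d ↔ Beh c d := by
  refine Ch.conn (c0 := c) {d : Ch D | Beh (c.mul k) d ↔ Beh c d} ?_ ?_ ?_ d
  · change Beh (c.mul k) c ↔ Beh c c
    have h2 := not_beh_mul c 1
    rw [Ch.mul_one] at h2
    exact ⟨fun h => absurd h (g0 c k), fun h => absurd h h2⟩
  · intro d hd j
    change Beh (c.mul k) (d.mul j) ↔ Beh c (d.mul j)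
    rw [beh_mul_right, beh_mul_right]
    exact hd
  · intro d hd
    change Beh (c.mul k) d ↔ Beh c d at hd
    change Beh (c.mul k) d.flip ↔ Beh c d.flip
    have main : ∀ j : K, j • D.a0 = D.a0 → (d = c.mul j ∨ d = c.flip.mul j) →
        (Beh (c.mul k) d.flip ↔ Beh c d.flip) := by
      intro j hj h
      rcases h with rfl | rfl
      · rw [Ch.flip_mul c hj]
        exact ⟨fun _ => f4 c _, fun _ => g2 c hk _⟩
      · rw [Ch.flip_mul _ hj, Ch.flip_flip]
        exact ⟨fun h => absurd h (g1 c k _), fun h => absurd h (not_beh_mul c _)⟩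
    by_cases hA : Beh c d.flip ↔ Beh c d
    · by_cases hB : Beh (c.mul k) d.flip ↔ Beh (c.mul k) d
      · rw [hA, hB]
        exact hd
      · obtain ⟨j, hj, h⟩ := beh_flip_right hB
        rw [Ch.flip_mul c hk, Ch.mul_mul, Ch.mul_mul] at h
        rcases h with h | h
        · exact main (k * j) (by rw [mul_smul, hj, hk]) (Or.inl h)
        · exact main (D.sg k * j) (by rw [mul_smul, hj, D.sg_mem k hk]) (Or.inr h)
    · obtain ⟨j, hj, h⟩ := beh_flip_right hA
      exact main j hj h

theorem tri (c d : Ch D) : (∃ k, d = c.mul k) ∨ ∃ k, Beh (c.mul k) d := by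
  refine Ch.conn (c0 := c) {d : Ch D | (∃ k, d = c.mul k) ∨ ∃ k, Beh (c.mul k) d} ?_ ?_ ?_ d
  · exact Or.inl ⟨1, (Ch.mul_one c).symm⟩
  · rintro d (⟨k, rfl⟩ | ⟨k, hk⟩) j
    · exact Or.inl ⟨k * j, Ch.mul_mul _ _ _⟩
    · exact Or.inr ⟨k, (beh_mul_right _ _ _).2 hk⟩
  · rintro d (⟨k, rfl⟩ | ⟨k, hk⟩)
    · exact Or.inr ⟨k, beh_flip _⟩
    · by_cases h : Beh (c.mul k) d.flip
      · exact Or.inr ⟨k, h⟩
      · obtain ⟨j, hj, h1⟩ := beh_flip_right (c := c.mul k) (d := d) (fun e => h (e.2 hk))
        rcases h1 with rfl | rfl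
        · exact absurd hk (not_beh_mul _ _)
        · refine Or.inl ⟨k * D.sg j, ?_⟩
          rw [Ch.flip_mul _ hj, Ch.flip_flip, Ch.mul_mul]

theorem beh_unique {c d : Ch D} {k k' : K} (h : Beh (c.mul k) d) (h' : Beh (c.mul k') d) :
    k • D.a0 = k' • D.a0 := by
  have key : ∀ d : Ch D, ∀ k k' : K, Beh (c.mul k) d → Beh (c.mul k') d →
      k • D.a0 = k' • D.a0 := by
    intro d
    refine Ch.conn (c0 := c) {d : Ch D | ∀ k k' : K, Beh (c.mul k) d → Beh (c.mul k') d →
      k • D.a0 = k' • D.a0} ?_ ?_ ?_ d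
    · intro k k' h _
      exact absurd h (g0 c k)
    · intro d hd j k k' h h'
      exact hd k k' ((beh_mul_right _ _ _).1 h) ((beh_mul_right _ _ _).1 h')
    · intro d hd
      -- if a wall of c loses d then d is in the block of c
      have lose : ∀ k : K, Beh (c.mul k) d.flip → ¬ Beh (c.mul k) d →
          ∃ j : K, j • D.a0 = D.a0 ∧ d = c.mul (k * j) := by
        intro k h1 h2
        obtain ⟨j, hj, h3⟩ := beh_flip_right (c := c.mul k) (d := d) (fun e => h2 (e.1 h1))
        rcases h3 with h3 | h3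
        · exact ⟨j, hj, by rw [h3, Ch.mul_mul]⟩
        · rw [h3] at h2
          exact absurd (f4 _ _) h2
      have both : ∀ k k' : K, Beh (c.mul k) d.flip → Beh (c.mul k') d.flip →
          ¬ Beh (c.mul k) d → k • D.a0 = k' • D.a0 := by
        intro k k' h h' h1
        obtain ⟨j, hj, h2⟩ := lose k h h1
        have h3 : ¬ Beh (c.mul k') d := by
          rw [h2]
          exact g1 _ _ _
        obtain ⟨j', hj', h4⟩ := lose k' h' h3
        rw [h2] at h4
        have h5 : c.k * (k * j) = c.k * (k' * j') := congrArg Ch.k h4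
        have h6 : k * j = k' * j' := mul_left_cancel h5
        calc k • D.a0 = (k * j) • D.a0 := by rw [mul_smul, hj]
          _ = (k' * j') • D.a0 := by rw [h6]
          _ = k' • D.a0 := by rw [mul_smul, hj']
      intro k k' h h'
      by_cases h1 : Beh (c.mul k) d
      · by_cases h2 : Beh (c.mul k') d
        · exact hd k k' h1 h2
        · exact (both k' k h' h h2).symm
      · exact both k k' h h' h1
  exact key d k k' h h'

theorem beh_cons {a : N} {l : List N} (h : Valid D.a0 (a :: l)) :
    Beh (⟨a :: l, 1, h⟩ : Ch D) (Ch.base D) := by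
  induction l generalizing a with
  | nil =>
    rw [Ch.cons_eq_flip h, beh_flip_left]
    have e : (⟨[], D.r a, h.tail⟩ : Ch D) = (Ch.base D).mul (D.r a) := by
      ext1
      · rfl
      · change D.r a = 1 * D.r a
        rw [one_mul]
    rw [e]
    exact g0 _ _
  | cons b l ih =>
    rw [Ch.cons_eq_flip h, beh_flip_left]
    intro hc
    have ok : Valid D.a0 (b :: l) := h.2
    have h1 := ih ok
    have e : (⟨b :: l, D.r a, h.tail⟩ : Ch D) = (⟨b :: l, 1, ok⟩ : Ch D).mul (D.r a) := by
      ext1
      · rfl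
      · change D.r a = 1 * D.r a
        rw [one_mul]
    rw [e] at hc
    have h2 : Beh ((⟨b :: l, 1, ok⟩ : Ch D).mul 1) (Ch.base D) := by
      rw [Ch.mul_one]
      exact h1
    have h3 := beh_unique hc h2
    rw [D.r_smul, one_smul] at h3
    exact h.1 h3

/-- Induction over the tree of blocks, starting from the base block. -/
theorem Ch.ind (P : Ch D → Prop) (hmul : ∀ c k, P c → P (c.mul k)) (hbase : P (Ch.base D))
    (hstep : ∀ c, Beh c (Ch.base D) → P c.flip → P c) (c : Ch D) : P c := by
  obtain ⟨w, k, ok⟩ := c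
  induction w generalizing k with
  | nil =>
    have h := hmul _ k hbase
    have e : (⟨[], k, ok⟩ : Ch D) = (Ch.base D).mul k := by
      ext1
      · rfl
      · change k = 1 * k
        rw [one_mul]
    rw [e]
    exact h
  | cons a l ih =>
    have h1 : P (⟨a :: l, 1, ok⟩ : Ch D) := by
      refine hstep _ (beh_cons ok) ?_
      rw [Ch.cons_eq_flip ok, Ch.flip_flip]
      exact ih _ _
    have h2 := hmul _ k h1
    have e : (⟨a :: l, k, ok⟩ : Ch D) = (⟨a :: l, 1, ok⟩ : Ch D).mul k := by
      ext1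
      · rfl
      · change k = 1 * k
        rw [one_mul]
    rw [e]
    exact h2

end Pool.CBD
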