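import Pool.Agent.CBD.EXI

/-!
# CBD module LGX: lg and ex are inverse to each other, and lg preserves the distance to m

PROOF.  `lg_ex`: from EXI, dist m.h (exH ..) = r with r = √(w0^2 + w1^2); kd r * (ks r * w0) = w0
since kd r * ks r = 1 for r ≥ 0 (two cases).  `norm_lg`: `norm_sq3`, `c1c2_sq`,
kd d ^ 2 * (cosh^2 d - 1) = d^2 with d = dist m.h b.h, and cosh d = cc (`Hyp.cosh_dist`), and
`Blk.dist_sq`.  `ex_lg`: with v0 = kd d * c1, v1 = kd d * c2 one has v0^2 + v1^2 = d^2, so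
√.. = d (d ≥ 0), and ks d * kd d = 1, so exx = cc * X + c1 * (1 + ..) + c2 * (..) = q.x by `rec_x`,
similarly y; then `Hyp.ext'`.
-/

namespace Pool.CBD

open Real Set

theorem kd_ks (r : ℝ) : kd r * ks r = 1 := by
  unfold kd ks
  by_cases h : r = 0
  · rw [if_pos h, if_pos h, one_mul]
  · rw [if_neg h, if_neg h]
    have hs : Real.sinh r ≠ 0 := fun h' => h (Real.sinh_eq_zero.mp h')
    field_simp

private theorem LGX_kd_sinh (r : ℝ) : kd r * Real.sinh r = r := by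
  unfold kd
  by_cases h : r = 0
  · rw [if_pos h, h]; simp
  · rw [if_neg h]
    have hs : Real.sinh r ≠ 0 := fun h' => h (Real.sinh_eq_zero.mp h')
    field_simp

private theorem LGX_sum (p q : Hyp) : (kd (dist p q) * Hyp.c1 p q) ^ 2 +
    (kd (dist p q) * Hyp.c2 p q) ^ 2 = dist p q ^ 2 := by
  have h1 := Hyp.c1c2_sq p q
  have h2 := LGX_kd_sinh (dist p q)
  have h3 : Hyp.cc p q ^ 2 - 1 = Real.sinh (dist p q) ^ 2 := by
    rw [← Hyp.cosh_dist, Real.sinh_sq]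
  calc (kd (dist p q) * Hyp.c1 p q) ^ 2 + (kd (dist p q) * Hyp.c2 p q) ^ 2
      = kd (dist p q) ^ 2 * (Hyp.c1 p q ^ 2 + Hyp.c2 p q ^ 2) := by ring
    _ = (kd (dist p q) * Real.sinh (dist p q)) ^ 2 := by rw [h1, h3]; ring
    _ = dist p q ^ 2 := by rw [h2]

theorem kd_pos (r : ℝ) : 0 < kd r := by
  unfold kd
  by_cases h : r = 0
  · rw [if_pos h]; exact one_pos
  · rw [if_neg h]
    rcases lt_or_gt_of_ne h with h1 | h1
    · exact div_pos_of_neg_of_neg h1 (Real.sinh_neg_iff.mpr h1)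
    · exact div_pos h1 (Real.sinh_pos_iff.mpr h1)

theorem norm_lg (m b : Blk) : ‖lg m b‖ = dist m b := by
  have h1 : ‖lg m b‖ ^ 2 = dist m b ^ 2 := by
    rw [norm_sq3, Blk.dist_sq, ← LGX_sum m.h b.h]
    have e0 : lg m b 0 = kd (dist m.h b.h) * Hyp.c1 m.h b.h := by simp [lg]
    have e1 : lg m b 1 = kd (dist m.h b.h) * Hyp.c2 m.h b.h := by simp [lg]
    have e2 : lg m b 2 = b.v - m.v := by simp [lg]
    rw [e0, e1, e2]
    ring
  have h2 := norm_nonneg (lg m b)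
  have h3 : 0 ≤ dist m b := dist_nonneg
  exact (pow_left_inj₀ h2 h3 two_ne_zero).mp h1

theorem lg_ex (m : Blk) (w : E3) : lg m (ex m w) = w := by
  have hd : dist m.h (ex m w).h = √(w 0 ^ 2 + w 1 ^ 2) := Hyp.dist_exH m.h (w 0) (w 1)
  have h1 : Hyp.c1 m.h (ex m w).h = ks (√(w 0 ^ 2 + w 1 ^ 2)) * w 0 :=
    Hyp.c1_exH m.h (w 0) (w 1)
  have h2 : Hyp.c2 m.h (ex m w).h = ks (√(w 0 ^ 2 + w 1 ^ 2)) * w 1 :=
    Hyp.c2_exH m.h (w 0) (w 1)
  have hk := kd_ks (√(w 0 ^ 2 + w 1 ^ 2))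
  have e0 : lg m (ex m w) 0 = w 0 := by
    have : lg m (ex m w) 0 = kd (dist m.h (ex m w).h) * Hyp.c1 m.h (ex m w).h := by simp [lg]
    rw [this, hd, h1, ← mul_assoc, hk, one_mul]
  have e1 : lg m (ex m w) 1 = w 1 := by
    have : lg m (ex m w) 1 = kd (dist m.h (ex m w).h) * Hyp.c2 m.h (ex m w).h := by simp [lg]
    rw [this, hd, h2, ← mul_assoc, hk, one_mul]
  have e2 : lg m (ex m w) 2 = w 2 := by
    have : lg m (ex m w) 2 = (ex m w).v - m.v := by simp [lg]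
    rw [this]
    change m.v + w 2 - m.v = w 2
    ring
  ext i
  fin_cases i
  · exact e0
  · exact e1
  · exact e2

theorem ex_lg (m b : Blk) : ex m (lg m b) = b := by
  have e0 : lg m b 0 = kd (dist m.h b.h) * Hyp.c1 m.h b.h := by simp [lg]
  have e1 : lg m b 1 = kd (dist m.h b.h) * Hyp.c2 m.h b.h := by simp [lg]
  have e2 : lg m b 2 = b.v - m.v := by simp [lg]
  have hd : √(lg m b 0 ^ 2 + lg m b 1 ^ 2) = dist m.h b.h := by
    rw [e0, e1, LGX_sum, Real.sqrt_sq dist_nonneg]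
  have hk := kd_ks (dist m.h b.h)
  have hc := Hyp.cosh_dist m.h b.h
  refine Blk.ext (Hyp.ext' ?_ ?_) ?_
  · change Hyp.exx m.h (lg m b 0) (lg m b 1) = b.h.x
    unfold Hyp.exx
    rw [hd, hc, e0, e1]
    have h1 := Hyp.rec_x m.h b.h
    linear_combination (Hyp.c1 m.h b.h * (1 + m.h.x ^ 2 / (1 + m.h.t))
      + Hyp.c2 m.h b.h * (m.h.x * m.h.y / (1 + m.h.t))) * hk - h1
  · change Hyp.exy m.h (lg m b 0) (lg m b 1) = b.h.y
    unfold Hyp.exy
    rw [hd, hc, e0, e1]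
    have h1 := Hyp.rec_y m.h b.h
    linear_combination (Hyp.c1 m.h b.h * (m.h.x * m.h.y / (1 + m.h.t))
      + Hyp.c2 m.h b.h * (1 + m.h.y ^ 2 / (1 + m.h.t))) * hk - h1
  · change m.v + lg m b 2 = b.v
    rw [e2]
    ring

theorem dist_ex (m : Blk) (w : E3) : dist m (ex m w) = ‖w‖ := by
  rw [← norm_lg, lg_ex]

theorem lg_self (m : Blk) : lg m m = 0 := by
  rw [← norm_eq_zero, norm_lg, dist_self]

theorem ex_zero (m : Blk) : ex m 0 = m := by
  have h := ex_lg m m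
  rwa [lg_self] at h

theorem lg_inj {m b b' : Blk} (h : lg m b = lg m b') : b = b' := by
  rw [← ex_lg m b, h, ex_lg]

end Pool.CBD
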