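import Pool.Agent.CBD.TOP
import Pool.Agent.CBD.LGX

/-!
# CBD module CNT: joint continuity of lg and ex

PROOF.  kd is continuous (d / sinh d → 1 as d → 0) and ks is continuous (sinh r / r → 1); both at
0 follow from `Real.hasDerivAt_sinh 0` (slope).  All the components are then built from continuous
functions (module TOP; 1 + p.t > 0 never vanishes); for functions into `E3` use the fact that
`WithLp.toLp 2` is continuous, or `continuous_pi`-type lemmas (`PiLp.continuous_toLp`).
-/

namespace Pool.CBD

open Real Set

private theorem CNT_ks : ks = dslope Real.sinh 0 := by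
  funext r
  unfold ks
  split_ifs with h
  · rw [h, dslope_same, (Real.hasDerivAt_sinh 0).deriv, Real.cosh_zero]
  · rw [dslope_of_ne _ h, slope_def_field, Real.sinh_zero, sub_zero, sub_zero]

private theorem CNT_cks : Continuous ks := by
  rw [CNT_ks, continuous_iff_continuousAt]
  intro r
  by_cases h : r = 0
  · rw [h, continuousAt_dslope_same]
    exact (Real.hasDerivAt_sinh 0).differentiableAt
  · rw [continuousAt_dslope_of_ne h]
    exact Real.continuous_sinh.continuousAt

theorem continuous_kd : Continuous kd := by
  have h : kd = fun r => (ks r)⁻¹ := by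
    funext r
    exact eq_inv_of_mul_eq_one_left (kd_ks r)
  rw [h]
  exact CNT_cks.inv₀ fun r => (Hyp.ks_pos r).ne'

theorem continuous_ks : Continuous ks := CNT_cks

private theorem CNT_c1 : Continuous (fun u : Hyp × Hyp => Hyp.c1 u.1 u.2) := by
  unfold Hyp.c1
  have hx1 : Continuous fun u : Hyp × Hyp => u.1.x := Hyp.continuous_x.comp continuous_fst
  have ht1 : Continuous fun u : Hyp × Hyp => u.1.t := Hyp.continuous_t.comp continuous_fst
  have hx2 : Continuous fun u : Hyp × Hyp => u.2.x := Hyp.continuous_x.comp continuous_snd
  have ht2 : Continuous fun u : Hyp × Hyp => u.2.t := Hyp.continuous_t.comp continuous_snd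
  exact hx2.sub ((hx1.mul (Hyp.continuous_cc.add ht2)).div (continuous_const.add ht1)
    fun u => by have := u.1.pos; positivity)

private theorem CNT_c2 : Continuous (fun u : Hyp × Hyp => Hyp.c2 u.1 u.2) := by
  unfold Hyp.c2
  have hx1 : Continuous fun u : Hyp × Hyp => u.1.y := Hyp.continuous_y.comp continuous_fst
  have ht1 : Continuous fun u : Hyp × Hyp => u.1.t := Hyp.continuous_t.comp continuous_fst
  have hx2 : Continuous fun u : Hyp × Hyp => u.2.y := Hyp.continuous_y.comp continuous_snd
  have ht2 : Continuous fun u : Hyp × Hyp => u.2.t := Hyp.continuous_t.comp continuous_snd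
  exact hx2.sub ((hx1.mul (Hyp.continuous_cc.add ht2)).div (continuous_const.add ht1)
    fun u => by have := u.1.pos; positivity)

theorem continuous_lg : Continuous (fun u : Blk × Blk => lg u.1 u.2) := by
  have hh : Continuous fun u : Blk × Blk => (u.1.h, u.2.h) :=
    (continuous_h.comp continuous_fst).prodMk (continuous_h.comp continuous_snd)
  have h1 := CNT_c1.comp hh
  have h2 := CNT_c2.comp hh
  have hd : Continuous fun u : Blk × Blk => kd (dist u.1.h u.2.h) :=
    continuous_kd.comp ((continuous_h.comp continuous_fst).dist (continuous_h.comp continuous_snd))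
  have hv : Continuous fun u : Blk × Blk => u.2.v - u.1.v :=
    (continuous_v.comp continuous_snd).sub (continuous_v.comp continuous_fst)
  unfold lg
  refine (PiLp.continuous_toLp 2 _).comp (continuous_pi fun i => ?_)
  fin_cases i
  · exact hd.mul h1
  · exact hd.mul h2
  · exact hv

theorem continuous_ex : Continuous (fun u : Blk × E3 => ex u.1 u.2) := by
  have hw : ∀ i, Continuous fun u : Blk × E3 => u.2 i := fun i =>
    (continuous_apply i).comp ((PiLp.continuous_ofLp 2 _).comp continuous_snd)
  have hx : Continuous fun u : Blk × E3 => u.1.h.x :=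
    Hyp.continuous_x.comp (continuous_h.comp continuous_fst)
  have hy : Continuous fun u : Blk × E3 => u.1.h.y :=
    Hyp.continuous_y.comp (continuous_h.comp continuous_fst)
  have ht : Continuous fun u : Blk × E3 => u.1.h.t :=
    Hyp.continuous_t.comp (continuous_h.comp continuous_fst)
  have hv : Continuous fun u : Blk × E3 => u.1.v := continuous_v.comp continuous_fst
  have ht1 : Continuous fun u : Blk × E3 => 1 + u.1.h.t := continuous_const.add ht
  have hne : ∀ u : Blk × E3, 1 + u.1.h.t ≠ 0 := fun u => by
    have := u.1.h.pos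
    positivity
  have hr : Continuous fun u : Blk × E3 => √((u.2 0) ^ 2 + (u.2 1) ^ 2) :=
    (((hw 0).pow 2).add ((hw 1).pow 2)).sqrt
  have hc : Continuous fun u : Blk × E3 => Real.cosh (√((u.2 0) ^ 2 + (u.2 1) ^ 2)) :=
    Real.continuous_cosh.comp hr
  have hk : Continuous fun u : Blk × E3 => ks (√((u.2 0) ^ 2 + (u.2 1) ^ 2)) :=
    continuous_ks.comp hr
  have hexx : Continuous fun u : Blk × E3 => Hyp.exx u.1.h (u.2 0) (u.2 1) := by
    unfold Hyp.exx
    exact (hc.mul hx).add (hk.mul (((hw 0).mul (continuous_const.add ((hx.pow 2).div ht1 hne))).add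
      ((hw 1).mul ((hx.mul hy).div ht1 hne))))
  have hexy : Continuous fun u : Blk × E3 => Hyp.exy u.1.h (u.2 0) (u.2 1) := by
    unfold Hyp.exy
    exact (hc.mul hy).add (hk.mul (((hw 0).mul ((hx.mul hy).div ht1 hne)).add
      ((hw 1).mul (continuous_const.add ((hy.pow 2).div ht1 hne)))))
  have hH : Continuous fun u : Blk × E3 => Hyp.exH u.1.h (u.2 0) (u.2 1) :=
    Hyp.continuous_of.comp (hexx.prodMk hexy)
  exact continuous_mk.comp (hH.prodMk (hv.add (hw 2)))

theorem continuous_wp : Continuous (fun u : ℝ × ℝ => wp u.1 u.2) := by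
  have h1 : Continuous fun u : ℝ × ℝ => Hyp.of (Real.sinh u.1) 0 :=
    Hyp.continuous_of.comp ((Real.continuous_sinh.comp continuous_fst).prodMk continuous_const)
  exact continuous_mk.comp (h1.prodMk continuous_snd)

private theorem CNT_ax : Continuous fun b : Blk => Real.arsinh b.h.x :=
  Real.continuous_arsinh.comp (Hyp.continuous_x.comp continuous_h)

theorem continuous_pr : Continuous pr :=
  continuous_wp.comp (CNT_ax.prodMk continuous_v)

theorem continuous_io (P : Par) : Continuous (io P) :=
  continuous_wp.comp
    (((continuous_const.mul CNT_ax).add (continuous_const.mul continuous_v)).prodMk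
      ((continuous_const.mul CNT_ax).add (continuous_const.mul continuous_v)))

theorem isClosed_W0 : IsClosed W0 :=
  isClosed_eq (Hyp.continuous_y.comp continuous_h) continuous_const

end Pool.CBD
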