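import Pool.Agent.CBD.LGX

/-!
# CBD module WAL: the base wall is a flat plane, the gluing map is an isometry of it

PROOF.  `cc_wp`: cc of the points (sinh s, 0, cosh s) is cosh s cosh s' - sinh s sinh s' =
cosh (s - s') (note that the t-coordinate of `Hyp.of (sinh s) 0` is cosh s).  So the H-distance is
|s - s'|.  `lg_wp`: c1 = sinh s' - sinh s (cosh (s-s') + cosh s')/(1 + cosh s) = sinh (s' - s)
(multiply out: (1 + cosh s) sinh s' - sinh s cosh s' - sinh s cosh (s - s') =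
(1 + cosh s) (sinh s' cosh s - cosh s' sinh s)), c2 = 0, and kd |u| * sinh u = u.
`ex_wp` follows from `lg_wp` and `ex_lg`.  `io`: `io_wp` and the fact that the matrix of io is
orthogonal (`P.sq`).  `lg_one`: for m in W0, p.y = 0, so c2 m.h b.h = b.h.y.
-/

namespace Pool.CBD

open Real Set

private theorem wal_t (s : ℝ) : (Hyp.of (Real.sinh s) 0).t = Real.cosh s := by
  have h1 : (Hyp.of (Real.sinh s) 0).t ^ 2 = Real.cosh s ^ 2 := by
    rw [(Hyp.of (Real.sinh s) 0).h, Real.cosh_sq]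
    change 1 + Real.sinh s ^ 2 + 0 ^ 2 = _
    ring
  exact (pow_left_inj₀ (Hyp.of (Real.sinh s) 0).pos.le (Real.cosh_pos s).le two_ne_zero).mp h1

private theorem wal_cc (s s' : ℝ) :
    Hyp.cc (Hyp.of (Real.sinh s) 0) (Hyp.of (Real.sinh s') 0) = Real.cosh (s' - s) := by
  unfold Hyp.cc
  rw [wal_t, wal_t, Real.cosh_sub]
  change Real.cosh s * Real.cosh s' - Real.sinh s * Real.sinh s' - 0 * 0 = _
  ring

private theorem wal_dist (s s' : ℝ) :
    dist (Hyp.of (Real.sinh s) 0) (Hyp.of (Real.sinh s') 0) = |s' - s| := by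
  rw [Hyp.dist_def, wal_cc, ← Real.cosh_abs, Real.arcosh_cosh (abs_nonneg _)]

private theorem wal_kd (u : ℝ) : kd |u| * Real.sinh u = u := by
  unfold kd
  rcases eq_or_ne u 0 with h | h
  · subst h; simp
  · rw [if_neg (abs_ne_zero.mpr h)]
    have h2 : Real.sinh u ≠ 0 := fun h3 => h (Real.sinh_eq_zero.mp h3)
    rcases abs_cases u with ⟨h1, -⟩ | ⟨h1, -⟩
    · rw [h1, div_mul_cancel₀ _ h2]
    · rw [h1, Real.sinh_neg, neg_div_neg_eq, div_mul_cancel₀ _ h2]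

theorem dist_wp_sq (s v s' v' : ℝ) : dist (wp s v) (wp s' v') ^ 2 = (s - s') ^ 2 + (v - v') ^ 2 := by
  rw [Blk.dist_sq]
  change dist (Hyp.of (Real.sinh s) 0) (Hyp.of (Real.sinh s') 0) ^ 2 + (v - v') ^ 2 = _
  rw [wal_dist, sq_abs]
  ring

theorem lg_wp (s v s' v' : ℝ) : lg (wp s v) (wp s' v') = !₂[s' - s, 0, v' - v] := by
  have h1 : Hyp.c1 (Hyp.of (Real.sinh s) 0) (Hyp.of (Real.sinh s') 0) = Real.sinh (s' - s) := by
    unfold Hyp.c1
    rw [wal_cc, wal_t, wal_t, Real.sinh_sub, Real.cosh_sub]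
    change Real.sinh s' - Real.sinh s * _ / (1 + Real.cosh s) = _
    have hc : (1 + Real.cosh s) ≠ 0 := by have := Real.cosh_pos s; positivity
    field_simp
    have := Real.cosh_sq s
    linear_combination -Real.sinh s' * this
  have h2 : Hyp.c2 (Hyp.of (Real.sinh s) 0) (Hyp.of (Real.sinh s') 0) = 0 := by
    unfold Hyp.c2
    change (0 : ℝ) - 0 * _ / _ = 0
    ring
  unfold lg
  change !₂[kd (dist (Hyp.of (Real.sinh s) 0) (Hyp.of (Real.sinh s') 0)) *
      Hyp.c1 (Hyp.of (Real.sinh s) 0) (Hyp.of (Real.sinh s') 0),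
    kd (dist (Hyp.of (Real.sinh s) 0) (Hyp.of (Real.sinh s') 0)) *
      Hyp.c2 (Hyp.of (Real.sinh s) 0) (Hyp.of (Real.sinh s') 0), v' - v] = _
  rw [h1, h2, wal_dist, wal_kd, mul_zero]

theorem ex_wp (s v a c : ℝ) : ex (wp s v) !₂[a, 0, c] = wp (s + a) (v + c) := by
  have h := ex_lg (wp s v) (wp (s + a) (v + c))
  rw [lg_wp, add_sub_cancel_left, add_sub_cancel_left] at h
  exact h

private theorem wal_w {w : E3} (hw : w 1 = 0) : w = !₂[w 0, 0, w 2] := by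
  ext i
  fin_cases i
  · simp
  · simpa using hw
  · simp

theorem ex_mem_W0 {m : Blk} (hm : m ∈ W0) {w : E3} (hw : w 1 = 0) : ex m w ∈ W0 := by
  obtain ⟨s, v, rfl⟩ := exists_wp hm
  rw [wal_w hw, ex_wp]
  exact wp_mem _ _

theorem lg_mem_W0 {m b : Blk} (hm : m ∈ W0) (hb : b ∈ W0) : lg m b 1 = 0 := by
  obtain ⟨s, v, rfl⟩ := exists_wp hm
  obtain ⟨s', v', rfl⟩ := exists_wp hb
  rw [lg_wp]
  simp

theorem dist_io (P : Par) {b b' : Blk} (hb : b ∈ W0) (hb' : b' ∈ W0) :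
    dist (io P b) (io P b') = dist b b' := by
  obtain ⟨s, v, rfl⟩ := exists_wp hb
  obtain ⟨s', v', rfl⟩ := exists_wp hb'
  have h : dist (io P (wp s v)) (io P (wp s' v')) ^ 2 = dist (wp s v) (wp s' v') ^ 2 := by
    rw [io_wp, io_wp, dist_wp_sq, dist_wp_sq]
    have h := P.sq
    linear_combination ((s - s') ^ 2 + (v - v') ^ 2) * h
  exact (pow_left_inj₀ dist_nonneg dist_nonneg two_ne_zero).mp h

theorem lg_io (P : Par) {b b' : Blk} (hb : b ∈ W0) (hb' : b' ∈ W0) :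
    lg (io P b) (io P b') = RR P (lg b b') := by
  obtain ⟨s, v, rfl⟩ := exists_wp hb
  obtain ⟨s', v', rfl⟩ := exists_wp hb'
  rw [io_wp, io_wp, lg_wp, lg_wp]
  unfold RR
  ext i
  fin_cases i
  · simp; ring
  · simp
  · simp; ring

theorem io_ex (P : Par) {m : Blk} (hm : m ∈ W0) {w : E3} (hw : w 1 = 0) :
    io P (ex m w) = ex (io P m) (RR P w) := by
  obtain ⟨s, v, rfl⟩ := exists_wp hm
  have h1 : RR P w = !₂[-P.si * w 0 + P.co * w 2, 0, P.co * w 0 + P.si * w 2] := by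
    unfold RR
    rw [hw]
  have h2 : ex (wp s v) w = wp (s + w 0) (v + w 2) := by
    conv_lhs => rw [wal_w hw]
    exact ex_wp _ _ _ _
  rw [h1, h2, io_wp, io_wp, ex_wp]
  congr 1
  · ring
  · ring

theorem lg_one {m : Blk} (hm : m ∈ W0) (b : Blk) : lg m b 1 = kd (dist m.h b.h) * b.h.y := by
  have h1 : Hyp.c2 m.h b.h = b.h.y := by
    unfold Hyp.c2
    rw [mem_W0.mp hm]
    ring
  change kd (dist m.h b.h) * Hyp.c2 m.h b.h = _
  rw [h1]

theorem lg_one_pos {m : Blk} (hm : m ∈ W0) {b : Blk} : 0 < lg m b 1 ↔ 0 < b.h.y := by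
  rw [lg_one hm]
  exact mul_pos_iff_of_pos_left (kd_pos _)

theorem lg_one_neg {m : Blk} (hm : m ∈ W0) {b : Blk} : lg m b 1 < 0 ↔ b.h.y < 0 := by
  rw [lg_one hm, ← neg_pos, ← mul_neg, mul_pos_iff_of_pos_left (kd_pos _), neg_pos]

end Pool.CBD
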