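import Pool.Agent.CBD.HGD
import Pool.Agent.CBD.CNT
import Pool.Agent.CBD.WAL

/-!
# CBD module GMN: the glued function and its minimisers

`glu P Psi b` is the infimum over the base wall of dist b w + Psi (io P w).

PROOFS.  `glu_le`: ciInf_le (bounded below by 0).  `glu_min`: w ↦ dist b w + Psi (io P w) is
continuous (Psi is 1-Lipschitz, `continuous_io`), W0 is closed and nonempty, Blk is proper and
the function is ≥ dist b w, so a minimiser over W0 exists (compactness of
W0 ∩ closedBall b R, R = the value at one point of W0, for instance pr b).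
`glu_wall`: for m in W0: take w = m for ≤; for ≥, Psi (io m) ≤ dist (io m) (io w) + Psi (io w)
and dist (io m) (io w) = dist m w (`dist_io` of module WAL; you may import WAL, or use the
Lipschitz property).
`glu_lip`: infimum of 1-Lipschitz functions of b.
-/

namespace Pool.CBD

open Real Set

noncomputable def glu (P : Par) (Psi : Blk → ℝ) (b : Blk) : ℝ :=
  ⨅ w : W0, (dist b (w : Blk) + Psi (io P (w : Blk)))

theorem glu_le (P : Par) {Psi : Blk → ℝ} (h : HGp Psi) (b : Blk) {w : Blk} (hw : w ∈ W0) :
    glu P Psi b ≤ dist b w + Psi (io P w) := by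
  have hb : BddBelow (Set.range (fun w : W0 => dist b (w : Blk) + Psi (io P (w : Blk)))) := by
    refine ⟨0, ?_⟩
    rintro _ ⟨w, rfl⟩
    exact add_nonneg dist_nonneg (h.nonneg _)
  exact ciInf_le hb (⟨w, hw⟩ : W0)

theorem le_glu (P : Par) {Psi : Blk → ℝ} {b : Blk} {c : ℝ}
    (hc : ∀ w ∈ W0, c ≤ dist b w + Psi (io P w)) : c ≤ glu P Psi b := by
  have : Nonempty W0 := ⟨⟨pr b, pr_mem b⟩⟩
  exact le_ciInf (fun w => hc w w.2)

theorem glu_min (P : Par) {Psi : Blk → ℝ} (h : HGp Psi) (b : Blk) :
    ∃ w ∈ W0, glu P Psi b = dist b w + Psi (io P w) := by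
  have hPsi : Continuous Psi := by
    rw [Metric.continuous_iff]
    intro m e he
    refine ⟨e, he, fun a ha => ?_⟩
    rw [Real.dist_eq]
    exact lt_of_le_of_lt (h.lip a m) ha
  have hcont : Continuous (fun w : Blk => dist b w + Psi (io P w)) :=
    (continuous_const.dist continuous_id).add (hPsi.comp (continuous_io P))
  have hK : IsCompact (W0 ∩ Metric.closedBall b (dist b (pr b) + Psi (io P (pr b)))) :=
    (isCompact_closedBall b _).inter_left isClosed_W0
  have hne : (W0 ∩ Metric.closedBall b (dist b (pr b) + Psi (io P (pr b)))).Nonempty := by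
    refine ⟨pr b, pr_mem b, ?_⟩
    rw [Metric.mem_closedBall, dist_comm]
    have := h.nonneg (io P (pr b))
    linarith
  obtain ⟨w, hw, hmin⟩ := hK.exists_isMinOn hne hcont.continuousOn
  refine ⟨w, hw.1, le_antisymm (glu_le P h b hw.1) (le_glu P ?_)⟩
  intro w' hw'
  by_cases hin : w' ∈ Metric.closedBall b (dist b (pr b) + Psi (io P (pr b)))
  · exact hmin ⟨hw', hin⟩
  · have h1 : dist b (pr b) + Psi (io P (pr b)) < dist b w' := by
      rw [Metric.mem_closedBall, not_le, dist_comm w' b] at hin
      exact hin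
    have h2 : dist b w + Psi (io P w) ≤ dist b (pr b) + Psi (io P (pr b)) := by
      refine hmin ⟨pr_mem b, ?_⟩
      rw [Metric.mem_closedBall, dist_comm]
      have := h.nonneg (io P (pr b))
      linarith
    have h3 := h.nonneg (io P w')
    linarith

theorem glu_nonneg (P : Par) {Psi : Blk → ℝ} (h : HGp Psi) (b : Blk) : 0 ≤ glu P Psi b :=
  le_glu P (fun _ _ => add_nonneg dist_nonneg (h.nonneg _))

theorem glu_wall (P : Par) {Psi : Blk → ℝ} (h : HGp Psi) {m : Blk} (hm : m ∈ W0) :
    glu P Psi m = Psi (io P m) := by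
  apply le_antisymm
  · have := glu_le P h m hm
    rwa [dist_self, zero_add] at this
  · apply le_glu
    intro w hw
    have h1 := h.lip (io P m) (io P w)
    rw [dist_io P hm hw] at h1
    have h2 := le_abs_self (Psi (io P m) - Psi (io P w))
    linarith

end Pool.CBD
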