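import Pool.Agent.CBD.HNG

/-!
# CBD module ISO: isometries of the block act on the logarithms by linear isometries

`BIso F` says that F is the product of an isometry of the hyperbolic plane and a vertical
translation.

PROOF of `BIso.lg_map`.  For b, b' the inner product ⟪lg m b, lg m b'⟫ equals
kd a * kd a' * (cosh a * cosh a' - cc b.h b'.h) + (b.v - m.v) (b'.v - m.v), with a = dist m.h b.h,
a' = dist m.h b'.h (by `Hyp.c1c2_mul`), so it only depends on cc between the points m.h, b.h, b'.h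
and on the vertical differences.  Hence ⟪lg (F m) (F b), lg (F m) (F b')⟫ = ⟪lg m b, lg m b'⟫, so
‖lg (F m) (F b) - lg (F m) (F b')‖ = ‖lg m b - lg m b'‖ and the map w ↦ lg (F m) (F (ex m w)) is
distance preserving from E3 to E3, sends 0 to 0, and is surjective (F is surjective, and ex is
inverse to lg).  By Mazur–Ulam (`IsometryEquiv.toRealLinearIsometryEquivOfMapZero`), or because
inner-product preserving surjections are linear, it is a linear isometry equivalence.
-/

namespace Pool.CBD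

open Real Set

def BIso (F : Blk → Blk) : Prop :=
  ∃ f : Hyp → Hyp, ∃ a : ℝ, Function.Surjective f ∧ (∀ p q, Hyp.cc (f p) (f q) = Hyp.cc p q) ∧
    ∀ b, F b = ⟨f b.h, b.v + a⟩

theorem BIso.dist_eq {F : Blk → Blk} (hF : BIso F) (b b' : Blk) : dist (F b) (F b') = dist b b' := by
  obtain ⟨f, a, -, hcc, hFb⟩ := hF
  rw [hFb, hFb, Blk.dist_def, Blk.dist_def, Hyp.dist_def, Hyp.dist_def, hcc]
  congr 2
  ring

theorem BIso.surj {F : Blk → Blk} (hF : BIso F) : Function.Surjective F := by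
  obtain ⟨f, a, hs, -, hFb⟩ := hF
  intro b
  obtain ⟨p, hp⟩ := hs b.h
  refine ⟨⟨p, b.v - a⟩, ?_⟩
  rw [hFb]
  exact Blk.ext hp (by simp)

private theorem ISO_inner (m b b' : Blk) : inner ℝ (lg m b) (lg m b') =
    kd (dist m.h b.h) * kd (dist m.h b'.h) *
      (Hyp.cc m.h b.h * Hyp.cc m.h b'.h - Hyp.cc b.h b'.h) + (b.v - m.v) * (b'.v - m.v) := by
  rw [← Hyp.c1c2_mul]
  simp only [lg, PiLp.inner_apply, Fin.sum_univ_three, RCLike.inner_apply, conj_trivial]
  simp
  ring

private theorem ISO_norm {F : Blk → Blk} (hF : BIso F) (m b b' : Blk) :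
    ‖lg (F m) (F b) - lg (F m) (F b')‖ = ‖lg m b - lg m b'‖ := by
  have h : ‖lg (F m) (F b) - lg (F m) (F b')‖ ^ 2 = ‖lg m b - lg m b'‖ ^ 2 := by
    rw [@norm_sub_sq_real, @norm_sub_sq_real, norm_lg, norm_lg, norm_lg, norm_lg,
      hF.dist_eq, hF.dist_eq]
    congr 2
    congr 1
    rw [ISO_inner, ISO_inner]
    obtain ⟨f, a, -, hcc, hFb⟩ := hF
    rw [hFb m, hFb b, hFb b']
    simp only [Hyp.dist_def, hcc]
    ring
  exact (sq_eq_sq₀ (norm_nonneg _) (norm_nonneg _)).mp h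

theorem BIso.lg_map {F : Blk → Blk} (hF : BIso F) (m : Blk) :
    ∃ A : E3 ≃ₗᵢ[ℝ] E3, (∀ b, lg (F m) (F b) = A (lg m b)) ∧ (∀ w, F (ex m w) = ex (F m) (A w)) ∧
      ∀ w, A w 2 = w 2 := by
  have hiso : Isometry (fun w : E3 => lg (F m) (F (ex m w))) := by
    refine Isometry.of_dist_eq fun w w' => ?_
    rw [dist_eq_norm, ISO_norm hF, lg_ex, lg_ex, dist_eq_norm]
  have hsurj : Function.Surjective (fun w : E3 => lg (F m) (F (ex m w))) := by
    intro z
    obtain ⟨b, hb⟩ := hF.surj (ex (F m) z)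
    refine ⟨lg m b, ?_⟩
    simp only
    rw [ex_lg, hb, lg_ex]
  let e : E3 ≃ᵢ E3 := ⟨Equiv.ofBijective _ ⟨hiso.injective, hsurj⟩, hiso⟩
  have he : ∀ w, e w = lg (F m) (F (ex m w)) := fun w => rfl
  have h0 : e 0 = 0 := by
    rw [he, ex_zero, lg_self]
  refine ⟨e.toRealLinearIsometryEquivOfMapZero h0, fun b => ?_, fun w => ?_, fun w => ?_⟩
  · change _ = e (lg m b)
    rw [he, ex_lg]
  · change _ = ex (F m) (e w)
    rw [he, ex_lg]
  · change (e w) 2 = w 2
    rw [he]
    obtain ⟨f, a, -, hcc, hFb⟩ := hF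
    rw [hFb m, hFb (ex m w)]
    change (m.v + w 2 + a) - (m.v + a) = w 2
    ring

end Pool.CBD
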