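import Pool.Agent.CBD.TOP
import Pool.Agent.CBD.WAL

/-!
# CBD module LIN: lines of the hyperbolic plane disjoint from the base line

A line is given by its unit normal u = (u 0, u 1, u 2), u0^2 + u1^2 - u2^2 = 1, as the set where
`lo u h = u0 x + u1 y - u2 t` vanishes.  The base line is y = 0, and |u1| ≥ 3 says that the line
of u is at distance at least arcosh 3 from it.

PROOFS.  rho^2 := u1^2 - 1 = u2^2 - u0^2 ≥ 8, so |u2| > |u0|.
`lo_sep`: h on the base line (y = 0), h' on the line of u.  For points (x,t), (x',t') with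
t^2 - x^2 = 1, t'^2 - x'^2 = 1 + y'^2 one has cc h h' = t t' - x x' ≥ √(1 + y'^2) (reverse
Cauchy–Schwarz).  From lo u h' = 0: u1^2 y'^2 = (u2 t' - u0 x')^2 ≥ (u2^2 - u0^2)(t'^2 - x'^2)
= (u1^2 - 1)(1 + y'^2), so y'^2 ≥ u1^2 - 1 ≥ 8 and cc ≥ 3.
`lo_side`: u1 y' = u2 t' - u0 x' has the sign of u2 since t' > |x'| and |u2| > |u0|, so all points
y' of the line have the same sign (and y' ≠ 0).
`lo_le`: for h' on the line of u, |lo u h| ≤ sinh (dist h h').  Indeed decompose at h':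
lo u h = cc·lo u h' + c1 h' h * A + c2 h' h * B with A, B = the Lorentz products of u with the
frame vectors f1, f2 at h' and A^2 + B^2 = 1 + (lo u h')^2 = 1; Cauchy–Schwarz and `c1c2_sq`.
(Directly: (lo u h)^2 ≤ cc^2 - 1 is a Gram determinant inequality for the three vectors h, h', u.)
`lo_unbdd`: at the point with coordinates (sinh s, 0, cosh s): lo u = u0 sinh s - u2 cosh s, with
absolute value ≥ (|u2| - |u0|) cosh s which tends to infinity as |s| does.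
-/

namespace Pool.CBD

open Real Set

def lo (u : Fin 3 → ℝ) (h : Hyp) : ℝ := u 0 * h.x + u 1 * h.y - u 2 * h.t

private theorem lin_u {u : Fin 3 → ℝ} (hu : u 0 ^ 2 + u 1 ^ 2 - u 2 ^ 2 = 1) (h3 : 3 ≤ |u 1|) :
    9 ≤ u 1 ^ 2 ∧ u 0 ^ 2 < u 2 ^ 2 := by
  have h9 : 9 ≤ u 1 ^ 2 := by
    rw [← sq_abs (u 1)]
    nlinarith
  exact ⟨h9, by linarith⟩

theorem lo_sep {u : Fin 3 → ℝ} (hu : u 0 ^ 2 + u 1 ^ 2 - u 2 ^ 2 = 1) (h3 : 3 ≤ |u 1|)
    {h h' : Hyp} (hh : h.y = 0) (hh' : lo u h' = 0) : Real.arcosh 3 ≤ dist h h' := by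
  obtain ⟨h9, _⟩ := lin_u hu h3
  have e1 := h.h
  have e2 := h'.h
  rw [hh] at e1
  have e3 : u 1 * h'.y = u 2 * h'.t - u 0 * h'.x := by
    unfold lo at hh'
    linarith
  have hy : 8 ≤ h'.y ^ 2 := by
    have h4 : (u 1 * h'.y) ^ 2 = (u 2 ^ 2 - u 0 ^ 2) * (h'.t ^ 2 - h'.x ^ 2) +
        (u 2 * h'.x - u 0 * h'.t) ^ 2 := by
      rw [e3]; ring
    have h5 : h'.t ^ 2 - h'.x ^ 2 = 1 + h'.y ^ 2 := by linarith
    have h6 : u 2 ^ 2 - u 0 ^ 2 = u 1 ^ 2 - 1 := by linarith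
    rw [h5, h6] at h4
    nlinarith [sq_nonneg (u 2 * h'.x - u 0 * h'.t)]
  have hc1 := Hyp.one_le_cc h h'
  have hc : 3 ≤ Hyp.cc h h' := by
    have h7 : Hyp.cc h h' ^ 2 = (h.t ^ 2 - h.x ^ 2) * (h'.t ^ 2 - h'.x ^ 2) +
        (h.t * h'.x - h'.t * h.x) ^ 2 := by
      unfold Hyp.cc
      rw [hh]
      ring
    have h5 : h'.t ^ 2 - h'.x ^ 2 = 1 + h'.y ^ 2 := by linarith
    have h8 : h.t ^ 2 - h.x ^ 2 = 1 := by linarith
    rw [h5, h8] at h7
    nlinarith [sq_nonneg (h.t * h'.x - h'.t * h.x)]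
  rw [Hyp.dist_def]
  exact (Real.arcosh_le_arcosh (by norm_num) (by linarith)).mpr hc

private theorem lin_pos {a b x t : ℝ} (hb : 0 < b) (hab : a ^ 2 < b ^ 2) (ht : 0 < t)
    (hx : x ^ 2 < t ^ 2) : 0 < b * t - a * x := by
  have h1 : (a * x) ^ 2 < (b * t) ^ 2 := by
    rw [mul_pow, mul_pow]
    have hb2 : 0 < b ^ 2 := by positivity
    have ht2 : 0 < t ^ 2 := by positivity
    nlinarith [sq_nonneg a, sq_nonneg x]
  have h2 := abs_lt_of_sq_lt_sq' h1 (by positivity)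
  linarith [h2.2]

private theorem lin_xt (h : Hyp) : h.x ^ 2 < h.t ^ 2 := by
  have := h.h
  nlinarith [sq_nonneg h.y]

theorem lo_side {u : Fin 3 → ℝ} (hu : u 0 ^ 2 + u 1 ^ 2 - u 2 ^ 2 = 1) (h3 : 3 ≤ |u 1|)
    {h h' : Hyp} (hh : lo u h = 0) (hh' : lo u h' = 0) : 0 < h.y * h'.y := by
  obtain ⟨h9, h02⟩ := lin_u hu h3
  have e3 : u 1 * h'.y = u 2 * h'.t - u 0 * h'.x := by
    unfold lo at hh'
    linarith
  have e4 : u 1 * h.y = u 2 * h.t - u 0 * h.x := by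
    unfold lo at hh
    linarith
  have hprod : 0 < (u 1 * h.y) * (u 1 * h'.y) := by
    rw [e3, e4]
    rcases lt_trichotomy (u 2) 0 with hn | hz | hp
    · have a1 := lin_pos (a := -u 0) (b := -u 2) (by linarith) (by nlinarith) h.pos (lin_xt h)
      have a2 := lin_pos (a := -u 0) (b := -u 2) (by linarith) (by nlinarith) h'.pos (lin_xt h')
      nlinarith
    · exfalso
      rw [hz] at h02
      nlinarith [sq_nonneg (u 0)]
    · have a1 := lin_pos (a := u 0) (b := u 2) hp h02 h.pos (lin_xt h)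
      have a2 := lin_pos (a := u 0) (b := u 2) hp h02 h'.pos (lin_xt h')
      exact mul_pos a1 a2
  have h5 : (u 1 * h.y) * (u 1 * h'.y) = u 1 ^ 2 * (h.y * h'.y) := by ring
  rw [h5] at hprod
  exact (pos_iff_pos_of_mul_pos hprod).mp (by linarith)

theorem lo_le {u : Fin 3 → ℝ} (hu : u 0 ^ 2 + u 1 ^ 2 - u 2 ^ 2 = 1)
    {h h' : Hyp} (hh' : lo u h' = 0) : |lo u h| ≤ Real.sinh (dist h h') := by
  rw [Hyp.sinh_dist]
  apply Real.abs_le_sqrt
  have key : ∀ hx hy ht x y t a b c : ℝ,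
      let A := hx ^ 2 + hy ^ 2 - ht ^ 2
      let B := hx * x + hy * y - ht * t
      let C := a * hx + b * hy - c * ht
      let D := x ^ 2 + y ^ 2 - t ^ 2
      let E := a * x + b * y - c * t
      let F := a ^ 2 + b ^ 2 - c ^ 2
      A * D * F - A * E ^ 2 - B ^ 2 * F + 2 * B * C * E - C ^ 2 * D =
        - (hx * (y * c - t * b) - hy * (x * c - t * a) + ht * (x * b - y * a)) ^ 2 := by
    intros
    ring
  have k := key h.x h.y h.t h'.x h'.y h'.t (u 0) (u 1) (u 2)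
  have hA : h.x ^ 2 + h.y ^ 2 - h.t ^ 2 = -1 := by linarith [h.h]
  have hD : h'.x ^ 2 + h'.y ^ 2 - h'.t ^ 2 = -1 := by linarith [h'.h]
  have hE : u 0 * h'.x + u 1 * h'.y - u 2 * h'.t = 0 := hh'
  simp only [hA, hD, hE, hu] at k
  have hB : Hyp.cc h h' = -(h.x * h'.x + h.y * h'.y - h.t * h'.t) := by
    unfold Hyp.cc; ring
  rw [hB]
  unfold lo
  nlinarith [sq_nonneg (h.x * (h'.y * u 2 - h'.t * u 1) - h.y * (h'.x * u 2 - h'.t * u 0) +
    h.t * (h'.x * u 1 - h'.y * u 0))]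

theorem lo_unbdd {u : Fin 3 → ℝ} (hu : u 0 ^ 2 + u 1 ^ 2 - u 2 ^ 2 = 1) (h3 : 3 ≤ |u 1|) :
    ∃ c : ℝ, 0 < c ∧ ∀ s : ℝ, c * Real.cosh s ≤ |lo u (Hyp.of (Real.sinh s) 0)| := by
  obtain ⟨h9, h02⟩ := lin_u hu h3
  have habs : |u 0| < |u 2| := sq_lt_sq.mp h02
  refine ⟨|u 2| - |u 0|, by linarith, fun s => ?_⟩
  have e : lo u (Hyp.of (Real.sinh s) 0) = u 0 * Real.sinh s - u 2 * Real.cosh s := by
    unfold lo Hyp.of
    have : √(1 + Real.sinh s ^ 2 + 0 ^ 2) = Real.cosh s := by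
      rw [show (1 : ℝ) + Real.sinh s ^ 2 + 0 ^ 2 = Real.cosh s ^ 2 by rw [Real.cosh_sq]; ring]
      exact Real.sqrt_sq (Real.cosh_pos s).le
    simp only [this]
    ring
  rw [e]
  have h1 : |u 2 * Real.cosh s| - |u 0 * Real.sinh s| ≤ |u 2 * Real.cosh s - u 0 * Real.sinh s| :=
    abs_sub_abs_le_abs_sub _ _
  rw [abs_sub_comm] at h1
  rw [abs_mul, abs_mul, abs_of_pos (Real.cosh_pos s)] at h1
  have h2 : |Real.sinh s| ≤ Real.cosh s := by
    apply abs_le_of_sq_le_sq _ (Real.cosh_pos s).le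
    rw [Real.cosh_sq]
    linarith
  nlinarith [abs_nonneg (u 0)]

end Pool.CBD
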