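import Pool.Agent.CBD.EXI

/-!
# CBD module TOP: the topology of the hyperbolic plane and of the block

PROOF.  `continuous_x`: |arsinh p.x - arsinh q.x| ≤ dist p q, because cosh of the left side is
√(1+px^2) √(1+qx^2) - px qx ≤ cc p q (Cauchy–Schwarz for the vectors (√(1+px^2), py) and
(√(1+qx^2), qy)); so arsinh ∘ x is Lipschitz and x = sinh ∘ arsinh ∘ x is continuous.  Same for y;
t = √(1 + x^2 + y^2).
`continuous_of`: dist (of u) (of v) = arcosh (cc ..) and cc is continuous in the coordinates, with
value 1 on the diagonal; to show that `of` is continuous at u: dist (of u') (of u) → 0 as u' → u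
because arcosh is continuous on [1, ∞) (`Real.continuousOn_arcosh`) and cc ≥ 1.
`hypHomeo` is then a homeomorphism.  For the block: b ↦ b.h is 1-Lipschitz (dist_sq), b ↦ b.v too,
and the inverse (h, v) ↦ ⟨h, v⟩ is continuous because dist ≤ dist h h' + |v - v'|.
Proper: the homeomorphism Blk ≃ Hyp x R ≃ R^2 x R sends closed balls to closed bounded sets:
a ball of radius R about b is contained in the set |arsinh x - arsinh b.x| ≤ R etc.
So closed balls are compact.
-/

namespace Pool.CBD

open Real Set

private theorem top_cs {a b c d P Q : ℝ} (hP : P ^ 2 = a ^ 2 + c ^ 2) (hQ : Q ^ 2 = b ^ 2 + d ^ 2)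
    (hP0 : 0 < P) (hQ0 : 0 < Q) : a * b + c * d ≤ P * Q := by
  have h : (a * b + c * d) ^ 2 ≤ (P * Q) ^ 2 := by
    rw [mul_pow, hP, hQ]
    nlinarith [sq_nonneg (a * d - c * b)]
  exact (abs_le_of_sq_le_sq' h (by positivity)).2

private theorem top_abs {u d : ℝ} (hd : 0 ≤ d) (h : Real.cosh u ≤ Real.cosh d) : |u| ≤ d := by
  have := (Real.cosh_le_cosh).mp h
  rwa [abs_of_nonneg hd] at this

namespace Hyp

theorem arsinh_x_le (p q : Hyp) : |Real.arsinh p.x - Real.arsinh q.x| ≤ dist p q := by
  apply top_abs dist_nonneg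
  rw [cosh_dist, Real.cosh_sub, Real.cosh_arsinh, Real.cosh_arsinh, Real.sinh_arsinh,
    Real.sinh_arsinh]
  have h := top_cs (a := √(1 + p.x ^ 2)) (b := √(1 + q.x ^ 2)) (c := p.y) (d := q.y)
    (P := p.t) (Q := q.t) (by rw [Real.sq_sqrt (by positivity), p.h])
    (by rw [Real.sq_sqrt (by positivity), q.h]) p.pos q.pos
  unfold cc
  linarith

theorem arsinh_y_le (p q : Hyp) : |Real.arsinh p.y - Real.arsinh q.y| ≤ dist p q := by
  apply top_abs dist_nonneg
  rw [cosh_dist, Real.cosh_sub, Real.cosh_arsinh, Real.cosh_arsinh, Real.sinh_arsinh,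
    Real.sinh_arsinh]
  have h := top_cs (a := √(1 + p.y ^ 2)) (b := √(1 + q.y ^ 2)) (c := p.x) (d := q.x)
    (P := p.t) (Q := q.t) (by rw [Real.sq_sqrt (by positivity), p.h]; ring)
    (by rw [Real.sq_sqrt (by positivity), q.h]; ring) p.pos q.pos
  unfold cc
  linarith

theorem continuous_x : Continuous (fun p : Hyp => p.x) := by
  have h : Continuous (fun p : Hyp => Real.arsinh p.x) := by
    refine LipschitzWith.continuous (K := 1) (LipschitzWith.of_dist_le_mul fun p q => ?_)
    rw [Real.dist_eq, NNReal.coe_one, one_mul]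
    exact arsinh_x_le p q
  have h2 := Real.continuous_sinh.comp h
  refine h2.congr fun p => ?_
  exact Real.sinh_arsinh _

theorem continuous_y : Continuous (fun p : Hyp => p.y) := by
  have h : Continuous (fun p : Hyp => Real.arsinh p.y) := by
    refine LipschitzWith.continuous (K := 1) (LipschitzWith.of_dist_le_mul fun p q => ?_)
    rw [Real.dist_eq, NNReal.coe_one, one_mul]
    exact arsinh_y_le p q
  have h2 := Real.continuous_sinh.comp h
  refine h2.congr fun p => ?_
  exact Real.sinh_arsinh _

theorem continuous_t : Continuous (fun p : Hyp => p.t) := by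
  have h : (fun p : Hyp => p.t) = fun p => √(1 + p.x ^ 2 + p.y ^ 2) := funext t_eq
  rw [h]
  exact (((continuous_const.add (continuous_x.pow 2)).add (continuous_y.pow 2))).sqrt

theorem continuous_of : Continuous (fun u : ℝ × ℝ => of u.1 u.2) := by
  rw [continuous_iff_continuousAt]
  intro u0
  rw [ContinuousAt, tendsto_iff_dist_tendsto_zero]
  have hcc : Continuous (fun u : ℝ × ℝ => cc (of u.1 u.2) (of u0.1 u0.2)) := by
    unfold cc of
    fun_prop
  have h1 : Filter.Tendsto (fun u : ℝ × ℝ => cc (of u.1 u.2) (of u0.1 u0.2)) (nhds u0)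
      (nhdsWithin 1 (Ici 1)) := by
    rw [tendsto_nhdsWithin_iff]
    refine ⟨?_, Filter.Eventually.of_forall fun u => one_le_cc _ _⟩
    have := hcc.tendsto u0
    rwa [cc_self] at this
  have h2 : Filter.Tendsto Real.arcosh (nhdsWithin 1 (Ici 1)) (nhds 0) := by
    have := Real.continuousOn_arcosh 1 (by simp)
    rwa [ContinuousWithinAt, Real.arcosh_zero] at this
  exact h2.comp h1

theorem continuous_cc : Continuous (fun u : Hyp × Hyp => cc u.1 u.2) := by
  unfold cc
  have hx := continuous_x
  have hy := continuous_y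
  have ht := continuous_t
  exact (((ht.comp continuous_fst).mul (ht.comp continuous_snd)).sub
    ((hx.comp continuous_fst).mul (hx.comp continuous_snd))).sub
    ((hy.comp continuous_fst).mul (hy.comp continuous_snd))

private theorem top_of_eq (p : Hyp) : of p.x p.y = p := ext' rfl rfl

private theorem top_compact (x R : ℝ) : IsCompact {s : ℝ | |Real.arsinh s - x| ≤ R} := by
  have : {s : ℝ | |Real.arsinh s - x| ≤ R} = Icc (Real.sinh (x - R)) (Real.sinh (x + R)) := by
    ext s
    simp only [Set.mem_ofPred_eq, mem_Icc]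
    rw [abs_le]
    constructor
    · rintro ⟨h1, h2⟩
      constructor
      · rw [← Real.arsinh_le_arsinh, Real.arsinh_sinh]; linarith
      · rw [← Real.arsinh_le_arsinh, Real.arsinh_sinh]; linarith
    · rintro ⟨h1, h2⟩
      rw [← Real.arsinh_le_arsinh, Real.arsinh_sinh] at h1
      rw [← Real.arsinh_le_arsinh, Real.arsinh_sinh] at h2
      constructor <;> linarith
  rw [this]
  exact isCompact_Icc

instance : ProperSpace Hyp := by
  refine ⟨fun p R => ?_⟩
  have hK : IsCompact ({s : ℝ | |Real.arsinh s - Real.arsinh p.x| ≤ R} ×ˢ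
      {s : ℝ | |Real.arsinh s - Real.arsinh p.y| ≤ R}) :=
    (top_compact _ _).prod (top_compact _ _)
  have hK2 := hK.image continuous_of
  refine hK2.of_isClosed_subset Metric.isClosed_closedBall ?_
  intro q hq
  rw [Metric.mem_closedBall] at hq
  refine ⟨(q.x, q.y), ⟨?_, ?_⟩, top_of_eq q⟩
  · exact (arsinh_x_le q p).trans hq
  · exact (arsinh_y_le q p).trans hq

end Hyp

theorem continuous_h : Continuous (fun b : Blk => b.h) := by
  refine LipschitzWith.continuous (K := 1) (LipschitzWith.of_dist_le_mul fun b c => ?_)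
  rw [NNReal.coe_one, one_mul, Blk.dist_def]
  exact Real.le_sqrt_of_sq_le (by nlinarith [sq_nonneg (b.v - c.v)])

theorem continuous_v : Continuous (fun b : Blk => b.v) := by
  refine LipschitzWith.continuous (K := 1) (LipschitzWith.of_dist_le_mul fun b c => ?_)
  rw [NNReal.coe_one, one_mul, Blk.dist_def, Real.dist_eq]
  exact Real.abs_le_sqrt (by nlinarith [sq_nonneg (dist b.h c.h)])

theorem continuous_mk : Continuous (fun u : Hyp × ℝ => (⟨u.1, u.2⟩ : Blk)) := by
  rw [continuous_iff_continuousAt]
  intro u0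
  rw [ContinuousAt, tendsto_iff_dist_tendsto_zero]
  have h : Continuous (fun u : Hyp × ℝ => √(dist u.1 u0.1 ^ 2 + (u.2 - u0.2) ^ 2)) := by
    fun_prop
  have h2 := h.tendsto u0
  simp only [dist_self, sub_self] at h2
  have h3 : √((0:ℝ) ^ 2 + 0 ^ 2) = 0 := by simp
  rw [h3] at h2
  exact h2

instance : ProperSpace Blk := by
  refine ⟨fun p R => ?_⟩
  have hK : IsCompact (Metric.closedBall p.h R ×ˢ Metric.closedBall p.v R) :=
    (isCompact_closedBall _ _).prod (isCompact_closedBall _ _)
  have hK2 := hK.image continuous_mk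
  refine hK2.of_isClosed_subset Metric.isClosed_closedBall ?_
  intro q hq
  rw [Metric.mem_closedBall] at hq
  refine ⟨(q.h, q.v), ⟨?_, ?_⟩, rfl⟩
  · refine le_trans ?_ hq
    rw [Blk.dist_def]
    exact Real.le_sqrt_of_sq_le (by nlinarith [sq_nonneg (q.v - p.v)])
  · refine le_trans ?_ hq
    rw [Blk.dist_def]
    change dist q.v p.v ≤ _
    rw [Real.dist_eq]
    exact Real.abs_le_sqrt (by nlinarith [sq_nonneg (dist q.h p.h)])

end Pool.CBD
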