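import Pool.Agent.CBD.WAL
import Pool.Agent.CBD.TOP

/-!
# CBD module PRL: the retraction onto the base wall is 1-Lipschitz

PROOF.  dist (pr b) (pr b')^2 = (arsinh b.x - arsinh b'.x)^2 + (b.v - b'.v)^2 by `dist_wp_sq`, and
|arsinh b.x - arsinh b'.x| ≤ dist b.h b'.h is `Hyp.arsinh_x_le` of module TOP; `Blk.dist_sq`.
-/

namespace Pool.CBD

open Real Set

theorem dist_pr_le (b b' : Blk) : dist (pr b) (pr b') ≤ dist b b' := by
  refine le_of_sq_le_sq' ?_ dist_nonneg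
  unfold pr
  rw [dist_wp_sq, Blk.dist_sq]
  have h1 := Hyp.arsinh_x_le b.h b'.h
  have h2 := pow_le_pow_left₀ (abs_nonneg _) h1 2
  rw [sq_abs] at h2
  linarith
  where
  le_of_sq_le_sq' {x y : ℝ} (h : x ^ 2 ≤ y ^ 2) (hy : 0 ≤ y) : x ≤ y :=
    le_trans (le_abs_self x) (abs_le_of_sq_le_sq h hy)

end Pool.CBD
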