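import Pool.Agent.CBD.HNG

/-!
# CBD module RAY: geodesic lines in the block

PROOF.  `dist_ex_smul`: H-part: for w = (w0, w1, w2), r = √(w0^2+w1^2), the points
exH p (s w0) (s w1) and exH p (t w0) (t w1) have cc = cosh ((s - t) r): by `cc_exH_right` with
q = exH p (s w0) (s w1) and EXI: cc = cosh(|t| r) cosh(|s| r) - ks(|t|r) ks(|s|r) s t r^2
= cosh (t r) cosh (s r) - sinh (t r) sinh (s r) (note ks(|t| r) * (t r) = sinh (t r), also if
t r = 0) = cosh ((t - s) r).  So the H-distance is |s - t| r and by `Blk.dist_sq`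
dist^2 = (s-t)^2 r^2 + (s w2 - t w2)^2 = (s-t)^2 ‖w‖^2.
`ex_mid`: the point at parameter t of the geodesic from m to b.
-/

namespace Pool.CBD

open Real Set

private theorem RAY_ks_mul (x : ℝ) : ks |x| * x = Real.sinh x := by
  unfold ks
  split_ifs with h
  · rw [abs_eq_zero.mp h]
    simp
  · have hx : x ≠ 0 := fun h0 => h (abs_eq_zero.mpr h0)
    rcases abs_choice x with h1 | h1
    · rw [h1]
      field_simp
    · rw [h1, Real.sinh_neg]
      field_simp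

private theorem RAY_H (p : Hyp) (v0 v1 s t : ℝ) :
    dist (Hyp.exH p (s * v0) (s * v1)) (Hyp.exH p (t * v0) (t * v1)) =
      |s - t| * √(v0 ^ 2 + v1 ^ 2) := by
  have hr : 0 ≤ √(v0 ^ 2 + v1 ^ 2) := Real.sqrt_nonneg _
  have hsq : √(v0 ^ 2 + v1 ^ 2) ^ 2 = v0 ^ 2 + v1 ^ 2 := Real.sq_sqrt (by positivity)
  have hn : ∀ a : ℝ, √((a * v0) ^ 2 + (a * v1) ^ 2) = |a * √(v0 ^ 2 + v1 ^ 2)| := by
    intro a
    rw [← Real.sqrt_sq_eq_abs]
    congr 1
    linear_combination (-(a ^ 2)) * hsq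
  have hcc : Hyp.cc (Hyp.exH p (s * v0) (s * v1)) (Hyp.exH p (t * v0) (t * v1)) =
      Real.cosh (|s - t| * √(v0 ^ 2 + v1 ^ 2)) := by
    rw [Hyp.cc_exH_right, Hyp.cc_exH, Hyp.c1_exH, Hyp.c2_exH, hn, hn]
    set r := √(v0 ^ 2 + v1 ^ 2) with hrdef
    have e1 : Real.cosh (|s - t| * r) = Real.cosh (t * r - s * r) := by
      rw [← Real.cosh_abs (t * r - s * r)]
      congr 1
      rw [← sub_mul, abs_mul, abs_of_nonneg hr, abs_sub_comm]
    have e2 : ks |t * r| * (t * v0 * (ks |s * r| * (s * v0)) + t * v1 * (ks |s * r| * (s * v1))) =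
        (ks |t * r| * (t * r)) * (ks |s * r| * (s * r)) := by
      linear_combination (- ks |t * r| * ks |s * r| * t * s) * hsq
    rw [e1, e2, RAY_ks_mul, RAY_ks_mul, Real.cosh_abs, Real.cosh_abs, Real.cosh_sub]
  rw [Hyp.dist_def, hcc, Real.arcosh_cosh (mul_nonneg (abs_nonneg _) hr)]

theorem dist_ex_smul (m : Blk) (w : E3) (s t : ℝ) :
    dist (ex m (s • w)) (ex m (t • w)) = |s - t| * ‖w‖ := by
  have h1 : dist (ex m (s • w)).h (ex m (t • w)).h = |s - t| * √(w 0 ^ 2 + w 1 ^ 2) :=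
    RAY_H m.h (w 0) (w 1) s t
  have h2 : (ex m (s • w)).v - (ex m (t • w)).v = (s - t) * w 2 := by
    change (m.v + s * w 2) - (m.v + t * w 2) = _
    ring
  have h3 : 0 ≤ |s - t| * ‖w‖ := mul_nonneg (abs_nonneg _) (norm_nonneg _)
  rw [Blk.dist_def, h1, h2, ← Real.sqrt_sq h3]
  congr 1
  rw [mul_pow, mul_pow, mul_pow, sq_abs, Real.sq_sqrt (by positivity), norm_sq3]
  ring

theorem dist_left_ex_smul (m b : Blk) {t : ℝ} (ht : 0 ≤ t) :
    dist m (ex m (t • lg m b)) = t * dist m b := by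
  rw [dist_ex, norm_smul, norm_lg, Real.norm_of_nonneg ht]

theorem dist_ex_smul_right (m b : Blk) {t : ℝ} (ht : t ≤ 1) :
    dist (ex m (t • lg m b)) b = (1 - t) * dist m b := by
  have h := dist_ex_smul m (lg m b) t 1
  rw [one_smul, ex_lg, norm_lg] at h
  rw [h, abs_sub_comm, abs_of_nonneg (sub_nonneg.mpr ht)]

end Pool.CBD
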