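import Pool.Agent.CBD.Spc
import Pool.Agent.CBD.WAL
import Pool.Agent.CBD.PRL
import Pool.Agent.CBD.ISO
import Pool.Agent.CBD.LIN
import Pool.Agent.CBD.RAY
import Pool.Agent.CBD.CNT
import Pool.Agent.CBD.GMN

/-!
# CBD: the concrete geometric data

`CDat` is the data of a group K acting on the block H2 x R by products of isometries and vertical
translations, transitively on a family N of walls containing the base wall W0, with the properties
used in the geometric part.  `CDat.G` is the associated `GDat` and `CDat.X` the glued space.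
-/

namespace Pool.CBD

open Real

structure CDat (K N : Type) [Group K] [MulAction K N] extends Dat K N where
  P : Par
  act : K → Blk → Blk
  act_one : ∀ b, act 1 b = b
  act_mul : ∀ k k' b, act (k * k') b = act k (act k' b)
  act_iso : ∀ k, BIso (act k)
  /-- the stabiliser of the base wall preserves its sides -/
  side : ∀ c, c • a0 = a0 → ∀ b, (act c b).h.y = b.h.y
  io_act : ∀ c, c • a0 = a0 → ∀ w ∈ W0, io P (act c w) = act (sg c) (io P w)
  /-- the other walls are lines at distance at least arcosh 3 from the base line, times R -/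
  line : ∀ k, k • a0 ≠ a0 → ∃ u : Fin 3 → ℝ, u 0 ^ 2 + u 1 ^ 2 - u 2 ^ 2 = 1 ∧ 3 ≤ |u 1| ∧
    ∀ b : Blk, (∃ w ∈ W0, act k w = b) ↔ lo u b.h = 0
  ob : Blk
  ob_off : ∀ k, ∀ w ∈ W0, act k w ≠ ob
  two : ∃ k : K, k • a0 ≠ a0
  walls_fin : ∀ R : ℝ, {a : N | ∃ w ∈ W0, dist ob (act (r a) w) ≤ R}.Finite
  act_fin : ∀ R : ℝ, {k : K | dist ob (act k ob) ≤ R}.Finite
  cocpt : ∃ R : ℝ, ∀ b, ∃ k, dist ob (act k b) ≤ R

variable {K N : Type} [Group K] [MulAction K N]

/-- The geometric data of the glued space. -/
noncomputable def CDat.G (D : CDat K N) : GDat K N Blk where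
  toDat := D.toDat
  act := D.act
  act_one := D.act_one
  act_mul := D.act_mul
  act_dist k b b' := (D.act_iso k).dist_eq b b'
  W := W0
  W_closed := isClosed_W0
  act_W c hc w hw := by
    rw [mem_W0, D.side c hc]
    exact hw
  io := io D.P
  io_mem w _ := io_mem D.P w
  io_io w hw := io_io D.P hw
  io_dist w hw w' hw' := dist_io D.P hw hw'
  io_act := D.io_act
  pr := pr
  pr_mem := pr_mem
  pr_id w hw := pr_of_mem hw
  pr_dist := dist_pr_le
  del := Real.arcosh 3
  del_pos := Real.arcosh_pos (by norm_num)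
  sep k hk w hw w' hw' := by
    obtain ⟨u, hu, h3, hl⟩ := D.line k hk
    have h1 := lo_sep hu h3 (mem_W0.mp hw) ((hl (D.act k w')).mp ⟨w', hw', rfl⟩)
    refine h1.trans ?_
    have h2 := Blk.dist_sq w (D.act k w')
    have h3 : dist w.h (D.act k w').h ^ 2 ≤ dist w (D.act k w') ^ 2 := by
      rw [h2]
      nlinarith [sq_nonneg (w.v - (D.act k w').v)]
    exact abs_le_of_sq_le_sq' h3 dist_nonneg |>.2
  b0 := D.ob
  geod x y := by
    rcases eq_or_lt_of_le (dist_nonneg : 0 ≤ dist x y) with h | h
    · refine ⟨fun _ => x, rfl, ?_, ?_⟩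
      · exact dist_eq_zero.mp h.symm
      · intro s hs t ht
        rw [← h] at hs ht
        have h1 : s = 0 := le_antisymm hs.2 hs.1
        have h2 : t = 0 := le_antisymm ht.2 ht.1
        simp [h1, h2]
    · refine ⟨fun s => ex x ((s / dist x y) • lg x y), ?_, ?_, ?_⟩
      · simp [ex_zero]
      · simp only
        rw [div_self h.ne', one_smul, ex_lg]
      · intro s _ t _
        rw [dist_ex_smul, norm_lg, ← sub_div, abs_div, abs_of_pos h]
        field_simp
  walls_fin := D.walls_fin
  act_fin := D.act_fin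
  cocpt := D.cocpt

/-- The glued space. -/
abbrev CDat.X (D : CDat K N) : Type := XX D.G

end Pool.CBD
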