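import Pool.Agent.CBD.CTR

/-!
# CBD module CGP: the subgroup K, the involution t, and generation

PROOFS.  All equalities in GG are checked at one chart by `GG.ext_at`.
`emb`: (gof (base.mul k) * gof (base.mul k')) base = gof (base.mul k) (base.mul k') =
(gof (base.mul k) base).mul k' = base.mul (k k').
`tt_mul_tt`: tt (tt base) = tt (base.flip) = (tt base).flip = base.flip.flip = base.
`tt_emb`: tt (emb k (tt base)) = tt (emb k base.flip) = tt ((base.mul k).flip) =
tt (base.flip.mul (sg k)) = (tt base).flip.mul (sg k) = base.mul (sg k).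
`gen`: the set of charts c with gof c in H = closure (range emb ∪ {tt}) contains base (gof base = 1) and
is closed under the right action (gof (c.mul k) = gof c * emb k) and flip (gof c.flip = gof c * tt), so it
is everything (`Ch.conn_base`); and every g is gof (g base).
-/

namespace Pool.CBD

open Real Set

variable {K N : Type} [Group K] [MulAction K N]

/-- The element of the group sending the base chart to c. -/
noncomputable def gof {D : Dat K N} (c : Ch D) : GG D := (exists_GG (Ch.base D) c).choose

theorem gof_base {D : Dat K N} (c : Ch D) : (gof c).1 (Ch.base D) = c :=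
  (exists_GG (Ch.base D) c).choose_spec

theorem gof_self {D : Dat K N} (g : GG D) : gof (g.1 (Ch.base D)) = g :=
  GG.ext_at (c := Ch.base D) (gof_base _)

/-- The embedding of K. -/
noncomputable def emb (D : Dat K N) : K →* GG D where
  toFun k := gof ((Ch.base D).mul k)
  map_one' := by
    apply GG.ext_at (c := Ch.base D)
    rw [gof_base, Ch.mul_one]
    rfl
  map_mul' k k' := by
    apply GG.ext_at (c := Ch.base D)
    rw [gof_base]
    change _ = (gof ((Ch.base D).mul k)).1 ((gof ((Ch.base D).mul k')).1 (Ch.base D))
    rw [gof_base, (gof ((Ch.base D).mul k)).2.1, gof_base, Ch.mul_mul]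

/-- The involution exchanging the two blocks at the base wall. -/
noncomputable def tt (D : Dat K N) : GG D := gof (Ch.base D).flip

variable {D : Dat K N}

theorem emb_base (k : K) : (emb D k).1 (Ch.base D) = (Ch.base D).mul k := gof_base _

theorem tt_base : (tt D).1 (Ch.base D) = (Ch.base D).flip := gof_base _

theorem emb_inj : Function.Injective (emb D) := by
  intro k k' h
  have h1 : (emb D k).1 (Ch.base D) = (emb D k').1 (Ch.base D) := by rw [h]
  rw [emb_base, emb_base] at h1
  have h2 := congrArg Ch.k h1
  have h3 : (1 : K) * k = 1 * k' := h2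
  rwa [one_mul, one_mul] at h3

theorem tt_mul_tt : tt D * tt D = 1 := by
  apply GG.ext_at (c := Ch.base D)
  change (tt D).1 ((tt D).1 (Ch.base D)) = Ch.base D
  rw [tt_base, (tt D).2.2, tt_base, Ch.flip_flip]

theorem tt_emb {k : K} (hk : k • D.a0 = D.a0) : tt D * emb D k * tt D = emb D (D.sg k) := by
  apply GG.ext_at (c := Ch.base D)
  change (tt D).1 ((emb D k).1 ((tt D).1 (Ch.base D))) = (emb D (D.sg k)).1 (Ch.base D)
  rw [tt_base, (emb D k).2.2, emb_base, emb_base, Ch.flip_mul _ hk, (tt D).2.1, (tt D).2.2, tt_base,
    Ch.flip_flip]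

theorem gen : Subgroup.closure (Set.range (emb D) ∪ {tt D}) = (⊤ : Subgroup (GG D)) := by
  rw [eq_top_iff]
  intro g _
  have key : ∀ c : Ch D, gof c ∈ Subgroup.closure (Set.range (emb D) ∪ {tt D}) := by
    intro c
    refine Ch.conn_base
      {c : Ch D | gof c ∈ Subgroup.closure (Set.range (emb D) ∪ {tt D})} ?_ ?_ ?_ c
    · have h1 : gof (Ch.base D) = 1 := by
        apply GG.ext_at (c := Ch.base D)
        rw [gof_base]
        rfl
      change gof (Ch.base D) ∈ Subgroup.closure (Set.range (emb D) ∪ {tt D})
      rw [h1]
      exact Subgroup.one_mem _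
    · intro a ha k
      have h1 : gof (a.mul k) = gof a * emb D k := by
        apply GG.ext_at (c := Ch.base D)
        rw [gof_base]
        change a.mul k = (gof a).1 ((emb D k).1 (Ch.base D))
        rw [emb_base, (gof a).2.1, gof_base]
      change gof (a.mul k) ∈ Subgroup.closure (Set.range (emb D) ∪ {tt D})
      rw [h1]
      exact Subgroup.mul_mem _ ha (Subgroup.subset_closure (Or.inl ⟨k, rfl⟩))
    · intro a ha
      have h1 : gof a.flip = gof a * tt D := by
        apply GG.ext_at (c := Ch.base D)
        rw [gof_base]
        change a.flip = (gof a).1 ((tt D).1 (Ch.base D))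
        rw [tt_base, (gof a).2.2, gof_base]
      change gof a.flip ∈ Subgroup.closure (Set.range (emb D) ∪ {tt D})
      rw [h1]
      exact Subgroup.mul_mem _ ha (Subgroup.subset_closure (Or.inr rfl))
  rw [← gof_self g]
  exact key _

end Pool.CBD
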