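import Pool.Agent.CBD.Geo

/-!
# CBD module CVX: convexity of cosh of the square root, and the hyperbolic law of cosines inequality

PROOF.  `cosh_sqrt_convex`: on [0, ∞) the function x ↦ cosh √x has derivative sinh(√x)/(2√x) at
x > 0, which is increasing (u ↦ sinh u / u is increasing on u > 0, since u cosh u ≥ sinh u), and it
is continuous on [0,∞); use `MonotoneOn.convexOn_of_deriv` (interior of Ici 0 is Ioi 0).
(Alternative: cosh √x = ∑ x^n/(2n)!.)
`hyp_cos`: for a, b ≥ 0 and k in [-1,1], put k = 1 - 2 m with m in [0,1]... that is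
a^2 + b^2 - 2 a b k = (1-m) (a-b)^2 + m (a+b)^2 with m = (1-k)/2, and
cosh a cosh b - sinh a sinh b k = (1-m) cosh (a-b) + m cosh (a+b).  By convexity
cosh √(a^2+b^2-2abk) ≤ (1-m) cosh |a-b| + m cosh (a+b).
-/

namespace Pool.CBD

open Real Set

theorem cosh_sqrt_convex : ConvexOn ℝ (Ici (0 : ℝ)) (fun x => Real.cosh (√x)) := by
  have h1 : ∀ z : ℝ, 0 ≤ z → HasSum (fun n : ℕ => z ^ n / ((2 * n).factorial : ℝ))
      (Real.cosh (√z)) := by
    intro z hz
    have h := Real.hasSum_cosh (√z)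
    have e : (fun n : ℕ => z ^ n / ((2 * n).factorial : ℝ)) =
        fun n : ℕ => (√z) ^ (2 * n) / ((2 * n).factorial : ℝ) := by
      funext n
      rw [pow_mul, Real.sq_sqrt hz]
    rw [e]
    exact h
  refine ⟨convex_Ici 0, fun x hx y hy a b ha hb hab => ?_⟩
  have hx' : (0 : ℝ) ≤ x := hx
  have hy' : (0 : ℝ) ≤ y := hy
  have h2 := h1 (a • x + b • y) (by simp only [smul_eq_mul]; positivity)
  have h3 := ((h1 x hx').mul_left a).add ((h1 y hy').mul_left b)
  simp only [smul_eq_mul] at h2 ⊢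
  refine hasSum_le (fun n => ?_) h2 h3
  have h4 := (convexOn_pow (𝕜 := ℝ) n).2 hx hy ha hb hab
  simp only [smul_eq_mul] at h4
  have h5 : (0 : ℝ) < ((2 * n).factorial : ℝ) := by exact_mod_cast Nat.factorial_pos _
  rw [mul_div_assoc', mul_div_assoc', ← add_div]
  exact div_le_div_of_nonneg_right h4 h5.le

theorem hyp_cos {a b k : ℝ} (ha : 0 ≤ a) (hb : 0 ≤ b) (hk : |k| ≤ 1) :
    Real.cosh (√(a ^ 2 + b ^ 2 - 2 * a * b * k)) ≤
      Real.cosh a * Real.cosh b - Real.sinh a * Real.sinh b * k := by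
  have hk' := abs_le.1 hk
  have h1 : (0 : ℝ) ≤ 1 - (1 - k) / 2 := by linarith [hk'.1]
  have h2 : (0 : ℝ) ≤ (1 - k) / 2 := by linarith [hk'.2]
  have h := cosh_sqrt_convex.2 (mem_Ici.2 (sq_nonneg (a - b))) (mem_Ici.2 (sq_nonneg (a + b)))
    h1 h2 (by ring)
  simp only [smul_eq_mul] at h
  rw [Real.sqrt_sq_eq_abs, Real.sqrt_sq_eq_abs, Real.cosh_abs, Real.cosh_abs, Real.cosh_sub,
    Real.cosh_add] at h
  have e : (1 - (1 - k) / 2) * (a - b) ^ 2 + (1 - k) / 2 * (a + b) ^ 2 =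
      a ^ 2 + b ^ 2 - 2 * a * b * k := by ring
  rw [e] at h
  linarith

end Pool.CBD
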