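import Pool.Agent.CBD.LGX
import Pool.Agent.CBD.CVX

/-!
# CBD module HNG: the hinge inequality in the block (CAT(0) comparison for hinges)

PROOF.  Write p = m.h, q = b.h, q' = b'.h, a = dist p q, a' = dist p q', d = dist q q'.
If a = 0 then q = p, c1 p q = c2 p q = 0 and the claim is an equality; same for a' = 0.  Otherwise
sinh a, sinh a' > 0 and k := (c1 p q * c1 p q' + c2 p q * c2 p q') / (sinh a * sinh a') has |k| ≤ 1
(Cauchy–Schwarz with `c1c2_sq`: c1^2 + c2^2 = cosh^2 a - 1 = sinh^2 a).  By `c1c2_mul`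
cosh d = cosh a cosh a' - sinh a sinh a' k, which by `hyp_cos` is ≥ cosh √(a^2 + a'^2 - 2 a a' k), so
a^2 + a'^2 - 2 a a' k ≤ d^2 (cosh is strictly increasing on [0, ∞)).  The left hand side is the
squared norm of the difference of the first two components of lg m b and lg m b'.  Add the
squares of the vertical differences (b.v - m.v) - (b'.v - m.v) = b.v - b'.v and use `Blk.dist_sq`.
-/

namespace Pool.CBD

open Real Set

private theorem kd_sinh {a : ℝ} : kd a * Real.sinh a = a := by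
  unfold kd
  split_ifs with h
  · rw [h, Real.sinh_zero, mul_zero]
  · have : Real.sinh a ≠ 0 := fun h' => h (Real.sinh_eq_zero.mp h')
    field_simp

/-- The horizontal part of the hinge inequality. -/
private theorem hinge_h (p q q' : Hyp) :
    dist p q ^ 2 + dist p q' ^ 2 - 2 * (kd (dist p q) * kd (dist p q')
      * (Hyp.c1 p q * Hyp.c1 p q' + Hyp.c2 p q * Hyp.c2 p q')) ≤ dist q q' ^ 2 := by
  rcases eq_or_ne (dist p q) 0 with ha | ha
  · have hq : p = q := dist_eq_zero.mp ha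
    have h0 := Hyp.c1c2_mul p q q'
    rw [← hq, Hyp.cc_self, one_mul, sub_self] at h0
    rw [← hq, h0, dist_self]
    simp
  rcases eq_or_ne (dist p q') 0 with ha' | ha'
  · have hq : p = q' := dist_eq_zero.mp ha'
    have h0 := Hyp.c1c2_mul p q q'
    rw [← hq, Hyp.cc_self, mul_one, Hyp.cc_comm q p, sub_self] at h0
    rw [← hq, h0, dist_self, dist_comm q p]
    simp
  have a0 : 0 < dist p q := lt_of_le_of_ne dist_nonneg (Ne.symm ha)
  have a0' : 0 < dist p q' := lt_of_le_of_ne dist_nonneg (Ne.symm ha')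
  have s0 : 0 < Real.sinh (dist p q) := Real.sinh_pos_iff.mpr a0
  have s0' : 0 < Real.sinh (dist p q') := Real.sinh_pos_iff.mpr a0'
  set a := dist p q with hadef
  set a' := dist p q' with hadef'
  set c := Hyp.c1 p q * Hyp.c1 p q' + Hyp.c2 p q * Hyp.c2 p q' with hc
  have e1 : Hyp.c1 p q ^ 2 + Hyp.c2 p q ^ 2 = Real.sinh a ^ 2 := by
    rw [Hyp.c1c2_sq, ← Hyp.cosh_dist, Real.sinh_sq]
  have e2 : Hyp.c1 p q' ^ 2 + Hyp.c2 p q' ^ 2 = Real.sinh a' ^ 2 := by
    rw [Hyp.c1c2_sq, ← Hyp.cosh_dist, Real.sinh_sq]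
  have hcs : c ^ 2 ≤ (Real.sinh a * Real.sinh a') ^ 2 := by
    rw [mul_pow, ← e1, ← e2, hc]
    nlinarith [sq_nonneg (Hyp.c1 p q * Hyp.c2 p q' - Hyp.c2 p q * Hyp.c1 p q')]
  have hcabs : |c| ≤ Real.sinh a * Real.sinh a' := abs_le_of_sq_le_sq hcs (by positivity)
  have hk : |c / (Real.sinh a * Real.sinh a')| ≤ 1 := by
    rw [abs_div, abs_of_pos (mul_pos s0 s0')]
    exact (div_le_one (mul_pos s0 s0')).mpr hcabs
  have h1 := hyp_cos a0.le a0'.le hk
  have h2 : Real.cosh a * Real.cosh a' - Real.sinh a * Real.sinh a' *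
      (c / (Real.sinh a * Real.sinh a')) = Real.cosh (dist q q') := by
    have f1 : Real.cosh a = Hyp.cc p q := Hyp.cosh_dist p q
    have f2 : Real.cosh a' = Hyp.cc p q' := Hyp.cosh_dist p q'
    rw [mul_div_cancel₀ _ (mul_pos s0 s0').ne', hc, Hyp.c1c2_mul, Hyp.cosh_dist q q', f1, f2]
    ring
  rw [h2, Real.cosh_le_cosh, abs_of_nonneg (Real.sqrt_nonneg _), abs_of_nonneg dist_nonneg] at h1
  have h3 := (Real.sqrt_le_left dist_nonneg).mp h1
  refine le_trans (le_of_eq ?_) h3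
  have k1 : kd a = a / Real.sinh a := by unfold kd; rw [if_neg ha]
  have k2 : kd a' = a' / Real.sinh a' := by unfold kd; rw [if_neg ha']
  rw [k1, k2]
  field_simp

private theorem inner_lg (m b b' : Blk) : inner ℝ (lg m b) (lg m b') =
    kd (dist m.h b.h) * kd (dist m.h b'.h)
      * (Hyp.c1 m.h b.h * Hyp.c1 m.h b'.h + Hyp.c2 m.h b.h * Hyp.c2 m.h b'.h)
      + (b.v - m.v) * (b'.v - m.v) := by
  simp only [lg, PiLp.inner_apply, Fin.sum_univ_three, RCLike.inner_apply, conj_trivial]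
  simp
  ring

/-- The form of the hinge inequality with the inner product. -/
theorem hinge_sq (m b b' : Blk) :
    dist m b ^ 2 + dist m b' ^ 2 - 2 * inner ℝ (lg m b) (lg m b') ≤ dist b b' ^ 2 := by
  rw [inner_lg, Blk.dist_sq, Blk.dist_sq, Blk.dist_sq]
  have := hinge_h m.h b.h b'.h
  nlinarith [this]

theorem hinge (m b b' : Blk) : ‖lg m b - lg m b'‖ ≤ dist b b' := by
  have h := hinge_sq m b b'
  have h2 : ‖lg m b - lg m b'‖ ^ 2 ≤ dist b b' ^ 2 := by
    rw [@norm_sub_sq_real, norm_lg, norm_lg]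
    linarith
  exact le_trans (le_abs_self _) (abs_le_of_sq_le_sq h2 dist_nonneg)

end Pool.CBD
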