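import Pool.Agent.CBD.WAL
import Pool.Agent.CBD.HNG

/-!
# CBD module FLM: the flat minimisation inequality

The key inequality for gluing along the wall: if on the wall G is bounded below by the distance
to Q seen from m, then the distance-like function min over w of dist b w + G w is bounded below by
the distance from lg m b to Q reflected to the other side of the wall.

PROOF.  Let W = lg m w (W 1 = 0 by `lg_mem_W0`), B = lg m b.  dist b w ≥ ‖B - W‖ =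
√((B0-W0)^2 + (B2-W2)^2 + B1^2) by `hinge` and G w ≥ ‖W - Q‖ = √((W0-Q0)^2+(W2-Q2)^2+Q1^2).
Minkowski: the sum of the two roots is ≥ √((B0-Q0)^2 + (B2-Q2)^2 + (|B1|+|Q1|)^2) (the norm of the
sum of the vectors (B0-W0, |B1|, B2-W2) and (W0-Q0, |Q1|, W2-Q2)).
`flat_min'`: the right hand side is at least ‖lg m b - Q‖^2 since (|B1| + |Q1|)^2 ≥ (B1 - Q1)^2,
and also at least the same with Q1 replaced by -Q1.
-/

namespace Pool.CBD

open Real Set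

theorem flat_min {m : Blk} (hm : m ∈ W0) {Q : E3} {b w : Blk} (hw : w ∈ W0) {g : ℝ}
    (hg : ‖lg m w - Q‖ ≤ g) :
    (lg m b 0 - Q 0) ^ 2 + (|lg m b 1| + |Q 1|) ^ 2 + (lg m b 2 - Q 2) ^ 2
      ≤ (dist b w + g) ^ 2 := by
  have hW := lg_mem_W0 hm hw
  have h1 := hinge m b w
  set B := lg m b
  set W := lg m w
  let u : E3 := !₂[B 0 - W 0, |B 1|, B 2 - W 2]
  let v : E3 := !₂[W 0 - Q 0, |Q 1|, W 2 - Q 2]
  have hu : ‖u‖ = ‖B - W‖ := by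
    rw [← sq_eq_sq₀ (norm_nonneg _) (norm_nonneg _), norm_sq3, norm_sq3]
    simp [u, hW, sq_abs]
  have hv : ‖v‖ = ‖W - Q‖ := by
    rw [← sq_eq_sq₀ (norm_nonneg _) (norm_nonneg _), norm_sq3, norm_sq3]
    simp [v, hW, sq_abs]
  have h2 : ‖u + v‖ ≤ dist b w + g := by
    calc ‖u + v‖ ≤ ‖u‖ + ‖v‖ := norm_add_le _ _
      _ ≤ dist b w + g := by rw [hu, hv]; linarith
  have h3 : ‖u + v‖ ^ 2 = (B 0 - Q 0) ^ 2 + (|B 1| + |Q 1|) ^ 2 + (B 2 - Q 2) ^ 2 := by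
    rw [norm_sq3]
    simp [u, v]
  rw [← h3]
  exact pow_le_pow_left₀ (norm_nonneg _) h2 2

theorem flat_min' {B Q : E3} {c : ℝ} (hc : 0 ≤ c)
    (h : (B 0 - Q 0) ^ 2 + (|B 1| + |Q 1|) ^ 2 + (B 2 - Q 2) ^ 2 ≤ c ^ 2) : ‖B - Q‖ ≤ c := by
  refine (abs_le_of_sq_le_sq' ?_ hc).2
  rw [norm_sq3]
  have h1 : (B 1 - Q 1) ^ 2 ≤ (|B 1| + |Q 1|) ^ 2 := by
    rw [sq_le_sq, abs_of_nonneg (add_nonneg (abs_nonneg (B 1)) (abs_nonneg (Q 1)))]
    exact abs_sub _ _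
  have e0 : (B - Q) 0 = B 0 - Q 0 := rfl
  have e1 : (B - Q) 1 = B 1 - Q 1 := rfl
  have e2 : (B - Q) 2 = B 2 - Q 2 := rfl
  rw [e0, e1, e2]
  linarith

end Pool.CBD
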