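import Pool.Agent.CBD.HNG

/-!
# CBD module TRF: transferring a hinge vector backwards along a geodesic

PROOF.  Let l = dist w m > 0, D = dist m b, r = dist w b.  From h:
phi^2 ≥ r^2 + a^2 + 2 (a/l) ⟪lg w b, lg w m⟫.   (1)
`hinge_sq` at w for b and m: r^2 + l^2 - 2⟪lg w b, lg w m⟫ ≤ D^2.   (2)
So phi^2 ≥ r^2 + a^2 + (a/l)(r^2 + l^2 - D^2) = r^2 (1 + a/l) + a^2 + a l - (a/l) D^2.
`hinge_sq` at m for b and w: D^2 + l^2 - 2⟪lg m b, lg m w⟫ ≤ r^2.   (3)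
Inserting: phi^2 ≥ D^2 + (a+l)^2 - 2 ((a+l)/l) ⟪lg m b, lg m w⟫ = ‖lg m b - ((a+l)/l) lg m w‖^2
since ‖lg m w‖ = l.
-/

namespace Pool.CBD

open Real Set

theorem transfer {w m b : Blk} (hwm : w ≠ m) {a phi : ℝ} (ha : 0 ≤ a) (hphi : 0 ≤ phi)
    (h : ‖lg w b + (a / dist w m) • lg w m‖ ≤ phi) :
    ‖lg m b - ((a + dist w m) / dist w m) • lg m w‖ ≤ phi := by
  have hl : 0 < dist w m := dist_pos.mpr hwm
  set l := dist w m with hl'
  have e1 := hinge_sq w b m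
  have e2 := hinge_sq m b w
  have n1 : ‖lg w b‖ ^ 2 = dist w b ^ 2 := by rw [norm_lg]
  have n2 : ‖lg w m‖ ^ 2 = l ^ 2 := by rw [norm_lg]
  have n3 : ‖lg m b‖ ^ 2 = dist m b ^ 2 := by rw [norm_lg]
  have n4 : ‖lg m w‖ ^ 2 = l ^ 2 := by rw [norm_lg, dist_comm]
  have c1 : dist b m = dist m b := dist_comm _ _
  have c2 : dist b w = dist w b := dist_comm _ _
  have c3 : dist m w = l := dist_comm _ _
  rw [c1] at e1
  rw [c2, c3] at e2
  have h2 : ‖lg w b + (a / l) • lg w m‖ ^ 2 ≤ phi ^ 2 := by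
    have := norm_nonneg (lg w b + (a / l) • lg w m)
    nlinarith
  have h3 : ‖lg w b + (a / l) • lg w m‖ ^ 2
      = dist w b ^ 2 + 2 * (a / l) * inner ℝ (lg w b) (lg w m) + a ^ 2 := by
    rw [norm_add_sq_real, inner_smul_right, norm_smul, mul_pow, n1, n2, Real.norm_eq_abs, sq_abs]
    field_simp
  have h4 : ‖lg m b - ((a + l) / l) • lg m w‖ ^ 2
      = dist m b ^ 2 - 2 * ((a + l) / l) * inner ℝ (lg m b) (lg m w) + (a + l) ^ 2 := by
    rw [norm_sub_sq_real, inner_smul_right, norm_smul, mul_pow, n3, n4, Real.norm_eq_abs, sq_abs]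
    field_simp
  have key : ‖lg m b - ((a + l) / l) • lg m w‖ ^ 2 ≤ phi ^ 2 := by
    rw [h4]
    rw [h3] at h2
    have q1 : 0 ≤ a / l := div_nonneg ha hl.le
    have q2 : 0 ≤ (a + l) / l := div_nonneg (by linarith) hl.le
    have s1 := mul_le_mul_of_nonneg_left e1 q1
    have s2 := mul_le_mul_of_nonneg_left e2 q2
    have q3 : a / l * l = a := by field_simp
    have q4 : (a + l) / l = 1 + a / l := by field_simp; ring
    rw [q4] at s2 ⊢
    have q5 : a / l * l ^ 2 = a * l := by rw [sq, ← mul_assoc, q3]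
    nlinarith
  exact abs_le_of_sq_le_sq' key hphi |>.2
end Pool.CBD
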