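import Pool.Agent.CBD.GSB
import Pool.Agent.CBD.FLM
import Pool.Agent.CBD.TRF

/-!
# CBD module GLU: gluing preserves the existence of hinge vectors

PROOFS.
`glu_hinge_wall`: for m in W0 and a vector P' with ‖lg (io m) b - P'‖ ≤ Psi b for all b, put
Q = RR P'.  For w in W0: lg (io m) (io w) = RR (lg m w) (`lg_io`), so
‖lg m w - Q‖ = ‖RR (lg m w) - P'‖ ≤ Psi (io w) (`norm_RR_sub`).  `flat_min` for every w in W0 (note
Q 1 = P' 1) says √(LHS) ≤ dist b w + Psi (io w), so √(LHS) ≤ glu Psi b by `le_glu`; square.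
`glu_hinge_off`: m not in W0, w0 a minimiser (w0 in W0, glu Psi m = dist m w0 + Psi (io w0)), then
for all b: ‖lg m b - P‖ ≤ glu Psi b with P = ((Psi (io w0) + dist w0 m)/dist w0 m) • lg m w0: by
`subgrad` and `flat_min` at w0 with Q = -(a0/l0) • lg w0 m one gets
(..)^2 + (|lg w0 b 1| + |Q 1|)^2 + (..)^2 ≤ (glu Psi b)^2, hence ‖lg w0 b - Q‖ ≤ glu Psi b
(`flat_min'`), then `transfer`.
`HGp.glu`: at m in W0 take P' from HGp Psi at io m and P = RR P' (‖P‖ = ‖P'‖ = Psi (io m) =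
glu Psi m by `glu_wall`); at m not in W0 take the vector of `glu_hinge_off` with the minimiser of
`glu_min`, whose norm is a0 + l0 = glu Psi m.
-/

namespace Pool.CBD

open Real Set

private theorem sq_le_glu (P : Par) {Psi : Blk → ℝ} {m b : Blk} {Q : E3} (hm : m ∈ W0)
    (hQ : ∀ w ∈ W0, ‖lg m w - Q‖ ≤ Psi (io P w)) :
    (lg m b 0 - Q 0) ^ 2 + (|lg m b 1| + |Q 1|) ^ 2 + (lg m b 2 - Q 2) ^ 2
      ≤ (glu P Psi b) ^ 2 ∧
    √((lg m b 0 - Q 0) ^ 2 + (|lg m b 1| + |Q 1|) ^ 2 + (lg m b 2 - Q 2) ^ 2) ≤ glu P Psi b := by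
  have h1 : √((lg m b 0 - Q 0) ^ 2 + (|lg m b 1| + |Q 1|) ^ 2 + (lg m b 2 - Q 2) ^ 2)
      ≤ glu P Psi b := by
    apply le_glu
    intro w hw
    have hg := hQ w hw
    have h2 := flat_min hm (b := b) hw hg
    have h3 : 0 ≤ dist b w + Psi (io P w) :=
      add_nonneg dist_nonneg ((norm_nonneg _).trans hg)
    exact Real.sqrt_le_iff.mpr ⟨h3, h2⟩
  refine ⟨?_, h1⟩
  have h0 : 0 ≤ (lg m b 0 - Q 0) ^ 2 + (|lg m b 1| + |Q 1|) ^ 2 + (lg m b 2 - Q 2) ^ 2 := by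
    positivity
  have h2 := pow_le_pow_left₀ (Real.sqrt_nonneg _) h1 2
  rwa [Real.sq_sqrt h0] at h2

theorem glu_hinge_wall (P : Par) {Psi : Blk → ℝ} {m : Blk} (hm : m ∈ W0)
    {P' : E3} (hP' : ∀ b, ‖lg (io P m) b - P'‖ ≤ Psi b) (b : Blk) :
    (lg m b 0 - RR P P' 0) ^ 2 + (|lg m b 1| + |P' 1|) ^ 2 + (lg m b 2 - RR P P' 2) ^ 2
      ≤ (glu P Psi b) ^ 2 := by
  have h := (sq_le_glu P (Psi := Psi) (m := m) (b := b) (Q := RR P P') hm (by
    intro w hw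
    rw [← norm_RR_sub, ← lg_io P hm hw]
    exact hP' _)).1
  rwa [RR_one] at h

theorem glu_hinge_off (P : Par) {Psi : Blk → ℝ} (h : HGp Psi) {m w0 : Blk} (hm : m ∉ W0)
    (hw0 : w0 ∈ W0) (hmin : glu P Psi m = dist m w0 + Psi (io P w0)) (b : Blk) :
    ‖lg m b - ((Psi (io P w0) + dist w0 m) / dist w0 m) • lg m w0‖ ≤ glu P Psi b := by
  have hsub := subgrad P h hm hw0 (fun w hw => by
    rw [← hmin]; exact glu_le P h m hw)
  have hne : w0 ≠ m := fun h0 => hm (h0 ▸ hw0)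
  have h1 := sq_le_glu P (Psi := Psi) (m := w0) (b := b)
    (Q := -((Psi (io P w0) / dist w0 m) • lg w0 m)) hw0 (by
    intro w hw
    rw [sub_neg_eq_add]
    exact hsub w hw)
  have hg : 0 ≤ glu P Psi b := glu_nonneg P h b
  have h2 := flat_min' hg h1.1
  rw [sub_neg_eq_add] at h2
  exact transfer hne (h.nonneg _) hg h2

theorem HGp.glu (P : Par) {Psi : Blk → ℝ} (h : HGp Psi) : HGp (glu P Psi) := by
  intro m
  by_cases hm : m ∈ W0
  · obtain ⟨P', hP', hb⟩ := h (io P m)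
    refine ⟨RR P P', ?_, fun b => ?_⟩
    · rw [norm_RR, hP', glu_wall P h hm]
    · have h1 := glu_hinge_wall P hm hb b
      refine flat_min' (glu_nonneg P h b) ?_
      rw [RR_one]
      exact h1
  · obtain ⟨w0, hw0, hmin⟩ := glu_min P h m
    refine ⟨((Psi (io P w0) + dist w0 m) / dist w0 m) • lg m w0, ?_,
      fun b => glu_hinge_off P h hm hw0 hmin b⟩
    have hne : w0 ≠ m := fun h0 => hm (h0 ▸ hw0)
    have hd : 0 < dist w0 m := dist_pos.mpr hne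
    have ha : 0 ≤ Psi (io P w0) := h.nonneg _
    rw [norm_smul, norm_lg, Real.norm_of_nonneg (by positivity), hmin, dist_comm m w0]
    field_simp
    ring

end Pool.CBD
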