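import Pool.Agent.CBD.MTC
import Pool.Agent.CBD.GLU

/-!
# CBD module CRS: the midpoint inequality for a geodesic crossing a wall

Psi is the squared distance function (to a centre beyond the wall) on the block of y, glu Psi the
one on the block of x.

PROOF.  Let s = dist m x = dist (io m) y > 0, P' the hinge vector of Psi at io m (from h),
X = lg m x, Y = lg (io m) y, Q = RR P'.  `glu_hinge_wall`:
(glu Psi x)^2 ≥ (X0-Q0)^2 + (|X1|+|P'1|)^2 + (X2-Q2)^2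
 = ‖X‖^2 + ‖P'‖^2 - 2(X0 Q0 + X2 Q2) + 2|X1||P'1| (‖Q‖ = ‖P'‖, Q1 = P'1);
(Psi y)^2 ≥ ‖Y - P'‖^2 = ‖Y‖^2 + ‖P'‖^2 - 2⟪Y,P'⟫ and ⟪Y,P'⟫ = ⟪RR Y, Q⟫ =
(RR Y)0 Q0 + (RR Y)2 Q2 + Y1 P'1.  By `match_tan` X0 = -(RR Y)0, X2 = -(RR Y)2 and by
`match_one` |X1| = |Y1|.  Adding: the tangential terms cancel and
2|X1||P'1| - 2 Y1 P'1 ≥ 0, so the sum is ≥ 2 s^2 + 2 ‖P'‖^2 = 2 s^2 + 2 (Psi (io m))^2.
-/

namespace Pool.CBD

open Real Set

private theorem inner3 (v w : E3) : inner ℝ v w = v 0 * w 0 + v 1 * w 1 + v 2 * w 2 := by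
  simp only [PiLp.inner_apply, Fin.sum_univ_three, RCLike.inner_apply, conj_trivial]
  ring

theorem crossing (P : Par) {Psi : Blk → ℝ} (h : HGp Psi) {m x y : Blk} (hm : m ∈ W0) {s : ℝ}
    (hs : 0 < s) (hx : dist m x = s) (hy : dist (io P m) y = s)
    (hmin : ∀ w ∈ W0, dist x m + dist (io P m) y ≤ dist x w + dist (io P w) y) :
    2 * Psi (io P m) ^ 2 + 2 * s ^ 2 ≤ glu P Psi x ^ 2 + Psi y ^ 2 := by
  obtain ⟨P', hP', hb⟩ := h (io P m)
  have hmx : m ≠ x := by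
    intro h0; rw [h0, dist_self] at hx; linarith
  have hmy : io P m ≠ y := by
    intro h0; rw [h0, dist_self] at hy; linarith
  obtain ⟨t0, t2⟩ := match_tan P hm hmx hmy hmin
  have t1 := match_one P hm hmx hmy hmin
  rw [hx, hy] at t0 t1 t2
  have hs' : s ≠ 0 := hs.ne'
  have X0 : lg m x 0 = - RR P (lg (io P m) y) 0 := by
    have := congrArg (· * s) t0
    simpa [div_mul_cancel₀, hs', neg_mul] using this
  have X2 : lg m x 2 = - RR P (lg (io P m) y) 2 := by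
    have := congrArg (· * s) t2
    simpa [div_mul_cancel₀, hs', neg_mul] using this
  have X1 : |lg m x 1| = |lg (io P m) y 1| := by
    have := congrArg (· * s) t1
    simpa [div_mul_cancel₀, hs'] using this
  have g := glu_hinge_wall P hm hb x
  have nX : lg m x 0 ^ 2 + lg m x 1 ^ 2 + lg m x 2 ^ 2 = s ^ 2 := by
    rw [← norm_sq3, norm_lg, hx]
  have nY : ‖lg (io P m) y‖ ^ 2 = s ^ 2 := by rw [norm_lg, hy]
  have nQ : RR P P' 0 ^ 2 + P' 1 ^ 2 + RR P P' 2 ^ 2 = Psi (io P m) ^ 2 := by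
    rw [← hP', ← norm_RR P P', norm_sq3, RR_one]
  have hy2 : ‖lg (io P m) y - P'‖ ^ 2 ≤ Psi y ^ 2 :=
    pow_le_pow_left₀ (norm_nonneg _) (hb y) 2
  rw [@norm_sub_sq_real, nY, hP'] at hy2
  have hin : inner ℝ (lg (io P m) y) P' = RR P (lg (io P m) y) 0 * RR P P' 0
      + lg (io P m) y 1 * P' 1 + RR P (lg (io P m) y) 2 * RR P P' 2 := by
    have : inner ℝ (lg (io P m) y) P' = inner ℝ (RR P (lg (io P m) y)) (RR P P') := by
      rw [inner_RR, RR_RR]
    rw [this, inner3, RR_one, RR_one]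
  rw [hin] at hy2
  have e1 : (|lg m x 1| + |P' 1|) ^ 2 = lg m x 1 ^ 2 + 2 * (|lg m x 1| * |P' 1|) + P' 1 ^ 2 := by
    rw [add_sq, sq_abs, sq_abs]
    ring
  rw [e1] at g
  have e2 : lg (io P m) y 1 * P' 1 ≤ |lg m x 1| * |P' 1| := by
    rw [X1, ← abs_mul]
    exact le_abs_self _
  rw [X0, X2] at g nX
  generalize RR P (lg (io P m) y) 0 = R0 at *
  generalize RR P (lg (io P m) y) 2 = R2 at *
  generalize RR P P' 0 = Q0 at *
  generalize RR P P' 2 = Q2 at *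
  generalize |lg m x 1| * |P' 1| = K at *
  generalize lg m x 1 = X1' at *
  generalize lg (io P m) y 1 * P' 1 = K' at *
  generalize P' 1 = P1 at *
  generalize glu P Psi x = G at *
  generalize Psi (io P m) = A at *
  generalize Psi y = B at *
  clear hin X0 X1 X2 t0 t1 t2 hb h
  nlinarith [g, nX, nQ, hy2, e2]

end Pool.CBD
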