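import Pool.Agent.CBD.Dat

/-!
# CBD module CTR: the group acts simply transitively on the charts

PROOF.  `GG.ext_at`: the set of charts where g and h agree is closed under the right action and flip;
`Ch.conn`.
`exists_GG`: for a target chart t define F t : List N → Ch D on words by F [] = t,
F (a :: l) = ((F l).mul (r a)).flip and phi_t ⟨l, k, _⟩ = (F l).mul k.  It commutes with the right action.
It commutes with flip: case c = ⟨l, k⟩ with c.flip = ⟨k a0 :: l, sg (r⁻¹ k)⟩, r = r (k a0): phi (c.flip)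
= ((F l).mul r).flip.mul (sg (r⁻¹ k)) = (((F l).mul r).mul (r⁻¹ k)).flip (`Ch.flip_mul`, r⁻¹ k fixes a0:
`Ch.inv_smul_a0`) = ((F l).mul k).flip.  Case c = ⟨a :: l, k⟩, k a0 = a0, c.flip = ⟨l, r a * sg k⟩:
phi c = ((F l).mul (r a)).flip.mul k, its flip is ((F l).mul (r a)).flip.flip.mul (sg k) =
(F l).mul (r a * sg k) = phi (c.flip).
phi_t is surjective: its image contains t and is closed under both operations (`Ch.conn`).
So there is s with phi_t s = base (as phi_t is onto); then phi_t ∘ phi_s commutes with both operations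
and fixes the base chart (phi_s base = s), so it is the identity (`Ch.conn_base`, same argument as
`GG.ext_at` for maps).  Hence phi_s is injective, and it is onto, so bijective, and phi_t is its inverse.
So phi_t is a permutation; this gives g in GG with g base = t for every t; for general c, c' use
g' g⁻¹.
-/

namespace Pool.CBD

open Real Set

variable {K N : Type} [Group K] [MulAction K N] {D : Dat K N}

theorem GG.ext_at {g h : GG D} {c : Ch D} (e : g.1 c = h.1 c) : g = h := by
  have key : ∀ d : Ch D, g.1 d = h.1 d := by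
    intro d
    refine Ch.conn (c0 := c) {d : Ch D | g.1 d = h.1 d} e ?_ ?_ d
    · intro a ha k
      change g.1 (a.mul k) = h.1 (a.mul k)
      rw [g.2.1, h.2.1, ha]
    · intro a ha
      change g.1 a.flip = h.1 a.flip
      rw [g.2.2, h.2.2, ha]
  exact Subtype.ext (Equiv.ext key)

/-- the extension of a chart to words -/
private noncomputable def fw (t : Ch D) : List N → Ch D
  | [] => t
  | a :: l => ((fw t l).mul (D.r a)).flip

/-- the extension of a chart to all charts -/
private noncomputable def ph (t : Ch D) (c : Ch D) : Ch D := (fw t c.w).mul c.k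

private lemma ph_mul (t c : Ch D) (k : K) : ph t (c.mul k) = (ph t c).mul k := by
  unfold ph
  rw [Ch.mul_mul]
  rfl

private lemma ph_flip (t c : Ch D) : ph t c.flip = (ph t c).flip := by
  by_cases h : c.k • D.a0 = D.a0 ∧ c.w ≠ []
  · obtain ⟨h1, h2⟩ := h
    rw [Ch.flip_of_pos h1 h2]
    obtain ⟨w, k, ok⟩ := c
    match w, ok, h2 with
    | a :: l, ok, h2 =>
      have h1' : k • D.a0 = D.a0 := h1
      change (fw t l).mul (D.r a * D.sg k) = ((((fw t l).mul (D.r a)).flip).mul k).flip
      rw [Ch.flip_mul _ h1', Ch.flip_flip, Ch.mul_mul]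
  · rw [Ch.flip_of_neg h]
    obtain ⟨w, k, ok⟩ := c
    change ((((fw t w).mul (D.r (k • D.a0))).flip).mul (D.sg ((D.r (k • D.a0))⁻¹ * k))) =
      ((fw t w).mul k).flip
    rw [← Ch.flip_mul _ (Ch.inv_smul_a0 D k), Ch.mul_mul, mul_inv_cancel_left]

private lemma ph_base (t : Ch D) : ph t (Ch.base D) = t := by
  change t.mul 1 = t
  rw [Ch.mul_one]

private lemma ph_surj (t c : Ch D) : ∃ s, ph t s = c := by
  refine Ch.conn (c0 := t) {c : Ch D | ∃ s, ph t s = c} ⟨Ch.base D, ph_base t⟩ ?_ ?_ c
  · rintro a ⟨s, rfl⟩ k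
    exact ⟨s.mul k, ph_mul t s k⟩
  · rintro a ⟨s, rfl⟩
    exact ⟨s.flip, ph_flip t s⟩

private lemma exists_base (t : Ch D) : ∃ g : GG D, g.1 (Ch.base D) = t := by
  obtain ⟨s, hs⟩ := ph_surj t (Ch.base D)
  have h1 : ∀ c, ph t (ph s c) = c := by
    intro c
    refine Ch.conn_base {c : Ch D | ph t (ph s c) = c} ?_ ?_ ?_ c
    · change ph t (ph s (Ch.base D)) = Ch.base D
      rw [ph_base, hs]
    · intro a ha k
      change ph t (ph s (a.mul k)) = a.mul k
      rw [ph_mul, ph_mul, ha]
    · intro a ha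
      change ph t (ph s a.flip) = a.flip
      rw [ph_flip, ph_flip, ha]
  have h2 : ∀ c, ph s (ph t c) = c := by
    intro c
    obtain ⟨d, rfl⟩ := ph_surj s c
    rw [h1]
  exact ⟨⟨⟨ph t, ph s, h2, h1⟩, ph_mul t, ph_flip t⟩, ph_base t⟩

theorem exists_GG (c c' : Ch D) : ∃ g : GG D, g.1 c = c' := by
  obtain ⟨g, hg⟩ := exists_base c
  obtain ⟨g', hg'⟩ := exists_base c'
  refine ⟨g' * g⁻¹, ?_⟩
  change g'.1 (g.1⁻¹ c) = c'
  have h : g.1⁻¹ (g.1 (Ch.base D)) = Ch.base D := g.1.symm_apply_apply _
  rw [← hg, h, hg']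

end Pool.CBD
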