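import Pool.Agent.CBD.DSE

/-!
# CBD module DDP: depth of a block and distance from the base block

PROOFS.  `dep` is the length of the word.
`wall_dep`: for a valid word a :: l, w in W and every b: dist (bt base b) (bt ⟨a :: l, 1⟩ w) ≥
(length l) * del.  Induction on l.  l = [] clear.  l = b1 :: l': bt ⟨a :: l, 1⟩ w = bt ⟨l, r a⟩ (io w)
(`Ch.cons_eq_flip`, bt_flip) = bt ⟨l, 1⟩ (act (r a) (io w)), and base is behind ⟨l, 1⟩ (`beh_cons`), so by
`sep_eq` the distance is the infimum over w' in W of dist (act (r a) (io w)) w' +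
dist (bt ⟨l, 1⟩ w') (bt base b) ≥ del + (length l') * del (`D.sep`, r a • a0 = a ≠ a0 by validity).
`dep_le`: same with a general point: write d = ⟨a :: l, 1⟩.mul k; sep_eq across the base wall.
`finite_blocks`: see statement; induction on n.  n = 0: d = base.mul k, words = {[]}.
n + 1: d = ⟨a :: l, k⟩, b1 = act k b.  dist (bt base b0) (bt d b) ≤ R gives w in W with
dist (bt ⟨a::l,1⟩ w) (bt base b0) + dist b1 w ≤ R + 1 (sep_eq, infimum), and bt ⟨a::l,1⟩ w =
bt ⟨l, 1⟩ (act (r a) (io w)): by induction with R + 1: l in the finite set F_n and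
dist b0 (act (r a) (io w)) ≤ R'_n, so a is in the finite set of `walls_fin R'_n`.
Bound for b1: pick w_a = pr b0 in W; dist w_a w = dist (act (r a) (io w_a)) (act (r a) (io w)) ≤
dist (act (r a) (io w_a)) b0 + R'_n; take the maximum over the finitely many a; dist b1 w ≤ R + 1.
-/

namespace Pool.CBD

open Real Set

variable {K N B : Type} [Group K] [MulAction K N] [MetricSpace B] {D : GDat K N B}

private lemma nonempty_W (D : GDat K N B) : Nonempty D.W := ⟨⟨D.pr D.b0, D.pr_mem _⟩⟩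

/-- the wall of a block in the neighbouring block -/
private lemma bt_cons {a : N} {l : List N} (h : Valid D.a0 (a :: l)) (h' : Valid D.a0 l) {w : B}
    (hw : w ∈ D.W) : bt (⟨a :: l, 1, h⟩ : D.Ch) w = bt (⟨l, D.r a, h'⟩ : D.Ch) (D.io w) := by
  have e : (⟨a :: l, 1, h⟩ : D.Ch) = (⟨l, D.r a, h'⟩ : D.Ch).flip := Ch.cons_eq_flip h
  rw [e]
  conv_lhs => rw [← D.io_io w hw]
  exact bt_flip _ (D.io_mem w hw)

private lemma bt_one {l : List N} {k : K} (h : Valid D.a0 l) (b : B) :
    bt (⟨l, k, h⟩ : D.Ch) b = bt (⟨l, 1, h⟩ : D.Ch) (D.act k b) := by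
  have e : (⟨l, k, h⟩ : D.Ch) = (⟨l, 1, h⟩ : D.Ch).mul k := by
    ext1
    · rfl
    · change k = 1 * k
      rw [one_mul]
  rw [e, bt_mul]

theorem wall_dep {a : N} {l : List N} (h : Valid D.a0 (a :: l)) {w : B} (hw : w ∈ D.W) (b : B) :
    l.length * D.del ≤ dist (bt (Ch.base D.toDat) b) (bt (⟨a :: l, 1, h⟩ : D.Ch) w) := by
  induction l generalizing a w with
  | nil =>
    simp only [List.length_nil, Nat.cast_zero, zero_mul]
    exact dist_nonneg
  | cons b1 l ih =>
    have := nonempty_W D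
    have ok : Valid D.a0 (b1 :: l) := h.2
    have ha : a ≠ D.a0 := h.1
    rw [bt_cons h ok hw, bt_one (k := D.r a) ok, dist_comm,
      sep_eq (c := (⟨b1 :: l, 1, ok⟩ : D.Ch)) (beh_cons ok)]
    refine le_ciInf fun w' => ?_
    have h1 := ih ok w'.2
    rw [dist_comm] at h1
    have h2 : D.del ≤ dist (D.act (D.r a) (D.io w)) (w' : B) := by
      rw [dist_comm]
      exact D.sep (D.r a) (by rw [D.r_smul]; exact ha) w' w'.2 _ (D.io_mem w hw)
    rw [List.length_cons]
    push_cast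
    linarith

theorem dep_le (d : D.Ch) (b b' : B) :
    (d.w.length - 1 : ℝ) * D.del ≤ dist (bt (Ch.base D.toDat) b) (bt d b') := by
  obtain ⟨w, k, ok⟩ := d
  match w, ok with
  | [], ok =>
    have h1 : (0 : ℝ) ≤ dist (bt (Ch.base D.toDat) b) (bt (⟨[], k, ok⟩ : D.Ch) b') := dist_nonneg
    have h2 := D.del_pos
    simp only [List.length_nil, Nat.cast_zero]
    linarith
  | a :: l, ok =>
    have := nonempty_W D
    rw [bt_one (k := k) ok, dist_comm, sep_eq (c := (⟨a :: l, 1, ok⟩ : D.Ch)) (beh_cons ok)]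
    refine le_ciInf fun w' => ?_
    have h1 := wall_dep ok w'.2 b
    rw [dist_comm] at h1
    have h2 : (0 : ℝ) ≤ dist (D.act k b') (w' : B) := dist_nonneg
    simp only [List.length_cons]
    push_cast
    linarith

theorem finite_blocks (n : ℕ) (R : ℝ) : ∃ F : Set (List N), F.Finite ∧ ∃ R' : ℝ,
    ∀ (d : D.Ch) (b : B), d.w.length = n → dist (bt (Ch.base D.toDat) D.b0) (bt d b) ≤ R →
      d.w ∈ F ∧ dist D.b0 (D.act d.k b) ≤ R' := by
  induction n generalizing R with
  | zero =>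
    refine ⟨{[]}, Set.finite_singleton _, R, ?_⟩
    rintro ⟨w, k, ok⟩ b h0 h1
    have hw : w = [] := List.length_eq_zero_iff.1 h0
    subst hw
    refine ⟨rfl, ?_⟩
    rw [bt_one (k := k) ok] at h1
    have e : (⟨[], 1, ok⟩ : D.Ch) = Ch.base D.toDat := rfl
    rw [e, dist_bt] at h1
    exact h1
  | succ n ih =>
    obtain ⟨Fn, hFn, S, hS⟩ := ih (R + 1)
    have hA := D.walls_fin S
    set A : Set N := {a : N | ∃ w ∈ D.W, dist D.b0 (D.act (D.r a) w) ≤ S} with hAdef
    obtain ⟨M, hM⟩ := (hA.image (fun a => dist (D.act (D.r a) (D.io (D.pr D.b0))) D.b0)).bddAbove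
    refine ⟨Set.image2 (fun a l => a :: l) A Fn, hA.image2 _ hFn,
      dist D.b0 (D.pr D.b0) + (M + S) + (R + 1), ?_⟩
    rintro ⟨w, k, ok⟩ b h0 h1
    match w, ok, h0, h1 with
    | a :: l, ok, h0, h1 =>
      have hl : l.length = n := by
        have h2 : l.length + 1 = n + 1 := h0
        omega
      rw [bt_one (k := k) ok, dist_comm, sep_eq (c := (⟨a :: l, 1, ok⟩ : D.Ch)) (beh_cons ok)] at h1
      have := nonempty_W D
      obtain ⟨⟨w', hw'⟩, h2⟩ := exists_lt_of_ciInf_lt (lt_of_le_of_lt h1 (lt_add_one R))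
      simp only at h2
      have h3 : (0 : ℝ) ≤ dist (D.act k b) w' := dist_nonneg
      have h4 : (0 : ℝ) ≤ dist (bt (⟨a :: l, 1, ok⟩ : D.Ch) w') (bt (Ch.base D.toDat) D.b0) :=
        dist_nonneg
      have ok' : Valid D.a0 l := ok.tail
      have h5 : dist (bt (Ch.base D.toDat) D.b0) (bt (⟨l, D.r a, ok'⟩ : D.Ch) (D.io w')) ≤
          R + 1 := by
        rw [← bt_cons ok ok' hw', dist_comm]
        linarith
      obtain ⟨h6, h7⟩ := hS _ _ hl h5
      have h7' : dist D.b0 (D.act (D.r a) (D.io w')) ≤ S := h7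
      have haA : a ∈ A := ⟨D.io w', D.io_mem w' hw', h7'⟩
      refine ⟨Set.mem_image2_of_mem haA h6, ?_⟩
      have h8 : dist (D.act (D.r a) (D.io (D.pr D.b0))) D.b0 ≤ M := hM ⟨a, haA, rfl⟩
      have h9 : dist (D.pr D.b0) w' ≤ M + S := by
        rw [← D.io_dist _ (D.pr_mem _) _ hw', ← D.act_dist (D.r a)]
        exact (dist_triangle _ D.b0 _).trans (add_le_add h8 h7')
      have h10 : dist D.b0 (D.act k b) ≤
          dist D.b0 (D.pr D.b0) + dist (D.pr D.b0) w' + dist w' (D.act k b) :=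
        dist_triangle4 _ _ _ _
      have h11 : dist w' (D.act k b) ≤ R + 1 := by
        rw [dist_comm]
        linarith
      change dist D.b0 (D.act k b) ≤ _
      linarith

end Pool.CBD
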