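import Pool.Agent.CBD.Spc
import Pool.Agent.CBD.CGP

/-!
# CBD module DEX: extension of functions from a block; blocks are isometrically embedded

PROOF.  `extend_base`: for g : B → ℝ 1-Lipschitz define h : List N → B → ℝ by h [] = g,
h (a :: l) x = h l (act (r a) (io (pr x))), and f ⟨l, k⟩ x = h l (act k x).
Lipschitz: act is isometric, io is isometric on W, pr is 1-Lipschitz with values in W.
mul: act_mul.  flip: w in W.  Case 1 (c = ⟨a :: l, k⟩, k a0 = a0): c.flip = ⟨l, r a * sg k⟩ and
h l (act (r a * sg k) (io w)) = h l (act (r a) (io (act k w))) (`io_act`), while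
h (a :: l) (act k w) = h l (act (r a) (io (pr (act k w)))) and act k w is in W (`act_W`, `pr_id`).
Case 2: c.flip = ⟨a :: l, sg (r⁻¹ k)⟩ with a = k a0, r = r a: h (a :: l) (act (sg (r⁻¹ k)) (io w)) =
h (a :: l) (io (act (r⁻¹ k) w)) = h l (act r (io (pr (io (act (r⁻¹ k) w))))) = h l (act r (act (r⁻¹ k) w))
= h l (act k w).
`extend`: transport with `LipF.tr` and `gof`.
`dist_bt`: ≤ is `dist_bt_le_dist`; for ≥ extend the function x ↦ dist b x from the chart c and use
`LipF.le_dist`.
-/

namespace Pool.CBD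

open Real Set

variable {K N B : Type} [Group K] [MulAction K N] [MetricSpace B] {D : GDat K N B}

private noncomputable def dexH (D : GDat K N B) (g : B → ℝ) : List N → B → ℝ
  | [] => g
  | a :: l => fun x => dexH D g l (D.act (D.r a) (D.io (D.pr x)))

private theorem dexH_lip (g : B → ℝ) (hg : ∀ b b', |g b - g b'| ≤ dist b b') :
    ∀ (l : List N) (x y : B), |dexH D g l x - dexH D g l y| ≤ dist x y := by
  intro l
  induction l with
  | nil => exact hg
  | cons a l ih =>
    intro x y
    refine (ih _ _).trans ?_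
    rw [D.act_dist, D.io_dist _ (D.pr_mem _) _ (D.pr_mem _)]
    exact D.pr_dist _ _

private theorem dexH_flip (g : B → ℝ) (c : D.Ch) (w : B) (hw : w ∈ D.W) :
    dexH D g c.flip.w (D.act c.flip.k (D.io w)) = dexH D g c.w (D.act c.k w) := by
  by_cases h : c.k • D.a0 = D.a0 ∧ c.w ≠ []
  · obtain ⟨h1, h2⟩ := h
    rw [Ch.flip_of_pos h1 h2]
    obtain ⟨l, k, ok⟩ := c
    match l, ok, h2 with
    | a :: l, ok, h2 =>
      simp only [List.tail_cons, List.head_cons] at h1 ⊢
      show dexH D g l (D.act (D.r a * D.sg k) (D.io w)) =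
        dexH D g l (D.act (D.r a) (D.io (D.pr (D.act k w))))
      rw [D.pr_id _ (D.act_W k h1 w hw), D.act_mul, D.io_act k h1 w hw]
  · rw [Ch.flip_of_neg h]
    set k := c.k with hk
    set r := D.r (k • D.a0) with hr
    have hm : (r⁻¹ * k) • D.a0 = D.a0 := Ch.inv_smul_a0 D.toDat k
    show dexH D g c.w (D.act r (D.io (D.pr (D.act (D.sg (r⁻¹ * k)) (D.io w))))) =
      dexH D g c.w (D.act k w)
    have h2 : D.act (r⁻¹ * k) w ∈ D.W := D.act_W _ hm w hw
    rw [← D.io_act _ hm w hw, D.pr_id _ (D.io_mem _ h2), D.io_io _ h2, ← D.act_mul,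
      mul_inv_cancel_left]

theorem extend_base (g : B → ℝ) (hg : ∀ b b', |g b - g b'| ≤ dist b b') :
    ∃ F : LipF D, F.f (Ch.base D.toDat) = g := by
  refine ⟨⟨fun c b => dexH D g c.w (D.act c.k b), ?_, ?_, ?_⟩, ?_⟩
  · intro c b b'
    have h := dexH_lip (D := D) g hg c.w (D.act c.k b) (D.act c.k b')
    rwa [D.act_dist] at h
  · intro c k b
    show dexH D g c.w (D.act (c.k * k) b) = dexH D g c.w (D.act c.k (D.act k b))
    rw [D.act_mul]
  · intro c w hw
    exact dexH_flip g c w hw
  · funext b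
    show dexH D g [] (D.act 1 b) = g b
    rw [D.act_one]
    rfl

theorem extend (c : D.Ch) (g : B → ℝ) (hg : ∀ b b', |g b - g b'| ≤ dist b b') :
    ∃ F : LipF D, F.f c = g := by
  obtain ⟨F, hF⟩ := extend_base (D := D) g hg
  refine ⟨F.tr (gof c)⁻¹, ?_⟩
  funext b
  show F.f ((gof c)⁻¹.1 c) b = g b
  have h1 : (gof c)⁻¹.1 c = Ch.base D.toDat := by
    show (gof c).1⁻¹ c = Ch.base D.toDat
    rw [Equiv.Perm.inv_eq_iff_eq]
    exact (gof_base c).symm
  rw [h1, hF]

theorem dist_bt (c : D.Ch) (b b' : B) : dist (bt c b) (bt c b') = dist b b' := by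
  apply le_antisymm (dist_bt_le_dist c b b')
  obtain ⟨F, hF⟩ := extend (D := D) c (fun x => dist b x) (by
    intro x y
    rw [abs_le]
    have h1 := dist_triangle b x y
    have h2 := dist_triangle b y x
    rw [dist_comm y x] at h2
    constructor <;> linarith)
  have h := LipF.le_dist F c c b b'
  rw [hF] at h
  simp only [dist_self, zero_sub, abs_neg] at h
  rwa [abs_of_nonneg dist_nonneg] at h

end Pool.CBD
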