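import Pool.Agent.CBD.EDF

/-!
# CBD module EGC: concatenation of geodesic segments

PROOF.  If dist x y + dist y z = dist x z, g1 a geodesic from x to y and g2 from y to z, put
g(s) = g1 s for s ≤ dist x y and g2 (s - dist x y) otherwise.  For s ≤ dist x y ≤ t:
dist (g s) (g t) ≤ (dist x y - s) + (t - dist x y) = t - s, and
dist x z ≤ s + dist (g s) (g t) + (dist x z - t) gives ≥.
-/

namespace Pool.CBD

open Real Set

/-- A geodesic segment from x to y exists. -/
def HasGeod {X : Type*} [MetricSpace X] (x y : X) : Prop :=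
  ∃ g : ℝ → X, g 0 = x ∧ g (dist x y) = y ∧
    ∀ s ∈ Icc 0 (dist x y), ∀ t ∈ Icc 0 (dist x y), dist (g s) (g t) = |s - t|

theorem HasGeod.trans {X : Type*} [MetricSpace X] {x y z : X} (h1 : HasGeod x y)
    (h2 : HasGeod y z) (h : dist x y + dist y z = dist x z) : HasGeod x z := by
  obtain ⟨g1, h10, h11, h12⟩ := h1
  obtain ⟨g2, h20, h21, h22⟩ := h2
  have hxy : 0 ≤ dist x y := dist_nonneg
  have hyz : 0 ≤ dist y z := dist_nonneg
  set a := dist x y with ha
  set b := dist y z with hb
  have cross : ∀ s ∈ Icc 0 a, ∀ t ∈ Icc 0 b, dist (g1 s) (g2 t) = a - s + t := by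
    intro s hs t ht
    have e1 : dist (g1 s) y = a - s := by
      rw [← h11, h12 s hs a ⟨hxy, le_rfl⟩, abs_sub_comm, abs_of_nonneg (by linarith [hs.2])]
    have e2 : dist y (g2 t) = t := by
      rw [← h20, h22 0 ⟨le_rfl, hyz⟩ t ht, abs_sub_comm, abs_of_nonneg (by linarith [ht.1])]
      ring
    have e3 : dist x (g1 s) = s := by
      rw [← h10, h12 0 ⟨le_rfl, hxy⟩ s hs, abs_sub_comm, abs_of_nonneg (by linarith [hs.1])]
      ring
    have e4 : dist (g2 t) z = b - t := by
      rw [← h21, h22 t ht b ⟨hyz, le_rfl⟩, abs_sub_comm, abs_of_nonneg (by linarith [ht.2])]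
    have t1 := dist_triangle (g1 s) y (g2 t)
    have t2 := dist_triangle4 x (g1 s) (g2 t) z
    rw [e3, e4, ← h] at t2
    apply le_antisymm
    · linarith
    · linarith
  refine ⟨fun s => if s ≤ a then g1 s else g2 (s - a), ?_, ?_, ?_⟩
  · simp only [if_pos hxy]; exact h10
  · rw [← h]
    by_cases hb0 : a + b ≤ a
    · have : b = 0 := by linarith
      simp only [if_pos hb0]
      rw [this, add_zero, h11]
      exact dist_eq_zero.mp (hb ▸ this)
    · simp only [if_neg hb0]
      rw [show a + b - a = b by ring]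
      exact h21
  · intro s hs t ht
    rw [← h] at hs ht
    simp only
    by_cases h3 : s ≤ a <;> by_cases h4 : t ≤ a
    · rw [if_pos h3, if_pos h4]
      exact h12 s ⟨hs.1, h3⟩ t ⟨ht.1, h4⟩
    · rw [if_pos h3, if_neg h4]
      push Not at h4
      rw [cross s ⟨hs.1, h3⟩ (t - a) ⟨by linarith, by linarith [ht.2]⟩, abs_sub_comm,
        abs_of_nonneg (by linarith)]
      ring
    · rw [if_neg h3, if_pos h4]
      push Not at h3
      rw [dist_comm, cross t ⟨ht.1, h4⟩ (s - a) ⟨by linarith, by linarith [hs.2]⟩,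
        abs_of_nonneg (by linarith)]
      ring
    · rw [if_neg h3, if_neg h4]
      push Not at h3 h4
      rw [h22 (s - a) ⟨by linarith, by linarith [hs.2]⟩ (t - a) ⟨by linarith, by linarith [ht.2]⟩]
      congr 1
      ring

theorem HasGeod.symm {X : Type*} [MetricSpace X] {x y : X} (h1 : HasGeod x y) :
    HasGeod y x := by
  obtain ⟨g, h0, h1, h2⟩ := h1
  refine ⟨fun s => g (dist x y - s), ?_, ?_, ?_⟩
  · simp only [sub_zero]; exact h1
  · rw [dist_comm y x]; simp only [sub_self]; exact h0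
  · intro s hs t ht
    rw [dist_comm y x] at hs ht
    simp only
    rw [h2 _ ⟨by linarith [hs.2], by linarith [hs.1]⟩ _ ⟨by linarith [ht.2], by linarith [ht.1]⟩,
      abs_sub_comm]
    congr 1
    ring

end Pool.CBD
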