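import Pool.Agent.CBD.DSE
import Pool.Agent.CBD.EGC

/-!
# CBD module DGE: the glued space is geodesic

PROOF.  By homogeneity (`dist_smul'`, `exists_GG`) it is enough to join bt base b to bt d b' for all d
(apply a group element moving the chart of the first point to the base chart; HasGeod is preserved by the
isometries g).  Induction `Ch.ind` with P d := ∀ b b', HasGeod (bt base b) (bt d b').
mul: bt_mul.  base: compose D.geod with bt base (`dist_bt`).
Step: Beh d base.  By `sep_min` (with c = d, d1 = d, d2 = base, and symmetry of dist) there is w in W with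
dist (bt base b) (bt d b') = dist (bt base b) (bt d w) + dist (bt d w) (bt d b'); bt d w = bt d.flip (io w)
so HasGeod (bt base b) (bt d w) by induction, HasGeod (bt d w) (bt d b') from the block; `HasGeod.trans`.
-/

namespace Pool.CBD

open Real Set

variable {K N B : Type} [Group K] [MulAction K N] [MetricSpace B] {D : GDat K N B}

theorem hasGeod_bt (c : D.Ch) (b b' : B) : HasGeod (bt c b) (bt c b') := by
  obtain ⟨g, h0, h1, h2⟩ := D.geod b b'
  refine ⟨fun s => bt c (g s), ?_, ?_, ?_⟩
  · show bt c (g 0) = bt c b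
    rw [h0]
  · show bt c (g (dist (bt c b) (bt c b'))) = bt c b'
    rw [dist_bt, h1]
  · intro s hs t ht
    rw [dist_bt] at hs ht
    show dist (bt c (g s)) (bt c (g t)) = |s - t|
    rw [dist_bt, h2 s hs t ht]

private theorem dge_smul {x y : XX D} (g : GG D.toDat) (h : HasGeod x y) : HasGeod (g • x) (g • y) := by
  obtain ⟨f, h0, h1, h2⟩ := h
  refine ⟨fun s => g • f s, ?_, ?_, ?_⟩
  · show g • f 0 = g • x
    rw [h0]
  · show g • f (dist (g • x) (g • y)) = g • y
    rw [dist_smul', h1]
  · intro s hs t ht
    rw [dist_smul'] at hs ht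
    show dist (g • f s) (g • f t) = |s - t|
    rw [dist_smul', h2 s hs t ht]

private theorem dge_base [ProperSpace B] (d : D.Ch) :
    ∀ b b', HasGeod (bt (Ch.base D.toDat) b) (bt d b') := by
  apply Ch.ind (D := D.toDat) (fun d => ∀ b b', HasGeod (bt (D := D) (Ch.base D.toDat) b) (bt d b'))
  · intro c k h b b'
    have := h b (D.act k b')
    rwa [← bt_mul] at this
  · intro b b'
    exact hasGeod_bt _ b b'
  · intro d hd ih b b'
    obtain ⟨w, hw, h⟩ := sep_min (D := D) (c := d) (d1 := d) (d2 := Ch.base D.toDat)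
      (by
        have h1 := not_beh_mul d (1 : K)
        rwa [Ch.mul_one] at h1) hd b' b
    have h1 := ih b (D.io w)
    rw [bt_flip d hw] at h1
    apply h1.trans (hasGeod_bt d w b')
    rw [dist_comm (bt d b') (bt (Ch.base D.toDat) b), dist_comm (bt d b') (bt d w),
      dist_comm (bt d w) (bt (Ch.base D.toDat) b)] at h
    linarith

theorem geod_XX [ProperSpace B] (D : GDat K N B) : Geod (XX D) := by
  intro x y
  obtain ⟨c, b, rfl⟩ := exists_bt x
  obtain ⟨d, b', rfl⟩ := exists_bt y
  obtain ⟨g, hg⟩ := exists_GG c (Ch.base D.toDat)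
  have h := dge_smul (D := D) g⁻¹ (dge_base (D := D) (g.1 d) b b')
  rw [← hg, ← smul_bt, ← smul_bt, inv_smul_smul, inv_smul_smul] at h
  exact h

end Pool.CBD
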