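import Pool.Agent.CBD.DSE

/-!
# CBD module DLB: the blocks near a point

PROOFS.  `local_wall`: c a chart, w in W, x = bt c w.  If dist (bt c w) (bt d b) < del then the block of d
is the block of c or of c.flip, or the geodesic... precisely: bt d b is in the range of bt c or of
bt c.flip.  Proof: by `tri` for c: d = c.mul k (done: bt_mul) or Beh (c.mul k) d.  In the latter case if
k a0 ≠ a0: by `sep_eq` for c.mul k (bt c w = bt (c.mul k) (act k⁻¹ w)): the distance is the infimum over
w' in W of dist (act k⁻¹ w) w' + .. ≥ del (`D.sep` with k⁻¹... note dist (act k⁻¹ w) w' = dist w (act k w')),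
contradiction.  So k a0 = a0 and Beh c d (`beh_mul_left`).  Apply the same to c.flip and the point
bt c.flip (io w): d is in the block of c.flip (done) or Beh (c.flip.mul k') d with k' a0 = a0 (same
argument), that is Beh c.flip d, contradicting `beh_flip_left`.
`local_wall_block`: moreover every block containing bt d b meets... : if moreover dist < del/2 and the block
of d is neither that of c nor that of c.flip, contradiction: any d with some b such that
dist (bt c w) (bt d b) < del satisfies d = c.mul k or d = c.flip.mul k — this is what the proof shows;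
state it like this.
`local_int`: c a chart, b not on any wall of the block: the distance from b to the union of the walls is
positive: by `walls_fin` (only finitely many walls act (r a) W come near b; every wall act k W is
act (r (k a0)) W since (r (k a0))⁻¹ k fixes a0 and act_W; each is closed), so there is e > 0 with
e ≤ dist b (act k w) for all k and w in W; then dist (bt c b) (bt d b') < e forces d = c.mul k (tri and
sep_eq again).
`same_point`: if d is not in the block of c, `tri` gives k with Beh (c.mul k) d; bt c b =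
bt (c.mul k) (act k⁻¹ b), and by sep_eq the infimum over w of dist (act k⁻¹ b) w + .. is 0, so
w0 = act k⁻¹ b is in the closed set W.  `local_wall` for c.mul k, w0: d = (c.mul k).mul j (excluded by
Beh, not_beh_mul) or d = (c.mul k).flip.mul j; then bt (c.mul k).flip (act j b') = bt (c.mul k) w0 =
bt (c.mul k).flip (io w0), and `dist_bt` gives act j b' = io w0.
-/

namespace Pool.CBD

open Real Set

variable {K N B : Type} [Group K] [MulAction K N] [MetricSpace B] {D : GDat K N B}

private lemma neW (D : GDat K N B) : Nonempty D.W := ⟨⟨D.pr D.b0, D.pr_mem _⟩⟩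

private lemma bt_move (c : D.Ch) (k : K) (b : B) : bt (c.mul k) (D.act k⁻¹ b) = bt c b := by
  rw [bt_mul, D.act_act_inv]

private lemma dist_move (k : K) (b w : B) : dist (D.act k⁻¹ b) w = dist b (D.act k w) := by
  rw [← D.act_dist k (D.act k⁻¹ b) w, D.act_act_inv]

/-- the distance of a point to a block behind a wall is at least the distance to the wall -/
private lemma far {c d : D.Ch} {k : K} (h : Beh (c.mul k) d) {b b' : B} {e : ℝ}
    (he : ∀ w ∈ D.W, e ≤ dist b (D.act k w)) : e ≤ dist (bt c b) (bt d b') := by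
  have := neW D
  rw [← bt_move c k b, sep_eq h]
  refine le_ciInf fun w => ?_
  have h1 := he w w.2
  rw [← dist_move] at h1
  have h2 : (0 : ℝ) ≤ dist (bt (c.mul k) (w : B)) (bt d b') := dist_nonneg
  linarith

private lemma local_aux {c d : D.Ch} {w b : B} (hw : w ∈ D.W)
    (h : dist (bt c w) (bt d b) < D.del) : (∃ k, d = c.mul k) ∨ Beh c d := by
  rcases tri c d with h1 | ⟨k, hk⟩
  · exact Or.inl h1
  · by_cases h0 : k • D.a0 = D.a0
    · exact Or.inr ((beh_mul_left c d h0).1 hk)
    · exact absurd (far hk (fun w' hw' => D.sep k h0 w hw w' hw')) (not_le.2 h)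

theorem local_wall {c d : D.Ch} {w b : B} (hw : w ∈ D.W) (h : dist (bt c w) (bt d b) < D.del) :
    (∃ k, d = c.mul k) ∨ ∃ k, d = c.flip.mul k := by
  rcases local_aux hw h with h1 | h1
  · exact Or.inl h1
  · have h2 : dist (bt c.flip (D.io w)) (bt d b) < D.del := by
      rw [bt_flip c hw]
      exact h
    rcases local_aux (D.io_mem w hw) h2 with h3 | h3
    · exact Or.inr h3
    · exact absurd h1 ((beh_flip_left c d).1 h3)

theorem walls_dist {b : B} (hb : ∀ k, ∀ w ∈ D.W, D.act k w ≠ b) [ProperSpace B] :
    ∃ e > 0, ∀ k, ∀ w ∈ D.W, e ≤ dist b (D.act k w) := by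
  have hfin := D.walls_fin (dist D.b0 b + 1)
  set A : Set N := {a : N | ∃ w ∈ D.W, dist D.b0 (D.act (D.r a) w) ≤ dist D.b0 b + 1} with hA
  have hcont : ∀ k, Continuous (D.act k) := fun k => (Isometry.of_dist_eq (D.act_dist k)).continuous
  have hclosed : ∀ a, IsClosed {x : B | D.act (D.r a)⁻¹ x ∈ D.W} := fun a =>
    D.W_closed.preimage (hcont _)
  have hU : IsClosed (⋃ a ∈ A, {x : B | D.act (D.r a)⁻¹ x ∈ D.W}) :=
    hfin.isClosed_biUnion fun a _ => hclosed a
  have hbU : b ∈ (⋃ a ∈ A, {x : B | D.act (D.r a)⁻¹ x ∈ D.W})ᶜ := by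
    intro h
    rw [Set.mem_iUnion₂] at h
    obtain ⟨a, -, h⟩ := h
    exact hb (D.r a) _ h (D.act_act_inv _ _)
  obtain ⟨ε, hε, hball⟩ := Metric.isOpen_iff.1 hU.isOpen_compl b hbU
  refine ⟨min 1 ε, lt_min one_pos hε, fun k w hw => ?_⟩
  -- the wall of k is the wall of the section
  set a := k • D.a0 with ha
  have hfix : ((D.r a)⁻¹ * k) • D.a0 = D.a0 := Ch.inv_smul_a0 D.toDat k
  have hw2 : D.act ((D.r a)⁻¹ * k) w ∈ D.W := D.act_W _ hfix w hw
  have e1 : D.act (D.r a) (D.act ((D.r a)⁻¹ * k) w) = D.act k w := by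
    rw [← D.act_mul, mul_inv_cancel_left]
  by_cases haA : a ∈ A
  · refine (min_le_right _ _).trans ?_
    by_contra hlt
    push Not at hlt
    have h1 : D.act k w ∈ Metric.ball b ε := by
      rw [Metric.mem_ball, dist_comm]
      exact hlt
    apply hball h1
    rw [Set.mem_iUnion₂]
    refine ⟨a, haA, ?_⟩
    change D.act (D.r a)⁻¹ (D.act k w) ∈ D.W
    rw [← D.act_mul]
    exact hw2
  · refine (min_le_left _ _).trans ?_
    by_contra hlt
    push Not at hlt
    apply haA
    refine ⟨_, hw2, ?_⟩
    rw [e1]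
    have := dist_triangle D.b0 b (D.act k w)
    linarith

theorem local_int {c d : D.Ch} {b b' : B} {e : ℝ}
    (he : ∀ k, ∀ w ∈ D.W, e ≤ dist b (D.act k w)) (h : dist (bt c b) (bt d b') < e) :
    ∃ k, d = c.mul k := by
  rcases tri c d with h1 | ⟨k, hk⟩
  · exact h1
  · exact absurd (far hk (he k)) (not_le.2 h)

/-- If two charts contain the same point, they are charts of the same block or the point is on a
common wall. -/
theorem same_point {c d : D.Ch} {b b' : B} (h : bt c b = bt d b') :
    (∃ k, d = c.mul k) ∨ ∃ k j, d = (c.mul k).flip.mul j ∧ D.act k⁻¹ b ∈ D.W ∧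
      D.act j b' = D.io (D.act k⁻¹ b) := by
  rcases tri c d with h1 | ⟨k, hk⟩
  · exact Or.inl h1
  · right
    have := neW D
    have h0 : bt (c.mul k) (D.act k⁻¹ b) = bt d b' := by rw [bt_move, h]
    have hz : dist (bt (c.mul k) (D.act k⁻¹ b)) (bt d b') = 0 := by rw [h0, dist_self]
    have hW : D.act k⁻¹ b ∈ D.W := by
      rw [← D.W_closed.closure_eq, Metric.mem_closure_iff]
      intro ε hε
      have h2 : ⨅ w : D.W, (dist (D.act k⁻¹ b) (w : B) + dist (bt (c.mul k) (w : B)) (bt d b')) <
          ε := by
        rw [← sep_eq hk, hz]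
        exact hε
      obtain ⟨⟨w, hw⟩, h3⟩ := exists_lt_of_ciInf_lt h2
      refine ⟨w, hw, lt_of_le_of_lt ?_ h3⟩
      have h4 : (0 : ℝ) ≤ dist (bt (c.mul k) w) (bt d b') := dist_nonneg
      simp only
      linarith
    have hlt : dist (bt (c.mul k) (D.act k⁻¹ b)) (bt d b') < D.del := by
      rw [hz]
      exact D.del_pos
    rcases local_wall hW hlt with ⟨j, hj⟩ | ⟨j, hj⟩
    · rw [hj] at hk
      exact absurd hk (not_beh_mul _ _)
    · refine ⟨k, j, hj, hW, ?_⟩
      have h5 : bt (c.mul k).flip (D.act j b') = bt (c.mul k).flip (D.io (D.act k⁻¹ b)) := by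
        rw [← bt_mul, ← hj, bt_flip _ hW, h0]
      have h6 := dist_bt (c.mul k).flip (D.act j b') (D.io (D.act k⁻¹ b))
      rw [h5, dist_self] at h6
      exact eq_of_dist_eq_zero h6.symm

end Pool.CBD
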