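import Mathlib

/-!
# CBD: CAT(0) spaces, geometric actions, visual boundaries (the definitions of the final theorem)

* `IsCAT0 X`: X is a geodesic metric space and every geodesic triangle satisfies the comparison
  inequality with a triangle of the Euclidean plane (x is on a geodesic segment from p to q iff
  dist p x + dist x q = dist p q).
* `Bd X o`: geodesic rays from o with the compact-open topology (the visual boundary).
* `Geometric G X`: the action is by isometries, properly discontinuous and cocompact.
* `Cat0 X` is the working form of the CAT(0) inequality used in the proofs.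
* `bdS o S`: the rays from o which stay at bounded distance from S.
-/

namespace Pool.CBD

open Real Set

open scoped NNReal

abbrev E2 := EuclideanSpace ℝ (Fin 2)

/-- Any two points are joined by a geodesic segment. -/
def Geod (X : Type*) [MetricSpace X] : Prop :=
  ∀ x y : X, ∃ g : ℝ → X, g 0 = x ∧ g (dist x y) = y ∧
    ∀ s ∈ Icc 0 (dist x y), ∀ t ∈ Icc 0 (dist x y), dist (g s) (g t) = |s - t|

/-- CAT(0) spaces, by comparison triangles in the Euclidean plane: p', q', r' is a comparison
triangle for p, q, r; x is a point of a side from p to q, y a point of a side from p to r, and x', y'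
are their comparison points. -/
structure IsCAT0 (X : Type*) [MetricSpace X] : Prop where
  geod : Geod X
  comparison : ∀ (p q r x y : X) (p' q' r' x' y' : E2),
    dist p' q' = dist p q → dist q' r' = dist q r → dist p' r' = dist p r →
    dist p x + dist x q = dist p q → dist p' x' = dist p x → dist x' q' = dist x q →
    dist p y + dist y r = dist p r → dist p' y' = dist p y → dist y' r' = dist y r →
    dist x y ≤ dist x' y'

/-- The working form: geodesic, and comparison of a vertex with a point of the opposite side. -/
structure Cat0 (X : Type*) [MetricSpace X] : Prop where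
  geod : Geod X
  comp : ∀ (p x y m : X) (t : ℝ), 0 ≤ t → t ≤ 1 → dist x m = t * dist x y →
    dist m y = (1 - t) * dist x y →
    dist p m ^ 2 ≤ (1 - t) * dist p x ^ 2 + t * dist p y ^ 2 - t * (1 - t) * dist x y ^ 2

/-- The action is by isometries, properly discontinuous and cocompact. -/
structure Geometric (G X : Type*) [Group G] [MetricSpace X] [MulAction G X] : Prop where
  isom : ∀ (g : G) (x y : X), dist (g • x) (g • y) = dist x y
  proper : ∀ A : Set X, IsCompact A → {g : G | ∃ x ∈ A, g • x ∈ A}.Finite
  cocompact : ∃ A : Set X, IsCompact A ∧ ∀ x : X, ∃ g : G, g • x ∈ A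

/-- The visual boundary seen from o: geodesic rays from o, with the compact-open topology. -/
def Bd (X : Type*) [MetricSpace X] (o : X) : Type _ := {r : C(ℝ≥0, X) // Isometry r ∧ r 0 = o}

instance (X : Type*) [MetricSpace X] (o : X) : TopologicalSpace (Bd X o) :=
  instTopologicalSpaceSubtype

variable {X : Type*} [MetricSpace X] {o : X}

/-- The point of the ray at (real) time t ≥ 0. -/
def ev (r : Bd X o) (t : ℝ) : X := r.1 t.toNNReal

/-- Rays from o and w at bounded distance. -/
def Asy {w : X} (r : Bd X o) (r' : Bd X w) : Prop :=
  ∃ C : ℝ, ∀ t : ℝ, 0 ≤ t → dist (ev r t) (ev r' t) ≤ C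

/-- The rays from o which stay at bounded distance from S. -/
def bdS (o : X) (S : Set X) : Set (Bd X o) :=
  {r | ∃ C : ℝ, ∀ t : ℝ, 0 ≤ t → Metric.infDist (ev r t) S ≤ C}

/-- Geodesically convex sets. -/
def GConv (S : Set X) : Prop :=
  ∀ x ∈ S, ∀ y ∈ S, ∀ m : X, dist x m + dist m y = dist x y → m ∈ S

end Pool.CBD
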