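import Pool.Agent.CBD.DDP
import Pool.Agent.CBD.EDF

/-!
# CBD module DPR: the glued space is proper, and the action is geometric

PROOFS.  Let p = bt base b0.  By `dep_le` and `finite_blocks` (n = 0, 1, ..., ⌈R/del⌉ + 1) there are a
finite set F of valid words and R' such that every point of closedBall p R is of the form
bt ⟨l, 1⟩ b1 with l in F and dist b0 b1 ≤ R' (bt ⟨l, k⟩ b = bt ⟨l, 1⟩ (act k b)).  So closedBall p R is a
closed subset of a finite union of the compact sets bt ⟨l, 1⟩ '' closedBall b0 R' (bt c is 1-Lipschitz).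
Hence all closed balls about p are compact, which gives ProperSpace
(`ProperSpace.of_isCompact_closedBall_of_le` or similar: any closed ball is contained in one about p).
`geometric`: isom is `dist_smul'`.  proper: A compact is contained in closedBall p R; if x, g x in A then
dist p (g p) ≤ dist p (g x) + dist (g x) (g p) ≤ 2R.  g p = bt (g base) b0, g base = ⟨l, k⟩ with l in a
finite set F and dist b0 (act k b0) ≤ R' so k in a finite set (`act_fin`); g is determined by g base
(`GG.ext_at`), and the chart by (l, k).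
cocompact: A = bt base '' closedBall b0 R with R from `cocpt`: x = bt c b; there is k with
dist b0 (act k b) ≤ R; x = bt (c.mul k⁻¹) (act k b); take g with g (c.mul k⁻¹) = base.
-/

namespace Pool.CBD

open Real Set

variable {K N B : Type} [Group K] [MulAction K N] [MetricSpace B] {D : GDat K N B}

/-- the blocks in a ball about the base point, all depths together -/
private lemma all_blocks (D : GDat K N B) (R : ℝ) : ∃ F : Set (List N), F.Finite ∧ ∃ R' : ℝ,
    ∀ (d : D.Ch) (b : B), dist (bt (Ch.base D.toDat) D.b0) (bt d b) ≤ R →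
      d.w ∈ F ∧ dist D.b0 (D.act d.k b) ≤ R' := by
  choose F hF R' hR' using fun n : ℕ => finite_blocks (D := D) n R
  obtain ⟨M, hM⟩ := exists_nat_ge (R / D.del + 1)
  refine ⟨⋃ n ∈ Finset.range (M + 1), F n, ?_, ∑ n ∈ Finset.range (M + 1), |R' n|, ?_⟩
  · exact (Finset.range (M + 1)).finite_toSet.biUnion fun n _ => hF n
  · intro d b h
    have h1 := (dep_le d D.b0 b).trans h
    have h2 : (d.w.length : ℝ) ≤ M := by
      have h3 : (d.w.length - 1 : ℝ) ≤ R / D.del := by
        rw [le_div_iff₀ D.del_pos]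
        exact h1
      linarith
    have h4 : d.w.length ∈ Finset.range (M + 1) := by
      rw [Finset.mem_range]
      have h5 : d.w.length ≤ M := by exact_mod_cast h2
      omega
    obtain ⟨h6, h7⟩ := hR' d.w.length d b rfl h
    refine ⟨Set.mem_biUnion h4 h6, h7.trans ((le_abs_self _).trans ?_)⟩
    exact Finset.single_le_sum (f := fun n => |R' n|) (fun n _ => abs_nonneg _) h4

private lemma bt_cont (c : D.Ch) : Continuous (bt c : B → XX D) :=
  (Isometry.of_dist_eq (dist_bt c)).continuous

private lemma compact_ball [ProperSpace B] (R : ℝ) :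
    IsCompact (Metric.closedBall (bt (Ch.base D.toDat) D.b0) R) := by
  obtain ⟨F, hF, R', hR'⟩ := all_blocks D R
  set T : Set D.Ch := {c : D.Ch | c.w ∈ F ∧ c.k = 1} with hT
  have hTfin : T.Finite := by
    refine Set.Finite.of_finite_image (f := fun c : D.Ch => c.w) ?_ ?_
    · refine hF.subset ?_
      rintro _ ⟨c, hc, rfl⟩
      exact hc.1
    · intro c hc c' hc' h
      exact Ch.ext h (hc.2.trans hc'.2.symm)
  have hcomp : IsCompact (⋃ c ∈ T, (bt c : B → XX D) '' Metric.closedBall D.b0 R') :=
    hTfin.isCompact_biUnion fun c _ => (isCompact_closedBall _ _).image (bt_cont c)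
  refine hcomp.of_isClosed_subset Metric.isClosed_closedBall ?_
  intro x hx
  obtain ⟨d, b, rfl⟩ := exists_bt x
  rw [Metric.mem_closedBall, dist_comm] at hx
  obtain ⟨h1, h2⟩ := hR' d b hx
  rw [Set.mem_iUnion₂]
  obtain ⟨w, k, ok⟩ := d
  refine ⟨(⟨w, 1, ok⟩ : D.Ch), ⟨h1, rfl⟩, D.act k b, ?_, ?_⟩
  · rw [Metric.mem_closedBall, dist_comm]
    exact h2
  · have e : (⟨w, k, ok⟩ : D.Ch) = (⟨w, 1, ok⟩ : D.Ch).mul k := by
      ext1
      · rfl
      · change k = 1 * k
        rw [one_mul]
    rw [e, bt_mul]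

instance properSpace_XX [ProperSpace B] : ProperSpace (XX D) := by
  refine ⟨fun x r => ?_⟩
  refine (compact_ball (r + dist x (bt (Ch.base D.toDat) D.b0))).of_isClosed_subset
    Metric.isClosed_closedBall ?_
  exact Metric.closedBall_subset_closedBall' le_rfl

theorem geometric [ProperSpace B] (D : GDat K N B) : Geometric (GG D.toDat) (XX D) := by
  refine ⟨dist_smul', ?_, ?_⟩
  · intro A hA
    set p : XX D := bt (Ch.base D.toDat) D.b0 with hp
    obtain ⟨R, hR⟩ := hA.isBounded.subset_closedBall p
    obtain ⟨F, hF, R', hR'⟩ := all_blocks D (R + R)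
    have hK := D.act_fin R'
    have hinj : Set.InjOn (fun g : GG D.toDat => ((g.1 (Ch.base D.toDat)).w,
        (g.1 (Ch.base D.toDat)).k)) Set.univ := by
      intro g _ g' _ h
      have h1 := Prod.mk.inj h
      exact GG.ext_at (Ch.ext h1.1 h1.2)
    refine Set.Finite.of_finite_image (f := fun g : GG D.toDat =>
      ((g.1 (Ch.base D.toDat)).w, (g.1 (Ch.base D.toDat)).k)) ?_ (hinj.mono (Set.subset_univ _))
    refine (hF.prod hK).subset ?_
    rintro _ ⟨g, ⟨x, hx, hgx⟩, rfl⟩
    have h1 := hR hx
    have h2 := hR hgx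
    rw [Metric.mem_closedBall] at h1 h2
    have h3 : dist p (g • p) ≤ R + R := by
      have h4 := dist_triangle p (g • x) (g • p)
      rw [dist_smul' g x p, dist_comm p (g • x)] at h4
      linarith
    rw [hp, smul_bt] at h3
    exact hR' _ _ h3
  · obtain ⟨R, hR⟩ := D.cocpt
    refine ⟨(bt (Ch.base D.toDat) : B → XX D) '' Metric.closedBall D.b0 R,
      (isCompact_closedBall _ _).image (bt_cont _), fun x => ?_⟩
    obtain ⟨c, b, rfl⟩ := exists_bt x
    obtain ⟨k, hk⟩ := hR b
    obtain ⟨g, hg⟩ := exists_GG (Pool.CBD.Ch.mul c k⁻¹) (Ch.base D.toDat)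
    refine ⟨g, D.act k b, ?_, ?_⟩
    · rw [Metric.mem_closedBall, dist_comm]
      exact hk
    · have e : bt c b = bt (Pool.CBD.Ch.mul c k⁻¹) (D.act k b) := by
        rw [bt_mul, D.act_inv_act]
      rw [e, smul_bt, hg]

end Pool.CBD
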