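import Pool.Agent.CBD.DSP
import Pool.Agent.CBD.DEX

/-!
# CBD module DSE: the separation formula in a block, and minimisers

PROOF.  `sep_eq`: ≥ from `sep_ge` with d1 = c (`not_beh_mul` with k = 1, `Ch.mul_one`) and `dist_bt`;
≤: `le_ciInf` and the triangle inequality.
`sep_flip`: bt c w = bt c.flip (io w).
`sep_min`: the function w ↦ dist (bt d1 b1) (bt c w) + dist (bt c w) (bt d2 b2) is continuous on the closed
subset W of the proper space B and tends to infinity (dist (bt d1 b1) (bt c w) ≥ dist (bt c w) (bt c b) -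
const = dist w b - const by `dist_bt`), so it has a minimum; with `sep_ge` and the triangle inequality the
minimum is dist (bt d1 b1) (bt d2 b2).
-/

namespace Pool.CBD

open Real Set

variable {K N B : Type} [Group K] [MulAction K N] [MetricSpace B] {D : GDat K N B}

private theorem dse_self (c : D.Ch) : ¬ Beh c c := by
  have h := not_beh_mul c 1
  rwa [Ch.mul_one] at h

private theorem dse_ne (D : GDat K N B) : Nonempty D.W := ⟨⟨D.pr D.b0, D.pr_mem _⟩⟩

theorem sep_eq {c d : D.Ch} (h : Beh c d) (b b' : B) :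
    dist (bt c b) (bt d b') = ⨅ w : D.W, (dist b (w : B) + dist (bt c (w : B)) (bt d b')) := by
  have := dse_ne D
  apply le_antisymm
  · refine le_ciInf fun w => ?_
    rw [← dist_bt c b (w : B)]
    exact dist_triangle _ _ _
  · have h1 := sep_ge (dse_self c) h b b'
    simp only [dist_bt] at h1
    exact h1

theorem sep_flip {c d : D.Ch} (h : Beh c d) (b b' : B) :
    dist (bt c b) (bt d b') =
      ⨅ w : D.W, (dist b (w : B) + dist (bt c.flip (D.io (w : B))) (bt d b')) := by
  rw [sep_eq h]
  congr 1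
  funext w
  rw [bt_flip c w.2]

theorem sep_min [ProperSpace B] {c d1 d2 : D.Ch} (h1 : ¬ Beh c d1) (h2 : Beh c d2) (b1 b2 : B) :
    ∃ w ∈ D.W, dist (bt d1 b1) (bt d2 b2) = dist (bt d1 b1) (bt c w) + dist (bt c w) (bt d2 b2) := by
  have := dse_ne D
  have hiso : Isometry (fun w : B => bt (D := D) c w) := Isometry.of_dist_eq (dist_bt c)
  have hcont : Continuous (fun w : B => dist (bt d1 b1) (bt c w) + dist (bt c w) (bt d2 b2)) :=
    (continuous_const.dist hiso.continuous).add (hiso.continuous.dist continuous_const)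
  have hw0 : D.pr D.b0 ∈ D.W := D.pr_mem _
  obtain ⟨w, hw, hmin⟩ := hcont.continuousOn.exists_isMinOn' D.W_closed hw0 (by
    have h3 := (tendsto_dist_right_cocompact_atTop D.b0).eventually_ge_atTop
      (dist (bt d1 b1) (bt c (D.pr D.b0)) + dist (bt c (D.pr D.b0)) (bt d2 b2) +
        dist (bt c D.b0) (bt d2 b2))
    refine Filter.Eventually.filter_mono inf_le_left (h3.mono fun w hw => ?_)
    have h4 := dist_triangle (bt c w) (bt d2 b2) (bt c D.b0)
    rw [dist_bt, dist_comm (bt d2 b2) (bt c D.b0)] at h4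
    have h5 : 0 ≤ dist (bt d1 b1) (bt c w) := dist_nonneg
    linarith)
  refine ⟨w, hw, le_antisymm (dist_triangle _ _ _) ?_⟩
  refine le_trans (le_ciInf fun w' => ?_) (sep_ge h1 h2 b1 b2)
  exact hmin w'.2

end Pool.CBD
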