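import Pool.Agent.CBD.Spc
import Pool.Agent.CBD.CBH

/-!
# CBD module DSP: the separation formula

PROOF.  `sep_ge`: p = bt d1 b1, the block of d1 is not behind the base wall of c and that of d2 is.
Define a family f d x = dist p (bt d x) if ¬ Beh c d, and
f d x = ⨅ w : W, (dist p (bt c w) + dist (bt c w) (bt d x)) if Beh c d.
It is 1-Lipschitz on every chart (`dist_bt_le_dist`; infimum over a nonempty set (`pr b0`) of
1-Lipschitz functions bounded below); compatible with mul (`bt_mul`, `beh_mul_right`); with flip: if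
Beh c d.flip ↔ Beh c d it follows from `bt_flip`.  Otherwise (`beh_flip_right`) d = c.mul k or
d = c.flip.mul k, k a0 = a0: then the common point x = bt d w (w in W) is of the form bt c w' with w' in W
(bt (c.mul k) w = bt c (act k w); bt (c.flip.mul k) w = bt c.flip (act k w) = bt c (io (act k w)), using
io_io), and for such a point dist p x = ⨅ w, (dist p (bt c w) + dist (bt c w) x): ≤ by the triangle
inequality, ≥ taking w = w'.
So f is a `LipF`, f d1 b1 = 0, and `LipF.le_dist` gives
⨅ w, (dist p (bt c w) + dist (bt c w) (bt d2 b2)) ≤ dist (bt d1 b1) (bt d2 b2).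
`sep_eq` is the special case d1 = c: together with dist (bt c b) (bt c w) ≤ dist b w and the triangle
inequality for the other direction.  Note dist (bt c b) (bt c w) = dist b w is `dist_bt` (module DEX, not
needed: for the lower bound you need it; import DEX).
-/

namespace Pool.CBD

open Real Set

variable {K N B : Type} [Group K] [MulAction K N] [MetricSpace B] {D : GDat K N B}

private theorem dsp_bdd (p : XX D) (c : D.Ch) (x : XX D) :
    BddBelow (Set.range fun w : D.W => dist p (bt c (w : B)) + dist (bt c (w : B)) x) := by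
  refine ⟨0, ?_⟩
  rintro _ ⟨w, rfl⟩
  positivity

private theorem dsp_ne (D : GDat K N B) : Nonempty D.W := ⟨⟨D.pr D.b0, D.pr_mem _⟩⟩

private theorem dsp_inf_le (p : XX D) (c : D.Ch) (x y : XX D) :
    (⨅ w : D.W, (dist p (bt c (w : B)) + dist (bt c (w : B)) x)) - dist x y ≤
      ⨅ w : D.W, (dist p (bt c (w : B)) + dist (bt c (w : B)) y) := by
  have := dsp_ne D
  refine le_ciInf fun w => ?_
  have h1 := ciInf_le (dsp_bdd p c x) w
  have h2 := dist_triangle (bt c (w : B)) y x
  rw [dist_comm y x] at h2
  linarith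

private theorem dsp_inf_lip (p : XX D) (c : D.Ch) (x y : XX D) :
    |(⨅ w : D.W, (dist p (bt c (w : B)) + dist (bt c (w : B)) x)) -
      ⨅ w : D.W, (dist p (bt c (w : B)) + dist (bt c (w : B)) y)| ≤ dist x y := by
  have h1 := dsp_inf_le p c x y
  have h2 := dsp_inf_le p c y x
  rw [dist_comm y x] at h2
  rw [abs_le]
  constructor <;> linarith

private theorem dsp_common (p : XX D) (c : D.Ch) (w' : B) (hw' : w' ∈ D.W) :
    (⨅ w : D.W, (dist p (bt c (w : B)) + dist (bt c (w : B)) (bt c w'))) = dist p (bt c w') := by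
  have := dsp_ne D
  apply le_antisymm
  · refine (ciInf_le (dsp_bdd p c (bt c w')) ⟨w', hw'⟩).trans ?_
    simp
  · exact le_ciInf fun w => dist_triangle _ _ _

open Classical in
/-- The compatible family used in `sep_ge`. -/
private noncomputable def dspF (p : XX D) (c : D.Ch) : LipF D where
  f d x := if Beh c d then ⨅ w : D.W, (dist p (bt c (w : B)) + dist (bt c (w : B)) (bt d x))
    else dist p (bt d x)
  lip d b b' := by
    split_ifs with h
    · exact (dsp_inf_lip p c _ _).trans (dist_bt_le_dist d b b')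
    · refine le_trans ?_ (dist_bt_le_dist d b b')
      rw [dist_comm p, dist_comm p]
      exact abs_dist_sub_le _ _ _
  mul d k b := by
    simp only [beh_mul_right, bt_mul]
  flip d w hw := by
    by_cases h : (Beh c d.flip ↔ Beh c d)
    · simp only [h, bt_flip d hw]
    · have h1 : ∃ w' ∈ D.W, bt d w = bt c w' := by
        obtain ⟨k, hk, h2 | h2⟩ := beh_flip_right h
        · exact ⟨D.act k w, D.act_W k hk w hw, by rw [h2, bt_mul]⟩
        · have h3 := D.act_W k hk w hw
          refine ⟨D.io (D.act k w), D.io_mem _ h3, ?_⟩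
          rw [h2, bt_mul]
          have h4 := bt_flip c (D.io_mem _ h3)
          rwa [D.io_io _ h3] at h4
      obtain ⟨w', hw', h2⟩ := h1
      rw [bt_flip d hw, h2, dsp_common p c w' hw', ite_self, ite_self]

theorem sep_ge {c d1 d2 : D.Ch} (h1 : ¬ Beh c d1) (h2 : Beh c d2) (b1 b2 : B) :
    ⨅ w : D.W, (dist (bt d1 b1) (bt c (w : B)) + dist (bt c (w : B)) (bt d2 b2))
      ≤ dist (bt d1 b1) (bt d2 b2) := by
  have h3 := (dspF (bt d1 b1) c).le_dist d1 d2 b1 b2
  have h4 : (dspF (bt d1 b1) c).f d1 b1 = 0 := by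
    simp only [dspF, if_neg h1, dist_self]
  have h5 : (dspF (bt d1 b1) c).f d2 b2 =
      ⨅ w : D.W, (dist (bt d1 b1) (bt c (w : B)) + dist (bt c (w : B)) (bt d2 b2)) := by
    simp only [dspF, if_pos h2]
  rw [h4, h5, zero_sub, abs_neg] at h3
  exact (le_abs_self _).trans h3

end Pool.CBD
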