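import Mathlib

/-!
# CBD: charts of a tree of blocks (combinatorial part)

K is the stabiliser of a block, N the set of its walls (K acts transitively), a0 the base wall,
C the stabiliser of a0, sg an involutive automorphism of C (only its values on C matter), and r a
section of k ↦ k a0.  Blocks are the valid words: lists of walls all of whose letters except the last
one are different from a0; a :: l is the block glued to the block l along the wall a of l, and the base
wall of a :: l is the wall along which it is glued to l.  A chart is a pair (l, k); it stands for the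
identification b ↦ (l, k b) of the model block with the block l.  `flip` sends a chart to the chart
across its base wall k W0.  `GG` is the group of all permutations of the set of charts which commute
with the right action of K and with flip.
-/

namespace Pool.CBD

structure Dat (K N : Type) [Group K] [MulAction K N] where
  a0 : N
  r : N → K
  r_smul : ∀ a, r a • a0 = a
  r_a0 : r a0 = 1
  sg : K → K
  sg_mem : ∀ c, c • a0 = a0 → sg c • a0 = a0
  sg_mul : ∀ c d, c • a0 = a0 → d • a0 = a0 → sg (c * d) = sg c * sg d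
  sg_sg : ∀ c, c • a0 = a0 → sg (sg c) = c

variable {K N : Type} [Group K] [MulAction K N]

theorem Dat.sg_one (D : Dat K N) : D.sg 1 = 1 := by
  have h := D.sg_mul 1 1 (one_smul _ _) (one_smul _ _)
  rw [mul_one] at h
  exact (mul_eq_left.mp h.symm)

/-- Valid words: every letter except the last one is different from a0. -/
def Valid (a0 : N) : List N → Prop
  | [] => True
  | [_] => True
  | a :: b :: l => a ≠ a0 ∧ Valid a0 (b :: l)

theorem Valid.tail {a0 : N} {l : List N} (h : Valid a0 l) : Valid a0 l.tail := by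
  match l, h with
  | [], _ => exact trivial
  | [_], _ => exact trivial
  | _ :: _ :: _, h => exact h.2

theorem Valid.cons {a0 a : N} {l : List N} (h : Valid a0 l) (ha : ¬ (a = a0 ∧ l ≠ [])) :
    Valid a0 (a :: l) := by
  match l, h with
  | [], _ => exact trivial
  | _ :: _, h => exact ⟨fun e => ha ⟨e, List.cons_ne_nil _ _⟩, h⟩

/-- Charts. -/
@[ext]
structure Ch (D : Dat K N) where
  w : List N
  k : K
  ok : Valid D.a0 w

namespace Ch

variable {D : Dat K N}

/-- The right action of K on charts. -/
def mul (c : Ch D) (k : K) : Ch D := ⟨c.w, c.k * k, c.ok⟩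

/-- The chart of the neighbouring block across the base wall of a chart. -/
noncomputable def flip (c : Ch D) : Ch D :=
  open Classical in
  if h : c.k • D.a0 = D.a0 ∧ c.w ≠ [] then
    ⟨c.w.tail, D.r (c.w.head h.2) * D.sg c.k, c.ok.tail⟩
  else ⟨c.k • D.a0 :: c.w, D.sg ((D.r (c.k • D.a0))⁻¹ * c.k), c.ok.cons h⟩

variable (D) in
/-- The base chart. -/
def base : Ch D := ⟨[], 1, trivial⟩

@[simp] theorem mul_w (c : Ch D) (k : K) : (c.mul k).w = c.w := rfl
@[simp] theorem mul_k (c : Ch D) (k : K) : (c.mul k).k = c.k * k := rfl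

theorem mul_mul (c : Ch D) (k k' : K) : (c.mul k).mul k' = c.mul (k * k') := by
  simp [mul, mul_assoc]

theorem mul_one (c : Ch D) : c.mul 1 = c := by
  simp [mul]

theorem flip_of_pos {c : Ch D} (h1 : c.k • D.a0 = D.a0) (h2 : c.w ≠ []) :
    c.flip = ⟨c.w.tail, D.r (c.w.head h2) * D.sg c.k, c.ok.tail⟩ := by
  unfold flip
  rw [dif_pos ⟨h1, h2⟩]

theorem flip_of_neg {c : Ch D} (h : ¬ (c.k • D.a0 = D.a0 ∧ c.w ≠ [])) :
    c.flip = ⟨c.k • D.a0 :: c.w, D.sg ((D.r (c.k • D.a0))⁻¹ * c.k), c.ok.cons h⟩ := by
  unfold flip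
  rw [dif_neg h]

theorem inv_smul_a0 (D : Dat K N) (k : K) : ((D.r (k • D.a0))⁻¹ * k) • D.a0 = D.a0 := by
  rw [mul_smul, inv_smul_eq_iff, D.r_smul]

theorem flip_flip (c : Ch D) : c.flip.flip = c := by
  by_cases h : c.k • D.a0 = D.a0 ∧ c.w ≠ []
  · obtain ⟨h1, h2⟩ := h
    rw [flip_of_pos h1 h2]
    obtain ⟨w, k, ok⟩ := c
    match w, ok, h2 with
    | a :: l, ok, h2 =>
      simp only [List.tail_cons, List.head_cons] at h1 ⊢
      have hk : (D.r a * D.sg k) • D.a0 = a := by
        rw [mul_smul, D.sg_mem k h1, D.r_smul]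
      have hneg : ¬ ((D.r a * D.sg k) • D.a0 = D.a0 ∧ l ≠ []) := by
        rintro ⟨e, hl⟩
        rw [hk] at e
        match l, ok, hl with
        | b :: l', ok, _ => exact ok.1 e
      rw [flip_of_neg hneg]
      ext1
      · simp only [hk]
      · simp only [hk, inv_mul_cancel_left]
        exact D.sg_sg k h1
  · rw [flip_of_neg h]
    have hm := inv_smul_a0 D c.k
    rw [flip_of_pos (D.sg_mem _ hm) (List.cons_ne_nil _ _)]
    ext1
    · rfl
    · simp only [List.head_cons]
      rw [D.sg_sg _ hm, mul_inv_cancel_left]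

theorem flip_mul (c : Ch D) {k : K} (hk : k • D.a0 = D.a0) :
    (c.mul k).flip = c.flip.mul (D.sg k) := by
  have e : (c.mul k).k • D.a0 = c.k • D.a0 := by simp [mul_smul, hk]
  by_cases h : c.k • D.a0 = D.a0 ∧ c.w ≠ []
  · obtain ⟨h1, h2⟩ := h
    rw [flip_of_pos h1 h2, flip_of_pos (e.trans h1) (by simpa using h2)]
    ext1
    · rfl
    · simp only [mul_k, mul_w]
      rw [D.sg_mul _ _ h1 hk, mul_assoc]
  · rw [flip_of_neg h, flip_of_neg (by rw [e]; exact h)]
    ext1
    · simp only [mul_w, mul_k, mul_smul, hk]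
    · simp only [mul_k]
      have e' : (c.k * k) • D.a0 = c.k • D.a0 := by rw [mul_smul, hk]
      rw [e', ← mul_assoc, D.sg_mul _ _ (inv_smul_a0 D c.k) hk]

/-- The block a :: l in the chart of its base wall is the flip of a chart of l. -/
theorem cons_eq_flip {a : N} {l : List N} (h : Valid D.a0 (a :: l)) :
    (⟨a :: l, 1, h⟩ : Ch D) = (⟨l, D.r a, h.tail⟩ : Ch D).flip := by
  have hneg : ¬ ((⟨l, D.r a, h.tail⟩ : Ch D).k • D.a0 = D.a0 ∧ (⟨l, D.r a, h.tail⟩ : Ch D).w ≠ []) := by
    rintro ⟨e, hl⟩
    simp only [D.r_smul] at e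
    match l, h, hl with
    | b :: l', h, _ => exact h.1 e
  rw [flip_of_neg hneg]
  ext1
  · simp only [D.r_smul]
  · simp only [D.r_smul, inv_mul_cancel, D.sg_one]

/-- Every set of charts which is closed under the right action and flip and contains the base chart
is everything. -/
theorem conn_base (S : Set (Ch D)) (h0 : base D ∈ S) (hm : ∀ c ∈ S, ∀ k, c.mul k ∈ S)
    (hf : ∀ c ∈ S, c.flip ∈ S) (c : Ch D) : c ∈ S := by
  obtain ⟨w, k, ok⟩ := c
  induction w generalizing k with
  | nil =>
    have := hm _ h0 k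
    simpa [base, mul] using this
  | cons a l ih =>
    have h1 := hf _ (ih (D.r a) ok.tail)
    have h2 := hm _ ((cons_eq_flip ok).symm ▸ h1) k
    simpa [mul] using h2

theorem conn {c0 : Ch D} (S : Set (Ch D)) (h0 : c0 ∈ S) (hm : ∀ c ∈ S, ∀ k, c.mul k ∈ S)
    (hf : ∀ c ∈ S, c.flip ∈ S) (c : Ch D) : c ∈ S := by
  have hb : base D ∈ S := by
    have := conn_base {c : Ch D | c ∈ S → base D ∈ S} (fun h => h)
      (fun c hc k h => hc (by
        have := hm _ h k⁻¹
        rwa [mul_mul, mul_inv_cancel, mul_one] at this))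
      (fun c hc h => hc (by
        have := hf _ h
        rwa [flip_flip] at this)) c0
    exact this h0
  exact conn_base S hb hm hf c

end Ch

/-- The group of all permutations of the charts commuting with the right action and with flip. -/
def GG (D : Dat K N) : Subgroup (Equiv.Perm (Ch D)) where
  carrier := {f | (∀ c k, f (c.mul k) = (f c).mul k) ∧ ∀ c, f c.flip = (f c).flip}
  mul_mem' := by
    rintro f g ⟨hf1, hf2⟩ ⟨hg1, hg2⟩
    exact ⟨fun c k => by simp [hg1, hf1], fun c => by simp [hg2, hf2]⟩
  one_mem' := ⟨fun _ _ => rfl, fun _ => rfl⟩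
  inv_mem' := by
    rintro f ⟨hf1, hf2⟩
    refine ⟨fun c k => ?_, fun c => ?_⟩
    · apply f.injective
      rw [hf1]
      simp
    · apply f.injective
      rw [hf2]
      simp

instance (D : Dat K N) : Group (GG D) := inferInstance

end Pool.CBD
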