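import Pool.Agent.CBD.ECP

/-!
# CBD module EBC: change of base point

PROOF of `exists_asy`.  Let D = dist o w.  For n : ℕ let g_n be a geodesic from o to ev r n, of length
d_n = dist o (ev r n) ≥ n - D.  For fixed t ≥ 0 and n large (d_n ≥ t, n ≥ t) the point g_n t lies in
closedBall o t (compact).  Take an ultrafilter U on ℕ finer than atTop (`Filter.hyperfilter ℕ`) and let
f t be the limit of g_n t.  dist (f s) (f t) = |s - t|, f 0 = o: a ray r'.
Estimate: with q = t/n ≤ 1, `Cat0.quad` for the geodesics from o to ev r n and from w to ev r n at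
the ratio q: dist (g_n (q d_n)) (ev r t) ≤ (1 - q) D, and |q d_n - t| = q |d_n - n| ≤ q D, so
dist (g_n t) (ev r t) ≤ D + q D ≤ 2 D.  Pass to the limit.
`asy_bound`: an asymptotic ray is the one constructed (asy_unique and transitivity).
`bcEquiv`: the bijection; `bc`: continuous because its graph
{(r', r) | ∀ t ≥ 0, dist (ev r t) (ev r' t) ≤ 2 D} is closed (evaluations are continuous) and the
target is compact Hausdorff (`isClosed_graph`/`continuous_of_...`: search Mathlib for closed graph
theorem with compact codomain, or prove with ultrafilters); same for the inverse.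
-/

namespace Pool.CBD

open Real Set

variable {X : Type*} [MetricSpace X]

private theorem EBC_cont (o : X) (t : ℝ) : Continuous (fun r : Bd X o => ev r t) := by
  have h : Continuous (fun r : Bd X o => ((r, t) : Bd X o × ℝ)) := by fun_prop
  exact continuous_ev2.comp h

theorem exists_asy [ProperSpace X] (hX : Cat0 X) (o : X) {w : X} (r : Bd X w) :
    ∃ r' : Bd X o, ∀ t : ℝ, 0 ≤ t → dist (ev r' t) (ev r t) ≤ 2 * dist o w := by
  classical
  choose g hg0 hg1 hg2 using fun n : ℕ => hX.geod o (ev r n)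
  have hrn : ∀ n : ℕ, dist w (ev r n) = n := fun n => dist_o_ev r (Nat.cast_nonneg n)
  have hd1 : ∀ n : ℕ, (n : ℝ) - dist o w ≤ dist o (ev r n) := by
    intro n
    have h := dist_triangle w o (ev r n)
    rw [hrn, dist_comm w o] at h
    linarith
  have hd2 : ∀ n : ℕ, dist o (ev r n) ≤ n + dist o w := by
    intro n
    have h := dist_triangle o w (ev r n)
    rw [hrn] at h
    linarith
  have hU : (Filter.hyperfilter ℕ : Filter ℕ) ≤ Filter.atTop := by
    rw [← Nat.cofinite_eq_atTop]
    exact Filter.hyperfilter_le_cofinite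
  have hlarge : ∀ t : ℝ, ∀ᶠ n : ℕ in (Filter.hyperfilter ℕ : Filter ℕ), t ≤ dist o (ev r n) := by
    intro t
    apply Filter.Eventually.filter_mono hU
    filter_upwards [Filter.eventually_ge_atTop ⌈t + dist o w⌉₊] with n hn
    have h1 : t + dist o w ≤ n := (Nat.le_ceil _).trans (by exact_mod_cast hn)
    linarith [hd1 n]
  have hdo : ∀ t : ℝ, 0 ≤ t → ∀ n : ℕ, t ≤ dist o (ev r n) → dist (g n t) o = t := by
    intro t ht n hn
    have h := hg2 n t ⟨ht, hn⟩ 0 ⟨le_refl _, dist_nonneg⟩
    rw [hg0, sub_zero, abs_of_nonneg ht] at h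
    exact h
  have hlim : ∀ t : ℝ, ∃ x : X, 0 ≤ t →
      Filter.Tendsto (fun n => g n t) (Filter.hyperfilter ℕ : Filter ℕ) (nhds x) := by
    intro t
    by_cases ht : 0 ≤ t
    · obtain ⟨x, -, hx⟩ := (isCompact_closedBall o t).ultrafilter_le_nhds'
        ((Filter.hyperfilter ℕ).map (fun n => g n t)) (by
          rw [Ultrafilter.mem_map]
          filter_upwards [hlarge t] with n hn
          simp only [mem_preimage, Metric.mem_closedBall]
          exact (hdo t ht n hn).le)
      exact ⟨x, fun _ => hx⟩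
    · exact ⟨o, fun h => absurd h ht⟩
  choose f hf using hlim
  have hf0 : f 0 = o := by
    have h1 := hf 0 le_rfl
    simp only [hg0] at h1
    exact tendsto_nhds_unique h1 tendsto_const_nhds
  have hiso : ∀ s t : ℝ, 0 ≤ s → 0 ≤ t → dist (f s) (f t) = |s - t| := by
    intro s t hs ht
    have h1 := (hf s hs).dist (hf t ht)
    have h2 : Filter.Tendsto (fun n => dist (g n s) (g n t)) (Filter.hyperfilter ℕ : Filter ℕ)
        (nhds |s - t|) := by
      apply tendsto_const_nhds.congr'
      filter_upwards [hlarge s, hlarge t] with n h3 h4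
      exact (hg2 n s ⟨hs, h3⟩ t ⟨ht, h4⟩).symm
    exact tendsto_nhds_unique h1 h2
  refine ⟨mkRay f hf0 hiso, ?_⟩
  intro t ht
  rw [ev_mkRay f hf0 hiso ht]
  have h1 : Filter.Tendsto (fun n => dist (g n t) (ev r t)) (Filter.hyperfilter ℕ : Filter ℕ)
      (nhds (dist (f t) (ev r t))) := (hf t ht).dist tendsto_const_nhds
  apply le_of_tendsto h1
  have hn0 : ∀ᶠ n : ℕ in (Filter.hyperfilter ℕ : Filter ℕ), t + 1 ≤ (n : ℝ) := by
    apply Filter.Eventually.filter_mono hU
    filter_upwards [Filter.eventually_ge_atTop ⌈t + 1⌉₊] with n hn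
    exact (Nat.le_ceil _).trans (by exact_mod_cast hn)
  filter_upwards [hlarge t, hn0] with n h2 h3
  have hnpos : (0 : ℝ) < n := by linarith
  set d := dist o (ev r n) with hd
  set q := t / n with hq
  have hq0 : 0 ≤ q := div_nonneg ht hnpos.le
  have hq1 : q ≤ 1 := by
    rw [hq, div_le_one hnpos]; linarith
  have hd0 : 0 ≤ d := dist_nonneg
  have hqd : q * d ∈ Icc 0 d := ⟨mul_nonneg hq0 hd0, by nlinarith⟩
  have hqn : q * n = t := by rw [hq]; field_simp
  have e1 : dist o (g n (q * d)) = q * d := by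
    have h := hg2 n (q * d) hqd 0 ⟨le_refl _, dist_nonneg⟩
    rw [hg0, sub_zero, abs_of_nonneg hqd.1, dist_comm] at h
    exact h
  have e2 : dist (g n (q * d)) (ev r n) = (1 - q) * d := by
    have h := hg2 n (q * d) hqd d ⟨hd0, le_refl _⟩
    rw [hg1, abs_of_nonpos (by linarith [hqd.2])] at h
    rw [h]; ring
  have e3 : dist w (ev r t) = q * dist w (ev r n) := by
    rw [hrn, hqn]
    exact dist_o_ev r ht
  have e4 : dist (ev r t) (ev r n) = (1 - q) * dist w (ev r n) := by
    rw [hrn, dist_ev r ht hnpos.le, abs_of_nonpos (by linarith)]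
    linear_combination hqn
  have h4 := Cat0.quad hX hq0 hq1 e1 e2 e3 e4
  rw [dist_self, mul_zero, add_zero] at h4
  have h5 : dist (g n t) (g n (q * d)) = |t - q * d| := hg2 n t ⟨ht, h2⟩ (q * d) hqd
  have h6 : |t - q * d| ≤ q * dist o w := by
    rw [← hqn, ← mul_sub, abs_mul, abs_of_nonneg hq0]
    apply mul_le_mul_of_nonneg_left _ hq0
    rw [abs_le]
    constructor
    · linarith [hd2 n]
    · linarith [hd1 n]
  have h7 := dist_triangle (g n t) (g n (q * d)) (ev r t)
  have h8 : (0 : ℝ) ≤ dist o w := dist_nonneg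
  nlinarith [h7, h6, h5, h4, h8]

theorem Asy.symm {o w : X} {r : Bd X o} {r' : Bd X w} (h : Asy r r') : Asy r' r := by
  obtain ⟨C, hC⟩ := h
  exact ⟨C, fun t ht => by rw [dist_comm]; exact hC t ht⟩

theorem Asy.trans {o w z : X} {r : Bd X o} {r' : Bd X w} {r'' : Bd X z} (h : Asy r r')
    (h' : Asy r' r'') : Asy r r'' := by
  obtain ⟨C, hC⟩ := h
  obtain ⟨C', hC'⟩ := h'
  exact ⟨C + C', fun t ht => (dist_triangle _ (ev r' t) _).trans (add_le_add (hC t ht) (hC' t ht))⟩

theorem asy_bound [ProperSpace X] (hX : Cat0 X) {o w : X} {r : Bd X o} {r' : Bd X w}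
    (h : Asy r r') {t : ℝ} (ht : 0 ≤ t) : dist (ev r t) (ev r' t) ≤ 2 * dist o w := by
  obtain ⟨r1, hr1⟩ := exists_asy hX o r'
  have h1 : Asy r1 r' := ⟨2 * dist o w, hr1⟩
  have h2 : r = r1 := asy_unique hX (h.trans h1.symm)
  rw [h2]
  exact hr1 t ht

private theorem EBC_continuous [ProperSpace X] (hX : Cat0 X) (w o : X) (f : Bd X w → Bd X o)
    (hf : ∀ r, ∀ t : ℝ, 0 ≤ t → dist (ev (f r) t) (ev r t) ≤ 2 * dist o w) : Continuous f := by
  have := compactSpace_Bd hX o
  rw [continuous_iff_ultrafilter]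
  intro x U hU
  have h1 : ((U.map f : Ultrafilter (Bd X o)) : Filter (Bd X o)) ≤ nhds (U.map f).lim :=
    Ultrafilter.le_nhds_lim _
  set y := (U.map f).lim with hy
  have h1' : Filter.Tendsto f U (nhds y) := h1
  have h2 : Asy y x := by
    refine ⟨2 * dist o w, fun t ht => ?_⟩
    have h3 : Filter.Tendsto (fun r => ev (f r) t) U (nhds (ev y t)) :=
      ((EBC_cont o t).tendsto y).comp h1'
    have h4 : Filter.Tendsto (fun r : Bd X w => ev r t) U (nhds (ev x t)) :=
      ((EBC_cont w t).tendsto x).mono_left hU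
    exact le_of_tendsto (h3.dist h4) (Filter.Eventually.of_forall fun r => hf r t ht)
  have h5 : Asy (f x) x := ⟨2 * dist o w, hf x⟩
  have h6 : y = f x := asy_unique hX (h2.trans h5.symm)
  rw [← h6]
  exact h1'

/-- Change of base point. -/
theorem exists_bc [ProperSpace X] (hX : Cat0 X) (w o : X) :
    ∃ b : Bd X w ≃ₜ Bd X o, ∀ r, Asy (b r) r := by
  choose f hf using fun r : Bd X w => exists_asy hX o r
  choose g hg using fun r : Bd X o => exists_asy hX w r
  have hfa : ∀ r, Asy (f r) r := fun r => ⟨_, hf r⟩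
  have hga : ∀ r, Asy (g r) r := fun r => ⟨_, hg r⟩
  refine ⟨{ toFun := f
            invFun := g
            left_inv := fun r => asy_unique hX ((hga (f r)).trans (hfa r))
            right_inv := fun r => asy_unique hX ((hfa (g r)).trans (hga r))
            continuous_toFun := EBC_continuous hX w o f hf
            continuous_invFun := EBC_continuous hX o w g hg }, hfa⟩

/-- Change of base point, as a function. -/
noncomputable def bc [ProperSpace X] (hX : Cat0 X) (w o : X) : Bd X w ≃ₜ Bd X o :=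
  (exists_bc hX w o).choose

theorem bc_asy [ProperSpace X] (hX : Cat0 X) (w o : X) (r : Bd X w) : Asy (bc hX w o r) r :=
  (exists_bc hX w o).choose_spec r

theorem bc_eq [ProperSpace X] (hX : Cat0 X) {w o : X} {r : Bd X w} {r' : Bd X o}
    (h : Asy r' r) : bc hX w o r = r' :=
  asy_unique hX ((bc_asy hX w o r).trans h.symm)

end Pool.CBD
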