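import Pool.Agent.CBD.EDF

/-!
# CBD module EBD: basic facts on rays

PROOFS.  Unfold `ev`; for 0 ≤ s, t: NNReal distance of s.toNNReal and t.toNNReal is |s - t|.
`mkRay` packages a distance preserving map of [0, ∞) as an element of Bd: the underlying map is
t ↦ f t (t : ℝ≥0), continuous because it is an isometry.
-/

namespace Pool.CBD

open Real Set

open scoped NNReal

variable {X : Type*} [MetricSpace X] {o : X}

theorem ev_zero (r : Bd X o) : ev r 0 = o := by
  unfold ev
  rw [Real.toNNReal_zero]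
  exact r.2.2

theorem dist_ev (r : Bd X o) {s t : ℝ} (hs : 0 ≤ s) (ht : 0 ≤ t) :
    dist (ev r s) (ev r t) = |s - t| := by
  unfold ev
  rw [r.2.1.dist_eq, NNReal.dist_eq, Real.coe_toNNReal s hs, Real.coe_toNNReal t ht]

theorem dist_o_ev (r : Bd X o) {t : ℝ} (ht : 0 ≤ t) : dist o (ev r t) = t := by
  have h := dist_ev r le_rfl ht
  rw [ev_zero, zero_sub, abs_neg, abs_of_nonneg ht] at h
  exact h

theorem Bd.ext' {r r' : Bd X o} (h : ∀ t : ℝ, 0 ≤ t → ev r t = ev r' t) : r = r' := by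
  apply Subtype.ext
  apply ContinuousMap.ext
  intro t
  have h1 := h t t.2
  unfold ev at h1
  rw [Real.toNNReal_coe] at h1
  exact h1

/-- A distance preserving map of the half line as an element of the boundary. -/
def mkRay (f : ℝ → X) (h0 : f 0 = o)
    (h : ∀ s t : ℝ, 0 ≤ s → 0 ≤ t → dist (f s) (f t) = |s - t|) : Bd X o :=
  have hi : Isometry (fun t : ℝ≥0 => f t) := by
    apply Isometry.of_dist_eq
    intro a b
    rw [h a b a.2 b.2, NNReal.dist_eq]
  ⟨⟨fun t : ℝ≥0 => f t, hi.continuous⟩, hi, h0⟩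

theorem ev_mkRay (f : ℝ → X) (h0 : f 0 = o)
    (h : ∀ s t : ℝ, 0 ≤ s → 0 ≤ t → dist (f s) (f t) = |s - t|) {t : ℝ} (ht : 0 ≤ t) :
    ev (mkRay f h0 h) t = f t := by
  have h1 : ev (mkRay f h0 h) t = f (t.toNNReal : ℝ) := rfl
  rw [h1, Real.coe_toNNReal t ht]

theorem continuous_ev (r : Bd X o) : Continuous (ev r) := by
  unfold ev
  exact r.1.continuous.comp continuous_real_toNNReal

end Pool.CBD
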