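import Pool.Agent.CBD.EDF

/-!
# CBD module ECD: the working form of the CAT(0) inequality implies the usual one

PROOF.  Let a = dist p x / dist p q (if dist p q = 0 then x = p = q; take a = 0), so
dist p x = a dist p q, dist x q = (1-a) dist p q, and b similarly for y on the side p r.
comp (vertex y, side p q): d(y,x)^2 ≤ (1-a) d(y,p)^2 + a d(y,q)^2 - a(1-a) d(p,q)^2, and
comp (vertex q, side p r): d(q,y)^2 ≤ (1-b) d(q,p)^2 + b d(q,r)^2 - b(1-b) d(p,r)^2.
In the Euclidean plane both are equalities for x', y': x' = p' + a (q' - p') (from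
dist p' x' + dist x' q' = dist p' q', strict convexity, `dist_add_dist_eq_iff`/`Wbtw`, or directly by
expanding norms), y' = p' + b (r' - p'), and ‖..‖^2 expansions.  Compare.
-/

namespace Pool.CBD

open Real Set

/-- parameter of a point on a side -/
private theorem ecd_param {X : Type*} [MetricSpace X] {p x q : X}
    (h : dist p x + dist x q = dist p q) :
    ∃ a : ℝ, 0 ≤ a ∧ a ≤ 1 ∧ dist p x = a * dist p q ∧ dist x q = (1 - a) * dist p q := by
  have h1 : 0 ≤ dist p x := dist_nonneg
  have h2 : 0 ≤ dist x q := dist_nonneg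
  rcases eq_or_ne (dist p q) 0 with h0 | h0
  · exact ⟨0, le_rfl, zero_le_one, by rw [h0]; linarith, by rw [h0]; linarith⟩
  · have hp : 0 < dist p q := lt_of_le_of_ne dist_nonneg (Ne.symm h0)
    refine ⟨dist p x / dist p q, by positivity, (div_le_one hp).mpr (by linarith), ?_, ?_⟩
    · field_simp
    · rw [sub_mul, one_mul, div_mul_cancel₀ _ h0]; linarith

/-- Stewart in the Euclidean plane. -/
private theorem ecd_stewart {p q x y : E2} {a : ℝ} (ha : 0 ≤ a) (ha1 : a ≤ 1)
    (h1 : dist p x = a * dist p q) (h2 : dist x q = (1 - a) * dist p q) :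
    dist y x ^ 2 = (1 - a) * dist y p ^ 2 + a * dist y q ^ 2 - a * (1 - a) * dist p q ^ 2 := by
  have hx : x = p + a • (q - p) := by
    have h3 : dist p x + dist x q = dist p q := by rw [h1, h2]; ring
    have h4 : Wbtw ℝ p x q := dist_add_dist_eq_iff.mp h3
    obtain ⟨c, hc, rfl⟩ := h4
    rcases eq_or_ne p q with hpq | hpq
    · subst hpq
      simp
    · have hp : dist p q ≠ 0 := dist_ne_zero.mpr hpq
      have h5 : dist p (AffineMap.lineMap p q c) = c * dist p q := by
        rw [dist_left_lineMap, Real.norm_of_nonneg hc.1]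
      rw [h5] at h1
      have : c = a := mul_right_cancel₀ hp h1
      rw [this, AffineMap.lineMap_apply]
      simp [add_comm]
  rw [dist_eq_norm, dist_eq_norm, dist_eq_norm, dist_eq_norm, hx]
  have e1 : y - (p + a • (q - p)) = (1 - a) • (y - p) + a • (y - q) := by
    module
  have e2 : p - q = (y - q) - (y - p) := by abel
  rw [e1, e2]
  generalize y - p = u
  generalize y - q = v
  rw [norm_add_sq_real, norm_sub_sq_real, norm_smul, norm_smul, inner_smul_left,
    inner_smul_right, real_inner_comm v u]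
  simp only [mul_pow, Real.norm_eq_abs, sq_abs, conj_trivial]
  ring

theorem Cat0.isCAT0 {X : Type*} [MetricSpace X] (hX : Cat0 X) : IsCAT0 X := by
  refine ⟨hX.geod, ?_⟩
  intro p q r x y p' q' r' x' y' hpq hqr hpr hx hpx hxq hy hpy hyr
  obtain ⟨a, ha, ha1, ha2, ha3⟩ := ecd_param hx
  obtain ⟨b, hb, hb1, hb2, hb3⟩ := ecd_param hy
  have k1 := hX.comp y p q x a ha ha1 ha2 ha3
  have k2 := hX.comp q p r y b hb hb1 hb2 hb3
  have s1 := ecd_stewart (p := p') (q := q') (x := x') (y := y') ha ha1
    (by rw [hpx, hpq, ha2]) (by rw [hxq, hpq, ha3])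
  have s2 := ecd_stewart (p := p') (q := r') (x := y') (y := q') hb hb1
    (by rw [hpy, hpr, hb2]) (by rw [hyr, hpr, hb3])
  rw [dist_comm q' p', hpq, hqr, hpr] at s2
  rw [dist_comm q p] at k2
  have k3 : dist q y ^ 2 ≤ dist q' y' ^ 2 := by rw [s2]; exact k2
  rw [dist_comm y' p', hpy, hpq, dist_comm y' q'] at s1
  rw [dist_comm y p, dist_comm y q] at k1
  have k4 : dist y x ^ 2 ≤ dist y' x' ^ 2 := by
    rw [s1]
    nlinarith
  rw [dist_comm x y, dist_comm x' y']
  exact (pow_le_pow_iff_left₀ dist_nonneg dist_nonneg two_ne_zero).mp k4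

end Pool.CBD
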