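import Pool.Agent.CBD.ETP

/-!
# CBD module ECP: the visual boundary of a proper CAT(0) space is compact

PROOF.  `isCompact_iff_ultrafilter_le_nhds`: let U be an ultrafilter on Bd X o.  For every t ≥ 0 the
map r ↦ ev r t takes values in the compact set closedBall o t, so U.map (ev · t) converges to a point
f t.  dist (f s) (f t) = lim dist (ev r s) (ev r t) = |s - t| and f 0 = o, so f defines a ray
(`mkRay`), and U converges to it by `hasBasis_nhds` (convergence of the evaluations).
-/

namespace Pool.CBD

open Real Set

variable {X : Type*} [MetricSpace X] {o : X}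

theorem compactSpace_Bd [ProperSpace X] (hX : Cat0 X) (o : X) : CompactSpace (Bd X o) := by
  refine ⟨isCompact_iff_ultrafilter_le_nhds.2 fun U _ => ?_⟩
  have hlim : ∀ t : ℝ, ∃ x : X, Filter.Tendsto (fun r : Bd X o => ev r t) (U : Filter (Bd X o))
      (nhds x) := by
    intro t
    have hc : IsCompact (Metric.closedBall o |t|) := isCompact_closedBall o |t|
    have hle : ((U.map (fun r : Bd X o => ev r t) : Ultrafilter X) : Filter X) ≤
        Filter.principal (Metric.closedBall o |t|) := by
      rw [Filter.le_principal_iff]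
      refine Filter.mem_map.2 (Filter.univ_mem' fun r => ?_)
      change ev r t ∈ Metric.closedBall o |t|
      rw [Metric.mem_closedBall, dist_comm]
      have h1 : ev r t = ev r (max t 0) := by
        unfold ev
        congr 1
        ext
        simp only [Real.coe_toNNReal', max_assoc, max_self]
      rw [h1, dist_o_ev r (le_max_right t 0)]
      exact max_le (le_abs_self t) (abs_nonneg t)
    obtain ⟨x, _, hx⟩ := isCompact_iff_ultrafilter_le_nhds.1 hc _ hle
    exact ⟨x, hx⟩
  choose f hf using hlim
  have h0 : f 0 = o := by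
    refine tendsto_nhds_unique (hf 0) ?_
    refine Filter.Tendsto.congr (fun r => (ev_zero r).symm) tendsto_const_nhds
  have hd : ∀ s t : ℝ, 0 ≤ s → 0 ≤ t → dist (f s) (f t) = |s - t| := by
    intro s t hs ht
    refine tendsto_nhds_unique ((hf s).dist (hf t)) ?_
    exact Filter.Tendsto.congr (fun r => (dist_ev r hs ht).symm) tendsto_const_nhds
  refine ⟨mkRay f h0 hd, Set.mem_univ _, ?_⟩
  rw [(hasBasis_nhds hX (mkRay f h0 hd)).ge_iff]
  rintro ⟨t, e⟩ ⟨ht, he⟩
  change {r' : Bd X o | dist (ev r' t) (ev (mkRay f h0 hd) t) < e} ∈ (U : Filter (Bd X o))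
  rw [ev_mkRay f h0 hd ht]
  exact Metric.tendsto_nhds.1 (hf t) e he

end Pool.CBD
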