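import Pool.Agent.CBD.EBD

/-!
# CBD module ECQ: convexity of the distance in CAT(0) spaces

PROOFS.  `Cat0.two_side` (two geodesics from the same point x0, same ratio t): let a be at ratio t on
[x0, x1] and b at ratio t on [x0, y1].  comp with p = b on [x0, x1]:
d(b,a)^2 ≤ (1-t) d(b,x0)^2 + t d(b,x1)^2 - t(1-t) d(x0,x1)^2, and comp with p = x1 on [x0,y1]:
d(x1,b)^2 ≤ (1-t) d(x1,x0)^2 + t d(x1,y1)^2 - t(1-t) d(x0,y1)^2, and d(b,x0) = t d(x0,y1).
Sum: d(a,b)^2 ≤ t^2 d(x1,y1)^2.
`Cat0.quad`: apply this twice with the diagonal geodesic from x0 to y1 (or y0 to x1), whose point at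
ratio t exists by geod.
`Cat0.uniq`: m, m' both at ratio t between x and y: quad (or two_side with x1 = y1 = y):
d(m,m') ≤ t d(y,y) = 0 (t = dist x m / dist x y; if x = y trivial).
`contr`: two_side with x0 = o, x1 = ev r t, y1 = ev r' t and ratio s/t.
-/

namespace Pool.CBD

open Real Set

variable {X : Type*} [MetricSpace X] {o : X}

theorem Cat0.two_side (hX : Cat0 X) {x0 x1 y1 a b : X} {t : ℝ} (ht : 0 ≤ t) (ht1 : t ≤ 1)
    (ha : dist x0 a = t * dist x0 x1) (ha' : dist a x1 = (1 - t) * dist x0 x1)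
    (hb : dist x0 b = t * dist x0 y1) (hb' : dist b y1 = (1 - t) * dist x0 y1) :
    dist a b ≤ t * dist x1 y1 := by
  have h1 := hX.comp b x0 x1 a t ht ht1 ha ha'
  have h2 := hX.comp x1 x0 y1 b t ht ht1 hb hb'
  rw [dist_comm b x0, hb, dist_comm b x1, dist_comm b a] at h1
  rw [dist_comm x1 x0] at h2
  have h3 : dist a b ^ 2 ≤ (t * dist x1 y1) ^ 2 := by
    have h4 : t * dist x1 b ^ 2 ≤ t * ((1 - t) * dist x0 x1 ^ 2 + t * dist x1 y1 ^ 2
        - t * (1 - t) * dist x0 y1 ^ 2) := mul_le_mul_of_nonneg_left h2 ht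
    nlinarith [h1, h4]
  have h5 : 0 ≤ t * dist x1 y1 := mul_nonneg ht dist_nonneg
  exact le_trans (le_abs_self _) (abs_le_of_sq_le_sq h3 h5)

theorem Cat0.exists_ratio (hX : Cat0 X) (x y : X) {t : ℝ} (ht : 0 ≤ t) (ht1 : t ≤ 1) :
    ∃ m, dist x m = t * dist x y ∧ dist m y = (1 - t) * dist x y := by
  obtain ⟨g, g0, g1, hg⟩ := hX.geod x y
  have hd : 0 ≤ dist x y := dist_nonneg
  have hm : t * dist x y ∈ Icc 0 (dist x y) :=
    ⟨mul_nonneg ht hd, by nlinarith⟩
  refine ⟨g (t * dist x y), ?_, ?_⟩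
  · have := hg 0 ⟨le_refl _, hd⟩ (t * dist x y) hm
    rw [g0] at this
    rw [this, zero_sub, abs_neg, abs_of_nonneg hm.1]
  · have := hg (t * dist x y) hm (dist x y) ⟨hd, le_refl _⟩
    rw [g1] at this
    rw [this, abs_of_nonpos (by linarith [hm.2])]
    ring

theorem Cat0.quad (hX : Cat0 X) {x0 x1 y0 y1 a b : X} {t : ℝ} (ht : 0 ≤ t) (ht1 : t ≤ 1)
    (ha : dist x0 a = t * dist x0 x1) (ha' : dist a x1 = (1 - t) * dist x0 x1)
    (hb : dist y0 b = t * dist y0 y1) (hb' : dist b y1 = (1 - t) * dist y0 y1) :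
    dist a b ≤ (1 - t) * dist x0 y0 + t * dist x1 y1 := by
  obtain ⟨c, hc, hc'⟩ := hX.exists_ratio x0 y1 ht ht1
  have h1 : dist a c ≤ t * dist x1 y1 := hX.two_side ht ht1 ha ha' hc hc'
  have h2 : dist c b ≤ (1 - t) * dist x0 y0 := by
    refine hX.two_side (x0 := y1) (by linarith) (by linarith) ?_ ?_ ?_ ?_
    · rw [dist_comm y1 c, hc', dist_comm x0 y1]
    · rw [dist_comm c x0, hc, dist_comm x0 y1]; ring
    · rw [dist_comm y1 b, hb', dist_comm y0 y1]
    · rw [dist_comm b y0, hb, dist_comm y0 y1]; ring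
  linarith [dist_triangle a c b]

theorem Cat0.uniq (hX : Cat0 X) {x y m m' : X} (h : dist x m + dist m y = dist x y)
    (h1 : dist x m' = dist x m) (h2 : dist m' y = dist m y) : m = m' := by
  rcases eq_or_ne (dist x y) 0 with h0 | h0
  · have a1 : dist x m = 0 := by linarith [dist_nonneg (x := x) (y := m), dist_nonneg (x := m) (y := y)]
    have a2 : dist x m' = 0 := by rw [h1, a1]
    rw [← dist_eq_zero.mp a1, ← dist_eq_zero.mp a2]
  · have hd : 0 < dist x y := lt_of_le_of_ne dist_nonneg (Ne.symm h0)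
    have n1 : 0 ≤ dist x m := dist_nonneg
    have n2 : 0 ≤ dist m y := dist_nonneg
    have e1 : dist x m = dist x m / dist x y * dist x y := by field_simp
    have e2 : dist m y = (1 - dist x m / dist x y) * dist x y := by
      field_simp; linarith
    have := hX.two_side (x0 := x) (x1 := y) (y1 := y) (a := m) (b := m')
      (t := dist x m / dist x y) (div_nonneg n1 hd.le) ((div_le_one hd).mpr (by linarith))
      e1 e2 (by rw [h1]; exact e1) (by rw [h2]; exact e2)
    rw [dist_self, mul_zero] at this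
    exact dist_eq_zero.mp (le_antisymm this dist_nonneg)

theorem contr (hX : Cat0 X) (r r' : Bd X o) {s t : ℝ} (hs : 0 ≤ s) (hst : s ≤ t) (ht : 0 < t) :
    dist (ev r s) (ev r' s) ≤ s / t * dist (ev r t) (ev r' t) := by
  have key : ∀ q : Bd X o, dist o (ev q s) = s / t * dist o (ev q t) ∧
      dist (ev q s) (ev q t) = (1 - s / t) * dist o (ev q t) := by
    intro q
    rw [dist_o_ev q hs, dist_o_ev q ht.le, dist_ev q hs ht.le, abs_of_nonpos (by linarith)]
    constructor
    · field_simp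
    · field_simp; ring
  exact hX.two_side (div_nonneg hs ht.le) ((div_le_one ht).mpr hst) (key r).1 (key r).2
    (key r').1 (key r').2

theorem contr_mono (hX : Cat0 X) (r r' : Bd X o) {s t : ℝ} (hs : 0 ≤ s) (hst : s ≤ t) :
    dist (ev r s) (ev r' s) ≤ dist (ev r t) (ev r' t) := by
  rcases hs.eq_or_lt with h0 | h0
  · rw [← h0, ev_zero, ev_zero, dist_self]
    exact dist_nonneg
  · have ht : 0 < t := by linarith
    refine (contr hX r r' hs hst ht).trans ?_
    have : s / t ≤ 1 := (div_le_one ht).mpr hst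
    nlinarith [dist_nonneg (x := ev r t) (y := ev r' t)]

theorem asy_unique (hX : Cat0 X) {r r' : Bd X o} (h : Asy r r') : r = r' := by
  obtain ⟨C, hC⟩ := h
  apply Bd.ext'
  intro s hs
  have hC0 : 0 ≤ C := dist_nonneg.trans (hC 0 le_rfl)
  by_contra hne
  have hpos : 0 < dist (ev r s) (ev r' s) := dist_pos.mpr hne
  have hs0 : 0 < s := by
    rcases hs.eq_or_lt with h0 | h0
    · exfalso; apply hne; rw [← h0, ev_zero, ev_zero]
    · exact h0
  set d := dist (ev r s) (ev r' s) with hd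
  set t := s + s * C / d with ht
  have hsd : 0 ≤ s * C / d := by positivity
  have hst : s ≤ t := by rw [ht]; linarith
  have ht0 : 0 < t := by linarith
  have h1 := contr hX r r' hs hst ht0
  have h2 := hC t ht0.le
  have h3 : d ≤ s / t * C := h1.trans (mul_le_mul_of_nonneg_left h2 (div_nonneg hs ht0.le))
  have h4 : d * t ≤ s * C := by
    have := mul_le_mul_of_nonneg_right h3 ht0.le
    calc d * t ≤ s / t * C * t := this
      _ = s * C := by field_simp
  have h5 : d * t = d * s + s * C := by rw [ht]; field_simp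
  nlinarith [mul_pos hpos hs0]

end Pool.CBD
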