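import Pool.Agent.CBD.EBC

/-!
# CBD module EID: distance to a convex set, and limit sets of convex sets

PROOFS.  `infDist_conv`: for e > 0 take s0, s1 in S with dist x0 s0 < infDist x0 S + e etc.; the point
s of [s0, s1] at ratio t is in S (GConv) and by `Cat0.quad` dist m s ≤ (1-t)(..+e) + t(..+e).
`mem_bdS_iff` (base point in S): if the ray stays at distance ≤ C from S, then by infDist_conv between
times 0 and T: infDist (ev r t) S ≤ (t/T) C → 0 as T → ∞, so infDist = 0 and S closed gives
membership.  `mem_bdS_of_asy`: |infDist x S - infDist y S| ≤ dist x y.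
`bdS_image`: bc maps bdS w S onto bdS o S.  `isClosed_bdS`: for o in S it is the intersection of the
closed sets {r | ev r t ∈ S}; in general use bc to a point of S.
`leave`: o in S, if ev r s is not in S (S closed convex) then ev r t is not in S for all t ≥ s:
infDist_conv between 0 (value 0) and t (value 0) gives 0 at s.
-/

namespace Pool.CBD

open Real Set

variable {X : Type*} [MetricSpace X]

theorem infDist_conv (hX : Cat0 X) {S : Set X} (hS : GConv S) (hn : S.Nonempty) {x0 x1 m : X}
    {t : ℝ} (ht : 0 ≤ t) (ht1 : t ≤ 1) (h0 : dist x0 m = t * dist x0 x1)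
    (h1 : dist m x1 = (1 - t) * dist x0 x1) :
    Metric.infDist m S ≤ (1 - t) * Metric.infDist x0 S + t * Metric.infDist x1 S := by
  refine le_of_forall_pos_le_add fun ε hε => ?_
  obtain ⟨s0, hs0, hd0⟩ := (Metric.infDist_lt_iff hn).mp
    (show Metric.infDist x0 S < Metric.infDist x0 S + ε by linarith)
  obtain ⟨s1, hs1, hd1⟩ := (Metric.infDist_lt_iff hn).mp
    (show Metric.infDist x1 S < Metric.infDist x1 S + ε by linarith)
  obtain ⟨s, hsa, hsb⟩ := hX.exists_ratio s0 s1 ht ht1
  have hsS : s ∈ S := hS s0 hs0 s1 hs1 s (by rw [hsa, hsb]; ring)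
  have hq := hX.quad ht ht1 h0 h1 hsa hsb
  have h2 : Metric.infDist m S ≤ dist m s := Metric.infDist_le_dist_of_mem hsS
  have h3 : (1 - t) * dist x0 s0 ≤ (1 - t) * (Metric.infDist x0 S + ε) :=
    mul_le_mul_of_nonneg_left hd0.le (by linarith)
  have h4 : t * dist x1 s1 ≤ t * (Metric.infDist x1 S + ε) :=
    mul_le_mul_of_nonneg_left hd1.le ht
  linarith

theorem mem_bdS_iff (hX : Cat0 X) {S : Set X} (hS : GConv S) (hc : IsClosed S) {o : X}
    (ho : o ∈ S) (r : Bd X o) : r ∈ bdS o S ↔ ∀ t : ℝ, 0 ≤ t → ev r t ∈ S := by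
  constructor
  · rintro ⟨C, hC⟩ t ht
    rw [hc.mem_iff_infDist_zero ⟨o, ho⟩]
    by_contra hne
    have hpos : 0 < Metric.infDist (ev r t) S :=
      lt_of_le_of_ne Metric.infDist_nonneg (Ne.symm hne)
    obtain ⟨I, hI⟩ : ∃ I, I = Metric.infDist (ev r t) S := ⟨_, rfl⟩
    rw [← hI] at hpos
    have hC0 : 0 ≤ C := le_trans Metric.infDist_nonneg (hC 0 le_rfl)
    obtain ⟨T, hT⟩ : ∃ T, T = t * C / I + t + 1 := ⟨_, rfl⟩
    have h5 : 0 ≤ t * C / I := div_nonneg (mul_nonneg ht hC0) hpos.le
    have hT0 : 0 < T := by rw [hT]; linarith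
    have htT : t ≤ T := by rw [hT]; linarith
    have e0 : dist o (ev r T) = T := dist_o_ev r hT0.le
    have h1 := infDist_conv hX hS ⟨o, ho⟩ (x0 := o) (x1 := ev r T) (m := ev r t) (t := t / T)
      (div_nonneg ht hT0.le) (by rw [div_le_one hT0]; exact htT)
      (by rw [e0, dist_o_ev r ht, div_mul_cancel₀ _ hT0.ne'])
      (by
        rw [e0, dist_ev r ht hT0.le, abs_sub_comm, abs_of_nonneg (by linarith)]
        field_simp)
    rw [Metric.infDist_zero_of_mem ho, mul_zero, zero_add, ← hI] at h1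
    have h2 : I ≤ t / T * C :=
      h1.trans (mul_le_mul_of_nonneg_left (hC T hT0.le) (div_nonneg ht hT0.le))
    have h3 : I * T ≤ t * C := by
      have h4 := mul_le_mul_of_nonneg_right h2 hT0.le
      have h6 : t / T * C * T = t * C := by field_simp
      linarith
    have h7 : I * T = t * C + I * (t + 1) := by
      rw [hT]
      field_simp
      ring
    have h8 : 0 < I * (t + 1) := mul_pos hpos (by linarith)
    linarith
  · intro h
    exact ⟨0, fun t ht => (Metric.infDist_zero_of_mem (h t ht)).le⟩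

theorem mem_bdS_of_asy {o w : X} {r : Bd X o} {r' : Bd X w} (h : Asy r r')
    {S : Set X} : r ∈ bdS o S ↔ r' ∈ bdS w S := by
  obtain ⟨C', hC'⟩ := h
  constructor
  · rintro ⟨C, hC⟩
    refine ⟨C + C', fun t ht => ?_⟩
    have h1 : Metric.infDist (ev r' t) S ≤ Metric.infDist (ev r t) S + dist (ev r' t) (ev r t) :=
      Metric.infDist_le_infDist_add_dist
    have h2 := hC' t ht
    rw [dist_comm] at h2
    have h3 := hC t ht
    linarith
  · rintro ⟨C, hC⟩
    refine ⟨C + C', fun t ht => ?_⟩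
    have h1 : Metric.infDist (ev r t) S ≤ Metric.infDist (ev r' t) S + dist (ev r t) (ev r' t) :=
      Metric.infDist_le_infDist_add_dist
    have h2 := hC' t ht
    have h3 := hC t ht
    linarith

theorem bdS_image [ProperSpace X] (hX : Cat0 X) (w o : X) (S : Set X) :
    bc hX w o '' bdS w S = bdS o S := by
  ext r
  constructor
  · rintro ⟨r0, hr0, rfl⟩
    exact (mem_bdS_of_asy (bc_asy hX w o r0)).mpr hr0
  · intro hr
    refine ⟨(bc hX w o).symm r, ?_, (bc hX w o).apply_symm_apply r⟩
    have h1 := bc_asy hX w o ((bc hX w o).symm r)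
    rw [(bc hX w o).apply_symm_apply r] at h1
    exact (mem_bdS_of_asy h1).mp hr

theorem isClosed_bdS [ProperSpace X] (hX : Cat0 X) {S : Set X} (hS : GConv S) (hc : IsClosed S)
    (hn : S.Nonempty) (o : X) : IsClosed (bdS o S) := by
  obtain ⟨s, hs⟩ := hn
  have h1 : bdS s S = ⋂ t : {t : ℝ // 0 ≤ t}, {r : Bd X s | ev r t.1 ∈ S} := by
    ext r
    rw [mem_bdS_iff hX hS hc hs, mem_iInter]
    constructor
    · intro h t
      exact h t.1 t.2
    · intro h t ht
      exact h ⟨t, ht⟩
  have h2 : IsClosed (bdS s S) := by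
    rw [h1]
    refine isClosed_iInter fun t => ?_
    have h3 : Continuous (fun r : Bd X s => ev r t.1) :=
      continuous_ev2.comp (Continuous.prodMk continuous_id continuous_const)
    exact hc.preimage h3
  rw [← bdS_image hX s o S]
  exact (bc hX s o).isClosedMap _ h2

theorem leave (hX : Cat0 X) {S : Set X} (hS : GConv S) (hc : IsClosed S) {o : X}
    (ho : o ∈ S) (r : Bd X o) {s t : ℝ} (hs : 0 ≤ s) (hst : s ≤ t) (h : ev r s ∉ S) :
    ev r t ∉ S := by
  intro h1
  refine h (hS o ho (ev r t) h1 (ev r s) ?_)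
  rw [dist_o_ev r hs, dist_ev r hs (hs.trans hst), dist_o_ev r (hs.trans hst), abs_sub_comm,
    abs_of_nonneg (by linarith)]
  ring

end Pool.CBD
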