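import Pool.Agent.CBD.EPA
import Pool.Agent.CBD.ECP

/-!
# CBD module ELC: the criterion for local connectedness of the boundary

PROOF.  `locallyConnectedSpace_iff_connected_subsets`: given r and a neighbourhood of r, which contains
{r' | dist (ev r' s) (ev r s) < 3 e} for some s > 0, e > 0 (`hasBasis_nhds`; we may take s > 0).
Let q(x) = √(2 D (x + D)).  Choose t0 > 1, t0 > s + 1 so large that for all x ≥ t0 - 1:
(s / x) (q(x) + 1) < e, and (s/t0) < e.
For a ray r' with dist (ev r' t0) (ev r t0) < 1 define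
T(r') = ⋃_{x ≥ t0} K (ev r' x), preconnected by `union_preconnected` with I = [t0, ∞), K x := K (ev r' x),
E x := E (ev r' x) (compactness of Bd X o is `compactSpace_Bd`; the condition hgraph along the path
follows from hgraph and the continuity of the path).
Every z in K (ev r' x), x ≥ t0, satisfies dist (ev z x) (ev r' x) ≤ q(x) so by `contr`
dist (ev z s) (ev r' s) ≤ (s/x) q(x) < e and it tends to 0 as x → ∞: r' is in the closure of T(r'), so
T(r') ∪ {r'} is preconnected (`IsPreconnected.subset_closure`).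
Let c be a geodesic from ev r t0 to ev r' t0 (length < 1), T'' = ⋃ K (c) over it, preconnected;
c avoids o as dist o (c ..) ≥ t0 - 1 > 0; for z in K y with y on it, x = dist o y ≥ t0 - 1,
dist (ev z x) y ≤ q(x), dist y (ev r x) ≤ 2 (y is within 1 of ev r t0 and |x - t0| ≤ 1), so
dist (ev z s) (ev r s) ≤ (s/x)(q(x) + 2).  (Adjust the constants.)
The union of T(r) ∪ {r}, T(r') ∪ {r'} and T'' is preconnected since T'' shares K (ev r t0) ≠ ∅ with
the first and K (ev r' t0) ≠ ∅ with the second.  It contains r and r' and is contained in the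
neighbourhood.  The union of all these over r' is the required connected neighbourhood.
-/

namespace Pool.CBD

open Real Set

variable {X : Type*} [MetricSpace X]

private lemma ELC_eps (D : ℝ) (hD : 0 ≤ D) {ε : ℝ} (hε : 0 < ε) :
    ∃ x₁ : ℝ, 0 < x₁ ∧ ∀ x, x₁ ≤ x → Real.sqrt (2 * D * (x + D)) + 3 ≤ ε * x := by
  refine ⟨D + 16 * D / ε ^ 2 + 6 / ε, by positivity, fun x hx => ?_⟩
  have h1 : 0 ≤ 16 * D / ε ^ 2 := by positivity
  have h2 : 0 < 6 / ε := by positivity
  have hxD : D ≤ x := by linarith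
  have hx1 : 16 * D / ε ^ 2 ≤ x := by linarith
  have hx2 : 6 / ε ≤ x := by linarith
  have hx0 : 0 < x := by linarith
  have h3 : 3 ≤ ε / 2 * x := by
    rw [div_le_iff₀ hε] at hx2
    linarith
  have h4 : Real.sqrt (2 * D * (x + D)) ≤ ε / 2 * x := by
    apply Real.sqrt_le_iff.2
    refine ⟨by positivity, ?_⟩
    rw [div_le_iff₀ (by positivity)] at hx1
    have h5 : 2 * D * (x + D) ≤ 4 * D * x := by nlinarith
    have h6 : 4 * D * x ≤ (ε / 2 * x) ^ 2 := by
      have h7 := mul_le_mul_of_nonneg_right hx1 hx0.le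
      nlinarith
    linarith
  linarith

private lemma ELC_path (hne0 : True) {o : X} [CompactSpace (Bd X o)]
    (E K : X → Set (Bd X o))
    (hEK : ∀ y, y ≠ o → E y ⊆ K y) (hne : ∀ y, y ≠ o → (E y).Nonempty)
    (hK : ∀ y, y ≠ o → IsPreconnected (K y))
    (hgraph : ∀ y0, y0 ≠ o → ∀ r0, r0 ∉ E y0 → ∃ U ∈ nhds y0, ∃ V ∈ nhds r0,
      ∀ y ∈ U, ∀ r ∈ V, r ∉ E y) (g : ℝ → X) (I : Set ℝ) (hI : IsPreconnected I)
    (hg : ContinuousOn g I) (hgo : ∀ s ∈ I, g s ≠ o) :
    IsPreconnected (⋃ s ∈ I, K (g s)) := by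
  refine union_preconnected (fun s => E (g s)) (fun s => K (g s)) I hI
    (fun s hs => hEK _ (hgo s hs)) (fun s hs => hne _ (hgo s hs)) (fun s hs => hK _ (hgo s hs)) ?_
  intro s0 hs0 r0 hr0
  obtain ⟨U, hU, V, hV, hUV⟩ := hgraph (g s0) (hgo s0 hs0) r0 hr0
  have h1 : g ⁻¹' U ∈ nhdsWithin s0 I := hg s0 hs0 hU
  obtain ⟨U', hU', hsub⟩ := mem_nhdsWithin_iff_exists_mem_nhds_inter.1 h1
  exact ⟨U', hU', V, hV, fun s hs r hr => hUV (g s) (hsub hs) r hr⟩

private lemma ELC_ne {o : X} (ρ : Bd X o) {x : ℝ} (hx : 0 < x) : ev ρ x ≠ o := by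
  intro h
  have := dist_o_ev ρ hx.le
  rw [h, dist_self] at this
  linarith

private lemma ELC_sq {a b : ℝ} (ha : 0 ≤ a) (h : a ^ 2 ≤ b) : a ≤ Real.sqrt b :=
  Real.le_sqrt_of_sq_le h

theorem lcs_of [ProperSpace X] (hX : Cat0 X) {o : X} (D : ℝ) (hD : 0 ≤ D)
    (E K : X → Set (Bd X o))
    (hEK : ∀ y, y ≠ o → E y ⊆ K y) (hne : ∀ y, y ≠ o → (E y).Nonempty)
    (hK : ∀ y, y ≠ o → IsPreconnected (K y))
    (hgraph : ∀ y0, y0 ≠ o → ∀ r0, r0 ∉ E y0 → ∃ U ∈ nhds y0, ∃ V ∈ nhds r0,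
      ∀ y ∈ U, ∀ r ∈ V, r ∉ E y)
    (hclose : ∀ y, y ≠ o → ∀ r ∈ K y, dist (ev r (dist o y)) y ^ 2 ≤ 2 * D * (dist o y + D)) :
    LocallyConnectedSpace (Bd X o) := by
  haveI : CompactSpace (Bd X o) := compactSpace_Bd hX o
  have hclose' : ∀ y, y ≠ o → ∀ r ∈ K y,
      dist (ev r (dist o y)) y ≤ Real.sqrt (2 * D * (dist o y + D)) := fun y hy r hr =>
    ELC_sq dist_nonneg (hclose y hy r hr)
  -- the neighbourhood of a ray
  have hray : ∀ (ρ : Bd X o) (t0 : ℝ), 0 < t0 →
      IsPreconnected ((⋃ x ∈ Set.Ici t0, K (ev ρ x)) ∪ {ρ}) := by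
    intro ρ t0 ht0
    have hT : IsPreconnected (⋃ x ∈ Set.Ici t0, K (ev ρ x)) :=
      ELC_path trivial E K hEK hne hK hgraph (ev ρ) (Set.Ici t0) isPreconnected_Ici
        (continuous_ev ρ).continuousOn (fun s hs => ELC_ne ρ (lt_of_lt_of_le ht0 hs))
    refine hT.subset_closure Set.subset_union_left ?_
    refine Set.union_subset subset_closure ?_
    rw [Set.singleton_subset_iff, mem_closure_iff_nhds_basis (hasBasis_nhds hX ρ)]
    rintro ⟨s', e'⟩ ⟨hs', he'⟩
    change 0 ≤ s' at hs'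
    change 0 < e' at he'
    obtain ⟨x₁, hx₁, hx₁'⟩ := ELC_eps D hD (ε := e' / (2 * (s' + 1))) (by positivity)
    set x := max (max x₁ t0) (s' + 1) with hx
    have hxx1 : x₁ ≤ x := (le_max_left _ _).trans (le_max_left _ _)
    have hxt0 : t0 ≤ x := (le_max_right _ _).trans (le_max_left _ _)
    have hxs : s' ≤ x := by
      have := le_max_right (max x₁ t0) (s' + 1)
      linarith
    have hx0 : 0 < x := lt_of_lt_of_le ht0 hxt0
    have hne' : ev ρ x ≠ o := ELC_ne ρ hx0
    obtain ⟨z, hz⟩ := hne (ev ρ x) hne'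
    have hzK := hEK _ hne' hz
    refine ⟨z, ?_, ?_⟩
    · exact Set.mem_biUnion (show x ∈ Set.Ici t0 from hxt0) hzK
    · change dist (ev z s') (ev ρ s') < e'
      have h1 := hclose' _ hne' z hzK
      rw [dist_o_ev ρ hx0.le] at h1
      have h2 := contr hX z ρ hs' hxs hx0
      have h3 := hx₁' x hxx1
      have h4 : dist (ev z x) (ev ρ x) ≤ e' / (2 * (s' + 1)) * x := by linarith
      calc dist (ev z s') (ev ρ s') ≤ s' / x * dist (ev z x) (ev ρ x) := h2
        _ ≤ s' / x * (e' / (2 * (s' + 1)) * x) := mul_le_mul_of_nonneg_left h4 (by positivity)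
        _ = e' * (s' / (2 * (s' + 1))) := by field_simp
        _ < e' * 1 := by
          refine mul_lt_mul_of_pos_left ?_ he'
          rw [div_lt_one (by positivity)]
          linarith
        _ = e' := mul_one _
  rw [locallyConnectedSpace_iff_connected_subsets]
  intro r U hU
  obtain ⟨⟨s, e⟩, ⟨hs, he⟩, hsub⟩ := (hasBasis_nhds hX r).mem_iff.1 hU
  change 0 ≤ s at hs
  change 0 < e at he
  change {r' : Bd X o | dist (ev r' s) (ev r s) < e} ⊆ U at hsub
  obtain ⟨x₁, hx₁, hx₁'⟩ := ELC_eps D hD (ε := e / (2 * (s + 1))) (by positivity)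
  -- the main estimate
  have hest : ∀ x : ℝ, x₁ ≤ x → ∀ a : ℝ, a ≤ Real.sqrt (2 * D * (x + D)) + 3 →
      s / x * a < e / 2 := by
    intro x hx a ha
    have hx0 : 0 < x := lt_of_lt_of_le hx₁ hx
    have h3 := hx₁' x hx
    calc s / x * a ≤ s / x * (e / (2 * (s + 1)) * x) :=
          mul_le_mul_of_nonneg_left (ha.trans h3) (by positivity)
      _ = e / 2 * (s / (s + 1)) := by field_simp
      _ < e / 2 * 1 := by
        refine mul_lt_mul_of_pos_left ?_ (by positivity)
        rw [div_lt_one (by positivity)]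
        linarith
      _ = e / 2 := mul_one _
  set t0 : ℝ := x₁ + s + 2 with ht0def
  have ht0 : 0 < t0 := by linarith
  have hst0 : s ≤ t0 := by linarith
  set N : Set (Bd X o) := {r' | dist (ev r' t0) (ev r t0) < 1} with hN
  have hNn : N ∈ nhds r := (hasBasis_nhds hX r).mem_of_mem (i := (t0, 1)) ⟨ht0.le, one_pos⟩
  have hclo : ∀ r' ∈ N, dist (ev r' s) (ev r s) < e / 2 := by
    intro r' hr'
    have h1 := contr hX r' r hs hst0 ht0
    refine lt_of_le_of_lt h1 (hest t0 (by linarith) _ ?_)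
    have h2 : dist (ev r' t0) (ev r t0) < 1 := hr'
    have h3 := Real.sqrt_nonneg (2 * D * (t0 + D))
    linarith
  have hex : ∀ r' ∈ N, ∃ W : Set (Bd X o), IsPreconnected W ∧ r ∈ W ∧ r' ∈ W ∧
      W ⊆ {r' : Bd X o | dist (ev r' s) (ev r s) < e} := by
    intro r' hr'
    obtain ⟨g, hg0, hg1, hgi⟩ := hX.geod (ev r t0) (ev r' t0)
    set d := dist (ev r t0) (ev r' t0) with hd
    have hd1 : d < 1 := by
      rw [hd, dist_comm]
      exact hr'
    have hd0 : 0 ≤ d := dist_nonneg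
    have hgc : ContinuousOn g (Set.Icc 0 d) := by
      rw [Metric.continuousOn_iff]
      intro b hb ε hε
      refine ⟨ε, hε, fun a ha hab => ?_⟩
      rw [hgi a ha b hb]
      rwa [Real.dist_eq] at hab
    have hgd : ∀ a ∈ Set.Icc 0 d, dist (ev r t0) (g a) ≤ 1 := by
      intro a ha
      rw [← hg0, hgi 0 ⟨le_rfl, hd0⟩ a ha, zero_sub, abs_neg, abs_of_nonneg ha.1]
      linarith [ha.2]
    have hgx : ∀ a ∈ Set.Icc 0 d, |dist o (g a) - t0| ≤ 1 := by
      intro a ha
      have h1 := hgd a ha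
      have h2 := dist_o_ev r ht0.le
      have h3 := dist_triangle o (ev r t0) (g a)
      have h4 := dist_triangle_right o (ev r t0) (g a)
      rw [abs_le]
      constructor <;> linarith
    have hgo : ∀ a ∈ Set.Icc 0 d, g a ≠ o := by
      intro a ha h
      have h1 := hgx a ha
      rw [h, dist_self, abs_le] at h1
      linarith [h1.1]
    have hT2 : IsPreconnected (⋃ a ∈ Set.Icc 0 d, K (g a)) :=
      ELC_path trivial E K hEK hne hK hgraph g (Set.Icc 0 d) isPreconnected_Icc hgc hgo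
    have hne1 := ELC_ne r ht0
    have hne2 := ELC_ne r' ht0
    obtain ⟨z1, hz1⟩ := hne _ hne1
    obtain ⟨z2, hz2⟩ := hne _ hne2
    have hz1K := hEK _ hne1 hz1
    have hz2K := hEK _ hne2 hz2
    have hz1T : z1 ∈ ⋃ a ∈ Set.Icc 0 d, K (g a) := by
      refine Set.mem_biUnion (show (0 : ℝ) ∈ Set.Icc 0 d from ⟨le_rfl, hd0⟩) ?_
      rw [hg0]
      exact hz1K
    have hz2T : z2 ∈ ⋃ a ∈ Set.Icc 0 d, K (g a) := by
      refine Set.mem_biUnion (show d ∈ Set.Icc 0 d from ⟨hd0, le_rfl⟩) ?_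
      rw [hg1]
      exact hz2K
    have hz1P : z1 ∈ (⋃ x ∈ Set.Ici t0, K (ev r x)) ∪ {r} :=
      Or.inl (Set.mem_biUnion Set.self_mem_Ici hz1K)
    have hz2P : z2 ∈ (⋃ x ∈ Set.Ici t0, K (ev r' x)) ∪ {r'} :=
      Or.inl (Set.mem_biUnion Set.self_mem_Ici hz2K)
    have hW1 := IsPreconnected.union z1 hz1P hz1T (hray r t0 ht0) hT2
    have hW2 := IsPreconnected.union z2 (Or.inr hz2T) hz2P hW1 (hray r' t0 ht0)
    refine ⟨_, hW2, Or.inl (Or.inl (Or.inr rfl)), Or.inr (Or.inr rfl), ?_⟩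
    -- containment
    have hTρ : ∀ ρ ∈ N, (⋃ x ∈ Set.Ici t0, K (ev ρ x)) ∪ {ρ} ⊆
        {r' : Bd X o | dist (ev r' s) (ev r s) < e} := by
      intro ρ hρ z hz
      change dist (ev z s) (ev r s) < e
      have h0 := hclo ρ hρ
      rcases hz with hz | hz
      · rw [Set.mem_iUnion₂] at hz
        obtain ⟨x, hx, hzx⟩ := hz
        have hx' : t0 ≤ x := hx
        have hx0 : 0 < x := lt_of_lt_of_le ht0 hx'
        have h1 := hclose' _ (ELC_ne ρ hx0) z hzx
        rw [dist_o_ev ρ hx0.le] at h1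
        have h2 := contr hX z ρ hs (hst0.trans hx') hx0
        have h3 := hest x (by linarith) (dist (ev z x) (ev ρ x)) (by linarith)
        have h4 := dist_triangle (ev z s) (ev ρ s) (ev r s)
        linarith
      · rw [Set.mem_singleton_iff.1 hz]
        linarith
    have hrN : r ∈ N := by
      change dist (ev r t0) (ev r t0) < 1
      rw [dist_self]
      exact one_pos
    refine Set.union_subset (Set.union_subset (hTρ r hrN) ?_) (hTρ r' hr')
    intro z hz
    rw [Set.mem_iUnion₂] at hz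
    obtain ⟨a, ha, hza⟩ := hz
    change dist (ev z s) (ev r s) < e
    have h1 := hclose' _ (hgo a ha) z hza
    set x := dist o (g a) with hxdef
    have h2 := hgx a ha
    rw [← hxdef] at h2
    have h2' := abs_le.1 h2
    have hx1 : x₁ ≤ x := by linarith [h2'.1]
    have hx0 : 0 < x := lt_of_lt_of_le hx₁ hx1
    have hsx : s ≤ x := by linarith [h2'.1]
    have h3 := contr hX z r hs hsx hx0
    have h4 : dist (ev z x) (ev r x) ≤ Real.sqrt (2 * D * (x + D)) + 3 := by
      have h5 := dist_triangle4 (ev z x) (g a) (ev r t0) (ev r x)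
      have h6 := hgd a ha
      rw [dist_comm] at h6
      have h7 := dist_ev r ht0.le hx0.le
      rw [abs_sub_comm] at h7
      linarith
    have h5 := hest x hx1 _ h4
    linarith
  choose W hW using hex
  refine ⟨⋃ p : N, W p.1 p.2, ?_, ?_, ?_⟩
  · refine Filter.mem_of_superset hNn fun r' hr' => ?_
    exact Set.mem_iUnion.2 ⟨⟨r', hr'⟩, (hW r' hr').2.2.1⟩
  · refine isPreconnected_iUnion ⟨r, Set.mem_iInter.2 fun p => (hW p.1 p.2).2.1⟩
      fun p => (hW p.1 p.2).1
  · refine Set.iUnion_subset fun p => ((hW p.1 p.2).2.2.2).trans hsub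

end Pool.CBD
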