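import Mathlib

/-!
# CBD module ELM: locally midpoint convex functions

PROOF.  Let h(t) = g(t) - t^2 - (affine function making h(0) = h(L) = 0).  Then
2 h(t) ≤ h(t-s) + h(t+s) for small s > 0 (t in (0,L)), h is continuous on [0,L].  Claim h ≤ 0.
Otherwise let M = max h > 0 and t0 the smallest point of [0,L] with h(t0) = M; 0 < t0 < L.  For small
s: h(t0 - s) + h(t0 + s) ≥ 2 M with both ≤ M, so h(t0 - s) = M, contradicting minimality.  h(x) ≤ 0
says g(x) - x^2 ≤ (1 - x/L) g(0) + (x/L)(g(L) - L^2), i.e. with x = t L the claim.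
-/

namespace Pool.CBD

open Real Set

private theorem elm_aux {L : ℝ} (hL : 0 < L) (f : ℝ → ℝ) (hf : ContinuousOn f (Icc 0 L))
    (h : ∀ t ∈ Ioo 0 L, ∃ d > 0, ∀ s ∈ Ioo 0 d, 2 * f t ≤ f (t - s) + f (t + s))
    (h0 : f 0 ≤ 0) (hL0 : f L ≤ 0) {x : ℝ} (hx : x ∈ Icc 0 L) : f x ≤ 0 := by
  by_contra hcon
  push Not at hcon
  obtain ⟨m, hm, hmax⟩ := isCompact_Icc.exists_isMaxOn ⟨x, hx⟩ hf
  have hM : 0 < f m := lt_of_lt_of_le hcon (hmax hx)
  have hcl : IsClosed (Icc 0 L ∩ f ⁻¹' {f m}) :=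
    hf.preimage_isClosed_of_isClosed isClosed_Icc isClosed_singleton
  have hcp : IsCompact (Icc 0 L ∩ f ⁻¹' {f m}) :=
    isCompact_Icc.of_isClosed_subset hcl inter_subset_left
  obtain ⟨t, ht⟩ := hcp.exists_isLeast ⟨m, hm, rfl⟩
  obtain ⟨⟨ht1, ht2⟩, hmin⟩ := ht
  have hft : f t = f m := ht2
  have ht0 : 0 < t := by
    rcases lt_or_eq_of_le ht1.1 with h1 | h1
    · exact h1
    · rw [← h1] at hft; linarith
  have htL : t < L := by
    rcases lt_or_eq_of_le ht1.2 with h1 | h1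
    · exact h1
    · rw [h1] at hft; linarith
  obtain ⟨d, hd, hs⟩ := h t ⟨ht0, htL⟩
  set s := min (d / 2) (min (t / 2) ((L - t) / 2)) with hsdef
  have hs0 : 0 < s := lt_min (by linarith) (lt_min (by linarith) (by linarith))
  have hs1 : s ≤ d / 2 := min_le_left _ _
  have hs2 : s ≤ t / 2 := (min_le_right _ _).trans (min_le_left _ _)
  have hs3 : s ≤ (L - t) / 2 := (min_le_right _ _).trans (min_le_right _ _)
  have key := hs s ⟨hs0, by linarith⟩
  have ha : t - s ∈ Icc 0 L := ⟨by linarith, by linarith⟩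
  have hb : t + s ∈ Icc 0 L := ⟨by linarith, by linarith⟩
  have ha' : f (t - s) ≤ f m := hmax ha
  have hb' : f (t + s) ≤ f m := hmax hb
  have heq : f (t - s) = f m := by linarith
  have := hmin ⟨ha, heq⟩
  linarith

theorem conv_of_local {L : ℝ} (hL : 0 < L) (g : ℝ → ℝ) (hg : ContinuousOn g (Icc 0 L))
    (h : ∀ t ∈ Ioo 0 L, ∃ d > 0, ∀ s ∈ Ioo 0 d, 2 * g t + 2 * s ^ 2 ≤ g (t - s) + g (t + s))
    {t : ℝ} (ht : 0 ≤ t) (ht1 : t ≤ 1) :
    g (t * L) ≤ (1 - t) * g 0 + t * g L - t * (1 - t) * L ^ 2 := by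
  have hne : L ≠ 0 := hL.ne'
  have key := elm_aux hL (fun x => g x - x ^ 2 - (g 0 + (g L - L ^ 2 - g 0) / L * x))
    (by
      apply ContinuousOn.sub
      · exact hg.sub (by fun_prop)
      · fun_prop)
    (by
      intro x hx
      obtain ⟨d, hd, hs⟩ := h x hx
      refine ⟨d, hd, fun s hs' => ?_⟩
      have := hs s hs'
      nlinarith)
    (by simp)
    (by
      rw [div_mul_cancel₀ _ hne]
      linarith)
    (x := t * L) ⟨by positivity, by nlinarith⟩
  have e : (g L - L ^ 2 - g 0) / L * (t * L) = (g L - L ^ 2 - g 0) * t := by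
    field_simp
  rw [e] at key
  nlinarith

end Pool.CBD
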