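import Mathlib

/-!
# CBD module EPA: unions of connected sets along a path are connected

PROOF.  T = ⋃ s ∈ I, K s.  Suppose T ⊂ A ∪ B with A, B open, T ∩ A and T ∩ B nonempty and
T ∩ (A ∩ B) empty.  Each K s (preconnected, nonempty) is contained in exactly one of A, B.
Let I_A, I_B be the corresponding subsets of I; they are disjoint, cover I and are
nonempty.  I_B is relatively open in I (same for I_A), contradicting connectedness of I:
let s0 in I_B.  Every point of E s0 ⊂ K s0 is in B and every point r0 not in E s0 has, by hgraph,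
neighbourhoods U of s0, V of r0 with r ∉ E s for s in U ∩ I, r in V.  Z is compact: cover it by B
and finitely many such V_j; for s in I close to s0, s is in all the U_j, so E s, which is nonempty and
avoids the V_j, meets B, so K s ⊂ B, s in I_B.
-/

namespace Pool.CBD

open Real Set

theorem union_preconnected {Z : Type*} [TopologicalSpace Z] [CompactSpace Z] (E K : ℝ → Set Z)
    (I : Set ℝ) (hI : IsPreconnected I)
    (hEK : ∀ s ∈ I, E s ⊆ K s) (hne : ∀ s ∈ I, (E s).Nonempty)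
    (hK : ∀ s ∈ I, IsPreconnected (K s))
    (hgraph : ∀ s0 ∈ I, ∀ r0, r0 ∉ E s0 → ∃ U ∈ nhds s0, ∃ V ∈ nhds r0,
      ∀ s ∈ U ∩ I, ∀ r ∈ V, r ∉ E s) :
    IsPreconnected (⋃ s ∈ I, K s) := by
  classical
  intro A B hA hB hcov hTA hTB
  by_contra hcon
  have hsub : ∀ s ∈ I, K s ⊆ ⋃ s ∈ I, K s := fun s hs => subset_biUnion_of_mem (u := K) hs
  have hdis : ∀ s ∈ I, ∀ z ∈ K s, z ∈ A → z ∈ B → False := by
    intro s hs z hz h1 h2
    exact hcon ⟨z, hsub s hs hz, h1, h2⟩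
  have hor : ∀ s ∈ I, (∃ z ∈ K s, z ∈ A) → K s ⊆ A := by
    intro s hs ⟨z, hz, hzA⟩ y hy
    rcases hcov (hsub s hs hy) with h | h
    · exact h
    · exfalso
      obtain ⟨x, hx, hx1, hx2⟩ := hK s hs A B hA hB ((hsub s hs).trans hcov) ⟨z, hz, hzA⟩ ⟨y, hy, h⟩
      exact hdis s hs x hx hx1 hx2
  have hor' : ∀ s ∈ I, (∃ z ∈ K s, z ∈ B) → K s ⊆ B := by
    intro s hs ⟨z, hz, hzB⟩ y hy
    rcases hcov (hsub s hs hy) with h | h
    · exfalso
      obtain ⟨x, hx, hx1, hx2⟩ := hK s hs A B hA hB ((hsub s hs).trans hcov) ⟨y, hy, h⟩ ⟨z, hz, hzB⟩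
      exact hdis s hs x hx hx1 hx2
    · exact h
  have hloc : ∀ (W : Set Z), IsOpen W → (∀ s ∈ I, (∃ z ∈ K s, z ∈ W) → K s ⊆ W) →
      ∀ s0 ∈ I, K s0 ⊆ W → {s | s ∈ I → K s ⊆ W} ∈ nhds s0 := by
    intro W hW hWor s0 hs0 hKW
    have hcpt : IsCompact Wᶜ := hW.isClosed_compl.isCompact
    have key : ∃ U ∈ nhds s0, ∀ s ∈ U ∩ I, ∀ r ∈ Wᶜ, r ∉ E s := by
      apply hcpt.induction_on (p := fun S => ∃ U ∈ nhds s0, ∀ s ∈ U ∩ I, ∀ r ∈ S, r ∉ E s)
      · exact ⟨univ, Filter.univ_mem, fun s _ r hr => absurd hr (notMem_empty r)⟩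
      · rintro S T hST ⟨U, hU, h⟩
        exact ⟨U, hU, fun s hs r hr => h s hs r (hST hr)⟩
      · rintro S T ⟨U, hU, h⟩ ⟨U', hU', h'⟩
        refine ⟨U ∩ U', Filter.inter_mem hU hU', ?_⟩
        rintro s ⟨⟨hs1, hs2⟩, hs3⟩ r (hr | hr)
        · exact h s ⟨hs1, hs3⟩ r hr
        · exact h' s ⟨hs2, hs3⟩ r hr
      · intro r0 hr0
        have hr0E : r0 ∉ E s0 := fun h => hr0 (hKW (hEK s0 hs0 h))
        obtain ⟨U, hU, V, hV, h⟩ := hgraph s0 hs0 r0 hr0E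
        exact ⟨V, mem_nhdsWithin_of_mem_nhds hV, U, hU, h⟩
    obtain ⟨U, hU, h⟩ := key
    refine Filter.mem_of_superset hU ?_
    intro s hsU hsI
    obtain ⟨z, hz⟩ := hne s hsI
    apply hWor s hsI
    refine ⟨z, hEK s hsI hz, ?_⟩
    by_contra hzW
    exact h s ⟨hsU, hsI⟩ z hzW hz
  obtain ⟨zA, hzA1, hzA2⟩ := hTA
  obtain ⟨zB, hzB1, hzB2⟩ := hTB
  rw [mem_iUnion₂] at hzA1 hzB1
  obtain ⟨sA, hsA, hzA⟩ := hzA1
  obtain ⟨sB, hsB, hzB⟩ := hzB1
  have hkA : K sA ⊆ A := hor sA hsA ⟨zA, hzA, hzA2⟩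
  have hkB : K sB ⊆ B := hor' sB hsB ⟨zB, hzB, hzB2⟩
  obtain ⟨s, hs, hs1, hs2⟩ := hI (interior {s | s ∈ I → K s ⊆ A}) (interior {s | s ∈ I → K s ⊆ B})
    isOpen_interior isOpen_interior (by
      intro s hs
      obtain ⟨z, hz⟩ := hne s hs
      have hz' := hEK s hs hz
      rcases hcov (hsub s hs hz') with h | h
      · left
        rw [mem_interior_iff_mem_nhds]
        exact hloc A hA hor s hs (hor s hs ⟨z, hz', h⟩)
      · right
        rw [mem_interior_iff_mem_nhds]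
        exact hloc B hB hor' s hs (hor' s hs ⟨z, hz', h⟩))
    ⟨sA, hsA, mem_interior_iff_mem_nhds.mpr (hloc A hA hor sA hsA hkA)⟩
    ⟨sB, hsB, mem_interior_iff_mem_nhds.mpr (hloc B hB hor' sB hsB hkB)⟩
  obtain ⟨z, hz⟩ := hne s hs
  have hz' := hEK s hs hz
  exact hdis s hs z hz' (interior_subset hs1 hs hz') (interior_subset hs2 hs hz')

end Pool.CBD
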