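import Pool.Agent.CBD.ECQ

/-!
# CBD module ETP: the topology of the visual boundary

PROOFS.  The compact-open topology on C(ℝ≥0, X) is that of uniform convergence on compact sets
(`ContinuousMap.tendsto_iff_forall_isCompact_tendstoUniformlyOn` and relatives).
`hasBasis_nhds`: by `contr_mono` the condition dist (ev r' t) (ev r t) < e implies the same for all
times s ≤ t, and every compact subset of ℝ≥0 is bounded, so the sets listed form a basis of
neighbourhoods.  (They are neighbourhoods: evaluation at t is continuous.)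
`continuous_ev2`: evaluation C(ℝ≥0, X) x ℝ≥0 → X is continuous since ℝ≥0 is locally compact.
`continuous_of_ev`: from hasBasis_nhds: f is continuous at z if for every t, e > 0,
dist (ev (f z') t) (ev (f z) t) < e for z' near z.  It suffices to have this for arbitrarily large t
(contr_mono), which gives the version `continuousAt_of_ev`.
`T2`: two different rays differ at some time.
-/

namespace Pool.CBD

open Real Set

variable {X : Type*} [MetricSpace X] {o : X}

private theorem ETP_continuous_ev_const (t : ℝ) : Continuous (fun r : Bd X o => ev r t) := by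
  unfold ev
  exact (continuous_eval_const (F := C(NNReal, X)) t.toNNReal).comp continuous_subtype_val

theorem hasBasis_nhds (hX : Cat0 X) (r : Bd X o) :
    (nhds r).HasBasis (fun p : ℝ × ℝ => 0 ≤ p.1 ∧ 0 < p.2)
      (fun p => {r' : Bd X o | dist (ev r' p.1) (ev r p.1) < p.2}) := by
  rw [Filter.hasBasis_iff]
  intro S
  constructor
  · intro hS
    by_contra hcon
    push Not at hcon
    have hn : ∀ n : ℕ, ∃ r' : Bd X o, dist (ev r' n) (ev r n) < 1 / ((n : ℝ) + 1) ∧ r' ∉ S := by
      intro n
      have h1 := hcon ((n : ℝ), 1 / ((n : ℝ) + 1)) ⟨Nat.cast_nonneg n, by positivity⟩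
      rw [Set.not_subset] at h1
      obtain ⟨r', h2, h3⟩ := h1
      exact ⟨r', h2, h3⟩
    choose f hf1 hf2 using hn
    have htend : Filter.Tendsto f Filter.atTop (nhds r) := by
      have hr : nhds r = Filter.comap (fun r : Bd X o => r.1) (nhds r.1) := nhds_induced _ _
      rw [hr, Filter.tendsto_comap_iff]
      rw [ContinuousMap.tendsto_iff_forall_isCompact_tendstoUniformlyOn]
      intro A hA
      obtain ⟨M, hM⟩ := hA.bddAbove
      rw [Metric.tendstoUniformlyOn_iff]
      intro e he
      have h1 : ∀ᶠ n : ℕ in Filter.atTop, (M : ℝ) ≤ n := by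
        filter_upwards [Filter.eventually_ge_atTop ⌈(M : ℝ)⌉₊] with n hn
        exact (Nat.le_ceil _).trans (by exact_mod_cast hn)
      have h2 : ∀ᶠ n : ℕ in Filter.atTop, 1 / ((n : ℝ) + 1) < e := by
        exact (tendsto_one_div_add_atTop_nhds_zero_nat (𝕜 := ℝ)).eventually_lt_const he
      filter_upwards [h1, h2] with n hn1 hn2 x hx
      have hxn : (x : ℝ) ≤ n := le_trans (by exact_mod_cast hM hx) hn1
      have h3 := contr_mono hX (f n) r (s := (x : ℝ)) (t := n) x.2 hxn
      have h4 : dist (ev (f n) x) (ev r x) < e := lt_of_le_of_lt h3 ((hf1 n).trans hn2)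
      rw [dist_comm]
      unfold ev at h4
      rw [Real.toNNReal_coe] at h4
      exact h4
    have h5 := htend.eventually hS
    obtain ⟨n, hn⟩ := h5.exists
    exact hf2 n hn
  · rintro ⟨⟨t, e⟩, ⟨ht, he⟩, hsub⟩
    refine Filter.mem_of_superset ?_ hsub
    have h1 : Continuous (fun r' : Bd X o => dist (ev r' t) (ev r t)) :=
      (ETP_continuous_ev_const t).dist continuous_const
    have h2 : IsOpen {r' : Bd X o | dist (ev r' t) (ev r t) < e} := isOpen_lt h1 continuous_const
    apply h2.mem_nhds
    simpa using he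

theorem continuous_ev2 : Continuous (fun p : Bd X o × ℝ => ev p.1 p.2) := by
  unfold ev
  exact (continuous_subtype_val.comp continuous_fst).eval
    (continuous_real_toNNReal.comp continuous_snd)

theorem continuousAt_of_ev (hX : Cat0 X) {Z : Type*} [TopologicalSpace Z] (f : Z → Bd X o) (z : Z)
    (h : ∀ T : ℝ, ∃ t : ℝ, T ≤ t ∧ 0 ≤ t ∧ ContinuousAt (fun z' => ev (f z') t) z) :
    ContinuousAt f z := by
  unfold ContinuousAt
  rw [(hasBasis_nhds hX (f z)).tendsto_right_iff]
  rintro ⟨s, e⟩ ⟨hs, he⟩
  obtain ⟨t, hst, ht, hc⟩ := h s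
  have h1 : ∀ᶠ z' in nhds z, dist (ev (f z') t) (ev (f z) t) < e :=
    Metric.tendsto_nhds.mp hc e he
  filter_upwards [h1] with z' hz'
  exact lt_of_le_of_lt (contr_mono hX (f z') (f z) hs hst) hz'

instance instT2Bd : T2Space (Bd X o) := by
  exact T2Space.of_injective_continuous (f := fun r : Bd X o => r.1)
    (fun a b h => Subtype.ext h) continuous_subtype_val

end Pool.CBD
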