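import Pool.Agent.CBD.EBC

/-!
# CBD module EXC: a ray going away at almost unit speed stays in a small shadow

`r` is a ray from w along which the distance to o is at least dist o w + l - D.

PROOF of `close_pt`.  Let t = dist o w, F = dist o (ev r l) ≥ t + l - D and z a ray from o with
ev z F = ev r l.  If F < t: dist (ev z t) w ≤ (t - F) + l ≤ D, and D^2 ≤ 2 D (t + D).
If F ≥ t (and F > 0; if F = 0 then t = 0 and ev z 0 = o = w): comp with p = w, x = o, y = ev z F,
m = ev z t, ratio t/F:
dist w m ^2 ≤ (1 - t/F) t^2 + (t/F) l^2 - t (F - t) = (t/F)(l^2 - (F-t)^2)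
= (t/F)(l - (F-t))(l + (F-t)), where 0 ≤ l - (F - t) ≤ D (triangle inequality, hypothesis) and
l + (F-t) ≤ 2 l ≤ 2 (F - t + D), and (t/F)(F - t + D) ≤ t + D.  So it is ≤ 2 D (t + D).
`close_lim`: z asymptotic to r: by asy_bound dist (ev z l) (ev r l) ≤ 2 t, |F - l| ≤ t + D hence
dist (ev z F) (ev r l) ≤ 3 t + D.  Let m be the point at distance t from o on a geodesic from o to
ev r l (F → ∞ as l → ∞, `Cat0.exists_ratio`); the computation above bounds dist m w ^2 by
2 D (t + D) (it does not use that ev r l is on a ray from o), and `Cat0.two_side` gives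
dist m (ev z t) ≤ (t/F)(3 t + D) → 0.
-/

namespace Pool.CBD

open Real Set

variable {X : Type*} [MetricSpace X]

/-- The computation, with `F` the distance from o to the point `y` and `m` at distance `t`. -/
private theorem EXC_core (hX : Cat0 X) {o w y m : X} {D l : ℝ} (hD : 0 ≤ D)
    (hl : dist w y = l) (h : dist o w + l - D ≤ dist o y) (hF : 0 < dist o y)
    (htF : dist o w ≤ dist o y)
    (h0 : dist o m = dist o w) (h1 : dist m y = dist o y - dist o w) :
    dist m w ^ 2 ≤ 2 * D * (dist o w + D) := by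
  set t := dist o w with ht
  set F := dist o y with hFd
  have ht0 : 0 ≤ t := dist_nonneg
  have hl0 : 0 ≤ l := by rw [← hl]; exact dist_nonneg
  have hq0 : 0 ≤ t / F := div_nonneg ht0 hF.le
  have hq1 : t / F ≤ 1 := (div_le_one hF).mpr htF
  have hqF : t / F * F = t := by field_simp
  have hc := hX.comp w o y m (t / F) hq0 hq1 (by rw [h0, ← hFd, hqF]) (by
    rw [h1, ← hFd]; linear_combination hqF)
  rw [hl, dist_comm w o, ← ht, ← hFd] at hc
  have htri : F ≤ t + l := by
    rw [hFd, ht, ← hl]; exact dist_triangle o w y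
  have e1 : (1 - t / F) * t ^ 2 + t / F * l ^ 2 - t / F * (1 - t / F) * F ^ 2 =
      (t / F) * (l ^ 2 - (F - t) ^ 2) := by
    field_simp
    ring
  rw [e1] at hc
  have e2 : l ^ 2 - (F - t) ^ 2 ≤ 2 * D * (F - t + D) := by
    have h3 : 0 ≤ l - (F - t) := by linarith
    have h4 : l - (F - t) ≤ D := by linarith
    have h5 : l + (F - t) ≤ 2 * (F - t + D) := by linarith
    have h6 : 0 ≤ l + (F - t) := by linarith
    calc l ^ 2 - (F - t) ^ 2 = (l - (F - t)) * (l + (F - t)) := by ring
      _ ≤ D * (2 * (F - t + D)) := mul_le_mul h4 h5 h6 hD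
      _ = 2 * D * (F - t + D) := by ring
  have e3 : (t / F) * (F - t + D) ≤ t + D := by
    have h7 : (t / F) * (F - t + D) = t - (t / F) * t + (t / F) * D := by
      linear_combination hqF
    rw [h7]
    nlinarith [mul_nonneg hq0 ht0, mul_le_of_le_one_left hD hq1]
  calc dist m w ^ 2 = dist w m ^ 2 := by rw [dist_comm]
    _ ≤ (t / F) * (l ^ 2 - (F - t) ^ 2) := hc
    _ ≤ (t / F) * (2 * D * (F - t + D)) := mul_le_mul_of_nonneg_left e2 hq0
    _ = 2 * D * ((t / F) * (F - t + D)) := by ring
    _ ≤ 2 * D * (t + D) := mul_le_mul_of_nonneg_left e3 (by positivity)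

theorem close_pt (hX : Cat0 X) {o w : X} (r : Bd X w) {D : ℝ} (hD : 0 ≤ D)
    (h : ∀ l : ℝ, 0 ≤ l → dist o w + l - D ≤ dist o (ev r l)) {l : ℝ} (hl : 0 ≤ l)
    (z : Bd X o) (hz : ev z (dist o (ev r l)) = ev r l) :
    dist (ev z (dist o w)) w ^ 2 ≤ 2 * D * (dist o w + D) := by
  have h1 := h l hl
  have hwl : dist w (ev r l) = l := dist_o_ev r hl
  have ht0 : 0 ≤ dist o w := dist_nonneg
  have hF0 : 0 ≤ dist o (ev r l) := dist_nonneg
  rcases lt_or_ge (dist o (ev r l)) (dist o w) with hlt | hge
  · have h2 : dist (ev z (dist o w)) w ≤ D := by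
      have h3 := dist_triangle (ev z (dist o w)) (ev r l) w
      have h4 : dist (ev z (dist o w)) (ev r l) = dist o w - dist o (ev r l) := by
        conv_lhs => rw [← hz]
        rw [dist_ev z ht0 hF0, abs_of_pos (by linarith)]
      rw [h4, dist_comm (ev r l) w, hwl] at h3
      linarith
    have h5 : (0 : ℝ) ≤ dist (ev z (dist o w)) w := dist_nonneg
    nlinarith
  · rcases hF0.lt_or_eq with hpos | hzero
    · apply EXC_core hX hD hwl h1 hpos hge
      · exact dist_o_ev z ht0
      · conv_lhs => rw [← hz]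
        rw [dist_ev z ht0 hF0, abs_of_nonpos (by linarith)]
        ring
    · have h6 : dist o w = 0 := by linarith
      have h7 : o = w := dist_eq_zero.mp h6
      rw [h6, ev_zero, h7, dist_self]
      have : 0 ≤ 2 * D * (0 + D) := by positivity
      simpa using this

theorem close_lim [ProperSpace X] (hX : Cat0 X) {o w : X} (r : Bd X w) {D : ℝ} (hD : 0 ≤ D)
    (h : ∀ l : ℝ, 0 ≤ l → dist o w + l - D ≤ dist o (ev r l))
    (z : Bd X o) (hz : Asy z r) :
    dist (ev z (dist o w)) w ^ 2 ≤ 2 * D * (dist o w + D) := by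
  have ht0 : 0 ≤ dist o w := dist_nonneg
  set t := dist o w with ht
  set E : ℝ := √(2 * D * (t + D)) with hE
  have hE2 : E ^ 2 = 2 * D * (t + D) := Real.sq_sqrt (by positivity)
  have hE0 : 0 ≤ E := Real.sqrt_nonneg _
  have key : ∀ l : ℝ, t + D + 1 ≤ l →
      dist (ev z t) w ≤ (t / (t + l - D)) * (3 * t + D) + E := by
    intro l hl
    have hl0 : 0 ≤ l := by linarith
    have h1 := h l hl0
    have hwl : dist w (ev r l) = l := dist_o_ev r hl0
    have hFl : dist o (ev r l) ≤ t + l := by
      have := dist_triangle o w (ev r l)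
      rw [hwl] at this
      linarith
    have hFt : t ≤ dist o (ev r l) := by linarith
    have hF : 0 < dist o (ev r l) := by linarith
    have hq0 : 0 ≤ t / dist o (ev r l) := div_nonneg ht0 hF.le
    have hq1 : t / dist o (ev r l) ≤ 1 := (div_le_one hF).mpr hFt
    have hqF : t / dist o (ev r l) * dist o (ev r l) = t := by field_simp
    obtain ⟨m, hm1, hm2⟩ := hX.exists_ratio o (ev r l) hq0 hq1
    have hom : dist o m = t := by rw [hm1, hqF]
    have hmy : dist m (ev r l) = dist o (ev r l) - t := by rw [hm2]; linear_combination -hqF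
    have h2 : dist m w ^ 2 ≤ 2 * D * (t + D) :=
      EXC_core hX hD hwl h1 hF hFt hom hmy
    have h3 : dist m w ≤ E := by
      apply Real.le_sqrt_of_sq_le
      exact h2
    -- the point of z at time F
    have hF0 := hF.le
    have h4 : dist (ev z (dist o (ev r l))) (ev r l) ≤ 3 * t + D := by
      have h5 := dist_triangle (ev z (dist o (ev r l))) (ev z l) (ev r l)
      rw [dist_ev z hF0 hl0] at h5
      have h6 := asy_bound hX hz hl0
      have h7 : |dist o (ev r l) - l| ≤ t + D := by
        rw [abs_le]; constructor <;> linarith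
      linarith
    have h8 : dist m (ev z t) ≤ (t / dist o (ev r l)) *
        dist (ev r l) (ev z (dist o (ev r l))) := by
      apply Cat0.two_side hX hq0 hq1 hm1 hm2
      · rw [dist_o_ev z ht0, dist_o_ev z hF0, hqF]
      · rw [dist_ev z ht0 hF0, dist_o_ev z hF0, abs_of_nonpos (by linarith)]
        linear_combination hqF
    have h9 : dist m (ev z t) ≤ (t / (t + l - D)) * (3 * t + D) := by
      refine h8.trans ?_
      rw [dist_comm (ev r l)]
      apply mul_le_mul _ h4 dist_nonneg (div_nonneg ht0 (by linarith))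
      apply div_le_div_of_nonneg_left ht0 (by linarith) h1
    have h10 := dist_triangle (ev z t) m w
    rw [dist_comm (ev z t) m] at h10
    linarith
  have hlim : Filter.Tendsto (fun l : ℝ => (t / (t + l - D)) * (3 * t + D) + E) Filter.atTop
      (nhds (0 * (3 * t + D) + E)) := by
    apply Filter.Tendsto.add_const
    apply Filter.Tendsto.mul_const
    apply Filter.Tendsto.div_atTop tendsto_const_nhds
    have : (fun l : ℝ => t + l - D) = fun l : ℝ => l + (t - D) := by
      funext l; ring
    rw [this]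
    exact Filter.tendsto_atTop_add_const_right _ _ Filter.tendsto_id
  have h11 : dist (ev z t) w ≤ 0 * (3 * t + D) + E := by
    apply ge_of_tendsto hlim
    filter_upwards [Filter.eventually_ge_atTop (t + D + 1)] with l hl
    exact key l hl
  rw [zero_mul, zero_add] at h11
  calc dist (ev z t) w ^ 2 ≤ E ^ 2 := pow_le_pow_left₀ dist_nonneg h11 2
    _ = 2 * D * (t + D) := hE2

end Pool.CBD
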