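import Pool.Agent.CBD.HFR

/-!
# CBD module EXI: Lorentz products with the exponential

PROOF.  Put r = √(v0^2 + v1^2), C = cosh r, S = ks r, so that S^2 r^2 = sinh^2 r = C^2 - 1 and
r^2 = v0^2 + v1^2 (if r = 0 then v0 = v1 = 0, C = 1, S = 1).
First `exH_t`: the number t' = C T + S (v0 X + v1 Y) satisfies t'^2 = 1 + exx^2 + exy^2
(polynomial identity using C^2 = 1 + S^2 (v0^2 + v1^2) and T^2 = 1 + X^2 + Y^2) and t' > 0 because
|S (v0 X + v1 Y)| ≤ S r √(X^2+Y^2) < C T (Cauchy–Schwarz, S r = sinh r < C, √(X^2+Y^2) < T).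
Hence t' = √(1 + exx^2 + exy^2).  The three other statements are then polynomial identities.
-/

namespace Pool.CBD

open Real Set

namespace Hyp

private theorem exi_ks_mul (r : ℝ) : ks r * r = Real.sinh r := by
  unfold ks
  by_cases h : r = 0
  · rw [if_pos h, h]
    simp
  · rw [if_neg h]
    exact div_mul_cancel₀ _ h

theorem ks_sq (r : ℝ) : (ks r * r) ^ 2 = Real.cosh r ^ 2 - 1 := by
  rw [exi_ks_mul, Real.cosh_sq]
  ring

theorem ks_pos (r : ℝ) : 0 < ks r := by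
  unfold ks
  by_cases h : r = 0
  · rw [if_pos h]
    exact one_pos
  · rw [if_neg h]
    rcases lt_or_gt_of_ne h with h1 | h1
    · exact div_pos_of_neg_of_neg (Real.sinh_neg_iff.2 h1) h1
    · exact div_pos (Real.sinh_pos_iff.2 h1) h1

private theorem exi_inv (p : Hyp) : (1 + p.t)⁻¹ * (1 + p.t) = 1 := by
  have := p.pos
  exact inv_mul_cancel₀ (by positivity)

private theorem exi_C (v0 v1 : ℝ) : Real.cosh (√(v0 ^ 2 + v1 ^ 2)) ^ 2 =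
    1 + ks (√(v0 ^ 2 + v1 ^ 2)) ^ 2 * (v0 ^ 2 + v1 ^ 2) := by
  have h1 := ks_sq (√(v0 ^ 2 + v1 ^ 2))
  have h2 : (√(v0 ^ 2 + v1 ^ 2)) ^ 2 = v0 ^ 2 + v1 ^ 2 := Real.sq_sqrt (by positivity)
  rw [mul_pow, h2] at h1
  linarith

theorem exH_x (p : Hyp) (v0 v1 : ℝ) : (exH p v0 v1).x = exx p v0 v1 := rfl

theorem exH_y (p : Hyp) (v0 v1 : ℝ) : (exH p v0 v1).y = exy p v0 v1 := rfl

theorem exH_t (p : Hyp) (v0 v1 : ℝ) : (exH p v0 v1).t =
    Real.cosh (√(v0 ^ 2 + v1 ^ 2)) * p.t + ks (√(v0 ^ 2 + v1 ^ 2)) * (v0 * p.x + v1 * p.y) := by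
  have hC := exi_C v0 v1
  have hi := exi_inv p
  have h1 := p.h
  have hC0 : 0 < Real.cosh (√(v0 ^ 2 + v1 ^ 2)) := Real.cosh_pos _
  have hT0 := p.pos
  change √(1 + exx p v0 v1 ^ 2 + exy p v0 v1 ^ 2) = _
  unfold exx exy
  simp only [div_eq_mul_inv]
  generalize Real.cosh (√(v0 ^ 2 + v1 ^ 2)) = C at *
  generalize ks (√(v0 ^ 2 + v1 ^ 2)) = S at *
  generalize (1 + p.t)⁻¹ = i at *
  have hnn : 0 ≤ C * p.t + S * (v0 * p.x + v1 * p.y) := by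
    have h2 : (S * (v0 * p.x + v1 * p.y)) ^ 2 ≤ (C * p.t) ^ 2 := by
      have h3 : (v0 * p.x + v1 * p.y) ^ 2 ≤ (v0 ^ 2 + v1 ^ 2) * (p.x ^ 2 + p.y ^ 2) := by
        nlinarith [sq_nonneg (v0 * p.y - v1 * p.x)]
      have h4 : S ^ 2 * (v0 * p.x + v1 * p.y) ^ 2 ≤
          S ^ 2 * ((v0 ^ 2 + v1 ^ 2) * (p.x ^ 2 + p.y ^ 2)) :=
        mul_le_mul_of_nonneg_left h3 (sq_nonneg S)
      have h5 : S ^ 2 * (v0 ^ 2 + v1 ^ 2) = C ^ 2 - 1 := by linarith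
      have h6 : p.x ^ 2 + p.y ^ 2 = p.t ^ 2 - 1 := by linarith
      have h7 : S ^ 2 * ((v0 ^ 2 + v1 ^ 2) * (p.x ^ 2 + p.y ^ 2)) =
          (C ^ 2 - 1) * (p.t ^ 2 - 1) := by
        rw [← mul_assoc, h5, h6]
      have h8 : 0 ≤ S ^ 2 * (v0 ^ 2 + v1 ^ 2) := by positivity
      have h9 : 0 ≤ p.x ^ 2 + p.y ^ 2 := by positivity
      rw [mul_pow, mul_pow]
      nlinarith
    have h3 := abs_le_of_sq_le_sq' h2 (by positivity)
    linarith [h3.1]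
  rw [Real.sqrt_eq_iff_mul_self_eq (by positivity) hnn]
  linear_combination -hC - (C ^ 2 + 2 * C * S * (v0 * p.x + v1 * p.y) * i
    + S ^ 2 * (v0 * p.x + v1 * p.y) ^ 2 * i ^ 2) * h1
    + (2 * C * S * (v0 * p.x + v1 * p.y) * (p.t - 1)
    + S ^ 2 * (v0 * p.x + v1 * p.y) ^ 2 * (1 + (p.t - 1) * i)) * hi

theorem cc_exH (p : Hyp) (v0 v1 : ℝ) : cc p (exH p v0 v1) = Real.cosh (√(v0 ^ 2 + v1 ^ 2)) := by
  have hi := exi_inv p
  have h1 := p.h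
  unfold cc
  rw [exH_t, exH_x, exH_y]
  unfold exx exy
  simp only [div_eq_mul_inv]
  generalize Real.cosh (√(v0 ^ 2 + v1 ^ 2)) = C at *
  generalize ks (√(v0 ^ 2 + v1 ^ 2)) = S at *
  generalize (1 + p.t)⁻¹ = i at *
  linear_combination (C + S * (v0 * p.x + v1 * p.y) * i) * h1
    - S * (v0 * p.x + v1 * p.y) * (p.t - 1) * hi

theorem c1_exH (p : Hyp) (v0 v1 : ℝ) : c1 p (exH p v0 v1) = ks (√(v0 ^ 2 + v1 ^ 2)) * v0 := by
  have hi := exi_inv p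
  unfold c1
  rw [cc_exH, exH_t, exH_x]
  unfold exx
  simp only [div_eq_mul_inv]
  generalize Real.cosh (√(v0 ^ 2 + v1 ^ 2)) = C at *
  generalize ks (√(v0 ^ 2 + v1 ^ 2)) = S at *
  generalize (1 + p.t)⁻¹ = i at *
  linear_combination (-(C * p.x)) * hi

theorem c2_exH (p : Hyp) (v0 v1 : ℝ) : c2 p (exH p v0 v1) = ks (√(v0 ^ 2 + v1 ^ 2)) * v1 := by
  have hi := exi_inv p
  unfold c2
  rw [cc_exH, exH_t, exH_y]
  unfold exy
  simp only [div_eq_mul_inv]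
  generalize Real.cosh (√(v0 ^ 2 + v1 ^ 2)) = C at *
  generalize ks (√(v0 ^ 2 + v1 ^ 2)) = S at *
  generalize (1 + p.t)⁻¹ = i at *
  linear_combination (-(C * p.y)) * hi

theorem dist_exH (p : Hyp) (v0 v1 : ℝ) : dist p (exH p v0 v1) = √(v0 ^ 2 + v1 ^ 2) := by
  rw [dist_def, cc_exH]
  exact Real.arcosh_cosh (Real.sqrt_nonneg _)

/-- Lorentz product of an arbitrary point with a point of a geodesic from p. -/
theorem cc_exH_right (p q : Hyp) (v0 v1 : ℝ) : cc q (exH p v0 v1) =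
    Real.cosh (√(v0 ^ 2 + v1 ^ 2)) * cc p q
      - ks (√(v0 ^ 2 + v1 ^ 2)) * (v0 * c1 p q + v1 * c2 p q) := by
  have hi := exi_inv p
  unfold c1 c2 cc
  rw [exH_t, exH_x, exH_y]
  unfold exx exy
  simp only [div_eq_mul_inv]
  generalize Real.cosh (√(v0 ^ 2 + v1 ^ 2)) = C at *
  generalize ks (√(v0 ^ 2 + v1 ^ 2)) = S at *
  generalize (1 + p.t)⁻¹ = i at *
  linear_combination (-(S * (v0 * p.x + v1 * p.y) * q.t)) * hi

end Hyp

end Pool.CBD
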