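import Pool.Agent.CBD.KRY

/-!
# CBD: definitions for the local connectedness of the boundary

`oo D` is the base point, off all walls.  `EE y`: rays from oo through y which stay, after y, in one block
(which then contains y).  `Hf c s` (s = 1 or -1): closed half of the block of c on one side of its base
wall.  `SS c s y`: rays from oo through y which stay in `Hf c s` after y.
-/

namespace Pool.CBD

open Real Set

variable {K N : Type} [Group K] [MulAction K N]

/-- The base point. -/
noncomputable def oo (D : CDat K N) : D.X := bt (Ch.base D.G.toDat) D.ob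

variable {D : CDat K N}

/-- Rays through y staying in a block after y. -/
def EE (y : D.X) : Set (Bd D.X (oo D)) :=
  {r | ev r (dist (oo D) y) = y ∧
    ∃ c : D.G.Ch, ∀ t : ℝ, dist (oo D) y ≤ t → ev r t ∈ range (bt c : Blk → D.X)}

/-- A closed half block. -/
def Hf (c : D.G.Ch) (s : ℝ) : Set D.X := (bt c : Blk → D.X) '' {b | 0 ≤ s * b.h.y}

/-- Rays through y staying in a closed half block after y. -/
def SS (c : D.G.Ch) (s : ℝ) (y : D.X) : Set (Bd D.X (oo D)) :=
  {r | ev r (dist (oo D) y) = y ∧ ∀ t : ℝ, dist (oo D) y ≤ t → ev r t ∈ Hf c s}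

end Pool.CBD
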