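import Pool.Agent.CBD.FNB
import Pool.Agent.CBD.ETP

/-!
# CBD module FEG: the set-valued map EE has nonempty values and a closed graph

PROOFS.  `EE_ne`: `exists_ext` (module KRY).
`EE_graph`: let c1, e be from `near_blocks` y0, B1 = range (bt c1), B2 = range (bt c1.flip), closed
(`block_closed`), f0 = dist oo y0.  Let r0 ∉ EE y0.  If ev r0 f0 ≠ y0: {(y, r) | ev r (dist oo y) ≠ y} is
open (`continuous_ev2`).  Otherwise ev r0 f0 = y0 and for i = 1, 2 there is t_i ≥ f0 with ev r0 t_i ∉ B_i.
For each i: either y0 ∉ B_i: then y ∉ B_i for y near y0; or y0 ∈ B_i, then t_i > f0 and for (y, r) near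
(y0, r0): dist oo y < t_i and ev r t_i ∉ B_i.  In both cases, for (y, r) near (y0, r0), r does not satisfy
∀ t ≥ dist oo y, ev r t ∈ B_i (in the first case because ev r (dist oo y) = y would be in B_i).  If r ∈ EE y
with the chart c, then y = ev r (dist oo y) ∈ range (bt c), dist y0 y < e, so c = c1.mul k or c1.flip.mul k
and range (bt c) is B1 or B2 (`range_mul`), contradiction.
-/

namespace Pool.CBD

open Real Set

variable {K N : Type} [Group K] [MulAction K N] {D : CDat K N}

theorem EE_ne {y : D.X} (hy : y ≠ oo D) : (EE y).Nonempty := by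
  obtain ⟨c, b, rfl⟩ := exists_bt y
  obtain ⟨r, h1, h2⟩ := exists_ext hy
  rw [dist_comm] at h1 h2
  exact ⟨r, h1, c, h2⟩

/-- one block near y0: rays near r0 do not stay in it after y -/
private theorem FEG_one {y0 : D.X} {r0 : Bd D.X (oo D)} {B : Set D.X} (hB : IsClosed B)
    (h : ¬ ∀ t : ℝ, dist (oo D) y0 ≤ t → ev r0 t ∈ B) (he : ev r0 (dist (oo D) y0) = y0) :
    ∀ᶠ p : D.X × Bd D.X (oo D) in nhds y0 ×ˢ nhds r0,
      ¬ (ev p.2 (dist (oo D) p.1) = p.1 ∧ ∀ t : ℝ, dist (oo D) p.1 ≤ t → ev p.2 t ∈ B) := by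
  by_cases hy : y0 ∈ B
  · push Not at h
    obtain ⟨t, ht, htB⟩ := h
    have ht' : dist (oo D) y0 < t := by
      rcases eq_or_lt_of_le ht with h1 | h1
      · exfalso
        apply htB
        rw [← h1, he]
        exact hy
      · exact h1
    have h1 : ∀ᶠ y in nhds y0, dist (oo D) y < t :=
      (continuous_const.dist continuous_id).continuousAt.eventually_lt_const ht'
    have h2 : ∀ᶠ r : Bd D.X (oo D) in nhds r0, ev r t ∉ B := by
      have h3 : Continuous (fun r : Bd D.X (oo D) => ev r t) :=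
        continuous_ev2.comp (Continuous.prodMk continuous_id continuous_const)
      exact h3.continuousAt.eventually (hB.isOpen_compl.mem_nhds htB)
    filter_upwards [h1.prod_mk h2] with p hp hcon
    exact hp.2 (hcon.2 t hp.1.le)
  · have h1 : ∀ᶠ y in nhds y0, y ∉ B := hB.isOpen_compl.mem_nhds hy
    filter_upwards [h1.prod_inl (nhds r0)] with p hp hcon
    have h2 := hcon.2 _ le_rfl
    rw [hcon.1] at h2
    exact hp h2

theorem EE_graph {y0 : D.X} (hy0 : y0 ≠ oo D) {r0 : Bd D.X (oo D)} (hr0 : r0 ∉ EE y0) :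
    ∃ U ∈ nhds y0, ∃ V ∈ nhds r0, ∀ y ∈ U, ∀ r ∈ V, r ∉ EE y := by
  have key : ∀ᶠ p : D.X × Bd D.X (oo D) in nhds y0 ×ˢ nhds r0, p.2 ∉ EE p.1 := by
    by_cases he : ev r0 (dist (oo D) y0) = y0
    · obtain ⟨e, e0, c1, hc1⟩ := near_blocks y0
      have hall : ∀ c : D.G.Ch, ¬ ∀ t : ℝ, dist (oo D) y0 ≤ t →
          ev r0 t ∈ range (bt c : Blk → D.X) := by
        intro c hc
        exact hr0 ⟨he, c, hc⟩
      have h1 := FEG_one (block_closed c1) (hall c1) he
      have h2 := FEG_one (block_closed c1.flip) (hall c1.flip) he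
      have h3 : ∀ᶠ y in nhds y0, dist y0 y < e := by
        have := (continuous_const.dist continuous_id : Continuous fun y : D.X => dist y0 y)
        refine this.continuousAt.eventually_lt_const ?_
        simpa using e0
      filter_upwards [h1, h2, h3.prod_inl (nhds r0)] with p hp1 hp2 hp3 hcon
      obtain ⟨h4, c, h5⟩ := hcon
      have h6 := h5 _ le_rfl
      rw [h4] at h6
      obtain ⟨b, hb⟩ := h6
      rw [← hb] at hp3
      rcases hc1 c b hp3 with ⟨k, hk⟩ | ⟨k, hk⟩
      · apply hp1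
        refine ⟨h4, fun t ht => ?_⟩
        rw [← range_mul c1 k, ← hk]
        exact h5 t ht
      · apply hp2
        refine ⟨h4, fun t ht => ?_⟩
        rw [← range_mul c1.flip k, ← hk]
        exact h5 t ht
    · have h1 : Continuous (fun p : D.X × Bd D.X (oo D) => ev p.2 (dist (oo D) p.1)) :=
        continuous_ev2.comp (Continuous.prodMk continuous_snd
          (continuous_const.dist continuous_fst))
      have h2 : IsOpen {p : D.X × Bd D.X (oo D) | ev p.2 (dist (oo D) p.1) ≠ p.1} :=
        isOpen_ne_fun h1 continuous_fst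
      have h3 : ∀ᶠ p : D.X × Bd D.X (oo D) in nhds y0 ×ˢ nhds r0,
          ev p.2 (dist (oo D) p.1) ≠ p.1 := by
        rw [← nhds_prod_eq]
        exact h2.mem_nhds he
      filter_upwards [h3] with p hp hcon
      exact hp hcon.1
  rw [Filter.eventually_prod_iff] at key
  obtain ⟨pa, hpa, pb, hpb, hab⟩ := key
  exact ⟨{y | pa y}, hpa, {r | pb r}, hpb, fun y hy r hr => hab hy hr⟩

end Pool.CBD
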