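import Pool.Agent.CBD.FXS

/-!
# CBD module FSE: existence of the three continuing rays at a wall point

PROOF.  F = dist (bt c w) oo > 0 (`oo_off`).  P a hinge vector of Psi = dist (bt c ·) oo at w (`hg_dist`).
`ext_of_hinge` gives a ray r with ev r (F + t) = bt c (ex w (-(t/F) • P)), and the sign of the y coordinate
of ex w v is that of v 1 (`lg_one`, lg w (ex w v) = v); s * P 1 > 0 (`arrive_hinge`), so r ∈ SS c (-s).
For c.flip: Beh c.flip base (`beh_flip_left`), Phi = dist (bt c.flip ·) oo = glu Psi (`flip_glu` for c.flip and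
`Ch.flip_flip`), m = io w, io m = w: `glu_hinge_wall` with P' = P: for b:
(lg m b 0 - RR P 0)^2 + (|lg m b 1| + |P 1|)^2 + (lg m b 2 - RR P 2)^2 ≤ Phi b ^ 2, so for the vector
Q = !₂[RR P 0, q * P 1, RR P 2], q = 1 or -1, ‖lg m b - Q‖ ≤ Phi b (`flat_min'` with this Q) and
‖Q‖ = ‖P‖ = F = Phi m (bt c.flip (io w) = bt c w).  `ext_of_hinge` gives rays in the directions -Q/F with
both signs of the component 1: SS c.flip 1 and SS c.flip (-1) are nonempty at y = bt c w.
-/

namespace Pool.CBD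

open Real Set

variable {K N : Type} [Group K] [MulAction K N] {D : CDat K N}

private theorem FSE_sgn {w : Blk} (hw : w ∈ W0) (v : E3) {s : ℝ} (h : 0 ≤ s * v 1) :
    0 ≤ s * (ex w v).h.y := by
  by_contra hc
  have hc' : s * (ex w v).h.y < 0 := not_le.1 hc
  have h1 := lg_one hw (ex w v)
  rw [lg_ex] at h1
  have h2 := kd_pos (dist w.h (ex w v).h)
  have h3 : s * v 1 = kd (dist w.h (ex w v).h) * (s * (ex w v).h.y) := by
    rw [h1]; ring
  have h4 : kd (dist w.h (ex w v).h) * (s * (ex w v).h.y) < 0 := mul_neg_of_pos_of_neg h2 hc'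
  linarith

private theorem FSE_SS {c : D.G.Ch} {s : ℝ} {w : Blk} (hw : w ∈ W0) {P : E3}
    (hP : ‖P‖ = dist (bt c w) (oo D)) (hP' : ∀ b', ‖lg w b' - P‖ ≤ dist (bt c b') (oo D))
    (h : 0 ≤ s * -(P 1)) : (SS c s (bt c w)).Nonempty := by
  have hne : (bt c w : D.X) ≠ oo D := oo_off c hw
  have hF0 : 0 < dist (bt c w : D.X) (oo D) := dist_pos.mpr hne
  obtain ⟨r, hr⟩ := ext_of_hinge hne hP hP'
  refine ⟨r, ?_, ?_⟩
  · have h1 := hr 0 le_rfl
    rw [add_zero, zero_div, neg_zero, zero_smul, ex_zero] at h1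
    rw [dist_comm]
    exact h1
  · intro t ht
    rw [dist_comm] at ht
    have h1 := hr (t - dist (bt c w) (oo D)) (by linarith)
    rw [add_sub_cancel] at h1
    rw [h1]
    refine ⟨_, ?_, rfl⟩
    change 0 ≤ s * _
    apply FSE_sgn hw
    have h2 : (-((t - dist (bt c w) (oo D)) / dist (bt c w) (oo D)) • P) 1 =
        -((t - dist (bt c w) (oo D)) / dist (bt c w) (oo D)) * P 1 := rfl
    rw [h2]
    have h3 : 0 ≤ (t - dist (bt c w) (oo D)) / dist (bt c w) (oo D) :=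
      div_nonneg (by linarith) hF0.le
    have h4 := mul_nonneg h3 h
    linarith

theorem SS_ne_same {c : D.G.Ch} {s : ℝ} (hs : s = 1 ∨ s = -1) {w x : Blk} (hw : w ∈ W0)
    (hx : 0 < s * x.h.y) (h : dist (bt c w) (oo D) = dist (bt c x) (oo D) + dist w x) :
    (SS c (-s) (bt c w)).Nonempty := by
  obtain ⟨P, hP, hP'⟩ := hg_dist D c (oo D) w
  have h1 := (arrive_hinge hs hw hx h hP hP').2
  apply FSE_SS hw hP hP'
  linarith

theorem SS_ne_flip {c : D.G.Ch} (hc : ¬ Beh c (Ch.base D.G.toDat)) {q : ℝ} (hq : q = 1 ∨ q = -1)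
    {w : Blk} (hw : w ∈ W0) : (SS c.flip q (bt c w)).Nonempty := by
  obtain ⟨P, hP, hP'⟩ := hg_dist D c (oo D) w
  have hm : io D.P w ∈ W0 := io_mem D.P w
  have hio : io D.P (io D.P w) = w := io_io D.P hw
  have hbt : (bt c.flip (io D.P w) : D.X) = bt c w := bt_flip (D := D.G) c hw
  have hb : Beh c.flip (Ch.base D.G.toDat) := (beh_flip_left c _).2 hc
  have hg := flip_glu D hb D.ob
  rw [Ch.flip_flip] at hg
  have hw' := glu_hinge_wall D.P (Psi := fun b : Blk => dist (bt c b) (oo D)) hm (P' := P)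
    (by rw [hio]; exact hP')
  have hq1 : |q| = 1 := by
    rcases hq with h | h <;> rw [h] <;> simp
  have hqq : q * q = 1 := by
    rcases hq with h | h <;> rw [h] <;> ring
  obtain ⟨Q, hQ⟩ : ∃ Q : E3, Q = !₂[RR D.P P 0, -(q * |P 1|), RR D.P P 2] := ⟨_, rfl⟩
  have q0 : Q 0 = RR D.P P 0 := by rw [hQ]; rfl
  have q1 : Q 1 = -(q * |P 1|) := by rw [hQ]; rfl
  have q2 : Q 2 = RR D.P P 2 := by rw [hQ]; rfl
  have hQn : ‖Q‖ = ‖P‖ := by
    rw [← norm_RR D.P P, ← sq_eq_sq₀ (norm_nonneg _) (norm_nonneg _), norm_sq3, norm_sq3, q0, q1, q2,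
      RR_one]
    have h1 : (-(q * |P 1|)) ^ 2 = P 1 ^ 2 := by
      rw [neg_sq, mul_pow, sq_abs, sq q, hqq, one_mul]
    rw [h1]
  rw [← hbt]
  apply FSE_SS hm (P := Q)
  · rw [hQn, hP, hbt]
  · intro b
    have hgb : dist (bt c.flip b : D.X) (oo D) = glu D.P (fun b : Blk => dist (bt c b) (oo D)) b :=
      congrFun hg b
    rw [hgb]
    apply flat_min'
    · rw [← hgb]; exact dist_nonneg
    · have h1 := hw' b
      rw [q0, q2, q1]
      have h2 : |-(q * |P 1|)| = |P 1| := by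
        rw [abs_neg, abs_mul, hq1, one_mul, abs_abs]
      rw [h2]
      exact h1
  · rw [q1]
    have h1 : q * -(-(q * |P 1|)) = q * q * |P 1| := by ring
    rw [h1, hqq, one_mul]
    exact abs_nonneg _

end Pool.CBD
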