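import Pool.Agent.CBD.FDF

/-!
# CBD module FNB: blocks near a point; the base point is off the walls

PROOFS.  `oo_off`: bt c w = bt base ob with w in W0: by `same_point` (for bt base ob = bt c w) either
c = base.mul k, then act k w = ob (`bt_mul`, `dist_bt`), contradicting `ob_off`; or
act k⁻¹ ob in W0 for some k, so ob = act k (act k⁻¹ ob), contradiction again.
`near_blocks`: y0 = bt c1 b.  If act k w = b for some k and w in W0, replace c1 by c1.mul k, b by w: `local_wall`
with e = D.G.del.  Otherwise `walls_dist` and `local_int`.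
`range_mul`: range (bt (c.mul k)) = range (bt c) (bt_mul, act k surjective); Hf_closed: image of a closed
set under an isometry of a complete space (`continuous_y`, `continuous_h` of module TOP).
-/

namespace Pool.CBD

open Real Set

variable {K N : Type} [Group K] [MulAction K N] {D : CDat K N}

private theorem fnb_iso (c : D.G.Ch) : Isometry (bt c : Blk → D.X) :=
  Isometry.of_dist_eq (dist_bt c)

theorem oo_off (c : D.G.Ch) {w : Blk} (hw : w ∈ W0) : (bt c w : D.X) ≠ oo D := by
  intro h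
  have h' : (bt (Ch.base D.G.toDat) D.ob : D.X) = bt c w := h.symm
  rcases same_point h' with ⟨k, hk⟩ | ⟨k, j, -, hW, -⟩
  · rw [hk, bt_mul] at h
    have h1 : (bt (Ch.base D.G.toDat) (D.G.act k w) : D.X) = bt (Ch.base D.G.toDat) D.ob := h
    exact D.ob_off k w hw ((fnb_iso (Ch.base D.G.toDat)).injective h1)
  · exact D.ob_off k _ hW (D.G.act_act_inv k D.ob)

theorem range_mul (c : D.G.Ch) (k : K) :
    range (bt (c.mul k) : Blk → D.X) = range (bt c : Blk → D.X) := by
  ext x
  constructor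
  · rintro ⟨b, rfl⟩
    exact ⟨D.G.act k b, (bt_mul c k b).symm⟩
  · rintro ⟨b, rfl⟩
    refine ⟨D.G.act k⁻¹ b, ?_⟩
    rw [bt_mul, D.G.act_act_inv]

theorem near_blocks (y0 : D.X) : ∃ e > 0, ∃ c1 : D.G.Ch, ∀ (c : D.G.Ch) (b : Blk),
    dist y0 (bt c b) < e → (∃ k, c = c1.mul k) ∨ ∃ k, c = c1.flip.mul k := by
  obtain ⟨c1, b, rfl⟩ := exists_bt y0
  by_cases hb : ∃ k, ∃ w ∈ D.G.W, D.G.act k w = b
  · obtain ⟨k, w, hw, rfl⟩ := hb
    refine ⟨D.G.del, D.G.del_pos, c1.mul k, fun c b' h => ?_⟩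
    rw [← bt_mul] at h
    exact local_wall hw h
  · push Not at hb
    obtain ⟨e, he, h1⟩ := walls_dist (D := D.G) hb
    refine ⟨e, he, c1, fun c b' h => ?_⟩
    exact Or.inl (local_int h1 h)

theorem Hf_closed (c : D.G.Ch) (s : ℝ) : IsClosed (Hf c s) := by
  apply (fnb_iso c).isClosedEmbedding.isClosedMap
  exact isClosed_le continuous_const (continuous_const.mul (Hyp.continuous_y.comp continuous_h))

theorem wall_sub_Hf (c : D.G.Ch) (s : ℝ) {w : Blk} (hw : w ∈ W0) : (bt c w : D.X) ∈ Hf c s := by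
  refine ⟨w, ?_, rfl⟩
  show 0 ≤ s * w.h.y
  rw [mem_W0.mp hw, mul_zero]

end Pool.CBD
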