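import Pool.Agent.CBD.SLE
import Pool.Agent.CBD.GLU
import Pool.Agent.CBD.ISO

/-!
# CBD module FSB: going away along a wall, when the centre is behind another wall of the block

F, G are mutually inverse isometries of the block; the entry wall is F '' W0 (line of u, |u1| ≥ 3), w is in the
wall W0, and the distance function to the centre is b ↦ glu P Psi (G b).

PROOF.  w = wp s v, w1 = G w; w1 ∉ W0 (otherwise w = F w1 has lo u w.h = 0 and w.h.y = 0, but `lo_side`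
with h = h' = w.h gives 0 < 0).  w0 in W0 a minimiser for w1 (`glu_min`): glu Psi w1 = dist w1 w0 + Psi (io w0).
A = lg w0 w1, ell = ‖A‖ = dist w0 w1 > 0, rho = √(A0^2 + A1^2) = dist w0.h w1.h, co = rho/ell,
si = A2/ell; A2 = w1.v - w0.v.  e from `sl_line` for u and s; theta = !₂[e co, 0, si];
b = G (ex w (l theta)), ex w (l theta) = wp (s + e (l co)) (v + l si).
For w2 in W0 (w0 = wp s0 v0, w2 = wp s2 v2): `subgrad` (minimality of w0) gives
Psi (io w2) ≥ ‖lg w0 w2 + (Psi (io w0)/ell) • A‖ ≥ ⟪lg w0 w2, A⟫/ell + Psi (io w0), with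
lg w0 w2 = (s2 - s0, 0, v2 - v0) (`lg_wp`).
dist b.h w2.h = dist (ex w (l theta)).h (F w2).h and (F w2).h is on the line of u (hl), so by `sl_line`
dist b.h w2.h ≥ dist w.h (F w2).h + l co - log 6 = dist w1.h w2.h + l co - log 6.
(F and G are products of isometries of Hyp and translations: BIso; both preserve the H-distances, and
b.v - w1.v = l si.)
dist b w2 ≥ co dist b.h w2.h + si (b.v - v2) ≥ co dist w1.h w2.h + l co^2 - co log 6
+ si (w1.v - v2) + l si^2.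
co dist w1.h w2.h ≥ (rho^2 - A0 (s2 - s0))/ell: by `hinge` at w0 for ⟨w1.h, w0.v⟩ and ⟨w2.h, w0.v⟩,
dist w1.h w2.h ≥ ‖(A0 - (s2 - s0), A1)‖ ≥ (A0 (A0 - (s2-s0)) + A1^2)/rho if rho > 0 (if rho = 0 then
A0 = 0 and both sides vanish).
Adding up, dist b w2 + Psi (io w2) ≥ rho^2/ell + A2 (w1.v - v0)/ell + l - co log 6 + Psi (io w0)
= ell + Psi (io w0) + l - co log 6 ≥ glu Psi w1 + l - log 6.  Infimum over w2 (`le_glu`).
-/

namespace Pool.CBD

open Real Set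

private theorem fsb_cs {A B D co si : ℝ} (h1 : co ^ 2 + si ^ 2 = 1) (hD : 0 ≤ D)
    (h : D ^ 2 = A ^ 2 + B ^ 2) : co * A + si * B ≤ D := by
  have h2 : (co * A + si * B) ^ 2 ≤ D ^ 2 := by
    rw [h]
    nlinarith [sq_nonneg (co * B - si * A)]
  exact (abs_le_of_sq_le_sq' h2 hD).2

private theorem fsb_inner (V A : E3) : inner ℝ V A = V 0 * A 0 + V 1 * A 1 + V 2 * A 2 := by
  rw [PiLp.inner_apply, Fin.sum_univ_three]
  simp only [RCLike.inner_apply, conj_trivial]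
  ring

private theorem fsb_h (p q : Hyp) (a : ℝ) : dist (⟨p, a⟩ : Blk) ⟨q, a⟩ = dist p q := by
  have h := Blk.dist_sq (⟨p, a⟩ : Blk) ⟨q, a⟩
  have h2 : dist (⟨p, a⟩ : Blk) ⟨q, a⟩ ^ 2 = dist p q ^ 2 := by
    rw [h]
    change dist p q ^ 2 + (a - a) ^ 2 = _
    ring
  exact (pow_left_inj₀ dist_nonneg dist_nonneg two_ne_zero).mp h2

/-- The hinge inequality for the horizontal components. -/
private theorem fsb_hinge (w0 w1 w2 : Blk) (h1 : lg w0 w2 1 = 0) :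
    (lg w0 w1 0 - lg w0 w2 0) ^ 2 + lg w0 w1 1 ^ 2 ≤ dist w1.h w2.h ^ 2 := by
  have h := hinge w0 ⟨w1.h, w0.v⟩ ⟨w2.h, w0.v⟩
  rw [fsb_h] at h
  have hn := norm_sq3 (lg w0 ⟨w1.h, w0.v⟩ - lg w0 ⟨w2.h, w0.v⟩)
  have e0 : (lg w0 ⟨w1.h, w0.v⟩ - lg w0 ⟨w2.h, w0.v⟩) 0 = lg w0 w1 0 - lg w0 w2 0 := rfl
  have e1 : (lg w0 ⟨w1.h, w0.v⟩ - lg w0 ⟨w2.h, w0.v⟩) 1 = lg w0 w1 1 - lg w0 w2 1 := rfl
  rw [e0, e1, h1, sub_zero] at hn
  have h2 : ‖lg w0 ⟨w1.h, w0.v⟩ - lg w0 ⟨w2.h, w0.v⟩‖ ^ 2 ≤ dist w1.h w2.h ^ 2 :=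
    pow_le_pow_left₀ (norm_nonneg _) h 2
  nlinarith [sq_nonneg ((lg w0 ⟨w1.h, w0.v⟩ - lg w0 ⟨w2.h, w0.v⟩) 2)]

/-- The algebraic heart of the estimate. -/
private theorem fsb_alg {A0 A1 A2 B0 B2 ell rho co si d l L Q : ℝ} (hell : 0 < ell)
    (hr : rho ^ 2 = A0 ^ 2 + A1 ^ 2) (hr0 : 0 ≤ rho) (hl2 : ell ^ 2 = A0 ^ 2 + A1 ^ 2 + A2 ^ 2)
    (hco : co = rho / ell) (hsi : si = A2 / ell) (hd : 0 ≤ d)
    (hdd : (A0 - B0) ^ 2 + A1 ^ 2 ≤ d ^ 2) (hQ : B0 * A0 + B2 * A2 ≤ Q * ell)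
    (hL : 0 ≤ L) :
    ell + l - L ≤ co * (d + l * co - L) + si * (A2 - B2 + l * si) + Q := by
  have h1 : rho ^ 2 - A0 * B0 ≤ rho * d := by
    have h2 : (A0 * (A0 - B0) + A1 * A1) ^ 2 ≤ (rho * d) ^ 2 := by
      rw [mul_pow, hr]
      have h3 : (A0 * (A0 - B0) + A1 * A1) ^ 2 ≤ (A0 ^ 2 + A1 ^ 2) * ((A0 - B0) ^ 2 + A1 ^ 2) := by
        nlinarith [sq_nonneg (A0 * A1 - A1 * (A0 - B0))]
      exact h3.trans (mul_le_mul_of_nonneg_left hdd (by positivity))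
    have h4 := (abs_le_of_sq_le_sq' h2 (mul_nonneg hr0 hd)).2
    rw [hr]
    linarith
  have hco1 : co ≤ 1 := by
    rw [hco, div_le_one hell]
    have : rho ^ 2 ≤ ell ^ 2 := by rw [hr, hl2]; nlinarith [sq_nonneg A2]
    exact (abs_le_of_sq_le_sq' this hell.le).2
  have hcs : co ^ 2 + si ^ 2 = 1 := by
    rw [hco, hsi, div_pow, div_pow, ← add_div, hr, ← hl2, div_self (pow_ne_zero 2 hell.ne')]
  have e1 : co * ell = rho := by rw [hco]; field_simp
  have e2 : si * ell = A2 := by rw [hsi]; field_simp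
  have h5 : (ell + l - L) * ell ≤
      (co * (d + l * co - L) + si * (A2 - B2 + l * si) + Q) * ell := by
    have h6 : (co * (d + l * co - L) + si * (A2 - B2 + l * si) + Q) * ell =
        rho * d + A2 * (A2 - B2) + Q * ell + (co ^ 2 + si ^ 2) * l * ell - co * L * ell := by
      rw [← e1, ← e2]
      ring
    rw [h6, hcs]
    have h7 : co * L * ell ≤ 1 * L * ell := by
      apply mul_le_mul_of_nonneg_right _ hell.le
      exact mul_le_mul_of_nonneg_right hco1 hL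
    nlinarith
  exact le_of_mul_le_mul_right h5 hell

theorem sl_block (P : Par) {Psi : Blk → ℝ} (h : HGp Psi) {F G : Blk → Blk} (hF : BIso F)
    (hG : BIso G) (hFG : ∀ b, F (G b) = b) (hGF : ∀ b, G (F b) = b)
    {u : Fin 3 → ℝ} (hu : u 0 ^ 2 + u 1 ^ 2 - u 2 ^ 2 = 1) (h3 : 3 ≤ |u 1|)
    (hl : ∀ b : Blk, (∃ w ∈ W0, F w = b) ↔ lo u b.h = 0) {w : Blk} (hw : w ∈ W0) :
    ∃ th : E3, ‖th‖ = 1 ∧ th 1 = 0 ∧ ∀ l : ℝ, 0 ≤ l →
      glu P Psi (G w) + l - Real.log 6 ≤ glu P Psi (G (ex w (l • th))) := by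
  obtain ⟨s, v, rfl⟩ := exists_wp hw
  obtain ⟨w1, hw1⟩ : ∃ w1, w1 = G (wp s v) := ⟨_, rfl⟩
  have hFw1 : F w1 = wp s v := by rw [hw1, hFG]
  have hw1off : w1 ∉ W0 := by
    intro hmem
    have h1 : lo u (wp s v).h = 0 := (hl _).mp ⟨w1, hmem, hFw1⟩
    have h2 := lo_side hu h3 h1 h1
    rw [mem_W0.mp hw] at h2
    simp at h2
  rw [← hw1]
  obtain ⟨w0, hw0, hmin⟩ := glu_min P h w1
  have hne : w0 ≠ w1 := fun h0 => hw1off (h0 ▸ hw0)
  have hell : 0 < dist w0 w1 := dist_pos.mpr hne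
  have hsub := subgrad P h hw1off hw0 (fun w hw => by
    rw [← hmin]; exact glu_le P h w1 hw)
  obtain ⟨A, hA⟩ : ∃ A, A = lg w0 w1 := ⟨_, rfl⟩
  obtain ⟨ell, hl0⟩ : ∃ ell, ell = dist w0 w1 := ⟨_, rfl⟩
  have hnA : ‖A‖ = ell := by rw [hA, hl0]; exact norm_lg _ _
  have hell2 : ell ^ 2 = A 0 ^ 2 + A 1 ^ 2 + A 2 ^ 2 := by rw [← hnA, norm_sq3]
  obtain ⟨rho, hrho⟩ : ∃ rho, rho = √(A 0 ^ 2 + A 1 ^ 2) := ⟨_, rfl⟩
  have hrho2 : rho ^ 2 = A 0 ^ 2 + A 1 ^ 2 := by rw [hrho, Real.sq_sqrt (by positivity)]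
  have hrho0 : 0 ≤ rho := by rw [hrho]; exact Real.sqrt_nonneg _
  rw [← hl0] at hell
  obtain ⟨co, hco⟩ : ∃ co, co = rho / ell := ⟨_, rfl⟩
  obtain ⟨si, hsi⟩ : ∃ si, si = A 2 / ell := ⟨_, rfl⟩
  have hcs : co ^ 2 + si ^ 2 = 1 := by
    rw [hco, hsi, div_pow, div_pow, ← add_div, hrho2, ← hell2, div_self (pow_ne_zero 2 hell.ne')]
  have hco0 : 0 ≤ co := by rw [hco]; positivity
  have hA2 : A 2 = w1.v - w0.v := by rw [hA]; rfl
  obtain ⟨e, he, hline⟩ := sl_line hu h3 s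
  have he2 : e ^ 2 = 1 := by rcases he with rfl | rfl <;> norm_num
  have hlog : 0 ≤ Real.log 6 := Real.log_nonneg (by norm_num)
  refine ⟨!₂[e * co, 0, si], ?_, rfl, fun l hl1 => ?_⟩
  · have h1 : ‖(!₂[e * co, 0, si] : E3)‖ ^ 2 = 1 := by
      rw [norm_sq3]
      change (e * co) ^ 2 + (0 : ℝ) ^ 2 + si ^ 2 = 1
      rw [mul_pow, he2]
      linarith
    have h2 : 0 ≤ ‖(!₂[e * co, 0, si] : E3)‖ := norm_nonneg _
    nlinarith
  · have hex : ex (wp s v) (l • (!₂[e * co, 0, si] : E3)) = wp (s + e * (l * co)) (v + l * si) := by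
      have h1 : l • (!₂[e * co, 0, si] : E3) = !₂[e * (l * co), 0, l * si] := by
        ext i
        fin_cases i
        · simp; ring
        · simp
        · simp
      rw [h1, ex_wp]
    rw [hex, hmin]
    apply le_glu
    intro w2 hw2
    -- the distance to w2 seen from the other side
    have hdb : dist (G (wp (s + e * (l * co)) (v + l * si))) w2 =
        dist (wp (s + e * (l * co)) (v + l * si)) (F w2) := by
      rw [← hF.dist_eq, hFG]
    rw [hdb]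
    have hlo : lo u (F w2).h = 0 := (hl _).mp ⟨w2, hw2, rfl⟩
    have hline2 := hline (F w2).h hlo (l * co) (by positivity)
    obtain ⟨f, a, -, hcc, hFb⟩ := hF
    have hfh : dist (F w2).h (Hyp.of (Real.sinh s) 0) = dist w1.h w2.h := by
      have e1 : (Hyp.of (Real.sinh s) 0) = f w1.h := by
        have h1 : (F w1).h = (wp s v).h := by rw [hFw1]
        rw [hFb] at h1
        exact h1.symm
      have e2 : (F w2).h = f w2.h := by rw [hFb]
      rw [e1, e2, Hyp.dist_def, hcc, ← Hyp.dist_def, dist_comm]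
    have hfv : v - (F w2).v = w1.v - w2.v := by
      have h1 : (F w1).v = (wp s v).v := by rw [hFw1]
      rw [hFb] at h1
      have h2 : w1.v + a = v := h1
      have h4 : (F w2).v = w2.v + a := by rw [hFb]
      rw [h4, ← h2]
      ring
    rw [hfh] at hline2
    have hD := Blk.dist_sq (wp (s + e * (l * co)) (v + l * si)) (F w2)
    have hD2 : dist (wp (s + e * (l * co)) (v + l * si)) (F w2) ^ 2 =
        dist (F w2).h (Hyp.of (Real.sinh (s + e * (l * co))) 0) ^ 2 +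
          (w1.v - w2.v + l * si) ^ 2 := by
      rw [hD, dist_comm (F w2).h]
      change _ + (v + l * si - (F w2).v) ^ 2 = _
      congr 1
      rw [← hfv]
      ring
    have hCS := fsb_cs hcs dist_nonneg hD2
    have hmono : co * (dist w1.h w2.h + l * co - Real.log 6) ≤
        co * dist (F w2).h (Hyp.of (Real.sinh (s + e * (l * co))) 0) :=
      mul_le_mul_of_nonneg_left hline2 hco0
    -- the subgradient
    have hB1 : lg w0 w2 1 = 0 := lg_mem_W0 hw0 hw2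
    have hs2 := hsub w2 hw2
    rw [← hA, ← hl0] at hs2
    have hinn : inner ℝ (lg w0 w2 + (Psi (io P w0) / ell) • A) A ≤ Psi (io P w2) * ell := by
      refine (real_inner_le_norm _ _).trans ?_
      rw [hnA]
      exact mul_le_mul_of_nonneg_right hs2 hell.le
    rw [inner_add_left, inner_smul_left, real_inner_self_eq_norm_sq, hnA, fsb_inner, hB1] at hinn
    simp only [conj_trivial] at hinn
    have hPs : Psi (io P w0) / ell * ell ^ 2 = Psi (io P w0) * ell := by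
      field_simp
    rw [hPs] at hinn
    have hq : lg w0 w2 0 * A 0 + lg w0 w2 2 * A 2 ≤
        (Psi (io P w2) - Psi (io P w0)) * ell := by
      rw [zero_mul, add_zero] at hinn
      rw [sub_mul]
      linarith
    have hhin := fsb_hinge w0 w1 w2 hB1
    rw [← hA] at hhin
    have halg := fsb_alg (A0 := A 0) (A1 := A 1) (A2 := A 2) (B0 := lg w0 w2 0) (B2 := lg w0 w2 2)
      (d := dist w1.h w2.h) (l := l) (L := Real.log 6) (Q := Psi (io P w2) - Psi (io P w0)) hell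
      hrho2 hrho0 hell2 hco hsi dist_nonneg hhin hq hlog
    have hv : A 2 - lg w0 w2 2 = w1.v - w2.v := by
      rw [hA2]
      change w1.v - w0.v - (w2.v - w0.v) = _
      ring
    rw [hv] at halg
    have hw10 : dist w1 w0 = ell := by rw [dist_comm, hl0]
    rw [hw10]
    linarith

end Pool.CBD
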