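import Pool.Agent.CBD.FSA
import Pool.Agent.CBD.FSB
import Pool.Agent.CBD.FNB

/-!
# CBD module FSL: going away from the base point along a wall

PROOF.  By `tri` for c and base.  (i) base = c.mul k: oo = bt c x, x = act k ob, x ∉ W0 (ob_off), and
dist oo (bt c b) = dist x b: `sl_point`.  (ii) Beh (c.mul k) base with k a0 ≠ a0: `sl_block` with F = act k,
G = act k⁻¹, Psi = dist (bt (c.mul k).flip ·) oo, u from `D.line k`; dist (bt c b) oo =
dist (bt (c.mul k) (act k⁻¹ b)) oo = glu Psi (act k⁻¹ b) (`flip_glu`).  (iii) Beh (c.mul k) base with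
k a0 = a0, that is Beh c base (`beh_mul_left`): then ¬ Beh c.flip base; apply (i)/(ii) to the chart c.flip and
the point io w, and transport the direction: bt c (ex w (l • th)) = bt c.flip (io (ex w (l • th))) =
bt c.flip (ex (io w) (l • RR th)) (`io_ex`), so use th = RR th' (RR_RR, norm_RR, RR_one).
-/

namespace Pool.CBD

open Real Set

variable {K N : Type} [Group K] [MulAction K N] {D : CDat K N}

private theorem fsl_aux (c : D.G.Ch) (hc : ¬ Beh c (Ch.base D.G.toDat)) {w : Blk} (hw : w ∈ W0) :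
    ∃ th : E3, ‖th‖ = 1 ∧ th 1 = 0 ∧ ∀ l : ℝ, 0 ≤ l →
      dist (oo D) (bt c w) + l - Real.log 6 ≤ dist (oo D) (bt c (ex w (l • th))) := by
  rcases tri c (Ch.base D.G.toDat) with ⟨k, hk⟩ | ⟨k, hk⟩
  · have ho : oo D = bt c (D.G.act k D.ob) := by
      unfold oo
      rw [hk, bt_mul]
    have hx : D.G.act k D.ob ∉ W0 := by
      intro hin
      exact D.ob_off k⁻¹ _ hin (D.G.act_inv_act k D.ob)
    obtain ⟨th, h1, h2, h3⟩ := sl_point hw hx
    refine ⟨th, h1, h2, fun l hl => ?_⟩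
    rw [ho, dist_bt, dist_bt]
    exact h3 l hl
  · by_cases hka : k • D.a0 = D.a0
    · exact absurd ((beh_mul_left c _ hka).1 hk) hc
    obtain ⟨u, hu, hu3, hl⟩ := D.line k hka
    have hd : ∀ b : Blk, dist (oo D) (bt c b) =
        glu D.P (fun b : Blk => dist (bt (c.mul k).flip b) (bt (Ch.base D.G.toDat) D.ob : D.X))
          (D.G.act k⁻¹ b) := by
      intro b
      have e1 := congrFun (flip_glu D hk D.ob) (D.G.act k⁻¹ b)
      rw [← e1, bt_mul, D.G.act_act_inv, dist_comm]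
      rfl
    obtain ⟨th, h1, h2, h3⟩ := sl_block D.P
      (hg_dist D (c.mul k).flip (bt (Ch.base D.G.toDat) D.ob)) (F := D.G.act k) (G := D.G.act k⁻¹)
      (D.act_iso k) (D.act_iso k⁻¹) (D.G.act_act_inv k) (D.G.act_inv_act k) hu hu3 hl hw
    refine ⟨th, h1, h2, fun l hl => ?_⟩
    rw [hd, hd]
    exact h3 l hl

theorem sl_wall (c : D.G.Ch) {w : Blk} (hw : w ∈ W0) :
    ∃ th : E3, ‖th‖ = 1 ∧ th 1 = 0 ∧ ∀ l : ℝ, 0 ≤ l →
      dist (oo D) (bt c w) + l - Real.log 6 ≤ dist (oo D) (bt c (ex w (l • th))) := by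
  by_cases hc : Beh c (Ch.base D.G.toDat)
  · have hc' : ¬ Beh c.flip (Ch.base D.G.toDat) := fun h => (beh_flip_left c _).1 h hc
    obtain ⟨th, h1, h2, h3⟩ := fsl_aux c.flip hc' (io_mem D.P w)
    have hth : (RR D.P th) 1 = 0 := by rw [RR_one, h2]
    refine ⟨RR D.P th, by rw [norm_RR, h1], hth, fun l hl => ?_⟩
    have hl1 : (l • RR D.P th) 1 = 0 := by
      change l * (RR D.P th) 1 = 0
      rw [hth, mul_zero]
    have e1 : (bt c w : D.X) = bt c.flip (io D.P w) := (bt_flip c hw).symm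
    have e2 : (bt c (ex w (l • RR D.P th)) : D.X) = bt c.flip (ex (io D.P w) (l • th)) := by
      have e3 : io D.P (ex w (l • RR D.P th)) = ex (io D.P w) (l • th) := by
        rw [io_ex D.P hw hl1, RR_smul, RR_RR]
      rw [← e3]
      exact (bt_flip c (ex_mem_W0 hw hl1)).symm
    rw [e1, e2]
    exact h3 l hl
  · exact fsl_aux c hc hw

end Pool.CBD
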