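import Pool.Agent.CBD.FNB
import Pool.Agent.CBD.BTW

/-!
# CBD module FOF: uniqueness of the extension inside a block, off the walls

PROOFS.  `same_before`: two rays from oo through y agree up to the time F = dist oo y: for s ≤ F,
dist oo (ev r s) = s, dist (ev r s) y = F - s; `Cat0.uniq`.
`block_line`: x, w, z in Blk with dist x w + dist w z = dist x z, x ≠ w: lg w z =
-(dist w z / dist x w) • lg w x (`between_lg`), so z is determined by x, w and dist w z (`ex_lg`).
`EE_off`: y = bt c b with b on no wall.  Let e be from `walls_dist`, F = dist oo y > 0,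
q = min e F / 2, x = ev r (F - q): dist y x = q < e so x = bt c bx (`local_int`), x = ev r' (F - q) too.
The block in which r stays after y is that of c (it contains y; `same_point`/`local_int` with distance 0),
so for t ≥ 0: ev r (F + t) = bt c z, ev r' (F + t) = bt c z', dist bx b = q, dist b z = t = dist b z',
dist bx z = q + t = dist bx z' (`dist_bt`, `dist_ev`): z = z' by `block_line`.
-/

namespace Pool.CBD

open Real Set

variable {K N : Type} [Group K] [MulAction K N] {D : CDat K N}

theorem same_before {r r' : Bd D.X (oo D)} {y : D.X} (h : ev r (dist (oo D) y) = y)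
    (h' : ev r' (dist (oo D) y) = y) {s : ℝ} (hs : 0 ≤ s) (hs' : s ≤ dist (oo D) y) :
    ev r s = ev r' s := by
  have hF : 0 ≤ dist (oo D) y := dist_nonneg
  have key : ∀ q : Bd D.X (oo D), ev q (dist (oo D) y) = y →
      dist (oo D) (ev q s) = s ∧ dist (ev q s) y = dist (oo D) y - s := by
    intro q hq
    refine ⟨dist_o_ev q hs, ?_⟩
    have h1 := dist_ev q hs hF
    rw [hq, abs_sub_comm, abs_of_nonneg (by linarith)] at h1
    exact h1
  obtain ⟨a1, a2⟩ := key r h
  obtain ⟨b1, b2⟩ := key r' h'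
  exact (cat0_X D).uniq (x := oo D) (y := y) (by rw [a1, a2]; ring) (by rw [a1, b1])
    (by rw [a2, b2])

theorem block_line {x w z z' : Blk} (hx : x ≠ w) (h : dist x w + dist w z = dist x z)
    (h' : dist x w + dist w z' = dist x z') (hz : dist w z = dist w z') : z = z' := by
  have h1 := between_lg h
  have h2 := between_lg h'
  rw [← hz] at h2
  have h3 : dist w x • lg w z = dist w x • lg w z' := by
    have h4 := h1.trans h2.symm
    exact add_left_cancel h4
  have h0 : dist w x ≠ 0 := (dist_pos.mpr hx.symm).ne'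
  exact lg_inj (smul_right_injective _ h0 h3)

theorem EE_off {c : D.G.Ch} {b : Blk} (hb : ∀ k, ∀ w ∈ W0, D.act k w ≠ b)
    (hy : (bt c b : D.X) ≠ oo D) : (EE (bt c b : D.X)).Subsingleton := by
  intro r hr r' hr'
  obtain ⟨y, hyd⟩ : ∃ y : D.X, y = bt c b := ⟨_, rfl⟩
  rw [← hyd] at hr hr' hy
  obtain ⟨e, he0, he⟩ := walls_dist (D := D.G) hb
  obtain ⟨F, hFd⟩ : ∃ F, F = dist (oo D) y := ⟨_, rfl⟩
  have hF : 0 < F := by
    rw [hFd]
    exact dist_pos.mpr hy.symm
  obtain ⟨q, hq0, hqe, hqF⟩ : ∃ q : ℝ, 0 < q ∧ q < e ∧ q < F := by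
    refine ⟨min e F / 2, by positivity, ?_, ?_⟩
    · have h1 := min_le_left e F
      linarith
    · have h1 := min_le_right e F
      linarith
  have hblk : ∀ s : Bd D.X (oo D), s ∈ EE y → ∀ t : ℝ, F ≤ t → ∃ z, ev s t = bt c z := by
    rintro s ⟨hs1, c1, hs2⟩ t ht
    rw [← hFd] at hs1 hs2
    obtain ⟨b1, hb1⟩ := hs2 F le_rfl
    rw [hs1, hyd] at hb1
    rcases same_point (D := D.G) hb1.symm with ⟨k, hk⟩ | ⟨k, j, _, hk, _⟩
    · obtain ⟨z, hz⟩ := hs2 t ht
      refine ⟨D.G.act k z, ?_⟩
      rw [← hz, hk, bt_mul]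
    · exact absurd (D.G.act_act_inv k b) (hb k _ hk)
  have hev : ∀ s : Bd D.X (oo D), s ∈ EE y → ev s F = y := by
    intro s hs
    rw [hFd]
    exact hs.1
  have hsame : ∀ t : ℝ, 0 ≤ t → t ≤ F → ev r t = ev r' t := by
    intro t ht htF
    rw [hFd] at htF
    exact same_before hr.1 hr'.1 ht htF
  obtain ⟨bx, hbx⟩ : ∃ bx, ev r (F - q) = bt c bx := by
    obtain ⟨d, bd, hd⟩ := exists_bt (ev r (F - q))
    have h1 : dist (bt c b : D.X) (bt d bd) < e := by
      rw [← hd, ← hyd, ← hev r hr, dist_ev r hF.le (by linarith)]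
      have h2 : F - (F - q) = q := by ring
      rw [h2, abs_of_pos hq0]
      exact hqe
    obtain ⟨k, hk⟩ := local_int (D := D.G) he h1
    refine ⟨D.G.act k bd, ?_⟩
    rw [hd, hk, bt_mul]
  have hbx' : ev r' (F - q) = bt c bx := by
    rw [← hsame (F - q) (by linarith) (by linarith), hbx]
  have hd0 : dist bx b = q := by
    rw [← dist_bt (D := D.G) c bx b, ← hbx, ← hyd, ← hev r hr, dist_ev r (by linarith) hF.le]
    have h2 : F - q - F = -q := by ring
    rw [h2, abs_neg, abs_of_pos hq0]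
  have hne : bx ≠ b := by
    intro h
    rw [h, dist_self] at hd0
    exact hq0.ne hd0
  have hkey : ∀ s : Bd D.X (oo D), s ∈ EE y → ev s (F - q) = bt c bx → ∀ t : ℝ, F ≤ t →
      ∀ z, ev s t = bt c z → dist bx b + dist b z = dist bx z ∧ dist b z = t - F := by
    intro s hs hsq t ht z hz
    have h1 : dist b z = t - F := by
      rw [← dist_bt (D := D.G) c b z, ← hz, ← hyd, ← hev s hs, dist_ev s hF.le (by linarith),
        abs_sub_comm, abs_of_nonneg (by linarith)]
    have h2 : dist bx z = t - F + q := by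
      rw [← dist_bt (D := D.G) c bx z, ← hz, ← hsq, dist_ev s (by linarith) (by linarith),
        abs_sub_comm, abs_of_nonneg (by linarith)]
      ring
    exact ⟨by rw [hd0, h1, h2]; ring, h1⟩
  apply Bd.ext'
  intro t ht
  rcases le_total t F with htF | htF
  · exact hsame t ht htF
  · obtain ⟨z, hz⟩ := hblk r hr t htF
    obtain ⟨z', hz'⟩ := hblk r' hr' t htF
    obtain ⟨k1, k2⟩ := hkey r hr hbx t htF z hz
    obtain ⟨k3, k4⟩ := hkey r' hr' hbx' t htF z' hz'
    rw [hz, hz', block_line hne k1 k3 (by rw [k2, k4])]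

end Pool.CBD
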