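import Pool.Agent.CBD.Geo

/-!
# CBD module RRL: the linear reflection RR is a self-adjoint involutive isometry

PROOF.  Computation in coordinates (`norm_sq3`, `P.sq`, `Fin.sum_univ_three`, `PiLp.inner_apply`).
-/

namespace Pool.CBD

open Real Set

theorem RR_sub (P : Par) (v w : E3) : RR P (v - w) = RR P v - RR P w := by
  ext i
  fin_cases i
  · simp [RR]; ring
  · simp [RR]
  · simp [RR]; ring

theorem RR_smul (P : Par) (c : ℝ) (w : E3) : RR P (c • w) = c • RR P w := by
  ext i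
  fin_cases i
  · simp [RR]; ring
  · simp [RR]
  · simp [RR]; ring

theorem norm_RR (P : Par) (w : E3) : ‖RR P w‖ = ‖w‖ := by
  have h := P.sq
  have h1 : ‖RR P w‖ ^ 2 = ‖w‖ ^ 2 := by
    rw [norm_sq3, norm_sq3]
    simp [RR]
    linear_combination (w 0 ^ 2 + w 2 ^ 2) * h
  exact (sq_eq_sq₀ (norm_nonneg _) (norm_nonneg _)).mp h1

theorem inner_RR (P : Par) (v w : E3) : inner ℝ (RR P v) w = inner ℝ v (RR P w) := by
  rw [PiLp.inner_apply, PiLp.inner_apply, Fin.sum_univ_three, Fin.sum_univ_three]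
  simp [RR]
  ring

theorem RR_one (P : Par) (w : E3) : RR P w 1 = w 1 := rfl

theorem norm_RR_sub (P : Par) (v w : E3) : ‖RR P v - w‖ = ‖v - RR P w‖ := by
  rw [← norm_RR P (RR P v - w), RR_sub, RR_RR]

end Pool.CBD
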