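import Pool.Agent.CBD.RAY

/-!
# CBD module VAR: first variation of the distance in the block

PROOF.  Let p = m.h, q = x.h.  The H-distance δ(s) = dist q (exH p (s w0) (s w1)) satisfies
cosh δ(s) = cosh(s r) cc p q - sinh(s r)/r (w0 c1 p q + w1 c2 p q) for r = √(w0^2 + w1^2) > 0
(and is constant if r = 0), by `cc_exH_right` (note √((s w0)^2 + (s w1)^2) = |s| r).
If q ≠ p, then δ(0) > 0, arcosh is differentiable at cosh δ(0) > 1 and
δ'(0) = - (w0 c1 + w1 c2) / sinh δ(0), so (δ^2)'(0) = -2 (w0 lg_0 + w1 lg_1).  If q = p then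
δ(s) = |s| r and (δ^2)'(0) = 0.  The vertical part of dist^2 is (m.v + s w2 - x.v)^2 with derivative
-2 w2 (x.v - m.v).  So the derivative of s ↦ dist x (ex m (s w))^2 at 0 is -2 ⟪w, lg m x⟫.
For `hasDerivAt_dist` take the square root at the positive value dist x m ^2.
-/

namespace Pool.CBD

open Real Set

private theorem var_inner (w : E3) (m x : Blk) : inner ℝ w (lg m x) =
    kd (dist m.h x.h) * (w 0 * Hyp.c1 m.h x.h + w 1 * Hyp.c2 m.h x.h) + w 2 * (x.v - m.v) := by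
  simp only [lg, PiLp.inner_apply, Fin.sum_univ_three, RCLike.inner_apply, conj_trivial]
  simp
  ring

private noncomputable def varK (r s : ℝ) : ℝ := if r = 0 then s else Real.sinh (s * r) / r

private theorem varK_zero (r : ℝ) : varK r 0 = 0 := by
  unfold varK
  split_ifs <;> simp

private theorem varK_deriv (r : ℝ) : HasDerivAt (varK r) 1 0 := by
  unfold varK
  split_ifs with h
  · exact hasDerivAt_id 0
  · have h1 : HasDerivAt (fun s : ℝ => Real.sinh (s * r)) (Real.cosh (0 * r) * (1 * r)) 0 :=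
      ((hasDerivAt_id (0 : ℝ)).mul_const r).sinh
    have h2 := h1.div_const r
    rw [zero_mul, Real.cosh_zero, one_mul, one_mul, div_self h] at h2
    exact h2

private theorem varK_eq {v0 v1 : ℝ} (c d s : ℝ) :
    ks (√((s * v0) ^ 2 + (s * v1) ^ 2)) * (s * v0 * c + s * v1 * d) =
      varK (√(v0 ^ 2 + v1 ^ 2)) s * (v0 * c + v1 * d) := by
  have hsq : √(v0 ^ 2 + v1 ^ 2) ^ 2 = v0 ^ 2 + v1 ^ 2 := Real.sq_sqrt (by positivity)
  have hn : √((s * v0) ^ 2 + (s * v1) ^ 2) = |s * √(v0 ^ 2 + v1 ^ 2)| := by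
    rw [← Real.sqrt_sq_eq_abs]
    congr 1
    linear_combination (-(s ^ 2)) * hsq
  rw [hn]
  unfold varK
  split_ifs with h
  · have h0 : v0 ^ 2 + v1 ^ 2 = 0 := by rw [← hsq, h]; norm_num
    have hv0 : v0 = 0 := by nlinarith [sq_nonneg v0, sq_nonneg v1]
    have hv1 : v1 = 0 := by nlinarith [sq_nonneg v0, sq_nonneg v1]
    rw [hv0, hv1]
    ring
  · set r := √(v0 ^ 2 + v1 ^ 2) with hr
    unfold ks
    split_ifs with h2
    · have h3 : s * r = 0 := abs_eq_zero.mp h2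
      have h4 : s = 0 := by
        rcases mul_eq_zero.mp h3 with h5 | h5
        · exact h5
        · exact absurd h5 h
      rw [h4]
      simp
    · have h5 : s * r ≠ 0 := fun h' => h2 (by rw [h', abs_zero])
      have h6 : s ≠ 0 := fun h' => h5 (by rw [h', zero_mul])
      have h7 : Real.sinh |s * r| / |s * r| = Real.sinh (s * r) / (s * r) := by
        rcases abs_choice (s * r) with h8 | h8
        · rw [h8]
        · rw [h8, Real.sinh_neg, neg_div_neg_eq]
      rw [h7]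
      field_simp

private theorem var_H (p q : Hyp) (v0 v1 : ℝ) :
    HasDerivAt (fun s : ℝ => dist q (Hyp.exH p (s * v0) (s * v1)) ^ 2)
      (-2 * (kd (dist p q) * (v0 * Hyp.c1 p q + v1 * Hyp.c2 p q))) 0 := by
  set r := √(v0 ^ 2 + v1 ^ 2) with hr
  have hsq : r ^ 2 = v0 ^ 2 + v1 ^ 2 := Real.sq_sqrt (by positivity)
  have hcc : ∀ s : ℝ, Hyp.cc q (Hyp.exH p (s * v0) (s * v1)) =
      Real.cosh (s * r) * Hyp.cc p q - varK r s * (v0 * Hyp.c1 p q + v1 * Hyp.c2 p q) := by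
    intro s
    rw [Hyp.cc_exH_right, varK_eq]
    have hn : √((s * v0) ^ 2 + (s * v1) ^ 2) = |s * r| := by
      rw [← Real.sqrt_sq_eq_abs]
      congr 1
      linear_combination (-(s ^ 2)) * hsq
    rw [hn, Real.cosh_abs]
  rcases eq_or_ne p q with hpq | hpq
  · have e1 : Hyp.c1 p q ^ 2 + Hyp.c2 p q ^ 2 = 0 := by
      rw [Hyp.c1c2_sq, hpq, Hyp.cc_self]; norm_num
    have e2 : Hyp.c1 p q = 0 := by nlinarith [sq_nonneg (Hyp.c1 p q), sq_nonneg (Hyp.c2 p q)]
    have e3 : Hyp.c2 p q = 0 := by nlinarith [sq_nonneg (Hyp.c1 p q), sq_nonneg (Hyp.c2 p q)]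
    have h1 : (fun s : ℝ => dist q (Hyp.exH p (s * v0) (s * v1)) ^ 2) =
        fun s : ℝ => (s * r) ^ 2 := by
      funext s
      have h2 := hcc s
      rw [e2, e3, mul_zero, mul_zero, add_zero, mul_zero, sub_zero] at h2
      rw [hpq, Hyp.cc_self, mul_one] at h2
      rw [hpq, Hyp.dist_def, h2, ← Real.cosh_abs, Real.arcosh_cosh (abs_nonneg _), sq_abs]
    rw [h1, e2, e3]
    have h3 : HasDerivAt (fun s : ℝ => (s * r) ^ 2) (((2 : ℕ) : ℝ) * (0 * r) ^ (2 - 1) * (1 * r)) 0 :=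
      ((hasDerivAt_id (0 : ℝ)).mul_const r).pow 2
    simpa using h3
  · have hd : 0 < dist p q := dist_pos.mpr hpq
    have hc1 : 1 < Hyp.cc p q := by
      rw [← Hyp.cosh_dist]
      exact Real.one_lt_cosh.mpr hd.ne'
    have hg : HasDerivAt (fun s : ℝ => Real.cosh (s * r) * Hyp.cc p q -
        varK r s * (v0 * Hyp.c1 p q + v1 * Hyp.c2 p q))
        (Real.sinh (0 * r) * (1 * r) * Hyp.cc p q -
          1 * (v0 * Hyp.c1 p q + v1 * Hyp.c2 p q)) 0 :=
      ((((hasDerivAt_id (0 : ℝ)).mul_const r).cosh).mul_const _).sub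
        ((varK_deriv r).mul_const _)
    have hg0 : Real.cosh (0 * r) * Hyp.cc p q -
        varK r 0 * (v0 * Hyp.c1 p q + v1 * Hyp.c2 p q) = Hyp.cc p q := by
      rw [varK_zero, zero_mul, Real.cosh_zero]
      ring
    have ha : HasDerivAt Real.arcosh (√(Hyp.cc p q ^ 2 - 1))⁻¹ (Real.cosh (0 * r) * Hyp.cc p q -
        varK r 0 * (v0 * Hyp.c1 p q + v1 * Hyp.c2 p q)) := by
      rw [hg0]
      exact Real.hasDerivAt_arcosh hc1
    have h1 := (ha.comp (0 : ℝ) hg).pow 2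
    have h2 : (fun s : ℝ => dist q (Hyp.exH p (s * v0) (s * v1)) ^ 2) =
        (Real.arcosh ∘ fun s : ℝ => Real.cosh (s * r) * Hyp.cc p q -
        varK r s * (v0 * Hyp.c1 p q + v1 * Hyp.c2 p q)) ^ 2 := by
      funext s
      rw [Pi.pow_apply, Function.comp_apply, ← hcc s, Hyp.dist_def]
    rw [h2]
    refine h1.congr_deriv ?_
    rw [Function.comp_apply, hg0, ← Hyp.sinh_dist, ← Hyp.dist_def]
    unfold kd
    rw [if_neg hd.ne']
    simp
    ring

theorem hasDerivAt_dist_sq (m x : Blk) (w : E3) :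
    HasDerivAt (fun s : ℝ => dist x (ex m (s • w)) ^ 2) (-2 * inner ℝ w (lg m x)) 0 := by
  have h1 : (fun s : ℝ => dist x (ex m (s • w)) ^ 2) = fun s : ℝ =>
      dist x.h (Hyp.exH m.h (s * w 0) (s * w 1)) ^ 2 + (x.v - (m.v + s * w 2)) ^ 2 := by
    funext s
    rw [Blk.dist_sq]
    rfl
  rw [h1]
  have h2 : HasDerivAt (fun s : ℝ => (x.v - (m.v + s * w 2)) ^ 2)
      (((2 : ℕ) : ℝ) * (x.v - (m.v + 0 * w 2)) ^ (2 - 1) * (-(1 * w 2))) 0 :=
    ((((hasDerivAt_id (0 : ℝ)).mul_const (w 2)).const_add m.v).const_sub x.v).pow 2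
  have h3 := (var_H m.h x.h (w 0) (w 1)).add h2
  refine h3.congr_deriv ?_
  rw [var_inner]
  simp
  ring

theorem hasDerivAt_dist {m x : Blk} (hx : m ≠ x) (w : E3) :
    HasDerivAt (fun s : ℝ => dist x (ex m (s • w))) (- inner ℝ w (lg m x) / dist m x) 0 := by
  have h1 := hasDerivAt_dist_sq m x w
  have hd : 0 < dist m x := dist_pos.mpr hx
  have h0 : dist x (ex m ((0 : ℝ) • w)) ^ 2 = dist m x ^ 2 := by
    rw [zero_smul, ex_zero, dist_comm]
  have h2 := h1.sqrt (by rw [h0]; positivity)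
  have h3 : (fun s : ℝ => √(dist x (ex m (s • w)) ^ 2)) = fun s : ℝ => dist x (ex m (s • w)) := by
    funext s
    exact Real.sqrt_sq dist_nonneg
  rw [h3] at h2
  refine h2.congr_deriv ?_
  rw [h0, Real.sqrt_sq dist_nonneg]
  field_simp

end Pool.CBD
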