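import Pool.Agent.CBD.WAL
import Pool.Agent.CBD.VAR
import Pool.Agent.CBD.RRL

/-!
# CBD module MTC: tangential matching of a geodesic crossing a wall

PROOF.  Let e be the vector !₂[1,0,0] or !₂[0,0,1].  The function
s ↦ dist x (ex m (s e)) + dist (io (ex m (s e))) y has its minimum over all real s at s = 0
(ex m (s e) is in W0 by `ex_mem_W0`, `ex_zero`), and io (ex m (s e)) = ex (io m) (s RR e)
(`io_ex`, `RR_smul`).  By `hasDerivAt_dist` its derivative at 0 is
- ⟪e, lg m x⟫ / dist m x - ⟪RR e, lg (io m) y⟫ / dist (io m) y, which is 0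
(`IsLocalMin.hasDerivAt_eq_zero`).  ⟪RR e, v⟫ = ⟪e, RR v⟫ (`inner_RR`) and ⟪e, v⟫ is the
component of v.  `match_one`: the squares of the three components of the unit vectors sum to one.
-/

namespace Pool.CBD

open Real Set

private theorem match_aux (P : Par) {m x y : Blk} (hm : m ∈ W0) (hx : m ≠ x) (hy : io P m ≠ y)
    (hmin : ∀ w ∈ W0, dist x m + dist (io P m) y ≤ dist x w + dist (io P w) y)
    (e : E3) (he : e 1 = 0) :
    inner ℝ e (lg m x) / dist m x = - (inner ℝ e (RR P (lg (io P m) y)) / dist (io P m) y) := by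
  have h1 := hasDerivAt_dist hx e
  have h2 := hasDerivAt_dist hy (RR P e)
  have h3 : ∀ s : ℝ, io P (ex m (s • e)) = ex (io P m) (s • RR P e) := by
    intro s
    rw [io_ex P hm (by simp [he]), RR_smul]
  have h4 : IsLocalMin (fun s : ℝ => dist x (ex m (s • e)) + dist y (ex (io P m) (s • RR P e)))
      0 := by
    apply Filter.Eventually.of_forall
    intro s
    have hs := hmin (ex m (s • e)) (ex_mem_W0 hm (by simp [he]))
    rw [h3] at hs
    simp only [zero_smul, ex_zero]
    rw [dist_comm y, dist_comm y]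
    exact hs
  have h5 := h4.hasDerivAt_eq_zero (h1.add h2)
  rw [inner_RR] at h5
  have h6 : -inner ℝ e (lg m x) / dist m x = -(inner ℝ e (lg m x) / dist m x) := neg_div _ _
  have h7 : -inner ℝ e (RR P (lg (io P m) y)) / dist (io P m) y
    = -(inner ℝ e (RR P (lg (io P m) y)) / dist (io P m) y) := neg_div _ _
  rw [h6, h7] at h5
  linarith

theorem match_tan (P : Par) {m x y : Blk} (hm : m ∈ W0) (hx : m ≠ x) (hy : io P m ≠ y)
    (hmin : ∀ w ∈ W0, dist x m + dist (io P m) y ≤ dist x w + dist (io P w) y) :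
    lg m x 0 / dist m x = - (RR P (lg (io P m) y) 0 / dist (io P m) y) ∧
    lg m x 2 / dist m x = - (RR P (lg (io P m) y) 2 / dist (io P m) y) := by
  have e0 : ∀ v : E3, inner ℝ (!₂[(1 : ℝ), 0, 0] : E3) v = v 0 := by
    intro v
    rw [PiLp.inner_apply, Fin.sum_univ_three]
    simp
  have e2 : ∀ v : E3, inner ℝ (!₂[(0 : ℝ), 0, 1] : E3) v = v 2 := by
    intro v
    rw [PiLp.inner_apply, Fin.sum_univ_three]
    simp
  constructor
  · have := match_aux P hm hx hy hmin !₂[1, 0, 0] (by simp)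
    rwa [e0, e0] at this
  · have := match_aux P hm hx hy hmin !₂[0, 0, 1] (by simp)
    rwa [e2, e2] at this

theorem match_one (P : Par) {m x y : Blk} (hm : m ∈ W0) (hx : m ≠ x) (hy : io P m ≠ y)
    (hmin : ∀ w ∈ W0, dist x m + dist (io P m) y ≤ dist x w + dist (io P w) y) :
    |lg m x 1| / dist m x = |lg (io P m) y 1| / dist (io P m) y := by
  obtain ⟨h0, h2⟩ := match_tan P hm hx hy hmin
  have hd1 : 0 < dist m x := dist_pos.mpr hx
  have hd2 : 0 < dist (io P m) y := dist_pos.mpr hy
  have n1 := norm_sq3 (lg m x)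
  rw [norm_lg] at n1
  have n2 := norm_sq3 (RR P (lg (io P m) y))
  rw [norm_RR, norm_lg, RR_one] at n2
  have k1 : (|lg m x 1| / dist m x) ^ 2
      = 1 - (lg m x 0 / dist m x) ^ 2 - (lg m x 2 / dist m x) ^ 2 := by
    rw [div_pow, sq_abs]
    field_simp
    linarith
  have k2 : (|lg (io P m) y 1| / dist (io P m) y) ^ 2
      = 1 - (RR P (lg (io P m) y) 0 / dist (io P m) y) ^ 2
        - (RR P (lg (io P m) y) 2 / dist (io P m) y) ^ 2 := by
    rw [div_pow, sq_abs]
    field_simp
    linarith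
  have k3 : (|lg m x 1| / dist m x) ^ 2 = (|lg (io P m) y 1| / dist (io P m) y) ^ 2 := by
    rw [k1, k2, h0, h2]
    ring
  exact (pow_left_inj₀ (by positivity) (by positivity) two_ne_zero).mp k3

end Pool.CBD
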