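import Pool.Agent.CBD.FXS
import Pool.Agent.CBD.FOF
import Pool.Agent.CBD.MTC

/-!
# CBD module FSU: uniqueness of the continuing rays at a wall point

Let y = bt c w, F = dist oo y, and x as in `arrive` (x on the side s of the wall W0 of the chart c with
dist y oo = dist (bt c x) oo + dist w x; x ≠ w because x.h.y ≠ 0).
PROOFS.  `through_x`: every ray r from oo through y passes through bt c x at time F - dist w x
(`Cat0.uniq`: both points are at the same distances from oo and y, which add up).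
`SS_same_sub`: if r stays in the block of c after y: ev r (F + t) = bt c z, and bt c x, y, bt c z are on the ray,
so dist x w + dist w z = dist x z and `block_line` determines z.  Moreover (x ≠ w) lg w z is a negative
multiple of lg w x if t > 0, so z is on the side -s (`lg_one_pos`): a ray of EE staying in the block of c
is in SS c (-s).
`SS_flip_sub`: r, r' in SS c.flip q y: ev r (F + t) = bt c.flip z, ev r' (F+t) = bt c.flip z', t > 0,
dist (io w) z = t = dist (io w) z'.  For w' in W0: dist x w + dist (io w) z = dist (bt c x) (bt c.flip z)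
(points of the ray) ≤ dist x w' + dist (io w') z.  `match_tan` (m = w) determines the components 0, 2 of
RR (lg (io w) z), hence of lg (io w) z (RR_RR); `match_one` determines |lg (io w) z 1|, and its sign is
that of q * (z.h.y) ≥ 0 (`lg_one`).  So lg (io w) z = lg (io w) z' and z = z' (`lg_inj`).
`EE_wall`: r in EE y staying in the block of c': c' contains y, so (`local_wall` with distance 0) c' = c.mul k
or c.flip.mul k, so r stays in range (bt c) or range (bt c.flip).  In the first case r ∈ SS c (-s).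
In the second case ev r (F + t) = bt c.flip (z t), dist (io w) (z t) = t, dist (z t) (z t') = |t - t'|:
a geodesic ray in Blk from io w, so z t = ex (io w) (t • v) with v = lg (io w) (z 1)
(`between_eq` for t ≤ 1 .. or for all t, t' compare: z t is between io w and z T for t ≤ T), so all z t are on
the side of the sign of v 1 (`lg_one`), r ∈ SS c.flip 1 or SS c.flip (-1).
-/

namespace Pool.CBD

open Real Set

variable {K N : Type} [Group K] [MulAction K N] {D : CDat K N}

private theorem fsu_ne {s : ℝ} {w x : Blk} (hw : w ∈ W0) (hx : 0 < s * x.h.y) : x ≠ w := by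
  rintro rfl
  rw [mem_W0.mp hw, mul_zero] at hx
  exact lt_irrefl _ hx

/-- the distances along a ray through y -/
private theorem fsu_ray {o y p : D.X} {d : ℝ} (hd : 0 ≤ d) (h : dist o y = dist o p + d)
    (hp : dist p y = d) {r : Bd D.X o} (hr : ev r (dist o y) = y) :
    ev r (dist o p) = p ∧ ∀ t : ℝ, dist o y ≤ t →
      dist y (ev r t) = t - dist o y ∧ dist p (ev r t) = d + (t - dist o y) := by
  obtain ⟨F, hF⟩ : ∃ F, F = dist o y := ⟨_, rfl⟩
  obtain ⟨A, hA⟩ : ∃ A, A = dist o p := ⟨_, rfl⟩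
  have hA0 : 0 ≤ A := by rw [hA]; exact dist_nonneg
  rw [← hF] at hr h ⊢
  rw [← hA] at h ⊢
  have hF0 : 0 ≤ F := by linarith
  have e1 : dist o (ev r A) = A := dist_o_ev r hA0
  have e2 : dist (ev r A) (ev r F) = d := by
    rw [dist_ev r hA0 hF0, abs_sub_comm, abs_of_nonneg (by linarith)]
    linarith
  rw [hr] at e2
  have e3 : ev r A = p := (cat0_X D).uniq (x := o) (y := y) (by rw [e1, e2, ← hF]; linarith)
    (by rw [e1, ← hA]) (by rw [e2, hp])
  refine ⟨e3, fun t ht => ?_⟩
  have ht0 : 0 ≤ t := hF0.trans ht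
  constructor
  · have h1 : dist (ev r F) (ev r t) = t - F := by
      rw [dist_ev r hF0 ht0, abs_sub_comm, abs_of_nonneg (by linarith)]
    rwa [hr] at h1
  · have h1 : dist (ev r A) (ev r t) = t - A := by
      rw [dist_ev r hA0 ht0, abs_sub_comm, abs_of_nonneg (by linarith)]
    rw [e3] at h1
    rw [h1]
    linarith

private theorem fsu_ray' {c : D.G.Ch} {w x : Blk}
    (h : dist (bt c w) (oo D) = dist (bt c x) (oo D) + dist w x) {r : Bd D.X (oo D)}
    (hr : ev r (dist (oo D) (bt c w)) = bt c w) (t : ℝ) (ht : dist (oo D) (bt c w) ≤ t) :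
      dist (bt c w) (ev r t) = t - dist (oo D) (bt c w) ∧
      dist (bt c x) (ev r t) = dist x w + (t - dist (oo D) (bt c w)) := by
  have h1 : dist (oo D) (bt c w) = dist (oo D) (bt c x) + dist x w := by
    rw [dist_comm (oo D), dist_comm (oo D), dist_comm x w]
    exact h
  exact (fsu_ray (D := D) (dist_nonneg : 0 ≤ dist x w) h1 (dist_bt c x w) hr).2 t ht

theorem SS_same_sub {c : D.G.Ch} {s : ℝ} (hs : s = 1 ∨ s = -1) {w x : Blk} (hw : w ∈ W0)
    (hx : 0 < s * x.h.y) (h : dist (bt c w) (oo D) = dist (bt c x) (oo D) + dist w x) :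
    (SS c (-s) (bt c w)).Subsingleton := by
  rintro r ⟨hr, hr'⟩ q ⟨hq, hq'⟩
  apply Bd.ext'
  intro t ht
  rcases le_total t (dist (oo D) (bt c w)) with h1 | h1
  · exact same_before hr hq ht h1
  · obtain ⟨z, -, hz⟩ := hr' t h1
    obtain ⟨z', -, hz'⟩ := hq' t h1
    obtain ⟨a1, a2⟩ := fsu_ray' h hr t h1
    obtain ⟨b1, b2⟩ := fsu_ray' h hq t h1
    rw [← hz, dist_bt] at a1 a2
    rw [← hz', dist_bt] at b1 b2
    rw [← hz, ← hz']
    congr 1
    exact block_line (fsu_ne hw hx) (by rw [a1, a2]) (by rw [b1, b2]) (by rw [a1, b1])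

private theorem fsu_sign {m : Blk} (hm : m ∈ W0) (q : ℝ) (b : Blk) :
    0 ≤ q * lg m b 1 ↔ 0 ≤ q * b.h.y := by
  rw [lg_one hm b]
  have h1 : q * (kd (dist m.h b.h) * b.h.y) = kd (dist m.h b.h) * (q * b.h.y) := by ring
  rw [h1]
  exact mul_nonneg_iff_of_pos_left (kd_pos _)

private theorem fsu_abs {q a b : ℝ} (hq : q = 1 ∨ q = -1) (ha : 0 ≤ q * a) (hb : 0 ≤ q * b)
    (h : |a| = |b|) : a = b := by
  rcases hq with rfl | rfl
  · rwa [abs_of_nonneg (by linarith), abs_of_nonneg (by linarith)] at h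
  · rw [abs_of_nonpos (by linarith), abs_of_nonpos (by linarith)] at h
    linarith

theorem SS_flip_sub {c : D.G.Ch} {s : ℝ} (hs : s = 1 ∨ s = -1) {w x : Blk} (hw : w ∈ W0)
    (hx : 0 < s * x.h.y) (h : dist (bt c w) (oo D) = dist (bt c x) (oo D) + dist w x)
    {q : ℝ} (hq : q = 1 ∨ q = -1) : (SS c.flip q (bt c w)).Subsingleton := by
  have hxw : x ≠ w := fsu_ne hw hx
  have hdx : dist w x ≠ 0 := fun h0 => hxw (dist_eq_zero.mp h0).symm
  have hyf : (bt c.flip (io D.P w) : D.X) = bt c w := bt_flip c hw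
  have key : ∀ r ∈ SS c.flip q (bt c w), ∀ t : ℝ, dist (oo D) (bt c w) < t →
      ∃ z : Blk, ev r t = bt c.flip z ∧ dist (io D.P w) z = t - dist (oo D) (bt c w) ∧
        RR D.P (lg (io D.P w) z) 0 = -(t - dist (oo D) (bt c w)) * (lg w x 0 / dist w x) ∧
        RR D.P (lg (io D.P w) z) 2 = -(t - dist (oo D) (bt c w)) * (lg w x 2 / dist w x) ∧
        |lg (io D.P w) z 1| = (t - dist (oo D) (bt c w)) * (|lg w x 1| / dist w x) ∧
        0 ≤ q * lg (io D.P w) z 1 := by
    rintro r ⟨hr, hr'⟩ t ht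
    obtain ⟨z, hz, hz'⟩ := hr' t ht.le
    obtain ⟨a1, a2⟩ := fsu_ray' h hr t ht.le
    rw [← hz'] at a1 a2
    rw [← hyf, dist_bt, hyf] at a1
    obtain ⟨τ, hτ⟩ : ∃ τ, τ = t - dist (oo D) (bt c w) := ⟨_, rfl⟩
    rw [← hτ] at a1 a2 ⊢
    have hτ0 : 0 < τ := by rw [hτ]; linarith
    have hne : io D.P w ≠ z := by
      intro h0
      rw [h0, dist_self] at a1
      linarith
    have hmin : ∀ w' ∈ W0, dist x w + dist (io D.P w) z ≤ dist x w' + dist (io D.P w') z := by
      intro w' hw'
      have hw1 : (bt c.flip (io D.P w') : D.X) = bt c w' := bt_flip c hw'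
      have h1 : dist (bt c x : D.X) (bt c.flip z) ≤
          dist (bt c x) (bt c w') + dist (bt c w') (bt c.flip z) := dist_triangle _ _ _
      rw [a2, dist_bt, ← hw1, dist_bt] at h1
      rw [a1]
      exact h1
    obtain ⟨m0, m2⟩ := match_tan D.P hw hxw.symm hne hmin
    have m1 := match_one D.P hw hxw.symm hne hmin
    rw [a1] at m0 m1 m2
    refine ⟨z, hz'.symm, a1, ?_, ?_, ?_, ?_⟩
    · rw [m0]
      field_simp
    · rw [m2]
      field_simp
    · rw [m1]
      field_simp
    · exact (fsu_sign (io_mem D.P w) q z).mpr hz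
  rintro r hr r' hr'
  apply Bd.ext'
  intro t ht
  rcases le_or_gt t (dist (oo D) (bt c w)) with h1 | h1
  · exact same_before hr.1 hr'.1 ht h1
  · obtain ⟨z, hz, a1, a2, a3, a4, a5⟩ := key r hr t h1
    obtain ⟨z', hz', b1, b2, b3, b4, b5⟩ := key r' hr' t h1
    have e0 : RR D.P (lg (io D.P w) z) = RR D.P (lg (io D.P w) z') := by
      ext i
      fin_cases i
      · show RR D.P (lg (io D.P w) z) 0 = RR D.P (lg (io D.P w) z') 0
        rw [a2, b2]
      · show RR D.P (lg (io D.P w) z) 1 = RR D.P (lg (io D.P w) z') 1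
        rw [RR_one, RR_one]
        exact fsu_abs hq a5 b5 (by rw [a4, b4])
      · show RR D.P (lg (io D.P w) z) 2 = RR D.P (lg (io D.P w) z') 2
        rw [a3, b3]
    have e1 : lg (io D.P w) z = lg (io D.P w) z' := by
      rw [← RR_RR D.P (lg (io D.P w) z), e0, RR_RR]
    rw [hz, hz', lg_inj e1]

private theorem fsu_ratio {m z z' : Blk} {a a' : ℝ} (h0 : 0 ≤ a) (h1 : a ≤ a') (h2 : 0 < a')
    (hz : dist m z = a) (hz' : dist m z' = a') (hzz : dist z z' = a' - a) :
    lg m z = (a / a') • lg m z' := by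
  have h3 := between_eq (m := m) (b := z') (z := z) (t := a / a') (div_nonneg h0 h2.le)
    ((div_le_one h2).mpr h1) (by rw [hz, hz']; field_simp) (by rw [hzz, hz']; field_simp)
  conv_lhs => rw [h3]
  rw [lg_ex]

theorem EE_wall {c : D.G.Ch} {s : ℝ} (hs : s = 1 ∨ s = -1) {w x : Blk} (hw : w ∈ W0)
    (hx : 0 < s * x.h.y) (h : dist (bt c w) (oo D) = dist (bt c x) (oo D) + dist w x) :
    EE (bt c w) ⊆ SS c (-s) (bt c w) ∪ SS c.flip 1 (bt c w) ∪ SS c.flip (-1) (bt c w) := by
  rintro r ⟨hr, c', hc'⟩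
  have hxw : x ≠ w := fsu_ne hw hx
  have hyf : (bt c.flip (io D.P w) : D.X) = bt c w := bt_flip c hw
  have hcase : (∀ t : ℝ, dist (oo D) (bt c w) ≤ t → ev r t ∈ range (bt c : Blk → D.X)) ∨
      (∀ t : ℝ, dist (oo D) (bt c w) ≤ t → ev r t ∈ range (bt c.flip : Blk → D.X)) := by
    obtain ⟨b', hb'⟩ := hc' _ le_rfl
    rw [hr] at hb'
    have h1 : dist (bt c w : D.X) (bt c' b') < D.G.del := by
      rw [hb', dist_self]
      exact D.G.del_pos
    rcases local_wall (D := D.G) hw h1 with ⟨k, hk⟩ | ⟨k, hk⟩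
    · left
      rw [hk, range_mul] at hc'
      exact hc'
    · right
      rw [hk, range_mul] at hc'
      exact hc'
  rcases hcase with hc | hc
  · left
    left
    refine ⟨hr, fun t ht => ?_⟩
    obtain ⟨z, hz⟩ := hc t ht
    obtain ⟨a1, a2⟩ := fsu_ray' h hr t ht
    rw [← hz, dist_bt] at a1 a2
    refine ⟨z, ?_, hz⟩
    show 0 ≤ -s * z.h.y
    rw [← fsu_sign hw]
    have h2 := between_lg (x := x) (m := w) (y := z) (by rw [a1, a2])
    have h3 := congrArg (fun v : E3 => v 1) h2
    have h4 : dist w z * lg w x 1 + dist w x * lg w z 1 = 0 := by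
      simpa using h3
    rw [dist_comm w x] at h4
    have h5 : 0 < dist x w := dist_pos.mpr hxw
    have h6 : 0 ≤ s * lg w x 1 := (fsu_sign hw s x).mpr hx.le
    have h7 : 0 ≤ dist x w * (-s * lg w z 1) := by
      have h8 : dist x w * (-s * lg w z 1) = dist w z * (s * lg w x 1) := by
        linear_combination -s * h4
      rw [h8]
      exact mul_nonneg dist_nonneg h6
    exact (mul_nonneg_iff_of_pos_left h5).mp h7
  · obtain ⟨F, hF⟩ : ∃ F, F = dist (oo D) (bt c w) := ⟨_, rfl⟩
    have hF0 : 0 ≤ F := by rw [hF]; exact dist_nonneg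
    have hray : ∀ t : ℝ, F ≤ t → ∀ z : Blk, ev r t = bt c.flip z → dist (io D.P w) z = t - F := by
      intro t ht z hz
      have h1 := (fsu_ray' h hr t (by rw [← hF]; exact ht)).1
      rw [hz, ← hyf, dist_bt, hyf, ← hF] at h1
      exact h1
    obtain ⟨z1, hz1⟩ := hc (F + 1) (by rw [← hF]; linarith)
    have d1 := hray (F + 1) (by linarith) z1 hz1.symm
    rw [add_sub_cancel_left] at d1
    obtain ⟨q, hq, hq1⟩ : ∃ q : ℝ, (q = 1 ∨ q = -1) ∧ 0 ≤ q * z1.h.y := by
      rcases le_total 0 z1.h.y with h0 | h0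
      · exact ⟨1, Or.inl rfl, by linarith⟩
      · exact ⟨-1, Or.inr rfl, by linarith⟩
    have hm := io_mem D.P w
    have hq2 := (fsu_sign hm q z1).mpr hq1
    have hmem : r ∈ SS c.flip q (bt c w) := by
      refine ⟨hr, fun t ht => ?_⟩
      obtain ⟨z, hz⟩ := hc t ht
      refine ⟨z, ?_, hz⟩
      show 0 ≤ q * z.h.y
      rw [← hF] at ht
      have d2 := hray t ht z hz.symm
      rw [← fsu_sign hm]
      have d3 : dist z z1 = |t - (F + 1)| := by
        have h1 := dist_ev r (hF0.trans ht) (by linarith : (0:ℝ) ≤ F + 1)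
        rwa [← hz, ← hz1, dist_bt] at h1
      rcases le_total t (F + 1) with h1 | h1
      · have h2 := fsu_ratio (m := io D.P w) (z := z) (z' := z1) (a := t - F) (a' := 1)
          (by linarith) (by linarith) one_pos d2 d1 (by
            rw [d3, abs_of_nonpos (by linarith)]
            ring)
        rw [h2]
        show 0 ≤ q * ((t - F) / 1 * lg (io D.P w) z1 1)
        have h3 : q * ((t - F) / 1 * lg (io D.P w) z1 1) = (t - F) * (q * lg (io D.P w) z1 1) := by
          ring
        rw [h3]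
        exact mul_nonneg (by linarith) hq2
      · have h2 := fsu_ratio (m := io D.P w) (z := z1) (z' := z) (a := 1) (a' := t - F)
          zero_le_one (by linarith) (by linarith) d1 d2 (by
            rw [dist_comm, d3, abs_of_nonneg (by linarith)]
            ring)
        rw [h2] at hq2
        have h3 : 0 ≤ q * (1 / (t - F) * lg (io D.P w) z 1) := hq2
        have h4 : q * (1 / (t - F) * lg (io D.P w) z 1) = (1 / (t - F)) * (q * lg (io D.P w) z 1) := by
          ring
        rw [h4] at h3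
        exact (mul_nonneg_iff_of_pos_left (one_div_pos.mpr (by linarith))).mp h3
    rcases hq with rfl | rfl
    · exact Or.inl (Or.inr hmem)
    · exact Or.inr hmem

end Pool.CBD
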