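import Pool.Agent.CBD.FSG
import Pool.Agent.CBD.FSE
import Pool.Agent.CBD.FSU
import Pool.Agent.CBD.FSL
import Pool.Agent.CBD.EXC
import Pool.Agent.CBD.FEG

/-!
# CBD module FKK: the connected sets K(y)

PROOF.  y = bt c b.  Case 1: b on no wall (∀ k, ∀ w ∈ W0, act k w ≠ b): A = EE y, subsingleton (`EE_off`)
hence preconnected; for r in it ev r (dist oo y) = y, distance 0.
Case 2: act k w = b: replace c by c.mul k, b by w in W0.  If Beh c base replace (c, w) by (c.flip, io w)
(`beh_flip_left`, bt_flip); so ¬ Beh c base.  Take s from `arrive` and th from `sl_wall` c w, and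
R = rayB c w th, a ray from y; sg l = ev R l = bt c (ex w (l • th)), in the wall (`ex_mem_W0`).
zi = bc (y) (oo) R: asymptotic to R.  A = ⋃_i ((⋃ l ∈ Ici 0, SS_i (sg l)) ∪ {zi}) over the three pairs
(c, -s), (c.flip, 1), (c.flip, -1).  Each is preconnected by `SS_union` (existence: `SS_ne_same`,
`SS_ne_flip`, with x from `arrive` for the wall point ex w (l • th); uniqueness `SS_same_sub`,
`SS_flip_sub`; Hf: `wall_sub_Hf`, with bt c w' = bt c.flip (io w')); all contain zi, so A is preconnected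
(`IsPreconnected.union`).  hf: dist oo (sg l) ≥ dist oo y + l - log 6; hz: by `asy_bound`
dist (ev zi l) (sg l) ≤ 2 dist oo y, and |dist oo (sg l) - l| ≤ dist oo y + log 6.
EE y ⊂ A by `EE_wall` at l = 0 (sg 0 = y).
Closeness: r in SS_i (sg l): ev r (dist oo (sg l)) = sg l: `close_pt` with D = log 6; zi: `close_lim`.
-/

namespace Pool.CBD

open Real Set

variable {K N : Type} [Group K] [MulAction K N] {D : CDat K N}

theorem exists_KK {y : D.X} (hy : y ≠ oo D) : ∃ A : Set (Bd D.X (oo D)), EE y ⊆ A ∧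
    IsPreconnected A ∧ ∀ r ∈ A, dist (ev r (dist (oo D) y)) y ^ 2 ≤
      2 * Real.log 6 * (dist (oo D) y + Real.log 6) := by
  classical
  have hlog : 0 ≤ Real.log 6 := Real.log_nonneg (by norm_num)
  obtain ⟨c0, b, rfl⟩ := exists_bt y
  by_cases hb : ∀ k, ∀ w ∈ W0, D.act k w ≠ b
  · refine ⟨EE (bt c0 b), Subset.rfl, (EE_off hb hy).isPreconnected, ?_⟩
    intro r hr
    rw [hr.1, dist_self]
    have h1 : 0 ≤ dist (oo D) (bt c0 b) := dist_nonneg
    have h2 : 0 ≤ 2 * Real.log 6 * (dist (oo D) (bt c0 b) + Real.log 6) :=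
      mul_nonneg (mul_nonneg zero_le_two hlog) (add_nonneg h1 hlog)
    simpa using h2
  · push Not at hb
    obtain ⟨k, w0, hw0, rfl⟩ := hb
    obtain ⟨c, w, hw, hc, hyc⟩ : ∃ (c : D.G.Ch) (w : Blk), w ∈ W0 ∧
        ¬ Beh c (Ch.base D.G.toDat) ∧ (bt c w : D.X) = bt c0 (D.act k w0) := by
      have h1 : (bt (c0.mul k) w0 : D.X) = bt c0 (D.act k w0) := bt_mul c0 k w0
      by_cases hB : Beh (c0.mul k) (Ch.base D.G.toDat)
      · refine ⟨(c0.mul k).flip, io D.P w0, io_mem _ _, ?_, ?_⟩
        · rw [beh_flip_left]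
          exact fun h => h hB
        · rw [← h1]
          exact bt_flip (c0.mul k) hw0
      · exact ⟨c0.mul k, w0, hw0, hB, h1⟩
    rw [← hyc] at hy ⊢
    obtain ⟨s, hs, harr⟩ := arrive hc
    obtain ⟨th, hth, hth1, hsl⟩ := sl_wall c hw
    have hwl : ∀ l : ℝ, ex w (l • th) ∈ W0 := fun l => ex_mem_W0 hw (by
      show l * th 1 = 0
      rw [hth1, mul_zero])
    have hR : ∀ l : ℝ, 0 ≤ l → ev (rayB c w th hth) l = bt c (ex w (l • th)) :=
      fun l hl => ev_rayB c w th hth hl
    obtain ⟨zi, hzi⟩ : ∃ zi : Bd D.X (oo D), Asy zi (rayB c w th hth) :=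
      ⟨_, bc_asy (cat0_X D) (bt c w) (oo D) (rayB c w th hth)⟩
    have hcont : ContinuousOn (fun l : ℝ => (bt c (ex w (l • th)) : D.X)) (Ici 0) := by
      have hiso : Isometry (fun l : ℝ => (bt c (ex w (l • th)) : D.X)) :=
        Isometry.of_dist_eq (fun a b => by
          rw [dist_bt, dist_ex_smul, hth, mul_one, Real.dist_eq])
      exact hiso.continuous.continuousOn
    have hdist : ∀ l : ℝ, 0 ≤ l → dist (bt c w : D.X) (bt c (ex w (l • th))) = l := by
      intro l hl
      rw [← hR l hl, dist_o_ev _ hl]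
    have hf : ∀ l : ℝ, 0 ≤ l → l - (3 * dist (oo D) (bt c w) + Real.log 6) ≤
        dist (oo D) (bt c (ex w (l • th))) := by
      intro l hl
      have h1 := hsl l hl
      have h2 : 0 ≤ dist (oo D) (bt c w) := dist_nonneg
      linarith
    have hz : ∀ l : ℝ, 0 ≤ l → dist (bt c (ex w (l • th)) : D.X)
        (ev zi (dist (oo D) (bt c (ex w (l • th))))) ≤
        3 * dist (oo D) (bt c w) + Real.log 6 := by
      intro l hl
      have h1 := hsl l hl
      have h2 : 0 ≤ dist (oo D) (bt c w) := dist_nonneg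
      have h3 : dist (oo D) (bt c (ex w (l • th))) ≤ dist (oo D) (bt c w) + l := by
        have h4 := dist_triangle (oo D) (bt c w : D.X) (bt c (ex w (l • th)))
        rwa [hdist l hl] at h4
      have h5 : dist (ev zi l) (bt c (ex w (l • th))) ≤ 2 * dist (oo D) (bt c w) := by
        have h6 := asy_bound (cat0_X D) hzi hl
        rwa [hR l hl] at h6
      have h7 : dist (ev zi l) (ev zi (dist (oo D) (bt c (ex w (l • th))))) ≤
          dist (oo D) (bt c w) + Real.log 6 := by
        rw [dist_ev zi hl dist_nonneg, abs_le]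
        constructor <;> linarith
      have h8 := dist_triangle (bt c (ex w (l • th)) : D.X) (ev zi l)
        (ev zi (dist (oo D) (bt c (ex w (l • th)))))
      rw [dist_comm (bt c (ex w (l • th)) : D.X) (ev zi l)] at h8
      linarith
    have hH : ∀ q l : ℝ, (bt c (ex w (l • th)) : D.X) ∈ Hf c.flip q := by
      intro q l
      have h1 : (bt c.flip (io D.P (ex w (l • th))) : D.X) = bt c (ex w (l • th)) :=
        bt_flip c (hwl l)
      rw [← h1]
      exact wall_sub_Hf c.flip q (io_mem _ _)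
    have P1 := SS_union (c := c) (q := -s) hcont (fun l _ => wall_sub_Hf c (-s) (hwl l))
      (fun l _ => by
        obtain ⟨x, hx, h⟩ := harr _ (hwl l)
        exact SS_ne_same hs (hwl l) hx h)
      (fun l _ => by
        obtain ⟨x, hx, h⟩ := harr _ (hwl l)
        exact SS_same_sub hs (hwl l) hx h) hf zi hz
    have P2 := SS_union (c := c.flip) (q := 1) hcont (fun l _ => hH 1 l)
      (fun l _ => SS_ne_flip hc (Or.inl rfl) (hwl l))
      (fun l _ => by
        obtain ⟨x, hx, h⟩ := harr _ (hwl l)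
        exact SS_flip_sub hs (hwl l) hx h (Or.inl rfl)) hf zi hz
    have P3 := SS_union (c := c.flip) (q := -1) hcont (fun l _ => hH (-1) l)
      (fun l _ => SS_ne_flip hc (Or.inr rfl) (hwl l))
      (fun l _ => by
        obtain ⟨x, hx, h⟩ := harr _ (hwl l)
        exact SS_flip_sub hs (hwl l) hx h (Or.inr rfl)) hf zi hz
    have e0 : ex w ((0 : ℝ) • th) = w := by rw [zero_smul, ex_zero]
    have hclose : ∀ l : ℝ, 0 ≤ l → dist (oo D) (bt c w) + l - Real.log 6 ≤
        dist (oo D) (ev (rayB c w th hth) l) := by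
      intro l hl
      rw [hR l hl]
      exact hsl l hl
    have hpt : ∀ (c' : D.G.Ch) (q : ℝ) (r : Bd D.X (oo D)),
        r ∈ (⋃ l ∈ Ici (0 : ℝ), SS c' q (bt c (ex w (l • th)) : D.X)) ∪ {zi} →
        dist (ev r (dist (oo D) (bt c w))) (bt c w) ^ 2 ≤
          2 * Real.log 6 * (dist (oo D) (bt c w) + Real.log 6) := by
      rintro c' q r (hr | hr)
      · obtain ⟨l, hl, hr'⟩ := mem_iUnion₂.mp hr
        apply close_pt (cat0_X D) (rayB c w th hth) hlog hclose hl r
        rw [hR l hl]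
        exact hr'.1
      · rw [mem_singleton_iff.mp hr]
        exact close_lim (cat0_X D) (rayB c w th hth) hlog hclose zi hzi
    refine ⟨((⋃ l ∈ Ici (0 : ℝ), SS c (-s) (bt c (ex w (l • th)) : D.X)) ∪ {zi}) ∪
      ((⋃ l ∈ Ici (0 : ℝ), SS c.flip 1 (bt c (ex w (l • th)) : D.X)) ∪ {zi}) ∪
      ((⋃ l ∈ Ici (0 : ℝ), SS c.flip (-1) (bt c (ex w (l • th)) : D.X)) ∪ {zi}), ?_, ?_, ?_⟩
    · obtain ⟨x, hx, h⟩ := harr w hw
      intro r hr
      rcases EE_wall hs hw hx h hr with (h1 | h1) | h1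
      · left; left; left
        exact mem_iUnion₂.mpr ⟨0, mem_Ici.mpr le_rfl, by rw [e0]; exact h1⟩
      · left; right; left
        exact mem_iUnion₂.mpr ⟨0, mem_Ici.mpr le_rfl, by rw [e0]; exact h1⟩
      · right; left
        exact mem_iUnion₂.mpr ⟨0, mem_Ici.mpr le_rfl, by rw [e0]; exact h1⟩
    · exact IsPreconnected.union zi (Or.inl (Or.inr rfl)) (Or.inr rfl)
        (IsPreconnected.union zi (Or.inr rfl) (Or.inr rfl) P1 P2) P3
    · rintro r ((hr | hr) | hr)
      · exact hpt _ _ r hr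
      · exact hpt _ _ r hr
      · exact hpt _ _ r hr

end Pool.CBD
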