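import Pool.Agent.CBD.FKK
import Pool.Agent.CBD.ELC

/-!
# CBD module FLC: the boundary is locally connected

PROOF.  `lcs_of` with D = log 6, E = EE, K y = the set of `exists_KK` (choice; for y = oo anything),
`EE_ne`, `EE_graph`.  For a general base point transport by the homeomorphism `bc`
(`Homeomorph.locallyConnectedSpace` or `IsOpenEmbedding`/`Topology.IsInducing` lemmas; search Mathlib).
-/

namespace Pool.CBD

open Real Set

variable {K N : Type} [Group K] [MulAction K N] {D : CDat K N}

theorem lcs_oo : LocallyConnectedSpace (Bd D.X (oo D)) := by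
  classical
  have hex : ∀ y : D.X, ∃ A : Set (Bd D.X (oo D)), y ≠ oo D → (EE y ⊆ A ∧
      IsPreconnected A ∧ ∀ r ∈ A, dist (ev r (dist (oo D) y)) y ^ 2 ≤
        2 * Real.log 6 * (dist (oo D) y + Real.log 6)) := by
    intro y
    by_cases hy : y = oo D
    · exact ⟨∅, fun h => absurd hy h⟩
    · obtain ⟨A, hA⟩ := exists_KK hy
      exact ⟨A, fun _ => hA⟩
  choose A hA using hex
  exact lcs_of (cat0_X D) (Real.log 6) (Real.log_nonneg (by norm_num)) EE A
    (fun y hy => (hA y hy).1) (fun y hy => EE_ne hy) (fun y hy => (hA y hy).2.1)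
    (fun y0 hy0 r0 hr0 => EE_graph hy0 hr0) (fun y hy => (hA y hy).2.2)

theorem lcs_all (o : D.X) : LocallyConnectedSpace (Bd D.X o) := by
  have := lcs_oo (D := D)
  exact (bc (cat0_X D) o (oo D)).locallyConnectedSpace

end Pool.CBD
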