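import Pool.Agent.CBD.SLE
import Pool.Agent.CBD.WAL
import Pool.Agent.CBD.HNG

/-!
# CBD module FSA: going away from a point along a wall

PROOF.  w = wp s v (`exists_wp`), rho = dist x.h w.h, eta = w.v - x.v, delta = dist x w > 0
(delta^2 = rho^2 + eta^2), co = rho/delta, si = eta/delta.  e from `sl_pt` x.h s,
theta = !₂[e co, 0, si].  ex w (l theta) = wp (s + l e co) (v + l si) (`ex_wp`; for l co ≥ 0 the point
wp (s + e (l co)) ..).  dist x (wp ..) ≥ co * dist x.h (..) + si * (v + l si - x.v) (Cauchy–Schwarz: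
√(A^2 + B^2) ≥ co A + si B) ≥ co (rho + l co - log 6) + si (eta + l si) = delta + l - co log 6 ≥
delta + l - log 6 (0 ≤ co ≤ 1, log 6 > 0).
-/

namespace Pool.CBD

open Real Set

/-- Cauchy-Schwarz in the plane. -/
private theorem fsa_cs {A B D co si : ℝ} (h1 : co ^ 2 + si ^ 2 = 1) (hD : 0 ≤ D)
    (h : D ^ 2 = A ^ 2 + B ^ 2) : co * A + si * B ≤ D := by
  have h2 : (co * A + si * B) ^ 2 ≤ D ^ 2 := by
    rw [h]
    nlinarith [sq_nonneg (co * B - si * A)]
  exact (abs_le_of_sq_le_sq' h2 hD).2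

theorem sl_point {x w : Blk} (hw : w ∈ W0) (hx : x ∉ W0) :
    ∃ th : E3, ‖th‖ = 1 ∧ th 1 = 0 ∧ ∀ l : ℝ, 0 ≤ l →
      dist x w + l - Real.log 6 ≤ dist x (ex w (l • th)) := by
  obtain ⟨s, v, rfl⟩ := exists_wp hw
  have hne : x ≠ wp s v := fun h => hx (h ▸ hw)
  have hd : 0 < dist x (wp s v) := dist_pos.mpr hne
  have hsq := Blk.dist_sq x (wp s v)
  obtain ⟨delta, hdelta⟩ : ∃ delta, delta = dist x (wp s v) := ⟨_, rfl⟩
  obtain ⟨rho, hrho⟩ : ∃ rho, rho = dist x.h (wp s v).h := ⟨_, rfl⟩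
  have hrho0 : 0 ≤ rho := by rw [hrho]; exact dist_nonneg
  rw [← hdelta] at hd hsq
  rw [← hrho] at hsq
  obtain ⟨co, hco⟩ : ∃ co, co = rho / delta := ⟨_, rfl⟩
  obtain ⟨si, hsi⟩ : ∃ si, si = (v - x.v) / delta := ⟨_, rfl⟩
  have hco1 : rho = co * delta := by rw [hco]; field_simp
  have hsi1 : v - x.v = si * delta := by rw [hsi]; field_simp
  have hco0 : 0 ≤ co := by rw [hco]; positivity
  have hcs : co ^ 2 + si ^ 2 = 1 := by
    have h1 : (wp s v).v = v := rfl
    rw [h1] at hsq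
    have h2 : (co ^ 2 + si ^ 2) * delta ^ 2 = 1 * delta ^ 2 := by
      rw [one_mul]
      nth_rewrite 2 [hsq]
      rw [hco1]
      have h3 : x.v - v = -(si * delta) := by rw [← hsi1]; ring
      rw [h3]
      ring
    exact mul_right_cancel₀ (pow_ne_zero 2 hd.ne') h2
  have hco2 : co ≤ 1 := by nlinarith [sq_nonneg si]
  obtain ⟨e, he, hl⟩ := sl_pt x.h s
  have he2 : e ^ 2 = 1 := by rcases he with rfl | rfl <;> norm_num
  refine ⟨!₂[e * co, 0, si], ?_, rfl, fun l hl0 => ?_⟩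
  · have h1 : ‖(!₂[e * co, 0, si] : E3)‖ ^ 2 = 1 := by
      rw [norm_sq3]
      change (e * co) ^ 2 + (0 : ℝ) ^ 2 + si ^ 2 = 1
      rw [mul_pow, he2]
      linarith
    have h2 : 0 ≤ ‖(!₂[e * co, 0, si] : E3)‖ := norm_nonneg _
    nlinarith
  · have hex : ex (wp s v) (l • (!₂[e * co, 0, si] : E3)) = wp (s + e * (l * co)) (v + l * si) := by
      have h1 : l • (!₂[e * co, 0, si] : E3) = !₂[e * (l * co), 0, l * si] := by
        ext i
        fin_cases i
        · simp; ring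
        · simp
        · simp
      rw [h1, ex_wp]
    rw [hex]
    have hA := hl (l * co) (by positivity)
    have hlog : 0 ≤ Real.log 6 := Real.log_nonneg (by norm_num)
    have hD := Blk.dist_sq x (wp (s + e * (l * co)) (v + l * si))
    have h3 : dist x (wp (s + e * (l * co)) (v + l * si)) ^ 2 =
        dist x.h (Hyp.of (Real.sinh (s + e * (l * co))) 0) ^ 2 + (v + l * si - x.v) ^ 2 := by
      rw [hD]
      change _ + (x.v - (v + l * si)) ^ 2 = _
      congr 1
      ring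
    have h4 := fsa_cs hcs dist_nonneg h3
    have h5 : dist x.h (Hyp.of (Real.sinh s) 0) = rho := hrho.symm
    rw [h5] at hA
    have h6 : co * (rho + l * co - Real.log 6) ≤
        co * dist x.h (Hyp.of (Real.sinh (s + e * (l * co))) 0) :=
      mul_le_mul_of_nonneg_left hA hco0
    have h7 : v + l * si - x.v = si * delta + l * si := by linarith
    rw [h7] at h4
    have h8 : co * (rho + l * co - Real.log 6) + si * (si * delta + l * si) =
        (co ^ 2 + si ^ 2) * (delta + l) - co * Real.log 6 := by rw [hco1]; ring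
    have h9 : co * Real.log 6 ≤ 1 * Real.log 6 := mul_le_mul_of_nonneg_right hco2 hlog
    rw [hcs] at h8
    rw [← hdelta]
    linarith

end Pool.CBD
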