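import Pool.Agent.CBD.FNB
import Pool.Agent.CBD.ETP
import Pool.Agent.CBD.ECP
import Pool.Agent.CBD.EPA
import Pool.Agent.CBD.EBC

/-!
# CBD module FSG: the union of the rays of a half block along a wall ray is connected

sg : ℝ → X is continuous on [0, ∞), with values in the wall of c, |sg| → ∞, and zi is asymptotic to it.
`hsub`, `hne`: for every l ≥ 0 the set SS c' q (sg l) is a singleton; sg l ∈ Hf c' q.
PROOF.  Let E l = K l = SS c' q (sg l), I = [0, ∞), `union_preconnected` (Bd is compact: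
`compactSpace_Bd`).  Closed graph: let r0 ∉ E l0, l0 ≥ 0, f l = dist oo (sg l).  If ev r0 (f l0) ≠ sg l0,
this is an open condition (continuity of ev2, sg, f, relative to I).  Otherwise there is t ≥ f l0 with
ev r0 t ∉ Hf c' q, and t ≠ f l0 since sg l0 ∈ Hf c' q; so t > f l0 and for (l, r) near (l0, r0),
f l < t and ev r t ∉ Hf c' q (closed: `Hf_closed`), so r ∉ E l.
The set is the closure-type union: zi is in the closure of the union T: take z_l in E l; for t fixed and l
large (f l ≥ t): dist (ev z_l t) (ev zi t) ≤ (t/f l) dist (sg l) (ev zi (f l)) (`contr`, ev z_l (f l) = sg l)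
and dist (sg l) (ev zi (f l)) ≤ C (hypothesis hz), f l → ∞.  So z_l → zi (`hasBasis_nhds`).
T ⊂ T ∪ {zi} ⊂ closure T: `IsPreconnected.subset_closure`.
-/

namespace Pool.CBD

open Real Set

variable {K N : Type} [Group K] [MulAction K N] {D : CDat K N}

private theorem fsg_graph {c : D.G.Ch} {q : ℝ} {sg : ℝ → D.X} (hc : ContinuousOn sg (Ici 0))
    (hH : ∀ l : ℝ, 0 ≤ l → sg l ∈ Hf c q) {l0 : ℝ} (hl0 : 0 ≤ l0) {r0 : Bd D.X (oo D)}
    (hr0 : r0 ∉ SS c q (sg l0)) :
    ∃ U ∈ nhds l0, ∃ V ∈ nhds r0, ∀ l ∈ U ∩ Ici (0 : ℝ), ∀ r ∈ V, r ∉ SS c q (sg l) := by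
  have hcl : ContinuousWithinAt sg (Ici 0) l0 := hc l0 hl0
  have hfc : ContinuousWithinAt (fun l => dist (oo D) (sg l)) (Ici 0) l0 :=
    continuousWithinAt_const.dist hcl
  by_cases hcase : ev r0 (dist (oo D) (sg l0)) = sg l0
  · have hex : ∃ t, dist (oo D) (sg l0) ≤ t ∧ ev r0 t ∉ Hf c q := by
      by_contra hcon
      push Not at hcon
      exact hr0 ⟨hcase, hcon⟩
    obtain ⟨t, ht, htn⟩ := hex
    have hlt : dist (oo D) (sg l0) < t := by
      rcases ht.eq_or_lt with h | h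
      · exfalso
        apply htn
        rw [← h, hcase]
        exact hH l0 hl0
      · exact h
    have h1 : ∀ᶠ l in nhdsWithin l0 (Ici 0), dist (oo D) (sg l) < t :=
      hfc.eventually (gt_mem_nhds hlt)
    rw [eventually_nhdsWithin_iff] at h1
    have h2 : Continuous (fun r : Bd D.X (oo D) => ev r t) :=
      continuous_ev2.comp (Continuous.prodMk continuous_id continuous_const)
    have h3 : ∀ᶠ r in nhds r0, ev r t ∉ Hf c q :=
      h2.continuousAt.eventually ((Hf_closed c q).isOpen_compl.mem_nhds htn)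
    refine ⟨_, h1, _, h3, ?_⟩
    rintro l ⟨hlU, hl⟩ r hr hmem
    exact hr (hmem.2 t (hlU hl).le)
  · have h1 : Filter.Tendsto (fun p : ℝ × Bd D.X (oo D) => dist (ev p.2 (dist (oo D) (sg p.1))) (sg p.1))
        ((nhdsWithin l0 (Ici 0)) ×ˢ (nhds r0))
        (nhds (dist (ev r0 (dist (oo D) (sg l0))) (sg l0))) := by
      apply Filter.Tendsto.dist
      · have h2 : Filter.Tendsto (fun p : ℝ × Bd D.X (oo D) => (p.2, dist (oo D) (sg p.1)))
            ((nhdsWithin l0 (Ici 0)) ×ˢ (nhds r0)) (nhds (r0, dist (oo D) (sg l0))) := by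
          rw [nhds_prod_eq]
          apply Filter.Tendsto.prodMk Filter.tendsto_snd
          exact hfc.tendsto.comp Filter.tendsto_fst
        exact (continuous_ev2.tendsto (r0, dist (oo D) (sg l0))).comp h2
      · exact hcl.tendsto.comp Filter.tendsto_fst
    have h3 : 0 < dist (ev r0 (dist (oo D) (sg l0))) (sg l0) := dist_pos.mpr hcase
    have h4 := h1.eventually (lt_mem_nhds h3)
    rw [Filter.eventually_prod_iff] at h4
    obtain ⟨pa, ha, pb, hb, hab⟩ := h4
    rw [eventually_nhdsWithin_iff] at ha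
    refine ⟨_, ha, _, hb, ?_⟩
    rintro l ⟨hlU, hl⟩ r hr hmem
    have h5 := hab (hlU hl) hr
    rw [hmem.1, dist_self] at h5
    exact lt_irrefl _ h5

theorem SS_union {c : D.G.Ch} {q : ℝ} {sg : ℝ → D.X} (hc : ContinuousOn sg (Ici 0))
    (hH : ∀ l : ℝ, 0 ≤ l → sg l ∈ Hf c q)
    (hne : ∀ l : ℝ, 0 ≤ l → (SS c q (sg l)).Nonempty)
    (hsub : ∀ l : ℝ, 0 ≤ l → (SS c q (sg l)).Subsingleton)
    {C : ℝ} (hf : ∀ l : ℝ, 0 ≤ l → l - C ≤ dist (oo D) (sg l))
    (zi : Bd D.X (oo D))
    (hz : ∀ l : ℝ, 0 ≤ l → dist (sg l) (ev zi (dist (oo D) (sg l))) ≤ C) :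
    IsPreconnected ((⋃ l ∈ Ici (0 : ℝ), SS c q (sg l)) ∪ {zi}) := by
  have hX : Cat0 D.X := cat0_X D
  have hcomp : CompactSpace (Bd D.X (oo D)) := compactSpace_Bd hX (oo D)
  have hT : IsPreconnected (⋃ l ∈ Ici (0 : ℝ), SS c q (sg l)) := by
    apply union_preconnected (fun l => SS c q (sg l)) (fun l => SS c q (sg l)) (Ici (0 : ℝ))
      isPreconnected_Ici (fun l _ => le_rfl) (fun l hl => hne l hl)
      (fun l hl => (hsub l hl).isPreconnected)
    intro l0 hl0 r0 hr0
    exact fsg_graph hc hH hl0 hr0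
  have hC : 0 ≤ C := dist_nonneg.trans (hz 0 le_rfl)
  have hzi : zi ∈ closure (⋃ l ∈ Ici (0 : ℝ), SS c q (sg l)) := by
    rw [mem_closure_iff_nhds_basis (hasBasis_nhds hX zi)]
    rintro ⟨t, e⟩ ⟨ht, he⟩
    obtain ⟨l, hl⟩ : ∃ l : ℝ, l = C + t + t * C / e + 1 := ⟨_, rfl⟩
    have hte : 0 ≤ t * C / e := by positivity
    have hl0 : 0 ≤ l := by rw [hl]; positivity
    obtain ⟨z, hzS⟩ := hne l hl0
    refine ⟨z, mem_biUnion (mem_Ici.2 hl0) hzS, ?_⟩
    change dist (ev z t) (ev zi t) < e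
    have h1 := hf l hl0
    have h2 : t ≤ dist (oo D) (sg l) := by linarith
    have h3 : 0 < dist (oo D) (sg l) := by linarith
    have h4 := contr hX z zi ht h2 h3
    rw [hzS.1] at h4
    have h5 := hz l hl0
    have h6 : t / dist (oo D) (sg l) * dist (sg l) (ev zi (dist (oo D) (sg l))) ≤
        t / dist (oo D) (sg l) * C := mul_le_mul_of_nonneg_left h5 (by positivity)
    have h7 : t / dist (oo D) (sg l) * C < e := by
      rw [div_mul_eq_mul_div, div_lt_iff₀ h3]
      have h8 : t * C / e < dist (oo D) (sg l) := by linarith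
      rw [div_lt_iff₀ he] at h8
      linarith
    linarith
  refine hT.subset_closure subset_union_left ?_
  rintro x (hx | hx)
  · exact subset_closure hx
  · rw [mem_singleton_iff.1 hx]
    exact hzi

end Pool.CBD
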