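import Pool.Agent.CBD.FNB

/-!
# CBD module FXS: arrival at a wall

c is a chart with the base block on its side (¬ Beh c base).  There is a sign s such that for every w in W0
the geodesic from bt c w to oo starts in the block of c, on the side s of the base wall.

PROOF.  By `tri` for c and base: (i) base = c.mul k: oo = bt c x with x = act k ob, for all w take this x:
dist (bt c w) oo = dist w x, and x.h.y ≠ 0 since otherwise x in W0 and act k⁻¹ x = ob contradicts ob_off.
s = sign of x.h.y.  (ii) Beh (c.mul k) base: then k a0 ≠ a0 (`beh_mul_left` and ¬ Beh c base).  Let u be from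
`D.line k`.  For w in W0 `sep_min` with the chart c.mul k, d1 = c (¬ Beh (c.mul k) c: not_beh_mul, since
c = (c.mul k).mul k⁻¹) and d2 = base gives w' in W0 with dist (bt c w) oo = dist (bt c w) (bt (c.mul k) w') +
dist (bt (c.mul k) w') oo, and bt (c.mul k) w' = bt c x with x = act k w', lo u x.h = 0.  The sign of x.h.y is
the same for all such x by `lo_side`.
`arrive_hinge`: by `hinge_unique` P = (F/dist w x) • lg w x, and `lg_one_pos`, `lg_one_neg`.
-/

namespace Pool.CBD

open Real Set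

variable {K N : Type} [Group K] [MulAction K N] {D : CDat K N}

theorem arrive {c : D.G.Ch} (hc : ¬ Beh c (Ch.base D.G.toDat)) :
    ∃ s : ℝ, (s = 1 ∨ s = -1) ∧ ∀ w ∈ W0, ∃ x : Blk, 0 < s * x.h.y ∧
      dist (bt c w) (oo D) = dist (bt c x) (oo D) + dist w x := by
  have hsign : ∀ y : ℝ, y ≠ 0 → ∃ s : ℝ, (s = 1 ∨ s = -1) ∧ 0 < s * y := by
    intro y hy
    rcases lt_or_gt_of_ne hy with h | h
    · exact ⟨-1, Or.inr rfl, by linarith⟩
    · exact ⟨1, Or.inl rfl, by linarith⟩
  rcases tri c (Ch.base D.G.toDat) with ⟨k, hk⟩ | ⟨k, hk⟩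
  · have hoo : (oo D : D.X) = bt c (D.act k D.ob) := by
      unfold oo
      rw [hk]
      exact bt_mul c k D.ob
    have hy : (D.act k D.ob).h.y ≠ 0 := by
      intro h0
      have h1 : D.act k⁻¹ (D.act k D.ob) = D.ob := by
        rw [← D.act_mul, inv_mul_cancel, D.act_one]
      exact D.ob_off k⁻¹ _ (mem_W0.mpr h0) h1
    obtain ⟨s, hs, hpos⟩ := hsign _ hy
    refine ⟨s, hs, fun w _ => ⟨D.act k D.ob, hpos, ?_⟩⟩
    rw [hoo, dist_self, zero_add]
    exact dist_bt c w _
  · have hk0 : k • D.a0 ≠ D.a0 := by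
      intro h0
      exact hc ((beh_mul_left c _ h0).mp hk)
    obtain ⟨u, hu, h3, hl⟩ := D.line k hk0
    have hx0 : lo u (D.act k (wp 0 0)).h = 0 := (hl _).mp ⟨wp 0 0, wp_mem _ _, rfl⟩
    have hy0 : (D.act k (wp 0 0)).h.y ≠ 0 := by
      intro h0
      have h1 := lo_side hu h3 hx0 hx0
      rw [h0] at h1
      simp at h1
    obtain ⟨s, hs, hpos⟩ := hsign _ hy0
    refine ⟨s, hs, fun w _ => ?_⟩
    have hnb : ¬ Beh (c.mul k) c := by
      have h1 := not_beh_mul (c.mul k) k⁻¹
      rwa [Ch.mul_mul, mul_inv_cancel, Ch.mul_one] at h1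
    obtain ⟨w', hw', hd⟩ := sep_min (D := D.G) hnb hk w D.ob
    have hbt : (bt (c.mul k) w' : D.X) = bt c (D.act k w') := bt_mul c k w'
    have hxl : lo u (D.act k w').h = 0 := (hl _).mp ⟨w', hw', rfl⟩
    refine ⟨D.act k w', ?_, ?_⟩
    · have h1 := lo_side hu h3 hx0 hxl
      rcases hs with rfl | rfl
      · rw [one_mul] at hpos ⊢
        exact (pos_iff_pos_of_mul_pos h1).mp hpos
      · have h2 : (D.act k (wp 0 0)).h.y < 0 := by linarith
        have h3 : (D.act k w').h.y < 0 := (neg_iff_neg_of_mul_pos h1).mp h2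
        linarith
    · rw [hbt] at hd
      have h1 : dist (bt c w : D.X) (bt c (D.act k w')) = dist w (D.act k w') := dist_bt c _ _
      unfold oo
      rw [hd, h1]
      ring

theorem arrive_hinge {c : D.G.Ch} {s : ℝ} (hs : s = 1 ∨ s = -1) {w x : Blk} (hw : w ∈ W0)
    (hx : 0 < s * x.h.y) (h : dist (bt c w) (oo D) = dist (bt c x) (oo D) + dist w x) {P : E3}
    (hP : ‖P‖ = dist (bt c w) (oo D)) (hP' : ∀ b', ‖lg w b' - P‖ ≤ dist (bt c b') (oo D)) :
    P = (dist (bt c w) (oo D) / dist w x) • lg w x ∧ 0 < s * P 1 := by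
  have hwx : w ≠ x := by
    rintro rfl
    rw [mem_W0.mp hw, mul_zero] at hx
    exact lt_irrefl _ hx
  have hd : 0 < dist w x := dist_pos.mpr hwx
  have hF : 0 < dist (bt c w : D.X) (oo D) := by
    rw [h]
    exact add_pos_of_nonneg_of_pos dist_nonneg hd
  have h1 := hinge_unique hwx h hP hP'
  refine ⟨h1, ?_⟩
  rw [h1]
  have h2 : ((dist (bt c w : D.X) (oo D) / dist w x) • lg w x) 1 =
      (dist (bt c w : D.X) (oo D) / dist w x) * lg w x 1 := by
    simp
  rw [h2]
  have h3 : 0 < dist (bt c w : D.X) (oo D) / dist w x := div_pos hF hd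
  have h4 : 0 < s * lg w x 1 := by
    rcases hs with rfl | rfl
    · rw [one_mul] at hx ⊢
      exact (lg_one_pos hw).mpr hx
    · have h5 : x.h.y < 0 := by linarith
      have h6 := (lg_one_neg hw).mpr h5
      linarith
  have h7 : s * (dist (bt c w : D.X) (oo D) / dist w x * lg w x 1) =
      (dist (bt c w : D.X) (oo D) / dist w x) * (s * lg w x 1) := by ring
  rw [h7]
  exact mul_pos h3 h4

end Pool.CBD
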