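import Pool.Agent.CBD.EID
import Pool.Agent.CBD.ETP

/-!
# CBD module GBP: components of the complement of a convex set and the boundary

PROOF.  Let Ui = {r | ∃ t ≥ 0, ev r t ∈ Vi}.  Open: union over t of preimages of Vi under the continuous
map r ↦ ev r t (`continuous_ev2` with t fixed).  Nonempty by hypothesis.
Union = complement of bdS o S: `mem_bdS_iff` (r ∈ bdS o S iff all ev r t (t ≥ 0) are in S), and
V0 ∪ V1 ∪ V2 = Sᶜ.
Disjoint: let ev r s ∈ V and ev r t ∈ V' for two different members V, V' of the three, s ≤ t (or t ≤ s,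
symmetric).  For all x ∈ [s, t]: ev r x ∉ S (`leave`, since ev r s ∉ S).  The set Icc s t is preconnected
(`isPreconnected_Icc`), it is covered by the two disjoint open preimages of V and of the union of the
other two sets under `ev r` (`continuous_ev`), and it meets both: contradiction
(`IsPreconnected.subset_or_subset` or `isPreconnected_iff_subset_of_disjoint`).  It is convenient to
prove first the lemma `bdS_disj` below for two open sets V, V' with V ∪ V' = Sᶜ.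
-/

namespace Pool.CBD

open Real Set

variable {X : Type*} [MetricSpace X]

private theorem GBP_cont {o : X} (r : Bd X o) : Continuous (fun t : ℝ => ev r t) :=
  continuous_ev2.comp (Continuous.prodMk continuous_const continuous_id)

private theorem GBP_contr {o : X} (t : ℝ) : Continuous (fun r : Bd X o => ev r t) :=
  continuous_ev2.comp (Continuous.prodMk continuous_id continuous_const)

private theorem GBP_le (hX : Cat0 X) {S : Set X} (hS : GConv S) (hc : IsClosed S) {o : X}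
    (ho : o ∈ S) {V V' : Set X} (h : IsOpen V) (h' : IsOpen V') (hd : Disjoint V V')
    (hu : V ∪ V' = Sᶜ) (r : Bd X o) {s t : ℝ} (hs : 0 ≤ s) (hst : s ≤ t) (h1 : ev r s ∈ V)
    (h2 : ev r t ∈ V') : False := by
  have hsS : ev r s ∉ S := by
    have : ev r s ∈ V ∪ V' := Or.inl h1
    rw [hu] at this
    exact this
  have h3 : (fun t : ℝ => ev r t) '' Icc s t ⊆ V ∪ V' := by
    rintro _ ⟨x, hx, rfl⟩
    rw [hu]
    exact leave hX hS hc ho r hs hx.1 hsS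
  have h4 : IsPreconnected ((fun t : ℝ => ev r t) '' Icc s t) :=
    isPreconnected_Icc.image _ (GBP_cont r).continuousOn
  have h5 := IsPreconnected.subset_left_of_subset_union h h' hd h3
    ⟨ev r s, ⟨s, ⟨le_rfl, hst⟩, rfl⟩, h1⟩ h4
  exact Set.disjoint_left.1 hd (h5 ⟨t, ⟨hst, le_rfl⟩, rfl⟩) h2

theorem bdS_disj (hX : Cat0 X) {S : Set X} (hS : GConv S) (hc : IsClosed S) {o : X} (ho : o ∈ S)
    {V V' : Set X} (h : IsOpen V) (h' : IsOpen V') (hd : Disjoint V V') (hu : V ∪ V' = Sᶜ)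
    (r : Bd X o) {s t : ℝ} (hs : 0 ≤ s) (ht : 0 ≤ t) (h1 : ev r s ∈ V) (h2 : ev r t ∈ V') :
    False := by
  rcases le_total s t with hst | hst
  · exact GBP_le hX hS hc ho h h' hd hu r hs hst h1 h2
  · exact GBP_le hX hS hc ho h' h hd.symm (by rw [union_comm]; exact hu) r ht hst h2 h1

theorem bdS_pieces (hX : Cat0 X) {S : Set X} (hS : GConv S) (hc : IsClosed S) {o : X} (ho : o ∈ S)
    {V0 V1 V2 : Set X} (h0 : IsOpen V0) (h1 : IsOpen V1) (h2 : IsOpen V2) (hd01 : Disjoint V0 V1)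
    (hd02 : Disjoint V0 V2) (hd12 : Disjoint V1 V2) (hu : V0 ∪ V1 ∪ V2 = Sᶜ)
    (n0 : ∃ r : Bd X o, ∃ t : ℝ, 0 ≤ t ∧ ev r t ∈ V0)
    (n1 : ∃ r : Bd X o, ∃ t : ℝ, 0 ≤ t ∧ ev r t ∈ V1)
    (n2 : ∃ r : Bd X o, ∃ t : ℝ, 0 ≤ t ∧ ev r t ∈ V2) :
    ∃ U0 U1 U2 : Set (Bd X o), IsOpen U0 ∧ IsOpen U1 ∧ IsOpen U2 ∧
      U0.Nonempty ∧ U1.Nonempty ∧ U2.Nonempty ∧ Disjoint U0 U1 ∧ Disjoint U0 U2 ∧ Disjoint U1 U2 ∧
      U0 ∪ U1 ∪ U2 = (bdS o S)ᶜ := by
  have hopen : ∀ V : Set X, IsOpen V → IsOpen {r : Bd X o | ∃ t : ℝ, 0 ≤ t ∧ ev r t ∈ V} := by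
    intro V hV
    have e : {r : Bd X o | ∃ t : ℝ, 0 ≤ t ∧ ev r t ∈ V} =
        ⋃ t : {t : ℝ // 0 ≤ t}, (fun r : Bd X o => ev r t.1) ⁻¹' V := by
      ext r
      simp only [mem_setOf_eq, mem_iUnion, mem_preimage]
      exact ⟨fun ⟨t, ht, h⟩ => ⟨⟨t, ht⟩, h⟩, fun ⟨t, h⟩ => ⟨t.1, t.2, h⟩⟩
    rw [e]
    exact isOpen_iUnion fun t => hV.preimage (GBP_contr t.1)
  refine ⟨{r | ∃ t : ℝ, 0 ≤ t ∧ ev r t ∈ V0}, {r | ∃ t : ℝ, 0 ≤ t ∧ ev r t ∈ V1},
    {r | ∃ t : ℝ, 0 ≤ t ∧ ev r t ∈ V2}, hopen V0 h0, hopen V1 h1, hopen V2 h2, n0, n1, n2, ?_, ?_,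
    ?_, ?_⟩
  · rw [Set.disjoint_left]
    rintro r ⟨s, hs, hs'⟩ ⟨t, ht, ht'⟩
    exact bdS_disj hX hS hc ho h0 (h1.union h2) (Set.disjoint_union_right.2 ⟨hd01, hd02⟩)
      (by rw [← hu, union_assoc]) r hs ht hs' (Or.inl ht')
  · rw [Set.disjoint_left]
    rintro r ⟨s, hs, hs'⟩ ⟨t, ht, ht'⟩
    exact bdS_disj hX hS hc ho h0 (h1.union h2) (Set.disjoint_union_right.2 ⟨hd01, hd02⟩)
      (by rw [← hu, union_assoc]) r hs ht hs' (Or.inr ht')
  · rw [Set.disjoint_left]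
    rintro r ⟨s, hs, hs'⟩ ⟨t, ht, ht'⟩
    exact bdS_disj hX hS hc ho h1 (h0.union h2) (Set.disjoint_union_right.2 ⟨hd01.symm, hd12⟩)
      (by rw [← hu, ← union_assoc, union_comm V1 V0]) r hs ht hs' (Or.inr ht')
  · ext r
    rw [Set.mem_compl_iff, mem_bdS_iff hX hS hc ho]
    push Not
    constructor
    · rintro ((⟨t, ht, h⟩ | ⟨t, ht, h⟩) | ⟨t, ht, h⟩)
      · refine ⟨t, ht, ?_⟩
        rw [← Set.mem_compl_iff, ← hu]
        exact Or.inl (Or.inl h)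
      · refine ⟨t, ht, ?_⟩
        rw [← Set.mem_compl_iff, ← hu]
        exact Or.inl (Or.inr h)
      · refine ⟨t, ht, ?_⟩
        rw [← Set.mem_compl_iff, ← hu]
        exact Or.inr h
    · rintro ⟨t, ht, h⟩
      rw [← Set.mem_compl_iff, ← hu] at h
      rcases h with (h | h) | h
      · exact Or.inl (Or.inl ⟨t, ht, h⟩)
      · exact Or.inl (Or.inr ⟨t, ht, h⟩)
      · exact Or.inr ⟨t, ht, h⟩

end Pool.CBD
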