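import Mathlib

/-!
# CBD module GCC: a circle contained in a circle

PROOFS.  `circle_real_not_inj`: f : Circle → ℝ continuous is not injective: g z = f z - f (-z) is
continuous with g (-z) = - g z; Circle is (pre)connected, so g takes the value 0 (intermediate value
theorem `mem_range_of_exists_le_of_exists_ge` or `IsPreconnected.intermediate_value` with g 1 and
g (-1) = - g 1): f z = f (-z) with z ≠ -z.
`circle_inj_surj`: suppose f : Circle → Circle continuous injective misses p.  Then
z ↦ Complex.arg (-(f z / p)) is continuous: -(f z / p) is a point of the unit circle different from -1, so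
in `Complex.slitPlane` (`Complex.continuousAt_arg`), and it is injective (`Complex.ext_norm_arg`, both
norms are 1; or `Circle.arg`/`Circle.injective_arg`): contradiction to `circle_real_not_inj`.
`circle_sub`: Z Hausdorff (not needed), C ⊆ C', both homeomorphic to the circle by e, e'.
f = e' ∘ inclusion ∘ e.symm : Circle → Circle is continuous and injective (`Set.inclusion`,
`continuous_inclusion`), hence surjective; for x ∈ C' choose z with f z = e' x, then
x = e.symm z ∈ C.
-/

namespace Pool.CBD

open Real Set

theorem circle_real_not_inj (f : Circle → ℝ) (hf : Continuous f) : ¬ Function.Injective f := by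
  intro hi
  have hpc : IsPreconnected (univ : Set Circle) := by
    have h1 : range (fun t : ℝ => Circle.exp t) = univ := by
      ext z
      simp only [mem_range, mem_univ, iff_true]
      exact ⟨Complex.arg z, Circle.exp_arg z⟩
    rw [← h1, ← image_univ]
    exact isPreconnected_univ.image _ (Circle.exp.continuous.continuousOn)
  have hm : Continuous (fun z : Circle => z * Circle.exp π) := by fun_prop
  have hne : ∀ z : Circle, z ≠ z * Circle.exp π := by
    intro z hz
    have h2 : ((Circle.exp π : Circle) : ℂ) = 1 := by
      have h3 : Circle.exp π = 1 := by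
        exact (mul_eq_left (a := z)).mp hz.symm
      rw [h3]
      rfl
    rw [Circle.coe_exp] at h2
    rw [Complex.exp_pi_mul_I] at h2
    norm_num at h2
  let g : Circle → ℝ := fun z => f z - f (z * Circle.exp π)
  have hg : Continuous g := hf.sub (hf.comp hm)
  have h4 : g (1 * Circle.exp π) = - g 1 := by
    have h5 : (1 : Circle) * Circle.exp π * Circle.exp π = 1 := by
      apply Circle.ext
      push_cast
      rw [Complex.exp_pi_mul_I]
      norm_num
    show f (1 * Circle.exp π) - f (1 * Circle.exp π * Circle.exp π) = -(f 1 - f (1 * Circle.exp π))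
    rw [h5]
    ring
  have h6 : ∃ z, g z = 0 := by
    rcases le_total (g 1) 0 with h7 | h7
    · have := hpc.intermediate_value (mem_univ 1) (mem_univ (1 * Circle.exp π)) hg.continuousOn
      obtain ⟨z, _, hz⟩ := this ⟨h7, by rw [h4]; linarith⟩
      exact ⟨z, hz⟩
    · have := hpc.intermediate_value (mem_univ (1 * Circle.exp π)) (mem_univ 1) hg.continuousOn
      obtain ⟨z, _, hz⟩ := this ⟨by rw [h4]; linarith, h7⟩
      exact ⟨z, hz⟩
  obtain ⟨z, hz⟩ := h6
  exact hne z (hi (sub_eq_zero.mp hz))

theorem circle_inj_surj (f : Circle → Circle) (hf : Continuous f) (hi : Function.Injective f) :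
    Function.Surjective f := by
  intro p
  by_contra hp
  push Not at hp
  refine circle_real_not_inj (fun z => Complex.arg (((f z * p⁻¹ * Circle.exp π : Circle)) : ℂ)) ?_ ?_
  · rw [continuous_iff_continuousAt]
    intro z
    have h1 : ContinuousAt Complex.arg (((f z * p⁻¹ * Circle.exp π : Circle)) : ℂ) := by
      apply Complex.continuousAt_arg
      rw [Complex.mem_slitPlane_iff_arg]
      refine ⟨fun h2 => ?_, Circle.coe_ne_zero _⟩
      have h3 : f z * p⁻¹ * Circle.exp π = Circle.exp π := by
        rw [← Circle.exp_arg (f z * p⁻¹ * Circle.exp π), h2]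
      have h4 : f z * p⁻¹ = 1 := mul_eq_right.mp h3
      exact hp z (mul_inv_eq_one.mp h4)
    have h5 : ContinuousAt (fun z : Circle => (((f z * p⁻¹ * Circle.exp π : Circle)) : ℂ)) z := by
      apply Continuous.continuousAt
      fun_prop
    exact ContinuousAt.comp (g := Complex.arg) h1 h5
  · intro a b hab
    have h1 := Circle.injective_arg hab
    exact hi (mul_right_cancel (mul_right_cancel h1))

theorem circle_sub {Z : Type*} [TopologicalSpace Z] {C C' : Set Z} (h : Nonempty (C ≃ₜ Circle))
    (h' : Nonempty (C' ≃ₜ Circle)) (hs : C ⊆ C') : C = C' := by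
  obtain ⟨e⟩ := h
  obtain ⟨e'⟩ := h'
  refine subset_antisymm hs fun x hx => ?_
  have hsur := circle_inj_surj (fun z => e' (inclusion hs (e.symm z)))
    (e'.continuous.comp ((continuous_inclusion hs).comp e.symm.continuous))
    (e'.injective.comp ((inclusion_injective hs).comp e.symm.injective))
  obtain ⟨z, hz⟩ := hsur (e' ⟨x, hx⟩)
  have h1 := e'.injective hz
  have h2 : ((e.symm z : C) : Z) = x := congrArg Subtype.val h1
  rw [← h2]
  exact (e.symm z).2

end Pool.CBD
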