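import Pool.Agent.CBD.GCI

/-!
# CBD module GCH: wall circles are homeomorphic to the circle

PROOF.  `eqC`: the map Circle → S2, z ↦ !₂[z.re, 0, z.im] (norm 1 by `norm_sq3` and
`Circle.normSq_coe`/`Complex.normSq_apply`), continuous and injective, with range {v | v 1 = 0}
(for v with v 1 = 0: z = v 0 + i v 2).
`Cir_homeo`: g = sph o c (wp 0 0) ∘ eqC is continuous and injective from the compact space Circle to
the Hausdorff space Bd D.X o (`instT2Bd`), with range Cir o c by `Cir_eq`.  So it is a closed embedding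
(`Continuous.isClosedEmbedding`) and `IsEmbedding.toHomeomorph : Circle ≃ₜ range g`; transport along
range g = Cir o c (`Homeomorph.setCongr`).
-/

namespace Pool.CBD

open Real Set

variable {K N : Type} [Group K] [MulAction K N] {D : CDat K N}

theorem exists_eqC : ∃ g : Circle → S2, Continuous g ∧ Function.Injective g ∧
    range g = {v : S2 | (v : E3) 1 = 0} := by
  have hn : ∀ z : Circle, (!₂[(z : ℂ).re, 0, (z : ℂ).im] : E3) ∈ Metric.sphere (0 : E3) 1 := by
    intro z
    rw [mem_sphere_zero_iff_norm]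
    have h1 : ‖(!₂[(z : ℂ).re, 0, (z : ℂ).im] : E3)‖ ^ 2 = 1 := by
      rw [norm_sq3]
      change (z : ℂ).re ^ 2 + (0 : ℝ) ^ 2 + (z : ℂ).im ^ 2 = 1
      have := Circle.normSq_coe z
      rw [Complex.normSq_apply] at this
      linarith
    have h2 : 0 ≤ ‖(!₂[(z : ℂ).re, 0, (z : ℂ).im] : E3)‖ := norm_nonneg _
    nlinarith
  refine ⟨fun z => ⟨!₂[(z : ℂ).re, 0, (z : ℂ).im], hn z⟩, ?_, ?_, ?_⟩
  · apply Continuous.subtype_mk
    have h1 : Continuous (fun z : Circle => (z : ℂ).re) :=
      Complex.continuous_re.comp continuous_subtype_val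
    have h2 : Continuous (fun z : Circle => (z : ℂ).im) :=
      Complex.continuous_im.comp continuous_subtype_val
    refine (PiLp.continuous_toLp 2 _).comp (continuous_pi fun i => ?_)
    fin_cases i
    · exact h1
    · exact continuous_const
    · exact h2
  · intro z z' h
    have h1 : (!₂[(z : ℂ).re, 0, (z : ℂ).im] : E3) = !₂[(z' : ℂ).re, 0, (z' : ℂ).im] :=
      congrArg Subtype.val h
    have h2 : (z : ℂ).re = (z' : ℂ).re := congrArg (fun v : E3 => v 0) h1
    have h3 : (z : ℂ).im = (z' : ℂ).im := congrArg (fun v : E3 => v 2) h1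
    exact Subtype.ext (Complex.ext h2 h3)
  · ext v
    constructor
    · rintro ⟨z, rfl⟩
      rfl
    · intro hv
      have h1 := norm_S2 v
      have h2 : ‖(v : E3)‖ ^ 2 = 1 := by rw [h1]; norm_num
      rw [norm_sq3] at h2
      have h3 : (v : E3) 1 = 0 := hv
      rw [h3] at h2
      have hz : (⟨(v : E3) 0, (v : E3) 2⟩ : ℂ) ∈ Submonoid.unitSphere ℂ := by
        refine mem_sphere_zero_iff_norm.2 ?_
        have h4 : Complex.normSq ⟨(v : E3) 0, (v : E3) 2⟩ = 1 := by
          rw [Complex.normSq_mk]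
          linarith
        have h5 := Complex.normSq_eq_norm_sq ⟨(v : E3) 0, (v : E3) 2⟩
        rw [h4] at h5
        have h6 : 0 ≤ ‖(⟨(v : E3) 0, (v : E3) 2⟩ : ℂ)‖ := norm_nonneg _
        nlinarith
      refine ⟨⟨_, hz⟩, Subtype.ext ?_⟩
      ext i
      fin_cases i
      · rfl
      · exact h3.symm
      · rfl

theorem Cir_homeo (o : D.X) (c : D.G.Ch) : Nonempty (Cir o c ≃ₜ Circle) := by
  obtain ⟨g, hg, hgi, hgr⟩ := exists_eqC
  have h1 : Continuous (sph o c (wp 0 0) ∘ g) := (continuous_sph o c (wp 0 0)).comp hg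
  have h2 : Function.Injective (sph o c (wp 0 0) ∘ g) := (sph_injective o c (wp 0 0)).comp hgi
  have h3 : range (sph o c (wp 0 0) ∘ g) = Cir o c := by
    rw [range_comp, hgr, Cir_eq o c (wp_mem 0 0)]
  have h4 := h1.isClosedEmbedding h2
  exact ⟨((Homeomorph.setCongr h3.symm).trans h4.isEmbedding.toHomeomorph.symm)⟩

end Pool.CBD
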