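import Pool.Agent.CBD.GDF

/-!
# CBD module GSA: the map sph is continuous and injective

PROOFS.  `continuous_rayB`: continuity at v by `continuousAt_of_ev (cat0_X D)`: given T take
t = max T 0; then ev (rayB c m v' _) t = bt c (ex m (t • v')) (`ev_rayB`), which is continuous in v':
`bt c` is 1-Lipschitz (`dist_bt_le_dist` or `dist_bt`: it is an isometry, `Isometry.of_dist_eq`),
`continuous_ex` composed with v' ↦ (m, t • v').
`continuous_sph`: compose with the homeomorphism `bc`.
`rayB_inj`: evaluate at t = 1: bt c (ex m (1 • v)) = bt c (ex m (1 • v')), so the distance of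
ex m v, ex m v' is 0 (`dist_bt`), and v = v' by `lg_ex`.
`sph_injective`: `bc` is injective, then `rayB_inj`.
`sph_eq_of_asy`: `bc_eq`.
-/

namespace Pool.CBD

open Real Set

variable {K N : Type} [Group K] [MulAction K N] {D : CDat K N}

theorem bt_inj {c : D.G.Ch} {b b' : Blk} (h : (bt c b : D.X) = bt c b') : b = b' := by
  have h1 := dist_bt c b b'
  rw [h, dist_self] at h1
  exact dist_eq_zero.mp h1.symm

theorem continuous_bt (c : D.G.Ch) : Continuous (bt c : Blk → D.X) :=
  (Isometry.of_dist_eq (fun a b => dist_bt c a b)).continuous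

theorem continuous_rayB (c : D.G.Ch) (m : Blk) :
    Continuous (fun v : S2 => rayB c m (v : E3) (norm_S2 v)) := by
  rw [continuous_iff_continuousAt]
  intro v
  apply continuousAt_of_ev (cat0_X D)
  intro T
  refine ⟨max T 0, le_max_left _ _, le_max_right _ _, ?_⟩
  have h : (fun z' : S2 => ev (rayB c m (z' : E3) (norm_S2 z')) (max T 0)) =
      fun z' : S2 => (bt c (ex m (max T 0 • (z' : E3))) : D.X) := by
    funext z'
    exact ev_rayB c m _ _ (le_max_right _ _)
  rw [h]
  have h2 : Continuous fun z' : S2 => ((m, max T 0 • (z' : E3)) : Blk × E3) :=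
    continuous_const.prodMk (continuous_subtype_val.const_smul (max T 0))
  exact ((continuous_bt c).comp (continuous_ex.comp h2)).continuousAt

theorem continuous_sph (o : D.X) (c : D.G.Ch) (m : Blk) : Continuous (sph o c m) :=
  (bc (cat0_X D) (bt c m) o).continuous.comp (continuous_rayB c m)

theorem rayB_inj {c : D.G.Ch} {m : Blk} {v v' : E3} {hv : ‖v‖ = 1} {hv' : ‖v'‖ = 1}
    (h : rayB c m v hv = rayB c m v' hv') : v = v' := by
  have h1 : ev (rayB c m v hv) 1 = ev (rayB c m v' hv') 1 := by rw [h]
  rw [ev_rayB c m v hv zero_le_one, ev_rayB c m v' hv' zero_le_one, one_smul, one_smul] at h1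
  have h2 := congrArg (lg m) (bt_inj h1)
  rwa [lg_ex, lg_ex] at h2

theorem sph_injective (o : D.X) (c : D.G.Ch) (m : Blk) : Function.Injective (sph o c m) := by
  intro v v' h
  exact Subtype.ext (rayB_inj ((bc (cat0_X D) (bt c m) o).injective h))

theorem sph_eq_of_asy {o : D.X} {c : D.G.Ch} {m : Blk} {v : S2} {z : Bd D.X o}
    (h : Asy z (rayB c m (v : E3) (norm_S2 v))) : z = sph o c m v :=
  (bc_eq (cat0_X D) h).symm

end Pool.CBD
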