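import Pool.Agent.CBD.GRB
import Pool.Agent.CBD.GSA

/-!
# CBD module GSD: the range of sph is the sphere of the block

PROOFS.  `mem_Sph`, ←: the ray rayB c m v stays in range (bt c) (`ev_rayB`), so it is in
bdS (bt c m) (range (bt c)) with C = 0 (`Metric.infDist_zero_of_mem`); `mem_bdS_of_asy` with
`asy_sph` gives sph o c m v ∈ bdS o (range (bt c)) = Sph o c.
→: let z ∈ Sph o c and r = (bc (cat0_X D) (bt c m) o).symm z, so Asy z r (`bc_asy` and
`Homeomorph.apply_symm_apply`).  By `mem_bdS_of_asy` r ∈ bdS (bt c m) (range (bt c)), so by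
`mem_bdS_iff` (`block_conv`, `block_closed`) all ev r t (t ≥ 0) are in range (bt c); `block_ray` gives
r = rayB c m v and z = bc r = sph o c m v.
`range_sph` is a reformulation.  `exists_base`: for every z and w there is r in Bd X w with Asy z r
(the same argument), and `mem_Sph_base`: for the base point in the block, z ∈ Sph (bt c m) c iff all
its points are in range (bt c) (`mem_bdS_iff`); `mem_Cir_base` the same for the wall.
-/

namespace Pool.CBD

open Real Set

variable {K N : Type} [Group K] [MulAction K N] {D : CDat K N}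

theorem exists_base {o : D.X} (z : Bd D.X o) (w : D.X) : ∃ r : Bd D.X w, Asy z r := by
  have h := bc_asy (cat0_X D) w o ((bc (cat0_X D) w o).symm z)
  rw [Homeomorph.apply_symm_apply] at h
  exact ⟨_, h⟩

theorem mem_Sph_base {c : D.G.Ch} {m : Blk} (r : Bd D.X (bt c m)) :
    r ∈ Sph (bt c m) c ↔ ∀ t : ℝ, 0 ≤ t → ev r t ∈ range (bt c : Blk → D.X) :=
  mem_bdS_iff (cat0_X D) (block_conv c) (block_closed c) ⟨m, rfl⟩ r

theorem mem_Cir_base {c : D.G.Ch} {m : Blk} (hm : m ∈ W0) (r : Bd D.X (bt c m)) :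
    r ∈ Cir (bt c m) c ↔ ∀ t : ℝ, 0 ≤ t → ev r t ∈ (bt c : Blk → D.X) '' W0 :=
  mem_bdS_iff (cat0_X D) (wall_conv c) (wall_closed c) ⟨m, hm, rfl⟩ r

theorem mem_Sph {o : D.X} {c : D.G.Ch} (m : Blk) {z : Bd D.X o} :
    z ∈ Sph o c ↔ ∃ v : S2, z = sph o c m v := by
  constructor
  · intro hz
    obtain ⟨r, hr⟩ := exists_base z (bt c m)
    have h1 : r ∈ Sph (bt c m) c := (mem_bdS_of_asy hr).1 hz
    obtain ⟨v, hv⟩ := block_ray r ((mem_Sph_base r).1 h1)
    refine ⟨v, sph_eq_of_asy ?_⟩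
    rw [← hv]
    exact hr
  · rintro ⟨v, rfl⟩
    apply (mem_bdS_of_asy (asy_sph o c m v)).2
    change rayB c m (v : E3) (norm_S2 v) ∈ Sph (bt c m) c
    rw [mem_Sph_base]
    intro t ht
    rw [ev_rayB c m _ _ ht]
    exact ⟨_, rfl⟩

theorem range_sph (o : D.X) (c : D.G.Ch) (m : Blk) : range (sph o c m) = Sph o c := by
  ext z
  rw [mem_Sph m]
  constructor
  · rintro ⟨v, rfl⟩
    exact ⟨v, rfl⟩
  · rintro ⟨v, rfl⟩
    exact ⟨v, rfl⟩

end Pool.CBD
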