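import Pool.Agent.CBD.GSC
import Pool.Agent.CBD.GSD

/-!
# CBD module GCI: the wall circle in the coordinates of a block

PROOF.  `mem_Cir`, ←: v 1 = 0; the points of rayB c m v are bt c (ex m (t • v)) with
ex m (t • v) ∈ W0 (`ex_mem_W0`), so the ray is in Cir (bt c m) c (`mem_Cir_base` or C = 0) and
`mem_bdS_of_asy` with `asy_sph` transfers to o.
→: z ∈ Cir o c ⊆ Sph o c (`Cir_subset_Sph`), so z = sph o c m v (`mem_Sph`); then rayB c m v is in
Cir (bt c m) c (`mem_bdS_of_asy`, `asy_sph`) and by `mem_Cir_base` the point ev (rayB ..) 1 =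
bt c (ex m (1 • v)) is in bt c '' W0; by `bt_inj` ex m v ∈ W0, and v = lg m (ex m v) (`lg_ex`) has
second coordinate 0 by `lg_mem_W0`.
`Cir_eq` is a reformulation.
-/

namespace Pool.CBD

open Real Set

variable {K N : Type} [Group K] [MulAction K N] {D : CDat K N}

theorem mem_Cir {o : D.X} {c : D.G.Ch} {m : Blk} (hm : m ∈ W0) {z : Bd D.X o} :
    z ∈ Cir o c ↔ ∃ v : S2, (v : E3) 1 = 0 ∧ z = sph o c m v := by
  constructor
  · intro hz
    obtain ⟨v, rfl⟩ := (mem_Sph m).1 (Cir_subset_Sph o c hz)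
    refine ⟨v, ?_, rfl⟩
    have h1 : rayB c m (v : E3) (norm_S2 v) ∈ Cir (bt c m) c :=
      (mem_bdS_of_asy (asy_sph o c m v)).1 hz
    have h2 := (mem_Cir_base hm _).1 h1 1 zero_le_one
    rw [ev_rayB c m _ _ zero_le_one, one_smul] at h2
    obtain ⟨w, hw, h3⟩ := h2
    have h4 := bt_inj h3
    rw [← lg_ex m (v : E3), ← h4]
    exact lg_mem_W0 hm hw
  · rintro ⟨v, hv, rfl⟩
    apply (mem_bdS_of_asy (asy_sph o c m v)).2
    change rayB c m (v : E3) (norm_S2 v) ∈ Cir (bt c m) c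
    rw [mem_Cir_base hm]
    intro t ht
    rw [ev_rayB c m _ _ ht]
    refine ⟨_, ex_mem_W0 hm ?_, rfl⟩
    change t * (v : E3) 1 = 0
    rw [hv, mul_zero]

theorem Cir_eq (o : D.X) (c : D.G.Ch) {m : Blk} (hm : m ∈ W0) :
    Cir o c = sph o c m '' {v : S2 | (v : E3) 1 = 0} := by
  ext z
  rw [mem_Cir hm]
  constructor
  · rintro ⟨v, hv, rfl⟩
    exact ⟨v, hv, rfl⟩
  · rintro ⟨v, hv, rfl⟩
    exact ⟨v, hv, rfl⟩

end Pool.CBD
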