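import Pool.Agent.CBD.GDF

/-!
# CBD module GDN: the spheres of the blocks are dense in the boundary

PROOF.  Let r ∈ U, U open.  By `hasBasis_nhds (cat0_X D) r` there are p ≥ 0 and ε > 0 with
{r' | dist (ev r' p) (ev r p) < ε} ⊆ U.  Let t = p + 1 > 0, ev r t = bt c b (`exists_bt`).  It is
different from o: dist o (ev r t) = t (`dist_o_ev`).  `exists_ext` gives r' with
ev r' (dist (bt c b) o) = bt c b, where dist (bt c b) o = t, and ev r' t' ∈ range (bt c) for t' ≥ t.
Then r' ∈ Sph o c: infDist (ev r' t') (range (bt c)) ≤ t for all t' ≥ 0: it is 0 for t' ≥ t, and for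
t' < t it is ≤ dist (ev r' t') (ev r' t) = t - t' ≤ t (`dist_ev`).  And
dist (ev r' p) (ev r p) ≤ dist (ev r' t) (ev r t) = 0 (`contr_mono`) < ε, so r' ∈ U.
-/

namespace Pool.CBD

open Real Set

variable {K N : Type} [Group K] [MulAction K N] {D : CDat K N}

theorem exists_Sph_inter {o : D.X} {U : Set (Bd D.X o)} (hU : IsOpen U) (hn : U.Nonempty) :
    ∃ c : D.G.Ch, (U ∩ Sph o c).Nonempty := by
  obtain ⟨r, hr⟩ := hn
  obtain ⟨⟨p, e⟩, ⟨hp, he⟩, hsub⟩ := (hasBasis_nhds (cat0_X D) r).mem_iff.mp (hU.mem_nhds hr)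
  simp only at hp he hsub
  obtain ⟨t, ht⟩ : ∃ t : ℝ, t = p + 1 := ⟨_, rfl⟩
  have ht0 : 0 < t := by linarith
  obtain ⟨c, b, hb⟩ := exists_bt (ev r t)
  have hd : dist (bt c b : D.X) o = t := by
    rw [← hb, dist_comm]
    exact dist_o_ev r ht0.le
  have hne : (bt c b : D.X) ≠ o := by
    intro h
    rw [h, dist_self] at hd
    exact ht0.ne hd
  obtain ⟨r', h1, h2⟩ := exists_ext hne
  rw [hd] at h1 h2
  refine ⟨c, r', hsub ?_, t, ?_⟩
  · change dist (ev r' p) (ev r p) < e
    have h3 := contr_mono (cat0_X D) r' r hp (by linarith : p ≤ t)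
    rw [h1, hb, dist_self] at h3
    exact lt_of_le_of_lt h3 he
  · intro s hs
    rcases le_total t s with h | h
    · rw [Metric.infDist_zero_of_mem (h2 s h)]
      exact ht0.le
    · have h4 : Metric.infDist (ev r' s) (range (bt c : Blk → D.X)) ≤ dist (ev r' s) (ev r' t) :=
        Metric.infDist_le_dist_of_mem (h2 t le_rfl)
      rw [dist_ev r' hs ht0.le, abs_of_nonpos (by linarith)] at h4
      linarith

end Pool.CBD
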