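import Pool.Agent.CBD.GSC
import Pool.Agent.CBD.GSD

/-!
# CBD module GIN: the spheres of two blocks separated by a wall meet inside the wall circle

PROOFS.  `infDist_wall_le`: x = bt e b with ¬ Beh c e, Beh c d.  For every point y = bt d b' of the
block of d, `sep_min` (d1 := e, d2 := d) gives w ∈ W0 with dist x y = dist x (bt c w) +
dist (bt c w) y ≥ dist x (bt c w) ≥ infDist x (bt c '' W0) (`Metric.infDist_le_dist_of_mem`); so
infDist x (range (bt d)) ≥ infDist x (bt c '' W0) (`Metric.le_infDist`, range nonempty).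
`Sph_inter`: z in both spheres.  Let w0 = bt c (wp 0 0), r : Bd X w0 with Asy z r (`exists_base`).
By `mem_bdS_of_asy` r is in Sph w0 c and Sph w0 d; by `mem_Sph_base` all ev r t are in range (bt c),
and infDist (ev r t) (range (bt d)) ≤ C for all t ≥ 0.  By `infDist_wall_le` with e := c
(¬ Beh c c: `not_beh_mul c 1` and `Ch.mul_one`) infDist (ev r t) (bt c '' W0) ≤ C, so r is in
bdS w0 (bt c '' W0) and z ∈ Cir o c (`mem_bdS_of_asy`).
`Sph_inter'`: for two charts which do not belong to the same block there is k with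
Sph o c ∩ Sph o d ⊆ Cir o (c.mul k): `tri`, `Sph_inter`, `Sph_mul`.
-/

namespace Pool.CBD

open Real Set

variable {K N : Type} [Group K] [MulAction K N] {D : CDat K N}

theorem infDist_wall_le {c d e : D.G.Ch} (he : ¬ Beh c e) (hd : Beh c d) (b : Blk) :
    Metric.infDist (bt e b : D.X) ((bt c : Blk → D.X) '' W0) ≤
      Metric.infDist (bt e b : D.X) (range (bt d : Blk → D.X)) := by
  haveI : Nonempty Blk := ⟨wp 0 0⟩
  apply (Metric.le_infDist (range_nonempty _)).mpr
  rintro y ⟨b', rfl⟩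
  obtain ⟨w, hw, hwe⟩ := sep_min (D := D.G) he hd b b'
  rw [hwe]
  have h1 : Metric.infDist (bt e b : D.X) ((bt c : Blk → D.X) '' W0) ≤
      dist (bt e b : D.X) (bt c w) := Metric.infDist_le_dist_of_mem ⟨w, hw, rfl⟩
  have h2 : 0 ≤ dist (bt c w : D.X) (bt d b') := dist_nonneg
  linarith

theorem Sph_inter (o : D.X) {c d : D.G.Ch} (h : Beh c d) : Sph o c ∩ Sph o d ⊆ Cir o c := by
  rintro z ⟨hzc, hzd⟩
  obtain ⟨r, hr⟩ := exists_base (D := D) z (bt c (wp 0 0))
  have h1 : r ∈ Sph (bt c (wp 0 0)) c := (mem_bdS_of_asy hr).mp hzc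
  have h2 : r ∈ Sph (bt c (wp 0 0)) d := (mem_bdS_of_asy hr).mp hzd
  have h3 := (mem_Sph_base r).mp h1
  have hcc : ¬ Beh c c := by
    have := not_beh_mul c (1 : K)
    rwa [Ch.mul_one] at this
  obtain ⟨C, hC⟩ := h2
  refine (mem_bdS_of_asy hr).mpr ⟨C, fun t ht => ?_⟩
  obtain ⟨b, hb⟩ := h3 t ht
  have h4 := hC t ht
  rw [← hb] at h4 ⊢
  exact (infDist_wall_le hcc h b).trans h4

theorem Sph_inter' (o : D.X) {c d : D.G.Ch} (h : ¬ ∃ k : K, d = c.mul k) :
    ∃ k : K, Sph o c ∩ Sph o d ⊆ Cir o (c.mul k) := by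
  rcases tri c d with h1 | ⟨k, hk⟩
  · exact absurd h1 h
  · refine ⟨k, ?_⟩
    have := Sph_inter o hk
    rwa [Sph_mul] at this

end Pool.CBD
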