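import Pool.Agent.CBD.GTS
import Pool.Agent.CBD.GCC
import Pool.Agent.CBD.GDN
import Pool.Agent.CBD.GIN
import Pool.Agent.CBD.GCH
import Pool.Agent.CBD.GSA

/-!
# CBD module GCX: the characterisation of wall circles

Let C be homeomorphic to the circle with complement the disjoint union of three nonempty open sets.

PROOFS.  `one_piece`: C homeomorphic to the circle, C ⊄ Sph o c, U : Fin 3 → Set Z open, pairwise disjoint
with union Cᶜ.  If U i and U j meet Sph o c then i = j.  Proof: otherwise apply `sphere_top2` with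
s = sph o c (wp 0 0) (`continuous_sph`, `sph_injective`, `range_sph`), U0 := U i, U1 := the union of the
U l with l ≠ i (open, disjoint from U i, union Cᶜ; it meets Sph o c in a point of U j).
`IsWC.exists_chart`: suppose C ≠ Cir o c for all c.
(i) ¬ Cir o c ⊆ C and ¬ C ⊆ Cir o c for all c (`circle_sub` with `Cir_homeo`).
(ii) if C ⊆ Sph o c and C ⊆ Sph o d then d = c.mul k for some k: otherwise `Sph_inter'` gives
C ⊆ Cir o (c.mul k).
Choose c0 with C ⊆ Sph o c0 if such a chart exists, and c0 = base otherwise; in both cases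
(H) for all c, C ⊆ Sph o c → ∃ k, c = c0.mul k.
Claim: for all c and j, if U j meets Sph o c then U j meets Sph o c0.  `Ch.conn` (starting at c0) with the
set of all c with this property: c0 clear; mul: `Sph_mul`; flip: let U j meet Sph o c.flip.  If
C ⊆ Sph o c.flip then c.flip = c0.mul k by (H) and Sph o c.flip = Sph o c0 (`Sph_mul`).  Otherwise take
p ∈ Cir o c, p ∉ C (i); p ∈ U i for some i; p ∈ Cir o c = Cir o c.flip ⊆ Sph o c.flip (`Cir_flip`,
`Cir_subset_Sph`), so i = j by `one_piece` for c.flip; and p ∈ Cir o c ⊆ Sph o c, so U j meets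
Sph o c, and the induction hypothesis for c applies.
Every U j is open and nonempty, so it meets some Sph o c (`exists_Sph_inter`), hence Sph o c0:
contradiction to `sphere_top3` with s = sph o c0 (wp 0 0).
-/

namespace Pool.CBD

open Real Set

variable {K N : Type} [Group K] [MulAction K N] {D : CDat K N}

theorem one_piece {o : D.X} {C : Set (Bd D.X o)} (hC : Nonempty (C ≃ₜ Circle)) {c : D.G.Ch}
    (hn : ¬ C ⊆ Sph o c) {U : Fin 3 → Set (Bd D.X o)} (hU : ∀ i, IsOpen (U i))
    (hd : ∀ i j, i ≠ j → Disjoint (U i) (U j)) (hu : ⋃ i, U i = Cᶜ) {i j : Fin 3}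
    (hi : (U i ∩ Sph o c).Nonempty) (hj : (U j ∩ Sph o c).Nonempty) : i = j := by
  by_contra hij
  have hr := range_sph o c (wp 0 0)
  rw [← hr] at hn hi hj
  refine sphere_top2 (continuous_sph o c (wp 0 0)) (sph_injective o c (wp 0 0)) hC hn
    (U0 := U i) (U1 := ⋃ l : {l : Fin 3 // l ≠ i}, U l.1) (hU i) (isOpen_iUnion fun l => hU l.1) ?_ ?_ hi ?_
  · rw [Set.disjoint_iUnion_right]
    intro l
    exact hd i l.1 (Ne.symm l.2)
  · rw [← hu]
    ext z
    simp only [Set.mem_union, Set.mem_iUnion]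
    constructor
    · rintro (h | ⟨l, h⟩)
      · exact ⟨i, h⟩
      · exact ⟨l.1, h⟩
    · rintro ⟨l, h⟩
      by_cases hl : l = i
      · left
        rw [← hl]
        exact h
      · exact Or.inr ⟨⟨l, hl⟩, h⟩
  · obtain ⟨z, hz1, hz2⟩ := hj
    exact ⟨z, Set.mem_iUnion.2 ⟨⟨j, fun h => hij h.symm⟩, hz1⟩, hz2⟩

theorem IsWC.exists_chart {o : D.X} {C : Set (Bd D.X o)} (h : IsWC C) :
    ∃ c : D.G.Ch, C = Cir o c := by
  by_contra hcon
  push Not at hcon
  obtain ⟨hC, U0, U1, U2, o0, o1, o2, n0, n1, n2, d01, d02, d12, hu⟩ := h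
  have hA : ∀ c : D.G.Ch, ¬ Cir o c ⊆ C := fun c hs => hcon c (circle_sub (Cir_homeo o c) hC hs).symm
  have hB : ∀ c : D.G.Ch, ¬ C ⊆ Cir o c := fun c hs => hcon c (circle_sub hC (Cir_homeo o c) hs)
  have hS : ∀ c d : D.G.Ch, C ⊆ Sph o c → C ⊆ Sph o d → ∃ k : K, d = c.mul k := by
    intro c d h1 h2
    by_contra h3
    obtain ⟨k, hk⟩ := Sph_inter' o h3
    exact hB _ ((Set.subset_inter h1 h2).trans hk)
  obtain ⟨c0, H⟩ : ∃ c0 : D.G.Ch, ∀ c : D.G.Ch, C ⊆ Sph o c → ∃ k : K, c = c0.mul k := by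
    by_cases hex : ∃ c0 : D.G.Ch, C ⊆ Sph o c0
    · obtain ⟨c0, h0⟩ := hex
      exact ⟨c0, fun c hc => hS c0 c h0 hc⟩
    · exact ⟨Ch.base _, fun c hc => absurd ⟨c, hc⟩ hex⟩
  let U : Fin 3 → Set (Bd D.X o) := ![U0, U1, U2]
  have hU : ∀ i, IsOpen (U i) := by
    intro i
    fin_cases i
    · exact o0
    · exact o1
    · exact o2
  have hUn : ∀ i, (U i).Nonempty := by
    intro i
    fin_cases i
    · exact n0
    · exact n1
    · exact n2
  have hUd : ∀ i j, i ≠ j → Disjoint (U i) (U j) := by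
    intro i j hij
    fin_cases i <;> fin_cases j
    · exact absurd rfl hij
    · exact d01
    · exact d02
    · exact d01.symm
    · exact absurd rfl hij
    · exact d12
    · exact d02.symm
    · exact d12.symm
    · exact absurd rfl hij
  have hUu : ⋃ i, U i = Cᶜ := by
    rw [← hu]
    ext z
    simp only [Set.mem_iUnion, Set.mem_union]
    constructor
    · rintro ⟨i, hi⟩
      fin_cases i
      · exact Or.inl (Or.inl hi)
      · exact Or.inl (Or.inr hi)
      · exact Or.inr hi
    · rintro ((h | h) | h)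
      · exact ⟨0, h⟩
      · exact ⟨1, h⟩
      · exact ⟨2, h⟩
  have claim : ∀ c : D.G.Ch, ∀ j, (U j ∩ Sph o c).Nonempty → (U j ∩ Sph o c0).Nonempty := by
    intro c
    refine Ch.conn (c0 := c0) {c : D.G.Ch | ∀ j, (U j ∩ Sph o c).Nonempty → (U j ∩ Sph o c0).Nonempty} ?_ ?_ ?_ c
    · intro j hj
      exact hj
    · intro c hc k j hj
      rw [Sph_mul] at hj
      exact hc j hj
    · intro c hc j hj
      by_cases hf : C ⊆ Sph o c.flip
      · obtain ⟨k, hk⟩ := H _ hf
        rw [hk, Sph_mul] at hj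
        exact hj
      · obtain ⟨p, hp, hpC⟩ := Set.not_subset.1 (hA c)
        have h1 : p ∈ ⋃ i, U i := by
          rw [hUu]
          exact hpC
        obtain ⟨i, hi⟩ := Set.mem_iUnion.1 h1
        have h2 : p ∈ Sph o c.flip := by
          apply Cir_subset_Sph
          rw [Cir_flip]
          exact hp
        have h3 : i = j := one_piece hC hf hU hUd hUu ⟨p, hi, h2⟩ hj
        rw [h3] at hi
        exact hc j ⟨p, hi, Cir_subset_Sph o c hp⟩
  have hall : ∀ j, (U j ∩ Sph o c0).Nonempty := by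
    intro j
    obtain ⟨c, hc⟩ := exists_Sph_inter (hU j) (hUn j)
    exact claim c j hc
  have hr := range_sph o c0 (wp 0 0)
  have f0 := hall 0
  have f1 := hall 1
  have f2 := hall 2
  rw [← hr] at f0 f1 f2
  exact sphere_top3 (continuous_sph o c0 (wp 0 0)) (sph_injective o c0 (wp 0 0)) hC o0 o1 o2 d01 d02 d12 hu f0 f1 f2

end Pool.CBD
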