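import Pool.Agent.CBD.KLM
import Pool.Agent.CBD.DGE
import Pool.Agent.CBD.ELM
import Pool.Agent.CBD.DPR

/-!
# CBD module KCT: the glued space is CAT(0)

PROOF.  geod: `geod_XX`.  comp: let x, y, m, t be given, d = dist x y.  If d = 0 then x = m = y, trivial.
Let g be a geodesic from x to y through m: concatenate geodesics from x to m and from m to y
(as in `HasGeod.trans`; reprove the statement with g (t d) = m: g s = g1 s for s ≤ t d, g2 (s - t d) for
s ≥ t d; it is distance preserving on [0, d]).  G s = dist p (g s)^2 is continuous on [0, d] and for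
0 < s0 < d, with e from `local_mid` at g s0 and s < min e s0 (d - s0):
2 G s0 + 2 s^2 ≤ G (s0 - s) + G (s0 + s).  `conv_of_local` with L = d gives the claim at t d.
-/

namespace Pool.CBD

open Real Set

variable {K N : Type} [Group K] [MulAction K N]

private theorem kct_trans {X : Type*} [MetricSpace X] {x y z : X} (h1 : HasGeod x y)
    (h2 : HasGeod y z) (h : dist x y + dist y z = dist x z) :
    ∃ g : ℝ → X, g 0 = x ∧ g (dist x y) = y ∧ g (dist x z) = z ∧
      ∀ s ∈ Icc 0 (dist x z), ∀ t ∈ Icc 0 (dist x z), dist (g s) (g t) = |s - t| := by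
  obtain ⟨g1, h10, h11, h12⟩ := h1
  obtain ⟨g2, h20, h21, h22⟩ := h2
  have hxy : 0 ≤ dist x y := dist_nonneg
  have hyz : 0 ≤ dist y z := dist_nonneg
  set a := dist x y with ha
  set b := dist y z with hb
  have cross : ∀ s ∈ Icc 0 a, ∀ t ∈ Icc 0 b, dist (g1 s) (g2 t) = a - s + t := by
    intro s hs t ht
    have e1 : dist (g1 s) y = a - s := by
      rw [← h11, h12 s hs a ⟨hxy, le_rfl⟩, abs_sub_comm, abs_of_nonneg (by linarith [hs.2])]
    have e2 : dist y (g2 t) = t := by
      rw [← h20, h22 0 ⟨le_rfl, hyz⟩ t ht, abs_sub_comm, abs_of_nonneg (by linarith [ht.1])]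
      ring
    have e3 : dist x (g1 s) = s := by
      rw [← h10, h12 0 ⟨le_rfl, hxy⟩ s hs, abs_sub_comm, abs_of_nonneg (by linarith [hs.1])]
      ring
    have e4 : dist (g2 t) z = b - t := by
      rw [← h21, h22 t ht b ⟨hyz, le_rfl⟩, abs_sub_comm, abs_of_nonneg (by linarith [ht.2])]
    have t1 := dist_triangle (g1 s) y (g2 t)
    have t2 := dist_triangle4 x (g1 s) (g2 t) z
    rw [e3, e4, ← h] at t2
    apply le_antisymm
    · linarith
    · linarith
  refine ⟨fun s => if s ≤ a then g1 s else g2 (s - a), ?_, ?_, ?_, ?_⟩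
  · simp only [if_pos hxy]; exact h10
  · simp only [if_pos (le_refl a)]
    exact h11
  · rw [← h]
    by_cases hb0 : a + b ≤ a
    · have : b = 0 := by linarith
      simp only [if_pos hb0]
      rw [this, add_zero, h11]
      exact dist_eq_zero.mp (hb ▸ this)
    · simp only [if_neg hb0]
      rw [show a + b - a = b by ring]
      exact h21
  · intro s hs t ht
    rw [← h] at hs ht
    simp only
    by_cases h3 : s ≤ a <;> by_cases h4 : t ≤ a
    · rw [if_pos h3, if_pos h4]
      exact h12 s ⟨hs.1, h3⟩ t ⟨ht.1, h4⟩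
    · rw [if_pos h3, if_neg h4]
      push Not at h4
      rw [cross s ⟨hs.1, h3⟩ (t - a) ⟨by linarith, by linarith [ht.2]⟩, abs_sub_comm,
        abs_of_nonneg (by linarith)]
      ring
    · rw [if_neg h3, if_pos h4]
      push Not at h3
      rw [dist_comm, cross t ⟨ht.1, h4⟩ (s - a) ⟨by linarith, by linarith [hs.2]⟩,
        abs_of_nonneg (by linarith)]
      ring
    · rw [if_neg h3, if_neg h4]
      push Not at h3 h4
      rw [h22 (s - a) ⟨by linarith, by linarith [hs.2]⟩ (t - a) ⟨by linarith, by linarith [ht.2]⟩]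
      congr 1
      ring

theorem cat0_X (D : CDat K N) : Cat0 D.X := by
  refine ⟨geod_XX D.G, ?_⟩
  intro p x y m t ht ht1 h1 h2
  rcases eq_or_lt_of_le (dist_nonneg : 0 ≤ dist x y) with h0 | hpos
  · rw [← h0, mul_zero] at h1 h2
    have e1 : x = m := dist_eq_zero.mp h1
    have e2 : m = y := dist_eq_zero.mp h2
    rw [← h0, ← e2, ← e1]
    apply le_of_eq
    ring
  · obtain ⟨g, g0, gm, gy, giso⟩ := kct_trans (geod_XX D.G x m) (geod_XX D.G m y)
      (by rw [h1, h2]; ring)
    have hlip : LipschitzOnWith 1 g (Icc 0 (dist x y)) := by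
      apply LipschitzOnWith.of_dist_le_mul
      intro s hs u hu
      rw [giso s hs u hu, NNReal.coe_one, one_mul, Real.dist_eq]
    have hcont : ContinuousOn (fun s => dist p (g s) ^ 2) (Icc 0 (dist x y)) :=
      ((continuous_const.dist continuous_id).comp_continuousOn hlip.continuousOn).pow 2
    have key := conv_of_local hpos (fun s => dist p (g s) ^ 2) hcont (by
      intro s0 hs0
      obtain ⟨e, he0, he⟩ := local_mid D (g s0)
      refine ⟨min e (min s0 (dist x y - s0)), lt_min he0 (lt_min hs0.1 (by linarith [hs0.2])), ?_⟩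
      intro s hs
      have hs1 : s < e := lt_of_lt_of_le hs.2 (min_le_left _ _)
      have hs2 : s < s0 := lt_of_lt_of_le hs.2 ((min_le_right _ _).trans (min_le_left _ _))
      have hs3 : s < dist x y - s0 := lt_of_lt_of_le hs.2 ((min_le_right _ _).trans (min_le_right _ _))
      have hs00 : 0 < s := hs.1
      have i0 : s0 ∈ Icc 0 (dist x y) := ⟨hs0.1.le, hs0.2.le⟩
      have i1 : s0 - s ∈ Icc 0 (dist x y) := ⟨by linarith, by linarith⟩
      have i2 : s0 + s ∈ Icc 0 (dist x y) := ⟨by linarith [hs0.1], by linarith⟩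
      exact he (g (s0 - s)) (g (s0 + s)) s hs.1 hs1
        (by rw [giso s0 i0 _ i1, show s0 - (s0 - s) = s by ring, abs_of_pos hs00])
        (by rw [giso s0 i0 _ i2, show s0 - (s0 + s) = -s by ring, abs_neg, abs_of_pos hs00])
        (by rw [giso _ i1 _ i2, show s0 - s - (s0 + s) = -(2 * s) by ring, abs_neg,
          abs_of_pos (by linarith)]) p) ht ht1
    rw [← h1, gm, g0, gy] at key
    exact key

end Pool.CBD
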