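import Pool.Agent.CBD.KCT
import Pool.Agent.CBD.ECQ
import Pool.Agent.CBD.DPR
import Pool.Agent.CBD.DLB

/-!
# CBD module KCV: blocks and walls are closed and convex; the walls as sets

PROOFS.  `block_closed`: range (bt c) is the image of a complete space under an isometry (`dist_bt`).
`block_conv`: if x = bt c b, y = bt c b', dist x m + dist m y = dist x y: the point z of the block geodesic
from b to b' with dist b z = dist x m (ex b ((dist x m / dist x y) • lg b b')) satisfies the same
equalities, so m = bt c z by `Cat0.uniq`.  `wall_closed`, `wall_conv`: same inside W0 (isClosed_W0; for b, b' in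
W0 the point ex b (t • lg b b') is in W0 by `lg_mem_W0`, `ex_mem_W0`).
`mem_both`: bt c b = bt c.flip b' implies b in W0 and b' = io b (from `same_point`: c.flip is not of
the form c.mul k because of beh_flip and not_beh_mul; and c.flip = (c.mul k).flip.mul j gives
(flip both sides) ... k a0 = a0: Beh c c.flip so Beh (c.mul k) ((c.mul k).flip.mul j) ... use `beh_unique`:
Beh (c.mul 1) c.flip and Beh (c.mul k) c.flip, so k a0 = a0; then act k⁻¹ b in W0 gives b in W0, and
bt c.flip b' = bt c b = bt c.flip (io b), dist_bt.)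
-/

namespace Pool.CBD

open Real Set

variable {K N : Type} [Group K] [MulAction K N] {D : CDat K N}

private theorem kcv_iso (c : D.G.Ch) : Isometry (bt c : Blk → D.X) :=
  Isometry.of_dist_eq (dist_bt c)

theorem block_closed (c : D.G.Ch) : IsClosed (range (bt c : Blk → D.X)) :=
  (kcv_iso c).isClosedEmbedding.isClosed_range

private theorem kcv_mid (c : D.G.Ch) (b b' : Blk) (m : D.X)
    (h : dist (bt c b) m + dist m (bt c b') = dist (bt c b) (bt c b')) :
    ∃ t : ℝ, m = bt c (ex b (t • lg b b')) := by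
  have hd : dist (bt c b : D.X) (bt c b') = dist b b' := dist_bt c b b'
  have n1 : 0 ≤ dist (bt c b : D.X) m := dist_nonneg
  have n2 : 0 ≤ dist m (bt c b' : D.X) := dist_nonneg
  rcases eq_or_lt_of_le (dist_nonneg : 0 ≤ dist b b') with h0 | h0
  · refine ⟨0, ?_⟩
    rw [zero_smul, ex_zero]
    have h1 : dist (bt c b : D.X) m = 0 := by linarith
    exact (dist_eq_zero.mp h1).symm
  · set t := dist (bt c b : D.X) m / dist b b' with ht
    have ht0 : 0 ≤ t := div_nonneg n1 h0.le
    have ht1 : t ≤ 1 := by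
      rw [ht, div_le_one h0]
      linarith
    have htd : t * dist b b' = dist (bt c b : D.X) m := by
      rw [ht]
      field_simp
    refine ⟨t, (cat0_X D).uniq h ?_ ?_⟩
    · rw [dist_bt, dist_ex, norm_smul, norm_lg, Real.norm_eq_abs, abs_of_nonneg ht0, htd]
    · rw [dist_bt, dist_ex_smul_right _ _ ht1]
      linarith

theorem block_conv (c : D.G.Ch) : GConv (range (bt c : Blk → D.X)) := by
  rintro _ ⟨b, rfl⟩ _ ⟨b', rfl⟩ m h
  obtain ⟨t, ht⟩ := kcv_mid c b b' m h
  exact ⟨_, ht.symm⟩

theorem wall_closed (c : D.G.Ch) : IsClosed ((bt c : Blk → D.X) '' W0) :=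
  (kcv_iso c).isClosedEmbedding.isClosedMap W0 isClosed_W0

theorem wall_conv (c : D.G.Ch) : GConv ((bt c : Blk → D.X) '' W0) := by
  rintro _ ⟨b, hb, rfl⟩ _ ⟨b', hb', rfl⟩ m h
  obtain ⟨t, ht⟩ := kcv_mid c b b' m h
  refine ⟨_, ex_mem_W0 hb ?_, ht.symm⟩
  show t * lg b b' 1 = 0
  rw [lg_mem_W0 hb hb', mul_zero]

private theorem kcv_fix {c d : D.G.Ch} {k j : K} (h : Beh c d) (hd : d = (c.mul k).flip.mul j) :
    k • D.G.a0 = D.G.a0 := by
  have h1 : Beh (c.mul k) d := by
    rw [hd, beh_mul_right]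
    exact beh_flip _
  have h2 : Beh (c.mul 1) d := by
    rw [Ch.mul_one]
    exact h
  have h3 := beh_unique h1 h2
  rwa [one_smul] at h3

private theorem kcv_W {k : K} {b : Blk} (hk : k • D.G.a0 = D.G.a0) (hb : D.G.act k⁻¹ b ∈ D.G.W) :
    b ∈ W0 := by
  have h1 := D.G.act_W k hk _ hb
  rwa [D.G.act_act_inv] at h1

theorem mem_both {c : D.G.Ch} {b b' : Blk} (h : (bt c b : D.X) = bt c.flip b') :
    b ∈ W0 ∧ b' = io D.P b := by
  have hb : b ∈ W0 := by
    rcases same_point h with ⟨k, hk⟩ | ⟨k, j, hk, hW, -⟩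
    · exfalso
      have h1 := beh_flip c
      rw [hk] at h1
      exact not_beh_mul c k h1
    · exact kcv_W (kcv_fix (beh_flip c) hk) hW
  refine ⟨hb, ?_⟩
  have h2 : (bt c.flip (io D.P b) : D.X) = bt c b := bt_flip c hb
  have h3 : dist (bt c.flip b' : D.X) (bt c.flip (io D.P b)) = dist b' (io D.P b) := dist_bt _ _ _
  rw [h2, h, dist_self] at h3
  exact dist_eq_zero.mp h3.symm

/-- A point behind the base wall of c and in the block of c is on the wall. -/
theorem mem_wall_of_beh {c d : D.G.Ch} (h : Beh c d) {b b' : Blk} (hb : (bt c b : D.X) = bt d b') :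
    b ∈ W0 := by
  rcases same_point hb with ⟨k, hk⟩ | ⟨k, j, hk, hW, -⟩
  · exfalso
    rw [hk] at h
    exact not_beh_mul c k h
  · exact kcv_W (kcv_fix h hk) hW

end Pool.CBD
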