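import Pool.Agent.CBD.KCV
import Pool.Agent.CBD.EBD
import Pool.Agent.CBD.EID

/-!
# CBD module KRY: rays inside a block, hinge vectors and extension of geodesics

PROOFS.  `rayB`: t ↦ bt c (ex m (t v)) for a unit vector v: `dist_bt`, `dist_ex_smul`, `ex_zero`.
`exists_ext`: y = bt c b, y ≠ o.  Let P be a hinge vector at b of Psi = dist (bt c ·) o (`hg_dist`),
‖P‖ = dist y o =: F > 0, v = -(1/F) P.  Then for t ≥ 0: dist (bt c (ex b (t v))) o ≥ ‖t v - P‖ = t + F
(`lg_ex`), and ≤ t + F.  Concatenate the geodesic from o to y with t ↦ bt c (ex b (t v)): a ray from o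
(dist between a point at time s ≤ F and one at time F + t: ≤ F - s + t and ≥ F + t - s since the
distances to o are s and F + t).
`ext_of_hinge` is the version for a given hinge vector.
`hinge_unique`: if F = dist (bt c x) o + dist b x with x ≠ b, then every hinge vector P at b is
(F / dist b x) • lg b x: ‖lg b x - P‖ ≤ dist (bt c x) o = F - dist b x = ‖P‖ - ‖lg b x‖, so
‖P‖ ≥ .. equality in the triangle inequality ‖P‖ ≤ ‖lg b x‖ + ‖P - lg b x‖, and in a Euclidean space
P is a nonnegative multiple of lg b x (if lg b x ≠ 0), of norm F.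
-/

namespace Pool.CBD

open Real Set

variable {K N : Type} [Group K] [MulAction K N] {D : CDat K N}

/-- The ray t ↦ bt c (ex m (t v)). -/
noncomputable def rayB (c : D.G.Ch) (m : Blk) (v : E3) (hv : ‖v‖ = 1) : Bd D.X (bt c m) :=
  mkRay (fun t => bt c (ex m (t • v))) (by simp [ex_zero]) (by
    intro s t _ _
    rw [dist_bt, dist_ex_smul, hv, mul_one])

theorem ev_rayB (c : D.G.Ch) (m : Blk) (v : E3) (hv : ‖v‖ = 1) {t : ℝ} (ht : 0 ≤ t) :
    ev (rayB c m v hv) t = bt c (ex m (t • v)) := by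
  unfold rayB
  rw [ev_mkRay _ _ _ ht]

theorem ext_of_hinge {o : D.X} {c : D.G.Ch} {b : Blk} (hb : (bt c b : D.X) ≠ o) {P : E3}
    (hP : ‖P‖ = dist (bt c b) o) (hP' : ∀ b', ‖lg b b' - P‖ ≤ dist (bt c b') o) :
    ∃ r : Bd D.X o, ∀ t : ℝ, 0 ≤ t →
      ev r (dist (bt c b) o + t) = bt c (ex b (-(t / dist (bt c b) o) • P)) := by
  obtain ⟨F, hF⟩ : ∃ F, F = dist (bt c b : D.X) o := ⟨_, rfl⟩
  have hF0 : 0 < F := hF ▸ dist_pos.mpr hb
  rw [← hF] at hP ⊢
  obtain ⟨g, g0, g1, hg⟩ := (cat0_X D).geod o (bt c b)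
  have hF' : dist o (bt c b : D.X) = F := by rw [dist_comm, hF]
  rw [hF'] at g1 hg
  -- the continuation
  obtain ⟨q, hq⟩ : ∃ q : ℝ → D.X, q = fun t => bt c (ex b (-((t - F) / F) • P)) := ⟨_, rfl⟩
  have hqq : ∀ s t : ℝ, dist (q s) (q t) = |s - t| := by
    intro s t
    rw [hq]
    simp only
    rw [dist_bt, dist_ex_smul, hP]
    have h1 : -((s - F) / F) - -((t - F) / F) = (t - s) / F := by
      field_simp
      ring
    rw [h1, abs_div, abs_of_pos hF0, div_mul_cancel₀ _ hF0.ne', abs_sub_comm]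
  have hqF : q F = bt c b := by
    rw [hq]
    simp [ex_zero]
  have hqo : ∀ t : ℝ, F ≤ t → dist (q t) o = t := by
    intro t ht
    apply le_antisymm
    · have h1 := dist_triangle (q t) (q F) o
      rw [hqq, hqF, ← hF, abs_of_nonneg (by linarith)] at h1
      linarith
    · have h1 := hP' (ex b (-((t - F) / F) • P))
      rw [lg_ex] at h1
      have h2 : -((t - F) / F) • P - P = -(t / F) • P := by
        have h3 : -(t / F) = -((t - F) / F) - 1 := by
          field_simp
          ring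
        rw [h3, sub_smul, one_smul]
      rw [h2, norm_smul, hP, norm_neg, Real.norm_of_nonneg (div_nonneg (by linarith) hF0.le),
        div_mul_cancel₀ _ hF0.ne'] at h1
      rw [hq]
      exact h1
  have hgo : ∀ s : ℝ, 0 ≤ s → s ≤ F → dist o (g s) = s := by
    intro s hs hsF
    have h1 := hg 0 ⟨le_rfl, hF0.le⟩ s ⟨hs, hsF⟩
    rw [g0, zero_sub, abs_neg, abs_of_nonneg hs] at h1
    exact h1
  have hmix : ∀ s t : ℝ, 0 ≤ s → s ≤ F → F ≤ t → dist (g s) (q t) = t - s := by
    intro s t hs hsF ht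
    apply le_antisymm
    · have h1 := dist_triangle (g s) (bt c b) (q t)
      have h2 := hg s ⟨hs, hsF⟩ F ⟨hF0.le, le_rfl⟩
      have h3 := hqq F t
      rw [hqF] at h3
      rw [g1] at h2
      rw [h2, h3, abs_sub_comm, abs_of_nonneg (by linarith), abs_sub_comm F t,
        abs_of_nonneg (by linarith)] at h1
      linarith
    · have h1 := dist_triangle_left (q t) o (g s)
      have h2 := dist_comm o (g s)
      rw [hqo t ht, ← h2, hgo s hs hsF] at h1
      linarith
  obtain ⟨f, hf⟩ : ∃ f : ℝ → D.X, f = fun t => if t ≤ F then g t else q t := ⟨_, rfl⟩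
  have hf0 : f 0 = o := by
    rw [hf]
    simp only [if_pos hF0.le]
    exact g0
  have hfd : ∀ s t : ℝ, 0 ≤ s → 0 ≤ t → dist (f s) (f t) = |s - t| := by
    intro s t hs ht
    rw [hf]
    simp only
    split_ifs with h1 h2 h2
    · exact hg s ⟨hs, h1⟩ t ⟨ht, h2⟩
    · rw [hmix s t hs h1 (not_le.1 h2).le, abs_sub_comm, abs_of_nonneg (by linarith)]
    · rw [dist_comm, hmix t s ht h2 (not_le.1 h1).le, abs_of_nonneg (by linarith)]
    · exact hqq s t
  refine ⟨mkRay f hf0 hfd, fun t ht => ?_⟩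
  rw [ev_mkRay _ _ _ (by linarith), hf]
  simp only
  split_ifs with h1
  · have h2 : t = 0 := by linarith
    rw [h2, add_zero, g1]
    simp [ex_zero]
  · rw [hq]
    simp only
    rw [add_sub_cancel_left]

theorem exists_ext {o : D.X} {c : D.G.Ch} {b : Blk} (hb : (bt c b : D.X) ≠ o) :
    ∃ r : Bd D.X o, ev r (dist (bt c b) o) = bt c b ∧
      ∀ t : ℝ, dist (bt c b) o ≤ t → ev r t ∈ range (bt c : Blk → D.X) := by
  obtain ⟨P, hP, hP'⟩ := hg_dist D c o b
  obtain ⟨r, hr⟩ := ext_of_hinge hb hP hP'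
  refine ⟨r, ?_, fun t ht => ?_⟩
  · have h := hr 0 le_rfl
    rw [add_zero] at h
    rw [h]
    simp [ex_zero]
  · have h := hr (t - dist (bt c b) o) (by linarith)
    rw [add_sub_cancel] at h
    rw [h]
    exact ⟨_, rfl⟩

theorem hinge_unique {o : D.X} {c : D.G.Ch} {b x : Blk} (hbx : b ≠ x)
    (h : dist (bt c b) o = dist (bt c x) o + dist b x) {P : E3}
    (hP : ‖P‖ = dist (bt c b) o) (hP' : ∀ b', ‖lg b b' - P‖ ≤ dist (bt c b') o) :
    P = (dist (bt c b) o / dist b x) • lg b x := by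
  have hd : 0 < dist b x := dist_pos.mpr hbx
  have hu : ‖lg b x‖ = dist b x := norm_lg b x
  have hu0 : lg b x ≠ 0 := by
    intro h0
    rw [h0, norm_zero] at hu
    linarith
  have h1 : ‖P - lg b x‖ ≤ ‖P‖ - ‖lg b x‖ := by
    rw [norm_sub_rev, hP, hu, h]
    have := hP' x
    linarith
  have h2 : ‖lg b x + (P - lg b x)‖ = ‖lg b x‖ + ‖P - lg b x‖ := by
    apply le_antisymm (norm_add_le _ _)
    rw [add_sub_cancel]
    linarith
  have h3 : SameRay ℝ (lg b x) (P - lg b x) := sameRay_iff_norm_add.mpr h2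
  obtain ⟨r, hr, hr'⟩ := h3.exists_nonneg_left hu0
  have h4 : P = (1 + r) • lg b x := by
    rw [add_smul, one_smul, hr', add_sub_cancel]
  have h5 : dist (bt c b : D.X) o = (1 + r) * dist b x := by
    rw [← hP, h4, norm_smul, hu, Real.norm_of_nonneg (by linarith)]
  rw [h5, mul_div_assoc, div_self hd.ne', mul_one]
  exact h4

end Pool.CBD
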