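import Pool.Agent.CBD.Hyp

/-!
# CBD: logarithm and exponential of the block, the base wall, the gluing map

`E3` is Euclidean 3-space; component 0 is the direction along the base line y = 0, component 1 the
direction normal to it, component 2 the vertical direction.
For `m : Blk`, `lg m : Blk → E3` is the inverse of the exponential map `ex m : E3 → Blk`.
The tangent frame of the hyperboloid at p = (X, Y, T) used here is
  f1 = (1 + X^2/(1+T), X Y/(1+T), X),   f2 = (X Y/(1+T), 1 + Y^2/(1+T), Y).
The base line is y = 0 and the base wall is `W0` = (base line) x R, with coordinates `wp s v`.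
-/

namespace Pool.CBD

open Real

abbrev E3 := EuclideanSpace ℝ (Fin 3)

/-- d / sinh d, extended by 1 at d = 0. -/
noncomputable def kd (d : ℝ) : ℝ := if d = 0 then 1 else d / Real.sinh d

/-- sinh r / r, extended by 1 at r = 0. -/
noncomputable def ks (r : ℝ) : ℝ := if r = 0 then 1 else Real.sinh r / r

namespace Hyp

/-- Lorentz product of q with the frame vector f1 at p. -/
noncomputable def c1 (p q : Hyp) : ℝ := q.x - p.x * (cc p q + q.t) / (1 + p.t)

/-- Lorentz product of q with the frame vector f2 at p. -/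
noncomputable def c2 (p q : Hyp) : ℝ := q.y - p.y * (cc p q + q.t) / (1 + p.t)

/-- the x coordinate of the exponential -/
noncomputable def exx (p : Hyp) (v0 v1 : ℝ) : ℝ :=
  Real.cosh (√(v0 ^ 2 + v1 ^ 2)) * p.x + ks (√(v0 ^ 2 + v1 ^ 2)) *
    (v0 * (1 + p.x ^ 2 / (1 + p.t)) + v1 * (p.x * p.y / (1 + p.t)))

/-- the y coordinate of the exponential -/
noncomputable def exy (p : Hyp) (v0 v1 : ℝ) : ℝ :=
  Real.cosh (√(v0 ^ 2 + v1 ^ 2)) * p.y + ks (√(v0 ^ 2 + v1 ^ 2)) *
    (v0 * (p.x * p.y / (1 + p.t)) + v1 * (1 + p.y ^ 2 / (1 + p.t)))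

/-- The exponential map of the hyperbolic plane at p in the frame f1, f2. -/
noncomputable def exH (p : Hyp) (v0 v1 : ℝ) : Hyp := of (exx p v0 v1) (exy p v0 v1)

end Hyp

/-- The logarithm of the block at m. -/
noncomputable def lg (m b : Blk) : E3 :=
  !₂[kd (dist m.h b.h) * Hyp.c1 m.h b.h, kd (dist m.h b.h) * Hyp.c2 m.h b.h, b.v - m.v]

/-- The exponential of the block at m. -/
noncomputable def ex (m : Blk) (w : E3) : Blk := ⟨Hyp.exH m.h (w 0) (w 1), m.v + w 2⟩

/-- The base wall. -/
def W0 : Set Blk := {b | b.h.y = 0}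

/-- Coordinates on the base wall. -/
noncomputable def wp (s v : ℝ) : Blk := ⟨Hyp.of (Real.sinh s) 0, v⟩

/-- A one-Lipschitz retraction of the block onto the base wall. -/
noncomputable def pr (b : Blk) : Blk := wp (Real.arsinh b.h.x) b.v

/-- The parameter of the example: co = cos(kappa) > 0 and si = sin(kappa) ≥ 0. -/
structure Par where
  co : ℝ
  si : ℝ
  sq : co ^ 2 + si ^ 2 = 1
  co_pos : 0 < co
  si_nn : 0 ≤ si

/-- The gluing isometry of the base wall: in the coordinates (s, v) it is the linear reflection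
with matrix ((-si, co), (co, si)), which exchanges (co, si) and (0, 1). It is extended to the
whole block through the coordinates (arsinh x, v), but only its values on `W0` matter. -/
noncomputable def io (P : Par) (b : Blk) : Blk :=
  wp (-P.si * Real.arsinh b.h.x + P.co * b.v) (P.co * Real.arsinh b.h.x + P.si * b.v)

/-- The linear reflection of `E3` which is the derivative of `io` on the wall directions and the
identity in the normal direction. -/
noncomputable def RR (P : Par) (w : E3) : E3 :=
  !₂[-P.si * w 0 + P.co * w 2, w 1, P.co * w 0 + P.si * w 2]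

theorem mem_W0 {b : Blk} : b ∈ W0 ↔ b.h.y = 0 := Iff.rfl

theorem wp_mem (s v : ℝ) : wp s v ∈ W0 := rfl

theorem pr_mem (b : Blk) : pr b ∈ W0 := rfl

theorem io_mem (P : Par) (b : Blk) : io P b ∈ W0 := rfl

theorem wp_eta {b : Blk} (hb : b ∈ W0) : wp (Real.arsinh b.h.x) b.v = b := by
  refine Blk.ext (Hyp.ext' ?_ ?_) rfl
  · exact Real.sinh_arsinh _
  · exact (mem_W0.mp hb).symm

theorem exists_wp {b : Blk} (hb : b ∈ W0) : ∃ s v, b = wp s v :=
  ⟨_, _, (wp_eta hb).symm⟩

theorem pr_of_mem {b : Blk} (hb : b ∈ W0) : pr b = b := wp_eta hb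

theorem io_wp (P : Par) (s v : ℝ) :
    io P (wp s v) = wp (-P.si * s + P.co * v) (P.co * s + P.si * v) := by
  unfold io
  rw [show (wp s v).h.x = Real.sinh s from rfl, Real.arsinh_sinh]
  rfl

theorem io_io (P : Par) {b : Blk} (hb : b ∈ W0) : io P (io P b) = b := by
  obtain ⟨s, v, rfl⟩ := exists_wp hb
  have h := P.sq
  rw [io_wp, io_wp]
  congr 1
  · linear_combination s * h
  · linear_combination v * h

theorem RR_RR (P : Par) (w : E3) : RR P (RR P w) = w := by
  have h := P.sq
  ext i
  fin_cases i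
  · simp [RR]; linear_combination (w 0) * h
  · simp [RR]
  · simp [RR]; linear_combination (w 2) * h

theorem norm_sq3 (w : E3) : ‖w‖ ^ 2 = w 0 ^ 2 + w 1 ^ 2 + w 2 ^ 2 := by
  rw [EuclideanSpace.norm_sq_eq, Fin.sum_univ_three]
  simp [sq_abs]

end Pool.CBD
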