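import Pool.Agent.CBD.PPL
import Pool.Agent.CBD.Geo

/-!
# CBD module PSP: the two separation facts on the 2-sphere

S2 is the unit sphere of E3.  e is a continuous injection of the compact set K into the circle.
`sphere_F`: if e is not onto then the complement of K is not the union of two disjoint nonempty
open sets.  `sphere_J`: the complement of K is not a union of three disjoint nonempty open sets.

PROOF.  Let N be a point of U0 (so N is not in K).  Stereographic projection from N is a
homeomorphism phi of S2 minus N onto the orthogonal complement of N in E3, a two dimensional real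
inner product space (Mathlib: `stereographic`, its source is {N}ᶜ, target univ; `stereographic'`
maps to EuclideanSpace ℝ (Fin 2) given `Fact (finrank ℝ E3 = 2 + 1)`), composed with a linear
homeomorphism to ℂ (`Complex.orthonormalBasisOneI.repr`, or any continuous linear equivalence).
Images: K' = phi(K) compact, U0' = phi(U0 minus N), U1' = phi(U1), (U2') are open, disjoint,
U0' ∪ U1' (∪ U2') = K'ᶜ.  U0' contains the complement of a large ball because U0 is a neighbourhood
of N (phi⁻¹ (z) → N as |z| → ∞, equivalently the complement of U0 is compact in S2 minus N, so its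
image is compact, hence bounded); so U1', U2' are bounded and U0' is nonempty.
Apply plane_F / plane_J with e' = e ∘ phi⁻¹ (extended arbitrarily).
-/

namespace Pool.CBD

open Real Set

abbrev S2 := Metric.sphere (0 : E3) 1

private theorem exists_unchart (N : S2) : ∃ g : ℂ → S2, Continuous g ∧ Function.Injective g ∧
    range g = {N}ᶜ ∧ ∀ C : Set S2, IsClosed C → N ∉ C → IsCompact (g ⁻¹' C) := by
  have : Fact (Module.finrank ℝ E3 = 2 + 1) := ⟨by simp⟩
  let L : ℂ ≃ₜ EuclideanSpace ℝ (Fin 2) := Complex.orthonormalBasisOneI.repr.toHomeomorph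
  let φ := stereographic' 2 N
  have hs : φ.source = {N}ᶜ := stereographic'_source N
  have ht : φ.target = univ := stereographic'_target N
  have hcs : Continuous (fun z : ℂ => φ.symm (L z)) := by
    have h1 : ContinuousOn φ.symm univ := by
      have := φ.continuousOn_symm
      rwa [ht] at this
    exact (continuousOn_univ.mp h1).comp L.continuous
  refine ⟨fun z => φ.symm (L z), hcs, ?_, ?_, ?_⟩
  · intro a b hab
    have hinj := φ.symm.injOn
    rw [φ.symm_source, ht] at hinj
    exact L.injective (hinj (mem_univ _) (mem_univ _) hab)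
  · ext x
    constructor
    · rintro ⟨z, rfl⟩
      rw [← hs]
      exact φ.map_target (by rw [ht]; trivial)
    · intro hx
      rw [← hs] at hx
      exact ⟨L.symm (φ x), by simp [φ.left_inv hx]⟩
  · intro C hC hN
    have hCs : C ⊆ φ.source := by
      rw [hs]
      intro x hx hxN
      rw [mem_singleton_iff] at hxN
      exact hN (hxN ▸ hx)
    have hCc : IsCompact C := hC.isCompact
    have h1 : IsCompact (φ '' C) := hCc.image_of_continuousOn (φ.continuousOn.mono hCs)
    have h2 : IsCompact (L.symm '' (φ '' C)) := h1.image L.symm.continuous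
    convert h2 using 1
    ext z
    constructor
    · intro hz
      refine ⟨L z, ⟨φ.symm (L z), hz, ?_⟩, by simp⟩
      exact φ.right_inv (by rw [ht]; trivial)
    · rintro ⟨w, ⟨x, hx, rfl⟩, rfl⟩
      show φ.symm (L (L.symm (φ x))) ∈ C
      rw [L.apply_symm_apply, φ.left_inv (hCs hx)]
      exact hx

private theorem not_compact_univ_c : ¬ IsCompact (univ : Set ℂ) := by
  intro h
  exact noncompact_univ ℂ h

theorem sphere_F (K U0 U1 : Set S2) (hK : IsCompact K) (h0 : IsOpen U0) (h1 : IsOpen U1)
    (n0 : U0.Nonempty) (n1 : U1.Nonempty) (hd : Disjoint U0 U1) (hu : U0 ∪ U1 = Kᶜ)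
    (e : S2 → Circle) (he : ContinuousOn e K) (hi : InjOn e K) (hns : e '' K ≠ univ) : False := by
  obtain ⟨N, hN⟩ := n0
  obtain ⟨g, gc, gi, gr, gk⟩ := exists_unchart N
  have hNK : N ∉ K := by
    have : N ∈ Kᶜ := hu ▸ Or.inl hN
    exact this
  have hKr : K ⊆ range g := by
    rw [gr]
    intro x hx hxN
    rw [mem_singleton_iff] at hxN
    exact hNK (hxN ▸ hx)
  have hN1 : N ∉ U1 := fun h => (Set.disjoint_left.mp hd) hN h
  have hcp := gk U0ᶜ h0.isClosed_compl (fun h => h hN)
  have n0' : (g ⁻¹' U0).Nonempty := by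
    by_contra hcon
    rw [Set.not_nonempty_iff_eq_empty] at hcon
    have : g ⁻¹' U0ᶜ = univ := by
      rw [preimage_compl, hcon, compl_empty]
    rw [this] at hcp
    exact not_compact_univ_c hcp
  have n1' : (g ⁻¹' U1).Nonempty := by
    obtain ⟨x, hx⟩ := n1
    have hxr : x ∈ range g := by
      rw [gr]
      intro hxN
      rw [mem_singleton_iff] at hxN
      exact hN1 (hxN ▸ hx)
    obtain ⟨z, hz⟩ := hxr
    exact ⟨z, by rw [mem_preimage, hz]; exact hx⟩
  refine plane_F (g ⁻¹' K) (g ⁻¹' U0) (g ⁻¹' U1) (gk K hK.isClosed hNK) (h0.preimage gc)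
    (h1.preimage gc) n0' n1' (hd.preimage g) ?_ ?_ (e ∘ g)
    (he.comp gc.continuousOn (fun _ h => h)) ?_ ?_
  · rw [← preimage_union, hu, preimage_compl]
  · refine hcp.isBounded.subset ?_
    intro z hz hz0
    exact (Set.disjoint_left.mp hd) hz0 hz
  · intro a ha b hb hab
    exact gi (hi ha hb hab)
  · rw [image_comp, image_preimage_eq_of_subset hKr]
    exact hns

theorem sphere_J (K U0 U1 U2 : Set S2) (hK : IsCompact K) (h0 : IsOpen U0) (h1 : IsOpen U1)
    (h2 : IsOpen U2) (n0 : U0.Nonempty) (n1 : U1.Nonempty) (n2 : U2.Nonempty)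
    (hd01 : Disjoint U0 U1) (hd02 : Disjoint U0 U2) (hd12 : Disjoint U1 U2)
    (hu : U0 ∪ U1 ∪ U2 = Kᶜ)
    (e : S2 → Circle) (he : ContinuousOn e K) (hi : InjOn e K) : False := by
  obtain ⟨N, hN⟩ := n0
  obtain ⟨g, gc, gi, gr, gk⟩ := exists_unchart N
  have hNK : N ∉ K := by
    have : N ∈ Kᶜ := hu ▸ Or.inl (Or.inl hN)
    exact this
  have hN1 : N ∉ U1 := fun h => (Set.disjoint_left.mp hd01) hN h
  have hN2 : N ∉ U2 := fun h => (Set.disjoint_left.mp hd02) hN h
  have hcp := gk U0ᶜ h0.isClosed_compl (fun h => h hN)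
  have n0' : (g ⁻¹' U0).Nonempty := by
    by_contra hcon
    rw [Set.not_nonempty_iff_eq_empty] at hcon
    have : g ⁻¹' U0ᶜ = univ := by
      rw [preimage_compl, hcon, compl_empty]
    rw [this] at hcp
    exact not_compact_univ_c hcp
  have hne : ∀ V : Set S2, V.Nonempty → N ∉ V → (g ⁻¹' V).Nonempty := by
    intro V hV hNV
    obtain ⟨x, hx⟩ := hV
    have hxr : x ∈ range g := by
      rw [gr]
      intro hxN
      rw [mem_singleton_iff] at hxN
      exact hNV (hxN ▸ hx)
    obtain ⟨z, hz⟩ := hxr
    exact ⟨z, by rw [mem_preimage, hz]; exact hx⟩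
  refine plane_J (g ⁻¹' K) (g ⁻¹' U0) (g ⁻¹' U1) (g ⁻¹' U2) (gk K hK.isClosed hNK)
    (h0.preimage gc) (h1.preimage gc) (h2.preimage gc) n0' (hne U1 n1 hN1) (hne U2 n2 hN2)
    (hd01.preimage g) (hd02.preimage g) (hd12.preimage g) ?_ ?_ ?_ (e ∘ g)
    (he.comp gc.continuousOn (fun _ h => h)) ?_
  · rw [← preimage_union, ← preimage_union, hu, preimage_compl]
  · refine hcp.isBounded.subset ?_
    intro z hz hz0
    exact (Set.disjoint_left.mp hd01) hz0 hz
  · refine hcp.isBounded.subset ?_
    intro z hz hz0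
    exact (Set.disjoint_left.mp hd02) hz0 hz
  · intro a ha b hb hab
    exact gi (hi ha hb hab)

end Pool.CBD
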