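import Pool.Agent.CBD.CDt
import Pool.Agent.CBD.EBC
import Pool.Agent.CBD.EID
import Pool.Agent.CBD.PSP
import Pool.Agent.CBD.DPR
import Pool.Agent.CBD.KCT
import Pool.Agent.CBD.KCV
import Pool.Agent.CBD.KRY

/-!
# CBD, part G: definitions

* `Sph o c`: the sphere of the block of the chart c in the boundary of D.X seen from o.
* `Cir o c`: the circle of the base wall of the chart c.
* `sph o c m v`: the point of the boundary seen from o given by the ray of the block of c which starts
  at the point with coordinate m in the direction v.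
* `IsWC C`: the topological characterisation of wall circles: C is homeomorphic to the circle and its
  complement is the disjoint union of three nonempty open sets.
* `IsPole z`: z is on at least two sets C with `IsWC C`.
* `QQ z`: the poles z' such that some wall circle contains z and z' and some wall circle contains z but
  not z'.
`IsWC`, `IsPole` and `QQ` are defined for every topological space.
-/

namespace Pool.CBD

open Real Set

section top

variable {Z : Type*} [TopologicalSpace Z]

/-- The topological characterisation of wall circles. -/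
def IsWC (C : Set Z) : Prop :=
  Nonempty (C ≃ₜ Circle) ∧ ∃ U0 U1 U2 : Set Z, IsOpen U0 ∧ IsOpen U1 ∧ IsOpen U2 ∧
    U0.Nonempty ∧ U1.Nonempty ∧ U2.Nonempty ∧ Disjoint U0 U1 ∧ Disjoint U0 U2 ∧ Disjoint U1 U2 ∧
    U0 ∪ U1 ∪ U2 = Cᶜ

/-- Points on at least two wall circles. -/
def IsPole (z : Z) : Prop := ∃ C C' : Set Z, IsWC C ∧ IsWC C' ∧ C ≠ C' ∧ z ∈ C ∧ z ∈ C'

/-- The poles z' such that some wall circle contains z and z' and some wall circle contains z but
not z'. -/
def QQ (z : Z) : Set Z :=
  {z' | IsPole z' ∧ (∃ C : Set Z, IsWC C ∧ z ∈ C ∧ z' ∈ C) ∧ ∃ C : Set Z, IsWC C ∧ z ∈ C ∧ z' ∉ C}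

end top

variable {K N : Type} [Group K] [MulAction K N] {D : CDat K N}

/-- The sphere of the block of a chart. -/
def Sph (o : D.X) (c : D.G.Ch) : Set (Bd D.X o) := bdS o (range (bt c : Blk → D.X))

/-- The circle of the base wall of a chart. -/
def Cir (o : D.X) (c : D.G.Ch) : Set (Bd D.X o) := bdS o ((bt c : Blk → D.X) '' W0)

theorem norm_S2 (v : S2) : ‖(v : E3)‖ = 1 := by
  have := v.2
  rwa [mem_sphere_zero_iff_norm] at this

/-- The point of the boundary seen from o given by the ray of the block of c which starts at m in the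
direction v. -/
noncomputable def sph (o : D.X) (c : D.G.Ch) (m : Blk) (v : S2) : Bd D.X o :=
  bc (cat0_X D) (bt c m) o (rayB c m v (norm_S2 v))

theorem asy_sph (o : D.X) (c : D.G.Ch) (m : Blk) (v : S2) :
    Asy (sph o c m v) (rayB c m v (norm_S2 v)) := bc_asy _ _ _ _

end Pool.CBD
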