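import Pool.Agent.CBD.GDF

/-!
# CBD, part G: the sides of a wall (definition)

`OnS c e d b`: the point with coordinate b in the chart d is in front of the base wall of c (not behind
it) and on the side e (e = 1 or e = -1) of this wall: either d is a chart of the block of c and the sign
of the coordinate y (in the chart c) is e, or d is behind another wall act k W0 of the block of c, and
this wall is on the side e.
-/

namespace Pool.CBD

open Real Set

variable {K N : Type} [Group K] [MulAction K N] {D : CDat K N}

/-- The point with coordinate b in the chart d is on the side e of the wall of c. -/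
def OnS (c : D.G.Ch) (e : ℝ) (d : D.G.Ch) (b : Blk) : Prop :=
  (∃ k : K, d = c.mul k ∧ 0 < e * (D.act k b).h.y) ∨
    ∃ k : K, k • D.a0 ≠ D.a0 ∧ Beh (c.mul k) d ∧ ∀ w ∈ W0, 0 < e * (D.act k w).h.y

end Pool.CBD
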