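import Pool.Agent.CBD.GDF

/-!
# CBD module GLF: compatible families as functions on the glued space

PROOF.  Choose for every x : XX D a pair (c, b) with x = bt c b (`exists_bt`, `choose`), and put
g x = F.f c b.  For every representation: |F.f c b - F.f c' b'| ≤ dist (bt c b) (bt c' b')
(`LipF.le_dist`) is 0 if the points are equal, so g (bt c b) = F.f c b; the same inequality says that
g is 1-Lipschitz, hence continuous (`LipschitzWith.of_dist_le_mul` or `Metric.continuous_iff`).
-/

namespace Pool.CBD

open Real Set

theorem LipF.desc {K N B : Type} [Group K] [MulAction K N] [MetricSpace B] {D : GDat K N B}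
    (F : LipF D) : ∃ g : XX D → ℝ, Continuous g ∧ (∀ x y, |g x - g y| ≤ dist x y) ∧
      ∀ (c : D.Ch) (b : B), g (bt c b) = F.f c b := by
  choose c b hcb using (exists_bt (D := D))
  have key : ∀ x y : XX D, |F.f (c x) (b x) - F.f (c y) (b y)| ≤ dist x y := by
    intro x y
    have h := F.le_dist (c x) (c y) (b x) (b y)
    rwa [← hcb x, ← hcb y] at h
  refine ⟨fun x => F.f (c x) (b x), ?_, key, ?_⟩
  · refine LipschitzWith.continuous (K := 1) (LipschitzWith.of_dist_le_mul fun x y => ?_)
    rw [NNReal.coe_one, one_mul, Real.dist_eq]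
    exact key x y
  · intro c' b'
    have h := F.le_dist (c (bt c' b')) c' (b (bt c' b')) b'
    rw [← hcb (bt c' b'), dist_self] at h
    exact sub_eq_zero.mp (abs_nonpos_iff.mp h)

end Pool.CBD
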