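import Pool.Agent.CBD.GPD
import Pool.Agent.CBD.GSA
import Pool.Agent.CBD.GCI

/-!
# CBD module GPA: vertical rays and poles

PROOFS.  `ex_up`: exH p 0 0 = p (`Hyp.ext'`; the square root is 0, cosh 0 = 1).
`sph_up`: the rays t ↦ bt c ⟨m.h, m.v + t s⟩ and t ↦ bt c ⟨m'.h, m'.v + t s⟩ are at constant distance
dist m m' (`dist_bt`, `Blk.dist_def`), so `Asy`; `asy_sph`, `Asy.trans`, `asy_unique`.
`pole_mul`: act k b = ⟨f b.h, b.v + a⟩ (`D.act_iso`), so act k (ex m (t up)) = ex (act k m) (t up), and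
bt (c.mul k) b = bt c (act k b) (`bt_mul`; D.G.act = D.act by definition): the rays of
`sph o (c.mul k) m (up s)` and `sph o c (act k m) (up s)` coincide pointwise, so they are Asy.
`pole_mem`: `Cir_eq` for c.mul k and `pole_mul`.  `pole_tf`: `sph_injective`, component 2.
-/

namespace Pool.CBD

open Real Set

variable {K N : Type} [Group K] [MulAction K N] {D : CDat K N}

theorem up_zero (s : Bool) : (up s : E3) 0 = 0 := by
  simp [up, wv]

theorem up_one (s : Bool) : (up s : E3) 1 = 0 := by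
  simp [up, wv]

theorem up_two (s : Bool) : (up s : E3) 2 = sn s := by
  simp [up, wv]

private theorem GPA_exH (p : Hyp) : Hyp.exH p 0 0 = p := by
  apply Hyp.ext'
  · change Hyp.exx p 0 0 = p.x
    simp [Hyp.exx]
  · change Hyp.exy p 0 0 = p.y
    simp [Hyp.exy]

theorem ex_up (m : Blk) (t : ℝ) (s : Bool) : ex m (t • (up s : E3)) = ⟨m.h, m.v + t * sn s⟩ := by
  unfold ex
  have h0 : (t • (up s : E3)) 0 = 0 := by
    change t * (up s : E3) 0 = 0
    rw [up_zero, mul_zero]
  have h1 : (t • (up s : E3)) 1 = 0 := by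
    change t * (up s : E3) 1 = 0
    rw [up_one, mul_zero]
  have h2 : (t • (up s : E3)) 2 = t * sn s := by
    change t * (up s : E3) 2 = t * sn s
    rw [up_two]
  rw [h0, h1, h2, GPA_exH]

theorem sph_up (o : D.X) (c : D.G.Ch) (m m' : Blk) (s : Bool) :
    sph o c m (up s) = sph o c m' (up s) := by
  apply asy_unique (cat0_X D)
  refine (asy_sph o c m (up s)).trans (Asy.trans ?_ (asy_sph o c m' (up s)).symm)
  refine ⟨dist m m', fun t ht => ?_⟩
  rw [ev_rayB _ _ _ _ ht, ev_rayB _ _ _ _ ht, dist_bt, ex_up, ex_up, Blk.dist_def, Blk.dist_def]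
  apply le_of_eq
  congr 2
  simp only
  ring

theorem pole_eq (o : D.X) (c : D.G.Ch) (m : Blk) (s : Bool) : pole o c s = sph o c m (up s) :=
  sph_up o c _ m s

theorem pole_mul (o : D.X) (c : D.G.Ch) (k : K) (s : Bool) :
    pole o (c.mul k) s = pole o c s := by
  rw [pole_eq o c (D.act k (wp 0 0)) s]
  apply asy_unique (cat0_X D)
  refine (asy_sph o (c.mul k) (wp 0 0) (up s)).trans
    (Asy.trans ?_ (asy_sph o c (D.act k (wp 0 0)) (up s)).symm)
  refine ⟨0, fun t ht => ?_⟩
  rw [ev_rayB _ _ _ _ ht, ev_rayB _ _ _ _ ht]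
  have h1 : (bt (c.mul k) (ex (wp 0 0) (t • (up s : E3))) : D.X) =
      bt c (ex (D.act k (wp 0 0)) (t • (up s : E3))) := by
    rw [bt_mul]
    have h2 : D.G.act k (ex (wp 0 0) (t • (up s : E3))) =
        D.act k (ex (wp 0 0) (t • (up s : E3))) := rfl
    rw [h2, ex_up, ex_up]
    obtain ⟨f, a, -, -, hF⟩ := D.act_iso k
    rw [hF, hF (wp 0 0)]
    congr 1
    apply Blk.ext
    · rfl
    · simp only
      ring
  exact le_of_eq (by rw [h1]; exact dist_self _)

theorem pole_mem (o : D.X) (c : D.G.Ch) (k : K) (s : Bool) : pole o c s ∈ Cir o (c.mul k) := by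
  rw [← pole_mul o c k s, Cir_eq o (c.mul k) (wp_mem 0 0)]
  exact ⟨up s, up_one s, rfl⟩

theorem pole_tf (o : D.X) (c : D.G.Ch) : pole o c true ≠ pole o c false := by
  intro h
  have h1 := sph_injective o c (wp 0 0) h
  have h2 : (up true : E3) 2 = (up false : E3) 2 := by rw [h1]
  rw [up_two, up_two] at h2
  norm_num [sn] at h2

end Pool.CBD
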