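import Pool.Agent.CBD.GPD

/-!
# CBD module GPB: change of chart inside a block, slopes

PROOFS.  `sph_mul`: `(D.act_iso k).lg_map m` gives A with act k (ex m w) = ex (act k m) (A w) and
(A w) 2 = w 2; v' = A v (norm 1).  With `bt_mul` (D.G.act = D.act by definition) the rays of the two
sides coincide pointwise, so they are Asy; `asy_sph`, `Asy.trans`, `asy_unique`.
`slope_unique`: the rays rayB c m v and rayB c m' v' are asymptotic (`asy_sph` for both sides), so
dist (ex m (t v)) (ex m' (t v')) ≤ C for t ≥ 0 (`ev_rayB`, `dist_bt`), and the vertical coordinates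
m.v + t v 2 and m'.v + t v' 2 differ at most by this distance (`Blk.dist_sq`): so v 2 = v' 2.
-/

namespace Pool.CBD

open Real Set

variable {K N : Type} [Group K] [MulAction K N] {D : CDat K N}

theorem sph_mul (o : D.X) (c : D.G.Ch) (k : K) (m : Blk) (v : S2) :
    ∃ v' : S2, (v' : E3) 2 = (v : E3) 2 ∧ sph o (c.mul k) m v = sph o c (D.act k m) v' := by
  obtain ⟨A, -, hA, hA2⟩ := (D.act_iso k).lg_map m
  have hn : ‖A (v : E3)‖ = 1 := by rw [A.norm_map]; exact norm_S2 v
  refine ⟨⟨A (v : E3), mem_sphere_zero_iff_norm.2 hn⟩, hA2 _, ?_⟩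
  apply asy_unique (cat0_X D)
  refine (asy_sph o (c.mul k) m v).trans (Asy.trans ?_ (asy_sph o c (D.act k m) _).symm)
  refine ⟨0, fun t ht => ?_⟩
  rw [ev_rayB _ _ _ _ ht, ev_rayB _ _ _ _ ht]
  have h1 : (bt (c.mul k) (ex m (t • (v : E3))) : D.X) =
      bt c (ex (D.act k m) (t • A (v : E3))) := by
    rw [bt_mul]
    have h2 : D.G.act k (ex m (t • (v : E3))) = D.act k (ex m (t • (v : E3))) := rfl
    rw [h2, hA, map_smul]
  exact le_of_eq (by rw [h1]; exact dist_self _)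

theorem slope_unique {o : D.X} {c : D.G.Ch} {m m' : Blk} {v v' : S2}
    (h : sph o c m v = sph o c m' v') : (v : E3) 2 = (v' : E3) 2 := by
  have h1 : Asy (rayB c m (v : E3) (norm_S2 v)) (rayB c m' (v' : E3) (norm_S2 v')) := by
    refine (asy_sph o c m v).symm.trans ?_
    rw [h]
    exact asy_sph o c m' v'
  obtain ⟨C, hC⟩ := h1
  have h2 : ∀ t : ℝ, 0 ≤ t → |(m.v + t * (v : E3) 2) - (m'.v + t * (v' : E3) 2)| ≤ C := by
    intro t ht
    have h3 := hC t ht
    rw [ev_rayB _ _ _ _ ht, ev_rayB _ _ _ _ ht, dist_bt] at h3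
    refine le_trans ?_ h3
    have h4 := Blk.dist_sq (ex m (t • (v : E3))) (ex m' (t • (v' : E3)))
    have h5 : (ex m (t • (v : E3))).v = m.v + t * (v : E3) 2 := rfl
    have h6 : (ex m' (t • (v' : E3))).v = m'.v + t * (v' : E3) 2 := rfl
    rw [h5, h6] at h4
    refine abs_le_of_sq_le_sq ?_ dist_nonneg
    rw [h4]
    nlinarith [sq_nonneg (dist (ex m (t • (v : E3))).h (ex m' (t • (v' : E3))).h)]
  by_contra hne
  have hd : 0 < |(v : E3) 2 - (v' : E3) 2| := abs_pos.2 (sub_ne_zero.2 hne)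
  have hC0 : 0 ≤ C := (abs_nonneg _).trans (h2 0 le_rfl)
  set t := (C + |m.v - m'.v| + 1) / |(v : E3) 2 - (v' : E3) 2| with ht
  have ht0 : 0 ≤ t := by positivity
  have h7 := h2 t ht0
  have h8 : t * |(v : E3) 2 - (v' : E3) 2| = C + |m.v - m'.v| + 1 := by
    rw [ht]; field_simp
  have h9 : |t * ((v : E3) 2 - (v' : E3) 2)| = C + |m.v - m'.v| + 1 := by
    rw [abs_mul, abs_of_nonneg ht0, h8]
  have h10 : t * ((v : E3) 2 - (v' : E3) 2) =
      ((m.v + t * (v : E3) 2) - (m'.v + t * (v' : E3) 2)) - (m.v - m'.v) := by ring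
  have h11 : |t * ((v : E3) 2 - (v' : E3) 2)| ≤ C + |m.v - m'.v| := by
    rw [h10]
    exact (abs_sub _ _).trans (by linarith)
  linarith

end Pool.CBD
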