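import Pool.Agent.CBD.GPA

/-!
# CBD module GPC: the wall seen from the two blocks

PROOFS.  `sph_io`: for t: ex (io m) (t RR v) = io (ex m (t v)) (`io_ex`, RR (t v) = t RR v by
components), ex m (t v) is in W0 (`ex_mem_W0`), and bt c.flip (io w) = bt c w (`bt_flip`; D.G.io = io D.P
by definition).  So the rays of both sides coincide pointwise; Asy; `asy_unique`.
`RS_dg`: RR (co s, 0, si s) = (0, 0, s) by `Par.sq`.
`pole_flip`: pole o c.flip s = sph o c.flip (io m) (up s) (`pole_eq`) = sph o c.flip (io m) (RS (dg s)) =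
sph o c m (dg s) (`sph_io`).
`pole_ne_flip`: with m = wp 0 0: `pole_eq`, `pole_flip`, `sph_injective`: up s = dg s', but the component 0
of dg s' is co * (±1) ≠ 0.
-/

namespace Pool.CBD

open Real Set

variable {K N : Type} [Group K] [MulAction K N] {D : CDat K N}

private lemma gpc_RR_smul (P : Par) (t : ℝ) (w : E3) : RR P (t • w) = t • RR P w := by
  ext i
  fin_cases i
  · simp [RR]
    ring
  · simp [RR]
  · simp [RR]
    ring

theorem sph_io (o : D.X) (c : D.G.Ch) {m : Blk} (hm : m ∈ W0) {v : S2} (hv : (v : E3) 1 = 0) :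
    sph o c.flip (io D.P m) (RS D.P v) = sph o c m v := by
  apply sph_eq_of_asy
  refine (asy_sph o c.flip (io D.P m) (RS D.P v)).trans ⟨0, ?_⟩
  intro t ht
  rw [ev_rayB _ _ _ _ ht, ev_rayB _ _ _ _ ht]
  have h1 : ((t • (v : E3)) : E3) 1 = 0 := by
    simp [hv]
  have h2 : ex (io D.P m) (t • ((RS D.P v : S2) : E3)) = io D.P (ex m (t • (v : E3))) := by
    rw [io_ex D.P hm h1, gpc_RR_smul]
    rfl
  have h3 : (bt c.flip (io D.P (ex m (t • (v : E3)))) : D.X) = bt c (ex m (t • (v : E3))) :=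
    bt_flip c (ex_mem_W0 hm h1)
  rw [h2, h3, dist_self]

theorem dg_zero (P : Par) (s : Bool) : (dg P s : E3) 0 = P.co * sn s := by
  simp [dg, wv]

theorem dg_one (P : Par) (s : Bool) : (dg P s : E3) 1 = 0 := by
  simp [dg, wv]

theorem dg_two (P : Par) (s : Bool) : (dg P s : E3) 2 = P.si * sn s := by
  simp [dg, wv]

theorem RS_dg (P : Par) (s : Bool) : RS P (dg P s) = up s := by
  apply Subtype.ext
  ext i
  have h0 := dg_zero P s
  have h1 := dg_one P s
  have h2 := dg_two P s
  have hs := P.sq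
  show (RR P (dg P s : E3)) i = (up s : E3) i
  fin_cases i
  · have : (RR P (dg P s : E3)) 0 = -P.si * (dg P s : E3) 0 + P.co * (dg P s : E3) 2 := by
      simp [RR]
    simp only [Fin.zero_eta, Fin.isValue]
    rw [this, up_zero, h0, h2]
    ring
  · have : (RR P (dg P s : E3)) 1 = (dg P s : E3) 1 := by
      simp [RR]
    simp only [Fin.mk_one, Fin.isValue]
    rw [this, up_one, h1]
  · have : (RR P (dg P s : E3)) 2 = P.co * (dg P s : E3) 0 + P.si * (dg P s : E3) 2 := by
      simp [RR]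
    simp only [Fin.reduceFinMk, Fin.isValue]
    rw [this, up_two, h0, h2]
    linear_combination (sn s) * hs

theorem pole_flip (o : D.X) (c : D.G.Ch) {m : Blk} (hm : m ∈ W0) (s : Bool) :
    pole o c.flip s = sph o c m (dg D.P s) := by
  rw [pole_eq o c.flip (io D.P m) s, ← RS_dg D.P s, sph_io o c hm (dg_one D.P s)]

theorem pole_ne_flip (o : D.X) (c : D.G.Ch) (s s' : Bool) : pole o c s ≠ pole o c.flip s' := by
  intro h
  rw [pole_eq o c (wp 0 0) s, pole_flip o c (wp_mem 0 0) s'] at h
  have h1 := sph_injective o c (wp 0 0) h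
  have h2 : (up s : E3) 0 = (dg D.P s' : E3) 0 := by rw [h1]
  rw [up_zero, dg_zero] at h2
  have h3 : D.P.co ≠ 0 := D.P.co_pos.ne'
  have h4 : sn s' ≠ 0 := by
    have := sn_sq s'
    intro h5
    rw [h5] at this
    norm_num at this
  exact mul_ne_zero h3 h4 h2.symm

end Pool.CBD
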