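import Pool.Agent.CBD.GDF

/-!
# CBD: poles (definitions for the modules GP*, GQ*)

`wv a b h` is the unit vector (a, 0, b) tangent to the base wall, `up s` the vertical unit vector
(0, 0, ±1), `pole o c s` the pole of the block of c.
`dg P s` is the unit vector (co s, 0, si s), `RS P v` is the reflection `RR P` on unit vectors.
`SW c d`: the charts c and d have the same base wall.
-/

namespace Pool.CBD

open Real Set

variable {K N : Type} [Group K] [MulAction K N] {D : CDat K N}

/-- ±1 -/
def sn (s : Bool) : ℝ := if s then 1 else -1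

theorem sn_sq (s : Bool) : sn s ^ 2 = 1 := by
  cases s <;> norm_num [sn]

/-- Unit vectors tangent to the base wall. -/
noncomputable def wv (a b : ℝ) (h : a ^ 2 + b ^ 2 = 1) : S2 :=
  ⟨!₂[a, 0, b], by
    rw [mem_sphere_zero_iff_norm]
    have h1 := norm_sq3 !₂[a, 0, b]
    have h2 : ‖(!₂[a, 0, b] : E3)‖ ^ 2 = 1 := by
      rw [h1]
      simp
      linarith
    have h3 := norm_nonneg (!₂[a, 0, b] : E3)
    nlinarith⟩

/-- The vertical unit vectors. -/
noncomputable def up (s : Bool) : S2 := wv 0 (sn s) (by rw [sn_sq]; norm_num)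

/-- The directions of the poles of the neighbouring block, seen in the base wall. -/
noncomputable def dg (P : Par) (s : Bool) : S2 :=
  wv (P.co * sn s) (P.si * sn s) (by
    have h1 := sn_sq s
    have h2 := P.sq
    linear_combination (P.co ^ 2 + P.si ^ 2) * h1 + h2)

/-- The poles of the block of c. -/
noncomputable def pole (o : D.X) (c : D.G.Ch) (s : Bool) : Bd D.X o := sph o c (wp 0 0) (up s)

/-- The reflection of the wall directions on unit vectors. -/
noncomputable def RS (P : Par) (v : S2) : S2 :=
  ⟨RR P v.1, by
    rw [mem_sphere_zero_iff_norm, norm_RR]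
    exact mem_sphere_zero_iff_norm.mp v.2⟩

/-- The charts c and d have the same base wall. -/
def SW (c d : D.G.Ch) : Prop := ∃ k, k • D.a0 = D.a0 ∧ (d = c.mul k ∨ d = c.flip.mul k)

end Pool.CBD
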