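import Pool.Agent.CBD.GPA

/-!
# CBD module GPE: two walls of one block

PROOFS.  `not_mem_two`: suppose the class is in Cir o (c.mul k).  By `mem_bdS_of_asy` (`asy_sph`) there is C
with infDist (bt c (ex m (t v))) (bt (c.mul k) '' W0) ≤ C for all t ≥ 0.  m = wp s0 h0 (`exists_wp`),
v = (v 0, 0, v 2), so ex m (t v) = wp (s0 + t v 0) (h0 + t v 2) (`ex_wp`).  There is w in W0 with
dist (bt c (ex m (t v))) (bt (c.mul k) w) < C + 1 (`Metric.infDist_lt_iff`); bt (c.mul k) w = bt c (act k w)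
(`bt_mul`), so dist (ex m (t v)) (act k w) < C + 1 (`dist_bt`), the same for the distance of the h-components.
With u from `D.line k hk`: lo u (act k w).h = 0, so |lo u (ex m (t v)).h| ≤ sinh (C + 1) (`lo_le`,
monotonicity of sinh), and c0 cosh (s0 + t v 0) ≤ |lo u (Hyp.of (sinh (s0 + t v 0)) 0)| (`lo_unbdd`).
For t large this is impossible since v 0 ≠ 0.
`two_walls`: by `Cir_eq` z = sph o c (wp 0 0) v with v 1 = 0; v 0 = 0 by `not_mem_two`, so v 2 = ±1 (norm 1)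
and v = up s; `pole_eq`.
`Cir_ne`: the point sph o c (wp 0 0) (wv 1 0 _) is in Cir o c and not in Cir o (c.mul k).
-/

namespace Pool.CBD

open Real Set

variable {K N : Type} [Group K] [MulAction K N] {D : CDat K N}

private theorem dist_h_le (b b' : Blk) : dist b.h b'.h ≤ dist b b' := by
  have h2 := Blk.dist_sq b b'
  have h3 : dist b.h b'.h ^ 2 ≤ dist b b' ^ 2 := by
    rw [h2]
    nlinarith [sq_nonneg (b.v - b'.v)]
  exact (abs_le_of_sq_le_sq' h3 dist_nonneg).2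

private theorem smul_wall {v : S2} (h1 : (v : E3) 1 = 0) (t : ℝ) :
    t • (v : E3) = !₂[t * (v : E3) 0, 0, t * (v : E3) 2] := by
  ext i
  fin_cases i
  · simp
  · simp [h1]
  · simp

theorem not_mem_two (o : D.X) (c : D.G.Ch) {k : K} (hk : k • D.a0 ≠ D.a0) {m : Blk} (hm : m ∈ W0)
    {v : S2} (h1 : (v : E3) 1 = 0) (h0 : (v : E3) 0 ≠ 0) : sph o c m v ∉ Cir o (c.mul k) := by
  intro hmem
  have hmem' := (mem_bdS_of_asy (asy_sph o c m v)).mp hmem
  obtain ⟨C, hC⟩ := hmem'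
  obtain ⟨s0, v0, rfl⟩ := exists_wp hm
  obtain ⟨u, hu, h3, hl⟩ := D.line k hk
  obtain ⟨c0, hc0, hcosh⟩ := lo_unbdd hu h3
  -- for all t ≥ 0: c0 * cosh (s0 + t v 0) ≤ sinh (C + 1)
  have key : ∀ t : ℝ, 0 ≤ t → c0 * Real.cosh (s0 + t * (v : E3) 0) ≤ Real.sinh (C + 1) := by
    intro t ht
    have h4 := hC t ht
    rw [ev_rayB c _ _ _ ht] at h4
    have h5 : Metric.infDist (bt c (ex (wp s0 v0) (t • (v : E3))) : D.X)
        ((bt (c.mul k) : Blk → D.X) '' W0) < C + 1 := by linarith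
    have hne : ((bt (c.mul k) : Blk → D.X) '' W0).Nonempty :=
      ⟨_, wp 0 0, wp_mem 0 0, rfl⟩
    obtain ⟨y, ⟨w, hw, rfl⟩, hy⟩ := (Metric.infDist_lt_iff hne).mp h5
    rw [bt_mul, dist_bt] at hy
    have h6 : lo u (D.act k w).h = 0 := (hl _).mp ⟨w, hw, rfl⟩
    have h7 := lo_le hu (h := (ex (wp s0 v0) (t • (v : E3))).h) h6
    have h8 : dist (ex (wp s0 v0) (t • (v : E3))).h (D.act k w).h ≤ C + 1 :=
      (dist_h_le _ _).trans hy.le
    have h9 := Real.sinh_le_sinh.mpr h8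
    rw [smul_wall h1, ex_wp] at h7 h9
    exact (hcosh _).trans (h7.trans h9)
  have hlt : ∀ x : ℝ, |x| ≤ Real.cosh x := by
    intro x
    rw [← Real.cosh_abs]
    exact (Real.self_le_sinh_iff.mpr (abs_nonneg x)).trans (Real.sinh_lt_cosh _).le
  have hv0 : 0 < |(v : E3) 0| := abs_pos.mpr h0
  set M := Real.sinh (C + 1) / c0 with hM
  have hb : ∀ t : ℝ, 0 ≤ t → |s0 + t * (v : E3) 0| ≤ M := by
    intro t ht
    rw [hM, le_div_iff₀ hc0, mul_comm]
    exact (mul_le_mul_of_nonneg_left (hlt _) hc0.le).trans (key t ht)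
  have hM0 : 0 ≤ M := (abs_nonneg _).trans (hb 0 le_rfl)
  have h10 := hb ((M + |s0| + 1) / |(v : E3) 0|) (by positivity)
  have h11 : |(M + |s0| + 1) / |(v : E3) 0| * (v : E3) 0| = M + |s0| + 1 := by
    rw [abs_mul, abs_div, abs_abs, abs_of_nonneg (by positivity : 0 ≤ M + |s0| + 1)]
    field_simp
  have h12 := abs_sub_abs_le_abs_sub ((M + |s0| + 1) / |(v : E3) 0| * (v : E3) 0) (-s0)
  rw [h11, abs_neg, sub_neg_eq_add, add_comm _ s0] at h12
  linarith

theorem two_walls {o : D.X} {c : D.G.Ch} {k : K} (hk : k • D.a0 ≠ D.a0) {z : Bd D.X o}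
    (h : z ∈ Cir o c) (h' : z ∈ Cir o (c.mul k)) : ∃ s, z = pole o c s := by
  rw [Cir_eq o c (wp_mem 0 0)] at h
  obtain ⟨v, hv, rfl⟩ := h
  have hv1 : (v : E3) 1 = 0 := hv
  have hv0 : (v : E3) 0 = 0 := by
    by_contra h0
    exact not_mem_two o c hk (wp_mem 0 0) hv1 h0 h'
  have hn := norm_sq3 (v : E3)
  rw [norm_S2, hv1, hv0] at hn
  have h2 : (v : E3) 2 = 1 ∨ (v : E3) 2 = -1 := by
    have : ((v : E3) 2) ^ 2 = 1 := by linarith
    rcases mul_eq_zero.mp (show ((v : E3) 2 - 1) * ((v : E3) 2 + 1) = 0 by linear_combination this) with h | h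
    · left; linarith
    · right; linarith
  rcases h2 with h2 | h2
  · refine ⟨true, ?_⟩
    rw [pole_eq o c (wp 0 0)]
    congr 1
    apply Subtype.ext
    ext i
    fin_cases i
    · simp [hv0, up_zero]
    · simp [hv1, up_one]
    · simp [h2, up_two, sn]
  · refine ⟨false, ?_⟩
    rw [pole_eq o c (wp 0 0)]
    congr 1
    apply Subtype.ext
    ext i
    fin_cases i
    · simp [hv0, up_zero]
    · simp [hv1, up_one]
    · simp [h2, up_two, sn]

theorem Cir_ne (o : D.X) (c : D.G.Ch) {k : K} (hk : k • D.a0 ≠ D.a0) :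
    Cir o c ≠ Cir o (c.mul k) := by
  intro h
  have h1 : ((wv 1 0 (by norm_num) : S2) : E3) 1 = 0 := by simp [wv]
  have h0 : ((wv 1 0 (by norm_num) : S2) : E3) 0 ≠ 0 := by simp [wv]
  have h2 := not_mem_two o c hk (wp_mem 0 0) h1 h0
  rw [← h, Cir_eq o c (wp_mem 0 0)] at h2
  exact h2 ⟨_, h1, rfl⟩

end Pool.CBD
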