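import Pool.Agent.CBD.GDF

/-!
# CBD module GSC: elementary facts about Sph and Cir

PROOFS.  `bdS_mono`: `Metric.infDist_le_infDist_of_subset` (the smaller set is nonempty).
`range_bt_mul`: `bt_mul` and act k is surjective (`GDat.act_act_inv`: act k (act k⁻¹ b) = b).
`wall_mul`: `bt_mul`, `D.G.act_W k hk` for ⊆, and for ⊇ use w = act k (act k⁻¹ w) where k⁻¹ also fixes
a0 (`inv_smul_eq_iff`).
`wall_flip`: `bt_flip` (bt c.flip (io w) = bt c w for w in W0), `io_mem`, `io_io`.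
Then Sph_mul, Cir_mul, Cir_flip by rewriting the sets, and Cir_subset_Sph by `bdS_mono`
(bt c '' W0 ⊆ range (bt c), nonempty: wp 0 0 ∈ W0 by `wp_mem`).
Note that D.G.act = D.act, D.G.W = W0, D.G.io = io D.P hold by definition.
-/

namespace Pool.CBD

open Real Set

theorem bdS_mono {X : Type*} [MetricSpace X] {S S' : Set X} (h : S ⊆ S') (hn : S.Nonempty) (o : X) :
    bdS o S ⊆ bdS o S' := by
  rintro r ⟨C, hC⟩
  exact ⟨C, fun t ht => (Metric.infDist_le_infDist_of_subset h hn).trans (hC t ht)⟩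

variable {K N : Type} [Group K] [MulAction K N] {D : CDat K N}

theorem range_bt_mul (c : D.G.Ch) (k : K) :
    range (bt (c.mul k) : Blk → D.X) = range (bt c : Blk → D.X) := by
  ext x
  constructor
  · rintro ⟨b, rfl⟩
    exact ⟨D.G.act k b, (bt_mul c k b).symm⟩
  · rintro ⟨b, rfl⟩
    refine ⟨D.G.act k⁻¹ b, ?_⟩
    rw [bt_mul, GDat.act_act_inv]

theorem wall_mul (c : D.G.Ch) {k : K} (hk : k • D.a0 = D.a0) :
    (bt (c.mul k) : Blk → D.X) '' W0 = (bt c : Blk → D.X) '' W0 := by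
  ext x
  constructor
  · rintro ⟨b, hb, rfl⟩
    exact ⟨D.G.act k b, D.G.act_W k hk b hb, (bt_mul c k b).symm⟩
  · rintro ⟨b, hb, rfl⟩
    have hk' : k⁻¹ • D.a0 = D.a0 := by rw [inv_smul_eq_iff, hk]
    refine ⟨D.G.act k⁻¹ b, D.G.act_W k⁻¹ hk' b hb, ?_⟩
    rw [bt_mul, GDat.act_act_inv]

theorem wall_flip (c : D.G.Ch) : (bt c.flip : Blk → D.X) '' W0 = (bt c : Blk → D.X) '' W0 := by
  ext x
  constructor
  · rintro ⟨b, hb, rfl⟩
    refine ⟨io D.P b, io_mem D.P b, ?_⟩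
    have h1 : (bt c.flip (io D.P (io D.P b)) : D.X) = bt c (io D.P b) := bt_flip c (io_mem D.P b)
    rw [← h1, io_io D.P hb]
  · rintro ⟨b, hb, rfl⟩
    exact ⟨io D.P b, io_mem D.P b, bt_flip c hb⟩

theorem wall_nonempty (c : D.G.Ch) : ((bt c : Blk → D.X) '' W0).Nonempty :=
  ⟨_, wp 0 0, wp_mem 0 0, rfl⟩

theorem Sph_mul (o : D.X) (c : D.G.Ch) (k : K) : Sph o (c.mul k) = Sph o c := by
  unfold Sph
  rw [range_bt_mul]

theorem Cir_mul (o : D.X) (c : D.G.Ch) {k : K} (hk : k • D.a0 = D.a0) :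
    Cir o (c.mul k) = Cir o c := by
  unfold Cir
  rw [wall_mul c hk]

theorem Cir_flip (o : D.X) (c : D.G.Ch) : Cir o c.flip = Cir o c := by
  unfold Cir
  rw [wall_flip]

theorem Cir_subset_Sph (o : D.X) (c : D.G.Ch) : Cir o c ⊆ Sph o c :=
  bdS_mono (image_subset_range _ _) (wall_nonempty c) o

end Pool.CBD
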