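import Pool.Agent.CBD.GPC
import Pool.Agent.CBD.GPE
import Pool.Agent.CBD.GSC
import Pool.Agent.CBD.GIN
import Pool.Agent.CBD.CBH

/-!
# CBD module GPF: intersection of two wall circles

PROOFS.  SW: `Ch.mul_mul`, `Ch.mul_one`, `Ch.flip_flip`, `Ch.flip_mul`, `D.sg_mem`.
`SW.symm`: d = c.mul k: c = d.mul k⁻¹.  d = c.flip.mul k: d.flip = c.mul (sg k), so c = d.flip.mul (sg k)⁻¹.
`SW.cir`: `Cir_mul`, `Cir_flip`.  `pole_sw`: `pole_mul`.
`walls_meet0`: the block of d is not behind the base wall of c.  By `tri`: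
(a) d = c.mul k: k a0 ≠ a0 (otherwise SW c d), z = pole o c s by `two_walls`, SW d d.
(b) Beh (c.mul k) d: k a0 ≠ a0 (otherwise Beh c d, `beh_mul_left`).  z is in Sph o (c.mul k) = Sph o c
(`Sph_mul`, `Cir_subset_Sph`) and in Sph o d, so in Cir o (c.mul k) (`Sph_inter`), so z = pole o c s
(`two_walls`).  Let e = (c.mul k).flip; z is in Cir o e = Cir o (c.mul k).  By `tri` for e and d:
(b1) d = e.mul j.  If j a0 = a0 then SW (c.mul k) d, hence SW d (c.mul k): done.  Otherwise z = pole o e s'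
(`two_walls`) = pole o c s = pole o (c.mul k) s: contradiction to `pole_ne_flip` for c.mul k.
(b2) Beh (e.mul j) d: j a0 ≠ a0 (otherwise Beh e d, but `beh_flip_left` says ¬ Beh e d).  As before
z is in Cir o (e.mul j) (`Sph_inter`), so z = pole o e s' : contradiction as in (b1).
`walls_meet`: if Beh c d apply `walls_meet0` to c.flip (`beh_flip_left`, `Cir_flip`, and SW c.flip d implies
SW c d).
-/

namespace Pool.CBD

open Real Set

variable {K N : Type} [Group K] [MulAction K N] {D : CDat K N}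

theorem SW.refl (c : D.G.Ch) : SW c c :=
  ⟨1, one_smul _ _, Or.inl (Ch.mul_one c).symm⟩

theorem SW.symm {c d : D.G.Ch} (h : SW c d) : SW d c := by
  obtain ⟨k, hk, rfl | rfl⟩ := h
  · refine ⟨k⁻¹, inv_smul_eq_iff.mpr hk.symm, Or.inl ?_⟩
    rw [Ch.mul_mul, mul_inv_cancel, Ch.mul_one]
  · have h1 : D.sg k • D.a0 = D.a0 := D.sg_mem k hk
    refine ⟨(D.sg k)⁻¹, inv_smul_eq_iff.mpr h1.symm, Or.inr ?_⟩
    have h2 : (c.flip.mul k).flip = c.mul (D.sg k) := by
      have := Ch.flip_mul c.flip (k := k) hk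
      rw [Ch.flip_flip] at this
      exact this
    rw [h2, Ch.mul_mul, mul_inv_cancel, Ch.mul_one]

theorem SW.of_flip {c d : D.G.Ch} (h : SW c.flip d) : SW c d := by
  obtain ⟨k, hk, h | h⟩ := h
  · exact ⟨k, hk, Or.inr h⟩
  · rw [Ch.flip_flip] at h
    exact ⟨k, hk, Or.inl h⟩

theorem SW.cir (o : D.X) {c d : D.G.Ch} (h : SW c d) : Cir o d = Cir o c := by
  obtain ⟨k, hk, rfl | rfl⟩ := h
  · exact Cir_mul o c hk
  · rw [Cir_mul o c.flip hk, Cir_flip]

theorem pole_sw (o : D.X) {c d : D.G.Ch} (h : SW c d) (s : Bool) :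
    pole o d s = pole o c s ∨ pole o d s = pole o c.flip s := by
  obtain ⟨k, _, rfl | rfl⟩ := h
  · exact Or.inl (pole_mul o c k s)
  · exact Or.inr (pole_mul o c.flip k s)

theorem walls_meet0 {o : D.X} {c d : D.G.Ch} {z : Bd D.X o} (hc : z ∈ Cir o c) (hd : z ∈ Cir o d)
    (h1 : ¬ Beh c d) (hn : ¬ SW c d) : ∃ (k : K) (s : Bool), SW d (c.mul k) ∧ z = pole o c s := by
  rcases tri c d with ⟨k, rfl⟩ | ⟨k, hk⟩
  · have hk0 : k • D.a0 ≠ D.a0 := fun h => hn ⟨k, h, Or.inl rfl⟩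
    obtain ⟨s, hs⟩ := two_walls hk0 hc hd
    exact ⟨k, s, SW.refl _, hs⟩
  · have hk0 : k • D.a0 ≠ D.a0 := fun h => h1 ((beh_mul_left c d h).mp hk)
    have hzd : z ∈ Sph o d := Cir_subset_Sph o d hd
    have hz1 : z ∈ Cir o (c.mul k) := by
      apply Sph_inter o hk
      refine ⟨?_, hzd⟩
      rw [Sph_mul]
      exact Cir_subset_Sph o c hc
    obtain ⟨s, hs⟩ := two_walls hk0 hc hz1
    have hze : z ∈ Cir o (c.mul k).flip := by
      rw [Cir_flip]
      exact hz1
    have hcon : ∀ s' : Bool, z ≠ pole o (c.mul k).flip s' := by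
      intro s' h
      apply pole_ne_flip o (c.mul k) s s'
      rw [pole_mul, ← hs, h]
    rcases tri (c.mul k).flip d with ⟨j, rfl⟩ | ⟨j, hj⟩
    · by_cases hj0 : j • D.a0 = D.a0
      · exact ⟨k, s, SW.symm ⟨j, hj0, Or.inr rfl⟩, hs⟩
      · exfalso
        obtain ⟨s', hs'⟩ := two_walls hj0 hze hd
        exact hcon s' hs'
    · exfalso
      have hj0 : j • D.a0 ≠ D.a0 := by
        intro h
        have h2 := (beh_mul_left (c.mul k).flip d h).mp hj
        exact (beh_flip_left (c.mul k) d).mp h2 hk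
      have hz2 : z ∈ Cir o ((c.mul k).flip.mul j) := by
        apply Sph_inter o hj
        refine ⟨?_, hzd⟩
        rw [Sph_mul]
        exact Cir_subset_Sph o _ hze
      obtain ⟨s', hs'⟩ := two_walls hj0 hze hz2
      exact hcon s' hs'

theorem walls_meet {o : D.X} {c d : D.G.Ch} {z : Bd D.X o} (hc : z ∈ Cir o c) (hd : z ∈ Cir o d)
    (hn : ¬ SW c d) : ∃ e : D.G.Ch, (e = c ∨ e = c.flip) ∧
      ∃ (k : K) (s : Bool), SW d (e.mul k) ∧ z = pole o e s := by
  by_cases h : Beh c d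
  · refine ⟨c.flip, Or.inr rfl, walls_meet0 ?_ hd ?_ fun h' => hn h'.of_flip⟩
    · rw [Cir_flip]
      exact hc
    · intro h'
      exact (beh_flip_left c d).mp h' h
  · exact ⟨c, Or.inl rfl, walls_meet0 hc hd h hn⟩

end Pool.CBD
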