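import Pool.Agent.CBD.GWA
import Pool.Agent.CBD.GCX

/-!
# CBD module GWC: the wall circles are characterised topologically (assembly)
-/

namespace Pool.CBD

open Real Set

variable {K N : Type} [Group K] [MulAction K N] {D : CDat K N}

theorem isWC_iff (o : D.X) (C : Set (Bd D.X o)) : IsWC C ↔ ∃ c : D.G.Ch, C = Cir o c := by
  constructor
  · exact fun h => h.exists_chart
  · rintro ⟨c, rfl⟩
    exact isWC_Cir o c

end Pool.CBD
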