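import Pool.Agent.CBD.GPF
import Pool.Agent.CBD.GWC

/-!
# CBD module GPG: the wall circles through a pole; poles are the points on two wall circles

PROOFS.  `sw_of_pole_mem`: if SW c d take k = 1 (`Ch.mul_one`, SW.symm).  Otherwise `walls_meet` with
z = pole o c s (`pole_mem` with k = 1 gives z in Cir o c): the case e = c is the claim, the case e = c.flip
contradicts `pole_ne_flip`.
`isPole_iff`: (→) the two circles are Cir o c and Cir o d (`isWC_iff`), not SW c d by `SW.cir`; `walls_meet`.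
(←) `D.two` gives k with k a0 ≠ a0: Cir o c ≠ Cir o (c.mul k) (`Cir_ne`), both contain the pole
(`pole_mem`), `isWC_iff`.
-/

namespace Pool.CBD

open Real Set

variable {K N : Type} [Group K] [MulAction K N] {D : CDat K N}

theorem sw_of_pole_mem {o : D.X} {c d : D.G.Ch} {s : Bool} (h : pole o c s ∈ Cir o d) :
    ∃ k, SW d (c.mul k) := by
  by_cases hs : SW c d
  · exact ⟨1, by rw [Ch.mul_one]; exact hs.symm⟩
  · have h1 : pole o c s ∈ Cir o c := by
      have := pole_mem o c 1 s
      rwa [Ch.mul_one] at this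
    obtain ⟨e, he, k, s', h2, h3⟩ := walls_meet h1 h hs
    rcases he with rfl | rfl
    · exact ⟨k, h2⟩
    · exact absurd h3 (pole_ne_flip o c s s')

theorem isPole_iff (o : D.X) (z : Bd D.X o) :
    IsPole z ↔ ∃ (c : D.G.Ch) (s : Bool), z = pole o c s := by
  constructor
  · rintro ⟨C, C', hC, hC', hne, hz, hz'⟩
    obtain ⟨c, rfl⟩ := (isWC_iff o C).mp hC
    obtain ⟨d, rfl⟩ := (isWC_iff o C').mp hC'
    obtain ⟨e, -, k, s, -, h⟩ := walls_meet hz hz' (fun hs => hne (hs.cir o).symm)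
    exact ⟨e, s, h⟩
  · rintro ⟨c, s, rfl⟩
    obtain ⟨k, hk⟩ := D.two
    refine ⟨Cir o c, Cir o (c.mul k), (isWC_iff o _).mpr ⟨c, rfl⟩, (isWC_iff o _).mpr ⟨c.mul k, rfl⟩,
      Cir_ne o c hk, ?_, pole_mem o c k s⟩
    have := pole_mem o c 1 s
    rwa [Ch.mul_one] at this

end Pool.CBD
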