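import Pool.Agent.CBD.GPG

/-!
# CBD module GPH: the set QQ of a pole

PROOF.  z = pole o c s.
(⊆) Let z' be in QQ z.  z' = pole o d s'' (`isPole_iff`).  There is e with z, z' in Cir o e (`isWC_iff`);
`sw_of_pole_mem` gives k with SW e (c.mul k), so z' is in Cir o (c.mul k) (`SW.cir`); again `sw_of_pole_mem`
gives j with SW (c.mul k) (d.mul j), so with `pole_mul` and `pole_sw` z' = pole o (d.mul j) s'' is
pole o (c.mul k) s'' = pole o c s'' or pole o (c.mul k).flip s''.  In the first case z' is in every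
wall circle through z: if z is in Cir o e2 then SW e2 (c.mul k2), Cir o e2 = Cir o (c.mul k2) contains z'
by `pole_mem`: contradiction to the last condition of QQ.
(⊇) z' = pole o (c.mul k).flip s'.  `isPole_iff`.  Cir o (c.mul k) contains z (`pole_mem`) and z' (it is
equal to Cir o (c.mul k).flip by `Cir_flip`; `pole_mem` with 1).  Let k2 a0 ≠ a0 (`D.two`): the circle
Cir o ((c.mul k).mul k2) = Cir o (c.mul (k * k2)) contains z; if it contained z', `two_walls` for c.mul k
would give z' = pole o (c.mul k) s3, contradicting `pole_ne_flip`.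
-/

namespace Pool.CBD

open Real Set

variable {K N : Type} [Group K] [MulAction K N] {D : CDat K N}

theorem QQ_pole (o : D.X) (c : D.G.Ch) (s : Bool) :
    QQ (pole o c s) = {z | ∃ (k : K) (s' : Bool), z = pole o (c.mul k).flip s'} := by
  ext z'
  constructor
  · rintro ⟨hp, ⟨C, hC, hz, hz'⟩, ⟨C2, hC2, hz2, hz2'⟩⟩
    obtain ⟨d, s'', rfl⟩ := (isPole_iff o z').mp hp
    obtain ⟨e, rfl⟩ := (isWC_iff o C).mp hC
    obtain ⟨e2, rfl⟩ := (isWC_iff o C2).mp hC2
    obtain ⟨k, hk⟩ := sw_of_pole_mem hz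
    rw [← hk.cir o] at hz'
    obtain ⟨j, hj⟩ := sw_of_pole_mem hz'
    have h1 := pole_sw o hj s''
    rw [pole_mul] at h1
    rcases h1 with h1 | h1
    · exfalso
      apply hz2'
      obtain ⟨k2, hk2⟩ := sw_of_pole_mem hz2
      rw [h1, pole_mul, ← hk2.cir o]
      exact pole_mem o c k2 s''
    · exact ⟨k, s'', h1⟩
  · rintro ⟨k, s', rfl⟩
    have hm : pole o (c.mul k).flip s' ∈ Cir o (c.mul k) := by
      have h1 := pole_mem o (c.mul k).flip 1 s'
      rwa [Ch.mul_one, Cir_flip] at h1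
    refine ⟨(isPole_iff o _).mpr ⟨_, _, rfl⟩, ⟨Cir o (c.mul k), (isWC_iff o _).mpr ⟨_, rfl⟩,
      pole_mem o c k s, hm⟩, ?_⟩
    obtain ⟨k2, hk2⟩ := D.two
    refine ⟨Cir o ((c.mul k).mul k2), (isWC_iff o _).mpr ⟨_, rfl⟩, ?_, ?_⟩
    · rw [Ch.mul_mul]
      exact pole_mem o c (k * k2) s
    · intro h
      obtain ⟨s3, hs3⟩ := two_walls hk2 hm h
      exact pole_ne_flip o (c.mul k) s3 s' hs3.symm

end Pool.CBD
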