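import Pool.Agent.CBD.GQH
import Pool.Agent.CBD.GSA
import Pool.Agent.CBD.GSD
import Pool.Agent.CBD.GPA
import Pool.Agent.CBD.GPB
import Pool.Agent.CBD.GPC
import Pool.Agent.CBD.GPH

/-!
# CBD module GQD: for si = 0 the closure of the set QQ of a pole is a circle (G11)
-/

namespace Pool.CBD

open Real Set

variable {K N : Type} [Group K] [MulAction K N] {D : CDat K N}

/-- All starting points in the block give the same classes, with the same slopes. -/
theorem sph_base (o : D.X) (c : D.G.Ch) (m m' : Blk) (v : S2) :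
    ∃ v' : S2, (v' : E3) 2 = (v : E3) 2 ∧ sph o c m v = sph o c m' v' := by
  have h1 : sph o c m v ∈ range (sph o c m') := by
    rw [range_sph, ← range_sph o c m]
    exact mem_range_self v
  obtain ⟨v', hv'⟩ := h1
  exact ⟨v', slope_unique hv', hv'.symm⟩

/-- The poles of the neighbouring blocks, seen in the block of c. -/
theorem pole_slope (o : D.X) (c : D.G.Ch) (m : Blk) (k : K) (s : Bool) :
    ∃ v : S2, (v : E3) 2 = D.P.si * sn s ∧ pole o (c.mul k).flip s = sph o c m v := by
  rw [pole_flip o (c.mul k) (wp_mem 0 0) s]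
  obtain ⟨v1, h1, e1⟩ := sph_mul o c k (wp 0 0) (dg D.P s)
  obtain ⟨v2, h2, e2⟩ := sph_base o c (D.act k (wp 0 0)) m v1
  refine ⟨v2, ?_, e1.trans e2⟩
  rw [h2, h1]
  rfl

theorem t2_Bd (X : Type*) [MetricSpace X] (o : X) : T2Space (Bd X o) :=
  inferInstanceAs (T2Space {r : C(NNReal, X) // Isometry r ∧ r 0 = o})

/-- The classes of a given slope in the sphere of a block form a closed set. -/
theorem closed_slope (o : D.X) (c : D.G.Ch) (m : Blk) (a : ℝ) :
    IsClosed (sph o c m '' {v : S2 | (v : E3) 2 = a}) := by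
  have h1 : IsClosed {v : S2 | (v : E3) 2 = a} := by
    have h2 : Continuous (fun v : S2 => (v : E3) 2) :=
      (PiLp.continuous_apply 2 (fun _ : Fin 3 => ℝ) 2).comp continuous_subtype_val
    exact isClosed_eq h2 continuous_const
  have := t2_Bd D.X o
  exact (h1.isCompact.image (continuous_sph o c m)).isClosed

private theorem gqd_circle : IsPreconnected {v : S2 | (v : E3) 2 = 0} := by
  have h1 : ∀ t : ℝ, ‖(!₂[Real.cos t, Real.sin t, 0] : E3)‖ = 1 := by
    intro t
    have h := norm_sq3 !₂[Real.cos t, Real.sin t, 0]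
    have h2 : ‖(!₂[Real.cos t, Real.sin t, 0] : E3)‖ ^ 2 = 1 := by
      rw [h]
      simp
    have h3 := norm_nonneg (!₂[Real.cos t, Real.sin t, 0] : E3)
    nlinarith
  have h2 : {v : S2 | (v : E3) 2 = 0} =
      range (fun t : ℝ => (⟨!₂[Real.cos t, Real.sin t, 0], mem_sphere_zero_iff_norm.mpr (h1 t)⟩ : S2)) := by
    ext v
    constructor
    · intro hv
      have hv2 : (v : E3) 2 = 0 := hv
      have hn := norm_S2 v
      have hs := norm_sq3 (v : E3)
      rw [hn, hv2] at hs
      have hs2 : (v : E3) 0 ^ 2 + (v : E3) 1 ^ 2 = 1 := by linarith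
      obtain ⟨t, ht0, ht1⟩ : ∃ t : ℝ, Real.cos t = (v : E3) 0 ∧ Real.sin t = (v : E3) 1 := by
        refine ⟨Complex.arg ⟨(v : E3) 0, (v : E3) 1⟩, ?_, ?_⟩
        · have hne : (⟨(v : E3) 0, (v : E3) 1⟩ : ℂ) ≠ 0 := by
            intro h0
            have h3 := congrArg Complex.re h0
            have h4 := congrArg Complex.im h0
            simp only [Complex.zero_re, Complex.zero_im] at h3 h4
            rw [h3, h4] at hs2
            norm_num at hs2
          have hab : ‖(⟨(v : E3) 0, (v : E3) 1⟩ : ℂ)‖ = 1 := by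
            rw [Complex.norm_def, Complex.normSq_mk]
            rw [show (v : E3) 0 * (v : E3) 0 + (v : E3) 1 * (v : E3) 1 = 1 by nlinarith]
            exact Real.sqrt_one
          rw [Complex.cos_arg hne, hab, div_one]
        · have hab : ‖(⟨(v : E3) 0, (v : E3) 1⟩ : ℂ)‖ = 1 := by
            rw [Complex.norm_def, Complex.normSq_mk]
            rw [show (v : E3) 0 * (v : E3) 0 + (v : E3) 1 * (v : E3) 1 = 1 by nlinarith]
            exact Real.sqrt_one
          rw [Complex.sin_arg, hab, div_one]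
      refine ⟨t, ?_⟩
      apply Subtype.ext
      ext i
      fin_cases i
      · exact ht0
      · exact ht1
      · exact hv2.symm
    · rintro ⟨t, rfl⟩
      rfl
  rw [h2]
  apply isPreconnected_range
  apply Continuous.subtype_mk
  apply (PiLp.continuous_toLp 2 (fun _ : Fin 3 => ℝ)).comp
  apply continuous_pi
  intro i
  fin_cases i
  · exact Real.continuous_cos
  · exact Real.continuous_sin
  · exact continuous_const

theorem QQ_preconn (D : CDat K N) (hD : D.P.si = 0) (o : D.X) (z : Bd D.X o) (hz : IsPole z) :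
    IsPreconnected (closure (QQ z)) := by
  obtain ⟨c, s, rfl⟩ := (isPole_iff o z).mp hz
  have hco : D.P.co = 1 := by
    have h1 := D.P.sq
    rw [hD] at h1
    have h2 := D.P.co_pos
    nlinarith
  obtain ⟨m, hm⟩ : ∃ m : Blk, m = wp 0 0 := ⟨_, rfl⟩
  have hsub : QQ (pole o c s) ⊆ sph o c m '' {v : S2 | (v : E3) 2 = 0} := by
    rw [QQ_pole]
    rintro _ ⟨k, s', rfl⟩
    obtain ⟨v, hv, e⟩ := pole_slope o c m k s'
    refine ⟨v, ?_, e.symm⟩
    change (v : E3) 2 = 0
    rw [hv, hD, zero_mul]
  have hclosed : IsClosed (sph o c m '' {v : S2 | (v : E3) 2 = 0}) := closed_slope o c m 0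
  have hsup : sph o c m '' {v : S2 | (v : E3) 2 = 0} ⊆ closure (QQ (pole o c s)) := by
    rintro _ ⟨v, hv, rfl⟩
    refine closure_mono ?_ (horiz_dense o c m v hv)
    rintro _ ⟨k, w, s', hw, rfl⟩
    rw [QQ_pole]
    refine ⟨k, s', ?_⟩
    rw [pole_flip o (c.mul k) hw s']
    congr 1
    apply Subtype.ext
    ext i
    fin_cases i
    · simp [wv, dg, hco]
    · simp [wv, dg]
    · simp [wv, dg, hD]
  have heq : closure (QQ (pole o c s)) = sph o c m '' {v : S2 | (v : E3) 2 = 0} :=
    Subset.antisymm (closure_minimal hsub hclosed) hsup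
  rw [heq]
  exact gqd_circle.image _ (continuous_sph o c m).continuousOn

end Pool.CBD
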