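import Pool.Agent.CBD.LIN

/-!
# CBD module SLE: going away from a disjoint line (the basic estimate for local connectedness)

q(s) = (sinh s, 0, cosh s) is the point of the base line with coordinate s.

`sl_line`: let u be the unit normal of a line with |u1| ≥ 3, and s real.  There is a sign e such
that for all points c' of the line of u and all λ ≥ 0
    dist c' q(s) + λ - log 6 ≤ dist c' q(s + e λ).
PROOF.  Let q = q(s), T = (cosh s, 0, sinh s) (unit tangent), n = (0,1,0); Lorentz product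
<a,b> = ax bx + ay by - at bt.  q(s + e λ) = cosh λ q + e sinh λ T.
Write u = alpha q + beta T + mu n with mu = u1, beta = <u,T>, alpha = -<u,q>; so
-alpha^2 + beta^2 + mu^2 = 1.  Choose the sign e with e * beta * alpha ≤ 0 (alpha ≠ 0).
Let c' be on the line of u: c' = C q + a T + b n with C = cc c' q ≥ 1, C^2 = 1 + a^2 + b^2, and
0 = <c',u> = - C alpha + a beta + b mu.
Claim: e a ≤ C/3.  If e a ≤ 0 this is clear.  If e a > 0, then from C alpha = a beta + b mu,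
multiply by sign(alpha): C |alpha| = (e a)(e beta sign alpha) + b mu sign(alpha) ≤ |b| |mu|, so
b^2 mu^2 ≥ C^2 alpha^2 ≥ C^2 (mu^2 - 1), b^2 ≥ C^2 (1 - 1/mu^2) ≥ (8/9) C^2 and
a^2 ≤ C^2 - b^2 ≤ C^2/9.
Then cc c' q(s + e λ) = C cosh λ - e a sinh λ ≥ C (cosh λ - sinh λ / 3) ≥ C e^λ / 3, and
C = cosh (dist c' q) ≥ e^(dist c' q) / 2, and cc = cosh d' ≤ e^(d'), d' = dist c' q(s+eλ).
So e^(d') ≥ e^(λ + dist c' q)/6.

`sl_pt`: for a single point h and s there is a sign e with the same estimate with log 4 (take e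
with e a ≤ 0, so that cc ≥ C cosh λ ≥ C e^λ/2).
-/

namespace Pool.CBD

open Real Set

private theorem sle_of_t (s : ℝ) : (Hyp.of (Real.sinh s) 0).t = Real.cosh s := by
  change √(1 + Real.sinh s ^ 2 + 0 ^ 2) = Real.cosh s
  rw [show (1 : ℝ) + Real.sinh s ^ 2 + 0 ^ 2 = Real.cosh s ^ 2 by rw [Real.cosh_sq]; ring]
  exact Real.sqrt_sq (Real.cosh_pos s).le

private theorem sle_cc0 (h : Hyp) (s : ℝ) :
    Hyp.cc h (Hyp.of (Real.sinh s) 0) = h.t * Real.cosh s - h.x * Real.sinh s := by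
  unfold Hyp.cc
  rw [sle_of_t]
  change h.t * Real.cosh s - h.x * Real.sinh s - h.y * 0 = _
  ring

private theorem sle_cc (h : Hyp) (s : ℝ) {e : ℝ} (he : e = 1 ∨ e = -1) (l : ℝ) :
    Hyp.cc h (Hyp.of (Real.sinh (s + e * l)) 0) =
      (h.t * Real.cosh s - h.x * Real.sinh s) * Real.cosh l -
        e * (h.x * Real.cosh s - h.t * Real.sinh s) * Real.sinh l := by
  rw [sle_cc0]
  rcases he with rfl | rfl
  · rw [one_mul, Real.cosh_add, Real.sinh_add]
    ring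
  · rw [show s + -1 * l = s - l by ring, Real.cosh_sub, Real.sinh_sub]
    ring

private theorem sle_main (h : Hyp) (s : ℝ) {e : ℝ} (he : e = 1 ∨ e = -1)
    (ha : e * (h.x * Real.cosh s - h.t * Real.sinh s) ≤
      (h.t * Real.cosh s - h.x * Real.sinh s) / 3) {l : ℝ} (hl : 0 ≤ l) :
    dist h (Hyp.of (Real.sinh s) 0) + l - Real.log 6 ≤
      dist h (Hyp.of (Real.sinh (s + e * l)) 0) := by
  set d := dist h (Hyp.of (Real.sinh s) 0) with hd
  set d' := dist h (Hyp.of (Real.sinh (s + e * l)) 0) with hd'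
  have hC : Real.cosh d = h.t * Real.cosh s - h.x * Real.sinh s := by
    rw [hd, Hyp.cosh_dist, sle_cc0]
  have hC' : Real.cosh d' = Real.cosh d * Real.cosh l -
      e * (h.x * Real.cosh s - h.t * Real.sinh s) * Real.sinh l := by
    rw [hd', Hyp.cosh_dist, sle_cc h s he, hC]
  rw [← hC] at ha
  have hsl : 0 ≤ Real.sinh l := Real.sinh_nonneg_iff.mpr hl
  have h1 : Real.cosh d * Real.exp l / 3 ≤ Real.cosh d' := by
    rw [hC']
    have h2 : e * (h.x * Real.cosh s - h.t * Real.sinh s) * Real.sinh l ≤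
        Real.cosh d / 3 * Real.sinh l := mul_le_mul_of_nonneg_right ha hsl
    have h3 : Real.exp l = Real.cosh l + Real.sinh l := (Real.cosh_add_sinh l).symm
    have h4 : Real.sinh l ≤ Real.cosh l := (Real.sinh_lt_cosh l).le
    have h5 : 0 < Real.cosh d := Real.cosh_pos d
    rw [h3]
    nlinarith [mul_le_mul_of_nonneg_left h4 h5.le]
  have h6 : Real.exp d / 2 ≤ Real.cosh d := by
    rw [Real.cosh_eq]
    have := Real.exp_pos (-d)
    linarith
  have h7 : Real.cosh d' ≤ Real.exp d' := by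
    rw [Real.cosh_eq]
    have hd0 : 0 ≤ d' := dist_nonneg
    have : Real.exp (-d') ≤ Real.exp d' := Real.exp_le_exp.mpr (by linarith)
    linarith
  have h8 : Real.exp (d + l) / 6 ≤ Real.exp d' := by
    rw [Real.exp_add]
    have := Real.exp_pos l
    nlinarith [mul_le_mul_of_nonneg_right h6 this.le]
  have h9 : Real.exp (d + l - Real.log 6) ≤ Real.exp d' := by
    rw [Real.exp_sub, Real.exp_log (by norm_num)]
    exact h8
  exact Real.exp_le_exp.mp h9

theorem sl_line {u : Fin 3 → ℝ} (hu : u 0 ^ 2 + u 1 ^ 2 - u 2 ^ 2 = 1) (h3 : 3 ≤ |u 1|) (s : ℝ) :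
    ∃ e : ℝ, (e = 1 ∨ e = -1) ∧ ∀ c : Hyp, lo u c = 0 → ∀ l : ℝ, 0 ≤ l →
      dist c (Hyp.of (Real.sinh s) 0) + l - Real.log 6 ≤
        dist c (Hyp.of (Real.sinh (s + e * l)) 0) := by
  have h9 : 9 ≤ u 1 ^ 2 := by
    rw [← sq_abs (u 1)]
    nlinarith
  obtain ⟨al, hal⟩ : ∃ al, al = u 2 * Real.cosh s - u 0 * Real.sinh s := ⟨_, rfl⟩
  obtain ⟨be, hbe⟩ : ∃ be, be = u 0 * Real.cosh s - u 2 * Real.sinh s := ⟨_, rfl⟩
  have hcs : Real.cosh s ^ 2 - Real.sinh s ^ 2 = 1 := Real.cosh_sq_sub_sinh_sq s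
  have hab : al ^ 2 = be ^ 2 + u 1 ^ 2 - 1 := by
    rw [hal, hbe]
    linear_combination (u 2 ^ 2 - u 0 ^ 2) * hcs - hu
  obtain ⟨e, he, hea⟩ : ∃ e : ℝ, (e = 1 ∨ e = -1) ∧ e * (be * al) ≤ 0 := by
    rcases le_total (be * al) 0 with h | h
    · exact ⟨1, Or.inl rfl, by linarith⟩
    · exact ⟨-1, Or.inr rfl, by linarith⟩
  have he2 : e ^ 2 = 1 := by
    rcases he with rfl | rfl <;> norm_num
  refine ⟨e, he, fun c hc l hl => sle_main c s he ?_ hl⟩
  obtain ⟨C, hC⟩ : ∃ C, C = c.t * Real.cosh s - c.x * Real.sinh s := ⟨_, rfl⟩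
  obtain ⟨a, ha⟩ : ∃ a, a = c.x * Real.cosh s - c.t * Real.sinh s := ⟨_, rfl⟩
  rw [← hC, ← ha]
  have hC1 : 1 ≤ C := by
    rw [hC, ← sle_cc0]
    exact Hyp.one_le_cc _ _
  have e1 := c.h
  have hCab : C ^ 2 = 1 + a ^ 2 + c.y ^ 2 := by
    rw [hC, ha]
    linear_combination (c.t ^ 2 - c.x ^ 2) * hcs + e1
  have hlin : C * al = a * be + c.y * u 1 := by
    unfold lo at hc
    rw [hC, hal, ha, hbe]
    linear_combination (c.t * u 2 - c.x * u 0) * hcs + (-1) * hc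
  by_contra hcon
  push Not at hcon
  have h10 : C * al ^ 2 ≤ c.y * u 1 * al := by
    have : C * al ^ 2 = (e * a) * (e * (be * al)) + c.y * u 1 * al := by
      linear_combination al * hlin - a * be * al * he2
    have h11 : 0 < e * a := by linarith
    nlinarith
  have hal0 : 0 < al ^ 2 := by nlinarith [sq_nonneg be]
  have h12 : C ^ 2 * al ^ 2 ≤ c.y ^ 2 * u 1 ^ 2 := by
    have h13 : 0 ≤ C * al ^ 2 := by positivity
    have h14 : (C * al ^ 2) ^ 2 ≤ (c.y * u 1 * al) ^ 2 := pow_le_pow_left₀ h13 h10 2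
    have h15 : (C ^ 2 * al ^ 2) * al ^ 2 ≤ (c.y ^ 2 * u 1 ^ 2) * al ^ 2 := by
      nlinarith
    exact le_of_mul_le_mul_right h15 hal0
  have h16 : C ^ 2 * (u 1 ^ 2 - 1) ≤ c.y ^ 2 * u 1 ^ 2 := by
    nlinarith [sq_nonneg be, sq_nonneg C, mul_nonneg (sq_nonneg C) (sq_nonneg be)]
  have h17 : a ^ 2 ≤ C ^ 2 / 9 := by
    have h18 : u 1 ^ 2 * (C ^ 2 - c.y ^ 2) ≤ C ^ 2 := by nlinarith
    have h19 : 0 ≤ C ^ 2 - c.y ^ 2 := by nlinarith [sq_nonneg a]
    nlinarith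
  have h20 : (e * a) ^ 2 ≤ (C / 3) ^ 2 := by
    rw [mul_pow, he2]
    linarith
  have h21 := abs_le_of_sq_le_sq' h20 (by linarith)
  linarith [h21.2]

theorem sl_pt (h : Hyp) (s : ℝ) :
    ∃ e : ℝ, (e = 1 ∨ e = -1) ∧ ∀ l : ℝ, 0 ≤ l →
      dist h (Hyp.of (Real.sinh s) 0) + l - Real.log 6 ≤
        dist h (Hyp.of (Real.sinh (s + e * l)) 0) := by
  have hC1 : 1 ≤ h.t * Real.cosh s - h.x * Real.sinh s := by
    rw [← sle_cc0]
    exact Hyp.one_le_cc _ _
  rcases le_total (h.x * Real.cosh s - h.t * Real.sinh s) 0 with h1 | h1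
  · exact ⟨1, Or.inl rfl, fun l hl => sle_main h s (Or.inl rfl) (by linarith) hl⟩
  · exact ⟨-1, Or.inr rfl, fun l hl => sle_main h s (Or.inr rfl) (by linarith) hl⟩

end Pool.CBD
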