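import Pool.Agent.CBD.GPD
import Pool.Agent.CBD.EXC
import Pool.Agent.CBD.ETP
import Pool.Agent.CBD.SLE

/-!
# CBD module GQH: horizontal directions are approximated by horizontal rays of walls (G11)

By cocompactness a point far away on a horizontal ray from m is at bounded distance from a point y0 of
a wall of the block, at the same height; in this wall there is a horizontal ray from y0 going away from m
with a bounded loss (`sl_pt`), and `close_lim`, `contr` compare its parallel from m with the given ray.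
-/

namespace Pool.CBD

open Real Set

variable {K N : Type} [Group K] [MulAction K N] {D : CDat K N}

/-- F large makes (T / F) (2 R + √(2 L (F + L))) small. -/
private theorem gqh_small {T L R ε : ℝ} (hT : 0 ≤ T) (hL : 0 ≤ L) (hR : 0 ≤ R) (hε : 0 < ε) :
    ∃ F0 : ℝ, 0 < F0 ∧ T ≤ F0 ∧ ∀ F : ℝ, F0 ≤ F →
      T / F * (2 * R + √(2 * L * (F + L))) < ε := by
  obtain ⟨M, hM⟩ : ∃ M, M = T * (2 * R + 2 * √L) / ε + 1 := ⟨_, rfl⟩
  have hsL : 0 ≤ √L := Real.sqrt_nonneg _
  have hM1 : 1 ≤ M := by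
    rw [hM]
    have : 0 ≤ T * (2 * R + 2 * √L) / ε := by positivity
    linarith
  have hM2 : T * (2 * R + 2 * √L) < M * ε := by
    rw [hM, add_mul, div_mul_cancel₀ _ hε.ne']
    linarith
  refine ⟨max (M ^ 2) (max L T), ?_, ?_, fun F hF => ?_⟩
  · exact lt_of_lt_of_le (by positivity) (le_max_left _ _)
  · exact (le_max_right L T).trans (le_max_right _ _)
  · have hF1 : M ^ 2 ≤ F := (le_max_left _ _).trans hF
    have hF2 : L ≤ F := ((le_max_left L T).trans (le_max_right _ _)).trans hF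
    have hFpos : 0 < F := lt_of_lt_of_le (by positivity) hF1
    obtain ⟨q, hq⟩ : ∃ q, q = √F := ⟨_, rfl⟩
    have hq2 : q ^ 2 = F := by rw [hq]; exact Real.sq_sqrt hFpos.le
    have hqM : M ≤ q := by
      rw [hq]
      exact Real.le_sqrt_of_sq_le hF1
    have hq1 : 1 ≤ q := hM1.trans hqM
    have hs : √(2 * L * (F + L)) ≤ 2 * √L * q := by
      apply Real.sqrt_le_iff.mpr
      refine ⟨by positivity, ?_⟩
      rw [mul_pow, mul_pow, Real.sq_sqrt hL, hq2]
      nlinarith
    have h1 : 2 * R + √(2 * L * (F + L)) ≤ (2 * R + 2 * √L) * q := by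
      nlinarith
    calc T / F * (2 * R + √(2 * L * (F + L))) ≤ T / F * ((2 * R + 2 * √L) * q) :=
          mul_le_mul_of_nonneg_left h1 (by positivity)
      _ = T * (2 * R + 2 * √L) / q := by
          rw [← hq2]
          have : q ≠ 0 := by positivity
          field_simp
      _ < ε := by
          rw [div_lt_iff₀ (by linarith)]
          calc T * (2 * R + 2 * √L) < M * ε := hM2
            _ ≤ ε * q := by nlinarith

private theorem gqh_h (a b : Blk) (h : a.v = b.v) : dist a b = dist a.h b.h := by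
  have h1 := Blk.dist_sq a b
  have h2 : dist a b ^ 2 = dist a.h b.h ^ 2 := by
    rw [h1, h, sub_self]
    ring
  exact (pow_left_inj₀ dist_nonneg dist_nonneg two_ne_zero).mp h2

private theorem gqh_le (a b : Blk) : dist a.h b.h ≤ dist a b := by
  have h1 := Blk.dist_sq a b
  have h2 : dist a.h b.h ^ 2 ≤ dist a b ^ 2 := by
    rw [h1]
    nlinarith [sq_nonneg (a.v - b.v)]
  exact (abs_le_of_sq_le_sq' h2 dist_nonneg).2

private theorem gqh_sn {e : ℝ} (he : e = 1 ∨ e = -1) : ∃ s : Bool, sn s = e := by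
  rcases he with rfl | rfl
  · exact ⟨true, rfl⟩
  · exact ⟨false, rfl⟩

theorem sn_one (s : Bool) : sn s ^ 2 + (0 : ℝ) ^ 2 = 1 := by rw [sn_sq]; norm_num

/-- The walls are at bounded distance from every point, at the same height. -/
private theorem gqh_near (D : CDat K N) : ∃ R : ℝ, 0 ≤ R ∧ ∀ x : Blk, ∃ k : K, ∃ w ∈ W0,
    (D.act k w).v = x.v ∧ dist x (D.act k w) ≤ R := by
  obtain ⟨R, hR⟩ := D.cocpt
  refine ⟨R + dist D.ob (pr D.ob), ?_, fun x => ?_⟩
  · obtain ⟨k, hk⟩ := hR D.ob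
    exact add_nonneg (dist_nonneg.trans hk) dist_nonneg
  · obtain ⟨k0, hk0⟩ := hR x
    obtain ⟨k, hk⟩ : ∃ k, k = k0⁻¹ := ⟨_, rfl⟩
    have h1 : dist x (D.act k (pr D.ob)) ≤ R + dist D.ob (pr D.ob) := by
      have h2 : dist x (D.act k D.ob) ≤ R := by
        have h3 : D.act k (D.act k0 x) = x := by
          rw [hk, ← D.act_mul, inv_mul_cancel, D.act_one]
        have h4 : dist (D.act k (D.act k0 x)) (D.act k D.ob) = dist (D.act k0 x) D.ob :=
          (D.act_iso k).dist_eq _ _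
        rw [h3] at h4
        rw [h4, dist_comm]
        exact hk0
      have h5 : dist (D.act k D.ob) (D.act k (pr D.ob)) = dist D.ob (pr D.ob) :=
        (D.act_iso k).dist_eq _ _
      linarith [dist_triangle x (D.act k D.ob) (D.act k (pr D.ob))]
    obtain ⟨f, a, -, -, hf⟩ := D.act_iso k
    refine ⟨k, ⟨(pr D.ob).h, x.v - a⟩, mem_W0.mpr (mem_W0.mp (pr_mem D.ob)), ?_, ?_⟩
    · rw [hf]
      change x.v - a + a = x.v
      ring
    · refine le_trans ?_ h1
      rw [gqh_h]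
      · refine le_trans (le_of_eq ?_) (gqh_le _ _)
        rw [hf, hf]
      · rw [hf]
        change x.v = x.v - a + a
        ring

theorem gqh_ray (c : D.G.Ch) (m : Blk) (v : S2) (hv : (v : E3) 2 = 0) {T ε : ℝ} (hT : 0 ≤ T)
    (hε : 0 < ε) :
    ∃ (k : K) (w : Blk) (s : Bool) (z : Bd D.X (bt c m)), w ∈ W0 ∧
      Asy z (rayB (c.mul k) w (wv (sn s) 0 (sn_one s) : S2) (norm_S2 _)) ∧
      dist (ev z T) (ev (rayB c m v (norm_S2 v)) T) < ε := by
  obtain ⟨R, hR0, hR⟩ := gqh_near D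
  have hL : 0 ≤ Real.log 6 := Real.log_nonneg (by norm_num)
  obtain ⟨F0, hF0, hTF, hsmall⟩ := gqh_small hT hL hR0 hε
  have hvn : ‖(v : E3)‖ = 1 := norm_S2 v
  obtain ⟨T', hT'⟩ : ∃ T', T' = F0 + R := ⟨_, rfl⟩
  have hT'0 : 0 ≤ T' := by rw [hT']; linarith
  obtain ⟨x, hx⟩ : ∃ x, x = ex m (T' • (v : E3)) := ⟨_, rfl⟩
  have hxv : x.v = m.v := by
    rw [hx]
    change m.v + (T' • (v : E3)) 2 = m.v
    have : (T' • (v : E3)) 2 = T' * (v : E3) 2 := by simp
    rw [this, hv]
    ring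
  have hmx : dist m x = T' := by
    rw [hx, dist_ex, norm_smul, hvn, mul_one, Real.norm_of_nonneg hT'0]
  obtain ⟨k, w, hw, hwv, hwd⟩ := hR x
  obtain ⟨m', hm'⟩ : ∃ m', m' = D.act k⁻¹ m := ⟨_, rfl⟩
  have hkm : D.act k m' = m := by rw [hm', ← D.act_mul, mul_inv_cancel, D.act_one]
  have hbtm : (bt (c.mul k) m' : D.X) = bt c m := by
    rw [← hkm]
    exact bt_mul c k m'
  have hbtw : (bt (c.mul k) w : D.X) = bt c (D.act k w) := bt_mul c k w
  have hm'v : m'.v = w.v := by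
    obtain ⟨f, a, -, -, hf⟩ := D.act_iso k
    have h1 : (D.act k m').v = m'.v + a := by rw [hf]
    have h2 : (D.act k w).v = w.v + a := by rw [hf]
    rw [hkm] at h1
    rw [hwv, hxv] at h2
    linarith
  obtain ⟨s, vv, rfl⟩ := exists_wp hw
  obtain ⟨e, he, hsl⟩ := sl_pt m'.h s
  obtain ⟨sg, hsg⟩ := gqh_sn he
  obtain ⟨r, hr⟩ : ∃ r, r = rayB (D := D) (c.mul k) (wp s vv) (wv (sn sg) 0 (sn_one sg) : S2)
    (norm_S2 _) := ⟨_, rfl⟩
  have hrl : ∀ l : ℝ, 0 ≤ l → ev r l = bt (c.mul k) (wp (s + e * l) vv) := by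
    intro l hl
    rw [hr, ev_rayB _ _ _ _ hl]
    have h1 : l • ((wv (sn sg) 0 (sn_one sg) : S2) : E3) = !₂[e * l, 0, 0] := by
      rw [hsg.symm]
      ext i
      fin_cases i
      · simp [wv]; ring
      · simp [wv]
      · simp [wv]
    rw [h1, ex_wp, add_zero]
  -- the distance from m
  have hFe : dist (bt c m : D.X) (bt (c.mul k) (wp s vv)) = dist m'.h (Hyp.of (Real.sinh s) 0) := by
    have h1 : dist (bt (c.mul k) m' : D.X) (bt (c.mul k) (wp s vv)) = dist m' (wp s vv) :=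
      dist_bt _ _ _
    rw [← hbtm, h1, gqh_h _ _ hm'v]
    rfl
  have hlow : ∀ l : ℝ, 0 ≤ l → dist (bt c m : D.X) (bt (c.mul k) (wp s vv)) + l - Real.log 6 ≤
      dist (bt c m : D.X) (ev r l) := by
    intro l hl
    rw [hFe, hrl l hl]
    have h1 : dist (bt (c.mul k) m' : D.X) (bt (c.mul k) (wp (s + e * l) vv)) =
        dist m' (wp (s + e * l) vv) := dist_bt _ _ _
    rw [← hbtm, h1]
    exact (hsl l hl).trans (gqh_le m' (wp (s + e * l) vv))
  obtain ⟨z, hz⟩ : ∃ z, z = bc (cat0_X D) (bt (c.mul k) (wp s vv)) (bt c m) r := ⟨_, rfl⟩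
  have hzr : Asy z r := by rw [hz]; exact bc_asy _ _ _ _
  have hclose := close_lim (cat0_X D) r hL hlow z hzr
  obtain ⟨F, hF⟩ : ∃ F, F = dist (bt c m : D.X) (bt (c.mul k) (wp s vv)) := ⟨_, rfl⟩
  rw [← hF] at hclose
  -- comparison of F and T'
  have hF2 : F = dist m (D.act k (wp s vv)) := by
    rw [hF, hbtw]
    exact dist_bt _ _ _
  have hFlow : F0 ≤ F := by
    have h1 := dist_triangle m (D.act k (wp s vv)) x
    rw [hmx, ← hF2, dist_comm _ x] at h1
    linarith
  have hFT : |F - T'| ≤ R := by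
    rw [abs_le]
    have h1 := dist_triangle m (D.act k (wp s vv)) x
    have h2 := dist_triangle m x (D.act k (wp s vv))
    rw [hmx, ← hF2] at h1 h2
    rw [dist_comm _ x] at h1
    constructor <;> linarith
  have hF0' : 0 < F := lt_of_lt_of_le hF0 hFlow
  obtain ⟨rv, hrv⟩ : ∃ rv, rv = rayB (D := D) c m v (norm_S2 v) := ⟨_, rfl⟩
  have hd1 : dist (ev rv F) (bt (c.mul k) (wp s vv)) ≤ 2 * R := by
    rw [hrv, ev_rayB _ _ _ _ hF0'.le, hbtw]
    have h1 : dist (bt c (ex m (F • (v : E3))) : D.X) (bt c (D.act k (wp s vv))) =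
        dist (ex m (F • (v : E3))) (D.act k (wp s vv)) := dist_bt _ _ _
    rw [h1]
    have h2 : dist (ex m (F • (v : E3))) x ≤ R := by
      rw [hx, dist_ex_smul, hvn, mul_one]
      exact hFT
    linarith [dist_triangle (ex m (F • (v : E3))) x (D.act k (wp s vv))]
  have hd2 : dist (ev z F) (bt (c.mul k) (wp s vv)) ≤ √(2 * Real.log 6 * (F + Real.log 6)) :=
    Real.le_sqrt_of_sq_le hclose
  have hd3 : dist (ev z F) (ev rv F) ≤ 2 * R + √(2 * Real.log 6 * (F + Real.log 6)) := by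
    have h1 := dist_triangle_right (ev z F) (ev rv F) (bt (c.mul k) (wp s vv))
    linarith
  refine ⟨k, wp s vv, sg, z, hw, ?_, ?_⟩
  · rw [← hr]
    exact hzr
  · rw [← hrv]
    have h1 := contr (cat0_X D) z rv hT (hTF.trans hFlow) hF0'
    have h2 : T / F * dist (ev z F) (ev rv F) ≤
        T / F * (2 * R + √(2 * Real.log 6 * (F + Real.log 6))) :=
      mul_le_mul_of_nonneg_left hd3 (by positivity)
    exact lt_of_le_of_lt (h1.trans h2) (hsmall F hFlow)

/-- The classes of horizontal rays of walls of the block are dense in the horizontal directions. -/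
theorem horiz_dense (o : D.X) (c : D.G.Ch) (m : Blk) (v : S2) (hv : (v : E3) 2 = 0) :
    sph o c m v ∈ closure {z : Bd D.X o | ∃ (k : K) (w : Blk) (s : Bool), w ∈ W0 ∧
      z = sph o (c.mul k) w (wv (sn s) 0 (sn_one s))} := by
  have hcl : rayB (D := D) c m v (norm_S2 v) ∈
      closure {z : Bd D.X (bt c m) | ∃ (k : K) (w : Blk) (s : Bool), w ∈ W0 ∧
        Asy z (rayB (c.mul k) w (wv (sn s) 0 (sn_one s) : S2) (norm_S2 _))} := by
    rw [mem_closure_iff_nhds_basis (hasBasis_nhds (cat0_X D) _)]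
    rintro ⟨T, ε⟩ ⟨hT, hε⟩
    obtain ⟨k, w, s, z, hw, hz, hd⟩ := gqh_ray c m v hv hT hε
    exact ⟨z, ⟨k, w, s, hw, hz⟩, hd⟩
  have hb : Continuous (fun r : Bd D.X (bt c m) => bc (cat0_X D) (bt c m) o r) :=
    (bc (cat0_X D) (bt c m) o).continuous
  have key := map_mem_closure hb hcl (t := {z : Bd D.X o | ∃ (k : K) (w : Blk) (s : Bool), w ∈ W0 ∧
      z = sph o (c.mul k) w (wv (sn s) 0 (sn_one s))}) ?_
  · exact key
  rintro z ⟨k, w, s, hw, hz⟩
  refine ⟨k, w, s, hw, ?_⟩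
  exact (bc_eq (cat0_X D) ((bc_asy (cat0_X D) (bt c m) o z).trans hz)).symm

end Pool.CBD
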