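import Pool.Agent.CBD.GQD

/-!
# CBD module GQN: for si > 0 the closure of the set QQ of a pole is not connected (G12)
-/

namespace Pool.CBD

open Real Set

variable {K N : Type} [Group K] [MulAction K N] {D : CDat K N}

theorem QQ_not_preconn (D : CDat K N) (hD : 0 < D.P.si) (o : D.X) :
    ∃ z : Bd D.X o, IsPole z ∧ ¬ IsPreconnected (closure (QQ z)) := by
  obtain ⟨c, hc⟩ : ∃ c : D.G.Ch, c = Ch.base D.G.toDat := ⟨_, rfl⟩
  obtain ⟨m, hm⟩ : ∃ m : Blk, m = wp 0 0 := ⟨_, rfl⟩
  refine ⟨pole o c true, (isPole_iff o _).mpr ⟨c, true, rfl⟩, fun h => ?_⟩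
  have hcl : IsClosed (sph o c m '' {v : S2 | (v : E3) 2 = D.P.si}) := closed_slope o c m _
  have hcl' : IsClosed (sph o c m '' {v : S2 | (v : E3) 2 = -D.P.si}) := closed_slope o c m _
  have hpole : ∀ (k : K) (s : Bool), pole o (c.mul k).flip s ∈
      sph o c m '' {v : S2 | (v : E3) 2 = D.P.si * sn s} := by
    intro k s
    obtain ⟨v, hv, e⟩ := pole_slope o c m k s
    exact ⟨v, hv, e.symm⟩
  have ht : D.P.si * sn true = D.P.si := by simp [sn]
  have hf : D.P.si * sn false = -D.P.si := by simp [sn]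
  have hsub : QQ (pole o c true) ⊆ sph o c m '' {v : S2 | (v : E3) 2 = D.P.si} ∪
      sph o c m '' {v : S2 | (v : E3) 2 = -D.P.si} := by
    rw [QQ_pole]
    rintro _ ⟨k, s, rfl⟩
    have h1 := hpole k s
    cases s
    · rw [hf] at h1
      exact Or.inr h1
    · rw [ht] at h1
      exact Or.inl h1
  have hmem : ∀ s : Bool, pole o (c.mul 1).flip s ∈ closure (QQ (pole o c true)) := by
    intro s
    apply subset_closure
    rw [QQ_pole]
    exact ⟨1, s, rfl⟩
  have h1 := isPreconnected_closed_iff.mp h _ _ hcl hcl'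
    (closure_minimal hsub (hcl.union hcl'))
    ⟨_, hmem true, by have h2 := hpole 1 true; rwa [ht] at h2⟩
    ⟨_, hmem false, by have h2 := hpole 1 false; rwa [hf] at h2⟩
  obtain ⟨z, -, ⟨v, hv, e⟩, ⟨v', hv', e'⟩⟩ := h1
  have h2 : v = v' := sph_injective o c m (e.trans e'.symm)
  have h3 : (v : E3) 2 = D.P.si := hv
  have h4 : (v' : E3) 2 = -D.P.si := hv'
  rw [h2, h4] at h3
  linarith

end Pool.CBD
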