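import Pool.Agent.CBD.GTI

/-!
# CBD module GQT: wall circles, poles and the sets QQ are preserved by homeomorphisms
-/

namespace Pool.CBD

open Real Set

variable {Z Z' : Type*} [TopologicalSpace Z] [TopologicalSpace Z']

theorem IsPole.map (e : Z ≃ₜ Z') {z : Z} (h : IsPole z) : IsPole (e z) := by
  obtain ⟨C, C', hC, hC', hne, hz, hz'⟩ := h
  refine ⟨e '' C, e '' C', hC.image e, hC'.image e, ?_, mem_image_of_mem e hz,
    mem_image_of_mem e hz'⟩
  intro h
  exact hne (e.injective.image_injective h)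

theorem isPole_map_iff (e : Z ≃ₜ Z') {z : Z} : IsPole (e z) ↔ IsPole z := by
  refine ⟨fun h => ?_, fun h => h.map e⟩
  have h1 := h.map e.symm
  rwa [e.symm_apply_apply] at h1

private theorem gqt_sub (e : Z ≃ₜ Z') (z : Z) : e '' QQ z ⊆ QQ (e z) := by
  rintro _ ⟨z', ⟨hp, ⟨C, hC, h1, h2⟩, ⟨C', hC', h3, h4⟩⟩, rfl⟩
  refine ⟨hp.map e, ⟨e '' C, hC.image e, mem_image_of_mem e h1, mem_image_of_mem e h2⟩,
    ⟨e '' C', hC'.image e, mem_image_of_mem e h3, ?_⟩⟩
  intro h
  exact h4 ((e.injective.mem_set_image).mp h)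

theorem image_QQ (e : Z ≃ₜ Z') (z : Z) : e '' QQ z = QQ (e z) := by
  apply Subset.antisymm (gqt_sub e z)
  intro y hy
  have h1 := gqt_sub e.symm (e z) (mem_image_of_mem e.symm hy)
  rw [e.symm_apply_apply] at h1
  exact ⟨e.symm y, h1, e.apply_symm_apply y⟩

theorem preconn_QQ (e : Z ≃ₜ Z') (z : Z) (h : IsPreconnected (closure (QQ z))) :
    IsPreconnected (closure (QQ (e z))) := by
  rw [← image_QQ e z, ← e.image_closure]
  exact h.image e e.continuous.continuousOn

end Pool.CBD
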