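import Pool.Agent.CBD.GDF

/-!
# CBD module GRB: a ray inside a block is straight

PROOF.  Let S = range (bt c).  For every t ≥ 0 choose b t with ev r t = bt c (b t) (use
`Classical.choice`/`choose` on the hypothesis, e.g. for t := max t 0); b 0 = m because `bt c` is
injective (`dist_bt`) and `ev_zero`.  `dist_bt` and `dist_ev` give dist (b s) (b t) = |s - t| for
s, t ≥ 0.  Put v = lg m (b 1); ‖v‖ = dist m (b 1) = 1 (`norm_lg`).  Claim b t = ex m (t • v) for all
t ≥ 0.  For t ≤ 1: `between_eq` with b := b 1, z := b t (dist m (b t) = t = t * dist m (b 1),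
dist (b t) (b 1) = 1 - t).  For t > 1: `between_eq` with b := b t, z := b 1 and ratio 1/t gives
b 1 = ex m ((1/t) • lg m (b t)), so by `lg_ex` v = (1/t) • lg m (b t), so lg m (b t) = t • v and
b t = ex m (t • v) by `ex_lg`.  Then r = rayB c m v by `Bd.ext'` and `ev_rayB`.
-/

namespace Pool.CBD

open Real Set

variable {K N : Type} [Group K] [MulAction K N] {D : CDat K N}

theorem block_ray {c : D.G.Ch} {m : Blk} (r : Bd D.X (bt c m))
    (h : ∀ t : ℝ, 0 ≤ t → ev r t ∈ range (bt c : Blk → D.X)) :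
    ∃ v : S2, r = rayB c m (v : E3) (norm_S2 v) := by
  have h' : ∀ t : ℝ, ∃ b : Blk, 0 ≤ t → (bt c b : D.X) = ev r t := by
    intro t
    by_cases ht : 0 ≤ t
    · obtain ⟨b, hb⟩ := h t ht
      exact ⟨b, fun _ => hb⟩
    · exact ⟨m, fun h => absurd h ht⟩
  choose b hb using h'
  have hinj : ∀ x y : Blk, (bt c x : D.X) = bt c y → x = y := by
    intro x y hxy
    have h1 := dist_bt c x y
    rw [hxy, dist_self] at h1
    exact dist_eq_zero.mp h1.symm
  have hdist : ∀ s t : ℝ, 0 ≤ s → 0 ≤ t → dist (b s) (b t) = |s - t| := by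
    intro s t hs ht
    rw [← dist_bt c, hb s hs, hb t ht, dist_ev r hs ht]
  have hb0 : b 0 = m := by
    apply hinj
    rw [hb 0 le_rfl, ev_zero]
  have hm : ∀ t : ℝ, 0 ≤ t → dist m (b t) = t := by
    intro t ht
    rw [← hb0, hdist 0 t le_rfl ht, zero_sub, abs_neg, abs_of_nonneg ht]
  have hn : ‖lg m (b 1)‖ = 1 := by rw [norm_lg, hm 1 zero_le_one]
  have key : ∀ t : ℝ, 0 ≤ t → b t = ex m (t • lg m (b 1)) := by
    intro t ht
    rcases le_total t 1 with h1 | h1
    · apply between_eq ht h1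
      · rw [hm t ht, hm 1 zero_le_one, mul_one]
      · rw [hdist t 1 ht zero_le_one, hm 1 zero_le_one, mul_one, abs_of_nonpos (by linarith)]
        ring
    · have ht0 : 0 < t := by linarith
      have h2 := between_eq (m := m) (b := b t) (z := b 1) (t := 1 / t) (by positivity)
        ((div_le_one ht0).mpr h1) (by rw [hm t ht, hm 1 zero_le_one]; field_simp) (by
          rw [hm t ht, hdist 1 t zero_le_one ht, abs_of_nonpos (by linarith)]
          field_simp
          ring)
      have h3 := congrArg (lg m) h2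
      rw [lg_ex] at h3
      rw [h3, smul_smul, mul_one_div_cancel ht0.ne', one_smul, ex_lg]
  refine ⟨⟨lg m (b 1), by rw [mem_sphere_zero_iff_norm]; exact hn⟩, ?_⟩
  apply Bd.ext'
  intro t ht
  rw [ev_rayB c m _ _ ht, ← hb t ht, key t ht]

end Pool.CBD
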