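import Pool.Agent.CBD.GMN
import Pool.Agent.CBD.WAL
import Pool.Agent.CBD.VAR
import Pool.Agent.CBD.RRL

/-!
# CBD module GSB: the subgradient inequality at a minimiser

Let w0 be a minimiser over the wall of dist m w + Psi (io w), m not in the wall.  Then on the wall
Psi (io w) is bounded below by ‖lg w0 w - Q‖ with Q = - (Psi (io w0) / dist w0 m) • lg w0 m.

PROOF.  Let G(w) = Psi (io w), a0 = G(w0), l0 = dist w0 m > 0 and w in W0, W = lg w0 w (W 1 = 0),
D = ‖W‖ = dist w0 w, k = ⟪W, lg w0 m⟫ / l0.  For 0 ≤ s ≤ 1 let w(s) = ex w0 (s • W), in W0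
(`ex_mem_W0`).  (i) minimality: G(w(s)) ≥ a0 + l0 - dist m (w(s)), and by `hasDerivAt_dist`
dist m (w(s)) = l0 - s k + o(s), so G(w(s)) ≥ a0 + s k - o(s).
(ii) strong convexity: io (w(s)) is at ratio s between io w0 and io w (`dist_io`,
`dist_left_ex_smul`, `dist_ex_smul_right`), so by `HGp.conv`
G(w(s))^2 ≤ (1-s) a0^2 + s G(w)^2 - s (1-s) D^2.
If a0 + s k - o(s) is positive for small s (it is if a0 > 0), square (i) and compare:
a0^2 + 2 a0 s k - o(s) ≤ a0^2 + s (G(w)^2 - a0^2 - D^2) + s^2 D^2; divide by s and let s → 0+: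
2 a0 k ≤ G(w)^2 - a0^2 - D^2, that is G(w)^2 ≥ ‖W‖^2 + a0^2 + 2 (a0/l0) ⟪W, lg w0 m⟫
= ‖W - Q‖^2.  If a0 = 0, (ii) gives directly (with G(w(s))^2 ≥ 0)
0 ≤ s (G(w)^2 - D^2) + s^2 D^2, so G(w)^2 ≥ D^2.
-/

namespace Pool.CBD

open Real Set

/-- If f has derivative f' at 0 and f s ≤ f 0 + s e + s^2 q for small positive s then f' ≤ e. -/
private theorem deriv_le_of_le {f : ℝ → ℝ} {f' c e q : ℝ} (hf : HasDerivAt f f' 0) (hc : f 0 = c)
    (hle : ∀ᶠ s : ℝ in nhdsWithin 0 (Set.Ioi 0), f s ≤ c + s * e + s ^ 2 * q) : f' ≤ e := by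
  have h1 : HasDerivAt (fun s : ℝ => c + s * e + s ^ 2 * q - f s) (e - f') 0 := by
    have h3 : HasDerivAt (fun s : ℝ => s * e) (1 * e) 0 := (hasDerivAt_id (0 : ℝ)).mul_const e
    have h4 : HasDerivAt (fun s : ℝ => s ^ 2 * q) ((↑(2 : ℕ) * (0 : ℝ) ^ (2 - 1)) * q) 0 :=
      (hasDerivAt_pow 2 (0 : ℝ)).mul_const q
    have h5 := ((h3.const_add c).fun_add h4).fun_sub hf
    refine h5.congr_deriv ?_
    simp
  have h6 := h1.hasDerivWithinAt (s := Set.Ioi 0)
  rw [hasDerivWithinAt_iff_tendsto_slope' (by simp)] at h6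
  have h7 : 0 ≤ e - f' := by
    refine ge_of_tendsto h6 ?_
    filter_upwards [hle, self_mem_nhdsWithin] with s hs hs0
    rw [slope_def_field]
    have hs0' : (0 : ℝ) < s := hs0
    apply div_nonneg
    · simp [hc]; linarith
    · linarith
  linarith

theorem subgrad (P : Par) {Psi : Blk → ℝ} (h : HGp Psi) {m w0 : Blk} (hm : m ∉ W0)
    (hw0 : w0 ∈ W0) (hmin : ∀ w ∈ W0, dist m w0 + Psi (io P w0) ≤ dist m w + Psi (io P w)) :
    ∀ w ∈ W0, ‖lg w0 w + (Psi (io P w0) / dist w0 m) • lg w0 m‖ ≤ Psi (io P w) := by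
  intro w hw
  have hne : w0 ≠ m := fun h' => hm (h' ▸ hw0)
  have hl0 : 0 < dist w0 m := dist_pos.mpr hne
  have ha0 : 0 ≤ Psi (io P w0) := h.nonneg _
  have hG : 0 ≤ Psi (io P w) := h.nonneg _
  have hnl : ‖lg w0 m‖ = dist w0 m := norm_lg _ _
  have hD : ‖lg w0 w‖ = dist w0 w := norm_lg _ _
  have hder1 := hasDerivAt_dist hne (lg w0 w)
  have hdm : dist m w0 = dist w0 m := dist_comm _ _
  have hW1 : lg w0 w 1 = 0 := lg_mem_W0 hw0 hw
  have hmem : ∀ s : ℝ, ex w0 (s • lg w0 w) ∈ W0 := fun s => ex_mem_W0 hw0 (by simp [hW1])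
  have hmin' : ∀ s : ℝ, dist w0 m + Psi (io P w0) ≤
      dist m (ex w0 (s • lg w0 w)) + Psi (io P (ex w0 (s • lg w0 w))) := by
    intro s
    rw [← hdm]
    exact hmin _ (hmem s)
  have hconv : ∀ s : ℝ, 0 < s → s ≤ 1 →
      Psi (io P (ex w0 (s • lg w0 w))) ^ 2 ≤ (1 - s) * Psi (io P w0) ^ 2
        + s * Psi (io P w) ^ 2 - s * (1 - s) * ‖lg w0 w‖ ^ 2 := by
    intro s hs hs1
    have e1 : dist (io P w0) (io P (ex w0 (s • lg w0 w))) = s * dist (io P w0) (io P w) := by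
      rw [dist_io P hw0 (hmem s), dist_io P hw0 hw]
      exact dist_left_ex_smul _ _ hs.le
    have e2 : dist (io P (ex w0 (s • lg w0 w))) (io P w) = (1 - s) * dist (io P w0) (io P w) := by
      rw [dist_io P (hmem s) hw, dist_io P hw0 hw]
      exact dist_ex_smul_right _ _ hs1
    have e3 := h.conv hs.le hs1 e1 e2
    rw [dist_io P hw0 hw, ← hD] at e3
    exact e3
  have hIoc : Set.Ioc (0 : ℝ) 1 ∈ nhdsWithin (0 : ℝ) (Set.Ioi 0) := Ioc_mem_nhdsGT one_pos
  generalize hgs : (fun s : ℝ => Psi (io P (ex w0 (s • lg w0 w)))) = g at *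
  have hgs' : ∀ s : ℝ, Psi (io P (ex w0 (s • lg w0 w))) = g s := fun s => congrFun hgs s
  simp only [hgs'] at hconv hmin'
  generalize Psi (io P w0) = a0 at *
  generalize Psi (io P w) = G at *
  generalize dist w0 m = l0 at *
  generalize lg w0 m = V at *
  have hd0 : dist m (ex w0 ((0 : ℝ) • lg w0 w)) = l0 := by
    rw [zero_smul, ex_zero, hdm]
  generalize hds : (fun s : ℝ => dist m (ex w0 (s • lg w0 w))) = d at *
  have hds' : ∀ s : ℝ, dist m (ex w0 (s • lg w0 w)) = d s := fun s => congrFun hds s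
  simp only [hds'] at hmin' hd0
  generalize lg w0 w = W at *
  have hkey : 2 * a0 * (inner ℝ W V / l0) ≤ G ^ 2 - a0 ^ 2 - ‖W‖ ^ 2 := by
    rcases ha0.eq_or_lt with h0 | hpos
    · -- a0 = 0
      have h1 : ∀ᶠ s : ℝ in nhdsWithin 0 (Set.Ioi 0),
          (fun _ : ℝ => (0 : ℝ)) s ≤ 0 + s * (G ^ 2 - ‖W‖ ^ 2) + s ^ 2 * ‖W‖ ^ 2 := by
        filter_upwards [hIoc] with s hs
        have h2 := hconv s hs.1 hs.2
        have h3 := sq_nonneg (g s)
        rw [← h0] at h2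
        show (0 : ℝ) ≤ _
        nlinarith
      have h2 := deriv_le_of_le (hasDerivAt_const (0 : ℝ) (0 : ℝ)) rfl h1
      rw [← h0]
      linarith
    · -- a0 > 0
      have h2 := hder1.const_sub (a0 + l0)
      have hder : HasDerivAt (fun s : ℝ => (a0 + l0 - d s) ^ 2)
          (2 * a0 * (inner ℝ W V / l0)) 0 := by
        refine (h2.fun_pow 2).congr_deriv ?_
        rw [hd0]
        have : a0 + l0 - l0 = a0 := by ring
        rw [this]
        push_cast
        ring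
      have hev : ∀ᶠ s : ℝ in nhds 0, 0 < a0 + l0 - d s := by
        apply h2.continuousAt.eventually (lt_mem_nhds ?_)
        show 0 < a0 + l0 - d 0
        rw [hd0]
        linarith
      have h1 : ∀ᶠ s : ℝ in nhdsWithin 0 (Set.Ioi 0),
          (fun s : ℝ => (a0 + l0 - d s) ^ 2) s
            ≤ a0 ^ 2 + s * (G ^ 2 - a0 ^ 2 - ‖W‖ ^ 2) + s ^ 2 * ‖W‖ ^ 2 := by
        filter_upwards [hIoc, mem_nhdsWithin_of_mem_nhds hev] with s hs hs2
        have h3 := hconv s hs.1 hs.2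
        have h4 := hmin' s
        have h5 : (a0 + l0 - d s) ^ 2 ≤ g s ^ 2 :=
          pow_le_pow_left₀ hs2.le (by linarith) 2
        show (a0 + l0 - d s) ^ 2 ≤ _
        nlinarith
      refine deriv_le_of_le hder ?_ h1
      show (a0 + l0 - d 0) ^ 2 = _
      rw [hd0]
      ring
  have hfin : ‖W + (a0 / l0) • V‖ ^ 2 ≤ G ^ 2 := by
    rw [norm_add_sq_real, norm_smul, inner_smul_right, hnl, Real.norm_eq_abs,
      abs_of_nonneg (div_nonneg ha0 hl0.le), div_mul_cancel₀ _ hl0.ne']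
    have : 2 * (a0 / l0 * inner ℝ W V) = 2 * a0 * (inner ℝ W V / l0) := by ring
    linarith
  exact (sq_le_sq₀ (norm_nonneg _) hG).mp hfin

end Pool.CBD
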