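import Pool.Agent.CBD.GDF

/-!
# CBD module GTI: IsWC is a topological invariant

PROOF.  For a homeomorphism h : Z ≃ₜ Z', h restricts to a homeomorphism C ≃ₜ h '' C
(`Homeomorph.image`), and h '' U for the three open sets: open (`Homeomorph.isOpen_image`), nonempty,
disjoint (`Set.disjoint_image_iff` with injectivity), with union h '' (Cᶜ) = (h '' C)ᶜ
(`Set.image_compl_eq` with bijectivity).  `IsWC_image_iff`: apply `IsWC.image` to h and to h.symm
(`Homeomorph.symm_image_image`..).
-/

namespace Pool.CBD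

open Real Set

theorem IsWC.image {Z Z' : Type*} [TopologicalSpace Z] [TopologicalSpace Z'] (h : Z ≃ₜ Z')
    {C : Set Z} (hC : IsWC C) : IsWC (h '' C) := by
  obtain ⟨⟨e⟩, U0, U1, U2, o0, o1, o2, n0, n1, n2, d01, d02, d12, hu⟩ := hC
  refine ⟨⟨(h.image C).symm.trans e⟩, h '' U0, h '' U1, h '' U2, h.isOpen_image.mpr o0,
    h.isOpen_image.mpr o1, h.isOpen_image.mpr o2, n0.image h, n1.image h, n2.image h,
    (disjoint_image_iff h.injective).mpr d01, (disjoint_image_iff h.injective).mpr d02,
    (disjoint_image_iff h.injective).mpr d12, ?_⟩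
  rw [← image_union, ← image_union, hu, image_compl_eq h.bijective]

theorem IsWC_image_iff {Z Z' : Type*} [TopologicalSpace Z] [TopologicalSpace Z'] (h : Z ≃ₜ Z')
    {C : Set Z} : IsWC (h '' C) ↔ IsWC C := by
  refine ⟨fun hC => ?_, fun hC => hC.image h⟩
  have h1 := hC.image h.symm
  rwa [← image_comp, h.symm_comp_self, image_id] at h1

end Pool.CBD
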