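import Pool.Agent.CBD.PSP

/-!
# CBD module GTS: a circle in a space and an embedded sphere

PROOFS.  Let φ : C ≃ₜ Circle, K = s ⁻¹' C.  C is compact (image of a compact space:
`isCompact_iff_compactSpace`, `Homeomorph.compactSpace`), so closed (Z is Hausdorff), K is closed in the
compact space S2, hence compact.  Define e : S2 → Circle by e v = φ ⟨s v, h⟩ if h : s v ∈ C and 1
otherwise.  ContinuousOn e K: `continuousOn_iff_continuous_restrict`, the restriction is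
φ ∘ (v ↦ ⟨s v, _⟩).  InjOn e K: φ and s are injective.
`sphere_top2`: suppose both meet range s.  Let A = s ⁻¹' U0, B = s ⁻¹' U1: open, nonempty, disjoint,
A ∪ B = Kᶜ.  e '' K ≠ univ: otherwise for every z ∈ C there is v ∈ K with e v = φ z, so s v = z and
C ⊆ range s, contradiction to hn.  `sphere_F` gives False.
`sphere_top3`: the same with `sphere_J` and the three preimages.
-/

namespace Pool.CBD

open Real Set

private theorem pre_data {Z : Type*} [TopologicalSpace Z] [T2Space Z] {s : S2 → Z} (hs : Continuous s)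
    (hi : Function.Injective s) {C : Set Z} (hC : Nonempty (C ≃ₜ Circle)) :
    IsCompact (s ⁻¹' C) ∧ ∃ e : S2 → Circle, ContinuousOn e (s ⁻¹' C) ∧ InjOn e (s ⁻¹' C) ∧
      (¬ C ⊆ range s → e '' (s ⁻¹' C) ≠ univ) := by
  classical
  obtain ⟨φ⟩ := hC
  have hCc : CompactSpace C := φ.symm.compactSpace
  have hCk : IsCompact C := isCompact_iff_compactSpace.mpr hCc
  refine ⟨(hCk.isClosed.preimage hs).isCompact, ?_⟩
  let e : S2 → Circle := fun v => if h : s v ∈ C then φ ⟨s v, h⟩ else 1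
  have he : ∀ v (h : s v ∈ C), e v = φ ⟨s v, h⟩ := fun v h => dif_pos h
  refine ⟨e, ?_, ?_, ?_⟩
  · rw [continuousOn_iff_continuous_domRestrict]
    have h1 : (s ⁻¹' C).domRestrict e = fun v : (s ⁻¹' C) => φ ⟨s v.1, v.2⟩ := by
      funext v
      exact he v.1 v.2
    rw [h1]
    exact φ.continuous.comp ((hs.comp continuous_subtype_val).subtype_mk _)
  · intro a ha b hb hab
    rw [he a ha, he b hb] at hab
    exact hi (congrArg Subtype.val (φ.injective hab))
  · intro hn hu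
    apply hn
    intro z hz
    have h1 : φ ⟨z, hz⟩ ∈ e '' (s ⁻¹' C) := by rw [hu]; trivial
    obtain ⟨v, hv, hv2⟩ := h1
    rw [he v hv] at hv2
    exact ⟨v, congrArg Subtype.val (φ.injective hv2)⟩

theorem sphere_top2 {Z : Type*} [TopologicalSpace Z] [T2Space Z] {s : S2 → Z} (hs : Continuous s)
    (hi : Function.Injective s) {C : Set Z} (hC : Nonempty (C ≃ₜ Circle)) (hn : ¬ C ⊆ range s)
    {U0 U1 : Set Z} (h0 : IsOpen U0) (h1 : IsOpen U1) (hd : Disjoint U0 U1) (hu : U0 ∪ U1 = Cᶜ)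
    (n0 : (U0 ∩ range s).Nonempty) (n1 : (U1 ∩ range s).Nonempty) : False := by
  obtain ⟨hK, e, he, hei, hne⟩ := pre_data hs hi hC
  obtain ⟨_, m0, v0, rfl⟩ := n0
  obtain ⟨_, m1, v1, rfl⟩ := n1
  refine sphere_F (s ⁻¹' C) (s ⁻¹' U0) (s ⁻¹' U1) hK (h0.preimage hs) (h1.preimage hs) ⟨v0, m0⟩
    ⟨v1, m1⟩ (hd.preimage s) ?_ e he hei (hne hn)
  rw [← preimage_union, hu, preimage_compl]

theorem sphere_top3 {Z : Type*} [TopologicalSpace Z] [T2Space Z] {s : S2 → Z} (hs : Continuous s)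
    (hi : Function.Injective s) {C : Set Z} (hC : Nonempty (C ≃ₜ Circle))
    {U0 U1 U2 : Set Z} (h0 : IsOpen U0) (h1 : IsOpen U1) (h2 : IsOpen U2)
    (hd01 : Disjoint U0 U1) (hd02 : Disjoint U0 U2) (hd12 : Disjoint U1 U2)
    (hu : U0 ∪ U1 ∪ U2 = Cᶜ) (n0 : (U0 ∩ range s).Nonempty) (n1 : (U1 ∩ range s).Nonempty)
    (n2 : (U2 ∩ range s).Nonempty) : False := by
  obtain ⟨hK, e, he, hei, -⟩ := pre_data hs hi hC
  obtain ⟨_, m0, v0, rfl⟩ := n0
  obtain ⟨_, m1, v1, rfl⟩ := n1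
  obtain ⟨_, m2, v2, rfl⟩ := n2
  refine sphere_J (s ⁻¹' C) (s ⁻¹' U0) (s ⁻¹' U1) (s ⁻¹' U2) hK (h0.preimage hs) (h1.preimage hs)
    (h2.preimage hs) ⟨v0, m0⟩ ⟨v1, m1⟩ ⟨v2, m2⟩ (hd01.preimage s) (hd02.preimage s)
    (hd12.preimage s) ?_ e he hei
  rw [← preimage_union, ← preimage_union, hu, preimage_compl]

end Pool.CBD
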