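import Pool.Agent.CBD.GDG
import Pool.Agent.CBD.GSC

/-!
# CBD module GVA: the distance to the wall, cut off outside the half behind the wall

PROOF.  Let δ(x) = infDist x (bt c '' W0).  Put F.f d b = δ (bt d b) if Beh c d, and 0 otherwise
(classical if).  lip: d is fixed, so both values are given by the same case; δ is 1-Lipschitz
(`Metric.lipschitz_infDist_pt`, `dist_bt`).  mul: `beh_mul_right`, `bt_mul`.
flip, w ∈ W0: bt d.flip (io w) = bt d w =: x (`bt_flip`).  If Beh c d.flip ↔ Beh c d, clear.  Otherwise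
`beh_flip_right` gives k with k a0 = a0 and d = c.mul k or d = c.flip.mul k; in both cases
x ∈ bt c '' W0 (`wall_mul`, `wall_flip`; c.flip.mul k : `wall_mul` for c.flip), so δ x = 0
(`Metric.infDist_zero_of_mem`) and both values are 0.
-/

namespace Pool.CBD

open Real Set

variable {K N : Type} [Group K] [MulAction K N] {D : CDat K N}

open Classical in
private noncomputable def gvaF (c d : D.G.Ch) (b : Blk) : ℝ :=
  if Beh c d then Metric.infDist (bt d b : D.X) ((bt c : Blk → D.X) '' W0) else 0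

private lemma gvaF_pos {c d : D.G.Ch} (h : Beh c d) (b : Blk) :
    gvaF c d b = Metric.infDist (bt d b : D.X) ((bt c : Blk → D.X) '' W0) := if_pos h

private lemma gvaF_neg {c d : D.G.Ch} (h : ¬ Beh c d) (b : Blk) : gvaF c d b = 0 := if_neg h

private lemma gvaF_zero {c d : D.G.Ch} {b : Blk}
    (h : (bt d b : D.X) ∈ (bt c : Blk → D.X) '' W0) : gvaF c d b = 0 := by
  by_cases h1 : Beh c d
  · rw [gvaF_pos h1, Metric.infDist_zero_of_mem h]
  · exact gvaF_neg h1 b

theorem exists_behind (c : D.G.Ch) : ∃ F : LipF D.G,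
    (∀ (d : D.G.Ch) (b : Blk), Beh c d →
      F.f d b = Metric.infDist (bt d b : D.X) ((bt c : Blk → D.X) '' W0)) ∧
    ∀ (d : D.G.Ch) (b : Blk), ¬ Beh c d → F.f d b = 0 := by
  refine ⟨⟨gvaF c, ?_, ?_, ?_⟩, ?_, ?_⟩
  · intro d b b'
    by_cases h : Beh c d
    · rw [gvaF_pos h, gvaF_pos h]
      have h1 := (Metric.lipschitz_infDist_pt ((bt c : Blk → D.X) '' W0)).dist_le_mul
        (bt d b) (bt d b')
      rw [Real.dist_eq, NNReal.coe_one, one_mul] at h1
      have h2 : dist (bt d b : D.X) (bt d b') = dist b b' := dist_bt d b b'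
      rwa [h2] at h1
    · rw [gvaF_neg h, gvaF_neg h, sub_self, abs_zero]
      exact dist_nonneg
  · intro d k b
    by_cases h : Beh c d
    · rw [gvaF_pos h, gvaF_pos ((beh_mul_right c d k).2 h), bt_mul]
    · rw [gvaF_neg h, gvaF_neg fun h' => h ((beh_mul_right c d k).1 h')]
  · intro d w hw
    have hb : (bt d.flip (D.G.io w) : D.X) = bt d w := bt_flip d hw
    by_cases h : Beh c d.flip ↔ Beh c d
    · by_cases h1 : Beh c d
      · rw [gvaF_pos h1, gvaF_pos (h.2 h1), hb]
      · rw [gvaF_neg h1, gvaF_neg fun h' => h1 (h.1 h')]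
    · obtain ⟨k, hk, h1⟩ := beh_flip_right h
      have hw' : w ∈ W0 := hw
      have hx : (bt d w : D.X) ∈ (bt c : Blk → D.X) '' W0 := by
        rcases h1 with h1 | h1
        · rw [← wall_mul c hk, ← h1]
          exact ⟨w, hw', rfl⟩
        · rw [← wall_flip c, ← wall_mul c.flip hk, ← h1]
          exact ⟨w, hw', rfl⟩
      rw [gvaF_zero hx, gvaF_zero (by rw [hb]; exact hx)]
  · intro d b h
    exact gvaF_pos h b
  · intro d b h
    exact gvaF_neg h b

end Pool.CBD
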