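import Pool.Agent.CBD.GDG
import Pool.Agent.CBD.GSC

/-!
# CBD module GVB: the side of a wall does not depend on the chart

PROOFS.  `OnS_mul`: d.mul j = c.mul k iff d = c.mul (k j⁻¹) (`Ch.mul_mul`, `Ch.mul_one`), and
act k b = act (k j⁻¹) (act j b) (`act_mul`); the second case by `beh_mul_right`.
`OnS_flip_imp`: w ∈ W0, x = bt d w not in the wall of c, OnS c e d w.
Case 1: d = c.mul k and 0 < e * (act k w).h.y.  Then k a0 ≠ a0 (otherwise bt d w = bt c (act k w) with
act k w ∈ W0 by `D.G.act_W`, `bt_mul`: x would be in the wall).  d.flip is behind d = c.mul k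
(`beh_flip`), and for w' ∈ W0: (act k w).h.y * (act k w').h.y > 0 by `D.line k` and `lo_side`, so
0 < e * (act k w').h.y (`pos_of_mul_pos..`, nlinarith).  So the second alternative holds for d.flip.
Case 2: k a0 ≠ a0, Beh (c.mul k) d, all 0 < e * (act k w').h.y.  If Beh (c.mul k) d.flip: clear.
Otherwise `beh_flip_right` (for c.mul k and d) gives k1 with k1 a0 = a0 and d = (c.mul k).mul k1
(impossible, `not_beh_mul`) or d = (c.mul k).flip.mul k1.  Then d.flip = c.mul (k * sg k1)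
(`Ch.flip_mul`, `Ch.flip_flip`, `Ch.mul_mul`), and act (k * sg k1) (io w) = act k (act (sg k1) (io w))
with act (sg k1) (io w) ∈ W0 (`sg_mem`, `act_W`, `io_mem`): the first alternative holds for d.flip.
`OnS_flip`: apply `OnS_flip_imp` to d and to d.flip with io w (`Ch.flip_flip`, `io_io`, and
bt d.flip (io w) = bt d w by `bt_flip`).
-/

namespace Pool.CBD

open Real Set

variable {K N : Type} [Group K] [MulAction K N] {D : CDat K N}

theorem OnS_mul {c : D.G.Ch} {e : ℝ} {d : D.G.Ch} {j : K} {b : Blk} :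
    OnS c e (d.mul j) b ↔ OnS c e d (D.act j b) := by
  constructor
  · rintro (⟨k, h1, h2⟩ | ⟨k, h1, h2, h3⟩)
    · refine Or.inl ⟨k * j⁻¹, ?_, ?_⟩
      · have := congrArg (fun x : D.G.Ch => x.mul j⁻¹) h1
        simpa only [Ch.mul_mul, mul_inv_cancel, Ch.mul_one] using this
      · rw [← D.act_mul, inv_mul_cancel_right]
        exact h2
    · exact Or.inr ⟨k, h1, (beh_mul_right _ _ _).mp h2, h3⟩
  · rintro (⟨k, h1, h2⟩ | ⟨k, h1, h2, h3⟩)
    · refine Or.inl ⟨k * j, ?_, ?_⟩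
      · rw [h1, Ch.mul_mul]
      · rw [D.act_mul]
        exact h2
    · exact Or.inr ⟨k, h1, (beh_mul_right _ _ _).mpr h2, h3⟩

theorem OnS_flip_imp {c : D.G.Ch} {e : ℝ} {d : D.G.Ch} {w : Blk} (hw : w ∈ W0)
    (hx : (bt d w : D.X) ∉ (bt c : Blk → D.X) '' W0) (h : OnS c e d w) :
    OnS c e d.flip (io D.P w) := by
  rcases h with ⟨k, h1, h2⟩ | ⟨k, h1, h2, h3⟩
  · have hk : k • D.a0 ≠ D.a0 := by
      intro hk
      rw [D.side k hk w, mem_W0.mp hw] at h2
      simp at h2
    obtain ⟨u, hu, hu3, hl⟩ := D.line k hk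
    refine Or.inr ⟨k, hk, ?_, fun w' hw' => ?_⟩
    · rw [h1]
      exact beh_flip _
    · have h4 := lo_side hu hu3 ((hl _).mp ⟨w, hw, rfl⟩) ((hl _).mp ⟨w', hw', rfl⟩)
      have h5 := mul_pos h2 h4
      by_contra h6
      have h7 : e * (D.act k w').h.y ≤ 0 := not_lt.mp h6
      have h8 := mul_nonpos_of_nonpos_of_nonneg h7 (sq_nonneg (D.act k w).h.y)
      have h9 : e * (D.act k w).h.y * ((D.act k w).h.y * (D.act k w').h.y) =
          e * (D.act k w').h.y * (D.act k w).h.y ^ 2 := by ring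
      rw [h9] at h5
      exact absurd h5 (not_lt.mpr h8)
  · by_cases h4 : Beh (c.mul k) d.flip
    · exact Or.inr ⟨k, h1, h4, h3⟩
    · obtain ⟨k1, hk1, h5 | h5⟩ := beh_flip_right (c := c.mul k) (d := d) (fun h => h4 (h.mpr h2))
      · rw [h5] at h2
        exact absurd h2 (not_beh_mul _ _)
      · refine Or.inl ⟨k * D.sg k1, ?_, ?_⟩
        · rw [h5, Ch.flip_mul _ hk1, Ch.flip_flip, Ch.mul_mul]
          rfl
        · rw [D.act_mul]
          apply h3
          rw [mem_W0, D.side _ (D.sg_mem k1 hk1)]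
          exact io_mem D.P w

theorem OnS_flip {c : D.G.Ch} {e : ℝ} {d : D.G.Ch} {w : Blk} (hw : w ∈ W0)
    (hx : (bt d w : D.X) ∉ (bt c : Blk → D.X) '' W0) :
    OnS c e d.flip (io D.P w) ↔ OnS c e d w := by
  constructor
  · intro h
    have h1 : (bt d.flip (io D.P w) : D.X) = bt d w := bt_flip (D := D.G) d hw
    have h2 := OnS_flip_imp (c := c) (d := d.flip) (io_mem D.P w) (by rw [h1]; exact hx) h
    rwa [Ch.flip_flip, io_io D.P hw] at h2
  · exact OnS_flip_imp hw hx

end Pool.CBD
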