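import Pool.Agent.CBD.GDG

/-!
# CBD module GVC: crossing from a side of the wall to the other parts of the block meets the wall

PROOFS.  `cross_W0`: 0 < e * b.h.y, ¬ 0 < e * b'.h.y.  The function t ↦ e * (ex b (t • lg b b')).h.y on
[0, 1] is continuous (`continuous_ex`; the y-coordinate of a block point is continuous: e.g. it is
e * y where y is a continuous function on Hyp; use `continuous_lg` or that `infDist`.. simplest:
b.h.y = 0-criterion via `lg_one`: for m0 = wp 0 0, lg m0 b 1 = kd (dist ..) * b.h.y has the same sign as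
b.h.y, `lg_one_pos`, `lg_one_neg`, and lg m0 · 1 is continuous by `continuous_lg`), positive at 0 and
≤ 0 at 1 (`ex_lg`), so it vanishes at some t ∈ [0, 1] (intermediate value theorem):
w = ex b (t • lg b b') ∈ W0 and dist b w = t * dist b b' ≤ dist b b' (`dist_left_ex_smul`).
`OnS_lip`: OnS c e d b and ¬ OnS c e d b'.  The second alternative for (d, b) does not depend on b, so it
would give OnS c e d b'.  So d = c.mul k with 0 < e * (act k b).h.y, and ¬ 0 < e * (act k b').h.y.
`cross_W0` gives w ∈ W0 with dist (act k b) w ≤ dist (act k b) (act k b') = dist b b' (`act_dist` or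
`act_iso`), and infDist (bt d b) (bt c '' W0) ≤ dist (bt c (act k b)) (bt c w) (`bt_mul`, `dist_bt`,
`Metric.infDist_le_dist_of_mem`).
-/

namespace Pool.CBD

open Real Set

variable {K N : Type} [Group K] [MulAction K N] {D : CDat K N}

private theorem gvc_sign {e : ℝ} {b : Blk} : 0 < e * lg (wp 0 0) b 1 ↔ 0 < e * b.h.y := by
  have h0 := wp_mem 0 0
  rw [mul_pos_iff, mul_pos_iff, lg_one_pos h0, lg_one_neg h0]

private theorem gvc_cont0 (b : Blk) (v : E3) : Continuous fun t : ℝ => (b, t • v) :=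
  continuous_const.prodMk (continuous_id.smul continuous_const)

private theorem gvc_cont1 (b : Blk) (v : E3) : Continuous fun t : ℝ => ex b (t • v) :=
  Continuous.comp (g := fun u : Blk × E3 => ex u.1 u.2) (f := fun t : ℝ => (b, t • v))
    continuous_ex (gvc_cont0 b v)

private theorem gvc_cont2 (b : Blk) (v : E3) : Continuous fun t : ℝ => (wp 0 0, ex b (t • v)) :=
  continuous_const.prodMk (gvc_cont1 b v)

private theorem gvc_cont (b b' : Blk) : Continuous fun t : ℝ => lg (wp 0 0) (ex b (t • lg b b')) :=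
  Continuous.comp (g := fun u : Blk × Blk => lg u.1 u.2)
    (f := fun t : ℝ => (wp 0 0, ex b (t • lg b b'))) continuous_lg (gvc_cont2 b (lg b b'))

theorem cross_W0 {e : ℝ} {b b' : Blk} (h : 0 < e * b.h.y) (h' : ¬ 0 < e * b'.h.y) :
    ∃ w ∈ W0, dist b w ≤ dist b b' := by
  have he : e ≠ 0 := by
    rintro rfl
    simp at h
  let f : ℝ → ℝ := fun t => e * lg (wp 0 0) (ex b (t • lg b b')) 1
  have hc : Continuous f := by
    have h2 : Continuous fun t : ℝ => lg (wp 0 0) (ex b (t • lg b b')) := gvc_cont b b'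
    exact continuous_const.mul ((EuclideanSpace.proj (𝕜 := ℝ) (1 : Fin 3)).continuous.comp h2)
  have f0 : 0 < f 0 := by
    simp only [f, zero_smul, ex_zero]
    exact gvc_sign.mpr h
  have f1 : f 1 ≤ 0 := by
    simp only [f, one_smul, ex_lg]
    exact not_lt.mp (fun h2 => h' (gvc_sign.mp h2))
  obtain ⟨t, ht, hft⟩ := intermediate_value_Icc' (zero_le_one) hc.continuousOn
    (⟨f1, f0.le⟩ : (0 : ℝ) ∈ Icc (f 1) (f 0))
  refine ⟨ex b (t • lg b b'), ?_, ?_⟩
  · have h3 : lg (wp 0 0) (ex b (t • lg b b')) 1 = 0 := (mul_eq_zero.mp hft).resolve_left he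
    rw [mem_W0]
    have h0 := wp_mem 0 0
    by_contra hne
    rcases lt_or_gt_of_ne hne with h4 | h4
    · exact absurd h3 (ne_of_lt ((lg_one_neg h0).mpr h4))
    · exact absurd h3 (ne_of_gt ((lg_one_pos h0).mpr h4))
  · rw [dist_left_ex_smul b b' ht.1]
    exact mul_le_of_le_one_left dist_nonneg ht.2

theorem OnS_lip {c : D.G.Ch} {e : ℝ} {d : D.G.Ch} {b b' : Blk} (h : OnS c e d b)
    (h' : ¬ OnS c e d b') :
    Metric.infDist (bt d b : D.X) ((bt c : Blk → D.X) '' W0) ≤ dist b b' := by
  rcases h with ⟨k, h1, h2⟩ | ⟨k, h1, h2, h3⟩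
  · have h3 : ¬ 0 < e * (D.act k b').h.y := fun h3 => h' (Or.inl ⟨k, h1, h3⟩)
    obtain ⟨w, hw, hd⟩ := cross_W0 h2 h3
    rw [(D.act_iso k).dist_eq] at hd
    refine (Metric.infDist_le_dist_of_mem (mem_image_of_mem _ hw)).trans ?_
    refine le_trans (le_of_eq ?_) hd
    have h4 : (bt d b : D.X) = bt c (D.act k b) := by
      rw [h1]
      exact bt_mul (D := D.G) c k b
    rw [h4]
    exact dist_bt (D := D.G) c _ _
  · exact absurd (Or.inr ⟨k, h1, h2, h3⟩) h'

end Pool.CBD
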