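import Pool.Agent.CBD.GVB
import Pool.Agent.CBD.GVC

/-!
# CBD module GVD: the distance to the wall, cut off outside one side

PROOF.  Let δ(x) = infDist x (bt c '' W0), and F.f d b = δ (bt d b) if OnS c e d b, 0 otherwise.
lip: if both or none of (d, b), (d, b') satisfy OnS: δ is 1-Lipschitz (`Metric.lipschitz_infDist_pt`,
`dist_bt`) or trivial; if exactly one does: `OnS_lip` (and symmetry).  mul: `OnS_mul`, `bt_mul`.
flip, w ∈ W0: x = bt d w = bt d.flip (io w) (`bt_flip`).  If x is in the wall both values are 0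
(`Metric.infDist_zero_of_mem`); otherwise `OnS_flip`.
-/

namespace Pool.CBD

open Real Set

variable {K N : Type} [Group K] [MulAction K N] {D : CDat K N}

theorem exists_side (c : D.G.Ch) (e : ℝ) : ∃ F : LipF D.G,
    (∀ (d : D.G.Ch) (b : Blk), OnS c e d b →
      F.f d b = Metric.infDist (bt d b : D.X) ((bt c : Blk → D.X) '' W0)) ∧
    ∀ (d : D.G.Ch) (b : Blk), ¬ OnS c e d b → F.f d b = 0 := by
  classical
  obtain ⟨S, hS⟩ : ∃ S : Set D.X, S = (bt c : Blk → D.X) '' W0 := ⟨_, rfl⟩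
  rw [← hS]
  obtain ⟨f, hf⟩ : ∃ f : D.G.Ch → Blk → ℝ, f = fun d b =>
      if OnS c e d b then Metric.infDist (bt d b : D.X) S else 0 := ⟨_, rfl⟩
  have hf1 : ∀ (d : D.G.Ch) (b : Blk), OnS c e d b → f d b = Metric.infDist (bt d b : D.X) S := by
    intro d b h
    rw [hf]
    simp only [if_pos h]
  have hf2 : ∀ (d : D.G.Ch) (b : Blk), ¬ OnS c e d b → f d b = 0 := by
    intro d b h
    rw [hf]
    simp only [if_neg h]
  refine ⟨⟨f, ?_, ?_, ?_⟩, hf1, hf2⟩
  · -- lip
    intro d b b'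
    by_cases h : OnS c e d b <;> by_cases h' : OnS c e d b'
    · rw [hf1 d b h, hf1 d b' h']
      have h1 := (Metric.lipschitz_infDist_pt S).dist_le_mul (bt d b : D.X) (bt d b')
      rw [Real.dist_eq, dist_bt] at h1
      simpa using h1
    · rw [hf1 d b h, hf2 d b' h', sub_zero, abs_of_nonneg Metric.infDist_nonneg, hS]
      exact OnS_lip h h'
    · rw [hf2 d b h, hf1 d b' h', zero_sub, abs_neg, abs_of_nonneg Metric.infDist_nonneg, hS,
        dist_comm b b']
      exact OnS_lip h' h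
    · rw [hf2 d b h, hf2 d b' h', sub_zero, abs_zero]
      exact dist_nonneg
  · -- mul
    intro d k b
    have hb : (bt (d.mul k) b : D.X) = bt d (D.G.act k b) := bt_mul d k b
    by_cases h : OnS c e (d.mul k) b
    · rw [hf1 _ _ h, hb, hf1 d (D.G.act k b) (OnS_mul.mp h)]
    · rw [hf2 _ _ h, hf2 d (D.G.act k b) (fun h' => h (OnS_mul.mpr h'))]
  · -- flip
    intro d w hw
    have hb : (bt d.flip (D.G.io w) : D.X) = bt d w := bt_flip d hw
    by_cases hx : (bt d w : D.X) ∈ S
    · have h0 : ∀ (d' : D.G.Ch) (b : Blk), (bt d' b : D.X) ∈ S → f d' b = 0 := by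
        intro d' b hb
        by_cases h : OnS c e d' b
        · rw [hf1 _ _ h, Metric.infDist_zero_of_mem hb]
        · exact hf2 _ _ h
      rw [h0 _ _ hx, h0 _ _ (hb.symm ▸ hx)]
    · rw [hS] at hx
      have hiff := OnS_flip (e := e) hw hx
      by_cases h : OnS c e d w
      · rw [hf1 _ _ h, hf1 d.flip (D.G.io w) (hiff.mpr h), hb]
      · rw [hf2 _ _ h, hf2 d.flip (D.G.io w) (fun h' => h (hiff.mp h'))]

end Pool.CBD
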