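import Pool.Agent.CBD.GDG
import Pool.Agent.CBD.GSC

/-!
# CBD module GVE: the three parts are disjoint and cover the complement of the wall

PROOFS.  `OnS_not_beh`: suppose Beh c d.  First alternative: d = c.mul k, `not_beh_mul`.  Second: k a0 ≠ a0
and Beh (c.mul k) d; Beh c d is Beh (c.mul 1) d (`Ch.mul_one`), so k a0 = 1 a0 = a0 by `beh_unique`.
`OnS_disj`: both first: c.mul k = c.mul k' gives k = k' (`Ch.ext_iff`, cancel), so y and -y would be
positive.  First and second: Beh (c.mul k') (c.mul k) with c.mul k = (c.mul k').mul (k'⁻¹ k):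
`not_beh_mul`.  Both second: `beh_unique` gives k a0 = k' a0, so j = k⁻¹ k' fixes a0,
act k' w = act k (act j w) with act j w ∈ W0 (`act_W`) for w = wp 0 0: contradiction of the signs.
`OnS_cover`: assume ¬ Beh c d.  `tri c d`: if d = c.mul k then y = (act k b).h.y ≠ 0 (otherwise
bt d b = bt c (act k b) is in the wall): first alternative with the sign of y.  If Beh (c.mul k) d then
k a0 ≠ a0 (otherwise Beh c d by `beh_mul_left`), and by `D.line k` and `lo_side`
(act k w).h.y * (act k w').h.y > 0 for all w, w' ∈ W0: second alternative, the sign being that of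
(act k (wp 0 0)).h.y.
-/

namespace Pool.CBD

open Real Set

variable {K N : Type} [Group K] [MulAction K N] {D : CDat K N}

theorem OnS_not_beh {c : D.G.Ch} {e : ℝ} {d : D.G.Ch} {b : Blk} (h : OnS c e d b) :
    ¬ Beh c d := by
  rcases h with ⟨k, rfl, _⟩ | ⟨k, hk, hb, _⟩
  · exact not_beh_mul c k
  · intro h'
    have h1 : Beh (c.mul 1) d := by rwa [Ch.mul_one]
    exact hk ((beh_unique hb h1).trans (one_smul _ _))

private theorem gve_aux {c d : D.G.Ch} {k k' : K} (h1 : d = c.mul k) (h2 : Beh (c.mul k') d) :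
    False := by
  have e : d = (c.mul k').mul (k'⁻¹ * k) := by
    rw [Ch.mul_mul, mul_inv_cancel_left]
    exact h1
  rw [e] at h2
  exact not_beh_mul _ _ h2

theorem OnS_disj {c : D.G.Ch} {d : D.G.Ch} {b : Blk} (h : OnS c 1 d b) (h' : OnS c (-1) d b) :
    False := by
  rcases h with ⟨k, h1, h2⟩ | ⟨k, h1, h2, h3⟩
  · rcases h' with ⟨k', h1', h2'⟩ | ⟨k', h1', h2', h3'⟩
    · have e : c.mul k = c.mul k' := h1.symm.trans h1'
      have e2 : c.k * k = c.k * k' := congrArg Ch.k e
      have e3 : k = k' := mul_left_cancel e2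
      subst e3
      linarith
    · exact gve_aux h1 h2'
  · rcases h' with ⟨k', h1', h2'⟩ | ⟨k', h1', h2', h3'⟩
    · exact gve_aux h1' h2
    · have e : k • D.a0 = k' • D.a0 := beh_unique h2 h2'
      have hj : (k⁻¹ * k') • D.a0 = D.a0 := by
        rw [mul_smul, ← e, inv_smul_smul]
      have hw : D.act (k⁻¹ * k') (wp 0 0) ∈ W0 := by
        rw [mem_W0, D.side _ hj]
        exact wp_mem 0 0
      have a1 := h3 _ hw
      have a2 := h3' _ (wp_mem 0 0)
      rw [← D.act_mul, mul_inv_cancel_left] at a1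
      linarith

theorem OnS_cover {c : D.G.Ch} {d : D.G.Ch} {b : Blk}
    (hx : (bt d b : D.X) ∉ (bt c : Blk → D.X) '' W0) :
    Beh c d ∨ OnS c 1 d b ∨ OnS c (-1) d b := by
  by_cases hB : Beh c d
  · exact Or.inl hB
  right
  rcases tri c d with ⟨k, rfl⟩ | ⟨k, hb⟩
  · have hy : (D.act k b).h.y ≠ 0 := fun h0 =>
      hx ⟨D.act k b, mem_W0.mpr h0, (bt_mul c k b).symm⟩
    rcases lt_or_gt_of_ne hy with h | h
    · exact Or.inr (Or.inl ⟨k, rfl, by linarith⟩)
    · exact Or.inl (Or.inl ⟨k, rfl, by linarith⟩)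
  · have hk : k • D.a0 ≠ D.a0 := fun h => hB ((beh_mul_left c d h).mp hb)
    obtain ⟨u, hu, h3, hl⟩ := D.line k hk
    have key : ∀ w ∈ W0, 0 < (D.act k (wp 0 0)).h.y * (D.act k w).h.y := fun w hw =>
      lo_side hu h3 ((hl _).mp ⟨_, wp_mem 0 0, rfl⟩) ((hl _).mp ⟨w, hw, rfl⟩)
    rcases lt_trichotomy (D.act k (wp 0 0)).h.y 0 with h | h | h
    · refine Or.inr (Or.inr ⟨k, hk, hb, fun w hw => ?_⟩)
      have := (neg_iff_neg_of_mul_pos (key w hw)).mp h
      linarith
    · have := key _ (wp_mem 0 0)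
      rw [h] at this
      simp at this
    · refine Or.inl (Or.inr ⟨k, hk, hb, fun w hw => ?_⟩)
      have := (mul_pos_iff_of_pos_left h).mp (key w hw)
      linarith

end Pool.CBD
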