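import Pool.Agent.CBD.GLF
import Pool.Agent.CBD.GVA
import Pool.Agent.CBD.GVD
import Pool.Agent.CBD.GVE

/-!
# CBD module GVF: the complement of a wall is the union of three disjoint open sets

PROOF.  Let F0 from `exists_behind c`, F1, F2 from `exists_side c 1`, `exists_side c (-1)`, u0 u1 u2
their functions on D.X (`LipF.desc`), Vi = {x | 0 < ui x}, open (`isOpen_lt`).  Every x is bt d b
(`exists_bt`).  Let δ = infDist · (bt c '' W0); δ x > 0 iff x is not in the wall (`wall_closed`,
`wall_nonempty`, `IsClosed.notMem_iff_infDist_pos`).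
0 < F0.f d b implies Beh c d; 0 < F1.f d b implies OnS c 1 d b, etc.: disjointness by `OnS_not_beh`,
`OnS_disj`.  Union: ⊆: a positive value is δ x, so x is not in the wall; ⊇: `OnS_cover`.
Membership: b.h.y > 0: OnS c 1 c b (first alternative with k = 1: `Ch.mul_one`, `act_one`), and
bt c b is not in the wall (`bt_inj`-type argument: `dist_bt`), similarly for b.h.y < 0.  Beh c c.flip
(`beh_flip`) and bt c.flip b is not in bt c '' W0 = bt c.flip '' W0 (`wall_flip`).
-/

namespace Pool.CBD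

open Real Set

variable {K N : Type} [Group K] [MulAction K N] {D : CDat K N}

private theorem GVF_off (c : D.G.Ch) {b : Blk} (hb : b.h.y ≠ 0) :
    (bt c b : D.X) ∉ (bt c : Blk → D.X) '' W0 := by
  rintro ⟨w, hw, h⟩
  have h1 : dist w b = 0 := by
    rw [← dist_bt (D := D.G) c w b, h, dist_self]
  rw [dist_eq_zero.mp h1] at hw
  exact hb (mem_W0.mp hw)

theorem pieces (c : D.G.Ch) : ∃ V0 V1 V2 : Set D.X, IsOpen V0 ∧ IsOpen V1 ∧ IsOpen V2 ∧
    Disjoint V0 V1 ∧ Disjoint V0 V2 ∧ Disjoint V1 V2 ∧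
    V0 ∪ V1 ∪ V2 = ((bt c : Blk → D.X) '' W0)ᶜ ∧
    (∀ b : Blk, 0 < b.h.y → (bt c.flip b : D.X) ∈ V0) ∧
    (∀ b : Blk, 0 < b.h.y → (bt c b : D.X) ∈ V1) ∧
    (∀ b : Blk, b.h.y < 0 → (bt c b : D.X) ∈ V2) := by
  obtain ⟨F0, h01, h02⟩ := exists_behind c
  obtain ⟨F1, h11, h12⟩ := exists_side c 1
  obtain ⟨F2, h21, h22⟩ := exists_side c (-1)
  obtain ⟨u0, c0, -, e0⟩ := F0.desc
  obtain ⟨u1, c1, -, e1⟩ := F1.desc
  obtain ⟨u2, c2, -, e2⟩ := F2.desc
  have hpos : ∀ x : D.X, x ∉ (bt c : Blk → D.X) '' W0 →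
      0 < Metric.infDist x ((bt c : Blk → D.X) '' W0) := fun x hx =>
    ((wall_closed c).notMem_iff_infDist_pos (wall_nonempty c)).mp hx
  have hneg : ∀ x : D.X, x ∈ (bt c : Blk → D.X) '' W0 →
      Metric.infDist x ((bt c : Blk → D.X) '' W0) = 0 := fun x hx => Metric.infDist_zero_of_mem hx
  have b0 : ∀ (d : D.G.Ch) (b : Blk), 0 < u0 (bt d b) → Beh c d := by
    intro d b h
    rw [e0] at h
    by_contra hc
    rw [h02 d b hc] at h
    exact lt_irrefl _ h
  have b1 : ∀ (d : D.G.Ch) (b : Blk), 0 < u1 (bt d b) → OnS c 1 d b := by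
    intro d b h
    rw [e1] at h
    by_contra hc
    rw [h12 d b hc] at h
    exact lt_irrefl _ h
  have b2 : ∀ (d : D.G.Ch) (b : Blk), 0 < u2 (bt d b) → OnS c (-1) d b := by
    intro d b h
    rw [e2] at h
    by_contra hc
    rw [h22 d b hc] at h
    exact lt_irrefl _ h
  refine ⟨{x | 0 < u0 x}, {x | 0 < u1 x}, {x | 0 < u2 x}, isOpen_lt continuous_const c0,
    isOpen_lt continuous_const c1, isOpen_lt continuous_const c2, ?_, ?_, ?_, ?_, ?_, ?_, ?_⟩
  · rw [Set.disjoint_left]
    intro x hx hx'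
    obtain ⟨d, b, rfl⟩ := exists_bt x
    exact OnS_not_beh (b1 d b hx') (b0 d b hx)
  · rw [Set.disjoint_left]
    intro x hx hx'
    obtain ⟨d, b, rfl⟩ := exists_bt x
    exact OnS_not_beh (b2 d b hx') (b0 d b hx)
  · rw [Set.disjoint_left]
    intro x hx hx'
    obtain ⟨d, b, rfl⟩ := exists_bt x
    exact OnS_disj (b1 d b hx) (b2 d b hx')
  · ext x
    constructor
    · intro hx hw
      have h0 := hneg x hw
      obtain ⟨d, b, rfl⟩ := exists_bt x
      rcases hx with (hx | hx) | hx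
      · have hx' : 0 < u0 (bt d b) := hx
        have := b0 d b hx'
        rw [e0, h01 d b this, h0] at hx'
        exact lt_irrefl _ hx'
      · have hx' : 0 < u1 (bt d b) := hx
        have := b1 d b hx'
        rw [e1, h11 d b this, h0] at hx'
        exact lt_irrefl _ hx'
      · have hx' : 0 < u2 (bt d b) := hx
        have := b2 d b hx'
        rw [e2, h21 d b this, h0] at hx'
        exact lt_irrefl _ hx'
    · intro hx
      have h0 := hpos x hx
      obtain ⟨d, b, rfl⟩ := exists_bt x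
      rcases OnS_cover hx with h | h | h
      · refine Or.inl (Or.inl ?_)
        change 0 < u0 (bt d b)
        rw [e0, h01 d b h]
        exact h0
      · refine Or.inl (Or.inr ?_)
        change 0 < u1 (bt d b)
        rw [e1, h11 d b h]
        exact h0
      · refine Or.inr ?_
        change 0 < u2 (bt d b)
        rw [e2, h21 d b h]
        exact h0
  · intro b hb
    change 0 < u0 (bt c.flip b)
    rw [e0, h01 _ _ (beh_flip c)]
    apply hpos
    rw [← wall_flip c]
    exact GVF_off c.flip hb.ne'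
  · intro b hb
    change 0 < u1 (bt c b)
    have h : OnS c 1 c b := by
      refine Or.inl ⟨1, (Ch.mul_one c).symm, ?_⟩
      rw [D.act_one, one_mul]
      exact hb
    rw [e1, h11 _ _ h]
    exact hpos _ (GVF_off c hb.ne')
  · intro b hb
    change 0 < u2 (bt c b)
    have h : OnS c (-1) c b := by
      refine Or.inl ⟨1, (Ch.mul_one c).symm, ?_⟩
      rw [D.act_one]
      linarith
    rw [e2, h21 _ _ h]
    exact hpos _ (GVF_off c hb.ne)

end Pool.CBD
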