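import Pool.Agent.CBD.GTI
import Pool.Agent.CBD.GBP
import Pool.Agent.CBD.GVF
import Pool.Agent.CBD.GCH

/-!
# CBD module GWA: wall circles satisfy IsWC

PROOF.  Base point w0 = bt c (wp 0 0) first.  `Cir_homeo` gives the homeomorphism with the circle.  For
the complement: `pieces c` and `bdS_pieces` with S = bt c '' W0 (`wall_conv`, `wall_closed`, w0 ∈ S).
The three rays: rayB c (wp 0 0) v with v = !₂[0, 1, 0] and v = !₂[0, -1, 0] at t = 1: ev = bt c (ex (wp 0 0)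
(1 • v)), and (ex (wp 0 0) v).h.y > 0 resp. < 0 by `lg_one_pos`, `lg_one_neg`, `lg_ex`, `wp_mem`.
For V0: the ray t ↦ bt c.flip (ex (wp 0 0) (t • !₂[0, 1, 0])) from w0: build it with `mkRay` (its value at
0 is bt c.flip (wp 0 0) = bt c.flip (io (wp 0 0)) = bt c (wp 0 0) by `ex_zero`, `io_wp`, `bt_flip`; the
isometry property by `dist_bt`, `dist_ex_smul`).
General base point: `IsWC.image` with the homeomorphism bc (cat0_X D) w0 o and `bdS_image`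
(bc .. '' bdS w0 S = bdS o S; unfold Cir).
-/

namespace Pool.CBD

open Real Set

variable {K N : Type} [Group K] [MulAction K N] {D : CDat K N}

private theorem GWA_y1 {v : E3} (hv : 0 < v 1) : 0 < (ex (wp 0 0) v).h.y := by
  rw [← lg_one_pos (wp_mem 0 0), lg_ex]
  exact hv

private theorem GWA_y2 {v : E3} (hv : v 1 < 0) : (ex (wp 0 0) v).h.y < 0 := by
  rw [← lg_one_neg (wp_mem 0 0), lg_ex]
  exact hv

private theorem GWA_n1 : ‖(!₂[(0 : ℝ), 1, 0] : E3)‖ = 1 := by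
  have h1 : ‖(!₂[(0 : ℝ), 1, 0] : E3)‖ ^ 2 = 1 := by
    rw [norm_sq3]
    change (0 : ℝ) ^ 2 + (1 : ℝ) ^ 2 + (0 : ℝ) ^ 2 = 1
    norm_num
  have h2 : 0 ≤ ‖(!₂[(0 : ℝ), 1, 0] : E3)‖ := norm_nonneg _
  nlinarith

private theorem GWA_n2 : ‖(!₂[(0 : ℝ), -1, 0] : E3)‖ = 1 := by
  have h1 : ‖(!₂[(0 : ℝ), -1, 0] : E3)‖ ^ 2 = 1 := by
    rw [norm_sq3]
    change (0 : ℝ) ^ 2 + (-1 : ℝ) ^ 2 + (0 : ℝ) ^ 2 = 1
    norm_num
  have h2 : 0 ≤ ‖(!₂[(0 : ℝ), -1, 0] : E3)‖ := norm_nonneg _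
  nlinarith

private theorem GWA_base (c : D.G.Ch) :
    IsWC (bdS (bt c (wp 0 0) : D.X) ((bt c : Blk → D.X) '' W0)) := by
  have hmem : (bt c (wp 0 0) : D.X) ∈ (bt c : Blk → D.X) '' W0 := ⟨_, wp_mem 0 0, rfl⟩
  refine ⟨Cir_homeo (bt c (wp 0 0)) c, ?_⟩
  obtain ⟨V0, V1, V2, h0, h1, h2, d01, d02, d12, hu, p0, p1, p2⟩ := pieces (D := D) c
  refine bdS_pieces (cat0_X D) (wall_conv c) (wall_closed c) hmem h0 h1 h2 d01 d02 d12 hu ?_ ?_ ?_
  · have hio : (bt c.flip (wp 0 0) : D.X) = bt c (wp 0 0) := by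
      have h3 : (bt c.flip (D.G.io (wp 0 0)) : D.X) = bt c (wp 0 0) :=
        bt_flip (D := D.G) c (wp_mem 0 0)
      have h4 : D.G.io (wp 0 0) = wp 0 0 := by
        change io D.P (wp 0 0) = wp 0 0
        rw [io_wp]
        simp
      rwa [h4] at h3
    refine ⟨mkRay (fun t => bt c.flip (ex (wp 0 0) (t • !₂[(0 : ℝ), 1, 0]))) ?_ ?_, 1, zero_le_one,
      ?_⟩
    · change bt c.flip (ex (wp 0 0) ((0 : ℝ) • !₂[(0 : ℝ), 1, 0])) = _
      rw [zero_smul, ex_zero, hio]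
    · intro s t _ _
      rw [dist_bt, dist_ex_smul, GWA_n1, mul_one]
    · rw [ev_mkRay _ _ _ zero_le_one]
      apply p0
      apply GWA_y1
      change (0 : ℝ) < 1 * 1
      norm_num
  · refine ⟨rayB c (wp 0 0) _ GWA_n1, 1, zero_le_one, ?_⟩
    rw [ev_rayB _ _ _ _ zero_le_one]
    apply p1
    apply GWA_y1
    change (0 : ℝ) < 1 * 1
    norm_num
  · refine ⟨rayB c (wp 0 0) _ GWA_n2, 1, zero_le_one, ?_⟩
    rw [ev_rayB _ _ _ _ zero_le_one]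
    apply p2
    apply GWA_y2
    change (1 : ℝ) * (-1) < 0
    norm_num

theorem isWC_Cir (o : D.X) (c : D.G.Ch) : IsWC (Cir o c) := by
  have h1 := IsWC.image (bc (cat0_X D) (bt c (wp 0 0)) o) (GWA_base c)
  rw [bdS_image] at h1
  exact h1

end Pool.CBD
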