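import Pool.Agent.CBD.GQN
import Pool.Agent.CBD.GQT

/-!
# CBD module GZZ: the boundaries for si = 0 and for si > 0 are not homeomorphic
-/

namespace Pool.CBD

open Real Set

theorem boundaries_differ {K N : Type} [Group K] [MulAction K N] (D D' : CDat K N)
    (hD : D.P.si = 0) (hD' : 0 < D'.P.si) (o : D.X) (o' : D'.X) :
    IsEmpty (Bd D.X o ≃ₜ Bd D'.X o') := by
  refine ⟨fun e => ?_⟩
  obtain ⟨z, hz, hn⟩ := QQ_not_preconn D' hD' o'
  have h1 : IsPole (e.symm z) := hz.map e.symm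
  have h2 := preconn_QQ e _ (QQ_preconn D hD o _ h1)
  rw [e.apply_symm_apply] at h2
  exact hn h2

end Pool.CBD
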