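import Pool.Agent.CBD.Geo

/-!
# CBD module HFR: frame identities of the hyperboloid

PROOF.  With p = (X, Y, T), T^2 = 1 + X^2 + Y^2, 1 + T > 0, everything is a polynomial identity
after clearing the denominator 1 + T; use `p.h`, `q.h`, `r.h` (field_simp, then linear_combination,
or rewrite X^2 + Y^2 = (T - 1)(T + 1) first).  Useful: X^2/(1+T) + Y^2/(1+T) = T - 1.
-/

namespace Pool.CBD

open Real Set

namespace Hyp

private theorem hfr_inv (p : Hyp) : (1 + p.t)⁻¹ * (1 + p.t) = 1 := by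
  have := p.pos
  exact inv_mul_cancel₀ (by positivity)

private theorem hfr_c1 (p q : Hyp) :
    c1 p q = q.x - p.x * (q.t - (p.x * q.x + p.y * q.y) * (1 + p.t)⁻¹) := by
  have h := hfr_inv p
  unfold c1 cc
  rw [div_eq_mul_inv]
  linear_combination (-(p.x * q.t)) * h

private theorem hfr_c2 (p q : Hyp) :
    c2 p q = q.y - p.y * (q.t - (p.x * q.x + p.y * q.y) * (1 + p.t)⁻¹) := by
  have h := hfr_inv p
  unfold c2 cc
  rw [div_eq_mul_inv]
  linear_combination (-(p.y * q.t)) * h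

theorem c1c2_sq (p q : Hyp) : c1 p q ^ 2 + c2 p q ^ 2 = cc p q ^ 2 - 1 := by
  rw [hfr_c1, hfr_c2]
  have hi := hfr_inv p
  generalize (1 + p.t)⁻¹ = i at *
  have h1 := p.h
  have h2 := q.h
  unfold cc
  linear_combination ((p.x * q.x + p.y * q.y) ^ 2
    - 2 * q.t * (p.x * q.x + p.y * q.y) * (p.t - 1)
    + (p.x * q.x + p.y * q.y) ^ 2 * i * (p.t - 1)) * hi - h2
    - (q.t - (p.x * q.x + p.y * q.y) * i) ^ 2 * h1

theorem c1c2_mul (p q r : Hyp) : c1 p q * c1 p r + c2 p q * c2 p r = cc p q * cc p r - cc q r := by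
  rw [hfr_c1, hfr_c2, hfr_c1, hfr_c2]
  have hi := hfr_inv p
  generalize (1 + p.t)⁻¹ = i at *
  have h1 := p.h
  unfold cc
  linear_combination ((p.x * q.x + p.y * q.y) * (p.x * r.x + p.y * r.y)
    - (p.t - 1) * (q.t * (p.x * r.x + p.y * r.y) + r.t * (p.x * q.x + p.y * q.y))
    + (p.t - 1) * i * ((p.x * q.x + p.y * q.y) * (p.x * r.x + p.y * r.y))) * hi
    - (q.t - (p.x * q.x + p.y * q.y) * i) * (r.t - (p.x * r.x + p.y * r.y) * i) * h1

theorem rec_x (p q : Hyp) : q.x = cc p q * p.x + c1 p q * (1 + p.x ^ 2 / (1 + p.t))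
    + c2 p q * (p.x * p.y / (1 + p.t)) := by
  rw [hfr_c1, hfr_c2, div_eq_mul_inv, div_eq_mul_inv]
  have hi := hfr_inv p
  generalize (1 + p.t)⁻¹ = i at *
  have h1 := p.h
  unfold cc
  linear_combination (-(p.x * (p.x * q.x + p.y * q.y)
    - p.x * (p.t - 1) * (q.t - (p.x * q.x + p.y * q.y) * i))) * hi
    - p.x * i * (q.t - (p.x * q.x + p.y * q.y) * i) * h1

theorem rec_y (p q : Hyp) : q.y = cc p q * p.y + c1 p q * (p.x * p.y / (1 + p.t))
    + c2 p q * (1 + p.y ^ 2 / (1 + p.t)) := by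
  rw [hfr_c1, hfr_c2, div_eq_mul_inv, div_eq_mul_inv]
  have hi := hfr_inv p
  generalize (1 + p.t)⁻¹ = i at *
  have h1 := p.h
  unfold cc
  linear_combination (-(p.y * (p.x * q.x + p.y * q.y)
    - p.y * (p.t - 1) * (q.t - (p.x * q.x + p.y * q.y) * i))) * hi
    - p.y * i * (q.t - (p.x * q.x + p.y * q.y) * i) * h1

theorem rec_t (p q : Hyp) : q.t = cc p q * p.t + c1 p q * p.x + c2 p q * p.y := by
  rw [hfr_c1, hfr_c2]
  have hi := hfr_inv p
  generalize (1 + p.t)⁻¹ = i at *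
  have h1 := p.h
  unfold cc
  linear_combination (-((p.t - 1) * (p.x * q.x + p.y * q.y))) * hi
    - (q.t - (p.x * q.x + p.y * q.y) * i) * h1

end Hyp

end Pool.CBD
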