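import Pool.Agent.CBD.BTW
import Pool.Agent.CBD.ISO

/-!
# CBD module HGD: functions with hinge vectors

`HGp Psi`: at every point m there is a vector P (the direction and distance to the centre) with
‖P‖ = Psi m and ‖lg m b - P‖ ≤ Psi b for all b.  The distance to a point is the model case.

PROOFS.  `HGp.of_dist`: P = lg m x, `norm_lg`, `hinge`.
`HGp.comp`: P := A.symm P' where P' is the vector of Psi at F m and A is from `BIso.lg_map`.
`HGp.lip`: Psi b ≥ ‖lg m b - P‖ ≥ ‖P‖ - ‖lg m b‖ = Psi m - dist m b; exchange m and b.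
`HGp.conv` (strong convexity): let P be the vector at m.  Psi x^2 ≥ ‖lg m x‖^2 - 2⟪lg m x, P⟫ + ‖P‖^2
and the same for y; (1-t) lg m x + t lg m y = 0: by `between_lg` (dist x m + dist m y = dist x y)
dist m y • lg m x + dist x m • lg m y = 0, that is d • ((1-t) lg m x + t lg m y) = 0 with
d = dist x y; if d = 0 then x = m = y and the claim is clear.  So
(1-t) Psi x^2 + t Psi y^2 ≥ Psi m^2 + (1-t) t^2 d^2 + t (1-t)^2 d^2 = Psi m^2 + t(1-t) d^2.
-/

namespace Pool.CBD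

open Real Set

def HGp (Psi : Blk → ℝ) : Prop :=
  ∀ m, ∃ P : E3, ‖P‖ = Psi m ∧ ∀ b, ‖lg m b - P‖ ≤ Psi b

theorem HGp.of_dist (x : Blk) : HGp (fun b => dist b x) := by
  intro m
  exact ⟨lg m x, norm_lg m x, fun b => hinge m b x⟩

theorem HGp.comp {Psi : Blk → ℝ} (h : HGp Psi) {F : Blk → Blk} (hF : BIso F) :
    HGp (fun b => Psi (F b)) := by
  intro m
  obtain ⟨A, hA, -, -⟩ := hF.lg_map m
  obtain ⟨P, hP, hP2⟩ := h (F m)
  refine ⟨A.symm P, by rw [A.symm.norm_map]; exact hP, fun b => ?_⟩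
  have h1 := hP2 (F b)
  rw [hA b] at h1
  have h2 : ‖A (lg m b) - P‖ = ‖lg m b - A.symm P‖ := by
    rw [← A.norm_map (lg m b - A.symm P), map_sub, A.apply_symm_apply]
  rwa [h2] at h1

theorem HGp.nonneg {Psi : Blk → ℝ} (h : HGp Psi) (m : Blk) : 0 ≤ Psi m := by
  obtain ⟨P, hP, -⟩ := h m
  rw [← hP]
  exact norm_nonneg P

private theorem HGD_lip {Psi : Blk → ℝ} (h : HGp Psi) (m b : Blk) : Psi m - Psi b ≤ dist m b := by
  obtain ⟨P, hP, hP2⟩ := h m
  have h1 := hP2 b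
  have h2 : ‖P‖ ≤ ‖lg m b‖ + ‖lg m b - P‖ := by
    calc ‖P‖ = ‖lg m b - (lg m b - P)‖ := by rw [sub_sub_cancel]
      _ ≤ _ := norm_sub_le _ _
  rw [hP, norm_lg] at h2
  linarith

theorem HGp.lip {Psi : Blk → ℝ} (h : HGp Psi) (b b' : Blk) : |Psi b - Psi b'| ≤ dist b b' := by
  have h1 := HGD_lip h b b'
  have h2 := HGD_lip h b' b
  rw [dist_comm b' b] at h2
  rw [abs_le]
  constructor <;> linarith

theorem HGp.conv {Psi : Blk → ℝ} (h : HGp Psi) {x m y : Blk} {t : ℝ} (ht : 0 ≤ t) (ht1 : t ≤ 1)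
    (h1 : dist x m = t * dist x y) (h2 : dist m y = (1 - t) * dist x y) :
    Psi m ^ 2 ≤ (1 - t) * Psi x ^ 2 + t * Psi y ^ 2 - t * (1 - t) * dist x y ^ 2 := by
  by_cases hd : dist x y = 0
  · rw [hd, mul_zero] at h1 h2
    have e1 : x = m := dist_eq_zero.mp h1
    have e2 : m = y := dist_eq_zero.mp h2
    rw [hd, e1, ← e2]
    apply le_of_eq
    ring
  · obtain ⟨P, hP, hP2⟩ := h m
    have hb := between_lg (x := x) (m := m) (y := y) (by rw [h1, h2]; ring)
    have hin := congrArg (fun v : E3 => inner ℝ v P) hb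
    simp only [inner_add_left, inner_smul_left, inner_zero_left] at hin
    simp only [conj_trivial] at hin
    rw [dist_comm m x, h1, h2] at hin
    have hin2 : (1 - t) * inner ℝ (lg m x) P + t * inner ℝ (lg m y) P = 0 := by
      have h3 : dist x y * ((1 - t) * inner ℝ (lg m x) P + t * inner ℝ (lg m y) P) = 0 := by
        linear_combination hin
      exact (mul_eq_zero.mp h3).resolve_left hd
    have hx : ‖lg m x - P‖ ^ 2 ≤ Psi x ^ 2 := pow_le_pow_left₀ (norm_nonneg _) (hP2 x) 2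
    have hy : ‖lg m y - P‖ ^ 2 ≤ Psi y ^ 2 := pow_le_pow_left₀ (norm_nonneg _) (hP2 y) 2
    rw [norm_sub_sq_real, norm_lg, hP] at hx hy
    rw [dist_comm m x, h1] at hx
    rw [h2] at hy
    nlinarith [mul_le_mul_of_nonneg_left hx (sub_nonneg.mpr ht1), mul_le_mul_of_nonneg_left hy ht]

end Pool.CBD
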