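import Mathlib

/-!
# CBD: the hyperbolic plane in hyperboloid coordinates and the block H2 x R

`Hyp` is the upper sheet of t^2 = 1 + x^2 + y^2, `cc p q` is minus the Lorentz product (the
hyperbolic cosine of the distance) and the distance is `Real.arcosh (cc p q)`.
`Blk` is the product of `Hyp` with the real line, with the Euclidean product metric.
-/

namespace Pool.CBD

open Real

@[ext]
structure Hyp where
  x : ℝ
  y : ℝ
  t : ℝ
  h : t ^ 2 = 1 + x ^ 2 + y ^ 2
  pos : 0 < t

namespace Hyp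

/-- The point of the hyperboloid above (x, y). -/
noncomputable def of (x y : ℝ) : Hyp where
  x := x
  y := y
  t := √(1 + x ^ 2 + y ^ 2)
  h := Real.sq_sqrt (by positivity)
  pos := Real.sqrt_pos.mpr (by positivity)

/-- Minus the Lorentz product: the hyperbolic cosine of the distance. -/
def cc (p q : Hyp) : ℝ := p.t * q.t - p.x * q.x - p.y * q.y

theorem cc_comm (p q : Hyp) : cc p q = cc q p := by
  unfold cc; ring

theorem cc_self (p : Hyp) : cc p p = 1 := by
  have := p.h
  unfold cc; linarith [this, sq p.t, sq p.x, sq p.y, mul_self_nonneg p.x, pow_two p.t]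

theorem t_eq (p : Hyp) : p.t = √(1 + p.x ^ 2 + p.y ^ 2) := by
  rw [← p.h, Real.sqrt_sq p.pos.le]

theorem ext' {p q : Hyp} (hx : p.x = q.x) (hy : p.y = q.y) : p = q := by
  ext
  · exact hx
  · exact hy
  · rw [t_eq, t_eq, hx, hy]

/-- cc - 1 is half of the Lorentz square of the difference, and it is at least this. -/
theorem cc_sq_sub (p q : Hyp) :
    cc p q ^ 2 - 1 = (p.t * q.x - q.t * p.x) ^ 2 + (p.t * q.y - q.t * p.y) ^ 2
      - (p.x * q.y - q.x * p.y) ^ 2 := by
  have h1 := p.h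
  have h2 := q.h
  unfold cc
  linear_combination (q.t ^ 2 - q.x ^ 2 - q.y ^ 2) * h1 + h2

theorem one_le_cc (p q : Hyp) : 1 ≤ cc p q := by
  have h1 := p.h
  have h2 := q.h
  have hp := p.pos
  have hq := q.pos
  have hcs : (p.x * q.x + p.y * q.y + 1) ^ 2 ≤ (p.t * q.t) ^ 2 := by
    rw [mul_pow, h1, h2]
    nlinarith [sq_nonneg (p.x * q.y - p.y * q.x), sq_nonneg (p.x - q.x), sq_nonneg (p.y - q.y)]
  have := abs_le_of_sq_le_sq' hcs (by positivity)
  unfold cc
  linarith [this.2]

theorem eq_of_cc_eq_one {p q : Hyp} (h : cc p q = 1) : p = q := by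
  have h1 := p.h
  have h2 := q.h
  have hp := p.pos
  have hq := q.pos
  have key : (p.x * q.x + p.y * q.y + 1) ^ 2 = (p.t * q.t) ^ 2 := by
    have : p.t * q.t = p.x * q.x + p.y * q.y + 1 := by unfold cc at h; linarith
    rw [this]
  rw [mul_pow, h1, h2] at key
  have h3 : (p.x * q.y - p.y * q.x) ^ 2 + (p.x - q.x) ^ 2 + (p.y - q.y) ^ 2 = 0 := by
    nlinarith
  have h4 : (p.x - q.x) ^ 2 = 0 := by
    nlinarith [sq_nonneg (p.x * q.y - p.y * q.x), sq_nonneg (p.x - q.x), sq_nonneg (p.y - q.y)]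
  have h5 : (p.y - q.y) ^ 2 = 0 := by
    nlinarith [sq_nonneg (p.x * q.y - p.y * q.x), sq_nonneg (p.x - q.x), sq_nonneg (p.y - q.y)]
  apply ext'
  · have := pow_eq_zero_iff (two_ne_zero) |>.mp h4; linarith
  · have := pow_eq_zero_iff (two_ne_zero) |>.mp h5; linarith

/-- The Gram determinant identity. -/
theorem gram (p q r : Hyp) :
    (cc p q ^ 2 - 1) * (cc q r ^ 2 - 1) - (cc p r - cc p q * cc q r) ^ 2 =
      (p.x * (q.y * r.t - q.t * r.y) - p.y * (q.x * r.t - q.t * r.x)
        + p.t * (q.x * r.y - q.y * r.x)) ^ 2 := by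
  have h1 := cc_self p
  have h2 := cc_self q
  have h3 := cc_self r
  have key : (p.x * (q.y * r.t - q.t * r.y) - p.y * (q.x * r.t - q.t * r.x)
        + p.t * (q.x * r.y - q.y * r.x)) ^ 2 =
      cc p p * cc q q * cc r r + 2 * cc p q * cc q r * cc p r - cc p p * cc q r ^ 2
        - cc q q * cc p r ^ 2 - cc r r * cc p q ^ 2 := by
    unfold cc; ring
  rw [key, h1, h2, h3]
  ring

noncomputable instance : Dist Hyp := ⟨fun p q => Real.arcosh (cc p q)⟩

theorem dist_def (p q : Hyp) : dist p q = Real.arcosh (cc p q) := rfl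

theorem cosh_dist (p q : Hyp) : Real.cosh (dist p q) = cc p q :=
  Real.cosh_arcosh (one_le_cc p q)

theorem sinh_dist (p q : Hyp) : Real.sinh (dist p q) = √(cc p q ^ 2 - 1) :=
  Real.sinh_arcosh (one_le_cc p q)

theorem dist_nonneg' (p q : Hyp) : 0 ≤ dist p q := Real.arcosh_nonneg (one_le_cc p q)

theorem dist_triangle' (p q r : Hyp) : dist p r ≤ dist p q + dist q r := by
  have h0 : 0 ≤ dist p q + dist q r := add_nonneg (dist_nonneg' _ _) (dist_nonneg' _ _)
  rw [← Real.arcosh_cosh h0, dist_def p r]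
  rw [Real.arcosh_le_arcosh (lt_of_lt_of_le one_pos (one_le_cc _ _)) (Real.cosh_pos _)]
  rw [Real.cosh_add, cosh_dist, cosh_dist, sinh_dist, sinh_dist]
  have hs1 : 0 ≤ cc p q ^ 2 - 1 := by nlinarith [one_le_cc p q]
  have hs2 : 0 ≤ cc q r ^ 2 - 1 := by nlinarith [one_le_cc q r]
  rw [← Real.sqrt_mul hs1]
  have hg := gram p q r
  have : (cc p r - cc p q * cc q r) ^ 2 ≤ (cc p q ^ 2 - 1) * (cc q r ^ 2 - 1) := by
    nlinarith [sq_nonneg (p.x * (q.y * r.t - q.t * r.y) - p.y * (q.x * r.t - q.t * r.x)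
        + p.t * (q.x * r.y - q.y * r.x))]
  have h4 := Real.abs_le_sqrt this
  have h5 := le_abs_self (cc p r - cc p q * cc q r)
  linarith

noncomputable instance : MetricSpace Hyp where
  dist_self p := by rw [dist_def, cc_self, Real.arcosh_zero]
  dist_comm p q := by rw [dist_def, dist_def, cc_comm]
  dist_triangle := dist_triangle'
  eq_of_dist_eq_zero {p q} h := by
    rw [dist_def, Real.arcosh_eq_zero_iff (one_le_cc _ _)] at h
    exact eq_of_cc_eq_one h

end Hyp

/-- The block: the product of the hyperbolic plane and the real line. -/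
@[ext]
structure Blk where
  h : Hyp
  v : ℝ

namespace Blk

noncomputable instance : Dist Blk := ⟨fun a b => √(dist a.h b.h ^ 2 + (a.v - b.v) ^ 2)⟩

theorem dist_def (a b : Blk) : dist a b = √(dist a.h b.h ^ 2 + (a.v - b.v) ^ 2) := rfl

theorem dist_sq (a b : Blk) : dist a b ^ 2 = dist a.h b.h ^ 2 + (a.v - b.v) ^ 2 := by
  rw [dist_def, Real.sq_sqrt (by positivity)]

theorem dist_triangle' (a b c : Blk) : dist a c ≤ dist a b + dist b c := by
  have h1 : dist a.h c.h ≤ dist a.h b.h + dist b.h c.h := dist_triangle _ _ _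
  have hab : 0 ≤ dist a b := Real.sqrt_nonneg _
  have hbc : 0 ≤ dist b c := Real.sqrt_nonneg _
  apply Real.sqrt_le_iff.mpr
  refine ⟨add_nonneg hab hbc, ?_⟩
  have e1 := dist_sq a b
  have e2 := dist_sq b c
  have d0 : 0 ≤ dist a.h c.h := dist_nonneg
  have d1 : 0 ≤ dist a.h b.h := dist_nonneg
  have d2 : 0 ≤ dist b.h c.h := dist_nonneg
  have h2 : dist a.h c.h ^ 2 ≤ (dist a.h b.h + dist b.h c.h) ^ 2 := by
    apply pow_le_pow_left₀ d0 h1
  have h3 : dist a.h b.h * dist b.h c.h + (a.v - b.v) * (b.v - c.v) ≤ dist a b * dist b c := by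
    apply le_of_sq_le_sq _ (mul_nonneg hab hbc)
    rw [mul_pow, e1, e2]
    nlinarith [sq_nonneg (dist a.h b.h * (b.v - c.v) - dist b.h c.h * (a.v - b.v))]
  nlinarith [h2, h3, e1, e2]
  where
  le_of_sq_le_sq {x y : ℝ} (h : x ^ 2 ≤ y ^ 2) (hy : 0 ≤ y) : x ≤ y := by
    exact le_trans (le_abs_self x) (abs_le_of_sq_le_sq h hy)

noncomputable instance : MetricSpace Blk where
  dist_self a := by rw [dist_def]; simp
  dist_comm a b := by
    rw [dist_def, dist_def, dist_comm a.h b.h]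
    congr 2
    ring
  dist_triangle := dist_triangle'
  eq_of_dist_eq_zero {a b} h := by
    have h1 := dist_sq a b
    rw [h] at h1
    have h2 : dist a.h b.h ^ 2 = 0 := by
      nlinarith [sq_nonneg (a.v - b.v), sq_nonneg (dist a.h b.h)]
    have h3 : (a.v - b.v) ^ 2 = 0 := by
      nlinarith [sq_nonneg (a.v - b.v), sq_nonneg (dist a.h b.h)]
    have h4 : dist a.h b.h = 0 := pow_eq_zero_iff (two_ne_zero) |>.mp h2
    have h5 : a.v - b.v = 0 := pow_eq_zero_iff (two_ne_zero) |>.mp h3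
    exact Blk.ext (dist_eq_zero.mp h4) (by linarith)

end Blk

end Pool.CBD
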