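import Pool.Agent.CBD.CDt
import Pool.Agent.CBD.DSE
import Pool.Agent.CBD.GLU

/-!
# CBD module KHG: distance functions of the glued space are hinge functions on every block

PROOFS.  `flip_glu`: `sep_flip` (module DSE) and the definition of glu (W = W0 and io = io P for D.G, by
rfl).
`hg_dist`: by homogeneity (q = bt d b', apply a group element moving d to the base chart: `exists_GG`,
`dist_smul'`, `smul_bt`) assume d = base; induction `Ch.ind` on c: P c := ∀ b', HGp (fun b => dist (bt c b)
(bt base b')).  mul: bt_mul and `HGp.comp` with `D.act_iso k`.  base: `dist_bt` and `HGp.of_dist`.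
Step: Beh c base: `flip_glu` and `HGp.glu`.
-/

namespace Pool.CBD

open Real Set

variable {K N : Type} [Group K] [MulAction K N] (D : CDat K N)

theorem flip_glu {c d : D.G.Ch} (h : Beh c d) (b' : Blk) :
    (fun b : Blk => dist (bt c b) (bt d b')) =
      glu D.P (fun b : Blk => dist (bt c.flip b) (bt d b')) := by
  funext b
  rw [sep_flip h b b']
  rfl

theorem hg_dist (c : D.G.Ch) (q : D.X) : HGp (fun b : Blk => dist (bt c b) q) := by
  obtain ⟨d, b', rfl⟩ := exists_bt q
  obtain ⟨g, hg⟩ := exists_GG d (Ch.base D.G.toDat)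
  have key : ∀ c : D.G.Ch, HGp (fun b : Blk => dist (bt c b) (bt (Ch.base D.G.toDat) b' : D.X)) := by
    intro c
    refine Ch.ind (D := D.G.toDat)
      (fun c => HGp (fun b : Blk => dist (bt c b) (bt (Ch.base D.G.toDat) b' : D.X))) ?_ ?_ ?_ c
    · intro c k hc
      have h1 := HGp.comp hc (D.act_iso k)
      have h2 : (fun b : Blk => dist (bt (c.mul k) b : D.X) (bt (Ch.base D.G.toDat) b' : D.X)) =
          fun b : Blk => dist (bt c (D.act k b) : D.X) (bt (Ch.base D.G.toDat) b' : D.X) := by
        funext b
        rw [bt_mul]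
        rfl
      rw [h2]
      exact h1
    · have h2 : (fun b : Blk => dist (bt (Ch.base D.G.toDat) b : D.X) (bt (Ch.base D.G.toDat) b' : D.X)) =
          fun b : Blk => dist b b' := by
        funext b
        exact dist_bt _ _ _
      rw [h2]
      exact HGp.of_dist b'
    · intro c hc hf
      rw [flip_glu D hc b']
      exact HGp.glu D.P hf
  have h3 := key (g.1 c)
  have h4 : (fun b : Blk => dist (bt (g.1 c) b : D.X) (bt (Ch.base D.G.toDat) b' : D.X)) =
      fun b : Blk => dist (bt c b : D.X) (bt d b') := by
    funext b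
    rw [← hg, ← smul_bt, ← smul_bt, dist_smul']
  rw [h4] at h3
  exact h3

end Pool.CBD
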