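import Pool.Agent.CBD.KHG
import Pool.Agent.CBD.CRS
import Pool.Agent.CBD.DLB

/-!
# CBD module KLM: the local midpoint inequality in the glued space

PROOF.  m = bt c b (`exists_bt`).  Case A: b is on no wall: e from `walls_dist`, `local_int`; points x, y at
distance s < e from m are bt c bx, bt c by (bt (c.mul k) b = bt c (act k b)); dist bx by = 2 s etc. by
`dist_bt`; `HGp.conv` for `hg_dist D c p` with t = 1/2.
Case B: act k w = b for some k, w in W0: replace c by c.mul k, so m = bt c w = bt c.flip (io w).  e = arcosh 3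
(= D.G.del).  By `local_wall` x and y are each in block c or in block c.flip.  If both are in c, or both in
c.flip: as in case A (base points w, resp. io w).  Otherwise, exchanging c and c.flip (`Ch.flip_flip`,
io_io) or x and y, x = bt c bx, y = bt c.flip by, dist w bx = s, dist (io w) by = s.  For every w' in W0:
dist bx w + dist (io w) by = 2 s = dist x y ≤ dist bx w' + dist (io w') by (through bt c w' =
bt c.flip (io w')).  Let p = bt d b'.  If Beh c d: with Psi = dist (bt c.flip ·) p (HGp by `hg_dist`),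
glu Psi = dist (bt c ·) p (`flip_glu`) and `crossing` gives the claim.  Otherwise Beh c.flip d
(`beh_flip_left`) and `crossing` applies with the roles of (c, x) and (c.flip, y) exchanged (m replaced by
io w).
-/

namespace Pool.CBD

open Real Set

variable {K N : Type} [Group K] [MulAction K N] (D : CDat K N)

private theorem klm_same (c : D.G.Ch) {b bx bw : Blk} {s : ℝ} (h1 : dist b bx = s)
    (h2 : dist b bw = s) (h3 : dist bx bw = 2 * s) (p : D.X) :
    2 * dist p (bt c b) ^ 2 + 2 * s ^ 2 ≤ dist p (bt c bx) ^ 2 + dist p (bt c bw) ^ 2 := by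
  have h := (hg_dist D c p).conv (x := bx) (m := b) (y := bw) (t := 1 / 2) (by norm_num)
    (by norm_num) (by rw [dist_comm, h1, h3]; ring) (by rw [h2, h3]; ring)
  rw [h3, dist_comm (bt c b) p, dist_comm (bt c bx) p, dist_comm (bt c bw) p] at h
  nlinarith

private theorem klm_mixed (c : D.G.Ch) {w bx bw : Blk} (hw : w ∈ W0) {s : ℝ} (hs : 0 < s)
    (h1 : dist w bx = s) (h2 : dist (io D.P w) bw = s)
    (h3 : dist (bt c bx : D.X) (bt c.flip bw) = 2 * s) (p : D.X) :
    2 * dist p (bt c w) ^ 2 + 2 * s ^ 2 ≤ dist p (bt c bx) ^ 2 + dist p (bt c.flip bw) ^ 2 := by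
  have hfl : ∀ w' ∈ W0, (bt c.flip (io D.P w') : D.X) = bt c w' := fun w' hw' =>
    bt_flip (D := D.G) c hw'
  have hmin : ∀ w' ∈ W0, dist bx w + dist (io D.P w) bw ≤ dist bx w' + dist (io D.P w') bw := by
    intro w' hw'
    have h4 : dist bx w + dist (io D.P w) bw = 2 * s := by rw [dist_comm bx w, h1, h2]; ring
    rw [h4, ← h3]
    have h5 := dist_triangle (bt c bx : D.X) (bt c w') (bt c.flip bw)
    have h6 : dist (bt c w' : D.X) (bt c.flip bw) = dist (io D.P w') bw := by
      rw [← hfl w' hw']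
      exact dist_bt _ _ _
    have h7 : dist (bt c bx : D.X) (bt c w') = dist bx w' := dist_bt _ _ _
    rw [h6, h7] at h5
    exact h5
  obtain ⟨d, b', rfl⟩ := exists_bt p
  by_cases hB : Beh c d
  · have h4 := crossing D.P (hg_dist D c.flip (bt d b')) hw hs h1 h2 hmin
    have h5 := congrFun (flip_glu D hB b') bx
    rw [← h5] at h4
    rw [hfl w hw] at h4
    rw [dist_comm (bt d b') (bt c w), dist_comm (bt d b') (bt c bx),
      dist_comm (bt d b') (bt c.flip bw)]
    exact h4
  · have hB' : Beh c.flip d := (beh_flip_left c d).2 hB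
    have hiw : io D.P w ∈ W0 := io_mem D.P w
    have hiow : io D.P (io D.P w) = w := io_io D.P hw
    have h4 := crossing D.P (hg_dist D c (bt d b')) hiw hs h2 (by rw [hiow]; exact h1) (by
      intro w' hw'
      rw [hiow]
      have h5 := hmin (io D.P w') (io_mem D.P w')
      rw [io_io D.P hw'] at h5
      rw [dist_comm bw (io D.P w), dist_comm w bx, dist_comm bw w', dist_comm (io D.P w') bx]
      linarith)
    have h5 := congrFun (flip_glu D hB' b') bw
    have h6 : (fun b : Blk => dist (bt c.flip.flip b : D.X) (bt d b')) =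
        fun b : Blk => dist (bt c b : D.X) (bt d b') := by
      rw [Ch.flip_flip]
    rw [h6] at h5
    rw [← h5, hiow] at h4
    rw [dist_comm (bt d b') (bt c w), dist_comm (bt d b') (bt c bx),
      dist_comm (bt d b') (bt c.flip bw)]
    linarith

theorem local_mid (m : D.X) : ∃ e > 0, ∀ (x y : D.X) (s : ℝ), 0 < s → s < e → dist m x = s →
    dist m y = s → dist x y = 2 * s → ∀ p : D.X, 2 * dist p m ^ 2 + 2 * s ^ 2 ≤
      dist p x ^ 2 + dist p y ^ 2 := by
  obtain ⟨c, b, rfl⟩ := exists_bt m
  by_cases hb : ∀ k, ∀ w ∈ D.G.W, D.G.act k w ≠ b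
  · obtain ⟨e, he0, he⟩ := walls_dist hb
    refine ⟨e, he0, ?_⟩
    intro x y s hs hse hx hy hxy p
    have key : ∀ z : D.X, dist (bt c b) z = s → ∃ bz, z = bt c bz := by
      intro z hz
      obtain ⟨d, bz, rfl⟩ := exists_bt z
      obtain ⟨k, rfl⟩ := local_int he (by rw [hz]; exact hse)
      exact ⟨D.G.act k bz, bt_mul _ _ _⟩
    obtain ⟨bx, rfl⟩ := key x hx
    obtain ⟨bw, rfl⟩ := key y hy
    exact klm_same D c ((dist_bt (D := D.G) c _ _).symm.trans hx)
      ((dist_bt (D := D.G) c _ _).symm.trans hy) ((dist_bt (D := D.G) c _ _).symm.trans hxy) p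
  · push Not at hb
    obtain ⟨k, w, hw, hkw⟩ := hb
    have hm : (bt c b : D.X) = bt (c.mul k) w := by
      rw [← hkw]
      exact (bt_mul (D := D.G) c k w).symm
    rw [hm]
    generalize c.mul k = c'
    have hw' : w ∈ W0 := hw
    have hfl : (bt c'.flip (io D.P w) : D.X) = bt c' w := bt_flip (D := D.G) c' hw
    refine ⟨D.G.del, D.G.del_pos, ?_⟩
    intro x y s hs hse hx hy hxy p
    have key : ∀ z : D.X, dist (bt c' w) z = s →
        (∃ bz, z = bt c' bz ∧ dist w bz = s) ∨ ∃ bz, z = bt c'.flip bz ∧ dist (io D.P w) bz = s := by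
      intro z hz
      obtain ⟨d, bz, rfl⟩ := exists_bt z
      rcases local_wall (D := D.G) hw (by rw [hz]; exact hse) with ⟨k', rfl⟩ | ⟨k', rfl⟩
      · left
        refine ⟨D.G.act k' bz, bt_mul _ _ _, ?_⟩
        rw [bt_mul] at hz
        exact (dist_bt (D := D.G) c' _ _).symm.trans hz
      · right
        refine ⟨D.G.act k' bz, bt_mul _ _ _, ?_⟩
        rw [bt_mul, ← hfl] at hz
        exact (dist_bt (D := D.G) c'.flip _ _).symm.trans hz
    rcases key x hx with ⟨bx, rfl, hbx⟩ | ⟨bx, rfl, hbx⟩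
    · rcases key y hy with ⟨bw, rfl, hbw⟩ | ⟨bw, rfl, hbw⟩
      · exact klm_same D c' hbx hbw ((dist_bt (D := D.G) c' _ _).symm.trans hxy) p
      · exact klm_mixed D c' hw' hs hbx hbw hxy p
    · rcases key y hy with ⟨bw, rfl, hbw⟩ | ⟨bw, rfl, hbw⟩
      · have h4 := klm_mixed D c' hw' hs hbw hbx (by rw [dist_comm]; exact hxy) p
        linarith
      · rw [← hfl]
        exact klm_same D c'.flip hbx hbw ((dist_bt (D := D.G) c'.flip _ _).symm.trans hxy) p

end Pool.CBD
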