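import Pool.Agent.CBD.LIN
import Pool.Agent.CBD.ISO

/-!
# CBD: the arithmetic lattice (definitions)

`bj` is the form x x' + y y' - 3 z z' on integer vectors; `OJ` the integral matrices preserving it and the
forward cone; `Gam` the subgroup of those congruent to 1 modulo 12; `actH` the action on the hyperbolic
plane, a point (x, y, t) of the hyperboloid being the real vector (x, y, t/√3).
`NN` is the orbit of e1 = (0,1,0) under Gam, `U1` the orbit of (3,0,1).
-/

namespace Pool.CBD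

open Real

abbrev GL3 := (Matrix (Fin 3) (Fin 3) ℤ)ˣ

def bj (u v : Fin 3 → ℤ) : ℤ := u 0 * v 0 + u 1 * v 1 - 3 * (u 2 * v 2)

theorem bj_neg_neg (v : Fin 3 → ℤ) : bj (-v) (-v) = bj v v := by
  simp [bj]

/-- Integral isometries of bj preserving the forward cone. -/
def OJ : Subgroup GL3 where
  carrier := {g | (∀ u v, bj (g.1.mulVec u) (g.1.mulVec v) = bj u v) ∧
    ∀ v, bj v v < 0 → 0 < v 2 → 0 < g.1.mulVec v 2}
  mul_mem' := by
    rintro g h ⟨hg1, hg2⟩ ⟨hh1, hh2⟩
    refine ⟨fun u v => ?_, fun v hv hv2 => ?_⟩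
    · simp only [Units.val_mul, ← Matrix.mulVec_mulVec]
      rw [hg1, hh1]
    · simp only [Units.val_mul, ← Matrix.mulVec_mulVec]
      exact hg2 _ (by rw [hh1]; exact hv) (hh2 v hv hv2)
  one_mem' := ⟨fun u v => by simp, fun v _ hv => by simpa using hv⟩
  inv_mem' := by
    rintro g ⟨hg1, hg2⟩
    have hinv : ∀ v : Fin 3 → ℤ, g.1.mulVec ((g⁻¹ : GL3).1.mulVec v) = v := by
      intro v
      rw [Matrix.mulVec_mulVec, ← Units.val_mul, mul_inv_cancel]
      simp
    have h1 : ∀ u v, bj ((g⁻¹ : GL3).1.mulVec u) ((g⁻¹ : GL3).1.mulVec v) = bj u v := by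
      intro u v
      rw [← hg1 ((g⁻¹ : GL3).1.mulVec u), hinv, hinv]
    refine ⟨h1, fun v hv hv2 => ?_⟩
    set w := (g⁻¹ : GL3).1.mulVec v with hw
    have hww : bj w w < 0 := by rw [hw, h1]; exact hv
    rcases lt_trichotomy (w 2) 0 with h | h | h
    · exfalso
      have := hg2 (-w) (by rw [bj_neg_neg]; exact hww) (by simpa using h)
      rw [Matrix.mulVec_neg, hw, hinv] at this
      simp only [Pi.neg_apply] at this
      linarith
    · exfalso
      unfold bj at hww
      rw [h] at hww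
      nlinarith [mul_self_nonneg (w 0), mul_self_nonneg (w 1)]
    · exact h

/-- Matrices congruent to 1 modulo 12. -/
def cong : Subgroup GL3 :=
  MonoidHom.ker (Units.map ((Int.castRingHom (ZMod 12)).mapMatrix :
    Matrix (Fin 3) (Fin 3) ℤ →+* Matrix (Fin 3) (Fin 3) (ZMod 12)).toMonoidHom)

/-- The lattice. -/
def Gam : Subgroup GL3 := OJ ⊓ cong

def ve1 : Fin 3 → ℤ := ![0, 1, 0]
def ve2 : Fin 3 → ℤ := ![0, 0, 1]
def vf : Fin 3 → ℤ := ![3, 0, 1]

/-- The matrix of an element of the lattice. -/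
def mat (g : Gam) : Matrix (Fin 3) (Fin 3) ℤ := g.1.1

theorem mat_mul (g h : Gam) : mat (g * h) = mat g * mat h := rfl

theorem mat_one : mat 1 = 1 := rfl

/-- The walls of a block, as normal vectors. -/
def NN : Type := {u : Fin 3 → ℤ // ∃ g : Gam, (mat g).mulVec ve1 = u}

/-- The second orbit. -/
def U1 : Set (Fin 3 → ℤ) := {u | ∃ g : Gam, (mat g).mulVec vf = u}

instance : MulAction Gam NN where
  smul g u := ⟨(mat g).mulVec u.1, by
    obtain ⟨h, hh⟩ := u.2
    exact ⟨g * h, by rw [mat_mul, ← Matrix.mulVec_mulVec, hh]⟩⟩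
  one_smul u := Subtype.ext (by
    change (mat 1).mulVec u.1 = u.1
    rw [mat_one, Matrix.one_mulVec])
  mul_smul g h u := Subtype.ext (by
    change (mat (g * h)).mulVec u.1 = (mat g).mulVec ((mat h).mulVec u.1)
    rw [mat_mul, Matrix.mulVec_mulVec])

theorem smul_NN (g : Gam) (u : NN) : (g • u).1 = (mat g).mulVec u.1 := rfl

/-- The base wall. -/
def na0 : NN := ⟨ve1, 1, by rw [mat_one, Matrix.one_mulVec]⟩

/-- The signed count of the lines of U1 separating (0,0,1) and its image. -/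
def indp (n : ℤ) : ℤ := if 0 < n then 1 else 0

noncomputable def tau (g : Gam) : ℤ :=
  ∑ᶠ u : U1, (indp (bj ((mat g).mulVec ve2) u.1) - indp (bj ve2 u.1))

/-- The action on the hyperbolic plane. -/
noncomputable def actH (g : GL3) (p : Hyp) : Hyp :=
  Hyp.of ((g.1 0 0 : ℝ) * p.x + (g.1 0 1 : ℝ) * p.y + (g.1 0 2 : ℝ) * (p.t / √3))
    ((g.1 1 0 : ℝ) * p.x + (g.1 1 1 : ℝ) * p.y + (g.1 1 2 : ℝ) * (p.t / √3))

/-- The real normal vector of the line of an integer vector. -/
noncomputable def nv (u : Fin 3 → ℤ) : Fin 3 → ℝ := ![(u 0 : ℝ), (u 1 : ℝ), √3 * (u 2 : ℝ)]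

end Pool.CBD
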