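import Mathlib

/-!
# CBD: Cayley graphs and one-ended groups

`cay S` is the (right) Cayley graph: g and g s are adjacent for s in S.  `OneEnded G`: G has a finite
generating set whose Cayley graph has exactly one end in the sense of Mathlib
(`SimpleGraph.end`: the sections of the functor sending a finite set of vertices to the set of
connected components of its complement).
-/

namespace Pool.CBD

open Real Set

/-- The Cayley graph of G with respect to the finite set S. -/
def cay {G : Type*} [Group G] (S : Finset G) : SimpleGraph G :=
  SimpleGraph.fromRel (fun g h => ∃ s ∈ S, h = g * s)

/-- G is one-ended: finitely generated, and its Cayley graph has exactly one end. -/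
def OneEnded (G : Type*) [Group G] : Prop :=
  ∃ S : Finset G, Subgroup.closure (S : Set G) = ⊤ ∧ ∃ e, (cay S).end = {e}

end Pool.CBD
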