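import Pool.Agent.CBD.OGR

/-!
# CBD module OEN: the criterion for one-endedness

PROOF.  Let SA be a finite generating set of A, S = SA ∪ {z, t} as a Finset; it generates G.  G is
infinite since z has infinite order (hfree).  Use `one_end_of_cofinite` for `cay S`.
Let F be a finite set of vertices.
(a) For every g there is N with g z^n ∉ F for |n| ≥ N (z has infinite order, F finite); g z^n and
g z^(n+1) are adjacent, so the tails n ≥ N and n ≤ -N each lie in one component: P+(g), P-(g).
(b) For s in SA, g z^n s = g s z^n (z commutes with A) is adjacent to g z^n: P±(g s) = P±(g), hence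
P±(g a) = P±(g) for all a in A (also inverses of generators: replace g by g s⁻¹).
(c) By hfree, for every g, for all large m (m ∈ ℕ) the whole line {g gam^m z^n : n ∈ ℤ} avoids F
(each element of F lies on at most one of these lines), so P+(g gam^m) = P-(g gam^m) and with (b)
P+(g) = P-(g) =: P(g); moreover g gam^m belongs to P(g) for all large m.
(d) g t z^n = g gam^n t (from t z t = gam, t t = 1: t z^n = gam^n t) is adjacent to g gam^n, so
P(g t) = P(g) by (c).  P(g z) = P(g) is clear.
(e) So P(g) = P(1) =: C for all g (induction on the closure of A ∪ {z, t} = ⊤; for inverses use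
g = (g x⁻¹) x).
(f) If v ∉ C and v ∉ F: v z^n must hit F for some n ≥ 0, otherwise v is joined to its positive tail,
which is in C; likewise v z^(-m) hits F for some m ≥ 0.  So v = f z^(-n) = f' z^m with f, f' in F,
n, m ≥ 0: f'⁻¹ f = z^(n+m), which for given (f, f') determines n + m; so n ≤ n + m takes
finitely many values and the set of such v is finite.  (And F itself is finite.)
-/

namespace Pool.CBD

open Real Set

private lemma OEN_step {G : Type*} [Group G] {S : Finset G} {K : Set G}
    {C : (cay S).ComponentCompl K} {g s : G} (hs : s ∈ S) (hg : g ∈ C) (hgs : g * s ∉ K) :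
    g * s ∈ C := by
  by_cases h : g = g * s
  · rw [← h]; exact hg
  · refine SimpleGraph.ComponentCompl.mem_of_adj g (g * s) hg hgs ?_
    rw [cay, SimpleGraph.fromRel_adj]
    exact ⟨h, Or.inl ⟨s, hs, rfl⟩⟩

private lemma OEN_step' {G : Type*} [Group G] {S : Finset G} {K : Set G}
    {C : (cay S).ComponentCompl K} {g s : G} (hs : s ∈ S) (hg : g * s ∈ C) (hgs : g ∉ K) :
    g ∈ C := by
  by_cases h : g = g * s
  · rw [h]; exact hg
  · refine SimpleGraph.ComponentCompl.mem_of_adj (g * s) g hg hgs ?_
    rw [cay, SimpleGraph.fromRel_adj]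
    exact ⟨fun h' => h h'.symm, Or.inr ⟨s, hs, rfl⟩⟩

/-- upward along a ray -/
private lemma OEN_up {G : Type*} [Group G] {S : Finset G} {K : Set G}
    {C : (cay S).ComponentCompl K} {v z : G} (hzS : z ∈ S) (hv : v ∈ C)
    (n : ℕ) (h : ∀ k : ℕ, k ≤ n → v * z ^ (k : ℤ) ∉ K) : v * z ^ (n : ℤ) ∈ C := by
  induction n with
  | zero => simpa using hv
  | succ n ih =>
    have h1 := ih (fun k hk => h k (by omega))
    have h2 : v * z ^ ((n + 1 : ℕ) : ℤ) = (v * z ^ (n : ℤ)) * z := by
      rw [Nat.cast_succ, zpow_add_one, mul_assoc]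
    rw [h2]
    refine OEN_step hzS h1 ?_
    rw [← h2]
    exact h _ le_rfl

/-- the component of the n-th point of a positive ray is that of its origin -/
private lemma OEN_up' {G : Type*} [Group G] {S : Finset G} {K : Set G}
    {C : (cay S).ComponentCompl K} {v z : G} (hzS : z ∈ S)
    (n : ℕ) (hv : v * z ^ (n : ℤ) ∈ C) (h : ∀ k : ℕ, k ≤ n → v * z ^ (k : ℤ) ∉ K) : v ∈ C := by
  induction n with
  | zero => simpa using hv
  | succ n ih =>
    have h2 : v * z ^ ((n + 1 : ℕ) : ℤ) = (v * z ^ (n : ℤ)) * z := by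
      rw [Nat.cast_succ, zpow_add_one, mul_assoc]
    rw [h2] at hv
    exact ih (OEN_step' hzS hv (h n (by omega))) (fun k hk => h k (by omega))

/-- downward along a ray -/
private lemma OEN_dn {G : Type*} [Group G] {S : Finset G} {K : Set G}
    {C : (cay S).ComponentCompl K} {v z : G} (hzS : z ∈ S) (hv : v ∈ C)
    (n : ℕ) (h : ∀ k : ℕ, k ≤ n → v * z ^ (-(k : ℤ)) ∉ K) : v * z ^ (-(n : ℤ)) ∈ C := by
  induction n with
  | zero => simpa using hv
  | succ n ih =>
    have h1 := ih (fun k hk => h k (by omega))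
    have h2 : v * z ^ (-(n : ℤ)) = (v * z ^ (-((n + 1 : ℕ) : ℤ))) * z := by
      rw [mul_assoc, ← zpow_add_one]
      congr 2
      push_cast
      ring
    rw [h2] at h1
    exact OEN_step' hzS h1 (h _ le_rfl)

private lemma OEN_dn' {G : Type*} [Group G] {S : Finset G} {K : Set G}
    {C : (cay S).ComponentCompl K} {v z : G} (hzS : z ∈ S)
    (n : ℕ) (hv : v * z ^ (-(n : ℤ)) ∈ C) (h : ∀ k : ℕ, k ≤ n → v * z ^ (-(k : ℤ)) ∉ K) :
    v ∈ C := by
  induction n with
  | zero => simpa using hv
  | succ n ih =>
    have h2 : v * z ^ (-(n : ℤ)) = (v * z ^ (-((n + 1 : ℕ) : ℤ))) * z := by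
      rw [mul_assoc, ← zpow_add_one]
      congr 2
      push_cast
      ring
    refine ih ?_ (fun k hk => h k (by omega))
    rw [h2]
    refine OEN_step hzS hv ?_
    rw [← h2]
    exact h n (by omega)

/-- a line avoiding K lies in one component -/
private lemma OEN_line {G : Type*} [Group G] {S : Finset G} {K : Set G}
    {C : (cay S).ComponentCompl K} {v z : G} (hzS : z ∈ S) (hv : v ∈ C)
    (h : ∀ n : ℤ, v * z ^ n ∉ K) (n : ℤ) : v * z ^ n ∈ C := by
  obtain ⟨k, rfl | rfl⟩ := Int.eq_nat_or_neg n
  · exact OEN_up hzS hv k (fun j _ => h _)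
  · exact OEN_dn hzS hv k (fun j _ => h _)

theorem one_ended_of {G : Type*} [Group G] (A : Subgroup G) (SA : Finset G)
    (hSA : Subgroup.closure (SA : Set G) = A) (z t gam : G)
    (hz : ∀ a ∈ A, a * z = z * a) (hgam : gam ∈ A)
    (hfree : ∀ a b : ℤ, gam ^ a * z ^ b = 1 → a = 0 ∧ b = 0)
    (ht : t * t = 1) (htz : t * z * t = gam)
    (hgen : Subgroup.closure ((A : Set G) ∪ {z, t}) = ⊤) : OneEnded G := by
  classical
  set S : Finset G := SA ∪ {z, t} with hS
  have hzS : z ∈ S := by simp [hS]
  have htS : t ∈ S := by simp [hS]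
  have hSAS : ∀ s ∈ SA, s ∈ S := fun s hs => by simp [hS, hs]
  have hzinj : ∀ a b : ℤ, z ^ a = z ^ b → a = b := by
    intro a b hab
    have := hfree 0 (a - b) (by rw [zpow_zero, one_mul, zpow_sub, hab, mul_inv_cancel])
    omega
  have hgz : Commute gam z := hz gam hgam
  have hginj : ∀ a b c d : ℤ, gam ^ a * z ^ c = gam ^ b * z ^ d → a = b := by
    intro a b c d hab
    have h1 : gam ^ (a - b) * z ^ (c - d) = 1 := by
      have h2 : gam ^ (a - b) * z ^ (c - d) = (gam ^ b)⁻¹ * (gam ^ a * z ^ c) * (z ^ d)⁻¹ := by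
        rw [sub_eq_neg_add a b, zpow_add, zpow_neg, zpow_sub]
        group
      rw [h2, hab]
      group
    have := hfree _ _ h1
    omega
  haveI : Infinite G := Infinite.of_injective (fun n : ℤ => z ^ n) (fun a b h => hzinj a b h)
  have hgenS : Subgroup.closure (S : Set G) = ⊤ := by
    rw [eq_top_iff, ← hgen, Subgroup.closure_le]
    intro x hx
    rcases hx with hx | hx
    · have h1 : Subgroup.closure (SA : Set G) ≤ Subgroup.closure (S : Set G) := by
        apply Subgroup.closure_mono
        intro s hs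
        exact hSAS s hs
      rw [hSA] at h1
      exact h1 hx
    · apply Subgroup.subset_closure
      rcases hx with rfl | hx
      · exact hzS
      · rw [Set.mem_singleton_iff] at hx
        rw [hx]; exact htS
  refine ⟨S, hgenS, one_end_of_cofinite _ ?_⟩
  intro K
  -- points of the line outside K
  have hout : ∀ g : G, ∀ᶠ n : ℤ in Filter.cofinite, g * z ^ n ∉ (K : Set G) := by
    intro g
    rw [Filter.eventually_cofinite]
    have : {n : ℤ | ¬ (g * z ^ n ∉ (K : Set G))} = (fun n : ℤ => g * z ^ n) ⁻¹' (K : Set G) := by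
      ext n; simp
    rw [this]
    exact K.finite_toSet.preimage (fun a _ b _ hab => hzinj a b (mul_left_cancel hab))
  have hline : ∀ g : G, ∀ᶠ m : ℤ in Filter.cofinite,
      ∀ n : ℤ, g * gam ^ m * z ^ n ∉ (K : Set G) := by
    intro g
    rw [Filter.eventually_cofinite]
    refine Set.Finite.subset (s := ⋃ f ∈ K, {m : ℤ | ∃ n : ℤ, g * gam ^ m * z ^ n = f}) ?_ ?_
    · refine Set.Finite.biUnion K.finite_toSet (fun f _ => Set.Subsingleton.finite ?_)
      rintro a ⟨c, hc⟩ b ⟨d, hd⟩
      have h1 : g * gam ^ a * z ^ c = g * gam ^ b * z ^ d := by rw [hc, hd]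
      rw [mul_assoc, mul_assoc] at h1
      exact hginj a b c d (mul_left_cancel h1)
    · intro m hm
      rw [Set.mem_setOf_eq] at hm
      push Not at hm
      obtain ⟨n, hn⟩ := hm
      exact Set.mem_biUnion (x := g * gam ^ m * z ^ n) (by simpa using hn) ⟨n, rfl⟩
  -- uniqueness
  have huniq : ∀ (C D : (cay S).ComponentCompl (K : Set G)) (x : G), x ∈ C → x ∈ D → C = D := by
    intro C D x hC hD
    refine SimpleGraph.ComponentCompl.pairwise_disjoint.eq ?_
    rw [Set.not_disjoint_iff]
    exact ⟨x, hC, hD⟩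
  -- step by elements of A
  have hA1 : ∀ a ∈ A, ∀ (g : G) (C : (cay S).ComponentCompl (K : Set G)),
      (∀ᶠ n : ℤ in Filter.cofinite, g * z ^ n ∈ C) ↔
      (∀ᶠ n : ℤ in Filter.cofinite, g * a * z ^ n ∈ C) := by
    intro a ha
    have ha' : a ∈ Subgroup.closure (SA : Set G) := by rw [hSA]; exact ha
    induction ha' using Subgroup.closure_induction with
    | mem s hs =>
      intro g C
      have hsS : s ∈ S := hSAS s hs
      have hsz : ∀ n : ℤ, g * s * z ^ n = g * z ^ n * s := by
        intro n
        have : Commute s z := hz s (by rw [← hSA]; exact Subgroup.subset_closure hs)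
        rw [mul_assoc, (this.zpow_right n).eq, mul_assoc]
      constructor
      · intro h
        filter_upwards [h, hout (g * s)] with n h1 h2
        rw [hsz] at h2 ⊢
        exact OEN_step hsS h1 h2
      · intro h
        filter_upwards [h, hout g] with n h1 h2
        rw [hsz] at h1
        exact OEN_step' hsS h1 h2
    | one => intro g C; simp
    | mul x y hx hy ihx ihy =>
      intro g C
      rw [hSA] at hx hy
      rw [ihx hx g C, ihy hy (g * x) C, mul_assoc g x y]
    | inv x hx ihx =>
      intro g C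
      rw [hSA] at hx
      rw [ihx hx (g * x⁻¹) C, inv_mul_cancel_right]
  -- existence
  have hex : ∀ g : G, ∃ C : (cay S).ComponentCompl (K : Set G),
      ∀ᶠ n : ℤ in Filter.cofinite, g * z ^ n ∈ C := by
    intro g
    obtain ⟨m, hm⟩ := (hline g).exists
    have h0 : g * gam ^ m ∉ (K : Set G) := by simpa using hm 0
    refine ⟨(cay S).componentComplMk h0, ?_⟩
    rw [hA1 (gam ^ m) (A.zpow_mem hgam m) g]
    refine Filter.Eventually.of_forall (fun n => ?_)
    exact OEN_line hzS ((cay S).componentComplMk_mem h0) hm n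
  have hgm : ∀ (g : G) (C : (cay S).ComponentCompl (K : Set G)),
      (∀ᶠ n : ℤ in Filter.cofinite, g * z ^ n ∈ C) →
      ∀ᶠ m : ℤ in Filter.cofinite, g * gam ^ m ∈ C := by
    intro g C hC
    filter_upwards [hline g] with m hm
    have h0 : g * gam ^ m ∉ (K : Set G) := by simpa using hm 0
    have h1 : ∀ n : ℤ, g * gam ^ m * z ^ n ∈ (cay S).componentComplMk h0 := fun n =>
      OEN_line hzS ((cay S).componentComplMk_mem h0) hm n
    rw [hA1 (gam ^ m) (A.zpow_mem hgam m) g] at hC
    obtain ⟨n, hn⟩ := hC.exists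
    have := huniq _ _ _ hn (h1 n)
    rw [this]
    exact (cay S).componentComplMk_mem h0
  -- t z^n = gam^n t
  have htzn : ∀ n : ℤ, t * z ^ n = gam ^ n * t := by
    intro n
    have htinv : t⁻¹ = t := by
      rw [inv_eq_iff_mul_eq_one]; exact ht
    have h1 : gam = t * z * t⁻¹ := by rw [htinv, htz]
    rw [h1, conj_zpow, inv_mul_cancel_right]
  have ht1 : ∀ (g : G) (C : (cay S).ComponentCompl (K : Set G)),
      (∀ᶠ n : ℤ in Filter.cofinite, g * z ^ n ∈ C) →
      (∀ᶠ n : ℤ in Filter.cofinite, g * t * z ^ n ∈ C) := by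
    intro g C hC
    obtain ⟨D, hD⟩ := hex (g * t)
    have h1 : ∀ᶠ n : ℤ in Filter.cofinite, g * t * z ^ n ∈ C := by
      filter_upwards [hgm g C hC, hout (g * t)] with n h1 h2
      have h3 : g * t * z ^ n = g * gam ^ n * t := by rw [mul_assoc, htzn, mul_assoc]
      rw [h3] at h2 ⊢
      exact OEN_step htS h1 h2
    exact h1
  have hall : ∀ x : G, ∀ (g : G) (C : (cay S).ComponentCompl (K : Set G)),
      (∀ᶠ n : ℤ in Filter.cofinite, g * z ^ n ∈ C) ↔
      (∀ᶠ n : ℤ in Filter.cofinite, g * x * z ^ n ∈ C) := by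
    intro x
    have hx : x ∈ Subgroup.closure ((A : Set G) ∪ {z, t}) := by rw [hgen]; trivial
    induction hx using Subgroup.closure_induction with
    | mem s hs =>
      rcases hs with hs | hs
      · exact hA1 s hs
      · rcases hs with rfl | hs
        · intro g C
          have h2 : ∀ n : ℤ, g * s * s ^ n = g * s ^ (n + 1) := by
            intro n
            rw [mul_assoc, ← zpow_one_add, add_comm]
          constructor
          · intro h
            have h1 := ((Equiv.addRight (1 : ℤ)).injective.tendsto_cofinite).eventually h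
            filter_upwards [h1] with n hn
            rw [h2]
            exact hn
          · intro h
            have h1 := ((Equiv.addRight (-1 : ℤ)).injective.tendsto_cofinite).eventually h
            filter_upwards [h1] with n hn
            rw [h2] at hn
            simpa using hn
        · rw [Set.mem_singleton_iff] at hs
          intro g C
          rw [hs]
          refine ⟨ht1 g C, fun h => ?_⟩
          have := ht1 (g * t) C h
          rwa [mul_assoc g t t, ht, mul_one] at this
    | one => intro g C; simp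
    | mul x y hx hy ihx ihy =>
      intro g C
      rw [ihx g C, ihy (g * x) C, mul_assoc g x y]
    | inv x hx ihx =>
      intro g C
      rw [ihx (g * x⁻¹) C, inv_mul_cancel_right]
  obtain ⟨C, hC⟩ := hex 1
  have hCg : ∀ g : G, ∀ᶠ n : ℤ in Filter.cofinite, g * z ^ n ∈ C := by
    intro g
    have := (hall g 1 C).1 hC
    simpa using this
  refine ⟨C, ?_⟩
  refine Set.Finite.subset (s := (K : Set G) ∪ ⋃ f ∈ K, ⋃ f' ∈ K,
    {v : G | ∃ n m : ℕ, v * z ^ (n : ℤ) = f ∧ v * z ^ (-(m : ℤ)) = f'}) ?_ ?_
  · refine K.finite_toSet.union ?_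
    refine Set.Finite.biUnion K.finite_toSet (fun f _ => ?_)
    refine Set.Finite.biUnion K.finite_toSet (fun f' _ => ?_)
    by_cases hne : ({v : G | ∃ n m : ℕ, v * z ^ (n : ℤ) = f ∧ v * z ^ (-(m : ℤ)) = f'}).Nonempty
    · obtain ⟨v0, n0, m0, h1, h2⟩ := hne
      refine Set.Finite.subset ((Set.finite_Iic (n0 + m0)).image
        (fun n : ℕ => f * z ^ (-(n : ℤ)))) ?_
      rintro v ⟨n, m, h3, h4⟩
      refine ⟨n, ?_, ?_⟩
      · rw [Set.mem_Iic]
        have h5 : z ^ ((m0 : ℤ) + n0) = f'⁻¹ * f := by
          rw [← h1, ← h2]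
          group
        have h6 : z ^ ((m : ℤ) + n) = f'⁻¹ * f := by
          rw [← h3, ← h4]
          group
        have := hzinj _ _ (h6.trans h5.symm)
        omega
      · simp only
        rw [← h3]
        group
    · rw [Set.not_nonempty_iff_eq_empty] at hne
      rw [hne]
      exact Set.finite_empty
  · intro v hv
    rw [Set.mem_setOf_eq] at hv
    by_cases hvK : v ∈ (K : Set G)
    · exact Or.inl hvK
    · refine Or.inr ?_
      have hev := hCg v
      rw [Int.cofinite_eq, Filter.eventually_sup] at hev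
      have hpos : ∃ n : ℕ, v * z ^ (n : ℤ) ∈ (K : Set G) := by
        by_contra hcon
        push Not at hcon
        obtain ⟨N, hN⟩ := Filter.eventually_atTop.1 hev.2
        have h1 := hN (N.toNat : ℤ) (Int.self_le_toNat N)
        exact hv (OEN_up' hzS N.toNat h1 (fun k _ => hcon k))
      have hneg : ∃ n : ℕ, v * z ^ (-(n : ℤ)) ∈ (K : Set G) := by
        by_contra hcon
        push Not at hcon
        obtain ⟨N, hN⟩ := Filter.eventually_atBot.1 hev.1
        have h1 := hN (-(((-N).toNat : ℕ) : ℤ)) (by have := Int.self_le_toNat (-N); omega)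
        exact hv (OEN_dn' hzS (-N).toNat h1 (fun k _ => hcon k))
      obtain ⟨n, hn⟩ := hpos
      obtain ⟨m, hm⟩ := hneg
      refine Set.mem_biUnion (x := v * z ^ (n : ℤ)) (by simpa using hn) ?_
      refine Set.mem_biUnion (x := v * z ^ (-(m : ℤ))) (by simpa using hm) ?_
      exact ⟨n, m, rfl, rfl⟩

end Pool.CBD
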