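import Pool.Agent.CBD.ODF

/-!
# CBD module OGR: a graph with cofinite components of complements has one end

PROOF.  Choose C K for every finite K; C K is infinite because V is infinite and all but finitely
many vertices belong to it.  For K ⊂ L the component of K-complement containing C L
(`ComponentCompl.hom`) meets C K (both C L and C K contain all but finitely many vertices and V is
infinite), so it is C K (`ComponentCompl.hom_eq_iff_not_disjoint`).  So e K = C K is a section.
Any end e' has e' K infinite (`SimpleGraph.end_componentCompl_infinite`), hence meets C K, hence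
equals C K (`ComponentCompl.pairwise_disjoint`).
-/

namespace Pool.CBD

open Real Set

private lemma OGR_eq {V : Type*} [Infinite V] {G : SimpleGraph V} {K : Set V}
    {C D : G.ComponentCompl K} (hC : {v : V | v ∉ C}.Finite) (hD : (D : Set V).Infinite) :
    D = C := by
  obtain ⟨v, hv, hv2⟩ := (hD.sdiff hC).nonempty
  have hvC : v ∈ C := by
    by_contra hcon
    exact hv2 hcon
  refine SimpleGraph.ComponentCompl.pairwise_disjoint.eq ?_
  rw [Set.not_disjoint_iff]
  exact ⟨v, hv, hvC⟩

theorem one_end_of_cofinite {V : Type*} [Infinite V] (G : SimpleGraph V)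
    (h : ∀ K : Finset V, ∃ C : G.ComponentCompl K, {v : V | v ∉ C}.Finite) :
    ∃ e, G.end = {e} := by
  choose C hC using h
  have hinf : ∀ K : Finset V, (C K : Set V).Infinite := by
    intro K hfin
    have h1 : (Set.univ : Set V).Finite := by
      refine (hfin.union (hC K)).subset fun v _ => ?_
      by_cases hv : v ∈ C K
      · exact Or.inl hv
      · exact Or.inr hv
    exact Set.infinite_univ h1
  refine ⟨fun K => C K.unop, ?_⟩
  ext e
  rw [Set.mem_singleton_iff]
  constructor
  · intro he
    funext K
    refine OGR_eq (hC K.unop) ?_
    refine (e K).infinite_iff_in_all_ranges.mpr (fun L hL => ?_)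
    exact ⟨e (Opposite.op L), he (CategoryTheory.opHomOfLE hL)⟩
  · rintro rfl
    intro K L f
    change (C K.unop).hom (CategoryTheory.le_of_op_hom f) = C L.unop
    refine OGR_eq (hC L.unop) ?_
    exact SimpleGraph.ComponentCompl.hom_infinite _ _ (hinf K.unop)

end Pool.CBD
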