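import Mathlib

/-!
# CBD module PCN: (z - p)^k has no continuous logarithm on a circle around p

PROOF.  Let h(t) = g(p + r e^{it}) - k (log r + i t) for t in ℝ (continuous).  exp h(t) =
(r e^{it})^k / (r e^{it})^k = 1, so h takes values in 2 pi i ℤ, and a continuous function on ℝ with
exp h = 1 is constant (the imaginary part divided by 2 pi is a continuous integer valued
function).  h(2 pi) - h(0) = - 2 pi i k since g(p + r e^{2 pi i}) = g(p + r).  So k = 0.
-/

namespace Pool.CBD

open Real Set

theorem no_log_circle (p : ℂ) (r : ℝ) (hr : 0 < r) (k : ℤ) (g : ℂ → ℂ)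
    (hg : ContinuousOn g (Metric.sphere p r))
    (h : ∀ z ∈ Metric.sphere p r, Complex.exp (g z) = (z - p) ^ k) : k = 0 := by
  set γ : ℝ → ℂ := fun t => p + r * Complex.exp (t * Complex.I) with hγ
  have hγc : Continuous γ := by fun_prop
  have hγs : ∀ t, γ t ∈ Metric.sphere p r := by
    intro t
    rw [mem_sphere_iff_norm, hγ]
    simp only [add_sub_cancel_left, norm_mul, Complex.norm_real, Complex.norm_exp_ofReal_mul_I,
      mul_one, Real.norm_eq_abs]
    exact abs_of_pos hr
  set H : ℝ → ℂ := fun t => g (γ t) - k * (Real.log r + t * Complex.I) with hH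
  have hHc : Continuous H := by
    have h1 : Continuous fun t => g (γ t) := hg.comp_continuous hγc hγs
    have h2 : Continuous fun t : ℝ => (k : ℂ) * (Real.log r + t * Complex.I) := by fun_prop
    exact h1.sub h2
  have hr0 : (r : ℂ) ≠ 0 := by exact_mod_cast hr.ne'
  have hexp : ∀ t, Complex.exp (H t) = 1 := by
    intro t
    have h1 : Complex.exp (Real.log r + t * Complex.I) = γ t - p := by
      rw [Complex.exp_add, ← Complex.ofReal_exp, Real.exp_log hr, hγ]
      simp
    have h2 : γ t - p ≠ 0 := by
      rw [← h1]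
      exact Complex.exp_ne_zero _
    rw [hH]
    simp only
    rw [Complex.exp_sub, h _ (hγs t), Complex.exp_int_mul, h1, div_self (zpow_ne_zero _ h2)]
  choose N hN using fun t => Complex.exp_eq_one_iff.1 (hexp t)
  have hNr : ∀ t, (N t : ℝ) = (H t).im / (2 * Real.pi) := by
    intro t
    rw [hN t]
    have : ((N t : ℂ) * (2 * Real.pi * Complex.I)).im = N t * (2 * Real.pi) := by
      simp
    rw [this]
    field_simp
  have hNc : Continuous N := by
    rw [Int.isClosedEmbedding_coe_real.isInducing.continuous_iff]
    have : ((fun n : ℤ => (n : ℝ)) ∘ N) = fun t => (H t).im / (2 * Real.pi) := by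
      funext t
      exact hNr t
    rw [this]
    exact (Complex.continuous_im.comp hHc).div_const _
  have hNN : N (2 * Real.pi) = N 0 := PreconnectedSpace.constant inferInstance hNc
  have h3 : H (2 * Real.pi) = H 0 := by rw [hN, hN 0, hNN]
  have h4 : γ (2 * Real.pi) = γ 0 := by
    simp only [hγ]
    push_cast
    rw [Complex.exp_two_pi_mul_I]
    simp
  rw [hH] at h3
  simp only [h4] at h3
  have h5 : (k : ℂ) * (2 * Real.pi * Complex.I) = 0 := by
    have h6 : (k : ℂ) * (Real.log r + ((2 * Real.pi : ℝ) : ℂ) * Complex.I) =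
        k * (Real.log r + ((0 : ℝ) : ℂ) * Complex.I) := sub_right_injective h3
    push_cast at h6
    linear_combination h6
  have h7 : (2 * (Real.pi : ℂ) * Complex.I) ≠ 0 := Complex.two_pi_I_ne_zero
  exact_mod_cast (mul_eq_zero.1 h5).resolve_right h7

end Pool.CBD
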