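import Pool.Agent.CBD.PLB
import Pool.Agent.CBD.PCN

/-!
# CBD module PEI: Eilenberg's criterion

PROOF.  K is compact; extend g from K to a continuous function G : ℂ → ℂ (Tietze: real and
imaginary parts, `ContinuousMap.exists_restrict_eq` or `ContinuousOn` version; K is closed).
Suppose k1 ≠ 0... (or prove k1 = 0 directly.)  Define H(z) = exp (G z) * (z - q)^(-k2) for
z in closure U and H(z) = (z - p)^k1 for z outside U.  closure U ∩ (complement of U) = frontier U
⊂ K and on K the two formulas agree by the hypothesis (for z in K, z ≠ q: indeed frontier U ⊂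
closure U and q is not in closure U; z ≠ p on the complement of U).  So H = piecewise function is
continuous on ℂ (`Continuous.if`-type lemma or gluing on two closed sets: closure U and Uᶜ) and
never zero.  Take R with closure U ⊂ open ball of radius R about 0, |p| < R, and r > R + |p| so that
the circle |z - p| = r lies outside closure U, inside closedBall 0 (r + |p|).  PLB gives a continuous
logarithm of H on closedBall 0 (r + |p|), whose restriction to the circle is a continuous
logarithm of (z - p)^k1.  PCN: k1 = 0.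
-/

namespace Pool.CBD

open Real Set

theorem eilenberg (K U : Set ℂ) (hK : IsCompact K) (hU : IsOpen U) (hb : Bornology.IsBounded U)
    (hf : frontier U ⊆ K) (p q : ℂ) (hp : p ∈ U) (hq : q ∉ closure U) (k1 k2 : ℤ) (g : ℂ → ℂ)
    (hg : ContinuousOn g K)
    (h : ∀ z ∈ K, (z - p) ^ k1 * (z - q) ^ k2 = Complex.exp (g z)) : k1 = 0 := by
  classical
  -- extension of g
  obtain ⟨G, hG⟩ := ContinuousMap.exists_restrict_eq hK.isClosed
    (⟨K.domRestrict g, continuousOn_iff_continuous_domRestrict.mp hg⟩ : C(K, ℂ))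
  have hGg : ∀ z ∈ K, G z = g z := by
    intro z hz
    have := congrArg (fun f : C(K, ℂ) => f ⟨z, hz⟩) hG
    exact this
  set H : ℂ → ℂ := fun z => if z ∈ closure U then Complex.exp (G z) * (z - q) ^ (-k2)
    else (z - p) ^ k1 with hH
  have hzq : ∀ z ∈ closure U, z - q ≠ 0 := by
    intro z hz h0
    rw [sub_eq_zero] at h0
    exact hq (h0 ▸ hz)
  have hzp : ∀ z ∈ Uᶜ, z - p ≠ 0 := by
    intro z hz h0
    rw [sub_eq_zero] at h0
    exact hz (h0 ▸ hp)
  have hH1 : ∀ z ∈ closure U, H z = Complex.exp (G z) * (z - q) ^ (-k2) := by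
    intro z hz
    simp [hH, hz]
  have hH2 : ∀ z ∈ Uᶜ, H z = (z - p) ^ k1 := by
    intro z hz
    by_cases hc : z ∈ closure U
    · rw [hH1 z hc]
      have hfr : z ∈ K := by
        apply hf
        rw [hU.frontier_eq]
        exact ⟨hc, hz⟩
      rw [hGg z hfr, ← h z hfr, mul_assoc, ← zpow_add₀ (hzq z hc)]
      simp
    · simp [hH, hc]
  have hHc : Continuous H := by
    have e : (closure U) ∪ Uᶜ = univ := by
      apply eq_univ_of_forall
      intro z
      by_cases hz : z ∈ U
      · exact Or.inl (subset_closure hz)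
      · exact Or.inr hz
    rw [← continuousOn_univ, ← e]
    apply ContinuousOn.union_of_isClosed
    · apply ContinuousOn.congr _ hH1
      apply ContinuousOn.mul
      · exact (Complex.continuous_exp.comp G.continuous).continuousOn
      · exact ContinuousOn.zpow₀ (by fun_prop) (-k2) (fun z hz => Or.inl (hzq z hz))
    · apply ContinuousOn.congr _ hH2
      exact ContinuousOn.zpow₀ (by fun_prop) k1 (fun z hz => Or.inl (hzp z hz))
    · exact isClosed_closure
    · exact hU.isClosed_compl
  have hH0 : ∀ z, H z ≠ 0 := by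
    intro z
    by_cases hz : z ∈ closure U
    · rw [hH1 z hz]
      exact mul_ne_zero (Complex.exp_ne_zero _) (zpow_ne_zero _ (hzq z hz))
    · have hz' : z ∈ Uᶜ := fun hc => hz (subset_closure hc)
      rw [hH2 z hz']
      exact zpow_ne_zero _ (hzp z hz')
  obtain ⟨R, hR⟩ := hb.subset_closedBall 0
  have hR0 : 0 ≤ R := by
    have := hR hp
    rw [Metric.mem_closedBall] at this
    exact dist_nonneg.trans this
  have hclR : closure U ⊆ Metric.closedBall 0 R :=
    closure_minimal hR Metric.isClosed_closedBall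
  set r : ℝ := R + ‖p‖ + 1 with hr
  have hr0 : 0 < r := by positivity
  obtain ⟨g', hg', hg'2⟩ := log_on_ball H hHc hH0 (r + ‖p‖)
  have hsub : Metric.sphere p r ⊆ Metric.closedBall 0 (r + ‖p‖) := by
    intro z hz
    rw [mem_sphere_iff_norm] at hz
    rw [mem_closedBall_zero_iff]
    calc ‖z‖ = ‖(z - p) + p‖ := by ring_nf
      _ ≤ ‖z - p‖ + ‖p‖ := norm_add_le _ _
      _ = r + ‖p‖ := by rw [hz]
  refine no_log_circle p r hr0 k1 g' (hg'.mono hsub) ?_
  intro z hz
  rw [hg'2 z (hsub hz)]
  apply hH2
  intro hzU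
  have h1 := hR hzU
  rw [mem_closedBall_zero_iff] at h1
  rw [mem_sphere_iff_norm] at hz
  have h2 : ‖z - p‖ ≤ ‖z‖ + ‖p‖ := norm_sub_le _ _
  rw [hz, hr] at h2
  linarith

end Pool.CBD
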