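import Mathlib

/-!
# CBD module PLB: a continuous nowhere zero function on a disc has a continuous logarithm

PROOF.  On the compact ball |F| ≥ c > 0 and F is uniformly continuous, so there is n ≥ 1 such that
|F((j+1) z / n) / F(j z / n) - 1| < 1 for all |z| ≤ R and 0 ≤ j < n.  Put
g(z) = log F(0) + ∑_{j<n} Complex.log (F((j+1) z/n) / F(j z/n)); the arguments lie in the slit plane
(|w - 1| < 1 implies 0 < re w), where Complex.log is continuous; exp g = F by telescoping.
-/

namespace Pool.CBD

open Real Set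

theorem log_on_ball (F : ℂ → ℂ) (hF : Continuous F) (h0 : ∀ z, F z ≠ 0) (R : ℝ) :
    ∃ g : ℂ → ℂ, ContinuousOn g (Metric.closedBall 0 R) ∧
      ∀ z ∈ Metric.closedBall (0 : ℂ) R, Complex.exp (g z) = F z := by
  have hcomp : IsCompact (Metric.closedBall (0 : ℂ) R) := isCompact_closedBall 0 R
  rcases lt_or_ge R 0 with hR | hR
  · refine ⟨fun _ => 0, continuousOn_const, ?_⟩
    intro z hz
    rw [Metric.closedBall_eq_empty.mpr hR] at hz
    exact absurd hz (Set.notMem_empty z)
  -- lower bound
  obtain ⟨z0, hz0, hmin⟩ := hcomp.exists_isMinOn ⟨0, by simpa using hR⟩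
    (hF.norm.continuousOn)
  have hc : 0 < ‖F z0‖ := norm_pos_iff.mpr (h0 z0)
  have hlow : ∀ z ∈ Metric.closedBall (0 : ℂ) R, ‖F z0‖ ≤ ‖F z‖ := fun z hz => hmin hz
  -- uniform continuity
  have huc := hcomp.uniformContinuousOn_of_continuous hF.continuousOn
  rw [Metric.uniformContinuousOn_iff] at huc
  obtain ⟨δ, hδ, hunif⟩ := huc ‖F z0‖ hc
  obtain ⟨n, hn⟩ := exists_nat_gt (R / δ)
  have hn0 : 0 < (n : ℝ) := lt_of_le_of_lt (div_nonneg hR hδ.le) hn
  have hnR : R / n < δ := by
    rw [div_lt_iff₀ hδ] at hn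
    rw [div_lt_iff₀ hn0]
    linarith
  let p : ℕ → ℂ → ℂ := fun j z => ((j : ℝ) / n : ℝ) * z
  have hp : ∀ j ≤ n, ∀ z ∈ Metric.closedBall (0 : ℂ) R, p j z ∈ Metric.closedBall (0 : ℂ) R := by
    intro j hj z hz
    rw [mem_closedBall_zero_iff] at hz ⊢
    simp only [p, norm_mul, Complex.norm_real, Real.norm_eq_abs]
    rw [abs_of_nonneg (by positivity)]
    have : (j : ℝ) / n ≤ 1 := by
      rw [div_le_one hn0]; exact_mod_cast hj
    calc (j : ℝ) / n * ‖z‖ ≤ 1 * ‖z‖ := by gcongr
      _ ≤ R := by linarith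
  have hd : ∀ j < n, ∀ z ∈ Metric.closedBall (0 : ℂ) R,
      ‖F (p (j + 1) z) / F (p j z) - 1‖ < 1 := by
    intro j hj z hz
    have h1 := hp (j + 1) hj z hz
    have h2 := hp j hj.le z hz
    have h3 : dist (p (j + 1) z) (p j z) < δ := by
      rw [dist_eq_norm]
      have : p (j + 1) z - p j z = ((1 / n : ℝ) : ℂ) * z := by
        simp only [p]
        push_cast
        ring
      rw [this, norm_mul, Complex.norm_real, Real.norm_eq_abs, abs_of_nonneg (by positivity)]
      rw [mem_closedBall_zero_iff] at hz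
      calc 1 / (n : ℝ) * ‖z‖ ≤ 1 / n * R := by gcongr
        _ = R / n := by ring
        _ < δ := hnR
    have h4 := hunif _ h1 _ h2 h3
    rw [dist_eq_norm] at h4
    have h5 := hlow _ h2
    have h6 : 0 < ‖F (p j z)‖ := norm_pos_iff.mpr (h0 _)
    rw [div_sub_one (h0 _), norm_div, div_lt_one h6]
    linarith
  refine ⟨fun z => Complex.log (F 0) +
    ∑ j ∈ Finset.range n, Complex.log (F (p (j + 1) z) / F (p j z)), ?_, ?_⟩
  · refine continuousOn_const.add (continuousOn_finsetSum _ ?_)
    intro j hj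
    have hj' := Finset.mem_range.mp hj
    refine ContinuousOn.clog ?_ ?_
    · refine ContinuousOn.div ?_ ?_ (fun z _ => h0 _)
      · exact (hF.comp (by fun_prop)).continuousOn
      · exact (hF.comp (by fun_prop)).continuousOn
    · intro z hz
      left
      have := hd j hj' z hz
      have h1 := Complex.abs_re_le_norm (F (p (j + 1) z) / F (p j z) - 1)
      rw [Complex.sub_re, Complex.one_re] at h1
      have h2 := (abs_lt.mp (lt_of_le_of_lt h1 this)).1
      linarith
  · intro z hz
    rw [Complex.exp_add, Complex.exp_log (h0 0), Complex.exp_sum]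
    have hterm : ∀ j ∈ Finset.range n,
        Complex.exp (Complex.log (F (p (j + 1) z) / F (p j z))) = F (p (j + 1) z) / F (p j z) :=
      fun j _ => Complex.exp_log (div_ne_zero (h0 _) (h0 _))
    rw [Finset.prod_congr rfl hterm]
    have htel : ∀ k : ℕ, F 0 * ∏ j ∈ Finset.range k, F (p (j + 1) z) / F (p j z) = F (p k z) := by
      intro k
      induction k with
      | zero => simp [p]
      | succ k ih =>
        rw [Finset.prod_range_succ, ← mul_assoc, ih]
        exact mul_div_cancel₀ _ (h0 _)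
    rw [htel n]
    congr 1
    simp only [p]
    rw [div_self hn0.ne']
    simp

end Pool.CBD
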