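import Pool.Agent.CBD.PLL

/-!
# CBD module PLK: logarithms on compact spaces that inject into the line or the circle

`log_of_inj_line`: K compact in a topological space X (here X = ℂ), e : X → ℝ continuous and
injective on K.  PROOF: e restricts to a homeomorphism of K onto the compact set e(K) (continuous
injective on compact, target Hausdorff), with inverse s : ℝ → X continuous on e(K).  Apply
`log_on_line` to f ∘ s on e(K) and compose with e.
`log_of_inj_circle`: K compact, e : ℂ → Circle continuous and injective on K, not onto Circle: the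
image e(K) misses a point c0 of the circle, and Circle minus a point injects continuously in
the line on the compact set e(K): z ↦ Complex.arg (-(z / c0)) is continuous and injective on
Circle \ {c0} (arg is continuous on the slit plane, and -(z/c0) is not a nonpositive real iff
z ≠ c0).  Compose.
`two_logs`: K compact, e : ℂ → Circle continuous on K, injective on K, and onto (e '' K = univ); f1,
f2 continuous on K without zeros.  Then there are integers (k1, k2) ≠ (0, 0) with f1^k1 f2^k2 having a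
continuous logarithm on K.  PROOF: K → Circle is a homeomorphism; let phi_i(t) =
f_i(s(exp(i t))), t in [0, 2 pi], s the inverse, continuous, so by `log_on_line` (K = [0, 2 pi])
phi_i = exp G_i with G_i continuous on [0, 2 pi], and G_i(2 pi) - G_i(0) = 2 pi i n_i, n_i an
integer.  If n1 = 0 take (1, 0); otherwise (k1, k2) = (n2, -n1).  G = k1 G1 + k2 G2 has
G(0) = G(2 pi), so it descends to a continuous function on the circle (Circle is the quotient of
[0, 2 pi] identifying the end points: for example use that Circle.exp restricted to [0, 2 pi] is a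
closed surjective continuous map = quotient map; or build the function with arg on two pieces).
-/

namespace Pool.CBD

open Real Set

private theorem PLK_inv {X Y : Type*} [TopologicalSpace X] [TopologicalSpace Y] [T2Space Y]
    [Nonempty X] {K : Set X} (hK : IsCompact K) {e : X → Y} (he : ContinuousOn e K)
    (hi : InjOn e K) : ∃ s : Y → X, ContinuousOn s (e '' K) ∧ ∀ x ∈ K, s (e x) = x := by
  have hs : ∀ x ∈ K, Function.invFunOn e K (e x) = x := fun x hx => hi.leftInvOn_invFunOn hx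
  refine ⟨Function.invFunOn e K, ?_, hs⟩
  rw [continuousOn_iff_isClosed]
  intro t ht
  refine ⟨e '' (K ∩ t), ?_, ?_⟩
  · exact ((hK.inter_right ht).image_of_continuousOn (he.mono inter_subset_left)).isClosed
  · ext y
    constructor
    · rintro ⟨h1, x, hx, rfl⟩
      refine ⟨⟨x, ⟨hx, ?_⟩, rfl⟩, ⟨x, hx, rfl⟩⟩
      have h2 : Function.invFunOn e K (e x) ∈ t := h1
      rwa [hs x hx] at h2
    · rintro ⟨⟨x, ⟨hx, hxt⟩, rfl⟩, h2⟩
      refine ⟨?_, h2⟩
      change Function.invFunOn e K (e x) ∈ t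
      rwa [hs x hx]

private theorem PLK_line {X : Type*} [TopologicalSpace X] [Nonempty X] {K : Set X}
    (hK : IsCompact K) {e : X → ℝ} (he : ContinuousOn e K) (hi : InjOn e K) (f : X → ℂ)
    (hf : ContinuousOn f K) (h0 : ∀ x ∈ K, f x ≠ 0) :
    ∃ g : X → ℂ, ContinuousOn g K ∧ ∀ x ∈ K, Complex.exp (g x) = f x := by
  obtain ⟨s, hs, hse⟩ := PLK_inv hK he hi
  have hsK : MapsTo s (e '' K) K := by
    rintro y ⟨x, hx, rfl⟩
    rw [hse x hx]
    exact hx
  obtain ⟨g, hg, hg2⟩ := log_on_line (e '' K) (hK.image_of_continuousOn he) (f ∘ s)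
    (hf.comp hs hsK) (fun y hy => h0 _ (hsK hy))
  refine ⟨g ∘ e, hg.comp he (mapsTo_image e K), fun x hx => ?_⟩
  have h1 := hg2 (e x) (mem_image_of_mem e hx)
  simp only [Function.comp_apply] at h1 ⊢
  rw [h1, hse x hx]

theorem log_of_inj_circle (K : Set ℂ) (hK : IsCompact K) (e : ℂ → Circle) (he : ContinuousOn e K)
    (hi : InjOn e K) (hns : e '' K ≠ univ) (f : ℂ → ℂ) (hf : ContinuousOn f K)
    (h0 : ∀ x ∈ K, f x ≠ 0) :
    ∃ g : ℂ → ℂ, ContinuousOn g K ∧ ∀ x ∈ K, Complex.exp (g x) = f x := by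
  obtain ⟨c0, hc0⟩ : ∃ c0, c0 ∉ e '' K := by
    by_contra h
    push Not at h
    exact hns (eq_univ_of_forall h)
  have hne : ∀ x ∈ K, e x ≠ c0 := fun x hx h => hc0 ⟨x, hx, h⟩
  have hc00 : (c0 : ℂ) ≠ 0 := Circle.coe_ne_zero c0
  have hu : ContinuousOn (fun x => Complex.arg (-((e x : ℂ) / (c0 : ℂ)))) K := by
    intro x hx
    have h1 : ContinuousWithinAt (fun x => -((e x : ℂ) / (c0 : ℂ))) K x := by
      have h2 : ContinuousWithinAt (fun x => ((e x : ℂ))) K x :=
        (continuous_subtype_val.continuousAt (x := e x)).comp_continuousWithinAt (he x hx)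
      exact (h2.div_const _).neg
    refine (Complex.continuousAt_arg ?_).comp_continuousWithinAt h1
    rw [Complex.mem_slitPlane_iff]
    by_contra h2
    push Not at h2
    obtain ⟨h3, h4⟩ := h2
    have h5 : ‖(e x : ℂ) / (c0 : ℂ)‖ = 1 := by
      rw [norm_div, Circle.norm_coe, Circle.norm_coe, div_one]
    have him : ((e x : ℂ) / (c0 : ℂ)).im = 0 := by
      rw [Complex.neg_im] at h4
      linarith
    have hre : 0 ≤ ((e x : ℂ) / (c0 : ℂ)).re := by
      rw [Complex.neg_re] at h3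
      linarith
    have h6 : (e x : ℂ) / (c0 : ℂ) = 1 := by
      have h7 : ((e x : ℂ) / (c0 : ℂ)).re ^ 2 = 1 := by
        have h8 := Complex.sq_norm ((e x : ℂ) / (c0 : ℂ))
        rw [h5, Complex.normSq_apply, him] at h8
        nlinarith
      have h9 : ((e x : ℂ) / (c0 : ℂ)).re = 1 := by nlinarith
      exact Complex.ext (by rw [h9, Complex.one_re]) (by rw [him, Complex.one_im])
    rw [div_eq_one_iff_eq hc00] at h6
    exact hne x hx (Circle.coe_injective h6)
  have hinj : InjOn (fun x => Complex.arg (-((e x : ℂ) / (c0 : ℂ)))) K := by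
    intro x hx y hy hxy
    have h1 : -((e x : ℂ) / (c0 : ℂ)) = -((e y : ℂ) / (c0 : ℂ)) := by
      refine Complex.ext_norm_arg ?_ hxy
      rw [norm_neg, norm_neg, norm_div, norm_div, Circle.norm_coe, Circle.norm_coe,
        Circle.norm_coe]
    have h2 : (e x : ℂ) = e y := by
      rw [neg_inj, div_left_inj' hc00] at h1
      exact h1
    exact hi hx hy (Circle.coe_injective h2)
  exact PLK_line hK hu hinj f hf h0

theorem two_logs (K : Set ℂ) (hK : IsCompact K) (e : ℂ → Circle) (he : ContinuousOn e K)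
    (hi : InjOn e K) (hs : e '' K = univ) (f1 f2 : ℂ → ℂ) (hf1 : ContinuousOn f1 K)
    (hf2 : ContinuousOn f2 K) (h1 : ∀ x ∈ K, f1 x ≠ 0) (h2 : ∀ x ∈ K, f2 x ≠ 0) :
    ∃ k1 k2 : ℤ, (k1 ≠ 0 ∨ k2 ≠ 0) ∧ ∃ g : ℂ → ℂ, ContinuousOn g K ∧
      ∀ x ∈ K, f1 x ^ k1 * f2 x ^ k2 = Complex.exp (g x) := by
  have : Fact (0 < 2 * π) := ⟨Real.two_pi_pos⟩
  obtain ⟨s, hsc, hse⟩ := PLK_inv hK he hi
  have hsK : ∀ c, s c ∈ K := by
    intro c
    have hc : c ∈ e '' K := by rw [hs]; exact mem_univ c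
    obtain ⟨x, hx, rfl⟩ := hc
    rw [hse x hx]
    exact hx
  have hscont : Continuous s := by
    rw [hs] at hsc
    exact continuousOn_univ.mp hsc
  -- logarithms along the interval
  have key : ∀ f : ℂ → ℂ, ContinuousOn f K → (∀ x ∈ K, f x ≠ 0) →
      ∃ (G : ℝ → ℂ) (n : ℤ), ContinuousOn G (Icc 0 (0 + 2 * π)) ∧
        (∀ t ∈ Icc (0 : ℝ) (0 + 2 * π), Complex.exp (G t) = f (s (Circle.exp t))) ∧
        G (0 + 2 * π) = G 0 + n * (2 * π * Complex.I) := by
    intro f hf hf0
    have hcont : ContinuousOn (fun t : ℝ => f (s (Circle.exp t))) (Icc 0 (0 + 2 * π)) := by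
      refine ContinuousOn.comp hf ?_ (fun t _ => hsK _)
      exact (hscont.comp Circle.exp.continuous).continuousOn
    obtain ⟨G, hG, hG2⟩ := log_on_line (Icc 0 (0 + 2 * π)) isCompact_Icc
      (fun t : ℝ => f (s (Circle.exp t))) hcont (fun t _ => hf0 _ (hsK _))
    have hm0 : (0 : ℝ) ∈ Icc (0 : ℝ) (0 + 2 * π) :=
      ⟨le_rfl, by rw [zero_add]; exact Real.two_pi_pos.le⟩
    have hm1 : (0 + 2 * π : ℝ) ∈ Icc (0 : ℝ) (0 + 2 * π) :=
      ⟨by rw [zero_add]; exact Real.two_pi_pos.le, le_rfl⟩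
    have e1 : Complex.exp (G (0 + 2 * π)) = Complex.exp (G 0) := by
      rw [hG2 _ hm0, hG2 _ hm1]
      simp only [zero_add, Circle.exp_two_pi, Circle.exp_zero]
    rw [Complex.exp_eq_exp_iff_exists_int] at e1
    obtain ⟨n, hn⟩ := e1
    exact ⟨G, n, hG, hG2, hn⟩
  obtain ⟨G1, n1, hG1, hG1e, hn1⟩ := key f1 hf1 h1
  obtain ⟨G2, n2, hG2, hG2e, hn2⟩ := key f2 hf2 h2
  obtain ⟨k1, k2, hk, hkn⟩ : ∃ k1 k2 : ℤ, (k1 ≠ 0 ∨ k2 ≠ 0) ∧ k1 * n1 + k2 * n2 = 0 := by
    by_cases hn : n1 = 0
    · exact ⟨1, 0, Or.inl one_ne_zero, by rw [hn]; ring⟩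
    · exact ⟨n2, -n1, Or.inr (neg_ne_zero.mpr hn), by ring⟩
  refine ⟨k1, k2, hk, ?_⟩
  have hGc : ContinuousOn (fun t => (k1 : ℂ) * G1 t + (k2 : ℂ) * G2 t) (Icc 0 (0 + 2 * π)) :=
    (continuousOn_const.mul hG1).add (continuousOn_const.mul hG2)
  have hGe : (fun t => (k1 : ℂ) * G1 t + (k2 : ℂ) * G2 t) 0 =
      (fun t => (k1 : ℂ) * G1 t + (k2 : ℂ) * G2 t) (0 + 2 * π) := by
    simp only
    rw [hn1, hn2]
    have hkn' : (k1 : ℂ) * n1 + (k2 : ℂ) * n2 = 0 := by exact_mod_cast hkn
    linear_combination (-(2 * π * Complex.I)) * hkn'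
  have hlift := AddCircle.liftIco_continuous (p := 2 * π) (a := 0) hGe hGc
  refine ⟨fun x => AddCircle.liftIco (2 * π) 0 (fun t => (k1 : ℂ) * G1 t + (k2 : ℂ) * G2 t)
    (AddCircle.homeomorphCircle'.symm (e x)), ?_, ?_⟩
  · exact (hlift.comp AddCircle.homeomorphCircle'.symm.continuous).comp_continuousOn he
  · intro x hx
    obtain ⟨t, ht, hte⟩ : ∃ t ∈ Ico (0 : ℝ) (0 + 2 * π),
        (t : AddCircle (2 * π)) = AddCircle.homeomorphCircle'.symm (e x) := by
      have h3 : AddCircle.homeomorphCircle'.symm (e x) ∈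
          ((↑) : ℝ → AddCircle (2 * π)) '' Ico 0 (0 + 2 * π) := by
        rw [AddCircle.coe_image_Ico_eq]
        exact mem_univ _
      obtain ⟨t, ht, hte⟩ := h3
      exact ⟨t, ht, hte⟩
    have hex : e x = Circle.exp t := by
      rw [← AddCircle.homeomorphCircle'_apply_mk, hte, Homeomorph.apply_symm_apply]
    beta_reduce
    rw [← hte, AddCircle.liftIco_coe_apply ht]
    have htc : t ∈ Icc (0 : ℝ) (0 + 2 * π) := ⟨ht.1, ht.2.le⟩
    rw [Complex.exp_add, Complex.exp_int_mul, Complex.exp_int_mul, hG1e t htc, hG2e t htc,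
      ← hex, hse x hx]

end Pool.CBD
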