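import Mathlib

/-!
# CBD module PLL: continuous logarithms on compact subsets of the line

PROOF.  First the gluing lemma: if A, B are closed, A ∩ B ⊂ {c} and f has continuous logarithms on A
and on B, then it has one on A ∪ B: if c is in A ∩ B, the two logarithms differ at c by a multiple
of 2 pi i; subtract it (the difference of the values at c, a constant with exp = 1) from the second
one; define the function piecewise on the two closed sets.
Now let K ⊂ [a, b] compact, f continuous and nowhere zero on K.  f is uniformly continuous and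
|f| ≥ c > 0 on K, so there is d > 0 with |f(x)/f(y) - 1| < 1 if x, y in K, |x - y| ≤ d.  On
K ∩ [u, v] with v - u ≤ d: if it is empty nothing to prove, else choose x0 in it and take
Complex.log (f x / f x0) + Complex.log (f x0), continuous since f x / f x0 lies in the slit plane.
Induction on n: f has a continuous logarithm on K ∩ [a, a + n d], by gluing K ∩ [a, a + n d] and
K ∩ [a + n d, a + (n+1) d], whose intersection is contained in {a + n d}.
-/

namespace Pool.CBD

open Real Set

private theorem glue_log (K : Set ℝ) (hK : IsClosed K) (f : ℝ → ℂ) (h0 : ∀ x ∈ K, f x ≠ 0)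
    (a u v : ℝ) (hau : a ≤ u) (huv : u ≤ v) (g₁ g₂ : ℝ → ℂ) (h1 : ContinuousOn g₁ (K ∩ Icc a u))
    (e1 : ∀ x ∈ K ∩ Icc a u, Complex.exp (g₁ x) = f x) (h2 : ContinuousOn g₂ (K ∩ Icc u v))
    (e2 : ∀ x ∈ K ∩ Icc u v, Complex.exp (g₂ x) = f x) :
    ∃ g : ℝ → ℂ, ContinuousOn g (K ∩ Icc a v) ∧ ∀ x ∈ K ∩ Icc a v, Complex.exp (g x) = f x := by
  classical
  set c : ℂ := if u ∈ K then g₁ u - g₂ u else 0 with hc
  have hexpc : Complex.exp c = 1 := by
    rw [hc]
    split_ifs with hu
    · rw [Complex.exp_sub, e1 u ⟨hu, hau, le_rfl⟩, e2 u ⟨hu, le_rfl, huv⟩, div_self (h0 u hu)]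
    · exact Complex.exp_zero
  have hs : K ∩ Icc a v = (K ∩ Icc a u) ∪ (K ∩ Icc u v) := by
    rw [← inter_union_distrib_left, Icc_union_Icc_eq_Icc hau huv]
  refine ⟨fun x => if x ≤ u then g₁ x else g₂ x + c, ?_, ?_⟩
  · rw [hs]
    refine ContinuousOn.union_of_isClosed ?_ ?_ (hK.inter isClosed_Icc) (hK.inter isClosed_Icc)
    · refine h1.congr fun x hx => ?_
      simp only [if_pos hx.2.2]
    · refine (h2.add continuousOn_const).congr (f := fun x => g₂ x + c) fun x hx => ?_
      rcases eq_or_lt_of_le hx.2.1 with h | h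
      · subst h
        simp only [le_refl, if_true]
        rw [hc, if_pos hx.1]
        ring
      · simp only [if_neg (not_le.2 h)]
  · intro x hx
    by_cases hxu : x ≤ u
    · simp only [if_pos hxu]
      exact e1 x ⟨hx.1, hx.2.1, hxu⟩
    · simp only [if_neg hxu]
      rw [Complex.exp_add, hexpc, mul_one]
      exact e2 x ⟨hx.1, (not_le.1 hxu).le, hx.2.2⟩

theorem log_on_line (K : Set ℝ) (hK : IsCompact K) (f : ℝ → ℂ) (hf : ContinuousOn f K)
    (h0 : ∀ x ∈ K, f x ≠ 0) :
    ∃ g : ℝ → ℂ, ContinuousOn g K ∧ ∀ x ∈ K, Complex.exp (g x) = f x := by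
  rcases K.eq_empty_or_nonempty with rfl | hne
  · exact ⟨0, continuousOn_empty _, fun x hx => absurd hx (notMem_empty x)⟩
  -- lower bound
  obtain ⟨x₀, hx₀, hmin⟩ := hK.exists_isMinOn hne hf.norm
  set m : ℝ := ‖f x₀‖ with hm
  have hm0 : 0 < m := norm_pos_iff.2 (h0 x₀ hx₀)
  have hle : ∀ y ∈ K, m ≤ ‖f y‖ := fun y hy => hmin hy
  have huc := hK.uniformContinuousOn_of_continuous hf
  obtain ⟨δ, hδ, hδ'⟩ := Metric.uniformContinuousOn_iff.1 huc m hm0
  set d : ℝ := δ / 2 with hd
  have hd0 : 0 < d := by positivity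
  have hloc : ∀ u : ℝ, ∃ g : ℝ → ℂ, ContinuousOn g (K ∩ Icc u (u + d)) ∧
      ∀ x ∈ K ∩ Icc u (u + d), Complex.exp (g x) = f x := by
    intro u
    rcases (K ∩ Icc u (u + d)).eq_empty_or_nonempty with h | ⟨y, hy⟩
    · rw [h]
      exact ⟨0, continuousOn_empty _, fun x hx => absurd hx (notMem_empty x)⟩
    · have hy0 := h0 y hy.1
      have hslit : ∀ x ∈ K ∩ Icc u (u + d), f x / f y ∈ Complex.slitPlane := by
        intro x hx
        have h1 : dist x y < δ := by
          rw [Real.dist_eq, abs_lt]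
          constructor <;> linarith [hx.2.1, hx.2.2, hy.2.1, hy.2.2]
        have h2 := hδ' x hx.1 y hy.1 h1
        have h3 : ‖f x / f y - 1‖ < 1 := by
          have h4 : f x / f y - 1 = (f x - f y) / f y := by field_simp
          rw [h4, norm_div, div_lt_one (norm_pos_iff.2 hy0)]
          rw [dist_eq_norm] at h2
          exact h2.trans_le (hle y hy.1)
        have h5 := Complex.mem_slitPlane_of_norm_lt_one h3
        simpa using h5
      refine ⟨fun x => Complex.log (f x / f y) + Complex.log (f y), ?_, ?_⟩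
      · refine ContinuousOn.add (ContinuousOn.clog ?_ hslit) continuousOn_const
        exact (hf.mono inter_subset_left).div_const _
      · intro x hx
        have hx0 := h0 x hx.1
        rw [Complex.exp_add, Complex.exp_log (div_ne_zero hx0 hy0), Complex.exp_log hy0]
        field_simp
  obtain ⟨R, hR⟩ := hK.isBounded.subset_closedBall (0 : ℝ)
  have hind : ∀ n : ℕ, ∃ g : ℝ → ℂ, ContinuousOn g (K ∩ Icc (-R) (-R + n * d)) ∧
      ∀ x ∈ K ∩ Icc (-R) (-R + n * d), Complex.exp (g x) = f x := by
    intro n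
    induction n with
    | zero =>
      refine ⟨fun _ => Complex.log (f (-R)), continuousOn_const, ?_⟩
      intro x hx
      have h1 : x = -R := by
        have h2 := hx.2.2
        have h3 := hx.2.1
        simp only [Nat.cast_zero, zero_mul, add_zero] at h2
        exact le_antisymm h2 h3
      subst h1
      exact Complex.exp_log (h0 _ hx.1)
    | succ n ih =>
      obtain ⟨g₁, h1, e1⟩ := ih
      obtain ⟨g₂, h2, e2⟩ := hloc (-R + n * d)
      have hnd : 0 ≤ (n : ℝ) * d := by positivity
      have h3 : -R + ((n + 1 : ℕ) : ℝ) * d = -R + n * d + d := by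
        push_cast
        ring
      rw [h3]
      exact glue_log K hK.isClosed f h0 (-R) (-R + n * d) (-R + n * d + d) (by linarith)
        (by linarith) g₁ g₂ h1 e1 h2 e2
  obtain ⟨n, hn⟩ := exists_nat_ge (2 * R / d)
  obtain ⟨g, hg, hge⟩ := hind n
  have hsub : K ⊆ K ∩ Icc (-R) (-R + n * d) := by
    intro x hx
    have h1 := hR hx
    rw [Metric.mem_closedBall, Real.dist_eq, sub_zero, abs_le] at h1
    refine ⟨hx, h1.1, ?_⟩
    rw [div_le_iff₀ hd0] at hn
    linarith [h1.2]
  exact ⟨g, hg.mono hsub, fun x hx => hge x (hsub hx)⟩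

end Pool.CBD
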