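import Pool.Agent.CBD.PLK
import Pool.Agent.CBD.PEI

/-!
# CBD module PPL: the two separation facts in the plane

PROOF of `plane_F`.  U1 bounded open, K compact, frontier U1 ⊂ K (from: U1 open, U0 open, U0, U1
disjoint, U0 ∪ U1 = Kᶜ: a frontier point of U1 is not in U1, nor in U0).  Take p in U1 and q in U0
(not in closure U1 since U0 is open and disjoint from U1).  f(z) = z - p has a continuous logarithm on
K by `log_of_inj_circle`; apply `eilenberg` with k1 = 1, k2 = 0: 1 = 0, contradiction.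
PROOF of `plane_J`.  U1, U2 bounded open.  If e is not onto, argue as in plane_F (with U0 ∪ U2 in
place of U0).  If e is onto, `two_logs` with f1 = z - p1, f2 = z - p2 gives (k1, k2) ≠ 0; if k1 ≠ 0
apply `eilenberg` with U = U1, p = p1, q = p2; if k2 ≠ 0, with U = U2, p = p2, q = p1.
-/

namespace Pool.CBD

open Real Set

/-- an open set disjoint from an open set `V` has closure disjoint from `V` -/
private theorem ppl_closure {U V : Set ℂ} (hV : IsOpen V) (hd : Disjoint V U) {q : ℂ} (hq : q ∈ V) :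
    q ∉ closure U := by
  have h := hd.closure_right hV
  exact fun h' => Set.disjoint_left.mp h hq h'

/-- the frontier of a component of the complement of `K` lies in `K` -/
private theorem ppl_frontier {K U V : Set ℂ} (hU : IsOpen U) (hV : IsOpen V) (hd : Disjoint V U)
    (hu : V ∪ U = Kᶜ) : frontier U ⊆ K := by
  intro z hz
  by_contra hzK
  have hz' : z ∈ V ∪ U := by rw [hu]; exact hzK
  rw [hU.frontier_eq] at hz
  rcases hz' with h | h
  · exact ppl_closure hV hd h hz.1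
  · exact hz.2 h

theorem plane_F (K U0 U1 : Set ℂ) (hK : IsCompact K) (h0 : IsOpen U0) (h1 : IsOpen U1)
    (n0 : U0.Nonempty) (n1 : U1.Nonempty) (hd : Disjoint U0 U1) (hu : U0 ∪ U1 = Kᶜ)
    (hb : Bornology.IsBounded U1)
    (e : ℂ → Circle) (he : ContinuousOn e K) (hi : InjOn e K) (hns : e '' K ≠ univ) : False := by
  obtain ⟨p, hp⟩ := n1
  obtain ⟨q, hq⟩ := n0
  have hpK : ∀ x ∈ K, x - p ≠ 0 := by
    intro x hx h
    rw [sub_eq_zero] at h
    have : p ∈ Kᶜ := by rw [← hu]; exact Or.inr hp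
    exact this (h ▸ hx)
  obtain ⟨g, hg, hg2⟩ := log_of_inj_circle K hK e he hi hns (fun z => z - p) (by fun_prop) hpK
  have := eilenberg K U1 hK h1 hb (ppl_frontier h1 h0 hd hu) p q hp (ppl_closure h0 hd hq) 1 0 g hg
    (by
      intro z hz
      rw [hg2 z hz]
      simp)
  exact one_ne_zero this

theorem plane_J (K U0 U1 U2 : Set ℂ) (hK : IsCompact K) (h0 : IsOpen U0) (h1 : IsOpen U1)
    (h2 : IsOpen U2) (n0 : U0.Nonempty) (n1 : U1.Nonempty) (n2 : U2.Nonempty)
    (hd01 : Disjoint U0 U1) (hd02 : Disjoint U0 U2) (hd12 : Disjoint U1 U2)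
    (hu : U0 ∪ U1 ∪ U2 = Kᶜ) (hb1 : Bornology.IsBounded U1) (hb2 : Bornology.IsBounded U2)
    (e : ℂ → Circle) (he : ContinuousOn e K) (hi : InjOn e K) : False := by
  have hu1 : (U0 ∪ U2) ∪ U1 = Kᶜ := by
    rw [← hu]
    ac_rfl
  have hu2 : (U0 ∪ U1) ∪ U2 = Kᶜ := hu
  have hd1 : Disjoint (U0 ∪ U2) U1 := Set.disjoint_union_left.mpr ⟨hd01, hd12.symm⟩
  have hd2 : Disjoint (U0 ∪ U1) U2 := Set.disjoint_union_left.mpr ⟨hd02, hd12⟩
  by_cases hs : e '' K = univ
  · obtain ⟨p1, hp1⟩ := n1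
    obtain ⟨p2, hp2⟩ := n2
    have hK1 : ∀ x ∈ K, x - p1 ≠ 0 := by
      intro x hx h
      rw [sub_eq_zero] at h
      have : p1 ∈ Kᶜ := by rw [← hu1]; exact Or.inr hp1
      exact this (h ▸ hx)
    have hK2 : ∀ x ∈ K, x - p2 ≠ 0 := by
      intro x hx h
      rw [sub_eq_zero] at h
      have : p2 ∈ Kᶜ := by rw [← hu2]; exact Or.inr hp2
      exact this (h ▸ hx)
    obtain ⟨k1, k2, hk, g, hg, hg2⟩ := two_logs K hK e he hi hs (fun z => z - p1) (fun z => z - p2)
      (by fun_prop) (by fun_prop) hK1 hK2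
    rcases hk with hk | hk
    · exact hk (eilenberg K U1 hK h1 hb1 (ppl_frontier h1 (h0.union h2) hd1 hu1) p1 p2 hp1
        (ppl_closure (h0.union h2) hd1 (Or.inr hp2)) k1 k2 g hg hg2)
    · exact hk (eilenberg K U2 hK h2 hb2 (ppl_frontier h2 (h0.union h1) hd2 hu2) p2 p1 hp2
        (ppl_closure (h0.union h1) hd2 (Or.inr hp1)) k2 k1 g hg
        (fun z hz => by rw [mul_comm]; exact hg2 z hz))
  · exact plane_F K (U0 ∪ U2) U1 hK (h0.union h2) h1 (n0.mono subset_union_left) n1 hd1 hu1 hb1 e he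
      hi hs

end Pool.CBD
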