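import Pool.Agent.CBD.Dat

/-!
# CBD: the tree of blocks as a metric space

`GDat` adds to the combinatorial data a model block B with an action of K, the base wall W, the
gluing isometry io of W (equivariant with respect to sg), a 1-Lipschitz retraction pr onto W and a lower
bound del for the distance between two walls of a block.
`LipF D`: functions on the glued space, as families of 1-Lipschitz functions on the charts which are
compatible with the right action and with the gluing.  The distance of two points of the disjoint union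
`Pre D` of all charts is the supremum of |F p - F q|; `XX D` is the metric quotient, `bt c b` the point
of `XX D` with coordinate b in the chart c.
-/

namespace Pool.CBD

structure GDat (K N B : Type) [Group K] [MulAction K N] [MetricSpace B] extends Dat K N where
  act : K → B → B
  act_one : ∀ b, act 1 b = b
  act_mul : ∀ k k' b, act (k * k') b = act k (act k' b)
  act_dist : ∀ k b b', dist (act k b) (act k b') = dist b b'
  W : Set B
  W_closed : IsClosed W
  act_W : ∀ c, c • a0 = a0 → ∀ w ∈ W, act c w ∈ W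
  io : B → B
  io_mem : ∀ w ∈ W, io w ∈ W
  io_io : ∀ w ∈ W, io (io w) = w
  io_dist : ∀ w ∈ W, ∀ w' ∈ W, dist (io w) (io w') = dist w w'
  io_act : ∀ c, c • a0 = a0 → ∀ w ∈ W, io (act c w) = act (sg c) (io w)
  pr : B → B
  pr_mem : ∀ b, pr b ∈ W
  pr_id : ∀ w ∈ W, pr w = w
  pr_dist : ∀ b b', dist (pr b) (pr b') ≤ dist b b'
  del : ℝ
  del_pos : 0 < del
  sep : ∀ k, k • a0 ≠ a0 → ∀ w ∈ W, ∀ w' ∈ W, del ≤ dist w (act k w')
  b0 : B
  geod : ∀ x y : B, ∃ g : ℝ → B, g 0 = x ∧ g (dist x y) = y ∧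
    ∀ s ∈ Set.Icc 0 (dist x y), ∀ t ∈ Set.Icc 0 (dist x y), dist (g s) (g t) = |s - t|
  walls_fin : ∀ R : ℝ, {a : N | ∃ w ∈ W, dist b0 (act (r a) w) ≤ R}.Finite
  act_fin : ∀ R : ℝ, {k : K | dist b0 (act k b0) ≤ R}.Finite
  cocpt : ∃ R : ℝ, ∀ b, ∃ k, dist b0 (act k b) ≤ R

variable {K N B : Type} [Group K] [MulAction K N] [MetricSpace B]

/-- Charts of the geometric data. -/
abbrev GDat.Ch (D : GDat K N B) : Type := Pool.CBD.Ch D.toDat

/-- Compatible families of 1-Lipschitz functions. -/
structure LipF (D : GDat K N B) where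
  f : D.Ch → B → ℝ
  lip : ∀ c b b', |f c b - f c b'| ≤ dist b b'
  mul : ∀ (c : D.Ch) k b, f (c.mul k) b = f c (D.act k b)
  flip : ∀ (c : D.Ch), ∀ w ∈ D.W, f c.flip (D.io w) = f c w

/-- The disjoint union of all charts. -/
structure Pre (D : GDat K N B) where
  c : D.Ch
  b : B

variable {D : GDat K N B}

theorem GDat.act_inv_act (D : GDat K N B) (k : K) (b : B) : D.act k⁻¹ (D.act k b) = b := by
  rw [← D.act_mul, inv_mul_cancel, D.act_one]

theorem GDat.act_act_inv (D : GDat K N B) (k : K) (b : B) : D.act k (D.act k⁻¹ b) = b := by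
  rw [← D.act_mul, mul_inv_cancel, D.act_one]

instance : Inhabited (LipF D) := ⟨⟨fun _ _ => 0, by simp, by simp, by simp⟩⟩

theorem LipF.bdd_base (c : D.Ch) (b : B) :
    ∃ C : ℝ, ∀ F : LipF D, |F.f c b - F.f (Ch.base D.toDat) D.b0| ≤ C := by
  have key := Ch.conn_base (D := D.toDat)
    {c : D.Ch | ∀ b, ∃ C : ℝ, ∀ F : LipF D, |F.f c b - F.f (Ch.base D.toDat) D.b0| ≤ C}
    (fun b => ⟨dist b D.b0, fun F => F.lip _ _ _⟩)
    (fun c hc k b => by
      obtain ⟨C, hC⟩ := hc (D.act k b)
      exact ⟨C, fun F => by rw [F.mul]; exact hC F⟩)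
    (fun c hc b => by
      obtain ⟨C, hC⟩ := hc (D.pr D.b0)
      refine ⟨dist b (D.io (D.pr D.b0)) + C, fun F => ?_⟩
      have h1 := F.lip c.flip b (D.io (D.pr D.b0))
      rw [F.flip c _ (D.pr_mem _)] at h1
      have h2 := hC F
      calc |F.f c.flip b - F.f (Ch.base D.toDat) D.b0|
          = |(F.f c.flip b - F.f c (D.pr D.b0)) + (F.f c (D.pr D.b0) - F.f (Ch.base D.toDat) D.b0)| := by
            congr 1; ring
        _ ≤ _ := (abs_add_le _ _).trans (add_le_add h1 h2))
    c
  exact key b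

/-- The pseudo-distance: supremum over all compatible families. -/
noncomputable instance : Dist (Pre D) :=
  ⟨fun p q => ⨆ F : LipF D, |F.f p.c p.b - F.f q.c q.b|⟩

theorem Pre.dist_def (p q : Pre D) : dist p q = ⨆ F : LipF D, |F.f p.c p.b - F.f q.c q.b| := rfl

theorem Pre.bdd (p q : Pre D) :
    BddAbove (Set.range fun F : LipF D => |F.f p.c p.b - F.f q.c q.b|) := by
  obtain ⟨C1, h1⟩ := LipF.bdd_base (D := D) p.c p.b
  obtain ⟨C2, h2⟩ := LipF.bdd_base (D := D) q.c q.b
  refine ⟨C1 + C2, ?_⟩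
  rintro _ ⟨F, rfl⟩
  have h3 := h1 F
  have h4 := h2 F
  rw [abs_sub_comm] at h4
  calc |F.f p.c p.b - F.f q.c q.b|
      = |(F.f p.c p.b - F.f (Ch.base D.toDat) D.b0) + (F.f (Ch.base D.toDat) D.b0 - F.f q.c q.b)| := by
        congr 1; ring
    _ ≤ _ := (abs_add_le _ _).trans (add_le_add h3 h4)

theorem Pre.abs_le (F : LipF D) (p q : Pre D) : |F.f p.c p.b - F.f q.c q.b| ≤ dist p q :=
  le_ciSup (Pre.bdd p q) F

theorem Pre.dist_le {p q : Pre D} {C : ℝ} (h : ∀ F : LipF D, |F.f p.c p.b - F.f q.c q.b| ≤ C) :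
    dist p q ≤ C := ciSup_le h

noncomputable instance : PseudoMetricSpace (Pre D) where
  dist_self p := by simp [Pre.dist_def]
  dist_comm p q := by
    rw [Pre.dist_def, Pre.dist_def]
    congr 1
    funext F
    exact abs_sub_comm _ _
  dist_triangle p q r := by
    apply Pre.dist_le
    intro F
    calc |F.f p.c p.b - F.f r.c r.b|
        = |(F.f p.c p.b - F.f q.c q.b) + (F.f q.c q.b - F.f r.c r.b)| := by congr 1; ring
      _ ≤ _ := (abs_add_le _ _).trans (add_le_add (Pre.abs_le F p q) (Pre.abs_le F q r))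

/-- The glued space. -/
def XX (D : GDat K N B) : Type := SeparationQuotient (Pre D)

noncomputable instance : MetricSpace (XX D) :=
  inferInstanceAs (MetricSpace (SeparationQuotient (Pre D)))

/-- The point of the glued space with coordinate b in the chart c. -/
noncomputable def bt (c : D.Ch) (b : B) : XX D := SeparationQuotient.mk (⟨c, b⟩ : Pre D)

theorem dist_bt_def (c c' : D.Ch) (b b' : B) :
    dist (bt c b) (bt c' b') = ⨆ F : LipF D, |F.f c b - F.f c' b'| := rfl

theorem LipF.le_dist (F : LipF D) (c c' : D.Ch) (b b' : B) :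
    |F.f c b - F.f c' b'| ≤ dist (bt c b) (bt c' b') :=
  Pre.abs_le F ⟨c, b⟩ ⟨c', b'⟩

theorem dist_bt_le {c c' : D.Ch} {b b' : B} {C : ℝ} (h : ∀ F : LipF D, |F.f c b - F.f c' b'| ≤ C) :
    dist (bt c b) (bt c' b') ≤ C := Pre.dist_le h

theorem exists_bt (x : XX D) : ∃ (c : D.Ch) (b : B), x = bt c b := by
  obtain ⟨⟨c, b⟩, rfl⟩ := SeparationQuotient.surjective_mk x
  exact ⟨c, b, rfl⟩

theorem bt_mul (c : D.Ch) (k : K) (b : B) : bt (c.mul k) b = bt c (D.act k b) := by
  apply eq_of_dist_eq_zero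
  apply le_antisymm _ dist_nonneg
  apply dist_bt_le
  intro F
  rw [F.mul, sub_self, abs_zero]

theorem bt_flip (c : D.Ch) {w : B} (hw : w ∈ D.W) : bt c.flip (D.io w) = bt c w := by
  apply eq_of_dist_eq_zero
  apply le_antisymm _ dist_nonneg
  apply dist_bt_le
  intro F
  rw [F.flip c w hw, sub_self, abs_zero]

theorem dist_bt_le_dist (c : D.Ch) (b b' : B) : dist (bt c b) (bt c b') ≤ dist b b' :=
  dist_bt_le fun F => F.lip c b b'

/-- The action of the group on compatible families. -/
def LipF.tr (F : LipF D) (g : GG D.toDat) : LipF D where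
  f c b := F.f (g.1 c) b
  lip c b b' := F.lip _ b b'
  mul c k b := by rw [g.2.1, F.mul]
  flip c w hw := by rw [g.2.2, F.flip _ w hw]

/-- The action of the group on the disjoint union of the charts. -/
def Pre.ac (g : GG D.toDat) (p : Pre D) : Pre D := ⟨g.1 p.c, p.b⟩

theorem Pre.dist_ac (g : GG D.toDat) (p q : Pre D) : dist (Pre.ac g p) (Pre.ac g q) = dist p q := by
  apply le_antisymm
  · exact Pre.dist_le fun F => Pre.abs_le (F.tr g) p q
  · apply Pre.dist_le
    intro F
    have := Pre.abs_le (F.tr g⁻¹) (Pre.ac g p) (Pre.ac g q)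
    simpa [LipF.tr, Pre.ac] using this

/-- The action of the group on the glued space. -/
noncomputable instance : MulAction (GG D.toDat) (XX D) where
  smul g x := SeparationQuotient.lift (fun p => (SeparationQuotient.mk (Pre.ac g p) : XX D))
    (by
      intro p q h
      apply SeparationQuotient.mk_eq_mk.mpr
      rw [Metric.inseparable_iff] at h ⊢
      rw [Pre.dist_ac, h]) x
  one_smul x := by
    obtain ⟨p, rfl⟩ := SeparationQuotient.surjective_mk x
    rfl
  mul_smul g h x := by
    obtain ⟨p, rfl⟩ := SeparationQuotient.surjective_mk x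
    rfl

theorem smul_bt (g : GG D.toDat) (c : D.Ch) (b : B) : g • bt c b = bt (g.1 c) b := rfl

theorem dist_smul' (g : GG D.toDat) (x y : XX D) : dist (g • x) (g • y) = dist x y := by
  obtain ⟨c, b, rfl⟩ := exists_bt x
  obtain ⟨c', b', rfl⟩ := exists_bt y
  exact Pre.dist_ac g ⟨c, b⟩ ⟨c', b'⟩

end Pool.CBD
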