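import Pool.Agent.CBD.ZID

/-!
# CBD module ZAC: the action of K on the block

PROOFS.  k.1.1 ∈ OJ for k.1 : Gam (k.1.2.1).  `actK_one`: actH_one, tau 1 = 0 (from tau_mul).
`actK_mul`: `actH_mul`, `tau_mul`.  `actK_iso`: `cc_actH`, `actH_surj`.
`actK_side`: stabK: k = (gam0^i, n) and `stab_form`: the second coordinate of actH g p is p.y (middle row of
the matrix is (0,1,0)).
`tau_pow`: tau (gam0 ^ i) = i * tau gam0 (tau is a homomorphism), tau gam0 > 0 (`tau_pos`).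
`actK_wp`: k = (gam0^i, ofAdd n): actK P k (wp s v) = wp (s + i Lg) (v + Lg / co (si i + n)) (`gam_spec`).
`actK_io`: w = wp s v; io (wp s' v') = wp (-si s' + co v') (co s' + si v') (`io_wp`); with
s' = s + i Lg, v' = v + (Lg/co)(si i + n): -si s' + co v' = (-si s + co v) + n Lg and
co s' + si v' = (co s + si v) + (Lg/co)(co^2 i + si^2 i + si n) = (co s + si v) + (Lg/co)(si n + i).
-/

namespace Pool.CBD

open Real Set

theorem tau_one : tau 1 = 0 := by
  have h := tau_mul 1 1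
  rw [mul_one] at h
  linarith

private theorem tau_add (g h : Additive Gam) :
    tau (Additive.toMul (g + h)) = tau (Additive.toMul g) + tau (Additive.toMul h) :=
  tau_mul _ _

theorem tau_pow (i : ℤ) : tau (gam0 ^ i) = i * tau gam0 := by
  have h := map_zsmul (AddMonoidHom.mk' (fun g : Additive Gam => tau (Additive.toMul g)) tau_add) i
    (Additive.ofMul gam0)
  rw [smul_eq_mul] at h
  exact h

theorem tau_gam0_pos : 0 < tau gam0 :=
  tau_pos gam_spec.2.1 gam_spec.2.2.1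

theorem actK_one (P : Par) (b : Blk) : actK P 1 b = b := by
  refine Blk.ext (actH_one b.h) ?_
  change b.v + Lg / P.co * (P.si * ((tau 1 : ℝ) / (tau gam0 : ℝ)) + ((0 : ℤ) : ℝ)) = b.v
  rw [tau_one]
  simp

theorem actK_mul (P : Par) (k k' : KK) (b : Blk) : actK P (k * k') b = actK P k (actK P k' b) := by
  refine Blk.ext (actH_mul k.1.2.1 k'.1.2.1 b.h) ?_
  change b.v + Lg / P.co * (P.si * ((tau (k.1 * k'.1) : ℝ) / (tau gam0 : ℝ)) +
    ((Multiplicative.toAdd k.2 + Multiplicative.toAdd k'.2 : ℤ) : ℝ)) =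
    (b.v + Lg / P.co * (P.si * ((tau k'.1 : ℝ) / (tau gam0 : ℝ)) +
      ((Multiplicative.toAdd k'.2 : ℤ) : ℝ))) +
      Lg / P.co * (P.si * ((tau k.1 : ℝ) / (tau gam0 : ℝ)) + ((Multiplicative.toAdd k.2 : ℤ) : ℝ))
  rw [tau_mul]
  push_cast
  ring

theorem actK_iso (P : Par) (k : KK) : BIso (actK P k) :=
  ⟨actH k.1.1, Lg / P.co * (P.si * ((tau k.1 : ℝ) / (tau gam0 : ℝ)) +
    ((Multiplicative.toAdd k.2 : ℤ) : ℝ)), actH_surj k.1.2.1, fun p q => cc_actH k.1.2.1 p q,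
    fun _ => rfl⟩

theorem actK_side (P : Par) {k : KK} (hk : k • na0 = na0) (b : Blk) : (actK P k b).h.y = b.h.y := by
  obtain ⟨p, q, hm, -⟩ := stab_form (g := k.1) hk
  change ((mat k.1 1 0 : ℤ) : ℝ) * b.h.x + ((mat k.1 1 1 : ℤ) : ℝ) * b.h.y +
    ((mat k.1 1 2 : ℤ) : ℝ) * (b.h.t / √3) = b.h.y
  have h0 : mat k.1 1 0 = 0 := by rw [hm]; rfl
  have h1 : mat k.1 1 1 = 1 := by rw [hm]; rfl
  have h2 : mat k.1 1 2 = 0 := by rw [hm]; rfl
  rw [h0, h1, h2]
  push_cast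
  ring

theorem actK_wp (P : Par) (i n : ℤ) (s v : ℝ) :
    actK P (gam0 ^ i, Multiplicative.ofAdd n) (wp s v) =
      wp (s + i * Lg) (v + Lg / P.co * (P.si * i + n)) := by
  refine Blk.ext (gam_spec.2.2.2.2 i s) ?_
  change v + Lg / P.co * (P.si * ((tau (gam0 ^ i) : ℝ) / (tau gam0 : ℝ)) + ((n : ℤ) : ℝ)) =
    v + Lg / P.co * (P.si * i + n)
  have h0 : ((tau gam0 : ℤ) : ℝ) ≠ 0 := by
    exact_mod_cast tau_gam0_pos.ne'
  rw [tau_pow]
  push_cast
  rw [mul_div_assoc, div_self h0, mul_one]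

theorem actK_io (P : Par) {k : KK} (hk : k • na0 = na0) {w : Blk} (hw : w ∈ W0) :
    io P (actK P k w) = actK P (sgK k) (io P w) := by
  obtain ⟨i, n, rfl⟩ := stabK hk
  obtain ⟨s, v, rfl⟩ := exists_wp hw
  have hc : P.co ≠ 0 := P.co_pos.ne'
  have hs := P.sq
  rw [actK_wp, io_wp, io_wp, sgK_pow, actK_wp]
  have e1 : -P.si * (s + i * Lg) + P.co * (v + Lg / P.co * (P.si * i + n)) =
      -P.si * s + P.co * v + n * Lg := by
    field_simp
    ring
  have e2 : P.co * (s + i * Lg) + P.si * (v + Lg / P.co * (P.si * i + n)) =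
      P.co * s + P.si * v + Lg / P.co * (P.si * n + i) := by
    field_simp
    linear_combination (i * Lg) * hs
  rw [e1, e2]

end Pool.CBD
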