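import Pool.Agent.CBD.BSC
import Pool.Agent.CBD.BTP
import Pool.Agent.CBD.BTA
import Pool.Agent.CBD.Dat

/-!
# CBD: the concrete group K = Gam x Z and its action on the block (definitions)

The generator `gam0` of the stabiliser of the base line and its translation length `Lg` come from
`exists_gam`.  `idx` is the exponent of an element of the stabiliser.  `sgK` exchanges the two factors of
the stabiliser of the base wall.  `actK P` is the action of K on the block for the parameter P.
-/

namespace Pool.CBD

open Real

abbrev KK := Gam × Multiplicative ℤ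

instance : MulAction KK NN := MulAction.compHom NN (MonoidHom.fst Gam (Multiplicative ℤ))

theorem KK_smul (k : KK) (u : NN) : k • u = k.1 • u := rfl

noncomputable def gam0 : Gam := exists_gam.choose

noncomputable def Lg : ℝ := exists_gam.choose_spec.choose

theorem gam_spec : 0 < Lg ∧ gam0 • na0 = na0 ∧ 0 < mat gam0 2 0 ∧
    (∀ g : Gam, g • na0 = na0 → ∃ i : ℤ, g = gam0 ^ i) ∧
    ∀ (i : ℤ) (s : ℝ), actH (gam0 ^ i : Gam).1 (Hyp.of (Real.sinh s) 0) =
      Hyp.of (Real.sinh (s + i * Lg)) 0 := exists_gam.choose_spec.choose_spec

/-- The exponent of an element of the stabiliser of the base line. -/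
noncomputable def idx (g : Gam) : ℤ :=
  open Classical in if h : ∃ i : ℤ, g = gam0 ^ i then h.choose else 0

/-- The involution of the stabiliser of the base wall. -/
noncomputable def sgK (k : KK) : KK :=
  (gam0 ^ (Multiplicative.toAdd k.2), Multiplicative.ofAdd (idx k.1))

/-- A section of the orbit map. -/
noncomputable def rK (a : NN) : KK :=
  open Classical in if a = na0 then 1 else (a.2.choose, 1)

/-- The action of K on the block. -/
noncomputable def actK (P : Par) (k : KK) (b : Blk) : Blk :=
  ⟨actH k.1.1 b.h, b.v + Lg / P.co * (P.si * ((tau k.1 : ℝ) / (tau gam0 : ℝ)) +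
    ((Multiplicative.toAdd k.2 : ℤ) : ℝ))⟩

/-- The base point. -/
noncomputable def obK : Blk := ⟨Hyp.of (1 / √10) (1 / √10), 0⟩

end Pool.CBD
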