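import Pool.Agent.CBD.ZAC
import Pool.Agent.CBD.BCC

/-!
# CBD module ZFI: properness and cocompactness of the action of K on the block

PROOFS.  `act_finK`: dist of the H-parts ≤ dist, `actH_fin` gives finitely many g (the coercion of Gam into
GL3 is injective); for each g the vertical displacement (Lg/co)(si tau g/tau gam0 + n) is bounded, so
finitely many n.  `cocptK`: `Gam_cocpt` gives g with dist h0 (actH g b.h) ≤ R; then choose n so that the
vertical coordinate is in [0, Lg/co]; triangle inequality with obK.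
`twoK`: the matrix (1,0,0; 0,p,3q; 0,q,p) with p = 3650401, q = 2107560 (p^2 - 3 q^2 = 1, p ≡ 1, q ≡ 0
mod 12) is in Gam and sends ve1 to (0, p, q).
-/

namespace Pool.CBD

open Real Set

private theorem ZFI_h (a b : Blk) : dist a.h b.h ≤ dist a b := by
  refine abs_le_of_sq_le_sq' ?_ dist_nonneg |>.2
  rw [Blk.dist_sq]
  nlinarith [sq_nonneg (a.v - b.v)]

private theorem ZFI_v (a b : Blk) : |a.v - b.v| ≤ dist a b := by
  refine abs_le_of_sq_le_sq ?_ dist_nonneg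
  rw [Blk.dist_sq]
  nlinarith [sq_nonneg (dist a.h b.h)]

private theorem ZFI_hv (a b : Blk) : dist a b ≤ dist a.h b.h + |a.v - b.v| := by
  have h1 : 0 ≤ dist a.h b.h + |a.v - b.v| := add_nonneg dist_nonneg (abs_nonneg _)
  refine abs_le_of_sq_le_sq' ?_ h1 |>.2
  rw [Blk.dist_sq]
  have h2 : |a.v - b.v| ^ 2 = (a.v - b.v) ^ 2 := sq_abs _
  have h3 : 0 ≤ dist a.h b.h * |a.v - b.v| := mul_nonneg dist_nonneg (abs_nonneg _)
  nlinarith

theorem act_finK (P : Par) (R : ℝ) : {k : KK | dist obK (actK P k obK) ≤ R}.Finite := by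
  have hL : 0 < Lg / P.co := div_pos gam_spec.1 P.co_pos
  refine Set.Finite.of_finite_fibers (Prod.fst : KK → Gam) ?_ ?_
  · have h1 := actH_fin obK.h R
    have h2 := h1.preimage (f := (Subtype.val : Gam → GL3)) Subtype.val_injective.injOn
    refine h2.subset ?_
    rintro g ⟨k, hk, rfl⟩
    refine ⟨k.1.2.1, ?_⟩
    exact (ZFI_h obK (actK P k obK)).trans hk
  · intro g _
    obtain ⟨x, hx⟩ : ∃ x : ℝ, x = P.si * ((tau g : ℝ) / (tau gam0 : ℝ)) := ⟨_, rfl⟩
    refine ((Set.finite_Icc (⌊-x - R / (Lg / P.co)⌋) (⌈-x + R / (Lg / P.co)⌉)).image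
      (fun n : ℤ => ((g, Multiplicative.ofAdd n) : KK))).subset ?_
    rintro ⟨g', n⟩ ⟨hk, hg⟩
    have hg' : g' = g := hg
    subst hg'
    refine ⟨Multiplicative.toAdd n, ?_, rfl⟩
    have h1 := (ZFI_v obK (actK P (g', n) obK)).trans hk
    have h2 : obK.v - (actK P (g', n) obK).v =
        -(Lg / P.co * (x + ((Multiplicative.toAdd n : ℤ) : ℝ))) := by
      rw [hx]
      change (0 : ℝ) - (0 + Lg / P.co * (P.si * ((tau g' : ℝ) / (tau gam0 : ℝ)) +
        ((Multiplicative.toAdd n : ℤ) : ℝ))) = _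
      ring
    rw [h2, abs_neg, abs_mul, abs_of_pos hL, ← le_div_iff₀' hL, abs_le] at h1
    constructor
    · have h3 : (⌊-x - R / (Lg / P.co)⌋ : ℝ) ≤ ((Multiplicative.toAdd n : ℤ) : ℝ) :=
        (Int.floor_le _).trans (by linarith [h1.1])
      exact_mod_cast h3
    · have h3 : ((Multiplicative.toAdd n : ℤ) : ℝ) ≤ (⌈-x + R / (Lg / P.co)⌉ : ℝ) :=
        le_trans (by linarith [h1.2]) (Int.le_ceil _)
      exact_mod_cast h3

theorem cocptK (P : Par) : ∃ R : ℝ, ∀ b, ∃ k, dist obK (actK P k b) ≤ R := by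
  obtain ⟨R, hR⟩ := Gam_cocpt
  have hL : 0 < Lg / P.co := div_pos gam_spec.1 P.co_pos
  refine ⟨dist obK.h (Hyp.of 0 0) + R + Lg / P.co, fun b => ?_⟩
  obtain ⟨g, hg, hgd⟩ := hR b.h
  obtain ⟨x, hx⟩ : ∃ x : ℝ, x = b.v + Lg / P.co * (P.si * ((tau ⟨g, hg⟩ : ℝ) / (tau gam0 : ℝ))) :=
    ⟨_, rfl⟩
  obtain ⟨n, hn⟩ : ∃ n : ℤ, n = -⌊x / (Lg / P.co)⌋ := ⟨_, rfl⟩
  refine ⟨(⟨g, hg⟩, Multiplicative.ofAdd n), ?_⟩
  refine (ZFI_hv _ _).trans ?_
  have h1 : dist obK.h (actK P (⟨g, hg⟩, Multiplicative.ofAdd n) b).h ≤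
      dist obK.h (Hyp.of 0 0) + R := by
    change dist obK.h (actH g b.h) ≤ _
    exact (dist_triangle _ (Hyp.of 0 0) _).trans (by linarith)
  have h2 : (actK P (⟨g, hg⟩, Multiplicative.ofAdd n) b).v = x + Lg / P.co * n := by
    rw [hx]
    change b.v + Lg / P.co * (P.si * ((tau ⟨g, hg⟩ : ℝ) / (tau gam0 : ℝ)) + ((n : ℤ) : ℝ)) = _
    ring
  have h3 : |obK.v - (actK P (⟨g, hg⟩, Multiplicative.ofAdd n) b).v| ≤ Lg / P.co := by
    rw [h2, hn]
    change |0 - (x + Lg / P.co * ((-⌊x / (Lg / P.co)⌋ : ℤ) : ℝ))| ≤ _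
    push_cast
    have h4 := Int.floor_le (x / (Lg / P.co))
    have h5 := Int.lt_floor_add_one (x / (Lg / P.co))
    rw [le_div_iff₀ hL] at h4
    rw [div_lt_iff₀ hL] at h5
    rw [abs_le]
    constructor <;> nlinarith
  linarith

private def ZFI_m (e : ℤ) : Matrix (Fin 3) (Fin 3) ℤ :=
  !![1, 0, 0; 0, 3650401, 3 * (e * 2107560); 0, e * 2107560, 3650401]

private def ZFI_u : GL3 where
  val := ZFI_m 1
  inv := ZFI_m (-1)
  val_inv := by
    unfold ZFI_m
    decide +kernel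
  inv_val := by
    unfold ZFI_m
    decide +kernel

private theorem ZFI_mulVec (v : Fin 3 → ℤ) : ZFI_u.1.mulVec v =
    ![v 0, 3650401 * v 1 + 6322680 * v 2, 2107560 * v 1 + 3650401 * v 2] := by
  funext i
  fin_cases i <;> simp [ZFI_u, ZFI_m, Matrix.mulVec, dotProduct, Fin.sum_univ_three]

private theorem ZFI_mem : ZFI_u ∈ Gam := by
  refine ⟨⟨fun u v => ?_, fun v hv hv2 => ?_⟩, ?_⟩
  · rw [ZFI_mulVec, ZFI_mulVec]
    simp only [bj, Matrix.cons_val_zero, Matrix.cons_val_one, Matrix.cons_val]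
    ring
  · rw [ZFI_mulVec]
    simp only [Matrix.cons_val]
    unfold bj at hv
    by_contra hcon
    push Not at hcon
    nlinarith [mul_self_nonneg (v 0), mul_self_nonneg (v 1)]
  · change ZFI_u ∈ cong
    rw [cong, MonoidHom.mem_ker]
    apply Units.ext
    ext i j
    fin_cases i <;> fin_cases j <;> decide +kernel

theorem twoK : ∃ k : KK, k • na0 ≠ na0 := by
  refine ⟨(⟨ZFI_u, ZFI_mem⟩, 1), fun h => ?_⟩
  have h1 := congrArg Subtype.val h
  rw [KK_smul, smul_NN] at h1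
  change ZFI_u.1.mulVec ve1 = ve1 at h1
  rw [ZFI_mulVec] at h1
  have h2 := congrFun h1 2
  simp [ve1] at h2

end Pool.CBD
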