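import Pool.Agent.CBD.EDF
import Pool.Agent.CBD.ODF

/-!
# CBD: spaces with a geometric action

`GeomSpace G` : a nonempty proper CAT(0) space together with a geometric action of the group G.
-/

namespace Pool.CBD

/-- A nonempty proper CAT(0) space with a geometric action of G. -/
structure GeomSpace (G : Type) [Group G] where
  X : Type
  [metric : MetricSpace X]
  [action : MulAction G X]
  nonempty : Nonempty X
  proper : ProperSpace X
  cat0 : IsCAT0 X
  geometric : Geometric G X

attribute [instance] GeomSpace.metric GeomSpace.action

end Pool.CBD
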