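import Pool.Agent.CBD.ZDF

/-!
# CBD module ZID: the combinatorial data

PROOFS.  gam0 ^ i = gam0 ^ j implies i = j (apply `gam_spec` at s = 0: sinh (i Lg) = sinh (j Lg), Lg > 0), so
`idx_pow`.  `sgK_mem`: powers of gam0 fix na0.  `sgK_mul`, `sgK_sgK`: elements fixing na0 are of the form
(gam0^i, n) (`gam_spec`), and sgK (gam0^i, ofAdd n) = (gam0^n, ofAdd i).
-/

namespace Pool.CBD

open Real Set

theorem gam0_pow_inj {i j : ℤ} (h : gam0 ^ i = gam0 ^ j) : i = j := by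
  obtain ⟨h0, _, _, _, h4⟩ := gam_spec
  have h1 := h4 i 0
  have h2 := h4 j 0
  rw [h, h2] at h1
  have h3 : Real.sinh (0 + j * Lg) = Real.sinh (0 + i * Lg) := congrArg Hyp.x h1
  have h5 := Real.sinh_injective h3
  have h6 : ((j : ℝ) - i) * Lg = 0 := by linarith
  have h7 : (j : ℝ) - i = 0 := (mul_eq_zero.1 h6).resolve_right h0.ne'
  have h8 : (j : ℝ) = i := by linarith
  exact_mod_cast h8.symm

theorem idx_pow (i : ℤ) : idx (gam0 ^ i) = i := by
  have h : ∃ j : ℤ, gam0 ^ i = gam0 ^ j := ⟨i, rfl⟩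
  unfold idx
  rw [dif_pos h]
  exact (gam0_pow_inj h.choose_spec).symm

theorem gam0_pow_smul (i : ℤ) : (gam0 ^ i) • na0 = na0 :=
  (MulAction.stabilizer Gam na0).zpow_mem gam_spec.2.1 i

theorem stabK {k : KK} (hk : k • na0 = na0) :
    ∃ i n : ℤ, k = (gam0 ^ i, Multiplicative.ofAdd n) := by
  obtain ⟨i, hi⟩ := gam_spec.2.2.2.1 k.1 hk
  exact ⟨i, Multiplicative.toAdd k.2, Prod.ext hi rfl⟩

theorem sgK_pow (i n : ℤ) :
    sgK (gam0 ^ i, Multiplicative.ofAdd n) = (gam0 ^ n, Multiplicative.ofAdd i) := by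
  unfold sgK
  rw [idx_pow]
  rfl

theorem rK_smul (a : NN) : rK a • na0 = a := by
  unfold rK
  split_ifs with h
  · rw [one_smul, h]
  · exact Subtype.ext a.2.choose_spec

theorem rK_a0 : rK na0 = 1 := by
  unfold rK
  rw [if_pos rfl]

/-- The combinatorial data of the example. -/
noncomputable def datK : Dat KK NN where
  a0 := na0
  r := rK
  r_smul := rK_smul
  r_a0 := rK_a0
  sg := sgK
  sg_mem c hc := by
    obtain ⟨i, n, rfl⟩ := stabK hc
    rw [sgK_pow, KK_smul]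
    exact gam0_pow_smul n
  sg_mul c d hc hd := by
    obtain ⟨i, n, rfl⟩ := stabK hc
    obtain ⟨j, m, rfl⟩ := stabK hd
    have e : ((gam0 ^ i, Multiplicative.ofAdd n) * (gam0 ^ j, Multiplicative.ofAdd m) : KK) =
        (gam0 ^ (i + j), Multiplicative.ofAdd (n + m)) := by
      rw [Prod.mk_mul_mk, ← zpow_add, ofAdd_add]
    rw [e, sgK_pow, sgK_pow, sgK_pow, Prod.mk_mul_mk, ← zpow_add, ofAdd_add]
  sg_sg c hc := by
    obtain ⟨i, n, rfl⟩ := stabK hc
    rw [sgK_pow, sgK_pow]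

end Pool.CBD
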