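import Pool.Agent.CBD.ZLN
import Pool.Agent.CBD.ZFI
import Pool.Agent.CBD.CDt

/-!
# CBD module ZKD: the concrete data for the parameter P

Nothing to prove (assembly of ZID, ZAC, ZLN, ZFI).
-/

namespace Pool.CBD

open Real Set

/-- The data of the example with parameter P. -/
noncomputable def ckD (P : Par) : CDat KK NN where
  toDat := datK
  P := P
  act := actK P
  act_one := actK_one P
  act_mul := actK_mul P
  act_iso := actK_iso P
  side _ hc b := actK_side P hc b
  io_act _ hc _ hw := actK_io P hc hw
  line := lineK P
  ob := obK
  ob_off := ob_offK P
  two := twoK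
  walls_fin := walls_finK P
  act_fin := act_finK P
  cocpt := cocptK P

/-- The parameter of the first space. -/
noncomputable def par0 : Par := ⟨1, 0, by norm_num, by norm_num, le_refl _⟩

/-- The parameter of the second space. -/
noncomputable def par1 : Par := ⟨4 / 5, 3 / 5, by norm_num, by norm_num, by norm_num⟩

end Pool.CBD
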