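import Pool.Agent.CBD.ZAC

/-!
# CBD module ZLN: the walls of the block as lines; the base point is off the walls

PROOFS.  `wall_iff` : for every k, with u = (k • na0).1 = mat k.1 ve1: for w in W0,
lo (nv u) (actH g w.h) = lo (nv ve1) w.h = w.h.y = 0 (`lo_actH`); conversely w = actK P k⁻¹ b.
`nv_norm`: bj u u = 1 (`NN_norm`).  `lineK`: u1 from `NN_far_base`.
`ob_offK`: u ≡ (0,1,0) mod 12 (`NN_mod`) so u0 + u1 - 6 u2 is odd; the t coordinate of obK.h is √(6/5), and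
√3 √(6/5) = 6/√10, so lo (nv u) obK.h = (u0 + u1 - 6 u2)/√10 ≠ 0.
`walls_finK`: if lo (nv u) h = 0 with (nv u) a unit vector then (√3 u2)^2 ≤ h.t^2 - 1
((√3 u2 t)^2 = (u0 x + u1 y)^2 ≤ (u0^2 + u1^2)(x^2 + y^2) = (1 + 3 u2^2)(t^2 - 1)), and
h.t ≤ cosh (dist h0 h) is bounded; so u2, u0, u1 are bounded: finitely many u.
-/

namespace Pool.CBD

open Real Set

private theorem lo_ve1 (h : Hyp) : lo (nv ve1) h = h.y := by
  have e0 : nv ve1 0 = ((0 : ℤ) : ℝ) := rfl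
  have e1 : nv ve1 1 = ((1 : ℤ) : ℝ) := rfl
  have e2 : nv ve1 2 = √3 * ((0 : ℤ) : ℝ) := rfl
  unfold lo
  rw [e0, e1, e2]
  push_cast
  ring

private theorem lo_act (P : Par) (k : KK) (w : Blk) :
    lo (nv (k • na0).1) (actK P k w).h = w.h.y := by
  rw [← lo_ve1 w.h]
  exact lo_actH k.1.2.1 ve1 w.h

theorem wall_iff (P : Par) (k : KK) (b : Blk) :
    (∃ w ∈ W0, actK P k w = b) ↔ lo (nv (k • na0).1) b.h = 0 := by
  constructor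
  · rintro ⟨w, hw, rfl⟩
    rw [lo_act]
    exact hw
  · intro h
    have e : actK P k (actK P k⁻¹ b) = b := by
      rw [← actK_mul, mul_inv_cancel, actK_one]
    refine ⟨actK P k⁻¹ b, ?_, e⟩
    rw [mem_W0, ← lo_act P k, e]
    exact h

theorem nv_norm (a : NN) : nv a.1 0 ^ 2 + nv a.1 1 ^ 2 - nv a.1 2 ^ 2 = 1 := by
  have h := NN_norm a
  unfold bj at h
  have h' : ((a.1 0 : ℤ) : ℝ) * (a.1 0 : ℤ) + (a.1 1 : ℤ) * (a.1 1 : ℤ) -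
      3 * ((a.1 2 : ℤ) * (a.1 2 : ℤ)) = 1 := by exact_mod_cast h
  have h3 : √3 * √3 = (3 : ℝ) := Real.mul_self_sqrt (by norm_num)
  have e0 : nv a.1 0 = ((a.1 0 : ℤ) : ℝ) := rfl
  have e1 : nv a.1 1 = ((a.1 1 : ℤ) : ℝ) := rfl
  have e2 : nv a.1 2 = √3 * ((a.1 2 : ℤ) : ℝ) := rfl
  rw [e0, e1, e2]
  linear_combination h' - ((a.1 2 : ℤ) : ℝ) ^ 2 * h3

theorem lineK (P : Par) (k : KK) (hk : k • na0 ≠ na0) : ∃ u : Fin 3 → ℝ,
    u 0 ^ 2 + u 1 ^ 2 - u 2 ^ 2 = 1 ∧ 3 ≤ |u 1| ∧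
      ∀ b : Blk, (∃ w ∈ W0, actK P k w = b) ↔ lo u b.h = 0 := by
  refine ⟨nv (k • na0).1, nv_norm _, ?_, wall_iff P k⟩
  have h := NN_far_base hk
  have e1 : nv (k • na0).1 1 = (((k • na0).1 1 : ℤ) : ℝ) := rfl
  rw [e1]
  exact_mod_cast h

private theorem lo_ob (u : Fin 3 → ℤ) : lo (nv u) obK.h * √10 = ((u 0 + u 1 - 6 * u 2 : ℤ) : ℝ) := by
  have h10 : √10 * √10 = (10 : ℝ) := Real.mul_self_sqrt (by norm_num)
  have h3 : √3 * √3 = (3 : ℝ) := Real.mul_self_sqrt (by norm_num)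
  have p10 : (0 : ℝ) < √10 := Real.sqrt_pos.mpr (by norm_num)
  have p3 : (0 : ℝ) < √3 := Real.sqrt_pos.mpr (by norm_num)
  have e0 : nv u 0 = ((u 0 : ℤ) : ℝ) := rfl
  have e1 : nv u 1 = ((u 1 : ℤ) : ℝ) := rfl
  have e2 : nv u 2 = √3 * ((u 2 : ℤ) : ℝ) := rfl
  have x0 : obK.h.x = 1 / √10 := rfl
  have y0 : obK.h.y = 1 / √10 := rfl
  have t0 := obK.h.h
  have tp := obK.h.pos
  rw [x0, y0] at t0
  have t1 : (√3 * obK.h.t * √10) ^ 2 = 6 ^ 2 := by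
    have hx : (1 / √10) ^ 2 = (1 / 10 : ℝ) := by
      rw [div_pow, pow_two (√10), h10]
      norm_num
    rw [hx] at t0
    rw [mul_pow, mul_pow, t0, pow_two (√10), h10, pow_two (√3), h3]
    norm_num
  have t2 : √3 * obK.h.t * √10 = 6 := by
    have hp : 0 ≤ √3 * obK.h.t * √10 := by positivity
    nlinarith
  unfold lo
  rw [e0, e1, e2, x0, y0]
  push_cast
  have e3 : 1 / √10 * √10 = (1 : ℝ) := by field_simp
  linear_combination ((u 0 : ℝ) + u 1) * e3 - (u 2 : ℝ) * t2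

theorem ob_offK (P : Par) (k : KK) (w : Blk) (hw : w ∈ W0) : actK P k w ≠ obK := by
  intro h
  have h1 := (wall_iff P k obK).1 ⟨w, hw, h⟩
  have h2 := lo_ob (k • na0).1
  rw [h1, zero_mul] at h2
  have h3 : (k • na0).1 0 + (k • na0).1 1 - 6 * (k • na0).1 2 = 0 := by exact_mod_cast h2.symm
  obtain ⟨m0, m1, m2⟩ := NN_mod (k • na0)
  omega

private theorem lo_bd {u0 u1 u2 x y t : ℝ} (hn : u0 ^ 2 + u1 ^ 2 - u2 ^ 2 = 1)
    (ht : t ^ 2 = 1 + x ^ 2 + y ^ 2) (h : u0 * x + u1 * y - u2 * t = 0) : u2 ^ 2 ≤ t ^ 2 - 1 := by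
  have h1 : (u2 * t) ^ 2 + (u0 * y - u1 * x) ^ 2 = (u0 ^ 2 + u1 ^ 2) * (x ^ 2 + y ^ 2) := by
    have : u2 * t = u0 * x + u1 * y := by linarith
    rw [this]
    ring
  have h2 : u0 ^ 2 + u1 ^ 2 = 1 + u2 ^ 2 := by linarith
  have h3 : x ^ 2 + y ^ 2 = t ^ 2 - 1 := by linarith
  rw [h2, h3] at h1
  nlinarith [sq_nonneg (u0 * y - u1 * x)]

theorem walls_finK (P : Par) (R : ℝ) : {a : NN | ∃ w ∈ W0, dist obK (actK P (rK a) w) ≤ R}.Finite := by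
  obtain ⟨m, hm⟩ := exists_nat_ge (Real.cosh (dist (Hyp.of 0 0) obK.h + R))
  have hfin : ({u : Fin 3 → ℤ | ∀ i, u i ∈ Set.Icc (-(m : ℤ)) m}).Finite :=
    Set.Finite.pi' (fun _ => Set.finite_Icc _ _)
  refine (hfin.preimage Subtype.val_injective.injOn).subset ?_
  rintro a ⟨w, hw, hd⟩
  have h1 := (wall_iff P (rK a) (actK P (rK a) w)).1 ⟨w, hw, rfl⟩
  rw [rK_smul] at h1
  generalize actK P (rK a) w = b at h1 hd
  have h2 : dist obK.h b.h ≤ R := by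
    refine le_trans ?_ hd
    rw [Blk.dist_def]
    exact Real.le_sqrt_of_sq_le (by nlinarith [sq_nonneg (obK.v - b.v)])
  have h3 : b.h.t ≤ m := by
    have e : Real.cosh (dist (Hyp.of 0 0) b.h) = b.h.t := by
      rw [Hyp.cosh_dist]
      have ht : (Hyp.of 0 0).t = 1 := by
        change √(1 + (0 : ℝ) ^ 2 + 0 ^ 2) = 1
        norm_num
      change (Hyp.of 0 0).t * b.h.t - 0 * b.h.x - 0 * b.h.y = b.h.t
      rw [ht]
      ring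
    rw [← e]
    refine le_trans ?_ hm
    rw [Real.cosh_le_cosh, abs_of_nonneg dist_nonneg]
    refine le_trans ?_ (le_abs_self _)
    linarith [dist_triangle (Hyp.of 0 0) obK.h b.h]
  have h4 := nv_norm a
  have h5 := lo_bd h4 b.h.h h1
  have h6 : b.h.t ^ 2 ≤ (m : ℝ) ^ 2 := pow_le_pow_left₀ b.h.pos.le h3 2
  have h3' : √3 * √3 = (3 : ℝ) := Real.mul_self_sqrt (by norm_num)
  have e0 : nv a.1 0 = ((a.1 0 : ℤ) : ℝ) := rfl
  have e1 : nv a.1 1 = ((a.1 1 : ℤ) : ℝ) := rfl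
  have e2 : nv a.1 2 = √3 * ((a.1 2 : ℤ) : ℝ) := rfl
  rw [e0, e1] at h4
  have q2 : ((a.1 2 : ℤ) : ℝ) ^ 2 ≤ (m : ℝ) ^ 2 := by
    rw [e2, mul_pow, pow_two (√3), h3'] at h5
    nlinarith [sq_nonneg ((a.1 2 : ℤ) : ℝ)]
  have q0 : ((a.1 0 : ℤ) : ℝ) ^ 2 ≤ (m : ℝ) ^ 2 := by
    nlinarith [sq_nonneg ((a.1 1 : ℤ) : ℝ)]
  have q1 : ((a.1 1 : ℤ) : ℝ) ^ 2 ≤ (m : ℝ) ^ 2 := by
    nlinarith [sq_nonneg ((a.1 0 : ℤ) : ℝ)]
  have key : ∀ z : ℤ, ((z : ℤ) : ℝ) ^ 2 ≤ (m : ℝ) ^ 2 → z ∈ Set.Icc (-(m : ℤ)) m := by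
    intro z hz
    have hz' : z ^ 2 ≤ (m : ℤ) ^ 2 := by exact_mod_cast hz
    exact abs_le.1 (abs_le_of_sq_le_sq hz' (by positivity))
  intro i
  fin_cases i
  · exact key _ q0
  · exact key _ q1
  · exact key _ q2

end Pool.CBD
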