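import Pool.Agent.CBD.ZID
import Pool.Agent.CBD.CGP
import Pool.Agent.CBD.OEN
import Pool.Agent.CBD.BCC

/-!
# CBD module ZOE: the group is one-ended

PROOF.  `one_ended_of` with A = the range of g ↦ emb (g, 1) (g in Gam), SA = the image of the finite generating
set of `Gam_fg`, z = emb (1, ofAdd 1), t = tt datK, gam = emb (gam0, 1).
hz: (g,1) and (1,z) commute.  hfree: emb is injective (`emb_inj`) and gam0 ^ a = 1 implies a = 0
(`gam0_pow_inj`).  ht: `tt_mul_tt`.  htz: `tt_emb` (note (1, ofAdd 1) fixes na0) and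
sgK (1, ofAdd 1) = (gam0, ofAdd 0) (`sgK_pow` with i = 0, n = 1).
hgen: from `gen`: emb (g, ofAdd n) = emb (g, 1) * z ^ n.
-/

namespace Pool.CBD

open Real Set

theorem oneEnded : OneEnded (GG datK) := by
  classical
  obtain ⟨S, hS⟩ := Gam_fg
  obtain ⟨iota, hiota⟩ : ∃ iota : Gam →* GG datK,
    iota = (emb datK).comp (MonoidHom.inl Gam (Multiplicative ℤ)) := ⟨_, rfl⟩
  have hi : ∀ g : Gam, iota g = emb datK (g, 1) := by
    intro g
    rw [hiota]
    rfl
  have hA : Subgroup.closure ((S.image iota : Finset (GG datK)) : Set (GG datK)) = iota.range := by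
    rw [Finset.coe_image, ← MonoidHom.map_closure, hS, ← MonoidHom.range_eq_map]
  obtain ⟨z, hz⟩ : ∃ z : GG datK, z = emb datK (1, Multiplicative.ofAdd 1) := ⟨_, rfl⟩
  have hzn : ∀ n : ℤ, z ^ n = emb datK (1, Multiplicative.ofAdd n) := by
    intro n
    rw [hz, ← map_zpow]
    congr 1
    rw [Prod.pow_mk, one_zpow, ← ofAdd_zsmul]
    simp
  have hsplit : ∀ (g : Gam) (n : ℤ), emb datK (g, Multiplicative.ofAdd n) = iota g * z ^ n := by
    intro g n
    rw [hi, hzn, ← map_mul, Prod.mk_mul_mk, mul_one, one_mul]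
  refine one_ended_of iota.range (S.image iota) hA z (tt datK) (iota gam0) ?_ ⟨gam0, rfl⟩ ?_
    tt_mul_tt ?_ ?_
  · rintro _ ⟨g, rfl⟩
    rw [hi, hz, ← map_mul, ← map_mul, Prod.mk_mul_mk, Prod.mk_mul_mk, mul_one, one_mul, mul_one,
      one_mul]
  · intro a b h
    rw [← map_zpow, ← hsplit] at h
    have h2 := emb_inj (h.trans (map_one _).symm)
    have h3 := congrArg Prod.fst h2
    have h4 := congrArg Prod.snd h2
    refine ⟨gam0_pow_inj (h3.trans (zpow_zero _).symm), ?_⟩
    exact Multiplicative.ofAdd.injective h4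
  · have h := tt_emb (D := datK) (k := ((1, Multiplicative.ofAdd 1) : KK)) (by
      change ((1 : Gam), Multiplicative.ofAdd (1 : ℤ)) • na0 = na0
      rw [KK_smul, one_smul])
    rw [hz, h]
    have h2 := sgK_pow 0 1
    rw [zpow_zero, zpow_one, ofAdd_zero] at h2
    change emb datK (sgK (1, Multiplicative.ofAdd 1)) = _
    rw [h2, hi]
  · have hgen := gen (D := datK)
    have hz' : z ∈ Subgroup.closure ((iota.range : Set (GG datK)) ∪ {z, tt datK}) :=
      Subgroup.subset_closure (Set.mem_union_right _ (Set.mem_insert _ _))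
    have ht' : tt datK ∈ Subgroup.closure ((iota.range : Set (GG datK)) ∪ {z, tt datK}) :=
      Subgroup.subset_closure (Set.mem_union_right _ (Set.mem_insert_of_mem _ rfl))
    have hi' : ∀ g : Gam, iota g ∈ Subgroup.closure ((iota.range : Set (GG datK)) ∪ {z, tt datK}) :=
      fun g => Subgroup.subset_closure (Set.mem_union_left _ ⟨g, rfl⟩)
    rw [eq_top_iff, ← hgen, Subgroup.closure_le]
    rintro x (⟨⟨g, n⟩, rfl⟩ | hx)
    · have h1 : (emb datK) (g, n) = iota g * z ^ (Multiplicative.toAdd n) := hsplit g _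
      rw [h1]
      exact Subgroup.mul_mem _ (hi' g) (Subgroup.zpow_mem _ hz' _)
    · rw [Set.mem_singleton_iff] at hx
      rw [hx]
      exact ht'

end Pool.CBD
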